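import Pool.Agent.Lib.MP_424d38_an.ES.SpecG
import Pool.Agent.Lib.MP_424d38_an.SpecC

/-!
# Block ES, part H: the partial Fourier transform in `b` and the kinetic laws
-/

set_option autoImplicit false

open MeasureTheory Filter Topology Set
open scoped ENNReal ContDiff ComplexConjugate FourierTransform

noncomputable section

namespace Pool.Agent.Lib.MP424d38.ES

open Pool.Agent.Lib.MP424d38.TY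

/-- `P` is the partial Fourier transform in the second variable: for a.e. `a`, `(P f)(a,·) = 𝓕(f(a,·))`. -/
def IsPF (P : L2 ≃ₗᵢ[ℂ] L2) : Prop := ∀ f : L2, ∀ᵐ a : ℝ, ∀ h H : L2R,
  (∀ᵐ b : ℝ, h b = f (a, b)) → (∀ᵐ ξ : ℝ, H ξ = P f (a, ξ)) → (𝓕 h : L2R) = H

/-- `S = σ(D_b)`. -/
def IsMT (P : L2 ≃ₗᵢ[ℂ] L2) (σ : ℝ → ℝ) (S : L2 →L[ℂ] L2) : Prop :=
  ∀ f : L2, ∀ᵐ x : ℝ × ℝ, P (S f) x = ((σ (2 * Real.pi * x.2) : ℝ) : ℂ) * P f x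

/-- `M_σ(a) = ∫ σ(l)|f̂(a,l)|²`. -/
def Mo (P : L2 ≃ₗᵢ[ℂ] L2) (σ : ℝ → ℝ) (f : L2) (a : ℝ) : ℝ :=
  ∫ ξ, σ (2 * Real.pi * ξ) * ‖P f (a, ξ)‖ ^ 2

/-- `X(f) = ∬ |l| |f̂(a,l)|²`. -/
def XX (P : L2 ≃ₗᵢ[ℂ] L2) (f : L2) : ℝ := ∫ x : ℝ × ℝ, |2 * Real.pi * x.2| * ‖P f x‖ ^ 2

/-- `Y_K(f) = ∬ (|l|-K)₊ |f̂(a,l)|²`. -/
def YY (P : L2 ≃ₗᵢ[ℂ] L2) (K : ℝ) (f : L2) : ℝ :=
  ∫ x : ℝ × ℝ, max (|2 * Real.pi * x.2| - K) 0 * ‖P f x‖ ^ 2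

/-- the source `c_σ(a) = -2 Im ∫ conj(Sf) N db`. -/
def src (S : L2 →L[ℂ] L2) (f N : L2) (a : ℝ) : ℝ := -2 * ∫ b, (conj (S f (a, b)) * N (a, b)).im

/-- conservation law with a source, `f_t = -F_a + s`. -/
structure LawS (T : ℝ) (f F s : ℝ → L1) : Prop where
  cf : ContinuousOn f (Ico 0 T)
  cF : ContinuousOn F (Ico 0 T)
  cs : ContinuousOn s (Ico 0 T)
  law : ∀ β : ℝ → ℝ, Cb1 β → ∀ t t' : ℝ, 0 ≤ t → t ≤ t' → t' < T →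
    (∫ a, β a * f t' a) - ∫ a, β a * f t a
      = ∫ r in t..t', ((∫ a, deriv β a * F r a) + ∫ a, β a * s r a)

/-- `σ` is bounded, measurable, and `σ(l) - θ l` is `lam`-Lipschitz for some `θ`. -/
def Adm (lam : ℝ) (σ : ℝ → ℝ) : Prop := Measurable σ ∧ (∃ C : ℝ, ∀ l, |σ l| ≤ C) ∧
  ∃ θ : ℝ, ∀ l l', |(σ l - θ * l) - (σ l' - θ * l')| ≤ lam * |l - l'|

/-- `σ` is bounded, measurable, and `σ(l) - θ l` is `1`-Lipschitz and vanishes on `[-K,K]` for some `θ`. -/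
def AdmK (K : ℝ) (σ : ℝ → ℝ) : Prop := Measurable σ ∧ (∃ C : ℝ, ∀ l, |σ l| ≤ C) ∧
  ∃ θ : ℝ, (∀ l l', |(σ l - θ * l) - (σ l' - θ * l')| ≤ |l - l'|) ∧ ∀ l, |l| ≤ K → σ l - θ * l = 0

/-- PFX (existence of the partial Fourier transform).
Proof.  For a test function `ψ` put `P₀ψ(a,ξ) = ∫e^{-2πiξb}ψ(a,b)db`, continuous; by Plancherel on every slice and Tonelli
`∬|P₀ψ|² = ∬|ψ|²`.  Test functions are dense in `L2`; extend to a linear isometry `P` (`LinearMap.extend..`,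
`ContinuousLinearMap.extend`, or define it on `Lp` through a dense submodule).  Slices: let `ψ_n → f` in `L2`; a subsequence has
`ψ_n(a,·) → f(a,·)` and `P₀ψ_n(a,·) → Pf(a,·)` in `L²(ℝ)` for a.e. `a` (`∫‖ψ_n(a,·)-f(a,·)‖²da → 0`), and `𝓕` is continuous on
`L²(ℝ)`.  Surjective: the same construction with the inverse transform gives an isometry `P'` with `P P' = 1` (slices). -/
def SpecPFX : Prop := ∃ P : L2 ≃ₗᵢ[ℂ] L2, IsPF P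

/-- PSL (slices).  Hypotheses MX1.  Almost every slice of an `L2` function is in `L²(ℝ)` (Fubini). For a.e. `a` the two slices
`h, H` exist and `𝓕h = H` (`IsPF`).  (2) slice Parseval `∫conj f g db = ∫conj(Pf)(Pg)dξ`, (3) `Mo` is integrable in `a` when
`σ` is bounded and measurable, with integral `∬σ|Pf|²` and `‖·‖₁ ≤ C‖f‖²`. -/
def SpecPSL : Prop := ∀ P : L2 ≃ₗᵢ[ℂ] L2, IsPF P →
  (∀ f : L2, ∀ᵐ a : ℝ, ∃ h : L2R, (∀ᵐ b : ℝ, h b = f (a, b)) ∧ (∀ᵐ ξ : ℝ, (𝓕 h : L2R) ξ = P f (a, ξ))) ∧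
  (∀ f g : L2, ∀ᵐ a : ℝ, (∫ b, conj (f (a, b)) * g (a, b)) = ∫ ξ, conj (P f (a, ξ)) * P g (a, ξ)) ∧
  (∀ (σ : ℝ → ℝ) (C : ℝ), Measurable σ → (∀ l, |σ l| ≤ C) → ∀ f : L2,
    Integrable (Mo P σ f) ∧ (∫ a, Mo P σ f a) = (∫ x : ℝ × ℝ, σ (2 * Real.pi * x.2) * ‖P f x‖ ^ 2) ∧
    (∫ a, |Mo P σ f a|) ≤ C * ‖f‖ ^ 2)

/-- PD2 (the derivative in `b`).  Hypotheses PSL, MX1 (TRN of block TY: `dq h f → F₂`).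
Proof.  `P(trn h f)(a,ξ) = e^{2πihξ}Pf(a,ξ)` (slices: transform of a translate), so `P(dq h f) = ((e^{2πihξ}-1)/h)Pf`, which converges
to `PF₂` in `L²` and to `2πiξPf` pointwise. -/
def SpecPD2 : Prop := ∀ P : L2 ≃ₗᵢ[ℂ] L2, IsPF P →
  (∀ (h : ℝ) (f : L2), ∀ᵐ x : ℝ × ℝ, P (trn h f) x
    = Complex.exp (2 * Real.pi * Complex.I * ((h * x.2 : ℝ) : ℂ)) * P f x) ∧
  (∀ f F₁ F₂ : L2, IsH1 f F₁ F₂ → ∀ᵐ x : ℝ × ℝ, P F₂ x = 2 * Real.pi * Complex.I * (x.2 : ℂ) * P f x)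

/-- MTX (existence of the multiplier operators).  `S = P⁻¹ ∘ (multiplication by σ(2πξ)) ∘ P`. -/
def SpecMTX : Prop := ∀ P : L2 ≃ₗᵢ[ℂ] L2, IsPF P → ∀ (σ : ℝ → ℝ) (C : ℝ), Measurable σ → (∀ l, |σ l| ≤ C) →
  (∃ S : L2 →L[ℂ] L2, IsMT P σ S) ∧ (∀ S : L2 →L[ℂ] L2, IsMT P σ S → ∀ f : L2, ‖S f‖ ≤ C * ‖f‖)

/-- MTC (commutation).  Hypotheses PSL, PD2, MTX, TRN, LIN, DEN, SWP (block TY).
(1) slices: for a.e. `a`, `S f (a,·) = σ(D)f(a,·)`; this gives the selfadjointness with a factor `β(a)`: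
`∫β conj(f)·Sg = ∫β(a)∫conj(Pf)σPg = ∫β conj(Sf)·g`.
(2) `S` preserves `H¹`: `S` commutes with the translations in `b` (PD2) and in `a` (the translations in `a` commute with `P`:
slices), and `IsH1 f F₁ F₂` holds iff the difference quotients in both directions converge in `L²` to `F₁`, `F₂`: (→) TRN (3) and
its mirror image through `swp`; (←) `∫g(x)(ψ(x)-ψ(x-te))/t dx = ∫(g(x+te)-g(x))/t·(-1)..`, limit `t → 0`.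
Alternatively: `S` is a strong limit of operators `f ↦ ∫ k(s) trn s f ds`.
(3) `Lin` is preserved: `∫(Sf)ψ = ∫f S'ψ` where `S' ψ = conj(S conj ψ)` is an `H¹` function but not a test function: use EXT for
`v` with the `H¹` function `S'ψ`, `∂_a S'ψ = S' d1ψ`. -/
def SpecMTC : Prop := ∀ P : L2 ≃ₗᵢ[ℂ] L2, IsPF P → ∀ (σ : ℝ → ℝ) (C : ℝ) (S : L2 →L[ℂ] L2),
  Measurable σ → (∀ l, |σ l| ≤ C) → IsMT P σ S →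
  (∀ (β : ℝ → ℝ), Measurable β → (∃ B : ℝ, ∀ a, |β a| ≤ B) → ∀ f g : L2,
    (∫ x : ℝ × ℝ, ((β x.1 : ℝ) : ℂ) * (conj (f x) * S g x))
      = ∫ x : ℝ × ℝ, ((β x.1 : ℝ) : ℂ) * (conj (S f x) * g x)) ∧
  (∀ f F₁ F₂ : L2, IsH1 f F₁ F₂ → IsH1 (S f) (S F₁) (S F₂)) ∧
  (∀ (T : ℝ) (v v₁ v₂ N : ℝ → L2), Lin T v v₁ v₂ N →
    Lin T (fun t => S (v t)) (fun t => S (v₁ t)) (fun t => S (v₂ t)) (fun t => S (N t)))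

/-- MDE (densities as spectral integrals).  Hypotheses PSL, PD2. -/
def SpecMDE : Prop := ∀ P : L2 ≃ₗᵢ[ℂ] L2, IsPF P → ∀ f F₁ F₂ : L2, IsH1 f F₁ F₂ →
  (∀ᵐ a : ℝ, (Integrable fun ξ => (1 + (2 * Real.pi * ξ) ^ 2) * ‖P f (a, ξ)‖ ^ 2) ∧
    rhoD f a = Mo P (fun _ => 1) f a ∧ momD f F₂ a = Mo P (fun l => l) f a ∧
    rhoD F₂ a = Mo P (fun l => l ^ 2) f a) ∧
  (Integrable fun x : ℝ × ℝ => (1 + (2 * Real.pi * x.2) ^ 2) * ‖P f x‖ ^ 2) ∧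
  ‖F₂‖ ^ 2 = (∫ x : ℝ × ℝ, (2 * Real.pi * x.2) ^ 2 * ‖P f x‖ ^ 2)

/-- SLD (slice data).  Hypotheses PSL, PD2, MX1.  Everything is for a.e. `a`. -/
def SpecSLD : Prop := ∀ P : L2 ≃ₗᵢ[ℂ] L2, IsPF P → ∀ f F₁ F₂ : L2, IsH1 f F₁ F₂ →
  ∀ N : L2, (∀ᵐ x : ℝ × ℝ, N x = ((‖f x‖ ^ 2 : ℝ) : ℂ) * f x) →
  ∀ (σ : ℝ → ℝ) (S : L2 →L[ℂ] L2), IsMT P σ S → ∀ᵐ a : ℝ, ∃ h g : L2R,
    (∀ᵐ b : ℝ, h b = f (a, b)) ∧ (∀ᵐ b : ℝ, g b = S f (a, b)) ∧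
    (∀ᵐ ξ : ℝ, (𝓕 h : L2R) ξ = P f (a, ξ)) ∧ IsM σ h g ∧ E1 h ∧
    (∀ᵐ b : ℝ, N (a, b) = ((‖h b‖ ^ 2 : ℝ) : ℂ) * h b)

/-- SKY (source bound, first form).  Hypotheses SLD, KEY, SB1, MX1, MDE.
Proof.  For a.e. `a`, `h, g` from SLD; `d = D h` (MX1), `g' = g - θ d` has the symbol `σ - θ l` (Lipschitz), and
`Im∫conj(d)|h|²h = 0` (SB1); KEY for `g'`; `gm h = rhoD f a rhoD F₂ a - momD f F₂ a ^ 2` (MDE). -/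
def SpecSKY : Prop := ∀ P : L2 ≃ₗᵢ[ℂ] L2, IsPF P → ∀ f F₁ F₂ : L2, IsH1 f F₁ F₂ →
  ∀ N : L2, (∀ᵐ x : ℝ × ℝ, N x = ((‖f x‖ ^ 2 : ℝ) : ℂ) * f x) →
  ∀ (lam : ℝ) (σ : ℝ → ℝ) (S : L2 →L[ℂ] L2), 0 ≤ lam → Adm lam σ → IsMT P σ S →
    ∀ᵐ a : ℝ, |src S f N a| ≤ 4 / Real.pi * lam * (rhoD f a * rhoD F₂ a - momD f F₂ a ^ 2)

/-- the high frequency part of `γ`: `ρ₂e₂ - p₂²` for `χ_N(D)f`. -/
def g2 (P : L2 ≃ₗᵢ[ℂ] L2) (N : ℝ) (f : L2) (a : ℝ) : ℝ :=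
  Mo P (fun l => ch N l ^ 2) f a * Mo P (fun l => l ^ 2 * ch N l ^ 2) f a
    - Mo P (fun l => l * ch N l ^ 2) f a ^ 2

/-- SKS (source bound, second form).  Hypotheses SLD, SLI, SB1, MX1, MDE, CHF.  As SKY with SLI instead of KEY. -/
def SpecSKS : Prop := ∃ C : ℝ, 0 < C ∧ ∀ P : L2 ≃ₗᵢ[ℂ] L2, IsPF P → ∀ f F₁ F₂ : L2, IsH1 f F₁ F₂ →
  ∀ N : L2, (∀ᵐ x : ℝ × ℝ, N x = ((‖f x‖ ^ 2 : ℝ) : ℂ) * f x) →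
  ∀ (n K : ℝ) (σ : ℝ → ℝ) (S : L2 →L[ℂ] L2), 0 < n → 32 * n ≤ K → AdmK K σ → IsMT P σ S →
    (∀ᵐ a : ℝ, |src S f N a| ≤ C * (g2 P n f a + n / K * (rhoD f a * rhoD F₂ a - momD f F₂ a ^ 2))) ∧
    ∀ᵐ a : ℝ, 0 ≤ g2 P n f a

/-- MLW (the kinetic law).  Hypotheses MTX, MTC, PSL, MDE, PD2, BIL, DNS, SKY not needed.
Proof.  `m t`, `f t`, `c t` = `L1` classes of `Mo σ`, `4 Mo (lσ)` (`|lσ| ≤ C|l| ≤ C(1+l²)`), `src`.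
Continuity in `L¹`: `Mo σ (v t)(a) = Re∫conj(v)Sv db`, `Mo (lσ)(v t)(a) = Im∫conj(v)S v₂ db` (`P v₂ = 2πiξPv`), `src` are momenta of pairs of
`L2`-continuous functions (`momD`, DNS (5); note `Re(z) = Im(iz)`).
Law: BIL for `v` and `w = S v` (`Lin` by MTC), real part: `Re(4i∫β'conj(v₂)Sv) = 4∫β'Mo(lσ)` (slice Parseval:
`conj(2πiξPv)σPv = -2πiξσ|Pv|²`), and `i∫β(conj(v)SN - conj(N)Sv)`; by selfadjointness `∫βconj(v)SN = ∫βconj(Sv)N = z`,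
`∫βconj(N)Sv = conj z`, so it is `i(z - conj z) = -2Im z`. -/
def SpecMLW : Prop := ∀ P : L2 ≃ₗᵢ[ℂ] L2, IsPF P → ∀ (T : ℝ) (v v₁ v₂ N : ℝ → L2), Nls T v v₁ v₂ N →
  ∀ (σ : ℝ → ℝ) (C : ℝ) (S : L2 →L[ℂ] L2), Measurable σ → (∀ l, |σ l| ≤ C) → IsMT P σ S →
  ∃ m f c : ℝ → L1, LawS T m (fun t => (4 : ℝ) • f t) c ∧ ∀ t ∈ Ico 0 T,
    (∀ᵐ a : ℝ, m t a = Mo P σ (v t) a) ∧ (∀ᵐ a : ℝ, f t a = Mo P (fun l => l * σ l) (v t) a) ∧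
    (∀ᵐ a : ℝ, c t a = src S (v t) (N t) a)

/-- TOT (law of the total, `β = 1`).  Hypotheses MLW, PSL. -/
def SpecTOT : Prop := ∀ P : L2 ≃ₗᵢ[ℂ] L2, IsPF P → ∀ (T : ℝ) (v v₁ v₂ N : ℝ → L2), Nls T v v₁ v₂ N →
  ∀ (σ : ℝ → ℝ) (C : ℝ) (S : L2 →L[ℂ] L2), Measurable σ → (∀ l, |σ l| ≤ C) → IsMT P σ S →
  ContinuousOn (fun t => ∫ a, |src S (v t) (N t) a|) (Ico 0 T) ∧
  ∀ s t : ℝ, 0 ≤ s → s ≤ t → t < T →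
    |(∫ x : ℝ × ℝ, σ (2 * Real.pi * x.2) * ‖P (v t) x‖ ^ 2)
      - ∫ x : ℝ × ℝ, σ (2 * Real.pi * x.2) * ‖P (v s) x‖ ^ 2|
      ≤ ∫ r in s..t, ∫ a, |src S (v r) (N r) a|

/-- GGI (`g(t) = gD (v t)(v₂ t)` is nonnegative and locally integrable).  From FLO and UGB of block TY (`gF = gD`). -/
def SpecGGI : Prop := ∀ (T : ℝ) (v v₁ v₂ N : ℝ → L2), Nls T v v₁ v₂ N →
  ∀ t ∈ Ico 0 T, 0 ≤ gD (v t) (v₂ t) ∧ IntegrableOn (fun r => gD (v r) (v₂ r)) (Icc 0 t)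

/-- XGR (growth of `X`).  Hypotheses TOT, SKY, MTX, MDE, GGI.
Proof.  `σ_K(l) = min(|l|,K)`: Lipschitz 1, bounded; `∫|src| ≤ (4/π) g ≤ 2g`; `∬σ_K|Pv(t)|² ≤ ∬σ_K|Pv(s)|² + (4/π)∫g`; `K → ∞` by monotone
convergence (`X(v t) < ∞` by MDE).  (2) `|momD| ≤ ∫|l||Pf|²`. -/
def SpecXGR : Prop := ∀ P : L2 ≃ₗᵢ[ℂ] L2, IsPF P → ∀ (T : ℝ) (v v₁ v₂ N : ℝ → L2), Nls T v v₁ v₂ N →
  (∀ s t : ℝ, 0 ≤ s → s ≤ t → t < T →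
    0 ≤ XX P (v t) ∧ XX P (v t) ≤ XX P (v s) + 4 / Real.pi * ∫ r in s..t, gD (v r) (v₂ r)) ∧
  (∀ t ∈ Ico 0 T, (∫ a, |momD (v t) (v₂ t) a|) ≤ XX P (v t))

end Pool.Agent.Lib.MP424d38.ES
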