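import Pool.Agent.Lib.MP_424d38_an.SpecC
import Pool.Agent.Lib.MP_424d38_an.ES.SpecH

section
/-!
# Common lemmas for the modules TRN, BIL, MML (pairings on `L²(ℝ × ℝ)`)
-/
set_option autoImplicit false

open MeasureTheory Filter Topology Set
open scoped ENNReal ContDiff ComplexConjugate InnerProductSpace

noncomputable section

namespace Pool.Agent.Lib.MP424d38.TY.BILM

open Pool.Agent.Lib.MP424d38.TY

theorem test_memLp {ψ : ℝ × ℝ → ℂ} (hψ : Test ψ) (p : ℝ≥0∞) : MemLp ψ p volume :=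
  hψ.1.continuous.memLp_of_hasCompactSupport hψ.2

/-- the bilinear pairing with a fixed element of `L2` as a continuous linear functional. -/
def pr (g : L2) : L2 →L[ℂ] ℂ := innerSL ℂ (star g)

theorem pr_apply (g f : L2) : pr g f = ∫ x, f x * g x := by
  unfold pr
  rw [innerSL_apply_apply, MeasureTheory.L2.inner_def]
  apply integral_congr_ae
  filter_upwards [Lp.coeFn_star g] with x hx
  rw [RCLike.inner_apply, hx]
  simp

theorem inner_eq (g f : L2) : ⟪g, f⟫_ℂ = ∫ x, conj (g x) * f x := by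
  rw [MeasureTheory.L2.inner_def]
  apply integral_congr_ae
  filter_upwards with x
  rw [RCLike.inner_apply, mul_comm]

theorem mulC_memLp {β : ℝ → ℝ} (hβ : Continuous β) {C : ℝ} (hC : ∀ a, |β a| ≤ C) (g : L2) :
    MemLp (fun x : ℝ × ℝ => ((β x.1 : ℝ) : ℂ) * g x) 2 volume := by
  refine MemLp.of_le_mul (c := C) (Lp.memLp g) ?_ ?_
  · exact ((Complex.continuous_ofReal.comp (hβ.comp continuous_fst)).aestronglyMeasurable).mul
      (Lp.aestronglyMeasurable g)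
  · filter_upwards with x
    rw [norm_mul, Complex.norm_real, Real.norm_eq_abs]
    exact mul_le_mul_of_nonneg_right (hC _) (norm_nonneg _)

/-- multiplication by a bounded continuous function of the first coordinate. -/
def mulC (β : ℝ → ℝ) (hβ : Continuous β) (C : ℝ) (hC : ∀ a, |β a| ≤ C) : L2 →L[ℂ] L2 :=
  LinearMap.mkContinuous
    { toFun := fun g => (mulC_memLp hβ hC g).toLp _
      map_add' := by
        intro f g
        rw [← MemLp.toLp_add]
        apply (MemLp.toLp_eq_toLp_iff _ _).2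
        filter_upwards [Lp.coeFn_add f g] with x hx
        simp only [Pi.add_apply] at hx ⊢
        rw [hx]; ring
      map_smul' := by
        intro c g
        rw [RingHom.id_apply, ← MemLp.toLp_const_smul]
        apply (MemLp.toLp_eq_toLp_iff _ _).2
        filter_upwards [Lp.coeFn_smul c g] with x hx
        simp only [Pi.smul_apply, smul_eq_mul] at hx ⊢
        rw [hx]; ring } C
    (by
      intro g
      refine Lp.norm_le_mul_norm_of_ae_le_mul ?_
      filter_upwards [MemLp.coeFn_toLp (mulC_memLp hβ hC g)] with x hx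
      simp only [LinearMap.coe_mk, AddHom.coe_mk]
      rw [hx, norm_mul, Complex.norm_real, Real.norm_eq_abs]
      exact mul_le_mul_of_nonneg_right (hC _) (norm_nonneg _))

theorem mulC_coe {β : ℝ → ℝ} (hβ : Continuous β) {C : ℝ} (hC : ∀ a, |β a| ≤ C) (g : L2) :
    ∀ᵐ x : ℝ × ℝ, mulC β hβ C hC g x = ((β x.1 : ℝ) : ℂ) * g x :=
  MemLp.coeFn_toLp (mulC_memLp hβ hC g)

theorem mulC_norm_le {β : ℝ → ℝ} (hβ : Continuous β) {C : ℝ} (hC : ∀ a, |β a| ≤ C) (g : L2) :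
    ‖mulC β hβ C hC g‖ ≤ C * ‖g‖ := by
  refine Lp.norm_le_mul_norm_of_ae_le_mul ?_
  filter_upwards [mulC_coe hβ hC g] with x hx
  rw [hx, norm_mul, Complex.norm_real, Real.norm_eq_abs]
  exact mul_le_mul_of_nonneg_right (hC _) (norm_nonneg _)

/-- the sesquilinear form `∫ β f̄ g` as an inner product. -/
theorem form_eq {β : ℝ → ℝ} (hβ : Continuous β) {C : ℝ} (hC : ∀ a, |β a| ≤ C) (f g : L2) :
    (∫ x : ℝ × ℝ, ((β x.1 : ℝ) : ℂ) * (conj (f x) * g x)) = ⟪f, mulC β hβ C hC g⟫_ℂ := by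
  rw [inner_eq]
  apply integral_congr_ae
  filter_upwards [mulC_coe hβ hC g] with x hx
  rw [hx]; ring

theorem form_symm {β : ℝ → ℝ} (f g : L2) :
    (∫ x : ℝ × ℝ, ((β x.1 : ℝ) : ℂ) * (conj (f x) * g x))
      = conj (∫ x : ℝ × ℝ, ((β x.1 : ℝ) : ℂ) * (conj (g x) * f x)) := by
  rw [← integral_conj]
  congr 1
  ext x
  simp only [map_mul, Complex.conj_conj, Complex.conj_ofReal]
  ring

theorem int_mul {f g : ℝ × ℝ → ℂ} (hf : MemLp f 2 volume) (hg : MemLp g 2 volume) :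
    Integrable (fun x => f x * g x) volume :=
  hf.integrable_mul hg

theorem form_int {β : ℝ → ℝ} (hβ : Continuous β) {C : ℝ} (hC : ∀ a, |β a| ≤ C) (f g : L2) :
    Integrable (fun x : ℝ × ℝ => ((β x.1 : ℝ) : ℂ) * (conj (f x) * g x)) volume := by
  have h1 : MemLp (fun x => conj (f x)) 2 volume := (Lp.memLp f).star
  have h2 := int_mul h1 (mulC_memLp hβ hC g)
  refine h2.congr ?_
  filter_upwards with x
  ring

theorem cb1_cont {β : ℝ → ℝ} (hβ : Cb1 β) : Continuous β := hβ.1.continuous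

theorem cb1_dcont {β : ℝ → ℝ} (hβ : Cb1 β) : Continuous (deriv β) := hβ.1.continuous_deriv le_rfl

end Pool.Agent.Lib.MP424d38.TY.BILM
end
end

section
/-!
# Module BIL: the bilinear identity
-/
set_option autoImplicit false

open MeasureTheory Filter Topology Set
open scoped ENNReal ContDiff ComplexConjugate InnerProductSpace

noncomputable section

namespace Pool.Agent.Lib.MP424d38.TY.BILM

open Pool.Agent.Lib.MP424d38.TY

/-- fundamental theorem of calculus in the form used here. -/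
theorem ftc {T : ℝ} {E : ℝ → ℂ} {F : ℝ → ℝ → ℝ → ℂ} (hE : ContinuousOn E (Ico 0 T))
    (hF : ContinuousOn (fun p : ℝ × ℝ × ℝ => F p.1 p.2.1 p.2.2) (Ico 0 T ×ˢ Ico 0 T ×ˢ Ico 0 T))
    (h : ∀ t u : ℝ, 0 ≤ t → t ≤ u → u < T → E u - E t = ∫ r in t..u, F t u r) :
    ∀ s t : ℝ, 0 ≤ s → s ≤ t → t < T → E t - E s = ∫ r in s..t, F r r r := by
  intro s t hs hst ht
  have hsub : Icc s t ⊆ Ico 0 T := fun r hr => ⟨hs.trans hr.1, hr.2.trans_lt ht⟩
  have hdiag : ContinuousOn (fun r => F r r r) (Ico 0 T) := by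
    have h1 : ContinuousOn (fun r : ℝ => ((r, r, r) : ℝ × ℝ × ℝ)) (Ico 0 T) := by fun_prop
    exact hF.comp h1 (fun r hr => ⟨hr, hr, hr⟩)
  symm
  refine intervalIntegral.integral_eq_sub_of_hasDeriv_right_of_le hst (hE.mono hsub) ?_
    ((hdiag.mono hsub).intervalIntegrable_of_Icc hst)
  intro x hx
  have hxT : x ∈ Ico 0 T := hsub (Ioo_subset_Icc_self hx)
  rw [hasDerivWithinAt_iff_isLittleO, Asymptotics.isLittleO_iff]
  intro c hc
  have h2 := hF (x, x, x) ⟨hxT, hxT, hxT⟩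
  rw [Metric.continuousWithinAt_iff] at h2
  obtain ⟨δ, hδ, h3⟩ := h2 c hc
  have h4 : ∀ᶠ u in 𝓝[>] x, u < min (x + δ) T := by
    have : x < min (x + δ) T := lt_min (by linarith) hxT.2
    exact nhdsWithin_le_nhds (Iio_mem_nhds this)
  filter_upwards [h4, self_mem_nhdsWithin] with u hu hxu
  have hxu' : x ≤ u := le_of_lt hxu
  have huT : u < T := hu.trans_le (min_le_right _ _)
  have huδ : u < x + δ := hu.trans_le (min_le_left _ _)
  have hmem : ∀ r ∈ Icc x u, r ∈ Ico 0 T := fun r hr => ⟨hxT.1.trans hr.1, hr.2.trans_lt huT⟩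
  have hint : IntervalIntegrable (fun r => F x u r) volume x u := by
    have h5 : ContinuousOn (fun r => F x u r) (Icc x u) := by
      have h1 : ContinuousOn (fun r : ℝ => ((x, u, r) : ℝ × ℝ × ℝ)) (Icc x u) := by fun_prop
      exact hF.comp h1 (fun r hr => ⟨hxT, hmem u ⟨hxu', le_rfl⟩, hmem r hr⟩)
    exact h5.intervalIntegrable_of_Icc hxu'
  have h6 : E u - E x - (u - x) • F x x x = ∫ r in x..u, (F x u r - F x x x) := by
    rw [intervalIntegral.integral_sub hint intervalIntegrable_const,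
      intervalIntegral.integral_const, h x u hxT.1 hxu' huT]
  rw [h6]
  have h7 := intervalIntegral.norm_integral_le_of_norm_le_const (a := x) (b := u)
    (f := fun r => F x u r - F x x x) (C := c) (by
      intro r hr
      rw [uIoc_of_le hxu'] at hr
      have h8 : dist ((x, u, r) : ℝ × ℝ × ℝ) (x, x, x) < δ := by
        rw [Prod.dist_eq, Prod.dist_eq, dist_self]
        apply max_lt hδ
        apply max_lt
        · rw [Real.dist_eq, abs_of_nonneg (by linarith)]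
          linarith
        · rw [Real.dist_eq, abs_of_nonneg (by linarith [hr.1])]
          linarith [hr.2]
      have h9 := h3 (x := ((x, u, r) : ℝ × ℝ × ℝ))
        ⟨hxT, hmem u ⟨hxu', le_rfl⟩, hmem r ⟨hr.1.le, hr.2⟩⟩ h8
      rw [dist_eq_norm] at h9
      exact h9.le)
  exact h7

theorem mulC_adj {β : ℝ → ℝ} (hβ : Continuous β) {C : ℝ} (hC : ∀ a, |β a| ≤ C) (f g : L2) :
    ⟪mulC β hβ C hC f, g⟫_ℂ = ⟪f, mulC β hβ C hC g⟫_ℂ := by
  rw [inner_eq, inner_eq]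
  apply integral_congr_ae
  filter_upwards [mulC_coe hβ hC f, mulC_coe hβ hC g] with x h1 h2
  rw [h1, h2, map_mul, Complex.conj_ofReal]
  ring

theorem star_pair (f g : L2) : ∫ x, f x * (star g : L2) x = ⟪g, f⟫_ℂ := by
  rw [inner_eq]
  apply integral_congr_ae
  filter_upwards [Lp.coeFn_star g] with x hx
  rw [hx, mul_comm]
  rfl

theorem conj_ii {f : ℝ → ℂ} {a b : ℝ} (hab : a ≤ b) :
    ∫ r in a..b, conj (f r) = conj (∫ r in a..b, f r) := by
  rw [intervalIntegral.integral_of_le hab, intervalIntegral.integral_of_le hab, integral_conj]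

end Pool.Agent.Lib.MP424d38.TY.BILM

namespace Pool.Agent.Lib.MP424d38.TY

open BILM in
theorem specBIL (hEXT : SpecEXT) (hMUL : SpecMUL) (hLIN : SpecLIN) : SpecBIL := by
  intro T v v₁ v₂ N w w₁ w₂ N' hv hw β hβ
  have hβ0 : Cb1 β := hβ
  obtain ⟨hβd, C, hC⟩ := hβ
  have hb : Continuous β := cb1_cont hβ0
  have hb' : Continuous (deriv β) := cb1_dcont hβ0
  set M : L2 →L[ℂ] L2 := mulC β hb C (fun a => (hC a).1) with hM
  set M' : L2 →L[ℂ] L2 := mulC (deriv β) hb' C (fun a => (hC a).2) with hM'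
  have hMc : ∀ g : L2, ∀ᵐ x : ℝ × ℝ, M g x = ((β x.1 : ℝ) : ℂ) * g x := mulC_coe hb _
  have hMc' : ∀ g : L2, ∀ᵐ x : ℝ × ℝ, M' g x = ((deriv β x.1 : ℝ) : ℂ) * g x := mulC_coe hb' _
  have hadj : ∀ f g : L2, ⟪M f, g⟫_ℂ = ⟪f, M g⟫_ℂ := mulC_adj hb _
  -- the H¹ functions used for testing
  have hH : ∀ f F₁ F₂ : L2, IsH1 f F₁ F₂ →
      IsH1 (star (M f)) (star (M F₁ + M' f)) (star (M F₂)) := by
    intro f F₁ F₂ hf
    have h1 : IsH1 (M f) (M F₁ + M' f) (M F₂) := by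
      refine hMUL β hβ0 f F₁ F₂ _ _ _ hf (hMc f) ?_ (hMc F₂)
      filter_upwards [Lp.coeFn_add (M F₁) (M' f), hMc F₁, hMc' f] with x h1 h2 h3
      rw [h1, Pi.add_apply, h2, h3]
    exact hLIN.2.2.2.2 _ _ _ _ _ _ h1 (Lp.coeFn_star _) (Lp.coeFn_star _) (Lp.coeFn_star _)
  -- continuity of the objects on the cube
  set S : Set (ℝ × ℝ × ℝ) := Ico 0 T ×ˢ Ico 0 T ×ˢ Ico 0 T with hS
  have c1 : ∀ g : ℝ → L2, ContinuousOn g (Ico 0 T) → ContinuousOn (fun p : ℝ × ℝ × ℝ => g p.1) S :=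
    fun g hg => hg.comp continuousOn_fst (fun p hp => hp.1)
  have c2 : ∀ g : ℝ → L2, ContinuousOn g (Ico 0 T) → ContinuousOn (fun p : ℝ × ℝ × ℝ => g p.2.1) S :=
    fun g hg => hg.comp (continuous_fst.comp continuous_snd).continuousOn (fun p hp => hp.2.1)
  have c3 : ∀ g : ℝ → L2, ContinuousOn g (Ico 0 T) → ContinuousOn (fun p : ℝ × ℝ × ℝ => g p.2.2) S :=
    fun g hg => hg.comp (continuous_snd.comp continuous_snd).continuousOn (fun p hp => hp.2.2)
  set F : ℝ → ℝ → ℝ → ℂ := fun t u r =>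
    conj (Complex.I * (-4 * ⟪M (w₁ u) + M' (w u), v₂ r⟫_ℂ + ⟪M (w u), N r⟫_ℂ))
      + Complex.I * (-4 * ⟪M (v₂ t), w₁ r⟫_ℂ + ⟪M (v t), N' r⟫_ℂ) with hFdef
  set E : ℝ → ℂ := fun t => ⟪v t, M (w t)⟫_ℂ with hE
  have hFc : ContinuousOn (fun p : ℝ × ℝ × ℝ => F p.1 p.2.1 p.2.2) S := by
    have a1 : ContinuousOn (fun p : ℝ × ℝ × ℝ => ⟪M (w₁ p.2.1) + M' (w p.2.1), v₂ p.2.2⟫_ℂ) S :=
      ((M.continuous.comp_continuousOn (c2 _ hw.c1)).add
        (M'.continuous.comp_continuousOn (c2 _ hw.cv))).inner (c3 _ hv.c2)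
    have a2 : ContinuousOn (fun p : ℝ × ℝ × ℝ => ⟪M (w p.2.1), N p.2.2⟫_ℂ) S :=
      (M.continuous.comp_continuousOn (c2 _ hw.cv)).inner (c3 _ hv.cN)
    have a3 : ContinuousOn (fun p : ℝ × ℝ × ℝ => ⟪M (v₂ p.1), w₁ p.2.2⟫_ℂ) S :=
      (M.continuous.comp_continuousOn (c1 _ hv.c2)).inner (c3 _ hw.c1)
    have a4 : ContinuousOn (fun p : ℝ × ℝ × ℝ => ⟪M (v p.1), N' p.2.2⟫_ℂ) S :=
      (M.continuous.comp_continuousOn (c1 _ hv.cv)).inner (c3 _ hw.cN)
    refine ContinuousOn.add ?_ ?_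
    · exact Complex.continuous_conj.comp_continuousOn
        (continuousOn_const.mul ((continuousOn_const.mul a1).add a2))
    · exact continuousOn_const.mul ((continuousOn_const.mul a3).add a4)
  have hEc : ContinuousOn E (Ico 0 T) := hv.cv.inner (M.continuous.comp_continuousOn hw.cv)
  have hinc : ∀ t u : ℝ, 0 ≤ t → t ≤ u → u < T → E u - E t = ∫ r in t..u, F t u r := by
    intro t u h0 htu hu
    have ht' : t ∈ Ico 0 T := ⟨h0, htu.trans_lt hu⟩
    have hu' : u ∈ Ico 0 T := ⟨h0.trans htu, hu⟩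
    have e1 := (hEXT T v v₁ v₂ N hv _ _ _ (hH _ _ _ (hw.h1 u hu')) t u h0 htu hu).1
    have e2 := (hEXT T w w₁ w₂ N' hw _ _ _ (hH _ _ _ (hv.h1 t ht')) t u h0 htu hu).2
    simp only [star_pair] at e1 e2
    have e3 := congrArg (fun z : ℂ => conj z) e1
    simp only [map_sub, inner_conj_symm] at e3
    rw [← conj_ii htu] at e3
    have hsub : Icc t u ⊆ Ico 0 T := fun r hr => ⟨h0.trans hr.1, hr.2.trans_lt hu⟩
    have i1 : IntervalIntegrable (fun r => conj (Complex.I *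
        (-4 * ⟪M (w₁ u) + M' (w u), v₂ r⟫_ℂ + ⟪M (w u), N r⟫_ℂ))) volume t u := by
      refine ContinuousOn.intervalIntegrable_of_Icc htu ?_
      exact Complex.continuous_conj.comp_continuousOn
        (continuousOn_const.mul ((continuousOn_const.mul
          (continuousOn_const.inner (hv.c2.mono hsub))).add
            (continuousOn_const.inner (hv.cN.mono hsub))))
    have i2 : IntervalIntegrable (fun r => Complex.I *
        (-4 * ⟪M (v₂ t), w₁ r⟫_ℂ + ⟪M (v t), N' r⟫_ℂ)) volume t u := by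
      refine ContinuousOn.intervalIntegrable_of_Icc htu ?_
      exact (continuousOn_const.mul ((continuousOn_const.mul
          (continuousOn_const.inner (hw.c1.mono hsub))).add
            (continuousOn_const.inner (hw.cN.mono hsub))))
    rw [hFdef]
    simp only
    rw [intervalIntegral.integral_add i1 i2, ← e3, ← e2, hadj, hadj]
    simp only [hE]
    ring
  intro s t hs hst ht
  have hfin := ftc hEc hFc hinc s t hs hst ht
  have hform : ∀ f g : L2, (∫ x : ℝ × ℝ, ((β x.1 : ℝ) : ℂ) * (conj (f x) * g x)) = ⟪f, M g⟫_ℂ :=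
    form_eq hb _
  have hform' : ∀ f g : L2, (∫ x : ℝ × ℝ, ((deriv β x.1 : ℝ) : ℂ) * (conj (f x) * g x))
      = ⟪f, M' g⟫_ℂ := form_eq hb' _
  rw [hform, hform]
  have h9 : ⟪v t, M (w t)⟫_ℂ - ⟪v s, M (w s)⟫_ℂ = E t - E s := rfl
  rw [h9, hfin]
  apply intervalIntegral.integral_congr
  intro r _
  simp only
  rw [hform']
  have h10 : (∫ x : ℝ × ℝ, ((β x.1 : ℝ) : ℂ) * (conj (v r x) * N' r x - conj (N r x) * w r x))
      = ⟪v r, M (N' r)⟫_ℂ - ⟪N r, M (w r)⟫_ℂ := by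
    rw [← hform, ← hform, ← integral_sub (form_int hb (fun a => (hC a).1) _ _)
      (form_int hb (fun a => (hC a).1) _ _)]
    congr 1
    ext x
    ring
  rw [h10, hFdef]
  simp only
  rw [map_mul, Complex.conj_I, map_add, map_mul, inner_conj_symm, inner_conj_symm, hadj, hadj,
    inner_add_right]
  have h11 : conj (-4 : ℂ) = -4 := by
    rw [map_neg, map_ofNat]
  rw [h11]
  ring

end Pool.Agent.Lib.MP424d38.TY
end
end

section
/-! # DQL: the difference quotient solves the linear equation -/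
set_option autoImplicit false

open MeasureTheory Filter Topology Set
open scoped ENNReal ContDiff ComplexConjugate

noncomputable section

namespace Pool.Agent.Lib.MP424d38.TY

namespace DQLM

/-- pairing with a test function is an inner product -/
theorem pairing {φ : ℝ × ℝ → ℂ} (h1 : Continuous φ) (h2 : HasCompactSupport φ) :
    ∃ u : L2, ∀ f : L2, ∫ x, f x * φ x = inner ℂ u f := by
  have hm : MemLp (fun x => conj (φ x)) 2 (volume : Measure (ℝ × ℝ)) :=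
    (Complex.continuous_conj.comp h1).memLp_of_hasCompactSupport (h2.comp_left (map_zero _))
  refine ⟨hm.toLp _, fun f => ?_⟩
  rw [L2.inner_def]
  refine integral_congr_ae ?_
  filter_upwards [hm.coeFn_toLp] with x hx
  rw [hx]
  simp [RCLike.inner_apply]

theorem test_cont {ψ : ℝ × ℝ → ℂ} (h : Test ψ) : Continuous (d1 ψ) ∧ HasCompactSupport (d1 ψ) :=
  ⟨(h.1.continuous_fderiv (by simp)).clm_apply continuous_const, h.2.fderiv_apply ℝ (1, 0)⟩

/-- translated test functions -/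
theorem test_shift {ψ : ℝ × ℝ → ℂ} (h : Test ψ) (e : ℝ × ℝ) : Test (fun x => ψ (x - e)) := by
  refine ⟨h.1.comp (contDiff_id.sub contDiff_const), ?_⟩
  exact h.2.comp_homeomorph (Homeomorph.subRight e)

theorem d1_shift (ψ : ℝ × ℝ → ℂ) (e x : ℝ × ℝ) :
    d1 (fun x => ψ (x - e)) x = d1 ψ (x - e) := by
  show fderiv ℝ (fun x => ψ (x - e)) x (1, 0) = fderiv ℝ ψ (x - e) (1, 0)
  rw [fderiv_comp_sub e]

/-- change of variables -/
theorem int_trn (hT : SpecTRN) (h : ℝ) (f : L2) (φ : ℝ × ℝ → ℂ) :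
    ∫ x, trn h f x * φ x = ∫ x, f x * φ (x - ((0 : ℝ), h)) := by
  have h8 := hT.2.2.2.2.2.2.2 h f
  have h1 : ∫ x, trn h f x * φ x = ∫ x, f (x + ((0 : ℝ), h)) * φ x := by
    refine integral_congr_ae ?_
    filter_upwards [h8] with x hx
    rw [hx]
    congr 2
    ext <;> simp
  rw [h1, ← integral_add_right_eq_self (fun x => f x * φ (x - ((0 : ℝ), h))) ((0 : ℝ), h)]
  simp only [add_sub_cancel_right]

theorem trn_sub (hT : SpecTRN) (h : ℝ) (f g : L2) : trn h (f - g) = trn h f - trn h g := by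
  have h6 := hT.2.2.2.2.2.1 h
  have h1 := h6 (f - g) g
  rw [sub_add_cancel] at h1
  exact (sub_eq_of_eq_add h1).symm

theorem trn_cont (hT : SpecTRN) (h : ℝ) : Continuous (trn h) := by
  have h5 := hT.2.2.2.2.1 h
  have hi : Isometry (trn h) := by
    refine Isometry.of_dist_eq fun f g => ?_
    rw [dist_eq_norm, dist_eq_norm, ← trn_sub hT, h5]
  exact hi.continuous

theorem lin_trn (hT : SpecTRN) {T : ℝ} {v v₁ v₂ N : ℝ → L2} (hL : Lin T v v₁ v₂ N) (h : ℝ) :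
    Lin T (fun t => trn h (v t)) (fun t => trn h (v₁ t)) (fun t => trn h (v₂ t))
      (fun t => trn h (N t)) where
  h1 t ht := hT.1 h _ _ _ (hL.h1 t ht)
  cv := (trn_cont hT h).comp_continuousOn hL.cv
  c1 := (trn_cont hT h).comp_continuousOn hL.c1
  c2 := (trn_cont hT h).comp_continuousOn hL.c2
  cN := (trn_cont hT h).comp_continuousOn hL.cN
  eq ψ hψ s t hs hst ht := by
    have h1 := hL.eq _ (test_shift hψ ((0 : ℝ), h)) s t hs hst ht
    simp only [int_trn hT, d1_shift] at h1 ⊢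
    exact h1

/-- linear combinations -/
theorem lin_comb (hLIN : SpecLIN) {T : ℝ} {v v₁ v₂ N w w₁ w₂ N' : ℝ → L2}
    (hL : Lin T v v₁ v₂ N) (hL' : Lin T w w₁ w₂ N') (c : ℂ) :
    Lin T (fun t => c • (w t - v t)) (fun t => c • (w₁ t - v₁ t)) (fun t => c • (w₂ t - v₂ t))
      (fun t => c • (N' t - N t)) where
  h1 t ht := by
    have h1 := hLIN.2.1 (-1) _ _ _ (hL.h1 t ht)
    have h2 := hLIN.1 _ _ _ _ _ _ (hL'.h1 t ht) h1
    have h3 := hLIN.2.1 c _ _ _ h2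
    simpa only [neg_smul, one_smul, ← sub_eq_add_neg] using h3
  cv := (hL'.cv.sub hL.cv).const_smul c
  c1 := (hL'.c1.sub hL.c1).const_smul c
  c2 := (hL'.c2.sub hL.c2).const_smul c
  cN := (hL'.cN.sub hL.cN).const_smul c
  eq ψ hψ s t hs hst ht := by
    obtain ⟨u, hu⟩ := pairing hψ.1.continuous hψ.2
    obtain ⟨u', hu'⟩ := pairing (test_cont hψ).1 (test_cont hψ).2
    have e1 := hL.eq ψ hψ s t hs hst ht
    have e2 := hL'.eq ψ hψ s t hs hst ht
    simp only [hu, hu'] at e1 e2 ⊢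
    have hsub : uIcc s t ⊆ Ico 0 T := by
      rw [uIcc_of_le hst]
      intro r hr
      exact ⟨hs.trans hr.1, hr.2.trans_lt ht⟩
    have hc : ∀ {z z' : ℝ → L2}, ContinuousOn z (Ico 0 T) → ContinuousOn z' (Ico 0 T) →
        IntervalIntegrable (fun r => Complex.I * (-4 * inner ℂ u' (z r) + inner ℂ u (z' r)))
          volume s t := by
      intro z z' hz hz'
      refine ContinuousOn.intervalIntegrable (ContinuousOn.mono ?_ hsub)
      exact continuousOn_const.mul ((continuousOn_const.mul (ContinuousOn.inner (𝕜 := ℂ) continuousOn_const hz)).add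
        (ContinuousOn.inner (𝕜 := ℂ) continuousOn_const hz'))
    have h3 : ∀ r, Complex.I * (-4 * inner ℂ u' (c • (w₂ r - v₂ r)) +
        inner ℂ u (c • (N' r - N r))) =
        c * (Complex.I * (-4 * inner ℂ u' (w₂ r) + inner ℂ u (N' r)) -
          Complex.I * (-4 * inner ℂ u' (v₂ r) + inner ℂ u (N r))) := by
      intro r
      simp only [inner_smul_right, inner_sub_right]
      ring
    simp only [h3]
    rw [intervalIntegral.integral_const_mul, intervalIntegral.integral_sub (hc hL'.c2 hL'.cN)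
      (hc hL.c2 hL.cN), ← e1, ← e2]
    simp only [inner_smul_right, inner_sub_right]
    ring

end DQLM

open DQLM in
theorem specDQL (hTRN : SpecTRN) (hLIN : SpecLIN) : SpecDQL := by
  intro T v v₁ v₂ N hL h
  have h1 := lin_trn hTRN hL h
  exact ⟨h1, lin_comb hLIN hL h1 _⟩

end Pool.Agent.Lib.MP424d38.TY
end
end

section
set_option autoImplicit false

open MeasureTheory Filter Topology Set
open scoped ENNReal ContDiff ComplexConjugate

noncomputable section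

namespace Pool.Agent.Lib.MP424d38.TY

namespace EXTM

/-- the pairing `∫ f g` as a continuous bilinear map -/
def Bp : L2 →L[ℂ] L2 →L[ℂ] ℂ :=
  (ContinuousLinearMap.mul ℂ ℂ).lpPairing (volume : Measure (ℝ × ℝ)) 2 2

theorem Bp_eq (f g : L2) : Bp f g = ∫ x, f x * g x := by
  unfold Bp
  rw [ContinuousLinearMap.lpPairing_eq_integral]
  rfl

theorem test_memLp {ψ : ℝ × ℝ → ℂ} (h : Test ψ) : MemLp ψ 2 (volume : Measure (ℝ × ℝ)) :=
  h.1.continuous.memLp_of_hasCompactSupport h.2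

theorem d1_memLp {ψ : ℝ × ℝ → ℂ} (h : Test ψ) : MemLp (d1 ψ) 2 (volume : Measure (ℝ × ℝ)) := by
  have hc : Continuous (d1 ψ) := by
    unfold d1
    exact (h.1.continuous_fderiv (by simp)).clm_apply continuous_const
  have hs : HasCompactSupport (d1 ψ) := by
    unfold d1
    exact h.2.fderiv_apply ℝ (1, 0)
  exact hc.memLp_of_hasCompactSupport hs

theorem tendsto_toLp {ψ : ℕ → ℝ × ℝ → ℂ} (hψ : ∀ n, MemLp (ψ n) 2 (volume : Measure (ℝ × ℝ)))
    {f : L2} (h : Tendsto (fun n => eLpNorm (fun x => ψ n x - f x) 2 volume) atTop (𝓝 0)) :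
    Tendsto (fun n => (hψ n).toLp (ψ n)) atTop (𝓝 f) := by
  rw [Lp.tendsto_Lp_iff_tendsto_eLpNorm']
  refine h.congr (fun n => ?_)
  apply eLpNorm_congr_ae
  filter_upwards [(hψ n).coeFn_toLp] with x hx
  rw [Pi.sub_apply, hx]

theorem Bp_toLp (f : L2) {ψ : ℝ × ℝ → ℂ} (hψ : MemLp ψ 2 (volume : Measure (ℝ × ℝ))) :
    Bp f (hψ.toLp ψ) = ∫ x, f x * ψ x := by
  rw [Bp_eq]
  apply integral_congr_ae
  filter_upwards [hψ.coeFn_toLp] with x hx
  rw [hx]

/-- the time integral -/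
theorem timeInt {T : ℝ} {v₂ N : ℝ → L2} (h2 : ContinuousOn v₂ (Ico 0 T))
    (hN : ContinuousOn N (Ico 0 T)) {s t : ℝ} (hs : 0 ≤ s) (hst : s ≤ t) (ht : t < T)
    (D P : L2) :
    ∫ r in s..t, Complex.I * (-4 * Bp (v₂ r) D + Bp (N r) P) =
      Complex.I * (-4 * Bp (∫ r in s..t, v₂ r) D + Bp (∫ r in s..t, N r) P) := by
  have hsub : Icc s t ⊆ Ico 0 T := fun r hr => ⟨hs.trans hr.1, lt_of_le_of_lt hr.2 ht⟩
  have i2 : IntervalIntegrable v₂ volume s t := by
    apply ContinuousOn.intervalIntegrable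
    rw [uIcc_of_le hst]
    exact h2.mono hsub
  have iN : IntervalIntegrable N volume s t := by
    apply ContinuousOn.intervalIntegrable
    rw [uIcc_of_le hst]
    exact hN.mono hsub
  have e2 := (Bp.flip D).intervalIntegral_comp_comm i2
  have eN := (Bp.flip P).intervalIntegral_comp_comm iN
  simp only [ContinuousLinearMap.flip_apply] at e2 eN
  have j2 : IntervalIntegrable (fun r => Bp (v₂ r) D) volume s t := by
    apply ContinuousOn.intervalIntegrable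
    rw [uIcc_of_le hst]
    exact (Bp.flip D).continuous.comp_continuousOn (h2.mono hsub)
  have jN : IntervalIntegrable (fun r => Bp (N r) P) volume s t := by
    apply ContinuousOn.intervalIntegrable
    rw [uIcc_of_le hst]
    exact (Bp.flip P).continuous.comp_continuousOn (hN.mono hsub)
  rw [intervalIntegral.integral_const_mul, intervalIntegral.integral_add (j2.const_mul _) jN,
    intervalIntegral.integral_const_mul, e2, eN]

end EXTM

open EXTM in
theorem specEXT (hDEN : SpecDEN) (hBYP : SpecBYP) : SpecEXT := by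
  intro T v v₁ v₂ N hL φ φ₁ φ₂ hφ s t hs hst ht
  have hsub : Icc s t ⊆ Ico 0 T := fun r hr => ⟨hs.trans hr.1, lt_of_le_of_lt hr.2 ht⟩
  have h1 : (∫ x, v t x * φ x) - ∫ x, v s x * φ x
      = ∫ r in s..t, Complex.I * (-4 * (∫ x, v₂ r x * φ₁ x) + ∫ x, N r x * φ x) := by
    obtain ⟨ψ, hψ, c0, c1, _⟩ := hDEN φ φ₁ φ₂ hφ
    have m0 : ∀ n, MemLp (ψ n) 2 (volume : Measure (ℝ × ℝ)) := fun n => test_memLp (hψ n)
    have m1 : ∀ n, MemLp (d1 (ψ n)) 2 (volume : Measure (ℝ × ℝ)) := fun n => d1_memLp (hψ n)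
    have t0 := tendsto_toLp m0 c0
    have t1 := tendsto_toLp m1 c1
    have heq : ∀ n, Bp (v t) ((m0 n).toLp (ψ n)) - Bp (v s) ((m0 n).toLp (ψ n)) =
        Complex.I * (-4 * Bp (∫ r in s..t, v₂ r) ((m1 n).toLp (d1 (ψ n))) +
          Bp (∫ r in s..t, N r) ((m0 n).toLp (ψ n))) := by
      intro n
      rw [← timeInt hL.c2 hL.cN hs hst ht, Bp_toLp, Bp_toLp, hL.eq (ψ n) (hψ n) s t hs hst ht]
      apply intervalIntegral.integral_congr
      intro r _
      simp only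
      rw [Bp_toLp, Bp_toLp]
    have l1 : Tendsto (fun n => Bp (v t) ((m0 n).toLp (ψ n)) - Bp (v s) ((m0 n).toLp (ψ n)))
        atTop (𝓝 (Bp (v t) φ - Bp (v s) φ)) :=
      (((Bp (v t)).continuous.tendsto φ).comp t0).sub (((Bp (v s)).continuous.tendsto φ).comp t0)
    have l2 : Tendsto (fun n => Complex.I * (-4 * Bp (∫ r in s..t, v₂ r) ((m1 n).toLp (d1 (ψ n))) +
          Bp (∫ r in s..t, N r) ((m0 n).toLp (ψ n)))) atTop
        (𝓝 (Complex.I * (-4 * Bp (∫ r in s..t, v₂ r) φ₁ + Bp (∫ r in s..t, N r) φ))) :=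
      (((((Bp (∫ r in s..t, v₂ r)).continuous.tendsto φ₁).comp t1).const_mul _).add
        (((Bp (∫ r in s..t, N r)).continuous.tendsto φ).comp t0)).const_mul _
    have l3 := tendsto_nhds_unique (l1.congr heq) l2
    rw [← timeInt hL.c2 hL.cN hs hst ht, Bp_eq, Bp_eq] at l3
    rw [l3]
    apply intervalIntegral.integral_congr
    intro r _
    simp only
    rw [Bp_eq, Bp_eq]
  refine ⟨h1, ?_⟩
  rw [h1]
  apply intervalIntegral.integral_congr
  intro r hr
  rw [uIcc_of_le hst] at hr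
  simp only
  rw [(hBYP (v r) (v₁ r) (v₂ r) φ φ₁ φ₂ (hL.h1 r (hsub hr)) hφ).2.2]

end Pool.Agent.Lib.MP424d38.TY
end
end

section
/-!
# FLO: the flow of densities
-/
set_option autoImplicit false

open MeasureTheory Filter Topology Set
open scoped ENNReal ContDiff ComplexConjugate

noncomputable section

namespace Pool.Agent.Lib.MP424d38.TY

namespace FLOM

theorem norm_toL1_sub {f g : ℝ → ℝ} (hf : Integrable f volume) (hg : Integrable g volume) :
    ‖(hf.toL1 f - hg.toL1 g : L1)‖ = ∫ a, |f a - g a| := by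
  rw [← Integrable.toL1_sub f g hf hg, L1.norm_eq_integral_norm]
  apply integral_congr_ae
  filter_upwards [Integrable.coeFn_toL1 (hf.sub hg)] with a ha
  rw [ha]
  simp [Real.norm_eq_abs]

/-- class of the mass density. -/
def R1 (hD : SpecDNS) (f : L2) : L1 := (hD.1 f).1.toL1 _

/-- class of the momentum density. -/
def M1 (hD : SpecDNS) (f F : L2) : L1 := (hD.2.1 f F).toL1 _

theorem R1_ae (hD : SpecDNS) (f : L2) : ∀ᵐ a : ℝ, R1 hD f a = rhoD f a :=
  Integrable.coeFn_toL1 _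

theorem M1_ae (hD : SpecDNS) (f F : L2) : ∀ᵐ a : ℝ, M1 hD f F a = momD f F a :=
  Integrable.coeFn_toL1 _

theorem R1_cont (hD : SpecDNS) : Continuous (R1 hD) := by
  rw [continuous_iff_continuousAt]
  intro g
  rw [ContinuousAt, tendsto_iff_norm_sub_tendsto_zero]
  have hb : Tendsto (fun f : L2 => ‖f - g‖ * (‖f‖ + ‖g‖)) (𝓝 g) (𝓝 0) := by
    have hc : Continuous fun f : L2 => ‖f - g‖ * (‖f‖ + ‖g‖) := by fun_prop
    have := hc.tendsto g
    simpa using this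
  refine squeeze_zero (fun f => norm_nonneg _) (fun f => ?_) hb
  rw [R1, R1, norm_toL1_sub]
  exact hD.2.2.2.1 f g

theorem M1_cont (hD : SpecDNS) : Continuous fun z : L2 × L2 => M1 hD z.1 z.2 := by
  rw [continuous_iff_continuousAt]
  rintro ⟨g, G⟩
  rw [ContinuousAt, tendsto_iff_norm_sub_tendsto_zero]
  have hb : Tendsto (fun z : L2 × L2 => ‖z.1 - g‖ * ‖z.2‖ + ‖g‖ * ‖z.2 - G‖) (𝓝 (g, G)) (𝓝 0) := by
    have hc : Continuous fun z : L2 × L2 => ‖z.1 - g‖ * ‖z.2‖ + ‖g‖ * ‖z.2 - G‖ := by fun_prop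
    have := hc.tendsto (g, G)
    simpa using this
  refine squeeze_zero (fun f => norm_nonneg _) (fun z => ?_) hb
  simp only [M1]
  rw [norm_toL1_sub]
  exact hD.2.2.2.2.1 z.1 z.2 g G

attribute [irreducible] R1 M1

end FLOM

open FLOM

theorem specFLO (hRHL : SpecRHL) (hMML : SpecMML) (hDNS : SpecDNS) (hRHB : SpecRHB) : SpecFLO := by
  intro T v v₁ v₂ N hv
  have cρ : ContinuousOn (fun t => R1 hDNS (v t)) (Ico 0 T) :=
    (R1_cont hDNS).comp_continuousOn hv.cv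
  have ce : ContinuousOn (fun t => R1 hDNS (v₂ t)) (Ico 0 T) :=
    (R1_cont hDNS).comp_continuousOn hv.c2
  have cp : ContinuousOn (fun t => M1 hDNS (v t) (v₂ t)) (Ico 0 T) :=
    (M1_cont hDNS).comp_continuousOn (hv.cv.prodMk hv.c2)
  have cp4 : ContinuousOn (fun t => (4 : ℝ) • M1 hDNS (v t) (v₂ t)) (Ico 0 T) := cp.const_smul (4 : ℝ)
  have ce4 : ContinuousOn (fun t => (4 : ℝ) • R1 hDNS (v₂ t)) (Ico 0 T) := ce.const_smul (4 : ℝ)
  have cR : ContinuousOn (fun t => ‖v t‖ * ‖v₁ t‖) (Ico 0 T) := hv.cv.norm.mul hv.c1.norm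
  refine ⟨fun t => R1 hDNS (v t), fun t => M1 hDNS (v t) (v₂ t), fun t => R1 hDNS (v₂ t),
    ⟨⟨cρ, cp4, ?_⟩, ⟨cp, ce4, ?_⟩, cR, ?_, ?_⟩, ?_⟩
  · intro β hβ s t hs hst ht
    have h := (hRHL T v v₁ v₂ N hv).1 β hβ s t hs hst ht
    have e1 : ∀ t, ∫ a, β a * R1 hDNS (v t) a = ∫ a, β a * rhoD (v t) a := by
      intro t
      apply integral_congr_ae
      filter_upwards [R1_ae hDNS (v t)] with a ha
      rw [ha]
    have e2 : ∀ r, ∫ a, deriv β a * ((4 : ℝ) • M1 hDNS (v r) (v₂ r) : L1) a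
        = 4 * ∫ a, deriv β a * momD (v r) (v₂ r) a := by
      intro r
      rw [← integral_const_mul]
      apply integral_congr_ae
      filter_upwards [M1_ae hDNS (v r) (v₂ r), Lp.coeFn_smul (4 : ℝ) (M1 hDNS (v r) (v₂ r))]
        with a ha hb
      rw [hb, Pi.smul_apply, ha, smul_eq_mul]
      ring
    simp only [e1, e2]
    exact h
  · intro β hβ s t hs hst ht
    have h := hMML T v v₁ v₂ N hv β hβ s t hs hst ht
    have e1 : ∀ t, ∫ a, β a * M1 hDNS (v t) (v₂ t) a = ∫ a, β a * momD (v t) (v₂ t) a := by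
      intro t
      apply integral_congr_ae
      filter_upwards [M1_ae hDNS (v t) (v₂ t)] with a ha
      rw [ha]
    have e2 : ∀ r, ∫ a, deriv β a * ((4 : ℝ) • R1 hDNS (v₂ r) : L1) a
        = 4 * ∫ a, deriv β a * rhoD (v₂ r) a := by
      intro r
      rw [← integral_const_mul]
      apply integral_congr_ae
      filter_upwards [R1_ae hDNS (v₂ r), Lp.coeFn_smul (4 : ℝ) (R1 hDNS (v₂ r))]
        with a ha hb
      rw [hb, Pi.smul_apply, ha, smul_eq_mul]
      ring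
    simp only [e1, e2]
    exact h
  · intro t ht
    filter_upwards [R1_ae hDNS (v t), R1_ae hDNS (v₂ t), M1_ae hDNS (v t) (v₂ t),
      hDNS.2.2.1 (v t) (v₂ t), hRHB (v t) (v₁ t) (v₂ t) (hv.h1 t ht)] with a h1 h2 h3 h4 h5
    rw [h1, h2, h3]
    exact ⟨(hDNS.1 (v t)).2.1 a, (hDNS.1 (v₂ t)).2.1 a, h4, h5⟩
  · intro t ht
    have e1 : ∫ a, R1 hDNS (v t) a = ∫ a, rhoD (v t) a := integral_congr_ae (R1_ae hDNS (v t))
    rw [e1, (hDNS.1 (v t)).2.2, (hRHL T v v₁ v₂ N hv).2 t ht]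
  · intro t ht
    refine ⟨R1_ae hDNS (v t), M1_ae hDNS (v t) (v₂ t), R1_ae hDNS (v₂ t), ?_, ?_⟩
    · unfold gF gD
      apply integral_congr_ae
      filter_upwards [R1_ae hDNS (v t), R1_ae hDNS (v₂ t), M1_ae hDNS (v t) (v₂ t)] with a h1 h2 h3
      rw [h1, h2, h3]
    · have e1 : ∫ a, R1 hDNS (v₂ t) a = ∫ a, rhoD (v₂ t) a := integral_congr_ae (R1_ae hDNS (v₂ t))
      rw [e1, (hDNS.1 (v₂ t)).2.2]

end Pool.Agent.Lib.MP424d38.TY
end
end

section
/-!
# Module TRN: translations in the second coordinate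
-/
set_option autoImplicit false

open MeasureTheory Filter Topology Set
open scoped ENNReal ContDiff ComplexConjugate InnerProductSpace

noncomputable section

namespace Pool.Agent.Lib.MP424d38.TY.TRNM

open Pool.Agent.Lib.MP424d38.TY Pool.Agent.Lib.MP424d38.TY.BILM

theorem trn_coe (h : ℝ) (f : L2) : ∀ᵐ x : ℝ × ℝ, trn h f x = f (x + ((0 : ℝ), h)) :=
  Lp.coeFn_compMeasurePreserving f _

theorem trn_norm (h : ℝ) (f : L2) : ‖trn h f‖ = ‖f‖ := Lp.norm_compMeasurePreserving f _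

theorem trn_add (h : ℝ) (f g : L2) : trn h (f + g) = trn h f + trn h g := map_add _ _ _

theorem trn_smul (h : ℝ) (c : ℂ) (f : L2) : trn h (c • f) = c • trn h f := by
  apply Lp.ext
  have h1 : ∀ᵐ x : ℝ × ℝ, (c • f : L2) (x + ((0 : ℝ), h)) = (c • (f : ℝ × ℝ → ℂ)) (x + ((0 : ℝ), h)) :=
    (measurePreserving_add_right volume ((0 : ℝ), h)).quasiMeasurePreserving.ae (Lp.coeFn_smul c f)
  filter_upwards [trn_coe h (c • f), Lp.coeFn_smul c (trn h f), trn_coe h f, h1] with x h1 h2 h3 h4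
  rw [h1, h2, h4, Pi.smul_apply, Pi.smul_apply, h3]

theorem trn_cont (f : L2) : Continuous fun h : ℝ => trn h f := by
  refine Continuous.compMeasurePreservingLp (X := ℝ × ℝ) (Y := ℝ × ℝ) (μ := volume) (ν := volume)
    (f := fun _ : ℝ => f)
    (g := fun h : ℝ => (⟨fun x : ℝ × ℝ => x + ((0 : ℝ), h), by fun_prop⟩ : C(ℝ × ℝ, ℝ × ℝ)))
    continuous_const ?_ (fun h => measurePreserving_add_right volume ((0 : ℝ), h)) (by simp)
  apply ContinuousMap.continuous_of_continuous_uncurry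
  show Continuous fun p : ℝ × (ℝ × ℝ) => p.2 + ((0 : ℝ), p.1)
  fun_prop

/-- translated test function. -/
theorem test_tr {ψ : ℝ × ℝ → ℂ} (hψ : Test ψ) (h : ℝ) :
    Test (fun x => ψ (x - ((0 : ℝ), h))) := by
  refine ⟨hψ.1.comp (contDiff_id.sub contDiff_const), ?_⟩
  exact hψ.2.comp_homeomorph (Homeomorph.subRight ((0 : ℝ), h))

theorem d1_tr (ψ : ℝ × ℝ → ℂ) (h : ℝ) :
    d1 (fun x => ψ (x - ((0 : ℝ), h))) = fun x => d1 ψ (x - ((0 : ℝ), h)) := by
  ext x
  simp only [d1]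
  rw [fderiv_comp_sub]

theorem d2_tr (ψ : ℝ × ℝ → ℂ) (h : ℝ) :
    d2 (fun x => ψ (x - ((0 : ℝ), h))) = fun x => d2 ψ (x - ((0 : ℝ), h)) := by
  ext x
  simp only [d2]
  rw [fderiv_comp_sub]

theorem trn_pair (h : ℝ) (f : L2) (φ : ℝ × ℝ → ℂ) :
    ∫ x, trn h f x * φ x = ∫ x, f x * φ (x - ((0 : ℝ), h)) := by
  rw [← integral_add_right_eq_self (fun x => f x * φ (x - ((0 : ℝ), h))) ((0 : ℝ), h)]
  apply integral_congr_ae
  filter_upwards [trn_coe h f] with x hx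
  rw [hx, add_sub_cancel_right]

theorem trn_h1 (h : ℝ) (f F₁ F₂ : L2) (hf : IsH1 f F₁ F₂) :
    IsH1 (trn h f) (trn h F₁) (trn h F₂) := by
  intro ψ hψ
  have h1 := hf _ (test_tr hψ h)
  rw [d1_tr, d2_tr] at h1
  rw [trn_pair, trn_pair, trn_pair, trn_pair]
  exact h1

theorem d2_cont {ψ : ℝ × ℝ → ℂ} (hψ : Test ψ) : Continuous (d2 ψ) :=
  (hψ.1.continuous_fderiv (by simp)).clm_apply continuous_const

theorem d2_supp {ψ : ℝ × ℝ → ℂ} (hψ : Test ψ) : HasCompactSupport (d2 ψ) :=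
  (hψ.2.fderiv (𝕜 := ℝ)).comp_left (g := fun L : (ℝ × ℝ) →L[ℝ] ℂ => L (0, 1)) rfl

theorem sep {g : L2} (h : ∀ ψ : ℝ × ℝ → ℂ, Test ψ → ∫ x, g x * ψ x = 0) : g = 0 := by
  have h1 : LocallyIntegrable (g : ℝ × ℝ → ℂ) volume :=
    (Lp.memLp g).locallyIntegrable (by norm_num)
  have h2 : ∀ᵐ x : ℝ × ℝ, g x = 0 := by
    apply ae_eq_zero_of_integral_contDiff_smul_eq_zero h1
    intro ψ hψ hs
    have h3 := h (fun x => ((ψ x : ℝ) : ℂ)) ⟨Complex.ofRealCLM.contDiff.comp hψ,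
      hs.comp_left (g := fun r : ℝ => (r : ℂ)) (by simp)⟩
    rw [← h3]
    congr 1
    ext x
    rw [Complex.real_smul, mul_comm]
  exact (Lp.eq_zero_iff_ae_eq_zero).2 h2

theorem deriv_pair (f F₁ F₂ : L2) (hf : IsH1 f F₁ F₂) {ψ : ℝ × ℝ → ℂ} (hψ : Test ψ) (θ₀ : ℝ) :
    HasDerivAt (fun θ : ℝ => ∫ x, trn θ f x * ψ x) (∫ x, trn θ₀ F₂ x * ψ x) θ₀ := by
  have e1 : (fun θ : ℝ => ∫ x, trn θ f x * ψ x) = fun θ : ℝ => ∫ x, f x * ψ (x - ((0 : ℝ), θ)) := by
    ext θ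
    exact trn_pair θ f ψ
  have e2 : (∫ x, trn θ₀ F₂ x * ψ x) = ∫ x, f x * (-(d2 ψ (x - ((0 : ℝ), θ₀)))) := by
    rw [trn_pair]
    have := (hf _ (test_tr hψ θ₀)).2
    rw [d2_tr] at this
    simp only [mul_neg]
    rw [integral_neg, this, neg_neg]
  rw [e1, e2]
  obtain ⟨R, hR⟩ := (d2_supp hψ).isBounded.subset_ball (0 : ℝ × ℝ)
  obtain ⟨C, hC⟩ := (d2_cont hψ).bounded_above_of_compact_support (d2_supp hψ)
  set K : Set (ℝ × ℝ) := Metric.closedBall 0 (R + |θ₀| + 1) with hK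
  have hfK : IntegrableOn (f : ℝ × ℝ → ℂ) K volume :=
    ((Lp.memLp f).locallyIntegrable (by norm_num)).integrableOn_isCompact (isCompact_closedBall _ _)
  have hmeas : ∀ θ : ℝ, AEStronglyMeasurable (fun x => f x * ψ (x - ((0 : ℝ), θ))) volume := by
    intro θ
    exact (Lp.aestronglyMeasurable f).mul
      ((hψ.1.continuous.comp (by fun_prop)).aestronglyMeasurable)
  have hint : Integrable (fun x => f x * ψ (x - ((0 : ℝ), θ₀))) volume :=
    int_mul (Lp.memLp f) (test_memLp (test_tr hψ θ₀) 2)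
  refine (hasDerivAt_integral_of_dominated_loc_of_deriv_le (𝕜 := ℝ)
    (F := fun θ x => f x * ψ (x - ((0 : ℝ), θ)))
    (F' := fun θ x => f x * (-(d2 ψ (x - ((0 : ℝ), θ)))))
    (bound := fun x => K.indicator (fun x => ‖f x‖ * C) x)
    (s := Metric.ball θ₀ 1) (Metric.ball_mem_nhds _ one_pos)
    (Eventually.of_forall hmeas) hint ?_ ?_ ?_ ?_).2
  · exact (Lp.aestronglyMeasurable f).mul
      (((d2_cont hψ).comp (by fun_prop)).neg.aestronglyMeasurable)
  · filter_upwards with x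
    intro θ hθ
    by_cases hx : x ∈ K
    · rw [Set.indicator_of_mem hx, norm_mul, norm_neg]
      exact mul_le_mul_of_nonneg_left (hC _) (norm_nonneg _)
    · rw [Set.indicator_of_notMem hx]
      have h0 : d2 ψ (x - ((0 : ℝ), θ)) = 0 := by
        by_contra hne
        have h1 : x - ((0 : ℝ), θ) ∈ Metric.ball (0 : ℝ × ℝ) R := hR (subset_tsupport _ hne)
        apply hx
        rw [hK, Metric.mem_closedBall, dist_zero_right]
        rw [Metric.mem_ball, dist_zero_right] at h1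
        have h2 : ‖x‖ ≤ ‖x - ((0 : ℝ), θ)‖ + ‖((0 : ℝ), θ)‖ := by
          have := norm_add_le (x - ((0 : ℝ), θ)) ((0 : ℝ), θ)
          rwa [sub_add_cancel] at this
        have h3 : ‖((0 : ℝ), θ)‖ = |θ| := by simp
        rw [Metric.mem_ball, Real.dist_eq] at hθ
        have h4 : |θ| ≤ |θ₀| + 1 := by
          have := abs_add_le (θ - θ₀) θ₀
          rw [sub_add_cancel] at this
          linarith
        linarith
      rw [h0]; simp
  · rw [integrable_indicator_iff (isCompact_closedBall _ _).measurableSet]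
    exact hfK.norm.mul_const C
  · filter_upwards with x
    intro θ hθ
    have h1 : HasDerivAt (fun θ : ℝ => x - ((0 : ℝ), θ)) (-((0 : ℝ), (1 : ℝ))) θ := by
      have h2 : HasDerivAt (fun θ : ℝ => ((0 : ℝ), θ)) ((0 : ℝ), (1 : ℝ)) θ :=
        (hasDerivAt_const θ (0 : ℝ)).prodMk (hasDerivAt_id θ)
      exact h2.const_sub x
    have h3 : HasFDerivAt ψ (fderiv ℝ ψ (x - ((0 : ℝ), θ))) (x - ((0 : ℝ), θ)) :=
      (hψ.1.differentiable (by simp)).differentiableAt.hasFDerivAt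
    have h4 := h3.comp_hasDerivAt θ h1
    have h5 := h4.const_mul (f x)
    have h6 : fderiv ℝ ψ (x - ((0 : ℝ), θ)) (-((0 : ℝ), (1 : ℝ))) = -(d2 ψ (x - ((0 : ℝ), θ))) := by
      rw [map_neg]; rfl
    rw [h6] at h5
    exact h5

/-- `trn h f - f = ∫_0^h trn θ F₂ dθ` in `L²`. -/
theorem trn_sub (f F₁ F₂ : L2) (hf : IsH1 f F₁ F₂) (h : ℝ) :
    trn h f - f = ∫ θ in (0 : ℝ)..h, trn θ F₂ := by
  have hii : ∀ a b : ℝ, IntervalIntegrable (fun θ : ℝ => trn θ F₂) volume a b :=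
    fun a b => (trn_cont F₂).intervalIntegrable a b
  rw [← sub_eq_zero]
  apply sep
  intro ψ hψ
  set g : L2 := (test_memLp hψ 2).toLp ψ with hg
  have hpr : ∀ F : L2, ∫ x, F x * ψ x = pr g F := by
    intro F
    rw [pr_apply]
    apply integral_congr_ae
    filter_upwards [(test_memLp hψ 2).coeFn_toLp] with x hx
    rw [hg, hx]
  rw [hpr, map_sub, map_sub, sub_eq_zero, ← ContinuousLinearMap.intervalIntegral_comp_comm _ (hii 0 h)]
  have h0 : trn 0 f = f := by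
    apply Lp.ext
    filter_upwards [trn_coe 0 f] with x hx
    rw [hx]
    congr 1
    ext <;> simp
  have h1 : ∀ θ ∈ uIcc 0 h, HasDerivAt (fun θ : ℝ => pr g (trn θ f)) (pr g (trn θ F₂)) θ := by
    intro θ _
    have := deriv_pair f F₁ F₂ hf hψ θ
    rw [hpr] at this
    refine this.congr_of_eventuallyEq (Eventually.of_forall ?_)
    intro u
    exact (hpr _).symm
  rw [intervalIntegral.integral_eq_sub_of_hasDerivAt h1
    ((((pr g).continuous.comp (trn_cont F₂))).intervalIntegrable 0 h)]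
  simp only [h0]

theorem trn_le (h : ℝ) (f F₁ F₂ : L2) (hf : IsH1 f F₁ F₂) : ‖trn h f - f‖ ≤ |h| * ‖F₂‖ := by
  rw [trn_sub f F₁ F₂ hf h]
  have := intervalIntegral.norm_integral_le_of_norm_le_const (a := 0) (b := h)
    (f := fun θ : ℝ => trn θ F₂) (C := ‖F₂‖) (fun θ _ => (trn_norm θ F₂).le)
  rw [sub_zero, mul_comm] at this
  exact this

theorem dq_tendsto (f F₁ F₂ : L2) (hf : IsH1 f F₁ F₂) :
    Tendsto (fun h : ℝ => dq h f) (𝓝[≠] 0) (𝓝 F₂) := by
  have h0 : trn 0 F₂ = F₂ := by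
    apply Lp.ext
    filter_upwards [trn_coe 0 F₂] with x hx
    rw [hx]
    congr 1
    ext <;> simp
  have h1 : HasDerivAt (fun u : ℝ => ∫ θ in (0 : ℝ)..u, trn θ F₂) (trn 0 F₂) 0 :=
    intervalIntegral.integral_hasDerivAt_right (by simp)
      ((trn_cont F₂).stronglyMeasurableAtFilter _ _) (trn_cont F₂).continuousAt
  rw [hasDerivAt_iff_tendsto_slope, h0] at h1
  refine h1.congr' ?_
  filter_upwards with u
  rw [slope_def_module, dq, trn_sub f F₁ F₂ hf u]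
  simp only [intervalIntegral.integral_same, sub_zero]
  exact (Complex.coe_smul u⁻¹ _).symm

end Pool.Agent.Lib.MP424d38.TY.TRNM

namespace Pool.Agent.Lib.MP424d38.TY

open TRNM in
theorem specTRN : SpecTRN := by
  refine ⟨trn_h1, trn_le, dq_tendsto, trn_cont, trn_norm, trn_add, trn_smul, ?_⟩
  intro h f
  filter_upwards [trn_coe h f] with x hx
  rw [hx]
  congr 1
  ext <;> simp

end Pool.Agent.Lib.MP424d38.TY
end
end

section
/-!
# Module MML: the law of the momentum density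
-/
set_option autoImplicit false

open MeasureTheory Filter Topology Set
open scoped ENNReal ContDiff ComplexConjugate InnerProductSpace

noncomputable section

namespace Pool.Agent.Lib.MP424d38.TY.MMLM

open Pool.Agent.Lib.MP424d38.TY Pool.Agent.Lib.MP424d38.TY.BILM Pool.Agent.Lib.MP424d38.TY.TRNM

theorem form_im {β : ℝ → ℝ} (hβ : Continuous β) {C : ℝ} (hC : ∀ a, |β a| ≤ C) (f g : L2) :
    ∫ x : ℝ × ℝ, β x.1 * (conj (f x) * g x).im = (⟪f, mulC β hβ C hC g⟫_ℂ).im := by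
  rw [← form_eq]
  have h := integral_im (𝕜 := ℂ) (form_int hβ hC f g)
  simp only [RCLike.im_eq_complex_im] at h
  rw [← h]
  congr 1
  ext x
  rw [Complex.im_ofReal_mul]

theorem form_re {β : ℝ → ℝ} (hβ : Continuous β) {C : ℝ} (hC : ∀ a, |β a| ≤ C) (f g : L2) :
    ∫ x : ℝ × ℝ, β x.1 * (conj (f x) * g x).re = (⟪f, mulC β hβ C hC g⟫_ℂ).re := by
  rw [← form_eq]
  have h := integral_re (𝕜 := ℂ) (form_int hβ hC f g)
  simp only [RCLike.re_eq_complex_re] at h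
  rw [← h]
  congr 1
  ext x
  rw [Complex.re_ofReal_mul]

theorem form_trn {β : ℝ → ℝ} (hβ : Continuous β) {C : ℝ} (hC : ∀ a, |β a| ≤ C) (h : ℝ) (f g : L2) :
    ⟪f, mulC β hβ C hC (trn h g)⟫_ℂ = ⟪trn (-h) f, mulC β hβ C hC g⟫_ℂ := by
  rw [← form_eq, ← form_eq]
  have h1 := integral_add_right_eq_self (μ := (volume : Measure (ℝ × ℝ)))
    (fun x : ℝ × ℝ => ((β x.1 : ℝ) : ℂ) * (conj (f (x - ((0 : ℝ), h))) * g x)) ((0 : ℝ), h)
  have h2 : (∫ x : ℝ × ℝ, ((β x.1 : ℝ) : ℂ) * (conj (f x) * trn h g x))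
      = ∫ x : ℝ × ℝ, (fun x : ℝ × ℝ => ((β x.1 : ℝ) : ℂ) * (conj (f (x - ((0 : ℝ), h))) * g x))
        (x + ((0 : ℝ), h)) := by
    apply integral_congr_ae
    filter_upwards [trn_coe h g] with x hx
    rw [hx]
    simp only [add_sub_cancel_right, Prod.fst_add, add_zero]
  rw [h2, h1]
  apply integral_congr_ae
  filter_upwards [trn_coe (-h) f] with x hx
  rw [hx]
  congr 3
  congr 1
  ext <;> simp [sub_eq_add_neg]

theorem re_symm {β : ℝ → ℝ} (hβ : Continuous β) {C : ℝ} (hC : ∀ a, |β a| ≤ C) (f g : L2) :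
    (⟪f, mulC β hβ C hC g⟫_ℂ).re = (⟪g, mulC β hβ C hC f⟫_ℂ).re := by
  rw [← form_eq, ← form_eq, form_symm f g, Complex.conj_re]

theorem dq_id {β : ℝ → ℝ} (hβ : Continuous β) {C : ℝ} (hC : ∀ a, |β a| ≤ C) (h : ℝ) (f g : L2) :
    (⟪f, mulC β hβ C hC (dq h g)⟫_ℂ).re = -(⟪g, mulC β hβ C hC (dq (-h) f)⟫_ℂ).re := by
  simp only [dq, map_smul, map_sub, inner_smul_right, inner_sub_right, Complex.re_ofReal_mul,
    Complex.sub_re]
  rw [form_trn, re_symm hβ hC g (trn (-h) f), re_symm hβ hC g f, inv_neg]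
  ring

theorem dq_le {f F₁ F₂ : L2} (hf : IsH1 f F₁ F₂) {h : ℝ} (hh : h ≠ 0) : ‖dq h f‖ ≤ ‖F₂‖ := by
  rw [dq, norm_smul, Complex.norm_real, Real.norm_eq_abs, abs_inv]
  have h1 := trn_le h f F₁ F₂ hf
  have h2 : 0 < |h| := abs_pos.2 hh
  rw [inv_mul_le_iff₀ h2]
  exact h1

theorem dq_tendsto_neg {f F₁ F₂ : L2} (hf : IsH1 f F₁ F₂) :
    Tendsto (fun h : ℝ => dq (-h) f) (𝓝[≠] 0) (𝓝 F₂) := by
  have h1 : Tendsto (fun h : ℝ => -h) (𝓝[≠] 0) (𝓝[≠] 0) := by
    refine tendsto_nhdsWithin_iff.2 ⟨?_, ?_⟩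
    · have : Tendsto (fun h : ℝ => -h) (𝓝 0) (𝓝 0) := by
        have := (continuous_neg (G := ℝ)).tendsto 0
        rwa [neg_zero] at this
      exact this.mono_left nhdsWithin_le_nhds
    · filter_upwards [self_mem_nhdsWithin] with h hh
      simpa using hh
  exact (dq_tendsto f F₁ F₂ hf).comp h1

theorem trn_ccont (h : ℝ) : Continuous (trn h) :=
  (Lp.isometry_compMeasurePreserving (E := ℂ) (p := 2) _).continuous

theorem dq_ccont (h : ℝ) : Continuous (dq h) := by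
  have h1 : Continuous fun f : L2 => trn h f - f := (trn_ccont h).sub continuous_id
  exact h1.const_smul (((h⁻¹ : ℝ) : ℂ))

theorem im_ii {f : ℝ → ℂ} {a b : ℝ} (hf : IntervalIntegrable f volume a b) :
    (∫ r in a..b, f r).im = ∫ r in a..b, (f r).im :=
  (Complex.imCLM.intervalIntegral_comp_comm hf).symm

end Pool.Agent.Lib.MP424d38.TY.MMLM

namespace Pool.Agent.Lib.MP424d38.TY

open BILM TRNM MMLM in
theorem specMML (hBIL : SpecBIL) (hDQL : SpecDQL) (hZER : SpecZER) (hDNS : SpecDNS) : SpecMML := by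
  intro T v v₁ v₂ N hv β hβ s t hs hst ht
  have hβ0 : Cb1 β := hβ
  obtain ⟨hβd, C, hC⟩ := hβ
  have hb : Continuous β := cb1_cont hβ0
  have hb' : Continuous (deriv β) := cb1_dcont hβ0
  have hC0 : 0 ≤ C := (abs_nonneg _).trans (hC 0).1
  set M : L2 →L[ℂ] L2 := mulC β hb C (fun a => (hC a).1) with hM
  set M' : L2 →L[ℂ] L2 := mulC (deriv β) hb' C (fun a => (hC a).2) with hM'
  have hsub : Icc s t ⊆ Ico 0 T := fun r hr => ⟨hs.trans hr.1, hr.2.trans_lt ht⟩
  have hsT : s ∈ Ico 0 T := hsub ⟨le_rfl, hst⟩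
  have htT : t ∈ Ico 0 T := hsub ⟨hst, le_rfl⟩
  have hMn : ∀ g : L2, ‖M g‖ ≤ C * ‖g‖ := mulC_norm_le hb _
  have hMn' : ∀ g : L2, ‖M' g‖ ≤ C * ‖g‖ := mulC_norm_le hb' _
  set G : ℝ → ℝ → ℝ := fun h r => 4 * (⟪v₂ r, M' (dq h (v r))⟫_ℂ).re
      - (⟪N r, M (dq (-h) (v r))⟫_ℂ).re - (⟪N r, M (dq h (v r))⟫_ℂ).re with hG
  -- the identity for h
  have key : ∀ h : ℝ, (⟪v t, M (dq h (v t))⟫_ℂ).im - (⟪v s, M (dq h (v s))⟫_ℂ).im
      = ∫ r in s..t, G h r := by
    intro h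
    have e1 := hBIL T v v₁ v₂ N _ _ _ _ hv.toLin (hDQL T v v₁ v₂ N hv.toLin h).2 β hβ0 s t hs hst ht
    have hcd : ContinuousOn (fun r => dq h (v r)) (Icc s t) :=
      (dq_ccont h).comp_continuousOn (hv.cv.mono hsub)
    have hcN : ContinuousOn (fun r => dq h (N r)) (Icc s t) :=
      (dq_ccont h).comp_continuousOn (hv.cN.mono hsub)
    have e2 : ∀ r : ℝ, (4 * Complex.I * (∫ x : ℝ × ℝ, ((deriv β x.1 : ℝ) : ℂ) *
          (conj (v₂ r x) * (dq h (v r) : L2) x))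
        + Complex.I * ∫ x : ℝ × ℝ, ((β x.1 : ℝ) : ℂ) * (conj (v r x) * (dq h (N r) : L2) x
          - conj (N r x) * (dq h (v r) : L2) x))
        = 4 * Complex.I * ⟪v₂ r, M' (dq h (v r))⟫_ℂ
          + Complex.I * (⟪v r, M (dq h (N r))⟫_ℂ - ⟪N r, M (dq h (v r))⟫_ℂ) := by
      intro r
      rw [← form_eq hb' (fun a => (hC a).2), ← form_eq hb (fun a => (hC a).1),
        ← form_eq hb (fun a => (hC a).1), ← integral_sub (form_int hb (fun a => (hC a).1) _ _)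
        (form_int hb (fun a => (hC a).1) _ _)]
      congr 2
      congr 1
      ext x
      ring
    simp only [e2] at e1
    rw [form_eq hb (fun a => (hC a).1), form_eq hb (fun a => (hC a).1)] at e1
    have e3 := congrArg Complex.im e1
    rw [Complex.sub_im, im_ii] at e3
    · rw [← hM] at e3
      rw [e3]
      apply intervalIntegral.integral_congr
      intro r _
      simp only [hG]
      have e4 : (⟪v r, M (dq h (N r))⟫_ℂ).re = -(⟪N r, M (dq (-h) (v r))⟫_ℂ).re :=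
        dq_id hb (fun a => (hC a).1) h (v r) (N r)
      have e5 : ∀ z : ℂ, (4 * Complex.I * z).im = 4 * z.re := by
        intro z
        rw [mul_assoc]
        simp [Complex.mul_im]
      have e6 : ∀ z : ℂ, (Complex.I * z).im = z.re := by
        intro z
        simp [Complex.mul_im]
      rw [Complex.add_im, e5, e6, Complex.sub_re, e4]
      ring
    · refine ContinuousOn.intervalIntegrable_of_Icc hst ?_
      exact (continuousOn_const.mul ((hv.c2.mono hsub).inner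
        (M'.continuous.comp_continuousOn hcd))).add
        (continuousOn_const.mul (((hv.cv.mono hsub).inner (M.continuous.comp_continuousOn hcN)).sub
          ((hv.cN.mono hsub).inner (M.continuous.comp_continuousOn hcd))))
  -- limits
  have hl : ∀ r ∈ Ico 0 T, Tendsto (fun h : ℝ => (⟪v r, M (dq h (v r))⟫_ℂ).im) (𝓝[≠] 0)
      (𝓝 (⟪v r, M (v₂ r)⟫_ℂ).im) := by
    intro r hr
    have h1 := dq_tendsto _ _ _ (hv.h1 r hr)
    exact (Complex.continuous_im.tendsto _).comp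
      (tendsto_const_nhds.inner ((M.continuous.tendsto _).comp h1))
  have hlhs := (hl t htT).sub (hl s hsT)
  simp only [key] at hlhs
  have hrhs : Tendsto (fun h : ℝ => ∫ r in s..t, G h r) (𝓝[≠] 0)
      (𝓝 (∫ r in s..t, (4 * (⟪v₂ r, M' (v₂ r)⟫_ℂ).re
        - (⟪N r, M (v₂ r)⟫_ℂ).re - (⟪N r, M (v₂ r)⟫_ℂ).re))) := by
    have hre : ∀ f g : L2, |(⟪f, g⟫_ℂ).re| ≤ ‖f‖ * ‖g‖ := fun f g =>
      (Complex.abs_re_le_norm _).trans (norm_inner_le_norm _ _)
    refine intervalIntegral.tendsto_integral_filter_of_dominated_convergence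
      (fun r => 4 * (‖v₂ r‖ * (C * ‖v₂ r‖)) + ‖N r‖ * (C * ‖v₂ r‖) + ‖N r‖ * (C * ‖v₂ r‖)) ?_ ?_ ?_ ?_
    · filter_upwards with h
      have hcd : ContinuousOn (fun r => dq h (v r)) (Icc s t) :=
        (dq_ccont h).comp_continuousOn (hv.cv.mono hsub)
      have hcd' : ContinuousOn (fun r => dq (-h) (v r)) (Icc s t) :=
        (dq_ccont (-h)).comp_continuousOn (hv.cv.mono hsub)
      have hc : ContinuousOn (G h) (Icc s t) := by
        refine ((continuousOn_const.mul ?_).sub ?_).sub ?_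
        · exact Complex.continuous_re.comp_continuousOn
            ((hv.c2.mono hsub).inner (M'.continuous.comp_continuousOn hcd))
        · exact Complex.continuous_re.comp_continuousOn
            ((hv.cN.mono hsub).inner (M.continuous.comp_continuousOn hcd'))
        · exact Complex.continuous_re.comp_continuousOn
            ((hv.cN.mono hsub).inner (M.continuous.comp_continuousOn hcd))
      rw [uIoc_of_le hst]
      exact (hc.intervalIntegrable_of_Icc hst).1.aestronglyMeasurable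
    · filter_upwards [self_mem_nhdsWithin] with h hh
      filter_upwards with r hr
      rw [uIoc_of_le hst] at hr
      have hrT : r ∈ Ico 0 T := hsub ⟨hr.1.le, hr.2⟩
      have b1 := dq_le (hv.h1 r hrT) (h := h) hh
      have b2 := dq_le (hv.h1 r hrT) (h := -h) (neg_ne_zero.2 hh)
      have c1 : |(⟪v₂ r, M' (dq h (v r))⟫_ℂ).re| ≤ ‖v₂ r‖ * (C * ‖v₂ r‖) :=
        (hre _ _).trans (mul_le_mul_of_nonneg_left
          ((hMn' _).trans (mul_le_mul_of_nonneg_left b1 hC0)) (norm_nonneg _))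
      have c2 : |(⟪N r, M (dq (-h) (v r))⟫_ℂ).re| ≤ ‖N r‖ * (C * ‖v₂ r‖) :=
        (hre _ _).trans (mul_le_mul_of_nonneg_left
          ((hMn _).trans (mul_le_mul_of_nonneg_left b2 hC0)) (norm_nonneg _))
      have c3 : |(⟪N r, M (dq h (v r))⟫_ℂ).re| ≤ ‖N r‖ * (C * ‖v₂ r‖) :=
        (hre _ _).trans (mul_le_mul_of_nonneg_left
          ((hMn _).trans (mul_le_mul_of_nonneg_left b1 hC0)) (norm_nonneg _))
      rw [Real.norm_eq_abs]
      simp only [hG]
      rw [abs_le] at c1 c2 c3 ⊢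
      constructor <;> linarith [c1.1, c1.2, c2.1, c2.2, c3.1, c3.2]
    · refine ContinuousOn.intervalIntegrable_of_Icc hst ?_
      have n2 := (hv.c2.mono hsub).norm
      have nN := (hv.cN.mono hsub).norm
      exact ((continuousOn_const.mul (n2.mul (continuousOn_const.mul n2))).add
        (nN.mul (continuousOn_const.mul n2))).add (nN.mul (continuousOn_const.mul n2))
    · filter_upwards with r hr
      rw [uIoc_of_le hst] at hr
      have hrT : r ∈ Ico 0 T := hsub ⟨hr.1.le, hr.2⟩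
      have t1 := dq_tendsto _ _ _ (hv.h1 r hrT)
      have t2 := dq_tendsto_neg (hv.h1 r hrT)
      refine ((Tendsto.const_mul 4 ?_).sub ?_).sub ?_
      · exact (Complex.continuous_re.tendsto _).comp
          (tendsto_const_nhds.inner ((M'.continuous.tendsto _).comp t1))
      · exact (Complex.continuous_re.tendsto _).comp
          (tendsto_const_nhds.inner ((M.continuous.tendsto _).comp t2))
      · exact (Complex.continuous_re.tendsto _).comp
          (tendsto_const_nhds.inner ((M.continuous.tendsto _).comp t1))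
  have hfin := tendsto_nhds_unique hlhs hrhs
  obtain ⟨_, _, _, _, _, hD⟩ := hDNS
  rw [(hD β (v t) (v₂ t) hb ⟨C, fun a => (hC a).1⟩).2, (hD β (v s) (v₂ s) hb ⟨C, fun a => (hC a).1⟩).2,
    form_im hb (fun a => (hC a).1), form_im hb (fun a => (hC a).1), ← hM, hfin]
  apply intervalIntegral.integral_congr
  intro r hr
  rw [uIcc_of_le hst] at hr
  have hrT : r ∈ Ico 0 T := hsub hr
  simp only
  have z1 : (⟪N r, M (v₂ r)⟫_ℂ).re = 0 := by
    rw [hM, ← form_re]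
    exact hZER β hb ⟨C, fun a => (hC a).1⟩ _ _ _ _ (hv.h1 r hrT) (hv.nl r hrT)
  have z2 : (⟪v₂ r, M' (v₂ r)⟫_ℂ).re = ∫ a, deriv β a * rhoD (v₂ r) a := by
    rw [(hD (deriv β) (v₂ r) (v₂ r) hb' ⟨C, fun a => (hC a).2⟩).1, hM', ← form_re]
    congr 1
    ext x
    congr 1
    rw [← Complex.normSq_eq_conj_mul_self, Complex.ofReal_re, Complex.normSq_eq_norm_sq]
  rw [z1, z2]
  ring

end Pool.Agent.Lib.MP424d38.TY
end
end

section
/-!
# Module RHL: the law of the mass density and conservation of mass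
-/
set_option autoImplicit false

open MeasureTheory Filter Topology Set
open scoped ENNReal ContDiff ComplexConjugate InnerProductSpace

noncomputable section

namespace Pool.Agent.Lib.MP424d38.TY.RHLM

open Pool.Agent.Lib.MP424d38.TY Pool.Agent.Lib.MP424d38.TY.BILM

theorem re_form {β : ℝ → ℝ} (hβ : Continuous β) {C : ℝ} (hC : ∀ a, |β a| ≤ C) (f g : L2) :
    (∫ x : ℝ × ℝ, ((β x.1 : ℝ) : ℂ) * (conj (f x) * g x)).re
      = ∫ x : ℝ × ℝ, β x.1 * (conj (f x) * g x).re := by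
  have h1 := integral_re (form_int hβ hC f g)
  simp only [RCLike.re_eq_complex_re] at h1
  rw [← h1]
  congr 1
  ext x
  rw [Complex.re_ofReal_mul]

theorem im_form {β : ℝ → ℝ} (hβ : Continuous β) {C : ℝ} (hC : ∀ a, |β a| ≤ C) (f g : L2) :
    (∫ x : ℝ × ℝ, ((β x.1 : ℝ) : ℂ) * (conj (f x) * g x)).im
      = ∫ x : ℝ × ℝ, β x.1 * (conj (f x) * g x).im := by
  have h1 := integral_im (form_int hβ hC f g)
  simp only [RCLike.im_eq_complex_im] at h1
  rw [← h1]
  congr 1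
  ext x
  rw [Complex.im_ofReal_mul]

/-- the mass form is real. -/
theorem mass_form (hDNS : SpecDNS) {β : ℝ → ℝ} (hβ : Continuous β) {C : ℝ} (hC : ∀ a, |β a| ≤ C)
    (f : L2) :
    (∫ x : ℝ × ℝ, ((β x.1 : ℝ) : ℂ) * (conj (f x) * f x)) = ((∫ a, β a * rhoD f a : ℝ) : ℂ) := by
  rw [(hDNS.2.2.2.2.2 β f f hβ ⟨C, hC⟩).1, ← integral_complex_ofReal]
  congr 1
  ext x
  rw [Complex.ofReal_mul, mul_comm (conj (f x)) (f x), Complex.mul_conj, Complex.normSq_eq_norm_sq]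

theorem nl_form {β : ℝ → ℝ} {f N : L2}
    (hN : ∀ᵐ x : ℝ × ℝ, N x = ((‖f x‖ ^ 2 : ℝ) : ℂ) * f x) :
    (∫ x : ℝ × ℝ, ((β x.1 : ℝ) : ℂ) * (conj (f x) * N x - conj (N x) * f x)) = 0 := by
  rw [← integral_zero (ℝ × ℝ) ℂ]
  apply integral_congr_ae
  filter_upwards [hN] with x hx
  rw [hx, map_mul, Complex.conj_ofReal]
  ring

theorem flux_form (hDNS : SpecDNS) (hZE2 : SpecZE2) {β : ℝ → ℝ} (hβ : Continuous β) {C : ℝ}
    (hC : ∀ a, |β a| ≤ C) (f F₁ F₂ : L2) (hf : IsH1 f F₁ F₂) :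
    4 * Complex.I * (∫ x : ℝ × ℝ, ((β x.1 : ℝ) : ℂ) * (conj (F₂ x) * f x))
      = ((4 * ∫ a, β a * momD f F₂ a : ℝ) : ℂ) := by
  have h1 : (∫ x : ℝ × ℝ, ((β x.1 : ℝ) : ℂ) * (conj (f x) * F₂ x)).re = 0 := by
    rw [re_form hβ hC]
    exact hZE2 β hβ ⟨C, hC⟩ f F₁ F₂ hf
  have h2 : (∫ x : ℝ × ℝ, ((β x.1 : ℝ) : ℂ) * (conj (f x) * F₂ x)).im
      = ∫ a, β a * momD f F₂ a := by
    rw [im_form hβ hC]
    exact ((hDNS.2.2.2.2.2 β f F₂ hβ ⟨C, hC⟩).2).symm
  rw [form_symm F₂ f, ← h2]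
  apply Complex.ext
  · simp
  · simp [h1]

end Pool.Agent.Lib.MP424d38.TY.RHLM

namespace Pool.Agent.Lib.MP424d38.TY

open Pool.Agent.Lib.MP424d38.TY.BILM Pool.Agent.Lib.MP424d38.TY.RHLM

theorem specRHL (hBIL : SpecBIL) (hDNS : SpecDNS) (hZE2 : SpecZE2) : SpecRHL := by
  intro T v v₁ v₂ N hv
  have key : ∀ β : ℝ → ℝ, Cb1 β → ∀ s t : ℝ, 0 ≤ s → s ≤ t → t < T →
      (∫ a, β a * rhoD (v t) a) - ∫ a, β a * rhoD (v s) a
        = ∫ r in s..t, 4 * ∫ a, deriv β a * momD (v r) (v₂ r) a := by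
    intro β hβ s t hs hst htT
    obtain ⟨C, hC⟩ := hβ.2
    have h1 := hBIL T v v₁ v₂ N v v₁ v₂ N hv.toLin hv.toLin β hβ s t hs hst htT
    rw [mass_form hDNS (cb1_cont hβ) (fun a => (hC a).1),
      mass_form hDNS (cb1_cont hβ) (fun a => (hC a).1)] at h1
    have h2 : (∫ r in s..t, (4 * Complex.I * (∫ x : ℝ × ℝ, ((deriv β x.1 : ℝ) : ℂ) *
          (conj (v₂ r x) * v r x))
        + Complex.I * ∫ x : ℝ × ℝ, ((β x.1 : ℝ) : ℂ) * (conj (v r x) * N r x - conj (N r x) * v r x)))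
        = ∫ r in s..t, ((4 * ∫ a, deriv β a * momD (v r) (v₂ r) a : ℝ) : ℂ) := by
      apply intervalIntegral.integral_congr
      intro r hr
      rw [uIcc_of_le hst] at hr
      have hrT : r ∈ Ico 0 T := ⟨hs.trans hr.1, hr.2.trans_lt htT⟩
      simp only
      rw [nl_form (hv.nl r hrT), mul_zero, add_zero]
      exact flux_form hDNS hZE2 (cb1_dcont hβ) (fun a => (hC a).2) _ _ _ (hv.h1 r hrT)
    rw [h2, intervalIntegral.integral_ofReal] at h1
    exact_mod_cast h1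
  refine ⟨key, ?_⟩
  intro t ht
  have h1 := key (fun _ => 1) ⟨contDiff_const, 1, fun a => by simp⟩ 0 t le_rfl ht.1 ht.2
  simp only [one_mul, deriv_const', zero_mul, integral_zero, mul_zero,
    intervalIntegral.integral_zero] at h1
  rw [(hDNS.1 (v t)).2.2, (hDNS.1 (v 0)).2.2, sub_eq_zero] at h1
  exact (sq_eq_sq₀ (norm_nonneg _) (norm_nonneg _)).1 h1

end Pool.Agent.Lib.MP424d38.TY
end
end

section
set_option autoImplicit false

open MeasureTheory Filter Topology Set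
open scoped ENNReal ContDiff ComplexConjugate

noncomputable section

namespace Pool.Agent.Lib.MP424d38.TY

theorem specSHF : SpecSHF := by
  intro T t₁ v v₁ v₂ N h0 h1 h
  have hm : ∀ t ∈ Ico (0:ℝ) (T - t₁), t₁ + t ∈ Ico (0:ℝ) T := by
    intro t ht
    exact ⟨by linarith [ht.1], by linarith [ht.2]⟩
  have hc : ContinuousOn (fun t : ℝ => t₁ + t) (Ico 0 (T - t₁)) := by fun_prop
  refine ⟨fun t ht => h.h1 _ (hm t ht), h.cv.comp hc hm, h.c1.comp hc hm, h.c2.comp hc hm,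
    h.cN.comp hc hm, ?_⟩
  intro ψ hψ s t hs hst ht
  have := h.eq ψ hψ (t₁ + s) (t₁ + t) (by linarith) (by linarith) (by linarith)
  rw [this]
  exact (intervalIntegral.integral_comp_add_left
    (fun r => Complex.I * (-4 * (∫ x, v₂ r x * d1 ψ x) + ∫ x, N r x * ψ x)) t₁).symm

end Pool.Agent.Lib.MP424d38.TY
end
end

section
/-!
# Module SWP: exchange of the coordinates
-/
set_option autoImplicit false

open MeasureTheory Filter Topology Set
open scoped ENNReal ContDiff ComplexConjugate InnerProductSpace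

noncomputable section

namespace Pool.Agent.Lib.MP424d38.TY.SWPM

open Pool.Agent.Lib.MP424d38.TY Pool.Agent.Lib.MP424d38.TY.BILM

theorem swp_coe (f : L2) : ∀ᵐ x : ℝ × ℝ, swp f x = f x.swap :=
  Lp.coeFn_compMeasurePreserving f _

theorem swp_norm (f : L2) : ‖swp f‖ = ‖f‖ := Lp.norm_compMeasurePreserving f _

theorem swp_cont : Continuous swp :=
  (Lp.isometry_compMeasurePreserving (E := ℂ) (p := 2) _).continuous

theorem swp_pair (f : L2) (φ : ℝ × ℝ → ℂ) :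
    ∫ x, swp f x * φ x = ∫ x, f x * φ x.swap := by
  have h1 : ∫ x : ℝ × ℝ, f x * φ x.swap = ∫ x : ℝ × ℝ, f x.swap * φ x := by
    have := integral_prod_swap (μ := (volume : Measure ℝ)) (ν := (volume : Measure ℝ))
      (fun x : ℝ × ℝ => f x.swap * φ x)
    simp only [Prod.swap_swap] at this
    exact this
  rw [h1]
  apply integral_congr_ae
  filter_upwards [swp_coe f] with x hx
  rw [hx]

theorem test_sw {ψ : ℝ × ℝ → ℂ} (hψ : Test ψ) : Test (fun x => ψ x.swap) := by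
  refine ⟨hψ.1.comp (contDiff_snd.prodMk contDiff_fst), ?_⟩
  exact hψ.2.comp_homeomorph (Homeomorph.prodComm ℝ ℝ)

theorem fd_sw (ψ : ℝ × ℝ → ℂ) (x v : ℝ × ℝ) :
    fderiv ℝ (fun x : ℝ × ℝ => ψ x.swap) x v = fderiv ℝ ψ x.swap v.swap := by
  have h := (ContinuousLinearEquiv.prodComm ℝ ℝ ℝ).comp_right_fderiv (f := ψ) (x := x)
  have h2 : (ψ ∘ (ContinuousLinearEquiv.prodComm ℝ ℝ ℝ)) = fun x : ℝ × ℝ => ψ x.swap := rfl
  rw [h2] at h
  rw [h]
  rfl

theorem d1_sw (ψ : ℝ × ℝ → ℂ) : d1 (fun x => ψ x.swap) = fun x => d2 ψ x.swap := by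
  ext x
  simp only [d1, d2]
  rw [fd_sw]
  rfl

theorem d2_sw (ψ : ℝ × ℝ → ℂ) : d2 (fun x => ψ x.swap) = fun x => d1 ψ x.swap := by
  ext x
  simp only [d1, d2]
  rw [fd_sw]
  rfl

theorem swp_h1 (f F₁ F₂ : L2) (hf : IsH1 f F₁ F₂) : IsH1 (swp f) (swp F₂) (swp F₁) := by
  intro ψ hψ
  have h1 := hf _ (test_sw hψ)
  rw [d1_sw, d2_sw] at h1
  rw [swp_pair, swp_pair, swp_pair, swp_pair]
  exact ⟨h1.2, h1.1⟩

theorem test_d1 {ψ : ℝ × ℝ → ℂ} (hψ : Test ψ) : Test (d1 ψ) :=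
  ⟨(hψ.1.fderiv_right (m := ∞) (by simp)).clm_apply contDiff_const,
    (hψ.2.fderiv (𝕜 := ℝ)).comp_left (g := fun L : (ℝ × ℝ) →L[ℝ] ℂ => L (1, 0)) rfl⟩

theorem test_d2 {ψ : ℝ × ℝ → ℂ} (hψ : Test ψ) : Test (d2 ψ) :=
  ⟨(hψ.1.fderiv_right (m := ∞) (by simp)).clm_apply contDiff_const,
    (hψ.2.fderiv (𝕜 := ℝ)).comp_left (g := fun L : (ℝ × ℝ) →L[ℝ] ℂ => L (0, 1)) rfl⟩

theorem d12 {ψ : ℝ × ℝ → ℂ} (hψ : Test ψ) : d1 (d2 ψ) = d2 (d1 ψ) := by
  ext x
  have hd : DifferentiableAt ℝ (fderiv ℝ ψ) x :=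
    ((hψ.1.fderiv_right (m := ∞) (by simp)).differentiable (by simp)).differentiableAt
  have e : ∀ v w : ℝ × ℝ, fderiv ℝ (fun y => fderiv ℝ ψ y v) x w = (fderiv ℝ (fderiv ℝ ψ) x w) v := by
    intro v w
    have h1 := (hd.hasFDerivAt.clm_apply (hasFDerivAt_const v x)).fderiv
    rw [h1]
    simp
  have hs : IsSymmSndFDerivAt ℝ ψ x := by
    apply ContDiffAt.isSymmSndFDerivAt (n := ∞) hψ.1.contDiffAt
    rw [minSmoothness_of_isRCLikeNormedField]
    exact ENat.LEInfty.out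
  show fderiv ℝ (fun y => fderiv ℝ ψ y (0, 1)) x (1, 0) = fderiv ℝ (fun y => fderiv ℝ ψ y (1, 0)) x (0, 1)
  rw [e, e]
  exact hs _ _

theorem cross (f F₁ F₂ : L2) (hf : IsH1 f F₁ F₂) {ψ : ℝ × ℝ → ℂ} (hψ : Test ψ) :
    ∫ x, F₁ x * d2 ψ x = ∫ x, F₂ x * d1 ψ x := by
  have h1 := (hf _ (test_d2 hψ)).1
  have h2 := (hf _ (test_d1 hψ)).2
  rw [d12 hψ] at h1
  rw [h1] at h2
  exact neg_injective h2

theorem swp_lin (T : ℝ) (v v₁ v₂ N : ℝ → L2) (hL : Lin T v v₁ v₂ N) :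
    Lin T (fun t => swp (v t)) (fun t => swp (v₂ t)) (fun t => swp (v₁ t)) (fun t => swp (N t)) := by
  refine ⟨fun t ht => swp_h1 _ _ _ (hL.h1 t ht), swp_cont.comp_continuousOn hL.cv,
    swp_cont.comp_continuousOn hL.c2, swp_cont.comp_continuousOn hL.c1,
    swp_cont.comp_continuousOn hL.cN, ?_⟩
  intro ψ hψ s t hs hst ht
  have h1 := hL.eq _ (test_sw hψ) s t hs hst ht
  rw [swp_pair, swp_pair, h1]
  apply intervalIntegral.integral_congr
  intro r hr
  rw [uIcc_of_le hst] at hr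
  have hr' : r ∈ Ico 0 T := ⟨hs.trans hr.1, hr.2.trans_lt ht⟩
  simp only
  rw [swp_pair, swp_pair, ← cross _ _ _ (hL.h1 r hr') (test_sw hψ), d2_sw]

theorem swp_nls (T : ℝ) (v v₁ v₂ N : ℝ → L2) (hL : Nls T v v₁ v₂ N) :
    Nls T (fun t => swp (v t)) (fun t => swp (v₂ t)) (fun t => swp (v₁ t)) (fun t => swp (N t)) := by
  refine ⟨swp_lin T v v₁ v₂ N hL.toLin, ?_⟩
  intro t ht
  have h1 : ∀ᵐ x : ℝ × ℝ, N t x.swap = ((‖v t x.swap‖ ^ 2 : ℝ) : ℂ) * v t x.swap :=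
    (Measure.measurePreserving_swap (μ := (volume : Measure ℝ))
      (ν := (volume : Measure ℝ))).quasiMeasurePreserving.ae (hL.nl t ht)
  filter_upwards [swp_coe (N t), swp_coe (v t), h1] with x h2 h3 h4
  rw [h2, h3, h4]

end Pool.Agent.Lib.MP424d38.TY.SWPM

namespace Pool.Agent.Lib.MP424d38.TY

open SWPM in
theorem specSWP : SpecSWP :=
  ⟨swp_h1, fun f => ⟨swp_norm f, swp_coe f⟩, swp_lin, swp_nls⟩

end Pool.Agent.Lib.MP424d38.TY
end
end

section
/-! MLW: the kinetic law. -/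
set_option autoImplicit false

open MeasureTheory Filter Topology Set
open scoped ENNReal ContDiff ComplexConjugate FourierTransform InnerProductSpace

noncomputable section

namespace Pool.Agent.Lib.MP424d38.ES

open Pool.Agent.Lib.MP424d38.TY

namespace MLWM

open Pool.Agent.Lib.MP424d38.TY.BILM

/-- the momentum density as an element of `L¹`. -/
def mom (hDNS : SpecDNS) (f F : L2) : L1 := (hDNS.2.1 f F).toL1 (momD f F)

lemma mom_coe (hDNS : SpecDNS) (f F : L2) : ∀ᵐ a : ℝ, mom hDNS f F a = momD f F a :=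
  Integrable.coeFn_toL1 _

lemma mom_dist (hDNS : SpecDNS) (f F g G : L2) :
    ‖mom hDNS f F - mom hDNS g G‖ ≤ ‖f - g‖ * ‖F‖ + ‖g‖ * ‖F - G‖ := by
  rw [L1.norm_eq_integral_norm]
  refine le_trans (le_of_eq ?_) (hDNS.2.2.2.2.1 f F g G)
  refine integral_congr_ae ?_
  filter_upwards [mom_coe hDNS f F, mom_coe hDNS g G,
    Lp.coeFn_sub (mom hDNS f F) (mom hDNS g G)] with a h1 h2 h3
  rw [h3, Pi.sub_apply, h1, h2, Real.norm_eq_abs]

lemma mom_cont (hDNS : SpecDNS) : Continuous (fun p : L2 × L2 => mom hDNS p.1 p.2) := by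
  rw [continuous_iff_continuousAt]
  intro p
  rw [ContinuousAt, tendsto_iff_norm_sub_tendsto_zero]
  refine squeeze_zero (fun q => norm_nonneg _) (fun q => mom_dist hDNS q.1 q.2 p.1 p.2) ?_
  have h1 : Continuous (fun q : L2 × L2 => ‖q.1 - p.1‖ * ‖q.2‖ + ‖p.1‖ * ‖q.2 - p.2‖) := by
    fun_prop
  have h2 := h1.tendsto p
  simpa using h2

/-- continuity of the form. -/
lemma form_cont {β : ℝ → ℝ} (hβ : Continuous β) {C : ℝ} (hC : ∀ a, |β a| ≤ C) {s : Set ℝ}
    {f g : ℝ → L2} (hf : ContinuousOn f s) (hg : ContinuousOn g s) :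
    ContinuousOn (fun r => ∫ x : ℝ × ℝ, ((β x.1 : ℝ) : ℂ) * (conj (f r x) * g r x)) s := by
  have h : (fun r => ∫ x : ℝ × ℝ, ((β x.1 : ℝ) : ℂ) * (conj (f r x) * g r x))
      = fun r => ⟪f r, mulC β hβ C hC (g r)⟫_ℂ := by
    funext r
    exact form_eq hβ hC (f r) (g r)
  rw [h]
  exact hf.inner ((mulC β hβ C hC).continuous.comp_continuousOn hg)

/-- imaginary part of the form. -/
lemma form_im (hDNS : SpecDNS) {β : ℝ → ℝ} (hβ : Continuous β) {C : ℝ} (hC : ∀ a, |β a| ≤ C)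
    (f g : L2) : (∫ x : ℝ × ℝ, ((β x.1 : ℝ) : ℂ) * (conj (f x) * g x)).im
      = ∫ a, β a * momD f g a := by
  rw [(hDNS.2.2.2.2.2 β f g hβ ⟨C, hC⟩).2]
  have h1 := Complex.imCLM.integral_comp_comm (form_int hβ hC f g)
  simp only [Complex.imCLM_apply] at h1
  rw [← h1]
  refine integral_congr_ae (Eventually.of_forall fun x => ?_)
  simp only [Complex.im_ofReal_mul]

lemma mom_int (hDNS : SpecDNS) (β : ℝ → ℝ) (f g : L2) :
    ∫ a, β a * mom hDNS f g a = ∫ a, β a * momD f g a := by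
  refine integral_congr_ae ?_
  filter_upwards [mom_coe hDNS f g] with a ha
  rw [ha]

/-- densities as spectral integrals. -/
lemma spec_int (P : L2 ≃ₗᵢ[ℂ] L2)
    (hP : ∀ f g : L2, ∀ᵐ a : ℝ, (∫ b, conj (f (a, b)) * g (a, b)) = ∫ ξ, conj (P f (a, ξ)) * P g (a, ξ))
    (v q : L2) (τ : ℝ → ℝ)
    (hq : ∀ᵐ x : ℝ × ℝ, P q x = Complex.I * (((τ (2 * Real.pi * x.2) : ℝ) : ℂ) * P v x)) :
    ∀ᵐ a : ℝ, momD v q a = Mo P τ v a := by
  have hint : Integrable (fun x : ℝ × ℝ => conj (v x) * q x) ((volume : Measure ℝ).prod volume) :=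
    int_mul (Lp.memLp v).star (Lp.memLp q)
  have hq' : ∀ᵐ a : ℝ, ∀ᵐ ξ : ℝ, P q (a, ξ) = Complex.I * (((τ (2 * Real.pi * ξ) : ℝ) : ℂ) * P v (a, ξ)) :=
    Measure.ae_ae_of_ae_prod (μ := (volume : Measure ℝ)) (ν := (volume : Measure ℝ)) hq
  filter_upwards [hP v q, hint.prod_right_ae, hq'] with a h1 h2 h3
  have h4 := Complex.imCLM.integral_comp_comm h2
  simp only [Complex.imCLM_apply] at h4
  rw [momD, h4, h1, Mo]
  have h5 : (∫ ξ, conj (P v (a, ξ)) * P q (a, ξ))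
      = Complex.I * ((∫ ξ, τ (2 * Real.pi * ξ) * ‖P v (a, ξ)‖ ^ 2 : ℝ) : ℂ) := by
    have h8 : ((∫ ξ, τ (2 * Real.pi * ξ) * ‖P v (a, ξ)‖ ^ 2 : ℝ) : ℂ)
        = ∫ ξ, ((τ (2 * Real.pi * ξ) * ‖P v (a, ξ)‖ ^ 2 : ℝ) : ℂ) := integral_ofReal.symm
    rw [h8, ← integral_const_mul]
    refine integral_congr_ae ?_
    filter_upwards [h3] with ξ h6
    have h7 : conj (P v (a, ξ)) * P v (a, ξ) = ((‖P v (a, ξ)‖ ^ 2 : ℝ) : ℂ) := by
      rw [mul_comm, Complex.mul_conj, Complex.normSq_eq_norm_sq]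
    rw [h6]
    calc conj (P v (a, ξ)) * (Complex.I * (((τ (2 * Real.pi * ξ) : ℝ) : ℂ) * P v (a, ξ)))
        = Complex.I * (((τ (2 * Real.pi * ξ) : ℝ) : ℂ) * (conj (P v (a, ξ)) * P v (a, ξ))) := by ring
      _ = _ := by
        rw [h7]
        push_cast
        rfl
  rw [h5, Complex.I_mul_im, Complex.ofReal_re]

theorem main (hPSL : SpecPSL) (hMTC : SpecMTC) (hPD2 : SpecPD2) (hBIL : SpecBIL) (hDNS : SpecDNS)
    (P : L2 ≃ₗᵢ[ℂ] L2) (hP : IsPF P) (T : ℝ) (v v₁ v₂ N : ℝ → L2) (hN : Nls T v v₁ v₂ N)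
    (σ : ℝ → ℝ) (C : ℝ) (S : L2 →L[ℂ] L2) (hσ : Measurable σ) (hσC : ∀ l, |σ l| ≤ C)
    (hS : IsMT P σ S) :
  ∃ m f c : ℝ → L1, LawS T m (fun t => (4 : ℝ) • f t) c ∧ ∀ t ∈ Ico 0 T,
    (∀ᵐ a : ℝ, m t a = Mo P σ (v t) a) ∧ (∀ᵐ a : ℝ, f t a = Mo P (fun l => l * σ l) (v t) a) ∧
    (∀ᵐ a : ℝ, c t a = src S (v t) (N t) a) := by
  obtain ⟨-, p2, -⟩ := hPSL P hP
  obtain ⟨c1, -, c3⟩ := hMTC P hP σ C S hσ hσC hS
  obtain ⟨-, d2⟩ := hPD2 P hP
  have cS : Continuous S := S.continuous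
  refine ⟨fun t => mom hDNS (v t) (Complex.I • S (v t)), fun t => mom hDNS (v t) (S (v₂ t)),
    fun t => (-2 : ℝ) • mom hDNS (S (v t)) (N t), ?_, ?_⟩
  · constructor
    · exact (mom_cont hDNS).comp_continuousOn
        (hN.cv.prodMk ((cS.comp_continuousOn hN.cv).const_smul Complex.I))
    · exact ((mom_cont hDNS).comp_continuousOn
        (hN.cv.prodMk (cS.comp_continuousOn hN.c2))).const_smul (4 : ℝ)
    · exact ((mom_cont hDNS).comp_continuousOn
        ((cS.comp_continuousOn hN.cv).prodMk hN.cN)).const_smul (-2 : ℝ)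
    · intro β hβ t t' ht0 htt' ht'
      obtain ⟨B, hB⟩ := hβ.2
      have hB1 : ∀ a, |β a| ≤ B := fun a => (hB a).1
      have hB2 : ∀ a, |deriv β a| ≤ B := fun a => (hB a).2
      have hβc := cb1_cont hβ
      have hβd := cb1_dcont hβ
      have hbil := hBIL T v v₁ v₂ N (fun t => S (v t)) (fun t => S (v₁ t)) (fun t => S (v₂ t))
        (fun t => S (N t)) hN.toLin (c3 T v v₁ v₂ N hN.toLin) β hβ t t' ht0 htt' ht'
      -- left hand sides
      have hL : ∀ r, ∫ a, β a * mom hDNS (v r) (Complex.I • S (v r)) a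
          = (∫ x : ℝ × ℝ, ((β x.1 : ℝ) : ℂ) * (conj (v r x) * S (v r) x)).re := by
        intro r
        rw [mom_int, ← form_im hDNS hβc hB1]
        have h1 : (∫ x : ℝ × ℝ, ((β x.1 : ℝ) : ℂ) * (conj (v r x) * (Complex.I • S (v r) : L2) x))
            = Complex.I * ∫ x : ℝ × ℝ, ((β x.1 : ℝ) : ℂ) * (conj (v r x) * S (v r) x) := by
          rw [← integral_const_mul]
          refine integral_congr_ae ?_
          filter_upwards [Lp.coeFn_smul Complex.I (S (v r))] with x hx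
          rw [hx, Pi.smul_apply, smul_eq_mul]
          ring
        rw [h1, Complex.I_mul_im]
      rw [hL, hL, ← Complex.sub_re, hbil]
      have hsub : Icc t t' ⊆ Ico 0 T := fun r hr => ⟨ht0.trans hr.1, hr.2.trans_lt ht'⟩
      -- the second term splits
      have hsplit : ∀ r, (∫ x : ℝ × ℝ, ((β x.1 : ℝ) : ℂ) * (conj (v r x) * S (N r) x - conj (N r x) * S (v r) x))
          = (∫ x : ℝ × ℝ, ((β x.1 : ℝ) : ℂ) * (conj (v r x) * S (N r) x))
            - ∫ x : ℝ × ℝ, ((β x.1 : ℝ) : ℂ) * (conj (N r x) * S (v r) x) := by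
        intro r
        rw [← integral_sub (form_int hβc hB1 _ _) (form_int hβc hB1 _ _)]
        refine integral_congr_ae (Eventually.of_forall fun x => ?_)
        simp only
        ring
      simp_rw [hsplit]
      have hcv := hN.cv.mono hsub
      have hc2 := hN.c2.mono hsub
      have hcN := hN.cN.mono hsub
      have hcont : ContinuousOn (fun r => 4 * Complex.I * (∫ x : ℝ × ℝ, ((deriv β x.1 : ℝ) : ℂ) * (conj (v₂ r x) * S (v r) x))
          + Complex.I * ((∫ x : ℝ × ℝ, ((β x.1 : ℝ) : ℂ) * (conj (v r x) * S (N r) x))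
            - ∫ x : ℝ × ℝ, ((β x.1 : ℝ) : ℂ) * (conj (N r x) * S (v r) x))) (Icc t t') :=
        (continuousOn_const.mul (form_cont hβd hB2 hc2 (cS.comp_continuousOn hcv))).add
          (continuousOn_const.mul ((form_cont hβc hB1 hcv (cS.comp_continuousOn hcN)).sub
            (form_cont hβc hB1 hcN (cS.comp_continuousOn hcv))))
      have hii : IntervalIntegrable (fun r => 4 * Complex.I * (∫ x : ℝ × ℝ, ((deriv β x.1 : ℝ) : ℂ) * (conj (v₂ r x) * S (v r) x))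
          + Complex.I * ((∫ x : ℝ × ℝ, ((β x.1 : ℝ) : ℂ) * (conj (v r x) * S (N r) x))
            - ∫ x : ℝ × ℝ, ((β x.1 : ℝ) : ℂ) * (conj (N r x) * S (v r) x))) volume t t' :=
        ContinuousOn.intervalIntegrable_of_Icc htt' hcont
      have hre := Complex.reCLM.intervalIntegral_comp_comm hii
      simp only [Complex.reCLM_apply] at hre
      rw [← hre]
      refine intervalIntegral.integral_congr fun r _ => ?_
      -- the three identities
      have e1 : (∫ x : ℝ × ℝ, ((deriv β x.1 : ℝ) : ℂ) * (conj (v₂ r x) * S (v r) x)).im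
          = - ∫ a, deriv β a * mom hDNS (v r) (S (v₂ r)) a := by
        rw [c1 (deriv β) hβd.measurable ⟨B, hB2⟩ (v₂ r) (v r), form_symm, Complex.conj_im,
          form_im hDNS hβd hB2, mom_int]
      have e2 : (∫ x : ℝ × ℝ, ((β x.1 : ℝ) : ℂ) * (conj (v r x) * S (N r) x)).im
          = ∫ a, β a * mom hDNS (S (v r)) (N r) a := by
        rw [c1 β hβc.measurable ⟨B, hB1⟩ (v r) (N r), form_im hDNS hβc hB1, mom_int]
      have e3 : (∫ x : ℝ × ℝ, ((β x.1 : ℝ) : ℂ) * (conj (N r x) * S (v r) x)).im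
          = - ∫ a, β a * mom hDNS (S (v r)) (N r) a := by
        rw [form_symm, Complex.conj_im, form_im hDNS hβc hB1, mom_int]
      have e4 : ∫ a, deriv β a * ((4 : ℝ) • mom hDNS (v r) (S (v₂ r)) : L1) a
          = 4 * ∫ a, deriv β a * mom hDNS (v r) (S (v₂ r)) a := by
        rw [← integral_const_mul]
        refine integral_congr_ae ?_
        filter_upwards [Lp.coeFn_smul (4 : ℝ) (mom hDNS (v r) (S (v₂ r)))] with a ha
        rw [ha, Pi.smul_apply, smul_eq_mul]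
        ring
      have e5 : ∫ a, β a * ((-2 : ℝ) • mom hDNS (S (v r)) (N r) : L1) a
          = -2 * ∫ a, β a * mom hDNS (S (v r)) (N r) a := by
        rw [← integral_const_mul]
        refine integral_congr_ae ?_
        filter_upwards [Lp.coeFn_smul (-2 : ℝ) (mom hDNS (S (v r)) (N r))] with a ha
        rw [ha, Pi.smul_apply, smul_eq_mul]
        ring
      rw [e4, e5]
      have e6 : ∀ z : ℂ, (4 * Complex.I * z).re = -4 * z.im := by
        intro z
        simp [Complex.mul_re, Complex.mul_im]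
      rw [Complex.add_re, Complex.I_mul_re, Complex.sub_im, e2, e3]
      have e7 : (4 * Complex.I * ∫ x : ℝ × ℝ, ((deriv β x.1 : ℝ) : ℂ) * (conj (v₂ r x) * S (v r) x)).re
          = -4 * (∫ x : ℝ × ℝ, ((deriv β x.1 : ℝ) : ℂ) * (conj (v₂ r x) * S (v r) x)).im := e6 _
      rw [e7, e1]
      ring
  · intro t ht
    refine ⟨?_, ?_, ?_⟩
    · have h1 : ∀ᵐ x : ℝ × ℝ, P (Complex.I • S (v t)) x
          = Complex.I * (((σ (2 * Real.pi * x.2) : ℝ) : ℂ) * P (v t) x) := by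
        rw [map_smul]
        filter_upwards [hS (v t), Lp.coeFn_smul Complex.I (P (S (v t)))] with x h2 h3
        rw [h3, Pi.smul_apply, smul_eq_mul, h2]
      filter_upwards [mom_coe hDNS (v t) (Complex.I • S (v t)), spec_int P p2 (v t) _ σ h1] with a h2 h3
      rw [h2, h3]
    · have h1 : ∀ᵐ x : ℝ × ℝ, P (S (v₂ t)) x
          = Complex.I * ((((fun l => l * σ l) (2 * Real.pi * x.2) : ℝ) : ℂ) * P (v t) x) := by
        filter_upwards [hS (v₂ t), d2 (v t) (v₁ t) (v₂ t) (hN.h1 t ht)] with x h2 h3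
        rw [h2, h3]
        push_cast
        ring
      filter_upwards [mom_coe hDNS (v t) (S (v₂ t)), spec_int P p2 (v t) _ (fun l => l * σ l) h1] with a h2 h3
      rw [h2, h3]
    · filter_upwards [mom_coe hDNS (S (v t)) (N t),
        Lp.coeFn_smul (-2 : ℝ) (mom hDNS (S (v t)) (N t))] with a h1 h2
      rw [h2, Pi.smul_apply, smul_eq_mul, h1]
      rfl

end MLWM

theorem specMLW (hPSL : SpecPSL) (hMTC : SpecMTC) (hPD2 : SpecPD2) (hBIL : SpecBIL)
    (hDNS : SpecDNS) : SpecMLW := fun P hP T v v₁ v₂ N hN σ C S hσ hσC hS =>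
  MLWM.main hPSL hMTC hPD2 hBIL hDNS P hP T v v₁ v₂ N hN σ C S hσ hσC hS

end Pool.Agent.Lib.MP424d38.ES
end
end

section
/-!
# Block ES, module MTC (commutation of the multiplier operators with translations, `H¹`, `Lin`)
-/
set_option autoImplicit false

open MeasureTheory Filter Topology Set
open scoped ENNReal ContDiff ComplexConjugate FourierTransform

noncomputable section

namespace Pool.Agent.Lib.MP424d38.ES

open Pool.Agent.Lib.MP424d38.TY

namespace MTCM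

open Pool.Agent.Lib.MP424d38.TY.TRNM Pool.Agent.Lib.MP424d38.TY.SWPM Pool.Agent.Lib.MP424d38.TY.BILM

/-! ### selfadjointness on slices -/

theorem conj_mul_int (f g : L2) : Integrable (fun x : ℝ × ℝ => conj (f x) * g x) volume := by
  have h1 : MemLp (fun x => conj (f x)) 2 volume := (Lp.memLp f).star
  exact int_mul h1 (Lp.memLp g)

theorem beta_int (β : ℝ → ℝ) (hβ : Measurable β) (B : ℝ) (hB : ∀ a, |β a| ≤ B) (f g : L2) :
    Integrable (fun x : ℝ × ℝ => ((β x.1 : ℝ) : ℂ) * (conj (f x) * g x)) volume := by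
  have hm : Measurable fun x : ℝ × ℝ => ((β x.1 : ℝ) : ℂ) :=
    Complex.measurable_ofReal.comp (hβ.comp measurable_fst)
  refine Integrable.mono' ((conj_mul_int f g).norm.const_mul B)
    (hm.aestronglyMeasurable.mul (conj_mul_int f g).aestronglyMeasurable) ?_
  refine ae_of_all _ fun x => ?_
  rw [norm_mul, Complex.norm_real, Real.norm_eq_abs]
  exact mul_le_mul_of_nonneg_right (hB _) (norm_nonneg _)

theorem slices {p : ℝ × ℝ → Prop} (h : ∀ᵐ x : ℝ × ℝ, p x) : ∀ᵐ a : ℝ, ∀ᵐ b : ℝ, p (a, b) := by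
  rw [Measure.volume_eq_prod] at h
  exact Measure.ae_ae_of_ae_prod h

theorem fub {F : ℝ × ℝ → ℂ} (h : Integrable F volume) :
    ∫ x : ℝ × ℝ, F x = ∫ a : ℝ, ∫ b : ℝ, F (a, b) := by
  rw [Measure.volume_eq_prod] at h ⊢
  exact integral_prod _ h

theorem ae_of_slices {p : ℝ × ℝ → Prop} (hm : MeasurableSet {x : ℝ × ℝ | p x})
    (h : ∀ᵐ a : ℝ, ∀ᵐ b : ℝ, p (a, b)) : ∀ᵐ x : ℝ × ℝ, p x := by
  rw [Measure.volume_eq_prod]
  exact (Measure.ae_prod_iff_ae_ae hm).mpr h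

theorem selfadj (PS : SpecPSL) (P : L2 ≃ₗᵢ[ℂ] L2) (hP : IsPF P) (σ : ℝ → ℝ) (S : L2 →L[ℂ] L2)
    (hS : IsMT P σ S) (β : ℝ → ℝ) (hβ : Measurable β) (B : ℝ) (hB : ∀ a, |β a| ≤ B) (f g : L2) :
    (∫ x : ℝ × ℝ, ((β x.1 : ℝ) : ℂ) * (conj (f x) * S g x))
      = ∫ x : ℝ × ℝ, ((β x.1 : ℝ) : ℂ) * (conj (S f x) * g x) := by
  have i1 := beta_int β hβ B hB f (S g)
  have i2 := beta_int β hβ B hB (S f) g
  rw [fub i1, fub i2]
  refine integral_congr_ae ?_
  filter_upwards [(PS P hP).2.1 f (S g), (PS P hP).2.1 (S f) g, slices (hS f), slices (hS g)]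
    with a h1 h2 h3 h4
  rw [integral_const_mul, integral_const_mul, h1, h2]
  congr 1
  refine integral_congr_ae ?_
  filter_upwards [h3, h4] with ξ h5 h6
  rw [h5, h6, map_mul, Complex.conj_ofReal]
  ring

/-! ### translations -/

theorem comm_trn (PD : SpecPD2) (P : L2 ≃ₗᵢ[ℂ] L2) (hP : IsPF P) (σ : ℝ → ℝ) (S : L2 →L[ℂ] L2)
    (hS : IsMT P σ S) (h : ℝ) (f : L2) : S (trn h f) = trn h (S f) := by
  apply P.injective
  apply Lp.ext
  filter_upwards [hS (trn h f), (PD P hP).1 h f, (PD P hP).1 h (S f), hS f] with x h1 h2 h3 h4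
  rw [h1, h2, h3, h4]
  ring

/-- translation in the first coordinate. -/
def tr1 (h : ℝ) (f : L2) : L2 := swp (trn h (swp f))

theorem swap_ae {p : ℝ × ℝ → Prop} (h : ∀ᵐ x : ℝ × ℝ, p x) : ∀ᵐ x : ℝ × ℝ, p x.swap :=
  (Measure.measurePreserving_swap (μ := (volume : Measure ℝ))
      (ν := (volume : Measure ℝ))).quasiMeasurePreserving.ae h

theorem add_ae (v : ℝ × ℝ) {p : ℝ × ℝ → Prop} (h : ∀ᵐ x : ℝ × ℝ, p x) :
    ∀ᵐ x : ℝ × ℝ, p (x + v) :=
  (measurePreserving_add_right volume v).quasiMeasurePreserving.ae h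

theorem tr1_coe (h : ℝ) (f : L2) : ∀ᵐ x : ℝ × ℝ, tr1 h f x = f (x + (h, (0 : ℝ))) := by
  have h1 := swp_coe (trn h (swp f))
  have h2 := swap_ae (trn_coe h (swp f))
  have h3 := swap_ae (add_ae ((0 : ℝ), h) (swp_coe f))
  filter_upwards [h1, h2, h3] with x e1 e2 e3
  unfold tr1
  rw [e1, e2, e3]
  congr 1

theorem P_tr1 (PS : SpecPSL) (P : L2 ≃ₗᵢ[ℂ] L2) (hP : IsPF P) (h : ℝ) (f : L2) :
    ∀ᵐ x : ℝ × ℝ, P (tr1 h f) x = P f (x + (h, (0 : ℝ))) := by
  have h1 := (PS P hP).1 f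
  have h1' : ∀ᵐ a : ℝ, ∃ H : L2R, (∀ᵐ b : ℝ, H b = f (a + h, b)) ∧
      (∀ᵐ ξ : ℝ, (𝓕 H : L2R) ξ = P f (a + h, ξ)) :=
    (measurePreserving_add_right volume h).quasiMeasurePreserving.ae h1
  have h2 := (PS P hP).1 (tr1 h f)
  have h3 := slices (tr1_coe h f)
  have h4 : ∀ᵐ a : ℝ, ∀ᵐ ξ : ℝ, P (tr1 h f) (a, ξ) = P f ((a, ξ) + (h, (0 : ℝ))) := by
    filter_upwards [h1', h2, h3] with a ⟨H, k1, k2⟩ ⟨H', k3, k4⟩ k5
    have e : H = H' := by
      apply Lp.ext
      filter_upwards [k1, k3, k5] with b j1 j2 j3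
      rw [j1, j2, j3]
      congr 1
      ext <;> simp
    rw [← e] at k4
    filter_upwards [k2, k4] with ξ j1 j2
    rw [← j2, j1]
    congr 1
    ext <;> simp
  have hm : MeasurableSet {x : ℝ × ℝ | P (tr1 h f) x = P f (x + (h, (0 : ℝ)))} := by
    refine measurableSet_eq_fun (Lp.stronglyMeasurable _).measurable ?_
    exact (Lp.stronglyMeasurable _).measurable.comp (measurable_id.add_const _)
  exact ae_of_slices hm h4

theorem comm_tr1 (PS : SpecPSL) (P : L2 ≃ₗᵢ[ℂ] L2) (hP : IsPF P) (σ : ℝ → ℝ) (S : L2 →L[ℂ] L2)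
    (hS : IsMT P σ S) (h : ℝ) (f : L2) : S (tr1 h f) = tr1 h (S f) := by
  apply P.injective
  apply Lp.ext
  filter_upwards [hS (tr1 h f), P_tr1 PS P hP h f, P_tr1 PS P hP h (S f),
    add_ae (h, (0 : ℝ)) (hS f)] with x h1 h2 h3 h4
  rw [h1, h2, h3, h4]
  congr 4
  simp

/-! ### weak derivatives through difference quotients -/

theorem pr_symm (f g : L2) : pr f g = pr g f := by
  rw [pr_apply, pr_apply]
  congr 1
  ext x
  ring

theorem pr_trn (h : ℝ) (f g : L2) : pr g (trn h f) = pr f (trn (-h) g) := by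
  rw [pr_apply, pr_apply, trn_pair]
  refine integral_congr_ae ?_
  filter_upwards [trn_coe (-h) g] with x hx
  rw [hx]
  have : x - ((0 : ℝ), h) = x + ((0 : ℝ), -h) := by ext <;> simp [sub_eq_add_neg]
  rw [this]
  ring

theorem pr_dq (h : ℝ) (f g : L2) : pr g (dq h f) = - pr f (dq (-h) g) := by
  unfold dq
  rw [map_smul, map_smul, map_sub, map_sub, pr_trn, pr_symm g f, inv_neg]
  push_cast
  simp only [smul_eq_mul]
  ring

/-- the class of a function -/
def cls (φ : ℝ × ℝ → ℂ) (h : MemLp φ 2 volume) : L2 := h.toLp φ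

theorem weak2 (H1 : SpecTH1) (g G : L2) (hT : Tendsto (fun h : ℝ => dq h g) (𝓝[≠] 0) (𝓝 G))
    (ψ : ℝ × ℝ → ℂ) (hψ : Test ψ) : ∫ x, g x * d2 ψ x = - ∫ x, G x * ψ x := by
  set Ψ : L2 := (test_memLp hψ 2).toLp ψ with hΨ
  set D1 : L2 := (test_memLp (test_d1 hψ) 2).toLp (d1 ψ) with hD1
  set D2 : L2 := (test_memLp (test_d2 hψ) 2).toLp (d2 ψ) with hD2
  have c0 : ∀ᵐ x : ℝ × ℝ, Ψ x = ψ x := MemLp.coeFn_toLp _
  have c1 : ∀ᵐ x : ℝ × ℝ, D1 x = d1 ψ x := MemLp.coeFn_toLp _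
  have c2 : ∀ᵐ x : ℝ × ℝ, D2 x = d2 ψ x := MemLp.coeFn_toLp _
  have hH : IsH1 Ψ D1 D2 := H1 ψ (hψ.1.of_le (by simp)) hψ.2 Ψ D1 D2 c0 c1 c2
  have t1 : Tendsto (fun h : ℝ => dq h Ψ) (𝓝[≠] 0) (𝓝 D2) := dq_tendsto Ψ D1 D2 hH
  have t2 : Tendsto (fun h : ℝ => -h) (𝓝[≠] (0 : ℝ)) (𝓝[≠] (0 : ℝ)) := by
    refine tendsto_nhdsWithin_iff.mpr ⟨?_, ?_⟩
    · have : Tendsto (fun h : ℝ => -h) (𝓝 0) (𝓝 (-0)) := continuous_neg.tendsto 0
      rw [neg_zero] at this
      exact this.mono_left nhdsWithin_le_nhds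
    · filter_upwards [self_mem_nhdsWithin] with h hh
      simpa using hh
  have t3 : Tendsto (fun h : ℝ => pr g (dq (-h) Ψ)) (𝓝[≠] 0) (𝓝 (pr g D2)) :=
    ((pr g).continuous.tendsto D2).comp (t1.comp t2)
  have t4 : Tendsto (fun h : ℝ => pr Ψ (dq h g)) (𝓝[≠] 0) (𝓝 (pr Ψ G)) :=
    ((pr Ψ).continuous.tendsto G).comp hT
  have t5 : Tendsto (fun h : ℝ => pr Ψ (dq h g)) (𝓝[≠] 0) (𝓝 (- pr g D2)) := by
    exact t3.neg.congr fun h => (pr_dq h g Ψ).symm
  have e := tendsto_nhds_unique t4 t5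
  rw [pr_apply, pr_apply] at e
  have e1 : ∫ x, G x * Ψ x = ∫ x, G x * ψ x := integral_congr_ae (by
    filter_upwards [c0] with x hx; rw [hx])
  have e2 : ∫ x, D2 x * g x = ∫ x, g x * d2 ψ x := integral_congr_ae (by
    filter_upwards [c2] with x hx; rw [hx]; ring)
  rw [e1, e2] at e
  rw [e, neg_neg]

theorem swp_swp (f : L2) : swp (swp f) = f := by
  apply Lp.ext
  filter_upwards [swp_coe (swp f), swap_ae (swp_coe f)] with x h1 h2
  rw [h1, h2, Prod.swap_swap]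

theorem swp_add' (f g : L2) : swp (f + g) = swp f + swp g := map_add _ _ _

theorem swp_smul' (c : ℂ) (f : L2) : swp (c • f) = c • swp f := by
  apply Lp.ext
  have h1 : ∀ᵐ x : ℝ × ℝ, (c • f : L2) x.swap = (c • (f : ℝ × ℝ → ℂ)) x.swap :=
    swap_ae (Lp.coeFn_smul c f)
  filter_upwards [swp_coe (c • f), Lp.coeFn_smul c (swp f), swp_coe f, h1] with x h1 h2 h3 h4
  rw [h1, h2, h4, Pi.smul_apply, Pi.smul_apply, h3]

theorem swp_sub' (f g : L2) : swp (f - g) = swp f - swp g := by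
  have : f - g = f + (-1 : ℂ) • g := by rw [neg_one_smul, sub_eq_add_neg]
  rw [this, swp_add', swp_smul', neg_one_smul, sub_eq_add_neg]

theorem dq_swp_comm (PS : SpecPSL) (P : L2 ≃ₗᵢ[ℂ] L2) (hP : IsPF P) (σ : ℝ → ℝ)
    (S : L2 →L[ℂ] L2) (hS : IsMT P σ S) (h : ℝ) (f : L2) :
    dq h (swp (S f)) = swp (S (swp (dq h (swp f)))) := by
  unfold dq
  rw [swp_smul', map_smul, swp_smul', swp_sub', swp_swp, map_sub, swp_sub']
  congr 2
  have h1 := comm_tr1 PS P hP σ S hS h f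
  unfold tr1 at h1
  rw [h1, swp_swp]

theorem dq_comm (PD : SpecPD2) (P : L2 ≃ₗᵢ[ℂ] L2) (hP : IsPF P) (σ : ℝ → ℝ)
    (S : L2 →L[ℂ] L2) (hS : IsMT P σ S) (h : ℝ) (f : L2) :
    dq h (S f) = S (dq h f) := by
  unfold dq
  rw [map_smul, map_sub, comm_trn PD P hP σ S hS h f]

theorem pres (H1 : SpecTH1) (PS : SpecPSL) (PD : SpecPD2) (P : L2 ≃ₗᵢ[ℂ] L2) (hP : IsPF P)
    (σ : ℝ → ℝ) (S : L2 →L[ℂ] L2) (hS : IsMT P σ S) (f F₁ F₂ : L2) (hf : IsH1 f F₁ F₂) :
    IsH1 (S f) (S F₁) (S F₂) := by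
  have b2 : Tendsto (fun h : ℝ => dq h (S f)) (𝓝[≠] 0) (𝓝 (S F₂)) := by
    have := (S.continuous.tendsto F₂).comp (dq_tendsto f F₁ F₂ hf)
    refine this.congr fun h => ?_
    rw [Function.comp_apply, dq_comm PD P hP σ S hS]
  have b1 : Tendsto (fun h : ℝ => dq h (swp (S f))) (𝓝[≠] 0) (𝓝 (swp (S F₁))) := by
    have h1 := dq_tendsto (swp f) (swp F₂) (swp F₁) (swp_h1 f F₁ F₂ hf)
    have h2 : Tendsto (fun h : ℝ => swp (S (swp (dq h (swp f))))) (𝓝[≠] 0)
        (𝓝 (swp (S (swp (swp F₁))))) :=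
      ((swp_cont.comp (S.continuous.comp swp_cont)).tendsto (swp F₁)).comp h1
    rw [swp_swp] at h2
    refine h2.congr fun h => ?_
    rw [dq_swp_comm PS P hP σ S hS]
  intro ψ hψ
  refine ⟨?_, weak2 H1 (S f) (S F₂) b2 ψ hψ⟩
  have h3 := weak2 H1 (swp (S f)) (swp (S F₁)) b1 (fun x => ψ x.swap) (test_sw hψ)
  rw [d2_sw, swp_pair, swp_pair] at h3
  simpa only [Prod.swap_swap] using h3

/-! ### the transposed operator and `Lin` -/

theorem transp (PS : SpecPSL) (P : L2 ≃ₗᵢ[ℂ] L2) (hP : IsPF P) (σ : ℝ → ℝ) (S : L2 →L[ℂ] L2)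
    (hS : IsMT P σ S) (g φ : L2) :
    ∫ x, S g x * φ x = ∫ x, g x * (star (S (star φ)) : L2) x := by
  have h1 := selfadj PS P hP σ S hS (fun _ => 1) measurable_const 1 (fun _ => by simp) (star φ) g
  have e1 : ∫ x : ℝ × ℝ, (((1 : ℝ) : ℝ) : ℂ) * (conj ((star φ : L2) x) * S g x)
      = ∫ x, S g x * φ x := by
    refine integral_congr_ae ?_
    filter_upwards [Lp.coeFn_star φ] with x hx
    rw [hx]
    simp only [Pi.star_apply, RCLike.star_def, Complex.conj_conj, Complex.ofReal_one, one_mul]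
    ring
  have e2 : ∫ x : ℝ × ℝ, (((1 : ℝ) : ℝ) : ℂ) * (conj (S (star φ) x) * g x)
      = ∫ x, g x * (star (S (star φ)) : L2) x := by
    refine integral_congr_ae ?_
    filter_upwards [Lp.coeFn_star (S (star φ))] with x hx
    rw [hx]
    simp only [Pi.star_apply, RCLike.star_def, Complex.ofReal_one, one_mul]
    ring
  rw [← e1, ← e2]
  exact h1

theorem h1_star (LI : SpecLIN) (f F₁ F₂ : L2) (hf : IsH1 f F₁ F₂) :
    IsH1 (star f) (star F₁) (star F₂) := by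
  refine LI.2.2.2.2 f F₁ F₂ (star f) (star F₁) (star F₂) hf ?_ ?_ ?_
  · filter_upwards [Lp.coeFn_star f] with x hx
    rw [hx]; rfl
  · filter_upwards [Lp.coeFn_star F₁] with x hx
    rw [hx]; rfl
  · filter_upwards [Lp.coeFn_star F₂] with x hx
    rw [hx]; rfl

theorem lin (H1 : SpecTH1) (LI : SpecLIN) (EX : SpecEXT) (PS : SpecPSL) (PD : SpecPD2)
    (P : L2 ≃ₗᵢ[ℂ] L2) (hP : IsPF P)
    (σ : ℝ → ℝ) (S : L2 →L[ℂ] L2) (hS : IsMT P σ S) (T : ℝ) (v v₁ v₂ N : ℝ → L2)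
    (hL : Lin T v v₁ v₂ N) :
    Lin T (fun t => S (v t)) (fun t => S (v₁ t)) (fun t => S (v₂ t)) (fun t => S (N t)) := by
  refine ⟨fun t ht => pres H1 PS PD P hP σ S hS _ _ _ (hL.h1 t ht),
    S.continuous.comp_continuousOn hL.cv, S.continuous.comp_continuousOn hL.c1,
    S.continuous.comp_continuousOn hL.c2, S.continuous.comp_continuousOn hL.cN, ?_⟩
  intro ψ hψ s t hs hst ht
  set Ψ : L2 := (test_memLp hψ 2).toLp ψ with hΨ
  set D1 : L2 := (test_memLp (test_d1 hψ) 2).toLp (d1 ψ) with hD1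
  set D2 : L2 := (test_memLp (test_d2 hψ) 2).toLp (d2 ψ) with hD2
  have c0 : ∀ᵐ x : ℝ × ℝ, Ψ x = ψ x := MemLp.coeFn_toLp _
  have c1 : ∀ᵐ x : ℝ × ℝ, D1 x = d1 ψ x := MemLp.coeFn_toLp _
  have c2 : ∀ᵐ x : ℝ × ℝ, D2 x = d2 ψ x := MemLp.coeFn_toLp _
  have hH : IsH1 Ψ D1 D2 := H1 ψ (hψ.1.of_le (by simp)) hψ.2 Ψ D1 D2 c0 c1 c2
  have hH' : IsH1 (star (S (star Ψ))) (star (S (star D1))) (star (S (star D2))) :=
    h1_star LI _ _ _ (pres H1 PS PD P hP σ S hS _ _ _ (h1_star LI _ _ _ hH))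
  have key := (EX T v v₁ v₂ N hL _ _ _ hH' s t hs hst ht).1
  have a0 : ∀ f : L2, ∫ x, S f x * ψ x = ∫ x, f x * (star (S (star Ψ)) : L2) x := fun f => by
    rw [← transp PS P hP σ S hS f Ψ]
    refine integral_congr_ae ?_
    filter_upwards [c0] with x hx
    rw [hx]
  have a1 : ∀ f : L2, ∫ x, S f x * d1 ψ x = ∫ x, f x * (star (S (star D1)) : L2) x := fun f => by
    rw [← transp PS P hP σ S hS f D1]
    refine integral_congr_ae ?_
    filter_upwards [c1] with x hx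
    rw [hx]
  simp only [a0, a1]
  exact key

end MTCM

open MTCM in
theorem specMTC (hTH1 : SpecTH1) (hLIN : SpecLIN) (hEXT : SpecEXT) (hPSL : SpecPSL)
    (hPD2 : SpecPD2) : SpecMTC := by
  intro P hP σ C S _ _ hS
  refine ⟨fun β hβ ⟨B, hB⟩ f g => selfadj hPSL P hP σ S hS β hβ B hB f g,
    fun f F₁ F₂ hf => pres hTH1 hPSL hPD2 P hP σ S hS f F₁ F₂ hf,
    fun T v v₁ v₂ N hL => lin hTH1 hLIN hEXT hPSL hPD2 P hP σ S hS T v v₁ v₂ N hL⟩

end Pool.Agent.Lib.MP424d38.ES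
end
end
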