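import Pool.Agent.Lib.MP_424d38_an.ES.SpecG
import Pool.Agent.Lib.MP_424d38_an.ZER

section
/-!
# MX1: multipliers on `L²(ℝ)`
-/
set_option autoImplicit false

open MeasureTheory Filter Topology Set
open scoped ENNReal ContDiff ComplexConjugate FourierTransform

noncomputable section

namespace Pool.Agent.Lib.MP424d38.ES

open Pool.Agent.Lib.MP424d38.TY

namespace MX1M

theorem int_sq (h : L2R) : Integrable fun x : ℝ => ‖h x‖ ^ 2 :=
  (memLp_two_iff_integrable_sq_norm (Lp.aestronglyMeasurable h)).1 (Lp.memLp h)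

theorem inner_eq (h g : L2R) : (inner ℂ h g : ℂ) = ∫ x, conj (h x) * g x := by
  rw [L2.inner_def]
  refine integral_congr_ae (Eventually.of_forall fun x => ?_)
  simp only [RCLike.inner_apply]
  rw [mul_comm]

theorem norm_sq (h : L2R) : ‖h‖ ^ 2 = ∫ x, ‖h x‖ ^ 2 := by
  have h1 := inner_eq h h
  have h2 : ∫ x, conj (h x) * h x = ((∫ x, ‖h x‖ ^ 2 : ℝ) : ℂ) := by
    rw [← integral_complex_ofReal]
    refine integral_congr_ae (Eventually.of_forall fun x => ?_)
    change conj (h x) * h x = ((‖h x‖ ^ 2 : ℝ) : ℂ)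
    rw [Complex.conj_mul']
    push_cast
    rfl
  rw [inner_self_eq_norm_sq_to_K, h2] at h1
  have h3 : ((‖h‖ ^ 2 : ℝ) : ℂ) = ((∫ x, ‖h x‖ ^ 2 : ℝ) : ℂ) := by
    rw [← h1]
    push_cast
    rfl
  exact Complex.ofReal_injective h3

theorem meas_l {σ : ℝ → ℝ} (hσ : Measurable σ) : Measurable fun ξ : ℝ => σ (2 * Real.pi * ξ) :=
  hσ.comp (measurable_const_mul _)

theorem norm_mul_sq (s : ℝ) (z : ℂ) : ‖((s : ℝ) : ℂ) * z‖ ^ 2 = s ^ 2 * ‖z‖ ^ 2 := by
  rw [norm_mul, Complex.norm_real, mul_pow, Real.norm_eq_abs, sq_abs]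

theorem exists_mul (σ : ℝ → ℝ) (h : L2R) (hσ : Measurable σ)
    (hi : Integrable fun ξ => σ (2 * Real.pi * ξ) ^ 2 * ‖(𝓕 h : L2R) ξ‖ ^ 2) :
    ∃ g : L2R, IsM σ h g := by
  have hm : AEStronglyMeasurable
      (fun ξ : ℝ => ((σ (2 * Real.pi * ξ) : ℝ) : ℂ) * (𝓕 h : L2R) ξ) volume :=
    (Complex.measurable_ofReal.comp (meas_l hσ)).aestronglyMeasurable.mul
      (Lp.aestronglyMeasurable _)
  have hL : MemLp (fun ξ : ℝ => ((σ (2 * Real.pi * ξ) : ℝ) : ℂ) * (𝓕 h : L2R) ξ) 2 volume := by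
    rw [memLp_two_iff_integrable_sq_norm hm]
    refine hi.congr (Eventually.of_forall fun ξ => ?_)
    exact (norm_mul_sq _ _).symm
  refine ⟨𝓕⁻ (hL.toLp _), ?_⟩
  have e : (𝓕 (𝓕⁻ (hL.toLp _) : L2R) : L2R) = hL.toLp _ :=
    FourierTransform.fourier_fourierInv_eq _
  unfold IsM
  rw [e]
  exact hL.coeFn_toLp

theorem norm_of (σ : ℝ → ℝ) (h g : L2R) (hg : IsM σ h g) :
    ‖g‖ ^ 2 = sp (fun l => σ l ^ 2) h ∧
      (Integrable fun ξ => σ (2 * Real.pi * ξ) ^ 2 * ‖(𝓕 h : L2R) ξ‖ ^ 2) := by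
  have hc : (fun ξ : ℝ => ‖(𝓕 g : L2R) ξ‖ ^ 2) =ᵐ[volume]
      fun ξ => σ (2 * Real.pi * ξ) ^ 2 * ‖(𝓕 h : L2R) ξ‖ ^ 2 := by
    filter_upwards [hg] with ξ hξ
    rw [hξ, norm_mul_sq]
  refine ⟨?_, (int_sq _).congr hc⟩
  rw [← Lp.norm_fourier_eq g, norm_sq]
  exact integral_congr_ae hc

end MX1M

open MX1M in
theorem specMX1 : SpecMX1 := by
  refine ⟨exists_mul, fun σ h g _ hg => norm_of σ h g hg, ?_, ?_, ?_, ?_, ?_, ?_⟩
  · intro h
    refine ⟨?_, (norm_sq h).symm, int_sq _⟩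
    rw [← Lp.norm_fourier_eq h, norm_sq]
    simp [sp]
  · intro h g
    rw [← inner_eq, ← inner_eq, Lp.inner_fourier_eq]
  · intro σ τ h g k hg hk
    filter_upwards [hg, hk] with ξ h1 h2
    rw [h2, h1]
    push_cast
    ring
  · intro σ τ h g k hg hk
    have e : (𝓕 (g + k) : L2R) = (𝓕 g : L2R) + (𝓕 k : L2R) := FourierTransform.fourier_add g k
    unfold IsM
    rw [e]
    filter_upwards [hg, hk, Lp.coeFn_add (𝓕 g : L2R) (𝓕 k : L2R)] with ξ h1 h2 h3
    rw [h3, Pi.add_apply, h1, h2]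
    push_cast
    ring
  · intro σ h g g' hg hg'
    have e : (𝓕 g : L2R) = (𝓕 g' : L2R) := by
      apply Lp.ext
      filter_upwards [hg, hg'] with ξ h1 h2
      rw [h1, h2]
    exact (Lp.fourierTransformₗᵢ ℝ ℂ).injective e
  · intro h hE
    refine ((int_sq (𝓕 h : L2R)).add hE).mono' ?_ (Eventually.of_forall fun ξ => ?_)
    · exact ((measurable_const_mul (2 * Real.pi)).abs.aestronglyMeasurable).mul
        (int_sq (𝓕 h : L2R)).aestronglyMeasurable
    · rw [Real.norm_of_nonneg (by positivity)]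
      simp only [Pi.add_apply]
      have h0 : 0 ≤ ‖(𝓕 h : L2R) ξ‖ ^ 2 := by positivity
      have h1 : |2 * Real.pi * ξ| ≤ 1 + (2 * Real.pi * ξ) ^ 2 := by
        nlinarith [sq_abs (2 * Real.pi * ξ), sq_nonneg (|2 * Real.pi * ξ| - 1)]
      nlinarith

end Pool.Agent.Lib.MP424d38.ES
end
end

section
/-!
# CHF: facts on the cutoff
-/
set_option autoImplicit false

open MeasureTheory Filter Topology Set
open scoped ENNReal ContDiff ComplexConjugate FourierTransform

noncomputable section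

namespace Pool.Agent.Lib.MP424d38.ES

namespace CHFM

theorem ch_nonneg (N l : ℝ) : 0 ≤ ch N l := le_min zero_le_one (le_max_left _ _)

theorem ch_le_one (N l : ℝ) : ch N l ≤ 1 := min_le_left _ _

theorem ch_low {N l : ℝ} (hN : 0 < N) (hl : |l| ≤ N) : ch N l = 0 := by
  have h1 : |l| / N - 1 ≤ 0 := by
    have : |l| / N ≤ 1 := (div_le_one hN).2 hl
    linarith
  unfold ch
  rw [max_eq_left h1]
  exact min_eq_right zero_le_one

theorem ch_high {N l : ℝ} (hN : 0 < N) (hl : 2 * N ≤ |l|) : ch N l = 1 := by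
  have h1 : 1 ≤ |l| / N - 1 := by
    have : 2 ≤ |l| / N := (le_div_iff₀ hN).2 hl
    linarith
  unfold ch
  exact min_eq_left (h1.trans (le_max_right _ _))

theorem ch_lip {N : ℝ} (hN : 0 < N) (l l' : ℝ) : |ch N l - ch N l'| ≤ |l - l'| / N := by
  unfold ch
  refine (abs_min_sub_min_le_max _ _ _ _).trans (max_le ?_ ?_)
  · rw [sub_self, abs_zero]
    positivity
  · rw [max_comm 0, max_comm 0]
    refine (abs_max_sub_max_le_abs _ _ _).trans ?_
    have h1 : |l| / N - 1 - (|l'| / N - 1) = (|l| - |l'|) / N := by ring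
    rw [h1, abs_div, abs_of_pos hN]
    exact div_le_div_of_nonneg_right (abs_abs_sub_abs_le l l') hN.le

theorem ch_sq_lip {N : ℝ} (hN : 0 < N) (l l' : ℝ) :
    |ch N l ^ 2 - ch N l' ^ 2| ≤ 2 / N * |l - l'| := by
  have h1 : ch N l ^ 2 - ch N l' ^ 2 = (ch N l + ch N l') * (ch N l - ch N l') := by ring
  have h2 := ch_nonneg N l
  have h3 := ch_nonneg N l'
  have h4 := ch_le_one N l
  have h5 := ch_le_one N l'
  rw [h1, abs_mul, abs_of_nonneg (by linarith : 0 ≤ ch N l + ch N l')]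
  calc (ch N l + ch N l') * |ch N l - ch N l'| ≤ 2 * (|l - l'| / N) := by
        refine mul_le_mul (by linarith) (ch_lip hN l l') (abs_nonneg _) (by norm_num)
    _ = 2 / N * |l - l'| := by ring

theorem aux {N : ℝ} (hN : 0 < N) (l l' : ℝ) (h : |l'| ≤ |l|) :
    |l * ch N l ^ 2 - l' * ch N l' ^ 2| ≤ 5 * |l - l'| := by
  have h0 := abs_nonneg (l - l')
  rcases le_or_gt (2 * N) |l'| with h1 | h1
  · rw [ch_high hN h1, ch_high hN (h1.trans h)]
    have : l * 1 ^ 2 - l' * 1 ^ 2 = l - l' := by ring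
    rw [this]
    linarith
  · have h2 : l * ch N l ^ 2 - l' * ch N l' ^ 2
        = (l - l') * ch N l ^ 2 + l' * (ch N l ^ 2 - ch N l' ^ 2) := by ring
    rw [h2]
    refine (abs_add_le _ _).trans ?_
    rw [abs_mul, abs_mul]
    have h3 : |ch N l ^ 2| ≤ 1 := by
      rw [abs_of_nonneg (by positivity)]
      exact pow_le_one₀ (ch_nonneg N l) (ch_le_one N l)
    have h4 : |l'| * |ch N l ^ 2 - ch N l' ^ 2| ≤ 4 * |l - l'| := by
      calc |l'| * |ch N l ^ 2 - ch N l' ^ 2| ≤ (2 * N) * (2 / N * |l - l'|) :=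
            mul_le_mul h1.le (ch_sq_lip hN l l') (abs_nonneg _) (by positivity)
        _ = 4 * |l - l'| := by
            field_simp
            ring
    have h5 : |l - l'| * |ch N l ^ 2| ≤ |l - l'| * 1 := by gcongr
    linarith

end CHFM

/-- **CHF.** -/
theorem specCHF : SpecCHF := by
  intro N hN
  refine ⟨fun l => ⟨CHFM.ch_nonneg N l, CHFM.ch_le_one N l⟩, fun l hl => CHFM.ch_low hN hl,
    fun l hl => CHFM.ch_high hN hl, ?_, ?_, CHFM.ch_lip hN, CHFM.ch_sq_lip hN, ?_, ?_⟩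
  · unfold ch
    fun_prop
  · intro l
    unfold ch
    rw [abs_neg]
  · intro l l'
    rcases le_total |l'| |l| with h | h
    · exact CHFM.aux hN l l' h
    · have := CHFM.aux hN l' l h
      rw [abs_sub_comm, abs_sub_comm l l']
      exact this
  · intro l
    rcases le_or_gt |l| N with h | h
    · rw [CHFM.ch_low hN h]
      have : 0 ≤ |l| / N := by positivity
      simpa using this
    · have h1 : 1 ≤ |l| / N := (one_le_div hN).2 h.le
      exact (pow_le_one₀ (CHFM.ch_nonneg N l) (CHFM.ch_le_one N l)).trans h1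

end Pool.Agent.Lib.MP424d38.ES
end
end

section
/-!
# Block ES, module CJ1: conjugation and the Fourier transform on `L²(ℝ)`
-/
set_option autoImplicit false

open MeasureTheory Filter Topology Set
open scoped ENNReal ContDiff ComplexConjugate FourierTransform SchwartzMap

noncomputable section

namespace Pool.Agent.Lib.MP424d38.ES

namespace CJ1M

/-- conjugation on `L²(ℝ)` -/
def cj : L2R →L[ℝ] L2R :=
  ContinuousLinearMap.compLpL 2 volume (Complex.conjCLE : ℂ →L[ℝ] ℂ)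

theorem cj_ae (h : L2R) : ∀ᵐ b : ℝ, cj h b = conj (h b) :=
  ContinuousLinearMap.coeFn_compLp (Complex.conjCLE : ℂ →L[ℝ] ℂ) h

theorem mp : MeasurePreserving (fun x : ℝ => -x) volume volume :=
  Measure.measurePreserving_neg volume

/-- reflection on `L²(ℝ)` -/
def rf (h : L2R) : L2R := Lp.compMeasurePreserving (fun x : ℝ => -x) mp h

theorem rf_ae (h : L2R) : ∀ᵐ b : ℝ, rf h b = h (-b) :=
  Lp.coeFn_compMeasurePreserving h mp

theorem rf_cont : Continuous rf := (Lp.isometry_compMeasurePreserving mp).continuous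

/-- conjugation of Schwartz functions -/
def cs (f : 𝓢(ℝ, ℂ)) : 𝓢(ℝ, ℂ) := SchwartzMap.postcompCLM (𝕜 := ℝ) (Complex.conjCLE : ℂ →L[ℝ] ℂ) f

theorem cs_apply (f : 𝓢(ℝ, ℂ)) (x : ℝ) : cs f x = conj (f x) := rfl

theorem four_cs (f : 𝓢(ℝ, ℂ)) (ξ : ℝ) : (𝓕 (cs f) : 𝓢(ℝ, ℂ)) ξ = conj ((𝓕 f : 𝓢(ℝ, ℂ)) (-ξ)) := by
  rw [SchwartzMap.fourier_coe, SchwartzMap.fourier_coe, Real.fourier_real_eq, Real.fourier_real_eq,
    ← integral_conj]
  congr 1
  funext v
  simp only [cs_apply, Circle.smul_def, smul_eq_mul, map_mul, Real.fourierChar_apply]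
  congr 1
  rw [← Complex.exp_conj]
  congr 1
  simp only [map_mul, Complex.conj_ofReal, Complex.conj_I]
  push_cast
  ring

theorem main (h : L2R) : (𝓕 (cj h) : L2R) = cj (rf (𝓕 h : L2R)) := by
  set p := fun f : L2R => (𝓕 (cj f) : L2R) = cj (rf (𝓕 f : L2R)) with hp
  apply DenseRange.induction_on (p := p)
    (SchwartzMap.denseRange_toLpCLM (p := 2) ENNReal.ofNat_ne_top) h
  · apply isClosed_eq
    · exact (Lp.fourierTransformₗᵢ ℝ ℂ).continuous.comp cj.continuous
    · exact cj.continuous.comp (rf_cont.comp (Lp.fourierTransformₗᵢ ℝ ℂ).continuous)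
  intro f
  have e1 : cj (f.toLp 2 volume) = (cs f).toLp 2 volume := by
    apply Lp.ext
    filter_upwards [cj_ae (f.toLp 2 volume), SchwartzMap.coeFn_toLp f 2 volume,
      SchwartzMap.coeFn_toLp (cs f) 2 volume] with b h1 h2 h3
    rw [h1, h2, h3, cs_apply]
  show (𝓕 (cj (f.toLp 2 volume)) : L2R) = cj (rf (𝓕 (f.toLp 2 volume) : L2R))
  rw [e1, SchwartzMap.toLp_fourier_eq, SchwartzMap.toLp_fourier_eq]
  apply Lp.ext
  have hq := mp.quasiMeasurePreserving.ae (SchwartzMap.coeFn_toLp (𝓕 f : 𝓢(ℝ, ℂ)) 2 volume)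
  filter_upwards [cj_ae (rf ((𝓕 f : 𝓢(ℝ, ℂ)).toLp 2 volume)), rf_ae ((𝓕 f : 𝓢(ℝ, ℂ)).toLp 2 volume),
    SchwartzMap.coeFn_toLp (𝓕 (cs f) : 𝓢(ℝ, ℂ)) 2 volume, hq] with b h1 h2 h3 h4
  rw [h1, h2, h3, h4, four_cs]

end CJ1M

open CJ1M in
theorem specCJ1 : SpecCJ1 := by
  intro h
  have h2 : ∀ᵐ ξ : ℝ, (𝓕 (cj h) : L2R) ξ = conj ((𝓕 h : L2R) (-ξ)) := by
    rw [main h]
    filter_upwards [cj_ae (rf (𝓕 h : L2R)), rf_ae (𝓕 h : L2R)] with b h1 h2
    rw [h1, h2]
  refine ⟨cj h, cj_ae h, h2, ?_⟩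
  intro A hA
  have hq := mp.quasiMeasurePreserving.ae hA
  filter_upwards [h2, hq] with ξ e1 e2 hlt
  rw [e1, e2 (by simpa using hlt), map_zero]

end Pool.Agent.Lib.MP424d38.ES
end
end

section
/-!
# IB4: basic bounds for `I4`
-/
set_option autoImplicit false

open MeasureTheory Filter Topology Set
open scoped ENNReal ContDiff ComplexConjugate FourierTransform

noncomputable section

namespace Pool.Agent.Lib.MP424d38.ES

open Pool.Agent.Lib.MP424d38.TY

namespace IB4M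

/-- Cauchy-Schwarz with a majorant. -/
theorem gen (u : L2R) (w : ℝ → ℝ) (hw : AEStronglyMeasurable w volume) (hw0 : ∀ b, 0 ≤ w b)
    (hi : Integrable fun b => w b ^ 2) (F : ℝ → ℂ) (hF : AEStronglyMeasurable F volume)
    (M : ℝ) (hM : 0 ≤ M) (hle : ∀ᵐ b : ℝ, ‖F b‖ ≤ M * (‖u b‖ * w b)) :
    Integrable F ∧ ‖∫ b, F b‖ ≤ ‖u‖ * M * Real.sqrt (∫ b, w b ^ 2) := by
  have hwL : MemLp w 2 volume := (memLp_two_iff_integrable_sq hw).2 hi
  have huL : MemLp (fun b => ‖u b‖) 2 volume := (Lp.memLp u).norm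
  have hint : Integrable (fun b => ‖u b‖ * w b) := huL.integrable_mul hwL
  have hmaj : Integrable (fun b => M * (‖u b‖ * w b)) := hint.const_mul M
  have hcs : ∫ b, ‖u b‖ * w b ≤ ‖u‖ * Real.sqrt (∫ b, w b ^ 2) := by
    have h1 := integral_mul_le_Lp_mul_Lq_of_nonneg (μ := (volume : Measure ℝ))
      (p := 2) (q := 2) ⟨by norm_num, by norm_num, by norm_num⟩
      (f := fun b => ‖u b‖) (g := w) (Eventually.of_forall fun b => norm_nonneg _)
      (Eventually.of_forall hw0) (by simpa using huL) (by simpa using hwL)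
    refine h1.trans (le_of_eq ?_)
    have e1 : (∫ b, ‖u b‖ ^ (2 : ℝ)) = ‖u‖ ^ 2 := by
      rw [MX1M.norm_sq u]
      simp
    have e2 : (∫ b, w b ^ (2 : ℝ)) = ∫ b, w b ^ 2 := by simp
    rw [e1, e2, ← Real.sqrt_eq_rpow, ← Real.sqrt_eq_rpow, Real.sqrt_sq (norm_nonneg _)]
  refine ⟨hmaj.mono' hF hle, ?_⟩
  calc ‖∫ b, F b‖ ≤ ∫ b, ‖F b‖ := norm_integral_le_integral_norm _
    _ ≤ ∫ b, M * (‖u b‖ * w b) :=
        integral_mono_ae (hmaj.mono' hF hle).norm hmaj hle
    _ = M * ∫ b, ‖u b‖ * w b := by rw [integral_const_mul]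
    _ ≤ M * (‖u‖ * Real.sqrt (∫ b, w b ^ 2)) := mul_le_mul_of_nonneg_left hcs hM
    _ = ‖u‖ * M * Real.sqrt (∫ b, w b ^ 2) := by ring

theorem sqrt_norm (v : L2R) : Real.sqrt (∫ b, ‖v b‖ ^ 2) = ‖v‖ := by
  rw [← MX1M.norm_sq v, Real.sqrt_sq (norm_nonneg _)]

theorem meas4 (g x y z : L2R) :
    AEStronglyMeasurable (fun b => conj (g b) * (x b * conj (y b) * z b)) volume := by
  have hg := Lp.aestronglyMeasurable g
  have hx := Lp.aestronglyMeasurable x
  have hy := Lp.aestronglyMeasurable y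
  have hz := Lp.aestronglyMeasurable z
  exact (Complex.continuous_conj.comp_aestronglyMeasurable hg).mul
    ((hx.mul (Complex.continuous_conj.comp_aestronglyMeasurable hy)).mul hz)

theorem norm4 (g x y z : L2R) (b : ℝ) :
    ‖conj (g b) * (x b * conj (y b) * z b)‖ = ‖g b‖ * (‖x b‖ * ‖y b‖ * ‖z b‖) := by
  rw [norm_mul, norm_mul, norm_mul, RCLike.norm_conj, RCLike.norm_conj]

end IB4M

open IB4M in
theorem specIB4 : SpecIB4 := by
  refine ⟨?_, ?_⟩
  · intro g x y z X Y hX hY hx hy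
    have hwz : AEStronglyMeasurable (fun b => ‖z b‖) volume := (Lp.aestronglyMeasurable z).norm
    have hiz : Integrable fun b => ‖z b‖ ^ 2 := MX1M.int_sq z
    have hXY : 0 ≤ X * Y := mul_nonneg hX hY
    have key : ∀ᵐ b : ℝ, ‖g b‖ * (‖x b‖ * ‖y b‖ * ‖z b‖) ≤ X * Y * (‖g b‖ * ‖z b‖) := by
      filter_upwards [hx, hy] with b h1 h2
      have h3 : ‖x b‖ * ‖y b‖ ≤ X * Y := mul_le_mul h1 h2 (norm_nonneg _) hX
      have h4 : 0 ≤ ‖g b‖ * ‖z b‖ := mul_nonneg (norm_nonneg _) (norm_nonneg _)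
      nlinarith [mul_le_mul_of_nonneg_right h3 h4]
    have A := gen g (fun b => ‖z b‖) hwz (fun b => norm_nonneg _) hiz _ (meas4 g x y z) (X * Y) hXY
      (by
        filter_upwards [key] with b hb
        rw [norm4]
        exact hb)
    have B := gen g (fun b => ‖z b‖) hwz (fun b => norm_nonneg _) hiz _ (meas4 g x z y) (X * Y) hXY
      (by
        filter_upwards [key] with b hb
        rw [norm4]
        refine (le_of_eq ?_).trans hb
        ring)
    have C := gen g (fun b => ‖z b‖) hwz (fun b => norm_nonneg _) hiz _ (meas4 g z x y) (X * Y) hXY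
      (by
        filter_upwards [key] with b hb
        rw [norm4]
        refine (le_of_eq ?_).trans hb
        ring)
    rw [sqrt_norm] at A B C
    refine ⟨?_, ?_, ?_, A.1, B.1, C.1⟩
    · refine (show ‖I4 g x y z‖ ≤ _ from A.2).trans (le_of_eq (by ring))
    · refine (show ‖I4 g x z y‖ ≤ _ from B.2).trans (le_of_eq (by ring))
    · refine (show ‖I4 g z x y‖ ≤ _ from C.2).trans (le_of_eq (by ring))
  · intro g x z X hX hx hz4
    have hwz : AEStronglyMeasurable (fun b => ‖z b‖ ^ 2) volume :=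
      ((Lp.aestronglyMeasurable z).norm).pow 2
    have e4 : ∀ b : ℝ, (‖z b‖ ^ 2) ^ 2 = ‖z b‖ ^ 4 := fun b => by ring
    have hiz : Integrable fun b => (‖z b‖ ^ 2) ^ 2 := by simpa only [e4] using hz4
    have key : ∀ᵐ b : ℝ, ‖g b‖ * (‖x b‖ * ‖z b‖ * ‖z b‖) ≤ X * (‖g b‖ * ‖z b‖ ^ 2) := by
      filter_upwards [hx] with b h1
      have h4 : 0 ≤ ‖g b‖ * ‖z b‖ ^ 2 := by positivity
      nlinarith [mul_le_mul_of_nonneg_right h1 h4]
    have A := gen g (fun b => ‖z b‖ ^ 2) hwz (fun b => by positivity) hiz _ (meas4 g x z z) X hX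
      (by
        filter_upwards [key] with b hb
        rw [norm4]
        exact hb)
    have B := gen g (fun b => ‖z b‖ ^ 2) hwz (fun b => by positivity) hiz _ (meas4 g z x z) X hX
      (by
        filter_upwards [key] with b hb
        rw [norm4]
        refine (le_of_eq ?_).trans hb
        ring)
    have C := gen g (fun b => ‖z b‖ ^ 2) hwz (fun b => by positivity) hiz _ (meas4 g z z x) X hX
      (by
        filter_upwards [key] with b hb
        rw [norm4]
        refine (le_of_eq ?_).trans hb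
        ring)
    simp only [e4] at A B C
    exact ⟨A.2, B.2, C.2⟩

end Pool.Agent.Lib.MP424d38.ES
end
end

section
/-!
# KEY: the key inequality, one dimensional form
-/
set_option autoImplicit false

open MeasureTheory Filter Topology Set
open scoped ENNReal ContDiff ComplexConjugate FourierTransform

noncomputable section

namespace Pool.Agent.Lib.MP424d38.ES

namespace KEYM

/-- the function `|h|² h`. -/
def cub (h : L2R) (b : ℝ) : ℂ := ((‖h b‖ ^ 2 : ℝ) : ℂ) * h b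

theorem norm_cub (h : L2R) (b : ℝ) : ‖cub h b‖ ^ 2 = ‖h b‖ ^ 6 := by
  unfold cub
  rw [norm_mul, Complex.norm_real, Real.norm_eq_abs, abs_of_nonneg (sq_nonneg _)]
  ring

theorem cub_meas (h : L2R) : AEStronglyMeasurable (cub h) volume := by
  have h1 := Lp.aestronglyMeasurable h
  have h2 : AEStronglyMeasurable (fun b => ((‖h b‖ ^ 2 : ℝ) : ℂ)) volume :=
    Complex.continuous_ofReal.comp_aestronglyMeasurable (h1.norm.pow 2)
  exact h2.mul h1

theorem cub_mem (h : L2R) (hi : Integrable fun b => ‖h b‖ ^ 6) : MemLp (cub h) 2 volume := by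
  rw [memLp_two_iff_integrable_sq_norm (cub_meas h)]
  refine hi.congr (Eventually.of_forall fun b => ?_)
  exact (norm_cub h b).symm

/-- `IsM` for a real constant. -/
theorem isM_const (c : ℝ) (h : L2R) : IsM (fun _ => c) h ((c : ℂ) • h) := by
  unfold IsM
  have h1 : (𝓕 ((c : ℂ) • h) : L2R) = (c : ℂ) • (𝓕 h : L2R) :=
    (Lp.fourierTransformₗᵢ ℝ ℂ).map_smul (c : ℂ) h
  rw [h1]
  filter_upwards [Lp.coeFn_smul (c : ℂ) (𝓕 h : L2R)] with ξ hξ
  rw [hξ]
  simp

/-- Cauchy-Schwarz. -/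
theorem cs (g : L2R) (k : ℝ → ℂ) (hk : MemLp k 2 volume) :
    Integrable (fun b => conj (g b) * k b) ∧
      ‖∫ b, conj (g b) * k b‖ ≤ ‖g‖ * Real.sqrt (∫ b, ‖k b‖ ^ 2) := by
  have e : ∀ᵐ b : ℝ, (hk.toLp k) b = k b := hk.coeFn_toLp
  have h1 : Integrable fun b => inner ℂ (g b) ((hk.toLp k) b) := L2.integrable_inner g _
  have h2 : (fun b => inner ℂ (g b) ((hk.toLp k) b)) =ᵐ[volume] fun b => conj (g b) * k b := by
    filter_upwards [e] with b hb
    rw [hb, RCLike.inner_apply, mul_comm]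
  refine ⟨h1.congr h2, ?_⟩
  have h3 : (∫ b, conj (g b) * k b) = inner ℂ g (hk.toLp k) := by
    rw [L2.inner_def]
    exact (integral_congr_ae h2).symm
  rw [h3]
  refine (norm_inner_le_norm _ _).trans ?_
  have h4 : ‖hk.toLp k‖ = Real.sqrt (∫ b, ‖k b‖ ^ 2) := by
    have h5 : ‖hk.toLp k‖ ^ 2 = ∫ b, ‖k b‖ ^ 2 := by
      have h6 : (inner ℂ (hk.toLp k) (hk.toLp k) : ℂ) = ((‖hk.toLp k‖ ^ 2 : ℝ) : ℂ) := by
        rw [inner_self_eq_norm_sq_to_K]
        norm_cast
      have h7 : (inner ℂ (hk.toLp k) (hk.toLp k) : ℂ) = ((∫ b, ‖k b‖ ^ 2 : ℝ) : ℂ) := by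
        rw [L2.inner_def, ← integral_complex_ofReal]
        refine integral_congr_ae ?_
        filter_upwards [e] with b hb
        rw [hb, inner_self_eq_norm_sq_to_K]
        norm_cast
      have := h6.symm.trans h7
      exact_mod_cast this
    rw [← h5, Real.sqrt_sq (norm_nonneg _)]
  rw [h4]

end KEYM

open KEYM in
/-- **KEY** (from SB1, MX1). -/
theorem specKEY (hSB1 : SpecSB1) (hMX1 : SpecMX1) : SpecKEY := by
  obtain ⟨-, M2, M3, -, -, M6, -, M8⟩ := hMX1
  intro σ lam h g hlam hσ hE hM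
  obtain ⟨gm0, -, i6, b6, -, -, -⟩ := hSB1 h hE
  have hcub := cub_mem h i6
  have hσc : Continuous σ := by
    have : LipschitzWith (Real.toNNReal lam) σ := by
      refine LipschitzWith.of_dist_le_mul fun x y => ?_
      rw [Real.dist_eq, Real.dist_eq, Real.coe_toNNReal _ hlam]
      exact hσ x y
    exact this.continuous
  have hρ0 : 0 ≤ sp (fun _ => 1) h := by
    unfold sp
    refine integral_nonneg fun ξ => ?_
    positivity
  rcases hρ0.eq_or_lt with hρ | hρ
  · -- `h = 0`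
    have hn : ‖h‖ ^ 2 = 0 := by rw [(M3 h).1, ← hρ]
    have h0 : h = 0 := by
      rw [← norm_eq_zero]
      exact pow_eq_zero_iff (two_ne_zero) |>.1 hn
    have hz : ∀ᵐ b : ℝ, h b = 0 := by
      rw [h0]
      exact Lp.coeFn_zero _ _ _
    have : (∫ b, conj (g b) * (((‖h b‖ ^ 2 : ℝ) : ℂ) * h b)) = 0 := by
      rw [← integral_zero ℝ ℂ (μ := (volume : Measure ℝ))]
      refine integral_congr_ae ?_
      filter_upwards [hz] with b hb
      rw [hb]
      simp
    rw [this, Complex.zero_im, abs_zero]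
    have := Real.pi_pos
    positivity
  · set ρ := sp (fun _ => 1) h with hρd
    set e := sp (fun l => l ^ 2) h with hed
    set p := sp (fun l => l) h with hpd
    have hgm : gm h = ρ * e - p ^ 2 := rfl
    set c : ℝ := p / ρ with hc
    set g' : L2R := g + ((-(σ c) : ℝ) : ℂ) • h with hg'
    have hM' : IsM (fun l => σ l + -(σ c)) h g' := M6 σ (fun _ => -(σ c)) h g _ hM (isM_const _ h)
    obtain ⟨n1, -⟩ := M2 (fun l => σ l + -(σ c)) h g' (by fun_prop) hM'
    -- the norm of `g'`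
    have iw : Integrable fun ξ => ‖(𝓕 h : L2R) ξ‖ ^ 2 := (M3 h).2.2
    have i2 : Integrable fun ξ => (2 * Real.pi * ξ) ^ 2 * ‖(𝓕 h : L2R) ξ‖ ^ 2 := hE
    have i1 : Integrable fun ξ => (2 * Real.pi * ξ) * ‖(𝓕 h : L2R) ξ‖ ^ 2 := by
      refine (M8 h hE).mono' ?_ (Eventually.of_forall fun ξ => ?_)
      · exact ((measurable_const.mul measurable_id).aestronglyMeasurable).mul
          iw.aestronglyMeasurable
      · rw [norm_mul, Real.norm_eq_abs, Real.norm_eq_abs,
          abs_of_nonneg (sq_nonneg ‖(𝓕 h : L2R) ξ‖)]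
    have i21 : Integrable fun ξ => (2 * Real.pi * ξ) ^ 2 *
          ‖(𝓕 h : L2R) ξ‖ ^ 2 - (2 * c) * ((2 * Real.pi * ξ) * ‖(𝓕 h : L2R) ξ‖ ^ 2) :=
      i2.sub (i1.const_mul _)
    have n2 : ‖g'‖ ^ 2 ≤ lam ^ 2 * (gm h / ρ) := by
      rw [n1]
      have hval : lam ^ 2 * (gm h / ρ) = ∫ ξ, lam ^ 2 * (((2 * Real.pi * ξ) ^ 2 *
          ‖(𝓕 h : L2R) ξ‖ ^ 2 - (2 * c) * ((2 * Real.pi * ξ) * ‖(𝓕 h : L2R) ξ‖ ^ 2)) +
          c ^ 2 * ‖(𝓕 h : L2R) ξ‖ ^ 2) := by
        rw [integral_const_mul, integral_add i21 (iw.const_mul _),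
          integral_sub i2 (i1.const_mul _), integral_const_mul, integral_const_mul]
        have e1 : (∫ ξ, ‖(𝓕 h : L2R) ξ‖ ^ 2) = ρ := by
          rw [hρd]
          unfold sp
          simp only [one_mul]
        have e2 : (∫ ξ, (2 * Real.pi * ξ) ^ 2 * ‖(𝓕 h : L2R) ξ‖ ^ 2) = e := rfl
        have e3 : (∫ ξ, (2 * Real.pi * ξ) * ‖(𝓕 h : L2R) ξ‖ ^ 2) = p := rfl
        rw [e1, e2, e3, hgm, hc]
        field_simp
        ring
      rw [hval]
      unfold sp
      have hint : Integrable fun ξ => lam ^ 2 * (((2 * Real.pi * ξ) ^ 2 *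
          ‖(𝓕 h : L2R) ξ‖ ^ 2 - (2 * c) * ((2 * Real.pi * ξ) * ‖(𝓕 h : L2R) ξ‖ ^ 2)) +
          c ^ 2 * ‖(𝓕 h : L2R) ξ‖ ^ 2) :=
        (i21.add (iw.const_mul _)).const_mul _
      have hpt : ∀ ξ : ℝ, (σ (2 * Real.pi * ξ) + -(σ c)) ^ 2 * ‖(𝓕 h : L2R) ξ‖ ^ 2 ≤
          lam ^ 2 * (((2 * Real.pi * ξ) ^ 2 *
          ‖(𝓕 h : L2R) ξ‖ ^ 2 - (2 * c) * ((2 * Real.pi * ξ) * ‖(𝓕 h : L2R) ξ‖ ^ 2)) +
          c ^ 2 * ‖(𝓕 h : L2R) ξ‖ ^ 2) := by
        intro ξ
        have h1 : (σ (2 * Real.pi * ξ) + -(σ c)) ^ 2 ≤ lam ^ 2 * (2 * Real.pi * ξ - c) ^ 2 := by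
          have h2 := hσ (2 * Real.pi * ξ) c
          calc (σ (2 * Real.pi * ξ) + -(σ c)) ^ 2 = |σ (2 * Real.pi * ξ) - σ c| ^ 2 := by
                rw [sq_abs]; ring
            _ ≤ (lam * |2 * Real.pi * ξ - c|) ^ 2 := by gcongr
            _ = lam ^ 2 * (2 * Real.pi * ξ - c) ^ 2 := by rw [mul_pow, sq_abs]
        calc (σ (2 * Real.pi * ξ) + -(σ c)) ^ 2 * ‖(𝓕 h : L2R) ξ‖ ^ 2
            ≤ (lam ^ 2 * (2 * Real.pi * ξ - c) ^ 2) * ‖(𝓕 h : L2R) ξ‖ ^ 2 :=
              mul_le_mul_of_nonneg_right h1 (sq_nonneg _)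
          _ = _ := by ring
      refine integral_mono (hint.mono' ?_ (Eventually.of_forall fun ξ => ?_)) hint hpt
      · refine Measurable.aestronglyMeasurable ?_ |>.mul iw.aestronglyMeasurable
        exact ((hσc.comp (continuous_const.mul continuous_id)).add continuous_const).pow 2
          |>.measurable
      · rw [Real.norm_eq_abs, abs_of_nonneg (mul_nonneg (sq_nonneg _) (sq_nonneg _))]
        exact hpt ξ
    -- the integrals
    obtain ⟨ia, ba⟩ := cs g' (cub h) hcub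
    obtain ⟨ib, -⟩ := cs h (cub h) hcub
    have hsplit : (∫ b, conj (g b) * (((‖h b‖ ^ 2 : ℝ) : ℂ) * h b))
        = (∫ b, conj (g' b) * cub h b) + ((σ c : ℝ) : ℂ) * ∫ b, conj (h b) * cub h b := by
      rw [← integral_const_mul, ← integral_add ia (ib.const_mul _)]
      refine integral_congr_ae ?_
      filter_upwards [Lp.coeFn_add g (((-(σ c) : ℝ) : ℂ) • h),
        Lp.coeFn_smul (((-(σ c) : ℝ) : ℂ)) h] with b h1 h2
      have h3 : g' b = g b + ((-(σ c) : ℝ) : ℂ) * h b := by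
        rw [hg', h1, Pi.add_apply, h2, Pi.smul_apply, smul_eq_mul]
      rw [h3]
      unfold cub
      simp only [map_add, map_mul, Complex.ofReal_neg, map_neg, Complex.conj_ofReal]
      ring
    have hreal : (((σ c : ℝ) : ℂ) * ∫ b, conj (h b) * cub h b).im = 0 := by
      have h1 : (∫ b, conj (h b) * cub h b) = ((∫ b, ‖h b‖ ^ 4 : ℝ) : ℂ) := by
        rw [← integral_complex_ofReal]
        refine integral_congr_ae (Eventually.of_forall fun b => ?_)
        unfold cub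
        simp only
        have h2 : conj (h b) * h b = ((‖h b‖ ^ 2 : ℝ) : ℂ) := by
          rw [mul_comm, Complex.mul_conj, Complex.normSq_eq_norm_sq]
        calc conj (h b) * (((‖h b‖ ^ 2 : ℝ) : ℂ) * h b)
            = ((‖h b‖ ^ 2 : ℝ) : ℂ) * (conj (h b) * h b) := by ring
          _ = _ := by
            rw [h2]
            push_cast
            ring
      rw [h1, ← Complex.ofReal_mul, Complex.ofReal_im]
    rw [hsplit, Complex.add_im, hreal, add_zero]
    refine (Complex.abs_im_le_norm _).trans (ba.trans ?_)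
    have e6 : (∫ b, ‖cub h b‖ ^ 2) = ∫ b, ‖h b‖ ^ 6 := by
      refine integral_congr_ae (Eventually.of_forall fun b => ?_)
      exact norm_cub h b
    rw [e6]
    have hpi := Real.pi_pos
    have s1 : ‖g'‖ ≤ Real.sqrt (lam ^ 2 * (gm h / ρ)) := Real.le_sqrt_of_sq_le n2
    have s2 : Real.sqrt (∫ b, ‖h b‖ ^ 6) ≤ Real.sqrt (4 * (ρ * gm h) / Real.pi ^ 2) := by
      refine Real.sqrt_le_sqrt ?_
      rw [le_div_iff₀ (by positivity), mul_comm]
      exact b6
    calc ‖g'‖ * Real.sqrt (∫ b, ‖h b‖ ^ 6)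
        ≤ Real.sqrt (lam ^ 2 * (gm h / ρ)) * Real.sqrt (4 * (ρ * gm h) / Real.pi ^ 2) :=
          mul_le_mul s1 s2 (Real.sqrt_nonneg _) (Real.sqrt_nonneg _)
      _ = 2 / Real.pi * lam * gm h := by
          rw [← Real.sqrt_mul (by positivity)]
          have : lam ^ 2 * (gm h / ρ) * (4 * (ρ * gm h) / Real.pi ^ 2)
              = (2 / Real.pi * lam * gm h) ^ 2 := by
            field_simp
            ring
          rw [this, Real.sqrt_sq (by positivity)]

end Pool.Agent.Lib.MP424d38.ES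
end
end

section
/-!
# Block ES, module NGY: the sharp one dimensional Gagliardo-Nirenberg-Nagy inequality for test functions

With `u = |h|²`, `M' = ∫u + 2δ`, `s(x) = (∫_{-∞}^x u + δ)/M'` (values in the open unit interval) and `φ = π cot(πs)`, pointwise
`4|h'|² ≥ (u²φ/M')' + π²u³/M'²`; integrate and let `δ → 0`.
-/
set_option autoImplicit false

open MeasureTheory Filter Topology Set
open scoped ENNReal ContDiff ComplexConjugate

noncomputable section

namespace Pool.Agent.Lib.MP424d38.ES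

namespace NGYM

/-- the algebraic inequality -/
lemma alg (z w : ℂ) (c : ℝ) :
    4 * c * (conj z * w).re - c ^ 2 * ‖z‖ ^ 2 ≤ 4 * ‖w‖ ^ 2 := by
  have h0 : 0 ≤ Complex.normSq (2 * w - (c : ℂ) * z) := Complex.normSq_nonneg _
  rw [← Complex.normSq_eq_norm_sq, ← Complex.normSq_eq_norm_sq]
  simp only [Complex.normSq_apply, Complex.sub_re, Complex.sub_im, Complex.mul_re, Complex.mul_im,
    Complex.ofReal_re, Complex.ofReal_im, Complex.re_ofNat, Complex.im_ofNat, Complex.conj_re,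
    Complex.conj_im] at h0 ⊢
  nlinarith [h0]

/-- derivative of `|h|²` -/
lemma deriv_sq {h : ℝ → ℂ} (hh : ContDiff ℝ ∞ h) (x : ℝ) :
    HasDerivAt (fun y => ‖h y‖ ^ 2) (2 * (conj (h x) * deriv h x).re) x := by
  have hd : HasDerivAt h (deriv h x) x := (hh.differentiable (by simp)).differentiableAt.hasDerivAt
  have hre : HasDerivAt (fun y => (h y).re) (deriv h x).re x := by
    exact Complex.reCLM.hasFDerivAt.comp_hasDerivAt x hd
  have him : HasDerivAt (fun y => (h y).im) (deriv h x).im x := by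
    exact Complex.imCLM.hasFDerivAt.comp_hasDerivAt x hd
  have e : (fun y => ‖h y‖ ^ 2) = fun y => (h y).re ^ 2 + (h y).im ^ 2 := by
    funext y
    rw [← Complex.normSq_eq_norm_sq, Complex.normSq_apply]
    ring
  rw [e]
  refine ((hre.pow 2).add (him.pow 2)).congr_deriv ?_
  simp only [Complex.mul_re, Complex.conj_re, Complex.conj_im]
  push_cast
  ring

/-- the inequality with `M + 2δ` -/
lemma main {h : ℝ → ℂ} (hh : ContDiff ℝ ∞ h) (hc : HasCompactSupport h) {δ : ℝ} (hδ : 0 < δ) :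
    Real.pi ^ 2 * (∫ s, ‖h s‖ ^ 6) ≤
      4 * ((∫ s, ‖h s‖ ^ 2) + 2 * δ) ^ 2 * ∫ s, ‖deriv h s‖ ^ 2 := by
  set u : ℝ → ℝ := fun x => ‖h x‖ ^ 2 with hu
  have hcont : Continuous h := hh.continuous
  have hdc : Continuous (deriv h) := hh.continuous_deriv (by simp)
  have hdcs : HasCompactSupport (deriv h) := hc.deriv
  have hucont : Continuous u := by fun_prop
  have hucs : HasCompactSupport u := by
    refine hc.mono ?_
    intro x hx
    rw [Function.mem_support] at hx ⊢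
    intro h0
    exact hx (by simp [hu, h0])
  have hui : Integrable u := hucont.integrable_of_hasCompactSupport hucs
  have hu0 : ∀ x, 0 ≤ u x := fun x => by positivity
  set M : ℝ := ∫ s, u s with hM
  have hM0 : 0 ≤ M := integral_nonneg hu0
  set M' : ℝ := M + 2 * δ with hM'
  have hM'0 : 0 < M' := by positivity
  set F : ℝ → ℝ := fun x => ∫ t in Iic x, u t with hF
  have hF0 : ∀ x, 0 ≤ F x := fun x => setIntegral_nonneg measurableSet_Iic fun y _ => hu0 y
  have hFM : ∀ x, F x ≤ M := fun x =>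
    setIntegral_le_integral hui (Eventually.of_forall hu0)
  have hFd : ∀ x, HasDerivAt F (u x) x := by
    intro x
    have e : F = fun y => (∫ t in Iic (0 : ℝ), u t) + ∫ t in (0 : ℝ)..y, u t := by
      funext y
      rw [← intervalIntegral.integral_Iic_sub_Iic hui.integrableOn hui.integrableOn]
      simp [hF]
    rw [e]
    exact (intervalIntegral.integral_hasDerivAt_right (hucont.intervalIntegrable _ _)
      hucont.stronglyMeasurable.stronglyMeasurableAtFilter hucont.continuousAt).const_add _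
  set s : ℝ → ℝ := fun x => Real.pi * ((F x + δ) / M') with hs
  have hs0 : ∀ x, 0 < s x := fun x => by
    have := hF0 x
    have := Real.pi_pos
    positivity
  have hs1 : ∀ x, s x < Real.pi := fun x => by
    have h1 : (F x + δ) / M' < 1 := by
      rw [div_lt_one hM'0]
      have := hFM x
      rw [hM']
      linarith
    calc s x = Real.pi * ((F x + δ) / M') := rfl
      _ < Real.pi * 1 := mul_lt_mul_of_pos_left h1 Real.pi_pos
      _ = Real.pi := mul_one _
  have hsin : ∀ x, 0 < Real.sin (s x) := fun x => Real.sin_pos_of_pos_of_lt_pi (hs0 x) (hs1 x)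
  have hsd : ∀ x, HasDerivAt s (Real.pi * (u x / M')) x := fun x =>
    (((hFd x).add_const δ).div_const M').const_mul Real.pi
  set φ : ℝ → ℝ := fun x => Real.cos (s x) / Real.sin (s x) with hφ
  have hφd : ∀ x, HasDerivAt φ (-(Real.pi * (u x / M')) / Real.sin (s x) ^ 2) x := by
    intro x
    have h1 := ((hsd x).cos.div (hsd x).sin (hsin x).ne')
    refine h1.congr_deriv ?_
    have h2 := (hsin x).ne'
    field_simp
    linear_combination (-(u x)) * (Real.sin_sq_add_cos_sq (s x))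
  have hscont : Continuous s := continuous_iff_continuousAt.2 fun x => (hsd x).continuousAt
  have hφcont : Continuous φ := continuous_iff_continuousAt.2 fun x => (hφd x).continuousAt
  set G : ℝ → ℝ := fun x => Real.pi / M' * (u x ^ 2 * φ x) with hG
  set G' : ℝ → ℝ := fun x => Real.pi / M' * (2 * u x * (2 * (conj (h x) * deriv h x).re) * φ x +
    u x ^ 2 * (-(Real.pi * (u x / M')) / Real.sin (s x) ^ 2)) with hG'
  have hGd : ∀ x, HasDerivAt G (G' x) x := by
    intro x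
    have h1 := (((deriv_sq hh x).pow 2).mul (hφd x)).const_mul (Real.pi / M')
    refine h1.congr_deriv ?_
    simp only [hG', hu, Pi.pow_apply]
    push_cast
    ring
  have hGcont : Continuous G := by fun_prop
  have hsn : ∀ x, Real.sin (s x) ^ 2 ≠ 0 := fun x => pow_ne_zero 2 (hsin x).ne'
  have hG'cont : Continuous G' := by
    have h1 : Continuous fun x => -(Real.pi * (u x / M')) / Real.sin (s x) ^ 2 :=
      Continuous.div (by fun_prop) (by fun_prop) hsn
    have h2 : Continuous fun x => (conj (h x) * deriv h x).re := by fun_prop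
    fun_prop
  have hGcs : HasCompactSupport G := by
    refine hucs.mono ?_
    intro x hx
    rw [Function.mem_support] at hx ⊢
    intro h0
    exact hx (by simp [hG, h0])
  have hG'cs : HasCompactSupport G' := by
    refine hucs.mono ?_
    intro x hx
    rw [Function.mem_support] at hx ⊢
    intro h0
    exact hx (by simp [hG', h0])
  have hGi : Integrable G := hGcont.integrable_of_hasCompactSupport hGcs
  have hG'i : Integrable G' := hG'cont.integrable_of_hasCompactSupport hG'cs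
  have hint : (∫ x, G' x) = 0 := integral_eq_zero_of_hasDerivAt_of_integrable hGd hG'i hGi
  have hpt : ∀ x, G' x + Real.pi ^ 2 / M' ^ 2 * ‖h x‖ ^ 6 ≤ 4 * ‖deriv h x‖ ^ 2 := by
    intro x
    have h1 := alg (h x) (deriv h x) (Real.pi * u x * φ x / M')
    refine le_trans (le_of_eq ?_) h1
    have h2 : Real.cos (s x) ^ 2 = 1 - Real.sin (s x) ^ 2 := by
      have := Real.sin_sq_add_cos_sq (s x)
      linarith
    have h3 := (hsin x).ne'
    have h4 := hM'0.ne'
    simp only [hG', hφ]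
    have e6 : ‖h x‖ ^ 6 = u x ^ 3 := by
      simp only [hu]
      ring
    have e2 : ‖h x‖ ^ 2 = u x := rfl
    rw [e6, e2]
    field_simp
    linear_combination (Real.pi * u x ^ 3) * h2
  have h6c : Continuous fun x => ‖h x‖ ^ 6 := by fun_prop
  have h6i : Integrable fun x => ‖h x‖ ^ 6 := by
    refine h6c.integrable_of_hasCompactSupport (hc.mono ?_)
    intro x hx
    rw [Function.mem_support] at hx ⊢
    intro h0
    exact hx (by simp [h0])
  have hdi : Integrable fun x => ‖deriv h x‖ ^ 2 := by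
    refine Continuous.integrable_of_hasCompactSupport (by fun_prop) (hdcs.mono ?_)
    intro x hx
    rw [Function.mem_support] at hx ⊢
    intro h0
    exact hx (by simp [h0])
  have hI : (∫ x, (G' x + Real.pi ^ 2 / M' ^ 2 * ‖h x‖ ^ 6)) ≤ ∫ x, 4 * ‖deriv h x‖ ^ 2 :=
    integral_mono (hG'i.add (h6i.const_mul _)) (hdi.const_mul _) hpt
  rw [integral_add hG'i (h6i.const_mul _), hint, zero_add, integral_const_mul,
    integral_const_mul] at hI
  have hM2 : 0 < M' ^ 2 := by positivity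
  have h5 : Real.pi ^ 2 * (∫ s, ‖h s‖ ^ 6) = M' ^ 2 * (Real.pi ^ 2 / M' ^ 2 * ∫ s, ‖h s‖ ^ 6) := by
    field_simp
  rw [h5]
  calc M' ^ 2 * (Real.pi ^ 2 / M' ^ 2 * ∫ s, ‖h s‖ ^ 6) ≤ M' ^ 2 * (4 * ∫ x, ‖deriv h x‖ ^ 2) :=
        mul_le_mul_of_nonneg_left hI hM2.le
    _ = 4 * M' ^ 2 * ∫ x, ‖deriv h x‖ ^ 2 := by ring

end NGYM

theorem specNGY : SpecNGY := by
  intro h hh hc
  have hlim : Tendsto (fun δ : ℝ => 4 * ((∫ s, ‖h s‖ ^ 2) + 2 * δ) ^ 2 * ∫ s, ‖deriv h s‖ ^ 2)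
      (𝓝[>] 0) (𝓝 (4 * ((∫ s, ‖h s‖ ^ 2) + 2 * 0) ^ 2 * ∫ s, ‖deriv h s‖ ^ 2)) := by
    refine Tendsto.mono_left (Continuous.tendsto ?_ _) nhdsWithin_le_nhds
    fun_prop
  rw [mul_zero, add_zero] at hlim
  refine ge_of_tendsto hlim ?_
  filter_upwards [self_mem_nhdsWithin] with δ hδ
  exact NGYM.main hh hc hδ

end Pool.Agent.Lib.MP424d38.ES
end
end

section
/-!
# Block ES, module SB1: sup bound, `L⁴` and `L⁶` bounds in `H¹(ℝ)`, Galilean invariant
-/
set_option autoImplicit false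

open MeasureTheory Filter Topology Set
open scoped ENNReal ContDiff ComplexConjugate FourierTransform

noncomputable section

namespace Pool.Agent.Lib.MP424d38.ES

open Pool.Agent.Lib.MP424d38.TY

namespace SB1M

/-- NGY with momentum -/
lemma nagy (hNGY : SpecNGY) {h : ℝ → ℂ} (hs : ContDiff ℝ ∞ h) (hc : HasCompactSupport h) :
    Real.pi ^ 2 * (∫ s, ‖h s‖ ^ 6) ≤ 4 * ((∫ s, ‖h s‖ ^ 2) * ((∫ s, ‖h s‖ ^ 2) *
      (∫ s, ‖deriv h s‖ ^ 2) - (∫ s, (conj (h s) * deriv h s).im) ^ 2)) := by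
  have hcont : Continuous h := hs.continuous
  have hdc : Continuous (deriv h) := hs.continuous_deriv (by simp)
  have hd : Differentiable ℝ h := hs.differentiable (by simp)
  obtain ⟨K, hK, hK0⟩ : ∃ K : Set ℝ, IsCompact K ∧ ∀ x, x ∉ K → h x = 0 ∧ deriv h x = 0 := by
    refine ⟨tsupport h, hc, fun x hx => ⟨image_eq_zero_of_notMem_tsupport hx, ?_⟩⟩
    have : x ∉ Function.support (deriv h) := fun hx' => hx (support_deriv_subset hx')
    simpa using this
  have hh2 : Integrable fun s => ‖h s‖ ^ 2 := by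
    refine GN1M.integrable_of (hcont.norm.pow 2) hK fun x hx => ?_
    simp [(hK0 x hx).1]
  have hd2 : Integrable fun s => ‖deriv h s‖ ^ 2 := by
    refine GN1M.integrable_of (hdc.norm.pow 2) hK fun x hx => ?_
    simp [(hK0 x hx).2]
  have him : Integrable fun s => (conj (h s) * deriv h s).im := by
    refine GN1M.integrable_of (Complex.continuous_im.comp
      ((Complex.continuous_conj.comp hcont).mul hdc)) hK fun x hx => ?_
    simp [(hK0 x hx).1]
  set ρ : ℝ := ∫ s, ‖h s‖ ^ 2 with hρd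
  set e : ℝ := ∫ s, ‖deriv h s‖ ^ 2 with hed
  set p : ℝ := ∫ s, (conj (h s) * deriv h s).im with hpd
  have hρ0 : 0 ≤ ρ := integral_nonneg fun s => by positivity
  rcases hρ0.eq_or_lt with h0 | hρ
  · have h1 := hNGY h hs hc
    rw [← hρd, ← h0] at h1
    rw [← h0]
    simpa using h1
  · set c : ℝ := p / ρ with hcd
    set u : ℝ → ℂ := fun b => Complex.exp (((-(c * b) : ℝ) : ℂ) * Complex.I) with hu
    have hun : ∀ b, ‖u b‖ = 1 := fun b => Complex.norm_exp_ofReal_mul_I _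
    have hus : ContDiff ℝ ∞ u := by
      have h0 : ContDiff ℝ ∞ fun b : ℝ => -(c * b) := (contDiff_const.mul contDiff_id).neg
      have h1 : ContDiff ℝ ∞ fun b : ℝ => ((-(c * b) : ℝ) : ℂ) :=
        Complex.ofRealCLM.contDiff.comp h0
      exact (h1.mul contDiff_const).cexp
    have hud : ∀ b, HasDerivAt u (-(Complex.I * (c : ℂ)) * u b) b := by
      intro b
      have h1 : HasDerivAt (fun b : ℝ => -(c * b)) (-c) b := by
        have h0 := ((hasDerivAt_id b).const_mul c).fun_neg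
        rw [mul_one] at h0
        exact h0
      have h2 := (h1.ofReal_comp.mul_const Complex.I).cexp
      refine h2.congr_deriv ?_
      simp only [hu]
      push_cast
      ring
    set k : ℝ → ℂ := fun b => u b * h b with hk
    have hks : ContDiff ℝ ∞ k := hus.mul hs
    have hkc : HasCompactSupport k := hc.mul_left
    have hkn : ∀ b, ‖k b‖ = ‖h b‖ := fun b => by
      simp only [hk]
      rw [norm_mul, hun, one_mul]
    have hkd : ∀ b, deriv k b = u b * (deriv h b - Complex.I * (c : ℂ) * h b) := by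
      intro b
      have h1 := (hud b).mul (hd b).hasDerivAt
      have h2 : deriv k b = -(Complex.I * (c : ℂ)) * u b * h b + u b * deriv h b := h1.deriv
      rw [h2]
      ring
    have hkdn : ∀ b, ‖deriv k b‖ ^ 2 = ‖deriv h b‖ ^ 2 - 2 * c * (conj (h b) * deriv h b).im
        + c ^ 2 * ‖h b‖ ^ 2 := by
      intro b
      rw [hkd, norm_mul, hun, one_mul]
      simp only [Complex.sq_norm, Complex.normSq_apply]
      simp [Complex.mul_re, Complex.mul_im]
      ring
    have h5 := GN1M.int3 hd2 him hh2 1 (2 * c) (c ^ 2)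
    rw [one_mul] at h5
    have h6 : ∫ s, ‖deriv k s‖ ^ 2 = e - 2 * c * p + c ^ 2 * ρ := by
      rw [hed, hpd, hρd, ← h5]
      exact integral_congr_ae (Eventually.of_forall fun s => by simp only [hkdn]; ring)
    have h7 := hNGY k hks hkc
    simp only [hkn] at h7
    rw [h6, ← hρd] at h7
    refine h7.trans (le_of_eq ?_)
    rw [hcd]
    field_simp
    ring

/-- no contribution of the phase for test functions -/
lemma cubz {h : ℝ → ℂ} (hs : ContDiff ℝ ∞ h) (hc : HasCompactSupport h) :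
    (∫ s, conj (deriv h s) * (((‖h s‖ ^ 2 : ℝ) : ℂ) * h s)).re = 0 := by
  have hcont : Continuous h := hs.continuous
  have hdc : Continuous (deriv h) := hs.continuous_deriv (by simp)
  have hn : Continuous fun s => ((‖h s‖ ^ 2 : ℝ) : ℂ) :=
    Complex.continuous_ofReal.comp (hcont.norm.pow 2)
  have hi : Integrable fun s => conj (deriv h s) * (((‖h s‖ ^ 2 : ℝ) : ℂ) * h s) := by
    refine Continuous.integrable_of_hasCompactSupport
      ((Complex.continuous_conj.comp hdc).mul (hn.mul hcont)) ?_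
    refine HasCompactSupport.intro hc fun x hx => ?_
    simp [image_eq_zero_of_notMem_tsupport hx]
  have h1 : (∫ s, conj (deriv h s) * (((‖h s‖ ^ 2 : ℝ) : ℂ) * h s)).re =
      ∫ s, (conj (deriv h s) * (((‖h s‖ ^ 2 : ℝ) : ℂ) * h s)).re := by
    exact (integral_re hi).symm
  have h2 : ∀ s, HasDerivAt (fun y => (‖h y‖ ^ 2) ^ 2 / 4)
      (conj (deriv h s) * (((‖h s‖ ^ 2 : ℝ) : ℂ) * h s)).re s := by
    intro s
    have h3 := ((NGYM.deriv_sq hs s).pow 2).div_const 4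
    refine h3.congr_deriv ?_
    have h4 : conj (deriv h s) * (((‖h s‖ ^ 2 : ℝ) : ℂ) * h s) =
        ((‖h s‖ ^ 2 : ℝ) : ℂ) * (conj (deriv h s) * h s) := by ring
    have h5 : (conj (deriv h s) * h s).re = (conj (h s) * deriv h s).re := by
      simp [Complex.mul_re]
      ring
    rw [h4, Complex.re_ofReal_mul, h5]
    ring
  rw [h1]
  refine integral_eq_zero_of_hasDerivAt_of_integrable h2 hi.re ?_
  refine Continuous.integrable_of_hasCompactSupport (by fun_prop) ?_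
  refine HasCompactSupport.intro hc fun x hx => ?_
  simp [image_eq_zero_of_notMem_tsupport hx]

/-- `| |z|² z - |w|² w | ≤ 3 S |z - w|` -/
lemma cub_sub {z w : ℂ} {S : ℝ} (hz : ‖z‖ ^ 2 ≤ S) (hw : ‖w‖ ^ 2 ≤ S) :
    ‖((‖z‖ ^ 2 : ℝ) : ℂ) * z - ((‖w‖ ^ 2 : ℝ) : ℂ) * w‖ ≤ 3 * S * ‖z - w‖ := by
  have e : ((‖z‖ ^ 2 : ℝ) : ℂ) * z - ((‖w‖ ^ 2 : ℝ) : ℂ) * w =
      ((‖z‖ ^ 2 : ℝ) : ℂ) * (z - w) + ((‖z‖ ^ 2 - ‖w‖ ^ 2 : ℝ) : ℂ) * w := by
    push_cast
    ring
  rw [e]
  refine (norm_add_le _ _).trans ?_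
  rw [norm_mul, norm_mul, Complex.norm_real, Complex.norm_real, Real.norm_eq_abs, Real.norm_eq_abs,
    abs_of_nonneg (sq_nonneg ‖z‖)]
  have h1 : |‖z‖ ^ 2 - ‖w‖ ^ 2| ≤ ‖z - w‖ * (‖z‖ + ‖w‖) := by
    have h2 : ‖z‖ ^ 2 - ‖w‖ ^ 2 = (‖z‖ - ‖w‖) * (‖z‖ + ‖w‖) := by ring
    rw [h2, abs_mul, abs_of_nonneg (by positivity : 0 ≤ ‖z‖ + ‖w‖)]
    exact mul_le_mul_of_nonneg_right (abs_norm_sub_norm_le z w) (by positivity)
  have h3 := norm_nonneg z
  have h4 := norm_nonneg w
  have h5 := norm_nonneg (z - w)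
  have h6 : ‖z‖ * ‖w‖ ≤ S := by nlinarith [sq_nonneg (‖z‖ - ‖w‖)]
  have h7 : |‖z‖ ^ 2 - ‖w‖ ^ 2| * ‖w‖ ≤ (‖z - w‖ * (‖z‖ + ‖w‖)) * ‖w‖ :=
    mul_le_mul_of_nonneg_right h1 h4
  calc ‖z‖ ^ 2 * ‖z - w‖ + |‖z‖ ^ 2 - ‖w‖ ^ 2| * ‖w‖
      ≤ ‖z‖ ^ 2 * ‖z - w‖ + (‖z - w‖ * (‖z‖ + ‖w‖)) * ‖w‖ := by linarith
    _ = (‖z‖ ^ 2 + ‖z‖ * ‖w‖ + ‖w‖ ^ 2) * ‖z - w‖ := by ring
    _ ≤ 3 * S * ‖z - w‖ := mul_le_mul_of_nonneg_right (by linarith) h5

lemma tendsto_toLp {f : ℕ → ℝ → ℂ} (hf : ∀ n, MemLp (f n) 2 volume) {g : L2R}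
    (h : Tendsto (fun n => eLpNorm (fun b => f n b - g b) 2 volume) atTop (𝓝 0)) :
    Tendsto (fun n => ((hf n).toLp (f n) : L2R)) atTop (𝓝 g) := by
  rw [tendsto_iff_norm_sub_tendsto_zero]
  have h1 : ∀ n, ‖((hf n).toLp (f n) : L2R) - g‖ =
      (eLpNorm (fun b => f n b - g b) 2 volume).toReal := by
    intro n
    rw [Lp.norm_def]
    congr 1
    refine eLpNorm_congr_ae ?_
    filter_upwards [(hf n).coeFn_toLp, Lp.coeFn_sub ((hf n).toLp (f n) : L2R) g] with b h2 h3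
    rw [h3, Pi.sub_apply, h2]
  simp only [h1]
  have h2 := (ENNReal.tendsto_toReal ENNReal.zero_ne_top).comp h
  rw [ENNReal.toReal_zero] at h2
  exact h2

/-- everything, for a given `d` -/
lemma core (hDN1 : SpecDN1) (hNGY : SpecNGY) {h d : L2R}
    (hd : IsM (fun l => l) h d) : 0 ≤ gm h ∧ (∀ᵐ b : ℝ, ‖h b‖ ^ 4 ≤ gm h) ∧
    (Integrable fun b => ‖h b‖ ^ 6) ∧ Real.pi ^ 2 * (∫ b, ‖h b‖ ^ 6) ≤
      4 * (sp (fun _ => 1) h * gm h) ∧
    (Integrable fun b => ‖h b‖ ^ 4) ∧ (∫ b, ‖h b‖ ^ 4) ≤ Real.sqrt (gm h) * sp (fun _ => 1) h ∧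
    (∫ b, conj (d b) * (((‖h b‖ ^ 2 : ℝ) : ℂ) * h b)).im = 0 := by
  obtain ⟨ψ, hψ, l1, l2, l3⟩ := hDN1 h d hd
  obtain ⟨-, M2, M3, M4, -, -, -, M8⟩ := specMX1
  have hcont : ∀ n, Continuous (ψ n) := fun n => (hψ n).1.continuous
  have hdc : ∀ n, Continuous (deriv (ψ n)) := fun n => (hψ n).1.continuous_deriv (by simp)
  have m1 : ∀ n, MemLp (ψ n) 2 volume := fun n => (hcont n).memLp_of_hasCompactSupport (hψ n).2
  have m2 : ∀ n, MemLp (deriv (ψ n)) 2 volume := fun n =>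
    (hdc n).memLp_of_hasCompactSupport (hψ n).2.deriv
  set P : ℕ → L2R := fun n => (m1 n).toLp (ψ n) with hP
  set Q : ℕ → L2R := fun n => (m2 n).toLp (deriv (ψ n)) with hQ
  have hPa : ∀ n, ∀ᵐ b : ℝ, P n b = ψ n b := fun n => (m1 n).coeFn_toLp
  have hQa : ∀ n, ∀ᵐ b : ℝ, Q n b = deriv (ψ n) b := fun n => (m2 n).coeFn_toLp
  have tP : Tendsto P atTop (𝓝 h) := tendsto_toLp m1 l1
  have tQ : Tendsto Q atTop (𝓝 (Complex.I • d)) := by
    refine tendsto_toLp m2 (l2.congr fun n => ?_)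
    refine eLpNorm_congr_ae ?_
    filter_upwards [Lp.coeFn_smul Complex.I d] with b hb
    rw [hb]
    rfl
  set ρ : ℕ → ℝ := fun n => ∫ s, ‖ψ n s‖ ^ 2 with hρ
  set e : ℕ → ℝ := fun n => ∫ s, ‖deriv (ψ n) s‖ ^ 2 with he
  set p : ℕ → ℝ := fun n => ∫ s, (conj (ψ n s) * deriv (ψ n) s).im with hp
  have eρ : ∀ n, ρ n = ‖P n‖ ^ 2 := by
    intro n
    rw [MX1M.norm_sq]
    refine integral_congr_ae ?_
    filter_upwards [hPa n] with b hb
    rw [hb]
  have ee : ∀ n, e n = ‖Q n‖ ^ 2 := by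
    intro n
    rw [MX1M.norm_sq]
    refine integral_congr_ae ?_
    filter_upwards [hQa n] with b hb
    rw [hb]
  have ep : ∀ n, p n = (inner ℂ (P n) (Q n) : ℂ).im := by
    intro n
    have hi : Integrable fun s => conj (ψ n s) * deriv (ψ n) s := by
      refine Continuous.integrable_of_hasCompactSupport
        ((Complex.continuous_conj.comp (hcont n)).mul (hdc n)) ?_
      refine HasCompactSupport.intro (hψ n).2 fun x hx => ?_
      simp [image_eq_zero_of_notMem_tsupport hx]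
    rw [MX1M.inner_eq]
    have h1 : ∫ x, conj (P n x) * Q n x = ∫ s, conj (ψ n s) * deriv (ψ n) s := by
      refine integral_congr_ae ?_
      filter_upwards [hPa n, hQa n] with b hb hb'
      rw [hb, hb']
    rw [h1]
    exact integral_im hi
  have tρ : Tendsto ρ atTop (𝓝 (sp (fun _ => 1) h)) := by
    rw [← (M3 h).1]
    exact (tP.norm.pow 2).congr fun n => (eρ n).symm
  have te : Tendsto e atTop (𝓝 (sp (fun l => l ^ 2) h)) := by
    have h1 : ‖Complex.I • d‖ ^ 2 = sp (fun l => l ^ 2) h := by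
      rw [norm_smul, Complex.norm_I, one_mul]
      exact (M2 (fun l => l) h d measurable_id hd).1
    rw [← h1]
    exact (tQ.norm.pow 2).congr fun n => (ee n).symm
  have tp : Tendsto p atTop (𝓝 (sp (fun l => l) h)) := by
    have h1 : (inner ℂ h (Complex.I • d) : ℂ).im = sp (fun l => l) h := by
      rw [inner_smul_right, MX1M.inner_eq, M4]
      have h2 : ∫ ξ, conj ((𝓕 h : L2R) ξ) * (𝓕 d : L2R) ξ = ((sp (fun l => l) h : ℝ) : ℂ) := by
        unfold sp
        rw [← integral_complex_ofReal]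
        refine integral_congr_ae ?_
        filter_upwards [hd] with ξ hξ
        rw [hξ]
        have h3 : conj ((𝓕 h : L2R) ξ) * (𝓕 h : L2R) ξ = ((‖(𝓕 h : L2R) ξ‖ ^ 2 : ℝ) : ℂ) := by
          rw [Complex.conj_mul']
          push_cast
          rfl
        rw [Complex.ofReal_mul (2 * Real.pi * ξ) (‖(𝓕 h : L2R) ξ‖ ^ 2), ← h3]
        ring
      rw [h2]
      simp [Complex.mul_im]
    rw [← h1]
    have h2 : Tendsto (fun n => (inner ℂ (P n) (Q n) : ℂ).im) atTop
        (𝓝 (inner ℂ h (Complex.I • d) : ℂ).im) :=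
      (Complex.continuous_im.tendsto _).comp (tP.inner tQ)
    exact h2.congr fun n => (ep n).symm
  set g : ℕ → ℝ := fun n => ρ n * e n - p n ^ 2 with hg
  have tg : Tendsto g atTop (𝓝 (gm h)) := (tρ.mul te).sub (tp.pow 2)
  have hGN : ∀ n b, ‖ψ n b‖ ^ 4 ≤ g n := fun n b => specGN1 (ψ n) (hψ n).1 (hψ n).2 b
  have hg0 : ∀ n, 0 ≤ g n := fun n => le_trans (by positivity) (hGN n 0)
  have hgm0 : 0 ≤ gm h := ge_of_tendsto' tg hg0
  -- pointwise convergence
  have hpt : ∀ᵐ b : ℝ, Tendsto (fun n => ψ n b) atTop (𝓝 (h b)) := by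
    have h1 : ∀ᵐ b : ℝ, ∀ n, ‖ψ n b - h b‖ₑ ≤ eLpNorm (fun b => ψ n b - h b) ⊤ volume := by
      rw [ae_all_iff]
      intro n
      rw [eLpNorm_exponent_top]
      exact enorm_ae_le_eLpNormEssSup _ _
    filter_upwards [h1] with b hb
    rw [tendsto_iff_edist_tendsto_0]
    refine tendsto_of_tendsto_of_tendsto_of_le_of_le tendsto_const_nhds l3 (fun _ => zero_le) ?_
    intro n
    show edist (ψ n b) (h b) ≤ _
    rw [edist_eq_enorm_sub]
    exact hb n
  have hsup : ∀ᵐ b : ℝ, ‖h b‖ ^ 4 ≤ gm h := by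
    filter_upwards [hpt] with b hb
    exact le_of_tendsto_of_tendsto' (hb.norm.pow 4) tg fun n => hGN n b
  have i2 : Integrable fun b => ‖h b‖ ^ 2 := MX1M.int_sq h
  have hmeas : AEStronglyMeasurable (fun b => ‖h b‖) volume := (Lp.aestronglyMeasurable h).norm
  have i6 : Integrable fun b => ‖h b‖ ^ 6 := by
    refine (i2.const_mul (gm h)).mono' (hmeas.pow 6) ?_
    filter_upwards [hsup] with b hb
    rw [Real.norm_of_nonneg (by positivity)]
    calc ‖h b‖ ^ 6 = ‖h b‖ ^ 4 * ‖h b‖ ^ 2 := by ring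
      _ ≤ gm h * ‖h b‖ ^ 2 := mul_le_mul_of_nonneg_right hb (by positivity)
  have hsq : ∀ᵐ b : ℝ, ‖h b‖ ^ 4 ≤ Real.sqrt (gm h) * ‖h b‖ ^ 2 := by
    filter_upwards [hsup] with b hb
    have h1 : ‖h b‖ ^ 2 ≤ Real.sqrt (gm h) := by
      refine Real.le_sqrt_of_sq_le ?_
      calc (‖h b‖ ^ 2) ^ 2 = ‖h b‖ ^ 4 := by ring
        _ ≤ gm h := hb
    calc ‖h b‖ ^ 4 = ‖h b‖ ^ 2 * ‖h b‖ ^ 2 := by ring
      _ ≤ Real.sqrt (gm h) * ‖h b‖ ^ 2 := mul_le_mul_of_nonneg_right h1 (by positivity)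
  have i4 : Integrable fun b => ‖h b‖ ^ 4 := by
    refine (i2.const_mul (Real.sqrt (gm h))).mono' (hmeas.pow 4) ?_
    filter_upwards [hsq] with b hb
    rw [Real.norm_of_nonneg (by positivity)]
    exact hb
  refine ⟨hgm0, hsup, i6, ?_, i4, ?_, ?_⟩
  · -- Fatou
    have hρ0 : 0 ≤ sp (fun _ => 1) h := by
      rw [← (M3 h).1]
      positivity
    have hn : ∀ n, Real.pi ^ 2 * (∫ s, ‖ψ n s‖ ^ 6) ≤ 4 * (ρ n * g n) := fun n =>
      nagy hNGY (hψ n).1 (hψ n).2
    have hpi : (0 : ℝ) < Real.pi ^ 2 := by positivity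
    have hn' : ∀ n, (∫ s, ‖ψ n s‖ ^ 6) ≤ 4 * (ρ n * g n) / Real.pi ^ 2 := by
      intro n
      rw [le_div_iff₀ hpi]
      have := hn n
      linarith
    have hfin : (∫ b, ‖h b‖ ^ 6) ≤ 4 * (sp (fun _ => 1) h * gm h) / Real.pi ^ 2 := by
      have hR : 0 ≤ 4 * (sp (fun _ => 1) h * gm h) / Real.pi ^ 2 := by positivity
      rw [← ENNReal.ofReal_le_ofReal_iff hR,
        ofReal_integral_eq_lintegral_ofReal i6 (Eventually.of_forall fun b => by positivity)]
      have h1 : ∫⁻ b, ENNReal.ofReal (‖h b‖ ^ 6) =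
          ∫⁻ b, liminf (fun n => ENNReal.ofReal (‖ψ n b‖ ^ 6)) atTop := by
        refine lintegral_congr_ae ?_
        filter_upwards [hpt] with b hb
        have h2 : Tendsto (fun n => ENNReal.ofReal (‖ψ n b‖ ^ 6)) atTop
            (𝓝 (ENNReal.ofReal (‖h b‖ ^ 6))) :=
          (ENNReal.continuous_ofReal.tendsto _).comp (hb.norm.pow 6)
        exact h2.liminf_eq.symm
      rw [h1]
      refine (lintegral_liminf_le fun n => ?_).trans ?_
      · exact (ENNReal.continuous_ofReal.comp ((hcont n).norm.pow 6)).measurable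
      · have h2 : Tendsto (fun n => ENNReal.ofReal (4 * (ρ n * g n) / Real.pi ^ 2)) atTop
            (𝓝 (ENNReal.ofReal (4 * (sp (fun _ => 1) h * gm h) / Real.pi ^ 2))) :=
          (ENNReal.continuous_ofReal.tendsto _).comp
            (((tρ.mul tg).const_mul 4).div_const (Real.pi ^ 2))
        rw [← h2.liminf_eq]
        refine liminf_le_liminf (Eventually.of_forall fun n => ?_)
        have h6 : Integrable fun s => ‖ψ n s‖ ^ 6 := by
          refine GN1M.integrable_of ((hcont n).norm.pow 6) (hψ n).2 fun x hx => ?_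
          simp [image_eq_zero_of_notMem_tsupport hx]
        show ∫⁻ b, ENNReal.ofReal (‖ψ n b‖ ^ 6) ≤ _
        rw [← ofReal_integral_eq_lintegral_ofReal h6 (Eventually.of_forall fun b => by positivity)]
        exact ENNReal.ofReal_le_ofReal (hn' n)
    rw [le_div_iff₀ hpi] at hfin
    linarith
  · have h1 := integral_mono_ae i4 (i2.const_mul (Real.sqrt (gm h))) hsq
    rw [integral_const_mul] at h1
    have h2 : (∫ b, ‖h b‖ ^ 2) = sp (fun _ => 1) h := by
      rw [← (M3 h).1]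
      exact (M3 h).2.1
    rwa [h2] at h1
  · -- the last item
    set S : ℝ := Real.sqrt (gm h + 1) with hS
    have hS0 : 0 ≤ S := Real.sqrt_nonneg _
    have hSle : ∀ z : ℂ, ‖z‖ ^ 4 ≤ gm h + 1 → ‖z‖ ^ 2 ≤ S := by
      intro z hz
      refine Real.le_sqrt_of_sq_le ?_
      calc (‖z‖ ^ 2) ^ 2 = ‖z‖ ^ 4 := by ring
        _ ≤ gm h + 1 := hz
    have hev : ∀ᶠ n in atTop, g n ≤ gm h + 1 := by
      have := tg.eventually (gt_mem_nhds (lt_add_one (gm h)))
      filter_upwards [this] with n hn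
      exact hn.le
    have c1 : ∀ n, MemLp (fun b => ((‖ψ n b‖ ^ 2 : ℝ) : ℂ) * ψ n b) 2 volume := by
      intro n
      refine Continuous.memLp_of_hasCompactSupport
        ((Complex.continuous_ofReal.comp ((hcont n).norm.pow 2)).mul (hcont n)) ?_
      exact (hψ n).2.mul_left
    have c2 : MemLp (fun b => ((‖h b‖ ^ 2 : ℝ) : ℂ) * h b) 2 volume := by
      have hm : AEStronglyMeasurable (fun b => ((‖h b‖ ^ 2 : ℝ) : ℂ) * h b) volume :=
        (Complex.continuous_ofReal.comp_aestronglyMeasurable (hmeas.pow 2)).mul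
          (Lp.aestronglyMeasurable h)
      rw [memLp_two_iff_integrable_sq_norm hm]
      refine i6.congr (Eventually.of_forall fun b => ?_)
      show ‖h b‖ ^ 6 = ‖((‖h b‖ ^ 2 : ℝ) : ℂ) * h b‖ ^ 2
      rw [norm_mul, Complex.norm_real, Real.norm_eq_abs, abs_of_nonneg (sq_nonneg _)]
      ring
    set C : ℕ → L2R := fun n => (c1 n).toLp _ with hC
    set D : L2R := c2.toLp _ with hD
    have tC : Tendsto C atTop (𝓝 D) := by
      rw [tendsto_iff_norm_sub_tendsto_zero]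
      have h1 : Tendsto (fun n => 3 * S * ‖P n - h‖) atTop (𝓝 (3 * S * 0)) :=
        (tendsto_iff_norm_sub_tendsto_zero.1 tP).const_mul _
      rw [mul_zero] at h1
      refine tendsto_of_tendsto_of_tendsto_of_le_of_le' tendsto_const_nhds h1
        (Eventually.of_forall fun n => norm_nonneg _) ?_
      filter_upwards [hev] with n hn
      refine Lp.norm_le_mul_norm_of_ae_le_mul ?_
      filter_upwards [hPa n, (c1 n).coeFn_toLp, c2.coeFn_toLp, Lp.coeFn_sub (C n) D,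
        Lp.coeFn_sub (P n) h, hsup] with b h2 h3 h4 h5 h6 h7
      rw [h5, h6, Pi.sub_apply, Pi.sub_apply, h2, h3, h4]
      exact cub_sub (hSle _ ((hGN n b).trans hn)) (hSle _ (h7.trans (by linarith)))
    have t1 : Tendsto (fun n => (inner ℂ (Q n) (C n) : ℂ).re) atTop
        (𝓝 (inner ℂ (Complex.I • d) D : ℂ).re) :=
      (Complex.continuous_re.tendsto _).comp (tQ.inner tC)
    have h0 : ∀ n, (inner ℂ (Q n) (C n) : ℂ).re = 0 := by
      intro n
      rw [MX1M.inner_eq]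
      have h1 : ∫ x, conj (Q n x) * C n x =
          ∫ s, conj (deriv (ψ n) s) * (((‖ψ n s‖ ^ 2 : ℝ) : ℂ) * ψ n s) := by
        refine integral_congr_ae ?_
        filter_upwards [hQa n, (c1 n).coeFn_toLp] with b hb hb'
        rw [hb, hb']
      rw [h1]
      exact cubz (hψ n).1 (hψ n).2
    have h1 : (inner ℂ (Complex.I • d) D : ℂ).re = 0 :=
      tendsto_nhds_unique t1 (by simp only [h0]; exact tendsto_const_nhds)
    rw [inner_smul_left, MX1M.inner_eq] at h1
    have h2 : ∫ x, conj (d x) * D x = ∫ b, conj (d b) * (((‖h b‖ ^ 2 : ℝ) : ℂ) * h b) := by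
      refine integral_congr_ae ?_
      filter_upwards [c2.coeFn_toLp] with b hb
      rw [hb]
    rw [h2] at h1
    simpa [Complex.mul_re] using h1

end SB1M

/-- **SB1** (from DN1, NGY). -/
theorem specSB1 (hDN1 : SpecDN1) (hNGY : SpecNGY) : SpecSB1 := by
  intro h hE
  obtain ⟨d, hd⟩ := specMX1.1 (fun l => l) h measurable_id hE
  obtain ⟨a1, a2, a3, a4, a5, a6, -⟩ := SB1M.core hDN1 hNGY hd
  exact ⟨a1, a2, a3, a4, a5, a6, fun d' hd' => (SB1M.core hDN1 hNGY hd').2.2.2.2.2.2⟩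

end Pool.Agent.Lib.MP424d38.ES
end
end
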