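import Pool.Agent.Lib.MP_424d38_an.ES.SpecL
import Pool.Agent.Lib.MP_424d38_an.SpecF

/-!
# Block ES, part K: `H^{1/2} ⊂ L⁴`, moments, mass threshold, assembly (section 8 of the paper)
-/

set_option autoImplicit false

open MeasureTheory Filter Topology Set
open scoped ENNReal ContDiff ComplexConjugate FourierTransform

noncomputable section

namespace Pool.Agent.Lib.MP424d38.ES

open Pool.Agent.Lib.MP424d38.TY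

/-- `∬ (|k| + |l|)|v̂|²` with the Fourier transform in both variables. -/
def HH (f : L2) : ℝ :=
  ∫ k : E2, (|2 * Real.pi * (prE k).1| + |2 * Real.pi * (prE k).2|) * ‖(𝓕 (toE f) : L2E) k‖ ^ 2

/-- LOW (splitting in low and high frequencies).
Proof.  `h(k) = max(|2πk₁|,|2πk₂|)`, `f₁ = ofE 𝓕⁻¹(1_{h ≤ lam}𝓕(toE f))`, `f₂` the rest (Plancherel).  `1_{h≤lam}𝓕f ∈ L¹ ∩ L²`, so
`|f₁| ≤ ∫_{h≤lam}|𝓕f|` a.e. (the `L²` inverse transform of an `L¹ ∩ L²` function is the integral: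
Pool/Agent/Lib/MP_424d38_an/LIN/PLA.lean does this in one dimension; or approximate `F = 1_{h≤lam}𝓕f` by Schwartz functions `F_n` in
`L¹` and `L²`: `|𝓕⁻¹F_n| ≤ ‖F_n‖₁`, a.e. along a subsequence).  Cauchy-Schwarz with `w(k) = |2πk₁|+|2πk₂| ≥ 4π(|k₁||k₂|)^{1/2}`:
`∫_{h≤lam}1/w ≤ (4π)⁻¹(∫_{|x|≤lam/2π}|x|^{-1/2}dx)² = (4π)⁻¹·16·lam/(2π) = 2lam/π² ≤ lam`. -/
def SpecLOW : Prop := ∀ f : L2,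
  (Integrable fun k : E2 => (|2 * Real.pi * (prE k).1| + |2 * Real.pi * (prE k).2|) * ‖(𝓕 (toE f) : L2E) k‖ ^ 2) →
  ∀ lam : ℝ, 0 < lam → ∃ f₁ f₂ : L2, f = f₁ + f₂ ∧ (∀ᵐ x : ℝ × ℝ, ‖f₁ x‖ ^ 2 ≤ lam * HH f) ∧
    ‖f₂‖ ^ 2 = ∫ k in {k : E2 | lam < max |2 * Real.pi * (prE k).1| |2 * Real.pi * (prE k).2|},
      ‖(𝓕 (toE f) : L2E) k‖ ^ 2

/-- LCK (layer cake).  `∫|f|⁴ = 4∫_0^∞t³|{|f|>t}|dt ≤ 16∫_0^∞t∫_{h>ct²}F dk dt = 16∫F·h/(2c)` (Tonelli;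
Mathlib: `MeasureTheory.lintegral_rpow_eq_lintegral_meas_lt_mul`, `lintegral_comp_eq_lintegral_meas_lt_mul`). -/
def SpecLCK : Prop := ∀ (f : L2) (h F : E2 → ℝ) (c : ℝ), 0 < c → Measurable h → (∀ k, 0 ≤ h k) →
  (∀ k, 0 ≤ F k) → Integrable F → (Integrable fun k => h k * F k) →
  (∀ t : ℝ, 0 < t → volume {x : ℝ × ℝ | t < ‖f x‖} ≤
    ENNReal.ofReal (4 / t ^ 2 * ∫ k in {k : E2 | c * t ^ 2 < h k}, F k)) →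
  (∫⁻ x, ENNReal.ofReal (‖f x‖ ^ 4)) ≤ ENNReal.ofReal (8 / c * ∫ k, h k * F k)

/-- EMB (`H^{1/2} ⊂ L⁴`).  Hypotheses LOW, LCK, TY.SpecFWD, TY.SpecN4F.
Proof.  Integrability of the weight: FWD.  Let `H > 0`, `H ≥ HH f`.  For `t > 0` take `lam = t²/(4H)` in LOW: `|f₁| ≤ t/2` a.e., so
`|{|f|>t}| ≤ |{|f₂|>t/2}| ≤ (4/t²)‖f₂‖²` (Chebyshev): LCK with `c = 1/(4H)`, `h = max`, `F = |𝓕f|²`: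
`∫|f|⁴ ≤ 32H∫hF ≤ 32H HH f`; `H → HH f`. -/
def SpecEMB : Prop := ∀ f F₁ F₂ : L2, IsH1 f F₁ F₂ → (∫ x, ‖f x‖ ^ 4) ≤ 32 * HH f ^ 2

/-- TFE (translation and exchange under `𝓕 ∘ toE`).  Proof.  For functions in `L¹ ∩ L²` or Schwartz functions the formulas are changes of
variables in the integral; both sides are continuous in `f ∈ L²`; density.  (Or: characterise by inner products with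
Schwartz functions.) -/
def SpecTFE : Prop :=
  (∀ (h : ℝ) (f : L2), ∀ᵐ k : E2, (𝓕 (toE (trn h f)) : L2E) k
    = Complex.exp (2 * Real.pi * Complex.I * ((h * (prE k).2 : ℝ) : ℂ)) * (𝓕 (toE f) : L2E) k) ∧
  (∀ f : L2, ∀ᵐ k : E2, (𝓕 (toE (swp f)) : L2E) k = (𝓕 (toE f) : L2E) (inE (prE k).swap))

/-- CHN (the two spectral measures agree).  Hypotheses TFE, PD2, MDE, TY.SpecFWD, TY.SpecSWP.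
Proof.  `μ₁` = image of `|Pf(a,ξ)|²da dξ` under `(a,ξ) ↦ ξ`, `μ₂` = image of `|𝓕(toE f)(k)|²dk` under `k ↦ k₂`: finite measures on `ℝ`.
`∫e^{2πihξ}dμ₁ = ⟪Pf, P(trn h f)⟫ = ⟪f, trn h f⟫ = ⟪𝓕(toE f), 𝓕(toE(trn h f))⟫ = ∫e^{2πihξ}dμ₂` (PD2, `P` and `𝓕 ∘ toE` are isometries,
TFE), so `μ₁ = μ₂` (`MeasureTheory.Measure.ext_of_charFun`) and `XX P f = ∫|2πξ|dμ₁ = ∫|2πk₂||𝓕f|²`.  The same for `swp f`, TFE (2).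
Integrability: `|x| ≤ 1 + x²`, FWD. -/
def SpecCHN : Prop := ∀ P : L2 ≃ₗᵢ[ℂ] L2, IsPF P → ∀ f F₁ F₂ : L2, IsH1 f F₁ F₂ →
  (Integrable fun k : E2 => (|2 * Real.pi * (prE k).1| + |2 * Real.pi * (prE k).2|) * ‖(𝓕 (toE f) : L2E) k‖ ^ 2) ∧
  HH f = XX P f + XX P (swp f)

/-- BDD (bounded in `H^{1/2}` implies bounded in `H¹`).  Hypotheses EMB, CHN, TY.SpecGRC, TY.SpecN4F.
Proof.  `n4(v t)⁴ = ∫|v|⁴ ≤ 32(2D)²`, so `(t₂-t₁)∫_{t₁}^{t₂}n4⁸ ≤ (T-t₁)²(128D²)² ≤ c` if `t₁` is near `T`: GRC bounds `‖v₁‖, ‖v₂‖` on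
`[t₁,T)`; on `[0,t₁]` they are continuous. -/
def SpecBDD : Prop := ∀ P : L2 ≃ₗᵢ[ℂ] L2, IsPF P → ∀ (T : ℝ) (v v₁ v₂ N : ℝ → L2), 0 < T → Nls T v v₁ v₂ N →
  ∀ D : ℝ, (∀ t ∈ Ico 0 T, XX P (v t) ≤ D ∧ XX P (swp (v t)) ≤ D) →
  ∃ D' : ℝ, ∀ t ∈ Ico 0 T, ‖v₁ t‖ ≤ D' ∧ ‖v₂ t‖ ≤ D'

/-- MOM (moments).  Hypotheses TY.SpecLBD, TY.SpecSUP, TY.SpecPHI, TY.SpecUGB, TY.SpecFLB.
Proof.  `A = supT (fun t => √(∫e t))` (SUP: monotone, continuous).  For `t` with `DD (phi L)(ρ t)(ρ t) ≤ B` for all `L`: LBD with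
`t0 = t = 0`, `t' = t`, and `DD (phi L)(ρ 0)(ρ 0) ≥ 0` (PHI): `∫_0^t(64∫_0^sgF - Cm^{3/2}A(0) - (Cm/L)∫_0^sA²)ds ≤ B`; `L → ∞`:
`64∫_0^t(Γ(s)-1)ds ≤ B + Cm^{3/2}A(0)T`.  As such `t` exist arbitrarily close to `T` and `Γ ≥ 1` is continuous:
`∫_0^TΓ < ∞`. -/
def SpecMOM : Prop := ∀ (T m : ℝ) (R : ℝ → ℝ) (ρ p e : ℝ → L1), 0 < T → Flow T m R ρ p e → ∀ B : ℝ,
  (∃ᶠ t in 𝓝[<] T, ∀ L : ℝ, 0 < L → DD (phi L) (ρ t) (ρ t) ≤ B) → IntegrableOn (Ga ρ p e) (Ico 0 T)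

/-- GRB.  Hypotheses MOR, TY.SpecFLB (a `Law` is a `LawS` with source `0`; `‖ρ t‖ = m`). -/
def SpecGRB : Prop := ∀ (T m : ℝ) (R : ℝ → ℝ) (ρ p e : ℝ → L1), Flow T m R ρ p e → ∀ t ∈ Ico 0 T,
  8 * (∫ r in (0 : ℝ)..t, gF ρ p e r) ≤ m * (‖p t‖ + ‖p 0‖)

/-- MTH (mass threshold).  Hypotheses GRB, XGR, TY.SpecFLO.
Proof.  `X(t) ≤ X(0) + (4/π)∫g ≤ X(0) + (m/2π)(X(t) + X(0))` (`‖p t‖ = ∫|momD| ≤ X(t)`). -/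
def SpecMTH : Prop := ∀ P : L2 ≃ₗᵢ[ℂ] L2, IsPF P → ∀ (T : ℝ) (v v₁ v₂ N : ℝ → L2), Nls T v v₁ v₂ N →
  ‖v 0‖ ^ 2 < 2 * Real.pi → ∃ D : ℝ, ∀ t ∈ Ico 0 T, XX P (v t) ≤ D

/-- SPR (spreading of the pair density).  Hypotheses TY.SpecHCF, TY.SpecDDB.
Proof.  `m² - DD (hl (2R)) ρ ρ = ∬(1 - h((a-a')/2R))ρρ'` and `1 - h(s/2R) ≤ 1_{|s|>2R} ≤ 1_{|a-y|>R} + 1_{|a'-y|>R}`.
`phi L s ≤ |s| ≤ |a-y| + |a'-y|`. -/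
def SpecSPR : Prop := ∀ (ρ : L1) (m : ℝ), (∀ᵐ a : ℝ, 0 ≤ ρ a) → (∫ a, ρ a = m) →
  (∀ y R : ℝ, 0 < R → m ^ 2 - DD (hl (2 * R)) ρ ρ ≤ 2 * m * ∫ a in {a : ℝ | R < |a - y|}, ρ a) ∧
  (∀ y L B : ℝ, 0 < L → 0 ≤ B → (∫⁻ a, ENNReal.ofReal (|a - y| * ρ a)) ≤ ENNReal.ofReal B →
    DD (phi L) ρ ρ ≤ 2 * m * B)

/-- the conclusion in one direction: `α` the coordinate (first or second), `w` the derivative in the other coordinate. -/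
def Esc (T ε : ℝ) (α : ℝ × ℝ → ℝ) (v w : ℝ → L2) : Prop :=
  ¬ IntegrableOn (fun t => ‖w t‖) (Ico 0 T) ∧ (¬ ∃ C : ℝ, ∀ t ∈ Ico 0 T, ‖w t‖ ≤ C / (T - t)) ∧
  (∀ B : ℝ, ∀ᶠ t in 𝓝[<] T, ∀ y : ℝ,
    ENNReal.ofReal B < ∫⁻ x : ℝ × ℝ, ENNReal.ofReal (|α x - y| * ‖v t x‖ ^ 2)) ∧
  (∀ (R : ℝ) (y : ℝ → ℝ), ∃ᶠ t in 𝓝[<] T, ε ≤ ∫ x in {x : ℝ × ℝ | R < |α x - y t|}, ‖v t x‖ ^ 2)

/-- ONE (the theorem for one direction).  Hypotheses COR, ESC, RAT (SpecJ), KI2, XGR, MOM, GRB, MTH, SPR, TY.SpecFLO, TY.SpecFLB,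
TY.SpecDNS.
Proof.  `ρ, p, e` from FLO, `Kin2` from KI2.  `X` unbounded implies `Γ` unbounded (XGR), so `Γ → ∞` (`Γ` nondecreasing), so by
COR `Γ` is not integrable.  Mass: MTH.  `8(Γ-1) ≤ m(‖p t‖ + ‖p 0‖) ≤ m^{3/2}(‖v₂ t‖ + ‖v₂ 0‖)` (GRB, FLB); the rate: RAT
(`Γ ≤ C₁/(T-t)` is impossible).  Moments: otherwise for some `B`, for
`t` arbitrarily near `T`, some `y`: `∫⁻|a-y|ρ ≤ B`, SPR, MOM: contradiction to COR.  (`∫⁻|x.1-y||v|² = ∫⁻|a-y|rhoD(v t)(a)da`, Tonelli.)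
Escape: `ε = ε'/(2m)`, `ε'` from ESC with `m` and the `C₀` of KI2; otherwise for all `t` near `T` `∫_{|a-y(t)|>R}ρ ≤ ε` (take `R > 0`), SPR,
ESC with `L = 2R`. -/
def SpecONE : Prop := ∀ m : ℝ, 0 < m → ∃ ε : ℝ, 0 < ε ∧ ∀ P : L2 ≃ₗᵢ[ℂ] L2, IsPF P →
  ∀ (T : ℝ) (v v₁ v₂ N : ℝ → L2), 0 < T → Nls T v v₁ v₂ N → ‖v 0‖ ^ 2 = m →
  (¬ ∃ D : ℝ, ∀ t ∈ Ico 0 T, XX P (v t) ≤ D) →
  2 * Real.pi ≤ m ∧ Esc T ε (fun x => x.1) v v₂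

/-- NUE (the theorem in null coordinates).  Hypotheses ONE, MTH, BDD, PFX, TY.SpecSWP.
Proof.  BDD: `XX P (v)` or `XX P (swp v)` is unbounded; in the second case ONE for `swp v` (SWP; exchange of variables in the integrals).
If `m ≤ 0` then MTH for `v` and `swp v` (`m < 2π`) and BDD contradict the hypothesis. -/
def SpecNUE : Prop := ∀ m : ℝ, ∃ ε : ℝ, 0 < ε ∧
  ∀ (T : ℝ) (v v₁ v₂ N : ℝ → L2), 0 < T → Nls T v v₁ v₂ N → ‖v 0‖ ^ 2 = m →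
  (¬ ∃ D : ℝ, ∀ t ∈ Ico 0 T, ‖v₁ t‖ ≤ D ∧ ‖v₂ t‖ ≤ D) →
  2 * Real.pi ≤ m ∧ (Esc T ε (fun x => x.1) v v₂ ∨ Esc T ε (fun x => x.2) v v₁)

/-- FIE (the theorem).  Hypotheses NUE, TY.SpecTRF, TY.SpecCHV.
Proof.  `m = 2M`; first alternative `s = 1` (`a = x 0 - x 1` for `PhiN`, `v₂ = ½(G 0 + G 1)`), second `s = -1`; CHV. -/
def SpecFIE : Prop := ∀ M : ℝ, ∃ ε : ℝ, 0 < ε ∧
  ∀ (T : ℝ) (u : ℝ → EE → ℂ) (G : ℝ → Fin 2 → EE → ℂ), 0 < T → H1Sol T u G → nrm (u 0) ^ 2 = M →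
  (¬ ∃ D : ℝ, ∀ t ∈ Ico 0 T, nrm (G t 0) ≤ D ∧ nrm (G t 1) ≤ D) →
  Real.pi ≤ M ∧ ∃ s : ℝ, (s = 1 ∨ s = -1) ∧
    ¬ IntegrableOn (fun t => nrm (fun x => G t 0 x + (s : ℂ) * G t 1 x)) (Ico 0 T) ∧
    (¬ ∃ C : ℝ, ∀ t ∈ Ico 0 T, nrm (fun x => G t 0 x + (s : ℂ) * G t 1 x) ≤ C / (T - t)) ∧
    (∀ B : ℝ, ∀ᶠ t in 𝓝[<] T, ∀ y : ℝ,
      ENNReal.ofReal B < ∫⁻ x : EE, ENNReal.ofReal (|x 0 - s * x 1 - y| * ‖u t x‖ ^ 2)) ∧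
    (∀ (R : ℝ) (y : ℝ → ℝ), ∃ᶠ t in 𝓝[<] T,
      ε ≤ ∫ x in {x : EE | R < |x 0 - s * x 1 - y t|}, ‖u t x‖ ^ 2)

end Pool.Agent.Lib.MP424d38.ES
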