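import Pool.Agent.Lib.MP_424d38_an.SpecE
import Pool.Agent.Lib.MP_424d38_an.ES.SpecK
import Pool.Agent.Lib.MP_424d38_an.FUG

section
/-!
# MP_424d38_an, block E, module DSP: the dispersive estimate on `L² ∩ L^{4/3}`
-/
set_option autoImplicit false

open MeasureTheory Filter Topology Set
open scoped ENNReal ContDiff ComplexConjugate FourierTransform

noncomputable section

namespace Pool.Agent.Lib.MP424d38.TY

namespace DSPM

theorem one_le_ft : (1 : ℝ≥0∞) ≤ 4 / 3 := by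
  rw [ENNReal.le_div_iff_mul_le (by norm_num) (by norm_num)]
  norm_num

theorem ft_ne_top : (4 / 3 : ℝ≥0∞) ≠ ⊤ := ENNReal.div_ne_top (by norm_num) (by norm_num)

theorem ft_le_two : (4 / 3 : ℝ≥0∞) ≤ 2 := by
  rw [ENNReal.div_le_iff_le_mul (by norm_num) (by norm_num)]
  norm_num

/-- Tightness of one `L^p` function. -/
theorem tight {p : ℝ≥0∞} (hp : p ≠ ⊤) {f : ℝ × ℝ → ℂ} (hf : MemLp f p volume)
    {δ : ℝ≥0∞} (hδ : δ ≠ 0) : ∃ R₀ : ℝ, ∀ R : ℝ, R₀ ≤ R →
      eLpNorm ((Metric.ball (0 : ℝ × ℝ) R)ᶜ.indicator f) p volume ≤ δ := by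
  obtain ⟨g, hg, hfg, hgc, hgm⟩ := hf.exists_hasCompactSupport_eLpNorm_sub_le hp hδ
  obtain ⟨R₀, hR₀⟩ := hg.isCompact.isBounded.subset_ball (0 : ℝ × ℝ)
  refine ⟨R₀, fun R hR => ?_⟩
  have h1 : (Metric.ball (0 : ℝ × ℝ) R)ᶜ.indicator f =
      (Metric.ball (0 : ℝ × ℝ) R)ᶜ.indicator (f - g) := by
    refine Set.indicator_congr fun x hx => ?_
    have h2 : g x = 0 := by
      by_contra h
      exact hx (Metric.ball_subset_ball hR (hR₀ (subset_tsupport g h)))
    rw [Pi.sub_apply, h2, sub_zero]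
  rw [h1]
  exact (eLpNorm_indicator_le _).trans hfg

/-- Approximation by test functions in two norms. -/
theorem approx {f : ℝ × ℝ → ℂ} (h2 : MemLp f 2 volume) (h43 : MemLp f (4 / 3) volume)
    {ε : ℝ≥0∞} (hε : ε ≠ 0) (hε' : ε ≠ ⊤) : ∃ ψ : ℝ × ℝ → ℂ, Test ψ ∧
      eLpNorm (ψ - f) 2 volume ≤ ε ∧ eLpNorm (ψ - f) (4 / 3) volume ≤ ε := by
  have hε2 : ε / 2 ≠ 0 := (ENNReal.half_pos hε).ne'
  have hε2' : ε / 2 ≠ ⊤ := ENNReal.div_ne_top hε' (by norm_num)
  obtain ⟨R₁, hR₁⟩ := tight (by norm_num) h2 hε2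
  obtain ⟨R₂, hR₂⟩ := tight ft_ne_top h43 hε2
  set R : ℝ := max 1 (max R₁ R₂) with hR
  have hR0 : 0 < R := lt_of_lt_of_le one_pos (le_max_left _ _)
  have ht2 := hR₁ R ((le_max_left _ _).trans (le_max_right _ _))
  have ht43 := hR₂ R ((le_max_right _ _).trans (le_max_right _ _))
  set B : Set (ℝ × ℝ) := Metric.ball 0 R with hB
  have hBm : MeasurableSet B := measurableSet_ball
  set f₁ : ℝ × ℝ → ℂ := B.indicator f with hf₁
  have hsub : f₁ - f = -(Bᶜ.indicator f) := by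
    rw [Set.indicator_compl]
    abel
  have hf₁2 : MemLp f₁ 2 volume := h2.indicator hBm
  have hf₁43 : MemLp f₁ (4 / 3) volume := h43.indicator hBm
  -- the volume factor
  set V : ℝ≥0∞ := volume (Metric.ball (0 : ℝ × ℝ) (R + 1)) with hV
  have hVtop : V ≠ ⊤ := measure_ball_lt_top.ne
  set c : ℝ≥0∞ := V ^ ((4 / 3 : ℝ≥0∞).toReal⁻¹ - (2 : ℝ≥0∞).toReal⁻¹) with hc
  have hexp : 0 ≤ (4 / 3 : ℝ≥0∞).toReal⁻¹ - (2 : ℝ≥0∞).toReal⁻¹ := by
    rw [ENNReal.toReal_div]
    norm_num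
  have hctop : c ≠ ⊤ := ENNReal.rpow_ne_top_of_nonneg hexp hVtop
  obtain ⟨δ, hδ0, hδ2, hδc⟩ : ∃ δ : ℝ, 0 < δ ∧ ENNReal.ofReal δ ≤ ε / 2 ∧
      ENNReal.ofReal δ * c ≤ ε / 2 := by
    have h0 : 0 < (ε / 2).toReal := ENNReal.toReal_pos hε2 hε2'
    refine ⟨min (ε / 2).toReal ((ε / 2).toReal / (c.toReal + 1)), ?_, ?_, ?_⟩
    · have : 0 ≤ c.toReal := ENNReal.toReal_nonneg
      positivity
    · exact (ENNReal.ofReal_le_ofReal (min_le_left _ _)).trans
        (ENNReal.ofReal_toReal hε2').le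
    · have hc0 : 0 ≤ c.toReal := ENNReal.toReal_nonneg
      calc ENNReal.ofReal (min (ε / 2).toReal ((ε / 2).toReal / (c.toReal + 1))) * c
          ≤ ENNReal.ofReal ((ε / 2).toReal / (c.toReal + 1)) * ENNReal.ofReal c.toReal := by
            rw [ENNReal.ofReal_toReal hctop]
            gcongr
            exact min_le_right _ _
        _ = ENNReal.ofReal ((ε / 2).toReal / (c.toReal + 1) * c.toReal) := by
            rw [ENNReal.ofReal_mul (by positivity)]
        _ ≤ ENNReal.ofReal (ε / 2).toReal := by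
            apply ENNReal.ofReal_le_ofReal
            rw [div_mul_eq_mul_div, div_le_iff₀ (by positivity)]
            nlinarith
        _ = ε / 2 := ENNReal.ofReal_toReal hε2'
  obtain ⟨h, hh1, hh2, hh3⟩ := hf₁2.exist_eLpNorm_sub_le (by norm_num) (by norm_num) hδ0
  let χ : ContDiffBump (0 : ℝ × ℝ) := ⟨R, R + 1, hR0, by linarith⟩
  set ψ : ℝ × ℝ → ℂ := fun x => ((χ x : ℝ) : ℂ) * h x with hψ
  have hψt : Test ψ := by
    constructor
    · exact (Complex.ofRealCLM.contDiff.comp χ.contDiff).mul hh2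
    · exact hh1.mul_left
  -- pointwise comparison
  have hpt : ∀ x, ψ x - f₁ x = ((χ x : ℝ) : ℂ) * (h x - f₁ x) := by
    intro x
    by_cases hx : x ∈ B
    · have h1 : χ x = 1 := χ.one_of_mem_closedBall (Metric.ball_subset_closedBall hx)
      simp only [hψ, h1]
      simp
    · have h1 : f₁ x = 0 := Set.indicator_of_notMem hx _
      simp only [hψ, h1, sub_zero]
  have hle : ∀ x, ‖(ψ - f₁) x‖ ≤ ‖(f₁ - h) x‖ := by
    intro x
    rw [Pi.sub_apply, Pi.sub_apply, hpt, norm_mul, norm_sub_rev (h x)]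
    refine mul_le_of_le_one_left (norm_nonneg _) ?_
    rw [Complex.norm_real, Real.norm_of_nonneg χ.nonneg]
    exact χ.le_one
  have hd2 : eLpNorm (ψ - f₁) 2 volume ≤ ENNReal.ofReal δ :=
    (eLpNorm_mono hle).trans hh3
  have hψm : AEStronglyMeasurable ψ volume := hψt.1.continuous.aestronglyMeasurable
  have hsupp : Function.support (ψ - f₁) ⊆ Metric.ball (0 : ℝ × ℝ) (R + 1) := by
    intro x hx
    rw [Function.mem_support, Pi.sub_apply, hpt] at hx
    have h1 : χ x ≠ 0 := fun h0 => hx (by rw [h0]; simp)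
    have h2 : x ∈ Function.support χ := h1
    rwa [χ.support_eq] at h2
  have hd43 : eLpNorm (ψ - f₁) (4 / 3) volume ≤ ENNReal.ofReal δ * c := by
    rw [← eLpNorm_restrict_eq_of_support_subset (p := 4 / 3) hsupp]
    refine (eLpNorm_le_eLpNorm_mul_rpow_measure_univ ft_le_two
      (hψm.sub hf₁2.aestronglyMeasurable).restrict).trans ?_
    rw [Measure.restrict_apply_univ, one_div, one_div]
    gcongr
    exact (eLpNorm_restrict_le _ _ _ _).trans hd2
  refine ⟨ψ, hψt, ?_, ?_⟩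
  · have e : ψ - f = (ψ - f₁) + (f₁ - f) := by abel
    rw [e, hsub]
    refine (eLpNorm_add_le (hψm.sub hf₁2.aestronglyMeasurable)
      (h2.indicator hBm.compl).aestronglyMeasurable.neg (by norm_num)).trans ?_
    rw [eLpNorm_neg]
    calc _ ≤ ε / 2 + ε / 2 := add_le_add (hd2.trans hδ2) ht2
      _ = ε := ENNReal.add_halves ε
  · have e : ψ - f = (ψ - f₁) + (f₁ - f) := by abel
    rw [e, hsub]
    refine (eLpNorm_add_le (hψm.sub hf₁2.aestronglyMeasurable)
      (h2.indicator hBm.compl).aestronglyMeasurable.neg one_le_ft).trans ?_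
    rw [eLpNorm_neg]
    calc _ ≤ ε / 2 + ε / 2 := add_le_add (hd43.trans hδc) ht43
      _ = ε := ENNReal.add_halves ε

end DSPM

open DSPM in
theorem specDSP (hKDS : SpecKDS) (hFUK : SpecFUK) : SpecDSP := by
  intro U hU t f ht
  have hcpos : 0 < |t| ^ (-(1 / 2) : ℝ) := Real.rpow_pos_of_pos (abs_pos.2 ht) _
  by_cases htop : eLpNorm f (4 / 3) volume = ⊤
  · rw [htop, ENNReal.mul_top (by simpa using hcpos)]
    exact le_top
  have h2 : MemLp f 2 volume := Lp.memLp f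
  have h43 : MemLp f (4 / 3) volume := ⟨h2.aestronglyMeasurable, lt_top_iff_ne_top.2 htop⟩
  -- a sequence of test functions
  have hex : ∀ n : ℕ, ∃ ψ : ℝ × ℝ → ℂ, Test ψ ∧
      eLpNorm (ψ - (f : ℝ × ℝ → ℂ)) 2 volume ≤ ENNReal.ofReal (1 / ((n : ℝ) + 1)) ∧
      eLpNorm (ψ - (f : ℝ × ℝ → ℂ)) (4 / 3) volume ≤ ENNReal.ofReal (1 / ((n : ℝ) + 1)) := by
    intro n
    refine approx h2 h43 ?_ ENNReal.ofReal_ne_top
    have : (0 : ℝ) < 1 / ((n : ℝ) + 1) := by positivity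
    simpa using this
  choose ψ hψ hψ2 hψ43 using hex
  have hmem : ∀ n, MemLp (ψ n) 2 volume := fun n =>
    (hψ n).1.continuous.memLp_of_hasCompactSupport (hψ n).2
  set F : ℕ → L2 := fun n => (hmem n).toLp with hF
  have hFae : ∀ n, ∀ᵐ x : ℝ × ℝ, F n x = ψ n x := fun n => (hmem n).coeFn_toLp
  have hlim0 : Tendsto (fun n : ℕ => ENNReal.ofReal (1 / ((n : ℝ) + 1))) atTop (𝓝 0) := by
    have h := (ENNReal.continuous_ofReal.tendsto 0).comp
      (tendsto_one_div_add_atTop_nhds_zero_nat (𝕜 := ℝ))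
    simpa [Function.comp_def] using h
  have hFlim : Tendsto F atTop (𝓝 f) := by
    rw [Lp.tendsto_Lp_iff_tendsto_eLpNorm']
    refine tendsto_of_tendsto_of_tendsto_of_le_of_le tendsto_const_nhds hlim0
      (fun n => zero_le) fun n => ?_
    refine le_trans (le_of_eq (eLpNorm_congr_ae ?_)) (hψ2 n)
    filter_upwards [hFae n] with x hx
    rw [Pi.sub_apply, Pi.sub_apply, hx]
  have hUlim : Tendsto (fun n => U t (F n)) atTop (𝓝 (U t f)) :=
    ((U t).continuous.tendsto f).comp hFlim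
  obtain ⟨ns, hns, hae⟩ := (tendstoInMeasure_of_tendsto_Lp hUlim).exists_seq_tendsto_ae
  have hfat := Lp.eLpNorm_lim_le_liminf_eLpNorm (p := 4)
    (fun n => (Lp.aestronglyMeasurable (U t (F (ns n))))) (U t f) hae
  refine hfat.trans ?_
  have hbd : ∀ n, eLpNorm (U t (F n)) 4 volume ≤ ENNReal.ofReal (|t| ^ (-(1 / 2) : ℝ)) *
      (ENNReal.ofReal (1 / ((n : ℝ) + 1)) + eLpNorm f (4 / 3) volume) := by
    intro n
    have h1 : eLpNorm (U t (F n)) 4 volume = eLpNorm (KK t (ψ n)) 4 volume :=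
      eLpNorm_congr_ae (hFUK U hU t (ψ n) (F n) ht (hψ n) (hFae n))
    rw [h1]
    refine (hKDS t (ψ n) ht (hψ n)).trans ?_
    gcongr
    have e : ψ n = (ψ n - (f : ℝ × ℝ → ℂ)) + (f : ℝ × ℝ → ℂ) := by abel
    calc eLpNorm (ψ n) (4 / 3) volume = eLpNorm ((ψ n - (f : ℝ × ℝ → ℂ)) + (f : ℝ × ℝ → ℂ)) (4 / 3) volume := by rw [← e]
      _ ≤ eLpNorm (ψ n - (f : ℝ × ℝ → ℂ)) (4 / 3) volume + eLpNorm f (4 / 3) volume :=
        eLpNorm_add_le ((hψ n).1.continuous.aestronglyMeasurable.sub h2.aestronglyMeasurable)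
          h2.aestronglyMeasurable one_le_ft
      _ ≤ _ := by
        gcongr
        exact hψ43 n
  have hlim : Tendsto (fun n : ℕ => ENNReal.ofReal (|t| ^ (-(1 / 2) : ℝ)) *
      (ENNReal.ofReal (1 / ((ns n : ℝ) + 1)) + eLpNorm f (4 / 3) volume)) atTop
      (𝓝 (ENNReal.ofReal (|t| ^ (-(1 / 2) : ℝ)) * (0 + eLpNorm f (4 / 3) volume))) := by
    refine ENNReal.Tendsto.const_mul ?_ (Or.inr ENNReal.ofReal_ne_top)
    exact (hlim0.comp hns.tendsto_atTop).add tendsto_const_nhds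
  rw [zero_add] at hlim
  calc liminf (fun n => eLpNorm (U t (F (ns n))) 4 volume) atTop
      ≤ liminf (fun n => ENNReal.ofReal (|t| ^ (-(1 / 2) : ℝ)) *
        (ENNReal.ofReal (1 / ((ns n : ℝ) + 1)) + eLpNorm f (4 / 3) volume)) atTop :=
        liminf_le_liminf (Eventually.of_forall fun n => hbd (ns n))
    _ = _ := hlim.liminf_eq

end Pool.Agent.Lib.MP424d38.TY
end
end

section
/-!
# MP_424d38_an, block TY, module DUH: Duhamel's formula
-/
set_option autoImplicit false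

open MeasureTheory Filter Topology Set
open scoped ENNReal ContDiff ComplexConjugate

noncomputable section

namespace Pool.Agent.Lib.MP424d38.TY

namespace DUHM

/-- `U t` as a linear isometry -/
def LI {U : ℝ → L2 →L[ℂ] L2} (hU : IsProp U) (t : ℝ) : L2 →ₗᵢ[ℂ] L2 :=
  ⟨(U t).toLinearMap, hU.norm t⟩

theorem inner_UU {U : ℝ → L2 →L[ℂ] L2} (hU : IsProp U) (t : ℝ) (f g : L2) :
    inner ℂ (U t f) (U t g) = inner ℂ f g := (LI hU t).inner_map_map f g

theorem U_neg {U : ℝ → L2 →L[ℂ] L2} (hU : IsProp U) (t : ℝ) (f : L2) : U t (U (-t) f) = f := by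
  rw [← hU.add, add_neg_cancel, hU.zero]

theorem U_neg' {U : ℝ → L2 →L[ℂ] L2} (hU : IsProp U) (t : ℝ) (f : L2) : U (-t) (U t f) = f := by
  rw [← hU.add, neg_add_cancel, hU.zero]

theorem inner_U_neg {U : ℝ → L2 →L[ℂ] L2} (hU : IsProp U) (t : ℝ) (f g : L2) :
    inner ℂ (U (-t) f) g = inner ℂ f (U t g) := by
  rw [← inner_UU hU t (U (-t) f) g, U_neg hU]

/-- joint continuity -/
theorem contOn {U : ℝ → L2 →L[ℂ] L2} (hU : IsProp U) {c : ℝ → ℝ} {F : ℝ → L2} {S : Set ℝ}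
    (hc : ContinuousOn c S) (hF : ContinuousOn F S) : ContinuousOn (fun t => U (c t) (F t)) S := by
  intro t0 ht0
  have h1 : Tendsto (fun t => U (c t) (F t0)) (𝓝[S] t0) (𝓝 (U (c t0) (F t0))) :=
    ((hU.cont (F t0)).tendsto _).comp (hc t0 ht0)
  have h2 : Tendsto (fun t => U (c t) (F t - F t0)) (𝓝[S] t0) (𝓝 0) := by
    rw [tendsto_zero_iff_norm_tendsto_zero]
    simp_rw [hU.norm]
    rw [← tendsto_zero_iff_norm_tendsto_zero]
    have := (hF t0 ht0).sub_const (F t0)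
    simpa using this
  have h3 := h1.add h2
  rw [add_zero] at h3
  refine h3.congr fun t => ?_
  rw [← map_add]
  congr 1
  abel

theorem inner_eq (f g : L2) : inner ℂ f g = ∫ x, conj (f x) * g x := by
  rw [L2.inner_def]
  refine integral_congr_ae (Eventually.of_forall fun x => ?_)
  simp only [RCLike.inner_apply]
  ring

/-- an `L2` function orthogonal to all real test functions is zero -/
theorem eq_zero_of_test (Y : L2)
    (h : ∀ g : ℝ × ℝ → ℝ, ContDiff ℝ ∞ g → HasCompactSupport g →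
      ∀ f : L2, (∀ᵐ x : ℝ × ℝ, f x = (g x : ℂ)) → inner ℂ Y f = 0) : Y = 0 := by
  have h0 : ∀ᵐ x : ℝ × ℝ, conj (Y x) = 0 := by
    apply ae_eq_zero_of_integral_contDiff_smul_eq_zero
    · have h2 : MemLp (fun x => conj (Y x)) 2 volume := by
        refine (Lp.memLp Y).congr_norm ?_ (Eventually.of_forall fun x => ?_)
        · exact Complex.continuous_conj.comp_aestronglyMeasurable (Lp.aestronglyMeasurable Y)
        · simp
      exact h2.locallyIntegrable one_le_two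
    · intro g g_smooth g_cpt
      have hm : MemLp (fun x => (g x : ℂ)) 2 volume := by
        have hc : Continuous fun x => (g x : ℂ) :=
          Complex.continuous_ofReal.comp g_smooth.continuous
        exact hc.memLp_of_hasCompactSupport (g_cpt.comp_left (g := fun y : ℝ => (y : ℂ)) rfl)
      have := h g g_smooth g_cpt hm.toLp hm.coeFn_toLp
      rw [inner_eq] at this
      rw [← this]
      refine integral_congr_ae ?_
      filter_upwards [hm.coeFn_toLp] with x hx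
      rw [hx, Complex.real_smul, mul_comm]
  rw [Lp.eq_zero_iff_ae_eq_zero]
  filter_upwards [h0] with x hx
  simpa using hx

theorem test_h1 (hTH1 : SpecTH1) {g : ℝ × ℝ → ℝ} (g_smooth : ContDiff ℝ ∞ g)
    (g_cpt : HasCompactSupport g) {f : L2} (hf : ∀ᵐ x : ℝ × ℝ, f x = (g x : ℂ)) :
    ∃ F₁ F₂ : L2, IsH1 f F₁ F₂ := by
  set ψ : ℝ × ℝ → ℂ := fun x => (g x : ℂ) with hψ
  have hψs : ContDiff ℝ ∞ ψ := Complex.ofRealCLM.contDiff.comp g_smooth
  have hψc : HasCompactSupport ψ := g_cpt.comp_left (g := fun y : ℝ => (y : ℂ)) rfl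
  have hfd : Continuous (fderiv ℝ ψ) := hψs.continuous_fderiv (by simp)
  have hfc : HasCompactSupport (fderiv ℝ ψ) := hψc.fderiv ℝ
  have m : ∀ v : ℝ × ℝ, MemLp (fun x => fderiv ℝ ψ x v) 2 volume := by
    intro v
    have hc : Continuous fun x => fderiv ℝ ψ x v := hfd.clm_apply continuous_const
    refine hc.memLp_of_hasCompactSupport ?_
    exact hfc.comp_left (g := fun L : (ℝ × ℝ) →L[ℝ] ℂ => L v) rfl
  refine ⟨(m (1, 0)).toLp, (m (0, 1)).toLp, hTH1 ψ (hψs.of_le (by simp)) hψc f _ _ hf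
    (m (1, 0)).coeFn_toLp (m (0, 1)).coeFn_toLp⟩

theorem lin_U {U : ℝ → L2 →L[ℂ] L2} (hU : IsProp U) (T : ℝ) {f F₁ F₂ : L2} (hf : IsH1 f F₁ F₂) :
    Lin T (fun t => U t f) (fun t => U t F₁) (fun t => U t F₂) (fun _ => 0) where
  h1 t _ := hU.h1 t f F₁ F₂ hf
  cv := (hU.cont f).continuousOn
  c1 := (hU.cont F₁).continuousOn
  c2 := (hU.cont F₂).continuousOn
  cN := continuousOn_const
  eq ψ hψ s t hs hst ht := by
    rw [hU.eq f F₁ F₂ hf ψ hψ s t hst]
    refine intervalIntegral.integral_congr fun r _ => ?_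
    have : ∫ x : ℝ × ℝ, (0 : L2) x * ψ x = 0 := by
      have h0 : ∫ x : ℝ × ℝ, (0 : L2) x * ψ x = ∫ x : ℝ × ℝ, (0 : ℂ) := by
        refine integral_congr_ae ?_
        filter_upwards [Lp.coeFn_zero ℂ 2 (volume : Measure (ℝ × ℝ))] with x hx
        rw [hx]; simp
      rw [h0]; simp
    simp only [this, add_zero]

end DUHM

open DUHM

theorem specDUH (hBIL : SpecBIL) (hTH1 : SpecTH1) : SpecDUH := by
  intro U hU T v v₁ v₂ N hL t ht
  have ht0 : 0 ≤ t := ht.1
  have htT : t < T := ht.2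
  have hsub : uIcc 0 t ⊆ Ico 0 T := by
    rw [uIcc_of_le ht0]
    intro s hs
    exact ⟨hs.1, lt_of_le_of_lt hs.2 htT⟩
  have hcont : ContinuousOn (fun s => U (-s) (N s)) (uIcc 0 t) :=
    contOn hU (continuous_neg.continuousOn) (hL.cN.mono hsub)
  have hii : IntervalIntegrable (fun s => U (-s) (N s)) volume 0 t := hcont.intervalIntegrable
  rw [← sub_eq_zero]
  apply eq_zero_of_test
  intro g g_smooth g_cpt f hf
  obtain ⟨F₁, F₂, hf1⟩ := test_h1 hTH1 g_smooth g_cpt hf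
  have hw := lin_U hU T hf1
  have hβ : Cb1 (fun _ => (1 : ℝ)) := by
    refine ⟨contDiff_const, 1, fun a => ?_⟩
    simp
  have hB := hBIL T v v₁ v₂ N _ _ _ _ hL hw (fun _ => (1 : ℝ)) hβ 0 t le_rfl ht0 htT
  have e1 : ∀ (a b : L2), ∫ x : ℝ × ℝ, (((1 : ℝ) : ℝ) : ℂ) * (conj (a x) * b x) = inner ℂ a b := by
    intro a b
    rw [inner_eq]
    refine integral_congr_ae (Eventually.of_forall fun x => ?_)
    simp
  simp only [e1] at hB
  have e2 : ∀ r, (4 * Complex.I * (∫ x : ℝ × ℝ, ((deriv (fun _ : ℝ => (1 : ℝ)) x.1 : ℝ) : ℂ) *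
      (conj (v₂ r x) * U r f x)) + Complex.I * ∫ x : ℝ × ℝ, (((1 : ℝ) : ℝ) : ℂ) *
      (conj (v r x) * (0 : L2) x - conj (N r x) * U r f x)) = - Complex.I * inner ℂ (N r) (U r f) := by
    intro r
    have a1 : ∫ x : ℝ × ℝ, ((deriv (fun _ : ℝ => (1 : ℝ)) x.1 : ℝ) : ℂ) *
      (conj (v₂ r x) * U r f x) = 0 := by simp
    have a2 : ∫ x : ℝ × ℝ, (((1 : ℝ) : ℝ) : ℂ) *
      (conj (v r x) * (0 : L2) x - conj (N r x) * U r f x) = - inner ℂ (N r) (U r f) := by
      rw [inner_eq, ← integral_neg]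
      refine integral_congr_ae ?_
      filter_upwards [Lp.coeFn_zero ℂ 2 (volume : Measure (ℝ × ℝ))] with x hx
      rw [hx]; simp
    rw [a1, a2]
    ring
  simp only [e2] at hB
  rw [hU.zero, intervalIntegral.integral_const_mul] at hB
  rw [inner_sub_left, inner_add_left, inner_smul_left, inner_U_neg hU]
  have e3 : inner ℂ (∫ s in (0 : ℝ)..t, U (-s) (N s)) f =
      ∫ s in (0 : ℝ)..t, inner ℂ (N s) (U s f) := by
    have h1 : inner ℂ f (∫ s in (0 : ℝ)..t, U (-s) (N s)) =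
        ∫ s in (0 : ℝ)..t, inner ℂ f (U (-s) (N s)) := by
      have := (innerSL ℂ f).intervalIntegral_comp_comm hii
      simpa using this.symm
    rw [← inner_conj_symm, h1]
    have h2 : conj (∫ s in (0 : ℝ)..t, inner ℂ f (U (-s) (N s))) =
        ∫ s in (0 : ℝ)..t, conj (inner ℂ f (U (-s) (N s))) := by
      rw [intervalIntegral.integral_of_le ht0, intervalIntegral.integral_of_le ht0,
        ← integral_conj]
    rw [h2]
    refine intervalIntegral.integral_congr fun s _ => ?_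
    rw [inner_conj_symm, inner_U_neg hU]
  rw [e3, Complex.conj_I]
  rw [sub_eq_iff_eq_add] at hB
  rw [hB]
  ring

end Pool.Agent.Lib.MP424d38.TY
end
end

section
set_option autoImplicit false

open MeasureTheory Filter Topology Set
open scoped ENNReal NNReal ContDiff ComplexConjugate FourierTransform

noncomputable section

namespace Pool.Agent.Lib.MP424d38.TY.FUEM

theorem inner_toE (f g : L2) : inner ℂ (toE f) (toE g) = inner ℂ f g := by
  have h := (Lp.compMeasurePreservingₗᵢ (p := 2) (E := ℂ) ℂ prE prE_mp).inner_map_map f g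
  exact h

/-- Parseval -/
theorem parseval (f g : L2) : ∫ x, conj (f x) * g x
    = ∫ k, conj ((𝓕 (toE f) : L2E) k) * (𝓕 (toE g) : L2E) k := by
  have h1 : inner ℂ f g = ∫ x, conj (f x) * g x := by
    rw [L2.inner_def]
    refine integral_congr_ae (Eventually.of_forall fun x => ?_)
    simp only [RCLike.inner_apply]
    rw [mul_comm]
  have h2 : inner ℂ (𝓕 (toE f) : L2E) (𝓕 (toE g) : L2E)
      = ∫ k, conj ((𝓕 (toE f) : L2E) k) * (𝓕 (toE g) : L2E) k := by
    rw [L2.inner_def]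
    refine integral_congr_ae (Eventually.of_forall fun x => ?_)
    simp only [RCLike.inner_apply]
    rw [mul_comm]
  rw [← h1, ← h2, Lp.inner_fourier_eq, inner_toE]

theorem integrable_pair (f g : L2E) : Integrable (fun k => conj (f k) * g k) := by
  have h := L2.integrable_inner (𝕜 := ℂ) f g
  refine h.congr (Eventually.of_forall fun x => ?_)
  simp only [RCLike.inner_apply]
  rw [mul_comm]

theorem norm_sym (t : ℝ) (k : E2) : ‖sym t k‖ = 1 := by
  unfold sym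
  exact Complex.norm_exp_ofReal_mul_I _

theorem cont_prE : Continuous prE := WithLp.prod_continuous_ofLp 2 ℝ ℝ

theorem cont_sym (t : ℝ) : Continuous (sym t) := by
  unfold sym
  have h := cont_prE
  have h1 : Continuous fun k : E2 => (prE k).1 := continuous_fst.comp h
  have h2 : Continuous fun k : E2 => (prE k).2 := continuous_snd.comp h
  fun_prop

theorem deriv_sym (t : ℝ) (k : E2) :
    HasDerivAt (fun t : ℝ => sym t k)
      (((-(16 * Real.pi ^ 2 * (prE k).1 * (prE k).2) : ℝ) : ℂ) * Complex.I * sym t k) t := by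
  unfold sym
  have h1 : HasDerivAt (fun t : ℝ => ((-(16 * Real.pi ^ 2 * t * (prE k).1 * (prE k).2) : ℝ) : ℂ) * Complex.I)
      (((-(16 * Real.pi ^ 2 * (prE k).1 * (prE k).2) : ℝ) : ℂ) * Complex.I) t := by
    have h2 : HasDerivAt (fun t : ℝ => (-(16 * Real.pi ^ 2 * t * (prE k).1 * (prE k).2) : ℝ))
        (-(16 * Real.pi ^ 2 * (prE k).1 * (prE k).2)) t := by
      have h3 := ((hasDerivAt_id t).const_mul (-(16 * Real.pi ^ 2 * (prE k).1 * (prE k).2)))
      simp only [mul_one] at h3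
      refine h3.congr_of_eventuallyEq (Eventually.of_forall fun s => ?_)
      simp only [id]
      ring
    exact h2.ofReal_comp.mul_const _
  exact h1.cexp.congr_deriv (by ring)

theorem test_conj {ψ : ℝ × ℝ → ℂ} (h : Test ψ) : Test (fun x => conj (ψ x)) := by
  refine ⟨Complex.conjCLE.contDiff.comp h.1, ?_⟩
  exact h.2.comp_left (g := fun z : ℂ => conj z) (by simp)

theorem d1_conj {ψ : ℝ × ℝ → ℂ} (h : Test ψ) (x : ℝ × ℝ) :
    d1 (fun x => conj (ψ x)) x = conj (d1 ψ x) := by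
  unfold d1
  have hd : DifferentiableAt ℝ ψ x := (h.1.differentiable (by simp)).differentiableAt
  have := (Complex.conjCLE.toContinuousLinearMap.hasFDerivAt (x := ψ x)).comp x hd.hasFDerivAt
  have e := this.fderiv
  have e2 : (fun x => conj (ψ x)) = (Complex.conjCLE.toContinuousLinearMap) ∘ ψ := by
    funext y
    simp
  rw [e2, e]
  simp

theorem memLp_test {ψ : ℝ × ℝ → ℂ} (h : Test ψ) : MemLp ψ 2 volume :=
  h.1.continuous.memLp_of_hasCompactSupport h.2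

theorem test_d {ψ : ℝ × ℝ → ℂ} (h : Test ψ) (v : ℝ × ℝ) : Test (fun x => fderiv ℝ ψ x v) := by
  refine ⟨?_, ?_⟩
  · exact (h.1.fderiv_right (m := ∞) (by simp)).clm_apply contDiff_const
  · exact (h.2.fderiv_apply ℝ v)

end Pool.Agent.Lib.MP424d38.TY.FUEM

namespace Pool.Agent.Lib.MP424d38.TY

open FUEM

theorem specFUE (hFWD : SpecFWD) (hTH1 : SpecTH1) (hFUG : SpecFUG) : SpecFUE := by
  intro U hU f F₁ F₂ hf ψ hψ s t hst
  obtain ⟨-, -, -, hcont⟩ := hFUG U hU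
  set φ : ℝ × ℝ → ℂ := fun x => conj (ψ x) with hφdef
  have hφ : Test φ := test_conj hψ
  have m0 : MemLp φ 2 volume := memLp_test hφ
  have m1 : MemLp (d1 φ) 2 volume := memLp_test (test_d hφ (1, 0))
  have m2 : MemLp (d2 φ) 2 volume := memLp_test (test_d hφ (0, 1))
  set P : L2 := m0.toLp φ with hP
  set P₁ : L2 := m1.toLp (d1 φ) with hP₁
  set P₂ : L2 := m2.toLp (d2 φ) with hP₂
  have hH : IsH1 P P₁ P₂ := hTH1 φ (hφ.1.of_le (by simp)) hφ.2 P P₁ P₂ m0.coeFn_toLp m1.coeFn_toLp m2.coeFn_toLp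
  -- M
  have hM : ∀ r : ℝ, (∫ x, U r f x * ψ x) = ∫ k, conj ((𝓕 (toE P) : L2E) k) * (sym r k * (𝓕 (toE f) : L2E) k) := by
    intro r
    have e1 : (∫ x, U r f x * ψ x) = ∫ x, conj (P x) * U r f x := by
      refine integral_congr_ae ?_
      filter_upwards [m0.coeFn_toLp] with x hx
      rw [hP, hx, hφdef]
      simp only [Complex.conj_conj]
      ring
    rw [e1, parseval]
    refine integral_congr_ae ?_
    filter_upwards [hU r f] with k hk
    rw [hk]
  have hM1 : ∀ r : ℝ, (∫ x, U r F₂ x * d1 ψ x) =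
      ∫ k, conj ((𝓕 (toE P₁) : L2E) k) * (sym r k * (𝓕 (toE F₂) : L2E) k) := by
    intro r
    have e1 : (∫ x, U r F₂ x * d1 ψ x) = ∫ x, conj (P₁ x) * U r F₂ x := by
      refine integral_congr_ae ?_
      filter_upwards [m1.coeFn_toLp] with x hx
      rw [hP₁, hx, hφdef, d1_conj hψ]
      simp only [Complex.conj_conj]
      ring
    rw [e1, parseval]
    refine integral_congr_ae ?_
    filter_upwards [hU r F₂] with k hk
    rw [hk]
  -- Fourier side
  obtain ⟨w1, -⟩ := (hFWD P P₁ P₂).1 hH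
  obtain ⟨-, w2⟩ := (hFWD f F₁ F₂).1 hf
  have hder : ∀ r : ℝ, HasDerivAt (fun r : ℝ => ∫ x, U r f x * ψ x)
      (Complex.I * (-4 * ∫ x, U r F₂ x * d1 ψ x)) r := by
    intro r
    have hM' : (fun r : ℝ => ∫ x, U r f x * ψ x) =
        fun r : ℝ => ∫ k, conj ((𝓕 (toE P) : L2E) k) * (sym r k * (𝓕 (toE f) : L2E) k) := funext hM
    rw [hM', hM1 r]
    have ha : AEStronglyMeasurable (fun k => (𝓕 (toE P) : L2E) k) volume := Lp.aestronglyMeasurable _
    have hb : AEStronglyMeasurable (fun k => (𝓕 (toE f) : L2E) k) volume := Lp.aestronglyMeasurable _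
    have hca : AEStronglyMeasurable (fun k => conj ((𝓕 (toE P) : L2E) k)) volume :=
      Complex.continuous_conj.comp_aestronglyMeasurable ha
    have hp1 : Continuous fun k : E2 => (prE k).1 := continuous_fst.comp cont_prE
    have hp2 : Continuous fun k : E2 => (prE k).2 := continuous_snd.comp cont_prE
    have key := hasDerivAt_integral_of_dominated_loc_of_deriv_le (𝕜 := ℝ) (μ := (volume : Measure E2))
      (s := univ) (x₀ := r)
      (F := fun (r : ℝ) k => conj ((𝓕 (toE P) : L2E) k) * (sym r k * (𝓕 (toE f) : L2E) k))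
      (F' := fun (r : ℝ) k => conj ((𝓕 (toE P) : L2E) k) *
        ((((-(16 * Real.pi ^ 2 * (prE k).1 * (prE k).2) : ℝ) : ℂ) * Complex.I * sym r k) * (𝓕 (toE f) : L2E) k))
      (bound := fun k => 4 * ‖conj ((𝓕 (toE P₁) : L2E) k) * (𝓕 (toE F₂) : L2E) k‖)
      univ_mem ?_ ?_ ?_ ?_ ?_ ?_
    · have e : (∫ k, conj ((𝓕 (toE P) : L2E) k) *
        ((((-(16 * Real.pi ^ 2 * (prE k).1 * (prE k).2) : ℝ) : ℂ) * Complex.I * sym r k) * (𝓕 (toE f) : L2E) k))
          = Complex.I * (-4 * ∫ k, conj ((𝓕 (toE P₁) : L2E) k) * (sym r k * (𝓕 (toE F₂) : L2E) k)) := by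
        rw [← integral_const_mul, ← integral_const_mul]
        refine integral_congr_ae ?_
        filter_upwards [w1, w2] with k h1 h2
        rw [h1, h2]
        simp only [map_mul, Complex.conj_I, Complex.conj_ofReal, map_ofNat]
        push_cast
        ring_nf
        rw [show Complex.I ^ 3 = -Complex.I by rw [pow_succ, Complex.I_sq]; ring]
        ring
      rw [← e]
      exact key.2
    · refine Eventually.of_forall fun u => ?_
      exact hca.mul ((cont_sym u).aestronglyMeasurable.mul hb)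
    · have h := integrable_pair (𝓕 (toE P) : L2E) (𝓕 (toE f) : L2E)
      refine h.norm.mono' (hca.mul ((cont_sym r).aestronglyMeasurable.mul hb)) (Eventually.of_forall fun k => ?_)
      rw [norm_mul, norm_mul, norm_sym, one_mul, norm_mul]
    · have hc : Continuous fun k : E2 => (((-(16 * Real.pi ^ 2 * (prE k).1 * (prE k).2) : ℝ) : ℂ) * Complex.I * sym r k) := by
        have := cont_sym r
        fun_prop
      exact hca.mul (hc.aestronglyMeasurable.mul hb)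
    · filter_upwards [w1, w2] with k h1 h2 u _
      rw [h1, h2]
      simp only [norm_mul, norm_sym, RCLike.norm_conj, Complex.norm_I, Complex.norm_real, Complex.norm_ofNat,
        mul_one, norm_neg, norm_pow]
      have h16 : ‖(16 : ℝ)‖ = 16 := by norm_num
      rw [h16]
      apply le_of_eq
      ring
    · exact ((integrable_pair (𝓕 (toE P₁) : L2E) (𝓕 (toE F₂) : L2E)).norm.const_mul 4)
    · refine Eventually.of_forall fun k u _ => ?_
      exact ((deriv_sym u k).mul_const _).const_mul _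
  have hc : Continuous fun r : ℝ => Complex.I * (-4 * ∫ x, U r F₂ x * d1 ψ x) := by
    have e : (fun r : ℝ => ∫ x, U r F₂ x * d1 ψ x) = fun r => inner ℂ P₁ (U r F₂) := by
      funext r
      rw [L2.inner_def]
      refine integral_congr_ae ?_
      filter_upwards [m1.coeFn_toLp] with x hx
      rw [hP₁, hx, hφdef, d1_conj hψ]
      simp only [RCLike.inner_apply, Complex.conj_conj]
    have h2 : Continuous fun r : ℝ => ∫ x, U r F₂ x * d1 ψ x := by
      rw [e]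
      exact continuous_const.inner (hcont F₂)
    exact continuous_const.mul (continuous_const.mul h2)
  have hft := intervalIntegral.integral_eq_sub_of_hasDerivAt (a := s) (b := t)
    (f := fun r : ℝ => ∫ x, U r f x * ψ x) (f' := fun r : ℝ => Complex.I * (-4 * ∫ x, U r F₂ x * d1 ψ x))
    (fun x _ => hder x) (hc.intervalIntegrable s t)
  exact hft.symm

end Pool.Agent.Lib.MP424d38.TY
end
end

section
set_option autoImplicit false

open MeasureTheory Filter Topology Set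
open scoped ENNReal ContDiff ComplexConjugate FourierTransform SchwartzMap

noncomputable section

namespace Pool.Agent.Lib.MP424d38.TY

theorem specFUH (hFWD : SpecFWD) : SpecFUH := by
  intro U hU t f F₁ F₂ h
  have h' := (hFWD f F₁ F₂).1 h
  refine (hFWD _ _ _).2 ?_
  obtain ⟨h1, h2⟩ := h'
  constructor
  · filter_upwards [hU t f, hU t F₁, h1] with k a b c
    rw [a, b, c]; ring
  · filter_upwards [hU t f, hU t F₂, h2] with k a b c
    rw [a, b, c]; ring

end Pool.Agent.Lib.MP424d38.TY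
end
end

section
/-!
# FUK: the kernel of the free group
-/
set_option autoImplicit false

open MeasureTheory Filter Topology Set
open scoped ENNReal ContDiff ComplexConjugate FourierTransform SchwartzMap

noncomputable section

namespace Pool.Agent.Lib.MP424d38.TY

namespace FUKM

/-! ### temperate growth of the symbol -/

theorem iter (n : ℕ) : iteratedDeriv n (fun s : ℝ => Complex.exp ((s : ℂ) * Complex.I))
    = fun s : ℝ => Complex.I ^ n * Complex.exp ((s : ℂ) * Complex.I) := by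
  induction n with
  | zero => simp
  | succ n ih =>
    rw [iteratedDeriv_succ, ih]
    funext s
    have h1 : HasDerivAt (fun s : ℝ => Complex.exp ((s : ℂ) * Complex.I))
        (Complex.exp ((s : ℂ) * Complex.I) * (1 * Complex.I)) s := by
      have h2 : HasDerivAt (fun s : ℝ => (s : ℂ) * Complex.I) (1 * Complex.I) s :=
        (HasDerivAt.ofReal_comp (hasDerivAt_id s)).mul_const Complex.I
      exact h2.cexp
    rw [(h1.const_mul (Complex.I ^ n)).deriv]
    ring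

theorem exp_tg : (fun s : ℝ => Complex.exp ((s : ℂ) * Complex.I)).HasTemperateGrowth := by
  refine ⟨?_, fun n => ⟨0, 1, fun s => ?_⟩⟩
  · have h1 : ContDiff ℝ ∞ (fun s : ℝ => (s : ℂ) * Complex.I) :=
      Complex.ofRealCLM.contDiff.mul contDiff_const
    exact h1.cexp
  · rw [norm_iteratedFDeriv_eq_norm_iteratedDeriv, iter]
    simp [Complex.norm_exp]

/-- the coordinates as continuous linear maps. -/
def c1 : E2 →L[ℝ] ℝ := (ContinuousLinearMap.fst ℝ ℝ ℝ).comp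
  (WithLp.prodContinuousLinearEquiv 2 ℝ ℝ ℝ : E2 →L[ℝ] ℝ × ℝ)

def c2 : E2 →L[ℝ] ℝ := (ContinuousLinearMap.snd ℝ ℝ ℝ).comp
  (WithLp.prodContinuousLinearEquiv 2 ℝ ℝ ℝ : E2 →L[ℝ] ℝ × ℝ)

theorem c1_apply (k : E2) : c1 k = (prE k).1 := rfl
theorem c2_apply (k : E2) : c2 k = (prE k).2 := rfl

theorem sym_tg (t : ℝ) : (sym t).HasTemperateGrowth := by
  have h1 : (fun k : E2 => -(16 * Real.pi ^ 2 * t) * (c1 k * c2 k)).HasTemperateGrowth := by
    have := (Function.HasTemperateGrowth.const (E := E2) (-(16 * Real.pi ^ 2 * t))).mul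
      (c1.hasTemperateGrowth.mul c2.hasTemperateGrowth)
    exact this
  have h2 := exp_tg.comp h1
  convert h2 using 1
  funext k
  simp only [sym, Function.comp, c1_apply, c2_apply]
  congr 2
  push_cast
  ring

/-! ### transport of test functions -/

/-- `ψ ∘ prE` as a Schwartz function. -/
def scw (ψ : ℝ × ℝ → ℂ) (h : Test ψ) : 𝓢(E2, ℂ) :=
  HasCompactSupport.toSchwartzMap (f := ψ ∘ (WithLp.prodContinuousLinearEquiv 2 ℝ ℝ ℝ))
    (h.2.comp_homeomorph (WithLp.prodContinuousLinearEquiv 2 ℝ ℝ ℝ).toHomeomorph)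
    (h.1.comp (WithLp.prodContinuousLinearEquiv 2 ℝ ℝ ℝ).contDiff)

theorem scw_apply (ψ : ℝ × ℝ → ℂ) (h : Test ψ) (x : E2) : scw ψ h x = ψ (prE x) := rfl

theorem toE_coe (f : L2) : ∀ᵐ x : E2, toE f x = f (prE x) :=
  Lp.coeFn_compMeasurePreserving f prE_mp

theorem toE_eq (f : L2) (ψ : ℝ × ℝ → ℂ) (h : Test ψ) (hf : ∀ᵐ x : ℝ × ℝ, f x = ψ x) :
    toE f = (scw ψ h).toLp 2 := by
  apply Lp.ext
  filter_upwards [toE_coe f, (scw ψ h).coeFn_toLp 2, prE_mp.quasiMeasurePreserving.ae hf]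
    with x h1 h2 h3
  rw [h1, h2, h3, scw_apply]

theorem inner_inE (v : E2) (a b : ℝ) : inner ℝ v (inE (a, b)) = a * (prE v).1 + b * (prE v).2 := by
  simp [WithLp.prod_inner_apply, prE, inE]

theorem int_E2 (F : E2 → ℂ) : ∫ v : E2, F v = ∫ y : ℝ × ℝ, F (inE y) :=
  (inE_mp.integral_comp' (f := MeasurableEquiv.toLp 2 (ℝ × ℝ)) F).symm

/-! ### the partial transform -/

/-- partial Fourier transform in the second variable. -/
def pt (ψ : ℝ × ℝ → ℂ) (k : ℝ) (a : ℝ) : ℂ :=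
  ∫ b : ℝ, Complex.exp (((-2 * Real.pi * b * k : ℝ) : ℂ) * Complex.I) * ψ (a, b)

theorem norm_e (x : ℝ) : ‖Complex.exp ((x : ℂ) * Complex.I)‖ = 1 := Complex.norm_exp_ofReal_mul_I x

theorem pt_cont (ψ : ℝ × ℝ → ℂ) (h : Test ψ) (k : ℝ) : Continuous (pt ψ k) := by
  have hc : Continuous ψ := h.1.continuous
  obtain ⟨M, hM⟩ := hc.bounded_above_of_compact_support h.2
  have hK : IsCompact (Prod.snd '' tsupport ψ) := h.2.isCompact.image continuous_snd
  refine continuous_of_dominated (bound := (Prod.snd '' tsupport ψ).indicator fun _ => M) ?_ ?_ ?_ ?_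
  · intro a
    have : Continuous fun b : ℝ => Complex.exp (((-2 * Real.pi * b * k : ℝ) : ℂ) * Complex.I) *
        ψ (a, b) := by fun_prop
    exact this.aestronglyMeasurable
  · intro a
    refine Eventually.of_forall fun b => ?_
    rw [norm_mul, norm_e, one_mul]
    by_cases hb : b ∈ Prod.snd '' tsupport ψ
    · rw [indicator_of_mem hb]; exact hM _
    · rw [indicator_of_notMem hb]
      have : ψ (a, b) = 0 := by
        by_contra h0
        exact hb ⟨(a, b), subset_tsupport _ h0, rfl⟩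
      rw [this, norm_zero]
  · exact (integrable_indicator_iff hK.measurableSet).2 (integrableOn_const hK.measure_lt_top.ne)
  · refine Eventually.of_forall fun b => ?_
    fun_prop

theorem pt_supp (ψ : ℝ × ℝ → ℂ) (h : Test ψ) (k : ℝ) : HasCompactSupport (pt ψ k) := by
  refine HasCompactSupport.intro (h.2.isCompact.image continuous_fst) fun a ha => ?_
  unfold pt
  have : ∀ b : ℝ, ψ (a, b) = 0 := by
    intro b
    by_contra h0
    exact ha ⟨(a, b), subset_tsupport _ h0, rfl⟩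
  simp [this]

theorem pt_int (ψ : ℝ × ℝ → ℂ) (h : Test ψ) (k : ℝ) : Integrable (pt ψ k) :=
  (pt_cont ψ h k).integrable_of_hasCompactSupport (pt_supp ψ h k)

theorem int_mod (ψ : ℝ × ℝ → ℂ) (h : Test ψ) (θ : ℝ × ℝ → ℝ) (hθ : Continuous θ) :
    Integrable (fun y : ℝ × ℝ => Complex.exp (((θ y : ℝ) : ℂ) * Complex.I) * ψ y)
      (volume.prod volume) := by
  have hc : Continuous ψ := h.1.continuous
  have h1 : Continuous (fun y : ℝ × ℝ => Complex.exp (((θ y : ℝ) : ℂ) * Complex.I) * ψ y) := by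
    fun_prop
  exact h1.integrable_of_hasCompactSupport h.2.mul_left

theorem four_scw (ψ : ℝ × ℝ → ℂ) (h : Test ψ) (k₁ k₂ : ℝ) :
    (𝓕 (scw ψ h) : 𝓢(E2, ℂ)) (inE (k₁, k₂)) = 𝓕 (pt ψ k₂) k₁ := by
  rw [SchwartzMap.fourier_coe, Real.fourier_eq', Real.fourier_real_eq_integral_exp_smul, int_E2]
  have h1 : ∀ y : ℝ × ℝ,
      Complex.exp (((-2 * Real.pi * inner ℝ (inE y) (inE (k₁, k₂)) : ℝ) : ℂ) * Complex.I) •
        (scw ψ h) (inE y) =
      Complex.exp (((-2 * Real.pi * (k₁ * y.1 + k₂ * y.2) : ℝ) : ℂ) * Complex.I) * ψ y := by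
    intro y
    rw [inner_inE, smul_eq_mul, scw_apply]
    rfl
  rw [integral_congr_ae (Eventually.of_forall h1), Measure.volume_eq_prod,
    integral_prod _ (int_mod ψ h _ (by fun_prop))]
  apply integral_congr_ae
  refine Eventually.of_forall fun a => ?_
  simp only [pt, smul_eq_mul]
  rw [← integral_const_mul]
  apply integral_congr_ae
  refine Eventually.of_forall fun b => ?_
  simp only []
  rw [← mul_assoc, ← Complex.exp_add]
  congr 2
  push_cast
  ring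

/-- the function `sym t · 𝓕ψ` as a Schwartz function. -/
def GG (t : ℝ) (ψ : ℝ × ℝ → ℂ) (h : Test ψ) : 𝓢(E2, ℂ) :=
  SchwartzMap.smulLeftCLM ℂ (sym t) (𝓕 (scw ψ h) : 𝓢(E2, ℂ))

theorem GG_apply (t : ℝ) (ψ : ℝ × ℝ → ℂ) (h : Test ψ) (k : E2) :
    GG t ψ h k = sym t k * (𝓕 (scw ψ h) : 𝓢(E2, ℂ)) k := by
  rw [GG, SchwartzMap.smulLeftCLM_apply_apply (sym_tg t), smul_eq_mul]

theorem int_inE (G : 𝓢(E2, ℂ)) : Integrable (fun y : ℝ × ℝ => G (inE y)) (volume.prod volume) := by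
  have := inE_mp.integrable_comp_of_integrable (g := fun k => G k) G.integrable
  exact this

theorem kernel (t : ℝ) (ht : t ≠ 0) (ψ : ℝ × ℝ → ℂ) (h : Test ψ) (a b : ℝ) :
    (𝓕⁻ (GG t ψ h) : 𝓢(E2, ℂ)) (inE (a, b)) = KK t ψ (a, b) := by
  have hπ : Real.pi ≠ 0 := Real.pi_ne_zero
  rw [SchwartzMap.fourierInv_coe, Real.fourierInv_eq', int_E2]
  have h1 : ∀ y : ℝ × ℝ,
      Complex.exp (((2 * Real.pi * inner ℝ (inE y) (inE (a, b)) : ℝ) : ℂ) * Complex.I) •
        (GG t ψ h) (inE y) =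
      Complex.exp (((2 * Real.pi * (a * y.1 + b * y.2) : ℝ) : ℂ) * Complex.I) *
        (GG t ψ h) (inE y) := by
    intro y
    rw [inner_inE, smul_eq_mul]
    rfl
  have h2 : Integrable (fun y : ℝ × ℝ =>
      Complex.exp (((2 * Real.pi * (a * y.1 + b * y.2) : ℝ) : ℂ) * Complex.I) *
        (GG t ψ h) (inE y)) (volume.prod volume) := by
    refine (int_inE (GG t ψ h)).bdd_mul (c := 1) ?_ ?_
    · have : Continuous fun y : ℝ × ℝ =>
          Complex.exp (((2 * Real.pi * (a * y.1 + b * y.2) : ℝ) : ℂ) * Complex.I) := by fun_prop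
      exact this.aestronglyMeasurable
    · exact Eventually.of_forall fun y => (norm_e _).le
  rw [integral_congr_ae (Eventually.of_forall h1), Measure.volume_eq_prod, integral_prod_symm _ h2]
  have h3 : ∀ᵐ k : ℝ, Integrable (𝓕 (pt ψ k)) := by
    have h4 := (int_inE (𝓕 (scw ψ h) : 𝓢(E2, ℂ))).prod_left_ae
    filter_upwards [h4] with k hk
    refine hk.congr (Eventually.of_forall fun x => ?_)
    exact four_scw ψ h x k
  have h5 : ∀ᵐ k : ℝ, (∫ x : ℝ,
      Complex.exp (((2 * Real.pi * (a * x + b * k) : ℝ) : ℂ) * Complex.I) *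
        (GG t ψ h) (inE (x, k))) =
      Complex.exp (((2 * Real.pi * b * k : ℝ) : ℂ) * Complex.I) *
        pt ψ k (a - 8 * Real.pi * t * k) := by
    filter_upwards [h3] with k hk
    have h6 := (pt_int ψ h k).fourierInv_fourier_eq hk
      (pt_cont ψ h k).continuousAt (v := a - 8 * Real.pi * t * k)
    rw [← h6, Real.fourierInv_eq', ← integral_const_mul]
    apply integral_congr_ae
    refine Eventually.of_forall fun x => ?_
    simp only [smul_eq_mul]
    rw [GG_apply, four_scw, ← mul_assoc, ← mul_assoc, sym, ← Complex.exp_add, ← Complex.exp_add]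
    congr 2
    simp only [prE, inE]
    push_cast
    simp only [RCLike.inner_apply, conj_trivial, Complex.ofReal_mul, Complex.ofReal_sub]
    push_cast
    ring
  rw [integral_congr_ae h5]
  set Φ : ℝ → ℂ := fun a' => ∫ b' : ℝ,
    Complex.exp ((((a - a') * (b - b') / (4 * t) : ℝ) : ℂ) * Complex.I) * ψ (a', b') with hΦ
  have h7 : ∀ k : ℝ, Complex.exp (((2 * Real.pi * b * k : ℝ) : ℂ) * Complex.I) *
        pt ψ k (a - 8 * Real.pi * t * k) = Φ (a - (8 * Real.pi * t) * k) := by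
    intro k
    simp only [pt, hΦ]
    rw [← integral_const_mul]
    apply integral_congr_ae
    refine Eventually.of_forall fun b' => ?_
    simp only []
    rw [← mul_assoc, ← Complex.exp_add]
    congr 2
    have h8 : (a - (a - 8 * Real.pi * t * k)) * (b - b') / (4 * t) =
        2 * Real.pi * b * k + -2 * Real.pi * b' * k := by
      field_simp
      ring
    rw [h8]
    push_cast
    ring
  rw [integral_congr_ae (Eventually.of_forall h7),
    Measure.integral_comp_mul_left (fun y => Φ (a - y)) (8 * Real.pi * t),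
    integral_sub_left_eq_self Φ volume a]
  unfold KK
  have h9 : Integrable (fun y : ℝ × ℝ =>
      Complex.exp ((((a - y.1) * (b - y.2) / (4 * t) : ℝ) : ℂ) * Complex.I) * ψ y)
      (volume.prod volume) := int_mod ψ h _ (by fun_prop)
  rw [Measure.volume_eq_prod, integral_prod _ h9, Complex.real_smul]
  congr 2
  rw [abs_inv, abs_mul, abs_of_pos (by positivity : (0 : ℝ) < 8 * Real.pi)]

end FUKM

open FUKM

theorem specFUK : SpecFUK := by
  intro U hU t ψ f ht h hf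
  have h1 := hU t f
  rw [toE_eq f ψ h hf, SchwartzMap.toLp_fourier_eq] at h1
  have h2 : (𝓕 (toE (U t f)) : L2E) = (GG t ψ h).toLp 2 := by
    apply Lp.ext
    filter_upwards [h1, (GG t ψ h).coeFn_toLp 2, (𝓕 (scw ψ h) : 𝓢(E2, ℂ)).coeFn_toLp 2]
      with k a1 a2 a3
    rw [a1, a2, a3, GG_apply]
  have h3 : toE (U t f) = (𝓕⁻ (GG t ψ h) : 𝓢(E2, ℂ)).toLp 2 := by
    rw [← SchwartzMap.toLp_fourierInv_eq, ← h2, FourierTransform.fourierInv_fourier_eq]
  have h4 : ∀ᵐ x : E2, U t f (prE x) = (𝓕⁻ (GG t ψ h) : 𝓢(E2, ℂ)) x := by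
    filter_upwards [toE_coe (U t f), (𝓕⁻ (GG t ψ h) : 𝓢(E2, ℂ)).coeFn_toLp 2] with x a1 a2
    rw [← a1, h3, a2]
  have h5 := inE_mp.quasiMeasurePreserving.ae h4
  filter_upwards [h5] with x hx
  have h6 : prE (inE x) = x := rfl
  rw [h6] at hx
  rw [hx]
  exact kernel t ht ψ h x.1 x.2

end Pool.Agent.Lib.MP424d38.TY
end
end

section
/-!
# MP_424d38_an, block E, module FUX: existence of the multiplier group
-/
set_option autoImplicit false

open MeasureTheory Filter Topology Set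
open scoped ENNReal ContDiff ComplexConjugate FourierTransform

noncomputable section

namespace Pool.Agent.Lib.MP424d38.TY

namespace FUXM

theorem sym_norm (t : ℝ) (k : E2) : ‖sym t k‖ = 1 := Complex.norm_exp_ofReal_mul_I _

theorem sym_meas (t : ℝ) : Measurable (sym t) := by
  have h : Measurable prE := prE_mp.measurable
  unfold sym
  fun_prop

theorem mulMem (t : ℝ) (g : L2E) : MemLp (fun k => sym t k * g k) 2 (volume : Measure E2) := by
  refine MemLp.of_le (Lp.memLp g)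
    ((sym_meas t).aestronglyMeasurable.mul (Lp.aestronglyMeasurable g)) ?_
  refine Eventually.of_forall fun k => ?_
  rw [norm_mul, sym_norm, one_mul]

/-- multiplication by the symbol as a map of `L²`. -/
def mulF (t : ℝ) (g : L2E) : L2E := (mulMem t g).toLp _

theorem mulF_coe (t : ℝ) (g : L2E) : ∀ᵐ k : E2, mulF t g k = sym t k * g k :=
  (mulMem t g).coeFn_toLp

/-- multiplication by the symbol as a continuous linear map of `L²`. -/
def mulL (t : ℝ) : L2E →L[ℂ] L2E :=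
  LinearMap.mkContinuous
    { toFun := mulF t
      map_add' := by
        intro f g
        refine Lp.ext ?_
        filter_upwards [mulF_coe t (f + g), mulF_coe t f, mulF_coe t g, Lp.coeFn_add f g,
          Lp.coeFn_add (mulF t f) (mulF t g)] with k h1 h2 h3 h4 h5
        rw [h1, h5, Pi.add_apply, h2, h3, h4, Pi.add_apply, mul_add]
      map_smul' := by
        intro c f
        refine Lp.ext ?_
        filter_upwards [mulF_coe t (c • f), mulF_coe t f, Lp.coeFn_smul c f,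
          Lp.coeFn_smul c (mulF t f)] with k h1 h2 h3 h4
        rw [RingHom.id_apply, h1, h4, Pi.smul_apply, h2, h3, Pi.smul_apply, smul_eq_mul,
          smul_eq_mul]
        ring } 1 (by
      intro f
      rw [one_mul]
      refine Lp.norm_le_norm_of_ae_le ?_
      filter_upwards [mulF_coe t f] with k h1
      change ‖mulF t f k‖ ≤ _
      rw [h1, norm_mul, sym_norm, one_mul])

theorem mulL_coe (t : ℝ) (g : L2E) : ∀ᵐ k : E2, mulL t g k = sym t k * g k :=
  mulF_coe t g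

theorem toE_ofE (g : L2E) : toE (ofE g) = g := by
  refine Lp.ext ?_
  have h1 : ∀ᵐ k : E2, toE (ofE g) k = ofE g (prE k) :=
    Lp.coeFn_compMeasurePreserving (ofE g) prE_mp
  have h2 : ∀ᵐ x : ℝ × ℝ, ofE g x = g (inE x) :=
    Lp.coeFn_compMeasurePreserving g inE_mp
  filter_upwards [h1, prE_mp.quasiMeasurePreserving.ae h2] with k h3 h4
  rw [h3, h4]
  rfl

theorem ofE_toE (f : L2) : ofE (toE f) = f := by
  refine Lp.ext ?_
  have h1 : ∀ᵐ x : ℝ × ℝ, ofE (toE f) x = toE f (inE x) :=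
    Lp.coeFn_compMeasurePreserving (toE f) inE_mp
  have h2 : ∀ᵐ k : E2, toE f k = f (prE k) :=
    Lp.coeFn_compMeasurePreserving f prE_mp
  filter_upwards [h1, inE_mp.quasiMeasurePreserving.ae h2] with x h3 h4
  rw [h3, h4]
  rfl

/-- `toE` as a linear isometry. -/
def toEL : L2 →ₗᵢ[ℂ] L2E := Lp.compMeasurePreservingₗᵢ ℂ prE prE_mp

/-- `ofE` as a linear isometry. -/
def ofEL : L2E →ₗᵢ[ℂ] L2 := Lp.compMeasurePreservingₗᵢ ℂ inE inE_mp

/-- The multiplier group. -/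
def UU (t : ℝ) : L2 →L[ℂ] L2 :=
  ofEL.toContinuousLinearMap.comp
    (((Lp.fourierTransformₗᵢ E2 ℂ).symm.toContinuousLinearEquiv : L2E →L[ℂ] L2E).comp
      ((mulL t).comp
        (((Lp.fourierTransformₗᵢ E2 ℂ).toContinuousLinearEquiv : L2E →L[ℂ] L2E).comp
          toEL.toContinuousLinearMap)))

theorem UU_apply (t : ℝ) (f : L2) :
    UU t f = ofE ((Lp.fourierTransformₗᵢ E2 ℂ).symm (mulL t (𝓕 (toE f) : L2E))) := rfl

end FUXM

open FUXM in
theorem specFUX : SpecFUX := by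
  refine ⟨UU, ?_⟩
  intro t f
  have h : (𝓕 (toE (UU t f)) : L2E) = mulL t (𝓕 (toE f) : L2E) := by
    rw [UU_apply, toE_ofE]
    exact (Lp.fourierTransformₗᵢ E2 ℂ).apply_symm_apply _
  rw [h]
  exact mulL_coe t _

end Pool.Agent.Lib.MP424d38.TY
end
end

section
/-!
# FWD: Fourier characterisation of `H¹`
-/
set_option autoImplicit false

open MeasureTheory Filter Topology Set
open scoped ENNReal ContDiff ComplexConjugate FourierTransform SchwartzMap

noncomputable section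

namespace Pool.Agent.Lib.MP424d38.TY

namespace FWDM

/-- coordinates as a continuous linear equivalence -/
def eq : E2 ≃L[ℝ] ℝ × ℝ := WithLp.prodContinuousLinearEquiv 2 ℝ ℝ ℝ

theorem eq_apply (x : E2) : eq x = prE x := rfl

/-- directional derivative -/
def dm (m : ℝ × ℝ) (ψ : ℝ × ℝ → ℂ) : ℝ × ℝ → ℂ := fun x => fderiv ℝ ψ x m

theorem dm1 (ψ : ℝ × ℝ → ℂ) : dm (1, 0) ψ = d1 ψ := rfl
theorem dm2 (ψ : ℝ × ℝ → ℂ) : dm (0, 1) ψ = d2 ψ := rfl

theorem test_dm {ψ : ℝ × ℝ → ℂ} (h : Test ψ) (m : ℝ × ℝ) : Test (dm m ψ) := by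
  refine ⟨?_, ?_⟩
  · have h1 : ContDiff ℝ ∞ (fderiv ℝ ψ) := h.1.fderiv_right (by simp)
    exact h1.clm_apply contDiff_const
  · exact h.2.fderiv_apply (𝕜 := ℝ) m

/-- the Schwartz function on `E2` of a test function -/
def sch (ψ : ℝ × ℝ → ℂ) (h : Test ψ) : 𝓢(E2, ℂ) :=
  HasCompactSupport.toSchwartzMap (f := fun x => ψ (eq x))
    (h.2.comp_homeomorph eq.toHomeomorph) (h.1.comp eq.contDiff)

theorem sch_apply (ψ : ℝ × ℝ → ℂ) (h : Test ψ) (x : E2) : sch ψ h x = ψ (prE x) := rfl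

theorem sch_deriv (ψ : ℝ × ℝ → ℂ) (h : Test ψ) (m : ℝ × ℝ) :
    LineDeriv.lineDerivOp (inE m) (sch ψ h) = sch (dm m ψ) (test_dm h m) := by
  ext x
  rw [SchwartzMap.lineDerivOp_apply_eq_fderiv, sch_apply]
  have h1 : fderiv ℝ (⇑(sch ψ h)) x = (fderiv ℝ ψ (eq x)).comp (eq : E2 →L[ℝ] ℝ × ℝ) := by
    have h2 : HasFDerivAt ψ (fderiv ℝ ψ (eq x)) (eq x) :=
      (h.1.differentiable (by simp) (eq x)).hasFDerivAt
    exact (h2.comp x eq.hasFDerivAt).fderiv
  rw [h1]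
  rfl

/-- symbol of the derivative -/
def sy (m : ℝ × ℝ) (k : E2) : ℂ := 2 * Real.pi * Complex.I * ((inner ℝ k (inE m) : ℝ) : ℂ)

theorem four_deriv (ψ : ℝ × ℝ → ℂ) (h : Test ψ) (m : ℝ × ℝ) (k : E2) :
    (𝓕 (sch (dm m ψ) (test_dm h m)) : 𝓢(E2, ℂ)) k = sy m k * (𝓕 (sch ψ h) : 𝓢(E2, ℂ)) k := by
  rw [← sch_deriv ψ h m, SchwartzMap.fourier_lineDerivOp_eq]
  have : (inner ℝ · (inE m)).HasTemperateGrowth := ((innerSL ℝ).flip (inE m)).hasTemperateGrowth
  simp only [smul_apply, smul_eq_mul]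
  rw [SchwartzMap.smulLeftCLM_apply_apply this]
  rw [sy]
  simp [mul_assoc]

theorem memLp_test {ψ : ℝ × ℝ → ℂ} (h : Test ψ) : MemLp ψ 2 volume :=
  h.1.continuous.memLp_of_hasCompactSupport h.2

/-- `L²` class of a test function -/
def cl (ψ : ℝ × ℝ → ℂ) (h : Test ψ) : L2 := (memLp_test h).toLp ψ

theorem cl_ae (ψ : ℝ × ℝ → ℂ) (h : Test ψ) : cl ψ h =ᵐ[volume] ψ := (memLp_test h).coeFn_toLp

theorem toE_ae (f : L2) : ∀ᵐ x : E2, toE f x = f (prE x) :=
  Lp.coeFn_compMeasurePreserving f prE_mp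

theorem toE_cl (ψ : ℝ × ℝ → ℂ) (h : Test ψ) : toE (cl ψ h) = (sch ψ h).toLp 2 := by
  refine Lp.ext ?_
  have h1 := toE_ae (cl ψ h)
  have h2 : ∀ᵐ x : E2, cl ψ h (prE x) = ψ (prE x) :=
    prE_mp.quasiMeasurePreserving.ae (cl_ae ψ h)
  have h3 := (sch ψ h).coeFn_toLp 2 (volume : Measure E2)
  filter_upwards [h1, h2, h3] with x hx1 hx2 hx3
  rw [hx1, hx2, hx3, sch_apply]

theorem four_cl (ψ : ℝ × ℝ → ℂ) (h : Test ψ) :
    (𝓕 (toE (cl ψ h)) : L2E) =ᵐ[volume] (𝓕 (sch ψ h) : 𝓢(E2, ℂ)) := by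
  rw [toE_cl, SchwartzMap.toLp_fourier_eq]
  exact (𝓕 (sch ψ h)).coeFn_toLp 2 (volume : Measure E2)

theorem four_cl_dm (ψ : ℝ × ℝ → ℂ) (h : Test ψ) (m : ℝ × ℝ) :
    ∀ᵐ k : E2, (𝓕 (toE (cl (dm m ψ) (test_dm h m))) : L2E) k
      = sy m k * (𝓕 (toE (cl ψ h)) : L2E) k := by
  filter_upwards [four_cl (dm m ψ) (test_dm h m), four_cl ψ h] with k h1 h2
  rw [h1, h2, four_deriv]

/-- `toE` as a linear isometry -/
def toEI : L2 →ₗᵢ[ℂ] L2E := Lp.compMeasurePreservingₗᵢ ℂ prE prE_mp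

theorem toEI_apply (f : L2) : toEI f = toE f := rfl

theorem cont_toE : Continuous toE := toEI.continuous

theorem cont_fourE : Continuous fun f : L2 => (𝓕 (toE f) : L2E) :=
  (Lp.fourierTransformₗᵢ E2 ℂ).continuous.comp cont_toE

theorem inner_fourE (f g : L2) : inner ℂ (𝓕 (toE f) : L2E) (𝓕 (toE g) : L2E) = inner ℂ f g := by
  rw [Lp.inner_fourier_eq]
  exact toEI.inner_map_map f g

theorem fwd (m : ℝ × ℝ) (f F : L2) (ψ : ℕ → ℝ × ℝ → ℂ) (h : ∀ n, Test (ψ n))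
    (h1 : Tendsto (fun n => eLpNorm (fun x => ψ n x - f x) 2 volume) atTop (𝓝 0))
    (h2 : Tendsto (fun n => eLpNorm (fun x => dm m (ψ n) x - F x) 2 volume) atTop (𝓝 0)) :
    ∀ᵐ k : E2, (𝓕 (toE F) : L2E) k = sy m k * (𝓕 (toE f) : L2E) k := by
  have t1 : Tendsto (fun n => cl (ψ n) (h n)) atTop (𝓝 f) := by
    rw [Lp.tendsto_Lp_iff_tendsto_eLpNorm']
    refine h1.congr fun n => ?_
    refine eLpNorm_congr_ae ?_
    filter_upwards [cl_ae (ψ n) (h n)] with x hx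
    rw [Pi.sub_apply, hx]
  have t2 : Tendsto (fun n => cl (dm m (ψ n)) (test_dm (h n) m)) atTop (𝓝 F) := by
    rw [Lp.tendsto_Lp_iff_tendsto_eLpNorm']
    refine h2.congr fun n => ?_
    refine eLpNorm_congr_ae ?_
    filter_upwards [cl_ae (dm m (ψ n)) (test_dm (h n) m)] with x hx
    rw [Pi.sub_apply, hx]
  have T1 := (cont_fourE.tendsto f).comp t1
  have T2 := (cont_fourE.tendsto F).comp t2
  obtain ⟨a, ha, ha'⟩ := (tendstoInMeasure_of_tendsto_Lp T1).exists_seq_tendsto_ae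
  obtain ⟨b, hb, hb'⟩ :=
    (tendstoInMeasure_of_tendsto_Lp (T2.comp ha.tendsto_atTop)).exists_seq_tendsto_ae
  have hall : ∀ᵐ k : E2, ∀ n, (𝓕 (toE (cl (dm m (ψ n)) (test_dm (h n) m))) : L2E) k
      = sy m k * (𝓕 (toE (cl (ψ n) (h n))) : L2E) k :=
    ae_all_iff.2 fun n => four_cl_dm (ψ n) (h n) m
  filter_upwards [ha', hb', hall] with k k1 k2 k3
  have l1 : Tendsto (fun i => (𝓕 (toE (cl (ψ (a (b i))) (h (a (b i))))) : L2E) k) atTop
      (𝓝 ((𝓕 (toE f) : L2E) k)) := k1.comp hb.tendsto_atTop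
  have l2 : Tendsto (fun i => (𝓕 (toE (cl (dm m (ψ (a (b i)))) (test_dm (h (a (b i))) m))) : L2E) k)
      atTop (𝓝 ((𝓕 (toE F) : L2E) k)) := k2
  have l3 := l1.const_mul (sy m k)
  refine tendsto_nhds_unique l2 (l3.congr fun i => ?_)
  rw [k3]

theorem sy_conj (m : ℝ × ℝ) (k : E2) : conj (sy m k) = - sy m k := by
  have h2 : conj (2 : ℂ) = 2 := Complex.conj_eq_iff_real.2 ⟨2, by norm_num⟩
  rw [sy, map_mul, map_mul, map_mul, Complex.conj_ofReal, Complex.conj_ofReal, Complex.conj_I, h2]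
  ring

theorem bwd (m : ℝ × ℝ) (f F : L2)
    (h : ∀ᵐ k : E2, (𝓕 (toE F) : L2E) k = sy m k * (𝓕 (toE f) : L2E) k)
    (ψ : ℝ × ℝ → ℂ) (hψ : Test ψ) : ∫ x, f x * dm m ψ x = - ∫ x, F x * ψ x := by
  -- the conjugate test function
  let φ : ℝ × ℝ → ℂ := fun x => conj (ψ x)
  have hφ : Test φ := by
    refine ⟨?_, ?_⟩
    · exact Complex.conjCLE.contDiff.comp hψ.1
    · exact hψ.2.comp_left (g := fun z => conj z) (by simp)
  have hdφ : ∀ x, dm m φ x = conj (dm m ψ x) := by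
    intro x
    have h2 : HasFDerivAt ψ (fderiv ℝ ψ x) x := (hψ.1.differentiable (by simp) x).hasFDerivAt
    have h3 : HasFDerivAt φ ((Complex.conjCLE : ℂ →L[ℝ] ℂ).comp (fderiv ℝ ψ x)) x :=
      (Complex.conjCLE : ℂ →L[ℝ] ℂ).hasFDerivAt.comp x h2
    show fderiv ℝ φ x m = conj (fderiv ℝ ψ x m)
    rw [h3.fderiv]
    rfl
  have e1 : ∫ x, f x * dm m ψ x = inner ℂ (cl (dm m φ) (test_dm hφ m)) f := by
    rw [L2.inner_def]
    refine integral_congr_ae ?_
    filter_upwards [cl_ae (dm m φ) (test_dm hφ m)] with x hx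
    rw [hx, hdφ]
    simp
  have e2 : ∫ x, F x * ψ x = inner ℂ (cl φ hφ) F := by
    rw [L2.inner_def]
    refine integral_congr_ae ?_
    filter_upwards [cl_ae φ hφ] with x hx
    rw [hx]
    simp [φ, mul_comm]
  rw [e1, e2, ← inner_fourE, ← inner_fourE, L2.inner_def, L2.inner_def, ← integral_neg]
  refine integral_congr_ae ?_
  filter_upwards [h, four_cl_dm φ hφ m] with k k1 k2
  rw [k1, k2]
  simp only [RCLike.inner_apply, map_mul, sy_conj]
  ring

theorem sy1 (k : E2) : sy (1, 0) k = 2 * Real.pi * Complex.I * ((prE k).1 : ℂ) := by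
  rw [sy, WithLp.prod_inner_apply]
  simp [inE, prE]

theorem sy2 (k : E2) : sy (0, 1) k = 2 * Real.pi * Complex.I * ((prE k).2 : ℂ) := by
  rw [sy, WithLp.prod_inner_apply]
  simp [inE, prE]

end FWDM

open FWDM in
theorem specFWD (hDEN : SpecDEN) : SpecFWD := by
  intro f F₁ F₂
  constructor
  · intro h
    obtain ⟨ψ, hψ, t0, t1, t2⟩ := hDEN f F₁ F₂ h
    have h1 := fwd (1, 0) f F₁ ψ hψ t0 t1
    have h2 := fwd (0, 1) f F₂ ψ hψ t0 t2
    refine ⟨?_, ?_⟩
    · filter_upwards [h1] with k hk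
      rw [hk, sy1]
    · filter_upwards [h2] with k hk
      rw [hk, sy2]
  · rintro ⟨h1, h2⟩ ψ hψ
    refine ⟨?_, ?_⟩
    · refine bwd (1, 0) f F₁ ?_ ψ hψ
      filter_upwards [h1] with k hk
      rw [hk, sy1]
    · refine bwd (0, 1) f F₂ ?_ ψ hψ
      filter_upwards [h2] with k hk
      rw [hk, sy2]

end Pool.Agent.Lib.MP424d38.TY
end
end

section
/-!
# MP_424d38_an, block TY, module STR: the local Strichartz inequality
-/
set_option autoImplicit false

open MeasureTheory Filter Topology Set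
open scoped ENNReal ContDiff ComplexConjugate

noncomputable section

namespace Pool.Agent.Lib.MP424d38.TY

namespace STRM

/-- inner product with an interval integral, first part of the `TT*` argument -/
theorem tt1 {H : Type*} [NormedAddCommGroup H] [InnerProductSpace ℂ H] [CompleteSpace H]
    {τ : ℝ} (hτ : 0 < τ) {F M : ℝ → H} (hM : ContinuousOn M (Icc 0 τ)) :
    ‖∫ t in (0 : ℝ)..τ, inner ℂ (F t) (∫ s in (0 : ℝ)..t, M s)‖ₑ ≤
      ∫⁻ t in Icc 0 τ, ∫⁻ s in Icc 0 τ, ‖inner ℂ (F t) (M s)‖ₑ := by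
  rw [intervalIntegral.integral_of_le hτ.le]
  refine (enorm_integral_le_lintegral_enorm _).trans ?_
  refine (lintegral_mono_set Ioc_subset_Icc_self).trans ?_
  refine setLIntegral_mono' measurableSet_Icc fun t ht => ?_
  have hii : IntervalIntegrable M volume 0 t := by
    apply ContinuousOn.intervalIntegrable
    rw [uIcc_of_le ht.1]
    exact hM.mono (Icc_subset_Icc_right ht.2)
  have h1 : inner ℂ (F t) (∫ s in (0 : ℝ)..t, M s) = ∫ s in (0 : ℝ)..t, inner ℂ (F t) (M s) := by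
    have := (innerSL ℂ (F t)).intervalIntegral_comp_comm hii
    simpa using this.symm
  rw [h1, intervalIntegral.integral_of_le ht.1]
  refine (enorm_integral_le_lintegral_enorm _).trans ?_
  exact lintegral_mono_set (Ioc_subset_Icc_self.trans (Icc_subset_Icc_right ht.2))

theorem enorm_inner_symm {H : Type*} [NormedAddCommGroup H] [InnerProductSpace ℂ H] (a b : H) :
    ‖inner ℂ a b‖ₑ = ‖inner ℂ b a‖ₑ := by
  rw [← ofReal_norm, ← ofReal_norm, norm_inner_symm]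

theorem tt2 {H : Type*} [NormedAddCommGroup H] [InnerProductSpace ℂ H] [CompleteSpace H]
    {τ : ℝ} (hτ : 0 < τ) {F : ℝ → H} (hF : ContinuousOn F (Icc 0 τ)) :
    ‖∫ t in (0 : ℝ)..τ, F t‖ₑ ^ 2 ≤
      ∫⁻ t in Icc 0 τ, ∫⁻ s in Icc 0 τ, ‖inner ℂ (F t) (F s)‖ₑ := by
  set Z := ∫ t in (0 : ℝ)..τ, F t with hZ
  have hii : IntervalIntegrable F volume 0 τ := by
    apply ContinuousOn.intervalIntegrable
    rwa [uIcc_of_le hτ.le]
  have hin : ∀ a : H, inner ℂ a Z = ∫ s in (0 : ℝ)..τ, inner ℂ a (F s) := by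
    intro a
    have := (innerSL ℂ a).intervalIntegral_comp_comm hii
    simpa using this.symm
  have h0 : ‖Z‖ₑ ^ 2 = ‖inner ℂ Z Z‖ₑ := by
    rw [← ofReal_norm, ← ofReal_norm, inner_self_eq_norm_sq_to_K]
    rw [← ENNReal.ofReal_pow (norm_nonneg _)]
    congr 1
    simp
  rw [h0, hin Z, intervalIntegral.integral_of_le hτ.le]
  refine (enorm_integral_le_lintegral_enorm _).trans ?_
  refine (lintegral_mono_set Ioc_subset_Icc_self).trans ?_
  refine setLIntegral_mono' measurableSet_Icc fun t ht => ?_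
  rw [enorm_inner_symm, hin (F t), intervalIntegral.integral_of_le hτ.le]
  refine (enorm_integral_le_lintegral_enorm _).trans ?_
  exact lintegral_mono_set Ioc_subset_Icc_self

/-- conversion of lower integrals of powers of continuous functions -/
theorem conv {τ : ℝ} (hτ : 0 < τ) {c : ℝ → ℝ} (hc : ContinuousOn c (Icc 0 τ))
    (h0 : ∀ t ∈ Icc 0 τ, 0 ≤ c t) {p : ℝ} (hp : 0 ≤ p) :
    ∫⁻ t in Icc 0 τ, (ENNReal.ofReal (c t)) ^ p = ENNReal.ofReal (∫ t in (0 : ℝ)..τ, c t ^ p) := by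
  have hcp : ContinuousOn (fun t => c t ^ p) (Icc 0 τ) :=
    hc.rpow_const fun t _ => Or.inr hp
  rw [intervalIntegral.integral_of_le hτ.le, ← integral_Icc_eq_integral_Ioc]
  rw [ofReal_integral_eq_lintegral_ofReal (hcp.integrableOn_Icc)]
  · refine setLIntegral_congr_fun measurableSet_Icc fun t ht => ?_
    exact ENNReal.ofReal_rpow_of_nonneg (h0 t ht) hp
  · filter_upwards [ae_restrict_mem measurableSet_Icc] with t ht
    exact Real.rpow_nonneg (h0 t ht) _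

end STRM

open STRM DUHM

theorem specSTR (hDUH : SpecDUH) (hHYT : SpecHYT) (hPAR : SpecPAR) (hCTN : SpecCTN)
    (hN4F : SpecN4F) : SpecSTR := by
  intro U hU T v v₁ v₂ N hL τ hτ hτT q hq hqN
  have hsub : Icc 0 τ ⊆ Ico 0 T := fun s hs => ⟨hs.1, lt_of_le_of_lt hs.2 hτT⟩
  obtain ⟨n1, n2, n3, n5⟩ := hN4F
  obtain ⟨⟨P, hPc, hPe⟩, -⟩ := hCTN T v v₁ v₂ hL.h1 hL.cv hL.c1 hL.c2
  set n : ℝ → ℝ := fun t => n4 (v t) with hn
  have hnc : ContinuousOn n (Icc 0 τ) := (n3 T v v₁ v₂ N hL).mono hsub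
  have hn0 : ∀ t, 0 ≤ n t := fun t => ENNReal.toReal_nonneg
  have hPc' : ContinuousOn P (Icc 0 τ) := hPc.mono hsub
  have hP43 : ∀ t ∈ Icc 0 τ, eLpNorm (P t) (4 / 3) volume ≤ ENNReal.ofReal (n t ^ 3) := by
    intro t ht
    have hm := (n1 _ _ _ (hL.h1 t (hsub ht))).1
    have e1 : eLpNorm (v t) 4 volume = ENNReal.ofReal (n t) := by
      rw [hn]
      exact (ENNReal.ofReal_toReal hm.2.ne).symm
    rw [ENNReal.ofReal_pow (hn0 t), ← e1]
    have r1 := eLpNorm_eq_lintegral_rpow_enorm_toReal (f := (P t : ℝ × ℝ → ℂ))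
      (μ := (volume : Measure (ℝ × ℝ))) (p := 4 / 3) (by simp)
      (ENNReal.div_ne_top (by norm_num) (by norm_num))
    have r2 := eLpNorm_eq_lintegral_rpow_enorm_toReal (f := (v t : ℝ × ℝ → ℂ))
      (μ := (volume : Measure (ℝ × ℝ))) (p := 4) (by norm_num) (by norm_num)
    rw [r1, r2]
    have e2 : (4 / 3 : ℝ≥0∞).toReal = 4 / 3 := by
      rw [ENNReal.toReal_div]; norm_num
    rw [e2]
    have e3 : ∫⁻ x, ‖P t x‖ₑ ^ (4 / 3 : ℝ) = ∫⁻ x, ‖v t x‖ₑ ^ (4 : ℝ≥0∞).toReal := by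
      refine lintegral_congr_ae ?_
      filter_upwards [hPe t (hsub ht)] with x hx
      have : ‖P t x‖ₑ = ‖v t x‖ₑ ^ (3 : ℝ) := by
        rw [hx, enorm_mul]
        have : ‖((‖v t x‖ ^ 2 : ℝ) : ℂ)‖ₑ = ‖v t x‖ₑ ^ (2 : ℝ) := by
          rw [← ofReal_norm, Complex.norm_real, Real.norm_of_nonneg (by positivity),
            ENNReal.ofReal_pow (norm_nonneg _), ofReal_norm, ← ENNReal.rpow_natCast]
          norm_num
        rw [this]
        nth_rewrite 2 [← ENNReal.rpow_one ‖v t x‖ₑ]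
        rw [← ENNReal.rpow_add_of_nonneg _ _ (by norm_num) (by norm_num)]
        norm_num
      rw [this, ← ENNReal.rpow_mul]
      norm_num
    rw [e3, ← ENNReal.rpow_natCast, ← ENNReal.rpow_mul]
    norm_num
  have hinP : ∀ t ∈ Icc 0 τ, inner ℂ (P t) (v t) = ((n t ^ 4 : ℝ) : ℂ) := by
    intro t ht
    have h4 := (n1 _ _ _ (hL.h1 t (hsub ht))).2
    rw [inner_eq, h4, show ((∫ x, ‖v t x‖ ^ 4 : ℝ) : ℂ) = ∫ x, ((‖v t x‖ ^ 4 : ℝ) : ℂ) from
      (integral_ofReal).symm]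
    refine integral_congr_ae ?_
    filter_upwards [hPe t (hsub ht)] with x hx
    rw [hx, map_mul, Complex.conj_ofReal, mul_assoc, ← Complex.normSq_eq_conj_mul_self,
      Complex.normSq_eq_norm_sq]
    push_cast
    ring
  set Q : ℝ := (∫ t in (0 : ℝ)..τ, q t ^ (8 / 5 : ℝ)) ^ (5 / 8 : ℝ) with hQ
  have hIq : 0 ≤ ∫ t in (0 : ℝ)..τ, q t ^ (8 / 5 : ℝ) :=
    intervalIntegral.integral_nonneg hτ.le fun t ht => Real.rpow_nonneg (hqN t ht).1 _
  -- main estimate for a continuous weight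
  have main : ∀ θ : ℝ → ℝ, ContinuousOn θ (Icc 0 τ) → (∀ t ∈ Icc 0 τ, 0 ≤ θ t) →
      ∫ t in (0 : ℝ)..τ, θ t * n t ^ 4 ≤
        (3 * τ ^ (1 / 8 : ℝ) * ‖v 0‖ + 6 * τ ^ (1 / 4 : ℝ) * Q) *
          (∫ t in (0 : ℝ)..τ, (θ t * n t ^ 3) ^ (8 / 5 : ℝ)) ^ (5 / 8 : ℝ) := by
    intro θ hθ hθ0
    set W : ℝ := (∫ t in (0 : ℝ)..τ, (θ t * n t ^ 3) ^ (8 / 5 : ℝ)) ^ (5 / 8 : ℝ) with hW
    have hcc : ContinuousOn (fun t => θ t * n t ^ 3) (Icc 0 τ) := hθ.mul (hnc.pow 3)
    have hcc0 : ∀ t ∈ Icc 0 τ, 0 ≤ θ t * n t ^ 3 := fun t ht =>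
      mul_nonneg (hθ0 t ht) (pow_nonneg (hn0 t) 3)
    have hIW : 0 ≤ ∫ t in (0 : ℝ)..τ, (θ t * n t ^ 3) ^ (8 / 5 : ℝ) :=
      intervalIntegral.integral_nonneg hτ.le fun t ht => Real.rpow_nonneg (hcc0 t ht) _
    have hW0 : 0 ≤ W := Real.rpow_nonneg hIW _
    have hQ0 : 0 ≤ Q := Real.rpow_nonneg hIq _
    set F : ℝ → L2 := fun t => U (-t) ((θ t : ℂ) • P t) with hF
    set M : ℝ → L2 := fun t => U (-t) (N t) with hM
    have hFc : ContinuousOn F (Icc 0 τ) := contOn hU continuous_neg.continuousOn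
      ((Complex.continuous_ofReal.comp_continuousOn hθ).smul hPc')
    have hMc : ContinuousOn M (Icc 0 τ) := contOn hU continuous_neg.continuousOn
      (hL.cN.mono hsub)
    -- measurable majorants
    set f : ℝ → ℝ≥0∞ := fun t => ENNReal.ofReal (Set.IccExtend hτ.le (fun t : Icc 0 τ =>
      θ t * n t ^ 3) t) with hf
    set g : ℝ → ℝ≥0∞ := fun t => ENNReal.ofReal (Set.IccExtend hτ.le (fun t : Icc 0 τ => q t) t)
      with hg
    have hfm : Measurable f := by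
      apply Measurable.ennreal_ofReal
      apply Continuous.measurable
      apply Continuous.Icc_extend'
      exact hcc.domRestrict
    have hgm : Measurable g := by
      apply Measurable.ennreal_ofReal
      apply Continuous.measurable
      apply Continuous.Icc_extend'
      exact hq.domRestrict
    have hfe : ∀ t ∈ Icc 0 τ, f t = ENNReal.ofReal (θ t * n t ^ 3) := by
      intro t ht
      simp only [hf]
      rw [Set.IccExtend_of_mem hτ.le _ ht]
    have hge : ∀ t ∈ Icc 0 τ, g t = ENNReal.ofReal (q t) := by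
      intro t ht
      simp only [hg]
      rw [Set.IccExtend_of_mem hτ.le _ ht]
    have hΨ : ∀ t ∈ Icc 0 τ, eLpNorm (((θ t : ℂ) • P t : L2)) (4 / 3) volume ≤ f t := by
      intro t ht
      rw [hfe t ht]
      have e1 : eLpNorm (((θ t : ℂ) • P t : L2)) (4 / 3) volume =
          eLpNorm ((θ t : ℂ) • (P t : ℝ × ℝ → ℂ)) (4 / 3) volume :=
        eLpNorm_congr_ae (Lp.coeFn_smul _ _)
      rw [e1, eLpNorm_const_smul]
      have e2 : ‖(θ t : ℂ)‖ₑ = ENNReal.ofReal (θ t) := by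
        rw [← ofReal_norm, Complex.norm_real, Real.norm_of_nonneg (hθ0 t ht)]
      rw [e2, ENNReal.ofReal_mul (hθ0 t ht)]
      gcongr
      exact hP43 t ht
    have hNg : ∀ t ∈ Icc 0 τ, eLpNorm (N t) (4 / 3) volume ≤ g t := by
      intro t ht
      rw [hge t ht]
      exact (hqN t ht).2
    have pairFM : ∀ t ∈ Icc 0 τ, ∀ s ∈ Icc 0 τ, s ≠ t → ‖inner ℂ (F t) (M s)‖ₑ ≤
        f t * ENNReal.ofReal (|t - s| ^ (-(1 / 2) : ℝ)) * g s := by
      intro t ht s hs hst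
      have := hPAR U hU t s ((θ t : ℂ) • P t) (N s) (Ne.symm hst)
      rw [ofReal_norm] at this
      refine this.trans ?_
      calc _ ≤ ENNReal.ofReal (|t - s| ^ (-(1 / 2) : ℝ)) * f t * g s := by
            gcongr
            · exact hΨ t ht
            · exact hNg s hs
        _ = _ := by ring
    have pairFF : ∀ t ∈ Icc 0 τ, ∀ s ∈ Icc 0 τ, s ≠ t → ‖inner ℂ (F t) (F s)‖ₑ ≤
        f t * ENNReal.ofReal (|t - s| ^ (-(1 / 2) : ℝ)) * f s := by
      intro t ht s hs hst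
      have := hPAR U hU t s ((θ t : ℂ) • P t) ((θ s : ℂ) • P s) (Ne.symm hst)
      rw [ofReal_norm] at this
      refine this.trans ?_
      calc _ ≤ ENNReal.ofReal (|t - s| ^ (-(1 / 2) : ℝ)) * f t * f s := by
            gcongr
            · exact hΨ t ht
            · exact hΨ s hs
        _ = _ := by ring
    have aene : ∀ t : ℝ, ∀ᵐ s : ℝ ∂(volume.restrict (Icc 0 τ)), s ≠ t := by
      intro t
      apply ae_restrict_of_ae
      rw [ae_iff]
      have : {a : ℝ | ¬a ≠ t} = {t} := by ext a; simp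
      rw [this]
      exact Real.volume_singleton
    have dbl : ∀ (G : ℝ → L2) (k : ℝ → ℝ≥0∞), (∀ t ∈ Icc 0 τ, ∀ s ∈ Icc 0 τ, s ≠ t →
        ‖inner ℂ (F t) (G s)‖ₑ ≤ f t * ENNReal.ofReal (|t - s| ^ (-(1 / 2) : ℝ)) * k s) →
        ∫⁻ t in Icc 0 τ, ∫⁻ s in Icc 0 τ, ‖inner ℂ (F t) (G s)‖ₑ ≤
        ∫⁻ t in Icc 0 τ, ∫⁻ s in Icc 0 τ,
          f t * ENNReal.ofReal (|t - s| ^ (-(1 / 2) : ℝ)) * k s := by
      intro G k hk
      refine setLIntegral_mono' measurableSet_Icc fun t ht => ?_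
      refine lintegral_mono_ae ?_
      filter_upwards [aene t, ae_restrict_mem measurableSet_Icc] with s hs1 hs2
      exact hk t ht s hs2 hs1
    have hA : ∫⁻ t in Icc 0 τ, f t ^ (8 / 5 : ℝ) =
        ENNReal.ofReal (∫ t in (0 : ℝ)..τ, (θ t * n t ^ 3) ^ (8 / 5 : ℝ)) := by
      rw [← conv hτ hcc hcc0 (by norm_num)]
      refine setLIntegral_congr_fun measurableSet_Icc fun t ht => ?_
      rw [hfe t ht]
    have hB : ∫⁻ t in Icc 0 τ, g t ^ (8 / 5 : ℝ) =
        ENNReal.ofReal (∫ t in (0 : ℝ)..τ, q t ^ (8 / 5 : ℝ)) := by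
      rw [← conv hτ hq (fun t ht => (hqN t ht).1) (by norm_num)]
      refine setLIntegral_congr_fun measurableSet_Icc fun t ht => ?_
      rw [hge t ht]
    have hAW : (∫⁻ t in Icc 0 τ, f t ^ (8 / 5 : ℝ)) ^ (5 / 8 : ℝ) = ENNReal.ofReal W := by
      rw [hA, hW, ENNReal.ofReal_rpow_of_nonneg hIW (by norm_num)]
    have hBQ : (∫⁻ t in Icc 0 τ, g t ^ (8 / 5 : ℝ)) ^ (5 / 8 : ℝ) = ENNReal.ofReal Q := by
      rw [hB, hQ, ENNReal.ofReal_rpow_of_nonneg hIq (by norm_num)]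
    have hτ4 : 0 ≤ 6 * τ ^ (1 / 4 : ℝ) := by positivity
    -- the two double integrals
    have D1 : ‖∫ t in (0 : ℝ)..τ, inner ℂ (F t) (∫ s in (0 : ℝ)..t, M s)‖ ≤
        6 * τ ^ (1 / 4 : ℝ) * W * Q := by
      have h := (tt1 hτ (F := F) hMc).trans ((dbl M g pairFM).trans (hHYT τ f g hτ hfm hgm))
      rw [hAW, hBQ, ← ENNReal.ofReal_mul hτ4, ← ENNReal.ofReal_mul (by positivity),
        ← ofReal_norm] at h
      exact (ENNReal.ofReal_le_ofReal_iff (by positivity)).1 h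
    have D2 : ‖∫ t in (0 : ℝ)..τ, F t‖ ^ 2 ≤ 6 * τ ^ (1 / 4 : ℝ) * W * W := by
      have h := (tt2 hτ hFc).trans ((dbl F f pairFF).trans (hHYT τ f f hτ hfm hfm))
      rw [hAW, ← ENNReal.ofReal_mul hτ4, ← ENNReal.ofReal_mul (by positivity),
        ← ofReal_norm, ← ENNReal.ofReal_pow (norm_nonneg _)] at h
      exact (ENNReal.ofReal_le_ofReal_iff (by positivity)).1 h
    have D3 : ‖∫ t in (0 : ℝ)..τ, F t‖ ≤ 3 * τ ^ (1 / 8 : ℝ) * W := by
      apply le_of_sq_le_sq _ (by positivity)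
      have e1 : (τ ^ (1 / 8 : ℝ)) ^ 2 = τ ^ (1 / 4 : ℝ) := by
        rw [← Real.rpow_natCast, ← Real.rpow_mul hτ.le]; norm_num
      calc _ ≤ 6 * τ ^ (1 / 4 : ℝ) * W * W := D2
        _ ≤ 9 * τ ^ (1 / 4 : ℝ) * W * W := by
            have : 0 ≤ τ ^ (1 / 4 : ℝ) * W * W := by positivity
            nlinarith
        _ = (3 * τ ^ (1 / 8 : ℝ) * W) ^ 2 := by rw [mul_pow, mul_pow, e1]; ring
    -- the identity
    have hFii : IntervalIntegrable F volume 0 τ := by
      apply ContinuousOn.intervalIntegrable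
      rwa [uIcc_of_le hτ.le]
    have hMI : ContinuousOn (fun t => ∫ s in (0 : ℝ)..t, M s) (Icc 0 τ) := by
      have : IntervalIntegrable M volume 0 τ := by
        apply ContinuousOn.intervalIntegrable
        rwa [uIcc_of_le hτ.le]
      have h2 := intervalIntegral.continuousOn_primitive_interval'
        (μ := volume) this left_mem_uIcc
      rwa [uIcc_of_le hτ.le] at h2
    have hid : ∀ t ∈ Icc 0 τ, ((θ t * n t ^ 4 : ℝ) : ℂ) =
        inner ℂ (F t) (v 0) + Complex.I * inner ℂ (F t) (∫ s in (0 : ℝ)..t, M s) := by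
      intro t ht
      have h1 := hDUH U hU T v v₁ v₂ N hL t (hsub ht)
      have h2 : inner ℂ (F t) (U (-t) (v t)) = ((θ t * n t ^ 4 : ℝ) : ℂ) := by
        rw [hF]
        simp only
        rw [inner_UU hU, inner_smul_left, hinP t ht, Complex.conj_ofReal]
        push_cast
        ring
      rw [← h2, h1, inner_add_right, inner_smul_right]
    have hint1 : IntervalIntegrable (fun t => inner ℂ (F t) (v 0)) volume 0 τ := by
      apply ContinuousOn.intervalIntegrable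
      rw [uIcc_of_le hτ.le]
      exact hFc.inner continuousOn_const
    have hint2 : IntervalIntegrable (fun t => Complex.I * inner ℂ (F t) (∫ s in (0 : ℝ)..t, M s))
        volume 0 τ := by
      apply ContinuousOn.intervalIntegrable
      rw [uIcc_of_le hτ.le]
      exact continuousOn_const.mul (hFc.inner hMI)
    have hI : ((∫ t in (0 : ℝ)..τ, θ t * n t ^ 4 : ℝ) : ℂ) =
        (∫ t in (0 : ℝ)..τ, inner ℂ (F t) (v 0)) +
        Complex.I * ∫ t in (0 : ℝ)..τ, inner ℂ (F t) (∫ s in (0 : ℝ)..t, M s) := by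
      rw [← intervalIntegral.integral_ofReal, ← intervalIntegral.integral_const_mul,
        ← intervalIntegral.integral_add hint1 hint2]
      refine intervalIntegral.integral_congr fun t ht => ?_
      rw [uIcc_of_le hτ.le] at ht
      exact hid t ht
    have hfirst : ‖∫ t in (0 : ℝ)..τ, inner ℂ (F t) (v 0)‖ ≤ ‖∫ t in (0 : ℝ)..τ, F t‖ * ‖v 0‖ := by
      have e1 : ∫ t in (0 : ℝ)..τ, inner ℂ (v 0) (F t) = inner ℂ (v 0) (∫ t in (0 : ℝ)..τ, F t) := by
        have := (innerSL ℂ (v 0)).intervalIntegral_comp_comm hFii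
        simpa using this
      have e2 : ∫ t in (0 : ℝ)..τ, inner ℂ (F t) (v 0) =
          conj (∫ t in (0 : ℝ)..τ, inner ℂ (v 0) (F t)) := by
        rw [intervalIntegral.integral_of_le hτ.le, intervalIntegral.integral_of_le hτ.le,
          ← integral_conj]
        refine integral_congr_ae (Eventually.of_forall fun t => ?_)
        simp only
        rw [inner_conj_symm]
      rw [e2, e1, RCLike.norm_conj, mul_comm]
      exact norm_inner_le_norm _ _
    have hfin : ‖((∫ t in (0 : ℝ)..τ, θ t * n t ^ 4 : ℝ) : ℂ)‖ ≤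
        3 * τ ^ (1 / 8 : ℝ) * W * ‖v 0‖ + 6 * τ ^ (1 / 4 : ℝ) * W * Q := by
      rw [hI]
      refine (norm_add_le _ _).trans ?_
      rw [norm_mul, Complex.norm_I, one_mul]
      exact add_le_add (hfirst.trans (mul_le_mul_of_nonneg_right D3 (norm_nonneg _))) D1
    rw [Complex.norm_real] at hfin
    calc _ ≤ ‖∫ t in (0 : ℝ)..τ, θ t * n t ^ 4‖ := Real.le_norm_self _
      _ ≤ _ := hfin
      _ = _ := by ring
  -- choice of the weight
  set K : ℝ := 3 * τ ^ (1 / 8 : ℝ) * ‖v 0‖ + 6 * τ ^ (1 / 4 : ℝ) * Q with hK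
  set X : ℝ := ∫ t in (0 : ℝ)..τ, n t ^ (8 / 3 : ℝ) with hX
  have hQ0 : 0 ≤ Q := Real.rpow_nonneg hIq _
  have hK0 : 0 ≤ K := by positivity
  have hX0 : 0 ≤ X := intervalIntegral.integral_nonneg hτ.le fun t _ => Real.rpow_nonneg (hn0 t) _
  have hn83 : ContinuousOn (fun t => n t ^ (8 / 3 : ℝ)) (Icc 0 τ) :=
    hnc.rpow_const fun t _ => Or.inr (by norm_num)
  have hn53 : ContinuousOn (fun t => n t ^ (5 / 3 : ℝ)) (Icc 0 τ) :=
    hnc.rpow_const fun t _ => Or.inr (by norm_num)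
  set C : ℝ := ∫ t in (0 : ℝ)..τ, n t ^ (5 / 3 : ℝ) with hC
  have hC0 : 0 ≤ C := intervalIntegral.integral_nonneg hτ.le fun t _ => Real.rpow_nonneg (hn0 t) _
  have step : ∀ ε : ℝ, 0 < ε → X ≤ K * X ^ (5 / 8 : ℝ) + 4 / 3 * ε * C := by
    intro ε hε
    have hpos : ∀ t, 0 < n t + ε := fun t => by linarith [hn0 t]
    set θ : ℝ → ℝ := fun t => (n t + ε) ^ (-(4 / 3) : ℝ) with hθ
    have hθc : ContinuousOn θ (Icc 0 τ) :=
      (hnc.add continuousOn_const).rpow_const fun t _ => Or.inl (hpos t).ne'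
    have hθ0 : ∀ t ∈ Icc 0 τ, 0 ≤ θ t := fun t _ => Real.rpow_nonneg (hpos t).le _
    have hm := main θ hθc hθ0
    -- (θ n^3)^(8/5) ≤ n^(8/3)
    have hub : ∀ t, (θ t * n t ^ 3) ^ (8 / 5 : ℝ) ≤ n t ^ (8 / 3 : ℝ) := by
      intro t
      rcases (hn0 t).eq_or_lt with h0 | h0
      · rw [← h0]
        simp
      · have h1 : θ t ≤ n t ^ (-(4 / 3) : ℝ) :=
          Real.rpow_le_rpow_of_nonpos h0 (by linarith) (by norm_num)
        have h2 : θ t * n t ^ 3 ≤ n t ^ (5 / 3 : ℝ) := by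
          calc θ t * n t ^ 3 ≤ n t ^ (-(4 / 3) : ℝ) * n t ^ 3 := by gcongr
            _ = n t ^ (5 / 3 : ℝ) := by
              rw [← Real.rpow_natCast, ← Real.rpow_add h0]; norm_num
        have h3 : 0 ≤ θ t * n t ^ 3 := mul_nonneg (Real.rpow_nonneg (hpos t).le _)
          (pow_nonneg (hn0 t) 3)
        calc (θ t * n t ^ 3) ^ (8 / 5 : ℝ) ≤ (n t ^ (5 / 3 : ℝ)) ^ (8 / 5 : ℝ) :=
              Real.rpow_le_rpow h3 h2 (by norm_num)
          _ = _ := by rw [← Real.rpow_mul h0.le]; norm_num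
    -- θ n^4 ≥ n^(8/3) - (4/3) ε n^(5/3)
    have hlb : ∀ t, n t ^ (8 / 3 : ℝ) - 4 / 3 * ε * n t ^ (5 / 3 : ℝ) ≤ θ t * n t ^ 4 := by
      intro t
      rcases (hn0 t).eq_or_lt with h0 | h0
      · rw [← h0]
        simp
      · have hx : -1 ≤ -(ε / (n t + ε)) := by
          rw [neg_le_neg_iff, div_le_one (hpos t)]; linarith
        have hB := one_add_mul_self_le_rpow_one_add hx (p := 4 / 3) (by norm_num)
        have e1 : 1 + -(ε / (n t + ε)) = n t / (n t + ε) := by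
          field_simp
          ring
        rw [e1, Real.div_rpow h0.le (hpos t).le] at hB
        have e2 : θ t = ((n t + ε) ^ (4 / 3 : ℝ))⁻¹ := by
          rw [hθ]
          exact Real.rpow_neg (hpos t).le _
        have e3 : θ t * n t ^ 4 = n t ^ (8 / 3 : ℝ) * (n t ^ (4 / 3 : ℝ) / (n t + ε) ^ (4 / 3 : ℝ)) := by
          rw [e2]
          have : n t ^ 4 = n t ^ (8 / 3 : ℝ) * n t ^ (4 / 3 : ℝ) := by
            rw [← Real.rpow_add h0, ← Real.rpow_natCast]; norm_num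
          rw [this]
          field_simp
        have e4 : n t ^ (8 / 3 : ℝ) = n t * n t ^ (5 / 3 : ℝ) := by
          nth_rewrite 2 [← Real.rpow_one (n t)]
          rw [← Real.rpow_add h0]; norm_num
        have h5 : n t ^ (8 / 3 : ℝ) * (ε / (n t + ε)) ≤ ε * n t ^ (5 / 3 : ℝ) := by
          rw [e4]
          have : n t / (n t + ε) ≤ 1 := by rw [div_le_one (hpos t)]; linarith
          calc n t * n t ^ (5 / 3 : ℝ) * (ε / (n t + ε))
              = (n t / (n t + ε)) * (ε * n t ^ (5 / 3 : ℝ)) := by ring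
            _ ≤ 1 * (ε * n t ^ (5 / 3 : ℝ)) := by gcongr
            _ = _ := one_mul _
        rw [e3]
        have h6 : 0 ≤ n t ^ (8 / 3 : ℝ) := Real.rpow_nonneg (hn0 t) _
        calc n t ^ (8 / 3 : ℝ) - 4 / 3 * ε * n t ^ (5 / 3 : ℝ)
            ≤ n t ^ (8 / 3 : ℝ) * (1 + 4 / 3 * -(ε / (n t + ε))) := by nlinarith
          _ ≤ _ := mul_le_mul_of_nonneg_left hB h6
    have ii : ∀ {c : ℝ → ℝ}, ContinuousOn c (Icc 0 τ) → IntervalIntegrable c volume 0 τ := by
      intro c hc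
      apply ContinuousOn.intervalIntegrable
      rwa [uIcc_of_le hτ.le]
    have hc53 : ContinuousOn (fun t => 4 / 3 * ε * n t ^ (5 / 3 : ℝ)) (Icc 0 τ) :=
      continuousOn_const.mul hn53
    have hcd : ContinuousOn (fun t => n t ^ (8 / 3 : ℝ) - 4 / 3 * ε * n t ^ (5 / 3 : ℝ))
      (Icc 0 τ) := hn83.sub hc53
    have hct : ContinuousOn (fun t => θ t * n t ^ 4) (Icc 0 τ) := hθc.mul (hnc.pow 4)
    have i1 : X - 4 / 3 * ε * C ≤ ∫ t in (0 : ℝ)..τ, θ t * n t ^ 4 := by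
      rw [hX, hC, ← intervalIntegral.integral_const_mul, ← intervalIntegral.integral_sub
        (ii hn83) (ii hc53)]
      exact intervalIntegral.integral_mono_on hτ.le (ii hcd) (ii hct) fun t _ => hlb t
    have i2 : (∫ t in (0 : ℝ)..τ, (θ t * n t ^ 3) ^ (8 / 5 : ℝ)) ^ (5 / 8 : ℝ) ≤
        X ^ (5 / 8 : ℝ) := by
      refine Real.rpow_le_rpow (intervalIntegral.integral_nonneg hτ.le fun t ht =>
        Real.rpow_nonneg (mul_nonneg (hθ0 t ht) (pow_nonneg (hn0 t) 3)) _) ?_ (by norm_num)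
      refine intervalIntegral.integral_mono_on hτ.le (ii ?_) (ii hn83) fun t _ => hub t
      exact (hθc.mul (hnc.pow 3)).rpow_const fun t _ => Or.inr (by norm_num)
    have i3 : K * (∫ t in (0 : ℝ)..τ, (θ t * n t ^ 3) ^ (8 / 5 : ℝ)) ^ (5 / 8 : ℝ) ≤
        K * X ^ (5 / 8 : ℝ) := mul_le_mul_of_nonneg_left i2 hK0
    linarith
  have hXle : X ≤ K * X ^ (5 / 8 : ℝ) := by
    apply le_of_forall_pos_le_add
    intro δ hδ
    have hC1 : 0 < 4 / 3 * C + 1 := by positivity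
    have := step (δ / (4 / 3 * C + 1)) (by positivity)
    have h2 : 4 / 3 * (δ / (4 / 3 * C + 1)) * C ≤ δ := by
      have : 4 / 3 * (δ / (4 / 3 * C + 1)) * C = δ * ((4 / 3 * C) / (4 / 3 * C + 1)) := by ring
      rw [this]
      have h3 : (4 / 3 * C) / (4 / 3 * C + 1) ≤ 1 := by
        rw [div_le_one hC1]; linarith
      calc _ ≤ δ * 1 := by gcongr
        _ = δ := mul_one _
    linarith
  rcases hX0.eq_or_lt with h0 | h0
  · rw [← h0, Real.zero_rpow (by norm_num)]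
    exact hK0
  · have h1 : X ^ (3 / 8 : ℝ) * X ^ (5 / 8 : ℝ) = X := by
      rw [← Real.rpow_add h0]; norm_num
    have h2 : 0 < X ^ (5 / 8 : ℝ) := Real.rpow_pos_of_pos h0 _
    have h3 : X ^ (3 / 8 : ℝ) * X ^ (5 / 8 : ℝ) ≤ K * X ^ (5 / 8 : ℝ) := by rw [h1]; exact hXle
    exact le_of_mul_le_mul_right h3 h2

end Pool.Agent.Lib.MP424d38.TY
end
end

section
/-!
# MP_424d38_an, block TY, module GCW: growth of the difference quotients
-/
set_option autoImplicit false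

open MeasureTheory Filter Topology Set
open scoped ENNReal ContDiff ComplexConjugate

noncomputable section

namespace Pool.Agent.Lib.MP424d38.TY

namespace GCWM

open STRM

/-- Hoelder's inequality for continuous functions on an interval -/
theorem holder {τ : ℝ} (hτ : 0 < τ) {c d : ℝ → ℝ} (hc : ContinuousOn c (Icc 0 τ))
    (hd : ContinuousOn d (Icc 0 τ)) (hc0 : ∀ t ∈ Icc 0 τ, 0 ≤ c t) (hd0 : ∀ t ∈ Icc 0 τ, 0 ≤ d t)
    {p q : ℝ} (hpq : p.HolderConjugate q) :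
    ∫ t in (0 : ℝ)..τ, c t * d t ≤
      (∫ t in (0 : ℝ)..τ, c t ^ p) ^ (1 / p) * (∫ t in (0 : ℝ)..τ, d t ^ q) ^ (1 / q) := by
  have hp := hpq.pos
  have hq := hpq.symm.pos
  have i1 : 0 ≤ ∫ t in (0 : ℝ)..τ, c t ^ p :=
    intervalIntegral.integral_nonneg hτ.le fun t ht => Real.rpow_nonneg (hc0 t ht) _
  have i2 : 0 ≤ ∫ t in (0 : ℝ)..τ, d t ^ q :=
    intervalIntegral.integral_nonneg hτ.le fun t ht => Real.rpow_nonneg (hd0 t ht) _
  have h := ENNReal.lintegral_mul_le_Lp_mul_Lq (volume.restrict (Icc 0 τ)) hpq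
    (f := fun t => ENNReal.ofReal (c t)) (g := fun t => ENNReal.ofReal (d t))
    (hc.aemeasurable measurableSet_Icc).ennreal_ofReal
    (hd.aemeasurable measurableSet_Icc).ennreal_ofReal
  rw [conv hτ hc hc0 hp.le, conv hτ hd hd0 hq.le] at h
  have e1 : ∫⁻ t in Icc 0 τ, ((fun t => ENNReal.ofReal (c t)) * fun t => ENNReal.ofReal (d t)) t =
      ENNReal.ofReal (∫ t in (0 : ℝ)..τ, c t * d t) := by
    have := conv hτ (c := fun t => c t * d t) (hc.mul hd)
      (fun t ht => mul_nonneg (hc0 t ht) (hd0 t ht)) (p := 1) zero_le_one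
    simp only [ENNReal.rpow_one, Real.rpow_one] at this
    rw [← this]
    refine setLIntegral_congr_fun measurableSet_Icc fun t ht => ?_
    simp only [Pi.mul_apply]
    rw [ENNReal.ofReal_mul (hc0 t ht)]
  rw [e1, ENNReal.ofReal_rpow_of_nonneg i1 (by positivity),
    ENNReal.ofReal_rpow_of_nonneg i2 (by positivity),
    ← ENNReal.ofReal_mul (Real.rpow_nonneg i1 _)] at h
  exact (ENNReal.ofReal_le_ofReal_iff (mul_nonneg (Real.rpow_nonneg i1 _)
    (Real.rpow_nonneg i2 _))).1 h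

end GCWM

open GCWM DUHM

theorem specGCW (hSTR : SpecSTR) (hNWB : SpecNWB) (hDQL : SpecDQL) (hSHF : SpecSHF)
    (hBIL : SpecBIL) (hN4F : SpecN4F) (hPRP : SpecPRP) : SpecGCW := by
  obtain ⟨U, hU⟩ := hPRP
  refine ⟨(1 / 36) ^ 4, 216, by positivity, by norm_num, ?_⟩
  intro T v v₁ v₂ N hv t₁ t₂ h ht1 ht12 ht2 hsmall
  set τ := t₂ - t₁ with hτd
  have hτ : 0 < τ := sub_pos.2 ht12
  have ht1T : t₁ < T := ht12.trans ht2
  have hτT : τ < T - t₁ := by rw [hτd]; linarith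
  have hsub : Icc 0 τ ⊆ Ico 0 (T - t₁) := fun s hs => ⟨hs.1, lt_of_le_of_lt hs.2 hτT⟩
  have L0 := hSHF T t₁ v v₁ v₂ N ht1 ht1T hv.toLin
  have W := (hDQL _ _ _ _ _ L0 h).2
  obtain ⟨n1, n2, n3, n5⟩ := hN4F
  set n : ℝ → ℝ := fun t => n4 (v (t₁ + t)) with hn
  set w : ℝ → ℝ := fun t => n4 (dq h (v (t₁ + t))) with hw
  have hnc : ContinuousOn n (Icc 0 τ) := (n3 _ _ _ _ _ L0).mono hsub
  have hwc : ContinuousOn w (Icc 0 τ) := (n3 _ _ _ _ _ W).mono hsub
  have hn0 : ∀ t, 0 ≤ n t := fun t => ENNReal.toReal_nonneg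
  have hw0 : ∀ t, 0 ≤ w t := fun t => ENNReal.toReal_nonneg
  have hNW : ∀ t ∈ Icc 0 τ, eLpNorm (dq h (N (t₁ + t))) (4 / 3) volume ≤
      ENNReal.ofReal (3 * n t ^ 2 * w t) ∧
      |(∫ x, (conj (dq h (v (t₁ + t)) x) * dq h (N (t₁ + t)) x).im)| ≤ 3 * n t ^ 2 * w t ^ 2 := by
    intro t ht
    have ht' := hsub ht
    have hmem : t₁ + t ∈ Ico 0 T := ⟨by linarith [ht'.1], by linarith [ht'.2]⟩
    exact hNWB _ _ _ _ (hv.h1 _ hmem) (hv.nl _ hmem) h
  set q : ℝ → ℝ := fun t => 3 * n t ^ 2 * w t with hq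
  have hqc : ContinuousOn q (Icc 0 τ) := (continuousOn_const.mul (hnc.pow 2)).mul hwc
  have hq0 : ∀ t ∈ Icc 0 τ, 0 ≤ q t := fun t _ =>
    mul_nonneg (mul_nonneg (by norm_num) (pow_nonneg (hn0 t) 2)) (hw0 t)
  have hS := hSTR U hU (T - t₁) _ _ _ _ W τ hτ hτT q hqc fun t ht => ⟨hq0 t ht, (hNW t ht).1⟩
  set X : ℝ := ∫ t in (0 : ℝ)..τ, w t ^ (8 / 3 : ℝ) with hX
  set Y : ℝ := ∫ t in (0 : ℝ)..τ, n t ^ 8 with hY
  have hYe : (∫ t in t₁..t₂, n4 (v t) ^ 8) = Y := by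
    rw [hY, hn]
    simp only
    rw [intervalIntegral.integral_comp_add_left (fun t => n4 (v t) ^ 8) t₁]
    congr 1
    · ring
    · rw [hτd]; ring
  rw [hYe] at hsmall ⊢
  have hX0 : 0 ≤ X := intervalIntegral.integral_nonneg hτ.le fun t _ => Real.rpow_nonneg (hw0 t) _
  have hY0 : 0 ≤ Y := intervalIntegral.integral_nonneg hτ.le fun t _ => pow_nonneg (hn0 t) _
  have hY' : Y = ∫ t in (0 : ℝ)..τ, n t ^ (8 : ℝ) := by
    rw [hY]
    refine intervalIntegral.integral_congr fun t _ => ?_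
    rw [← Real.rpow_natCast]
    norm_num
  set ε := τ * Y with hε
  have hε0 : 0 ≤ ε := mul_nonneg hτ.le hY0
  have hε4 : 18 * ε ^ (1 / 4 : ℝ) ≤ 1 / 2 := by
    have : ε ^ (1 / 4 : ℝ) ≤ ((1 / 36 : ℝ) ^ 4) ^ (1 / 4 : ℝ) :=
      Real.rpow_le_rpow hε0 hsmall (by norm_num)
    have h2 : ((1 / 36 : ℝ) ^ 4) ^ (1 / 4 : ℝ) = 1 / 36 := by
      rw [← Real.rpow_natCast, ← Real.rpow_mul (by norm_num)]
      norm_num
    rw [h2] at this
    linarith
  have hεs : ε ^ (1 / 4 : ℝ) = τ ^ (1 / 4 : ℝ) * Y ^ (1 / 4 : ℝ) := Real.mul_rpow hτ.le hY0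
  -- Hoelder for q
  have hqI : (∫ t in (0 : ℝ)..τ, q t ^ (8 / 5 : ℝ)) ^ (5 / 8 : ℝ) ≤
      3 * Y ^ (1 / 4 : ℝ) * X ^ (3 / 8 : ℝ) := by
    have e1 : ∀ t, q t ^ (8 / 5 : ℝ) =
        3 ^ (8 / 5 : ℝ) * (n t ^ (16 / 5 : ℝ) * w t ^ (8 / 5 : ℝ)) := by
      intro t
      rw [hq]
      simp only
      rw [Real.mul_rpow (by have := hn0 t; positivity) (hw0 t),
        Real.mul_rpow (by norm_num) (by have := hn0 t; positivity), ← Real.rpow_natCast,
        ← Real.rpow_mul (hn0 t)]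
      norm_num
      ring
    simp_rw [e1]
    rw [intervalIntegral.integral_const_mul]
    have hH := holder hτ (c := fun t => n t ^ (16 / 5 : ℝ)) (d := fun t => w t ^ (8 / 5 : ℝ))
      (hnc.rpow_const fun t _ => Or.inr (by norm_num))
      (hwc.rpow_const fun t _ => Or.inr (by norm_num))
      (fun t _ => Real.rpow_nonneg (hn0 t) _) (fun t _ => Real.rpow_nonneg (hw0 t) _)
      (p := 5 / 2) (q := 5 / 3) (Real.holderConjugate_iff.2 ⟨by norm_num, by norm_num⟩)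
    have e2 : ∫ t in (0 : ℝ)..τ, (n t ^ (16 / 5 : ℝ)) ^ (5 / 2 : ℝ) = Y := by
      rw [hY']
      refine intervalIntegral.integral_congr fun t _ => ?_
      rw [← Real.rpow_mul (hn0 t)]
      norm_num
    have e3 : ∫ t in (0 : ℝ)..τ, (w t ^ (8 / 5 : ℝ)) ^ (5 / 3 : ℝ) = X := by
      rw [hX]
      refine intervalIntegral.integral_congr fun t _ => ?_
      rw [← Real.rpow_mul (hw0 t)]
      norm_num
    rw [e2, e3] at hH
    have i0 : 0 ≤ ∫ t in (0 : ℝ)..τ, n t ^ (16 / 5 : ℝ) * w t ^ (8 / 5 : ℝ) :=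
      intervalIntegral.integral_nonneg hτ.le fun t _ =>
        mul_nonneg (Real.rpow_nonneg (hn0 t) _) (Real.rpow_nonneg (hw0 t) _)
    calc (3 ^ (8 / 5 : ℝ) * ∫ t in (0 : ℝ)..τ, n t ^ (16 / 5 : ℝ) * w t ^ (8 / 5 : ℝ)) ^ (5 / 8 : ℝ)
        ≤ (3 ^ (8 / 5 : ℝ) * (Y ^ (1 / (5 / 2) : ℝ) * X ^ (1 / (5 / 3) : ℝ))) ^ (5 / 8 : ℝ) := by
          apply Real.rpow_le_rpow (by positivity) _ (by norm_num)
          gcongr
      _ = 3 * Y ^ (1 / 4 : ℝ) * X ^ (3 / 8 : ℝ) := by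
          rw [Real.mul_rpow (by positivity) (by positivity),
            Real.mul_rpow (by positivity) (by positivity), ← Real.rpow_mul (by norm_num),
            ← Real.rpow_mul hY0, ← Real.rpow_mul hX0]
          norm_num
          ring
  set a := ‖dq h (v t₁)‖ with ha
  have ha' : ‖dq h (v (t₁ + 0))‖ = a := by rw [add_zero]
  simp only [ha'] at hS
  have hXb : X ^ (3 / 8 : ℝ) ≤ 6 * τ ^ (1 / 8 : ℝ) * a := by
    have h1 : 6 * τ ^ (1 / 4 : ℝ) * (∫ t in (0 : ℝ)..τ, q t ^ (8 / 5 : ℝ)) ^ (5 / 8 : ℝ) ≤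
        18 * ε ^ (1 / 4 : ℝ) * X ^ (3 / 8 : ℝ) := by
      calc _ ≤ 6 * τ ^ (1 / 4 : ℝ) * (3 * Y ^ (1 / 4 : ℝ) * X ^ (3 / 8 : ℝ)) := by gcongr
        _ = _ := by rw [hεs]; ring
    have h2 : 18 * ε ^ (1 / 4 : ℝ) * X ^ (3 / 8 : ℝ) ≤ 1 / 2 * X ^ (3 / 8 : ℝ) :=
      mul_le_mul_of_nonneg_right hε4 (Real.rpow_nonneg hX0 _)
    linarith
  -- energy
  have hE : ‖dq h (v (t₁ + τ))‖ ^ 2 - a ^ 2 =
      ∫ r in (0 : ℝ)..τ, -2 * ∫ x, (conj (dq h (v (t₁ + r)) x) * dq h (N (t₁ + r)) x).im := by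
    have hβ : Cb1 (fun _ => (1 : ℝ)) := by
      refine ⟨contDiff_const, 1, fun a => ?_⟩
      simp
    have hB := hBIL (T - t₁) _ _ _ _ _ _ _ _ W W (fun _ => (1 : ℝ)) hβ 0 τ le_rfl hτ.le hτT
    have e1 : ∀ (b : L2), ∫ x : ℝ × ℝ, (((1 : ℝ) : ℝ) : ℂ) * (conj (b x) * b x) =
        ((‖b‖ ^ 2 : ℝ) : ℂ) := by
      intro b
      have : inner ℂ b b = ((‖b‖ ^ 2 : ℝ) : ℂ) := by
        rw [inner_self_eq_norm_sq_to_K]; norm_cast
      rw [← this, inner_eq]
      refine integral_congr_ae (Eventually.of_forall fun x => ?_)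
      simp
    simp only [e1] at hB
    have e2 : ∀ r : ℝ, (4 * Complex.I * (∫ x : ℝ × ℝ, ((deriv (fun _ : ℝ => (1 : ℝ)) x.1 : ℝ) : ℂ) *
      (conj (dq h (v₂ (t₁ + r)) x) * dq h (v (t₁ + r)) x)) +
      Complex.I * ∫ x : ℝ × ℝ, (((1 : ℝ) : ℝ) : ℂ) *
      (conj (dq h (v (t₁ + r)) x) * dq h (N (t₁ + r)) x -
        conj (dq h (N (t₁ + r)) x) * dq h (v (t₁ + r)) x)) =
      ((-2 * ∫ x, (conj (dq h (v (t₁ + r)) x) * dq h (N (t₁ + r)) x).im : ℝ) : ℂ) := by
      intro r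
      have a1 : ∫ x : ℝ × ℝ, ((deriv (fun _ : ℝ => (1 : ℝ)) x.1 : ℝ) : ℂ) *
        (conj (dq h (v₂ (t₁ + r)) x) * dq h (v (t₁ + r)) x) = 0 := by simp
      have a2 : ∫ x : ℝ × ℝ, (((1 : ℝ) : ℝ) : ℂ) *
        (conj (dq h (v (t₁ + r)) x) * dq h (N (t₁ + r)) x -
        conj (dq h (N (t₁ + r)) x) * dq h (v (t₁ + r)) x) =
        2 * Complex.I *
          ((∫ x, (conj (dq h (v (t₁ + r)) x) * dq h (N (t₁ + r)) x).im : ℝ) : ℂ) := by
        rw [show ((∫ x, (conj (dq h (v (t₁ + r)) x) * dq h (N (t₁ + r)) x).im : ℝ) : ℂ) =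
          ∫ x, (((conj (dq h (v (t₁ + r)) x) * dq h (N (t₁ + r)) x).im : ℝ) : ℂ) from
          (integral_ofReal).symm, ← integral_const_mul]
        refine integral_congr_ae (Eventually.of_forall fun x => ?_)
        simp only
        have hz : ∀ z y : ℂ, conj z * y - conj y * z = 2 * Complex.I * (((conj z * y).im : ℝ) : ℂ) := by
          intro z y
          apply Complex.ext
          · simp
            ring
          · simp
            ring
        rw [hz]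
        simp
      rw [a1, a2, mul_zero, zero_add]
      have : Complex.I * (2 * Complex.I *
          ((∫ x, (conj (dq h (v (t₁ + r)) x) * dq h (N (t₁ + r)) x).im : ℝ) : ℂ)) =
          2 * (Complex.I * Complex.I) *
          ((∫ x, (conj (dq h (v (t₁ + r)) x) * dq h (N (t₁ + r)) x).im : ℝ) : ℂ) := by ring
      rw [this, Complex.I_mul_I]
      push_cast
      ring
    simp only [e2] at hB
    rw [intervalIntegral.integral_ofReal, ← Complex.ofReal_sub] at hB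
    have := Complex.ofReal_injective hB
    rw [add_zero] at this
    exact this
  have hbound : ‖dq h (v (t₁ + τ))‖ ^ 2 - a ^ 2 ≤ ∫ t in (0 : ℝ)..τ, 6 * (n t ^ 2 * w t ^ 2) := by
    rw [hE]
    have hcb : ContinuousOn (fun t => 6 * (n t ^ 2 * w t ^ 2)) (Icc 0 τ) :=
      continuousOn_const.mul ((hnc.pow 2).mul (hwc.pow 2))
    have hii : IntervalIntegrable (fun t => 6 * (n t ^ 2 * w t ^ 2)) volume 0 τ := by
      apply ContinuousOn.intervalIntegrable
      rwa [uIcc_of_le hτ.le]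
    refine (le_abs_self _).trans ?_
    rw [← Real.norm_eq_abs]
    apply intervalIntegral.norm_integral_le_of_norm_le hτ.le _ hii
    refine Eventually.of_forall fun t ht => ?_
    have := (hNW t ⟨ht.1.le, ht.2⟩).2
    rw [norm_mul, Real.norm_eq_abs, Real.norm_eq_abs]
    have h2 : |(-2 : ℝ)| = 2 := by norm_num
    rw [h2]
    linarith
  have hH2 := holder hτ (c := fun t => n t ^ 2) (d := fun t => w t ^ 2)
      (hnc.pow 2) (hwc.pow 2)
      (fun t _ => pow_nonneg (hn0 t) _) (fun t _ => pow_nonneg (hw0 t) _)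
      (p := 4) (q := 4 / 3) (Real.holderConjugate_iff.2 ⟨by norm_num, by norm_num⟩)
  have e2 : ∫ t in (0 : ℝ)..τ, (n t ^ 2) ^ (4 : ℝ) = Y := by
    rw [hY']
    refine intervalIntegral.integral_congr fun t _ => ?_
    rw [← Real.rpow_natCast, ← Real.rpow_mul (hn0 t)]
    norm_num
  have e3 : ∫ t in (0 : ℝ)..τ, (w t ^ 2) ^ (4 / 3 : ℝ) = X := by
    rw [hX]
    refine intervalIntegral.integral_congr fun t _ => ?_
    rw [← Real.rpow_natCast, ← Real.rpow_mul (hw0 t)]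
    norm_num
  rw [e2, e3] at hH2
  have hX34 : X ^ (1 / (4 / 3) : ℝ) ≤ 36 * τ ^ (1 / 4 : ℝ) * a ^ 2 := by
    have e4 : X ^ (1 / (4 / 3) : ℝ) = (X ^ (3 / 8 : ℝ)) ^ 2 := by
      rw [← Real.rpow_natCast, ← Real.rpow_mul hX0]; norm_num
    have e5 : (6 * τ ^ (1 / 8 : ℝ) * a) ^ 2 = 36 * τ ^ (1 / 4 : ℝ) * a ^ 2 := by
      have : (τ ^ (1 / 8 : ℝ)) ^ 2 = τ ^ (1 / 4 : ℝ) := by
        rw [← Real.rpow_natCast, ← Real.rpow_mul hτ.le]; norm_num
      rw [mul_pow, mul_pow, this]; norm_num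
    rw [e4, ← e5]
    exact pow_le_pow_left₀ (Real.rpow_nonneg hX0 _) hXb 2
  have hfin : ‖dq h (v (t₁ + τ))‖ ^ 2 - a ^ 2 ≤ 216 * ε ^ (1 / 4 : ℝ) * a ^ 2 := by
    refine hbound.trans ?_
    rw [intervalIntegral.integral_const_mul]
    calc 6 * ∫ t in (0 : ℝ)..τ, n t ^ 2 * w t ^ 2
        ≤ 6 * (Y ^ (1 / 4 : ℝ) * X ^ (1 / (4 / 3) : ℝ)) := by gcongr
      _ ≤ 6 * (Y ^ (1 / 4 : ℝ) * (36 * τ ^ (1 / 4 : ℝ) * a ^ 2)) := by gcongr
      _ = _ := by rw [hεs]; ring
  have hτ2 : t₁ + τ = t₂ := by rw [hτd]; ring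
  rw [hτ2] at hfin
  linarith

end Pool.Agent.Lib.MP424d38.TY
end
end

section
/-!
# HYG: Hausdorff-Young `4/3 → 4` for Schwartz functions
-/
set_option autoImplicit false

open MeasureTheory Filter Topology Set
open scoped ENNReal ContDiff ComplexConjugate FourierTransform SchwartzMap

noncomputable section

namespace Pool.Agent.Lib.MP424d38.TY

namespace HYGM

/-- Plancherel in `ℝ≥0∞` form -/
theorem planch (H : 𝓢(E2, ℂ)) :
    ∫⁻ k, ‖(𝓕 H : 𝓢(E2, ℂ)) k‖ₑ ^ (2 : ℝ) = ∫⁻ k, ‖H k‖ₑ ^ (2 : ℝ) := by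
  have h1 := SchwartzMap.norm_fourier_toL2_eq H
  rw [SchwartzMap.norm_toLp, SchwartzMap.norm_toLp] at h1
  have h2 : eLpNorm (⇑(𝓕 H : 𝓢(E2, ℂ))) 2 volume = eLpNorm (⇑H) 2 volume := by
    rw [← ENNReal.toReal_eq_toReal_iff' ((𝓕 H : 𝓢(E2, ℂ)).memLp 2 volume).eLpNorm_lt_top.ne
      (H.memLp 2 volume).eLpNorm_lt_top.ne]
    exact h1
  rw [eLpNorm_eq_lintegral_rpow_enorm_toReal (by norm_num) (by norm_num),
    eLpNorm_eq_lintegral_rpow_enorm_toReal (by norm_num) (by norm_num)] at h2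
  have h3 := congrArg (fun x => x ^ (2 : ℝ)) h2
  simp only [ENNReal.toReal_ofNat] at h3
  rw [← ENNReal.rpow_mul, ← ENNReal.rpow_mul] at h3
  norm_num at h3
  norm_num
  exact h3

theorem hy (hYNG : SpecYNG) (g : 𝓢(E2, ℂ)) :
    ∫⁻ k, ‖(𝓕 g : 𝓢(E2, ℂ)) k‖ₑ ^ (4 : ℝ) ≤ (∫⁻ x, ‖g x‖ₑ ^ (4 / 3 : ℝ)) ^ (3 : ℝ) := by
  set H : 𝓢(E2, ℂ) := SchwartzMap.convolution (ContinuousLinearMap.mul ℂ ℂ) g g with hH
  have hF : ∀ k, (𝓕 H : 𝓢(E2, ℂ)) k = (𝓕 g : 𝓢(E2, ℂ)) k * (𝓕 g : 𝓢(E2, ℂ)) k := by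
    intro k
    rw [hH, SchwartzMap.fourier_convolution, SchwartzMap.pairing_apply_apply]
    rfl
  have hC : ∀ y, H y = ∫ x, g x * g (y - x) := by
    intro y
    rw [hH, SchwartzMap.convolution_apply]
    rfl
  set M := ∫⁻ k, ‖H k‖ₑ ^ (2 : ℝ) with hM
  have hJ : ∫⁻ k, ‖(𝓕 g : 𝓢(E2, ℂ)) k‖ₑ ^ (4 : ℝ) = M := by
    rw [hM, ← planch H]
    refine lintegral_congr fun k => ?_
    rw [hF k, enorm_mul, ENNReal.mul_rpow_of_nonneg _ _ (by norm_num),
      ← ENNReal.rpow_add_of_nonneg _ _ (by norm_num) (by norm_num)]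
    norm_num
  rw [hJ]
  set A := ∫⁻ x, ‖g x‖ₑ ^ (4 / 3 : ℝ) with hA
  have hgm : Measurable fun x => ‖g x‖ₑ := g.continuous.measurable.enorm
  have hHm : Measurable fun x => ‖H x‖ₑ := H.continuous.measurable.enorm
  -- the main estimate
  have hmain : M ≤ A ^ (3 / 4 : ℝ) * A ^ (3 / 4 : ℝ) * M ^ (1 / 2 : ℝ) := by
    have hY := (hYNG (4 / 3) (4 / 3) 2 (by norm_num) (by norm_num) (by norm_num) (by norm_num)).2
      (fun x => ‖g x‖ₑ) (fun x => ‖g x‖ₑ) (fun x => ‖H x‖ₑ) hgm hgm hHm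
    have e1 : (1 : ℝ) / (4 / 3) = 3 / 4 := by norm_num
    rw [e1] at hY
    refine le_trans ?_ hY
    have hsw : ∫⁻ x, ∫⁻ y, ‖g x‖ₑ * ‖g (y - x)‖ₑ * ‖H y‖ₑ =
        ∫⁻ y, ∫⁻ x, ‖g x‖ₑ * ‖g (y - x)‖ₑ * ‖H y‖ₑ := by
      refine lintegral_lintegral_swap ?_
      have : Measurable fun z : E2 × E2 => ‖g z.1‖ₑ * ‖g (z.2 - z.1)‖ₑ * ‖H z.2‖ₑ :=
        ((hgm.comp measurable_fst).mul (hgm.comp (measurable_snd.sub measurable_fst))).mul
          (hHm.comp measurable_snd)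
      exact this.aemeasurable
    rw [hsw]
    refine lintegral_mono fun y => ?_
    have hm1 : Measurable fun x => ‖g x‖ₑ * ‖g (y - x)‖ₑ :=
      hgm.mul (hgm.comp (measurable_id.const_sub y))
    show ‖H y‖ₑ ^ (2 : ℝ) ≤ ∫⁻ x, ‖g x‖ₑ * ‖g (y - x)‖ₑ * ‖H y‖ₑ
    rw [lintegral_mul_const _ hm1]
    have : ‖H y‖ₑ ^ (2 : ℝ) = ‖H y‖ₑ * ‖H y‖ₑ := by
      rw [ENNReal.rpow_two, sq]
    rw [this]
    gcongr
    rw [hC y]
    refine (enorm_integral_le_lintegral_enorm _).trans (le_of_eq ?_)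
    refine lintegral_congr fun x => ?_
    rw [enorm_mul]
  have hMt : M ≠ (⊤ : ℝ≥0∞) := by
    have := (H.memLp 2 volume).eLpNorm_lt_top
    rw [eLpNorm_lt_top_iff_lintegral_rpow_enorm_lt_top (by norm_num) (by norm_num)] at this
    rw [ENNReal.toReal_ofNat] at this
    exact this.ne
  rcases eq_or_ne M 0 with h0 | h0
  · rw [h0]; exact bot_le
  have hM2 : M ^ (1 / 2 : ℝ) ≤ A ^ (3 / 2 : ℝ) := by
    have e1 : M = M ^ (1 / 2 : ℝ) * M ^ (1 / 2 : ℝ) := by
      rw [← ENNReal.rpow_add_of_nonneg _ _ (by norm_num) (by norm_num)]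
      norm_num
    have e2 : A ^ (3 / 4 : ℝ) * A ^ (3 / 4 : ℝ) = A ^ (3 / 2 : ℝ) := by
      rw [← ENNReal.rpow_add_of_nonneg _ _ (by norm_num) (by norm_num)]
      norm_num
    rw [e2] at hmain
    have hp0 : M ^ (1 / 2 : ℝ) ≠ 0 := by
      simp [ENNReal.rpow_eq_zero_iff, h0, hMt]
    have hpt : M ^ (1 / 2 : ℝ) ≠ (⊤ : ℝ≥0∞) := by
      simp [ENNReal.rpow_eq_top_iff, h0, hMt]
    rw [← ENNReal.mul_le_mul_iff_left hp0 hpt]
    rw [← e1]
    exact hmain
  calc M = (M ^ (1 / 2 : ℝ)) ^ (2 : ℝ) := by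
        rw [← ENNReal.rpow_mul]; norm_num
    _ ≤ (A ^ (3 / 2 : ℝ)) ^ (2 : ℝ) := ENNReal.rpow_le_rpow hM2 (by norm_num)
    _ = A ^ (3 : ℝ) := by rw [← ENNReal.rpow_mul]; norm_num

end HYGM

theorem specHYG (hYNG : SpecYNG) : SpecHYG := by
  intro g
  have h := HYGM.hy hYNG g
  have h43 : ((4 : ℝ≥0∞) / 3).toReal = 4 / 3 := by simp
  have h430 : ((4 : ℝ≥0∞) / 3) ≠ 0 := by simp
  have h43t : ((4 : ℝ≥0∞) / 3) ≠ (⊤ : ℝ≥0∞) := by
    exact ENNReal.div_ne_top (by norm_num) (by norm_num)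
  rw [eLpNorm_eq_lintegral_rpow_enorm_toReal (by norm_num) (by norm_num),
    eLpNorm_eq_lintegral_rpow_enorm_toReal h430 h43t, h43]
  have h4 : ((4 : ℝ≥0∞)).toReal = 4 := by simp
  rw [h4]
  calc (∫⁻ k, ‖(𝓕 g : 𝓢(E2, ℂ)) k‖ₑ ^ (4 : ℝ)) ^ (1 / (4 : ℝ))
      ≤ ((∫⁻ x, ‖g x‖ₑ ^ (4 / 3 : ℝ)) ^ (3 : ℝ)) ^ (1 / (4 : ℝ)) :=
        ENNReal.rpow_le_rpow h (by norm_num)
    _ = _ := by
      rw [← ENNReal.rpow_mul]; norm_num

end Pool.Agent.Lib.MP424d38.TY
end
end

section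
set_option autoImplicit false

open MeasureTheory Filter Topology Set
open scoped ENNReal

namespace Pool.Agent.Lib.MP424d38.TY

namespace HYTM

theorem half (τ : ℝ) (hτ : 0 < τ) :
    ∫⁻ u in Ioc 0 τ, ENNReal.ofReal (u ^ (-(2 / 3) : ℝ)) = ENNReal.ofReal (3 * τ ^ (1 / 3 : ℝ)) := by
  have h1 : IntervalIntegrable (fun u : ℝ => u ^ (-(2 / 3) : ℝ)) volume 0 τ :=
    intervalIntegral.intervalIntegrable_rpow' (by norm_num)
  have h2 : IntegrableOn (fun u : ℝ => u ^ (-(2 / 3) : ℝ)) (Ioc 0 τ) volume :=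
    (intervalIntegrable_iff_integrableOn_Ioc_of_le hτ.le).1 h1
  rw [← ofReal_integral_eq_lintegral_ofReal h2 (by
    filter_upwards [self_mem_ae_restrict measurableSet_Ioc] with u hu
    exact Real.rpow_nonneg hu.1.le _), ← intervalIntegral.integral_of_le hτ.le,
    integral_rpow (Or.inl (by norm_num))]
  congr 1
  rw [show (-(2 / 3) + 1 : ℝ) = 1 / 3 by norm_num, Real.zero_rpow (by norm_num)]
  ring

/-- the kernel -/
noncomputable def ker (τ : ℝ) (u : ℝ) : ℝ≥0∞ :=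
  (Icc (-τ) τ).indicator (fun u => ENNReal.ofReal (|u| ^ (-(1 / 2) : ℝ))) u

theorem ker_meas (τ : ℝ) : Measurable (ker τ) := by
  unfold ker
  apply Measurable.indicator _ measurableSet_Icc
  exact ((measurable_abs).pow_const _).ennreal_ofReal

theorem ker_neg (τ u : ℝ) : ker τ (-u) = ker τ u := by
  unfold ker
  by_cases h : u ∈ Icc (-τ) τ
  · rw [indicator_of_mem h, indicator_of_mem (show -u ∈ Icc (-τ) τ from
      ⟨by linarith [h.2], by linarith [h.1]⟩), abs_neg]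
  · rw [indicator_of_notMem h, indicator_of_notMem (fun h' => h
      ⟨by linarith [h'.2], by linarith [h'.1]⟩)]

theorem ker_pow (τ : ℝ) {u : ℝ} (hu : u ∈ Ioc 0 τ) :
    ker τ u ^ (4 / 3 : ℝ) = ENNReal.ofReal (u ^ (-(2 / 3) : ℝ)) := by
  unfold ker
  rw [indicator_of_mem (show u ∈ Icc (-τ) τ from ⟨by linarith [hu.1, hu.2], hu.2⟩),
    abs_of_pos hu.1, ENNReal.ofReal_rpow_of_nonneg (Real.rpow_nonneg hu.1.le _) (by norm_num),
    ← Real.rpow_mul hu.1.le]
  norm_num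

theorem ker_pow_out (τ : ℝ) {u : ℝ} (hu : τ < u) (hτ : 0 < τ) :
    ker τ u ^ (4 / 3 : ℝ) = 0 := by
  unfold ker
  rw [indicator_of_notMem (fun h => absurd h.2 (not_le.2 hu)), ENNReal.zero_rpow_of_pos (by norm_num)]

theorem pos_part (τ : ℝ) (hτ : 0 < τ) :
    ∫⁻ u in Ioi 0, ker τ u ^ (4 / 3 : ℝ) = ENNReal.ofReal (3 * τ ^ (1 / 3 : ℝ)) := by
  rw [← half τ hτ, ← Ioc_union_Ioi_eq_Ioi hτ.le, lintegral_union measurableSet_Ioi
    (Set.Ioc_disjoint_Ioi le_rfl)]
  have h1 : ∫⁻ u in Ioi τ, ker τ u ^ (4 / 3 : ℝ) = 0 := by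
    rw [setLIntegral_congr_fun (g := fun _ => 0) measurableSet_Ioi
      (fun u hu => ker_pow_out τ hu hτ)]
    simp
  rw [h1, add_zero]
  exact setLIntegral_congr_fun measurableSet_Ioc (fun u hu => ker_pow τ hu)

theorem total (τ : ℝ) (hτ : 0 < τ) :
    ∫⁻ u, ker τ u ^ (4 / 3 : ℝ) = ENNReal.ofReal (6 * τ ^ (1 / 3 : ℝ)) := by
  have h1 := lintegral_add_compl (μ := volume) (fun u => ker τ u ^ (4 / 3 : ℝ))
    (measurableSet_Ioi (a := (0 : ℝ)))
  rw [← h1, compl_Ioi, pos_part τ hτ]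
  have h2 : ∫⁻ u in Iic 0, ker τ u ^ (4 / 3 : ℝ) = ∫⁻ u in Ioi 0, ker τ u ^ (4 / 3 : ℝ) := by
    rw [← lintegral_indicator measurableSet_Iic,
      ← lintegral_neg_eq_self (μ := volume) ((Iic 0).indicator fun u => ker τ u ^ (4 / 3 : ℝ)),
      ← setLIntegral_congr (Ioi_ae_eq_Ici (a := (0 : ℝ))).symm,
      ← lintegral_indicator measurableSet_Ici]
    apply lintegral_congr
    intro u
    by_cases hu : 0 ≤ u
    · rw [indicator_of_mem (show -u ∈ Iic (0 : ℝ) from neg_nonpos.2 hu),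
        indicator_of_mem (show u ∈ Ici (0 : ℝ) from hu), ker_neg]
    · rw [indicator_of_notMem (show -u ∉ Iic (0 : ℝ) from fun h => hu (neg_nonpos.1 h)),
        indicator_of_notMem (show u ∉ Ici (0 : ℝ) from hu)]
  rw [h2, pos_part τ hτ, ← ENNReal.ofReal_add (by positivity) (by positivity)]
  congr 1; ring

end HYTM

theorem specHYT (hYNG : SpecYNG) : SpecHYT := by
  intro τ f g hτ hf hg
  have hy := (hYNG (8 / 5) (4 / 3) (8 / 5) (by norm_num) (by norm_num) (by norm_num)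
    (by norm_num)).1 ((Icc 0 τ).indicator f) (HYTM.ker τ) ((Icc 0 τ).indicator g)
    (hf.indicator measurableSet_Icc) (HYTM.ker_meas τ) (hg.indicator measurableSet_Icc)
  have e1 : ∀ φ : ℝ → ℝ≥0∞, ∫⁻ x, (Icc 0 τ).indicator φ x ^ (8 / 5 : ℝ) =
      ∫⁻ x in Icc 0 τ, φ x ^ (8 / 5 : ℝ) := by
    intro φ
    rw [← lintegral_indicator measurableSet_Icc]
    apply lintegral_congr
    intro x
    by_cases hx : x ∈ Icc 0 τ
    · rw [indicator_of_mem hx, indicator_of_mem hx]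
    · rw [indicator_of_notMem hx, indicator_of_notMem hx, ENNReal.zero_rpow_of_pos (by norm_num)]
  rw [e1, e1, HYTM.total τ hτ] at hy
  have h0 : ∫⁻ t in Icc 0 τ, ∫⁻ s in Icc 0 τ,
      f t * ENNReal.ofReal (|t - s| ^ (-(1 / 2) : ℝ)) * g s ≤
      ∫⁻ x, ∫⁻ y, (Icc 0 τ).indicator f x * HYTM.ker τ (y - x) * (Icc 0 τ).indicator g y := by
    rw [← lintegral_indicator measurableSet_Icc]
    apply lintegral_mono
    intro x
    by_cases hx : x ∈ Icc 0 τ
    · rw [indicator_of_mem hx, ← lintegral_indicator measurableSet_Icc]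
      apply lintegral_mono
      intro y
      by_cases hy' : y ∈ Icc 0 τ
      · rw [indicator_of_mem hy']
        simp only
        rw [indicator_of_mem hx, indicator_of_mem hy']
        unfold HYTM.ker
        rw [indicator_of_mem (show y - x ∈ Icc (-τ) τ from
          ⟨by linarith [hx.2, hy'.1], by linarith [hx.1, hy'.2]⟩), abs_sub_comm]
      · rw [indicator_of_notMem hy']
        exact zero_le
    · rw [indicator_of_notMem hx]
      exact zero_le
  refine h0.trans (hy.trans ?_)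
  have h1 : (1 / (8 / 5) : ℝ) = 5 / 8 := by norm_num
  have h2 : (1 / (4 / 3) : ℝ) = 3 / 4 := by norm_num
  rw [h1, h2, mul_comm (_ ^ (5 / 8 : ℝ)) (_ ^ (3 / 4 : ℝ))]
  gcongr
  rw [ENNReal.ofReal_rpow_of_nonneg (by positivity) (by norm_num)]
  apply ENNReal.ofReal_le_ofReal
  rw [Real.mul_rpow (by norm_num) (by positivity), ← Real.rpow_mul hτ.le,
    show (1 / 3 * (3 / 4) : ℝ) = 1 / 4 by norm_num]
  gcongr
  calc (6 : ℝ) ^ (3 / 4 : ℝ) ≤ 6 ^ (1 : ℝ) :=
        Real.rpow_le_rpow_of_exponent_le (by norm_num) (by norm_num)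
    _ = 6 := by norm_num

end Pool.Agent.Lib.MP424d38.TY
end

section
/-!
# MP_424d38_an, block TY, module KDS (dispersive estimate for the kernel operator)
-/
set_option autoImplicit false

open MeasureTheory Filter Topology Set
open scoped ENNReal ContDiff ComplexConjugate FourierTransform SchwartzMap

noncomputable section

namespace Pool.Agent.Lib.MP424d38.TY

namespace KDSM

/-- `e^{i a b/4t} ψ(a,b)` on `E2` -/
def gf (t : ℝ) (ψ : ℝ × ℝ → ℂ) (x : E2) : ℂ :=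
  Complex.exp ((((prE x).1 * (prE x).2 / (4 * t) : ℝ) : ℂ) * Complex.I) * ψ (prE x)

theorem prE_smooth : ContDiff ℝ ∞ prE :=
  (WithLp.prodContinuousLinearEquiv 2 ℝ ℝ ℝ).contDiff

theorem gf_smooth (t : ℝ) {ψ : ℝ × ℝ → ℂ} (h : Test ψ) : ContDiff ℝ ∞ (gf t ψ) := by
  have h1 : ContDiff ℝ ∞ fun x : E2 => (prE x).1 * (prE x).2 / (4 * t) :=
    ((contDiff_fst.comp prE_smooth).mul (contDiff_snd.comp prE_smooth)).div_const _
  have h2 : ContDiff ℝ ∞ fun x : E2 =>
      (((prE x).1 * (prE x).2 / (4 * t) : ℝ) : ℂ) * Complex.I :=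
    (Complex.ofRealCLM.contDiff.comp h1).mul contDiff_const
  exact h2.cexp.mul (h.1.comp prE_smooth)

theorem gf_supp (t : ℝ) {ψ : ℝ × ℝ → ℂ} (h : Test ψ) : HasCompactSupport (gf t ψ) := by
  have h1 : HasCompactSupport fun x : E2 => ψ (prE x) :=
    h.2.comp_homeomorph (WithLp.prodContinuousLinearEquiv 2 ℝ ℝ ℝ).toHomeomorph
  exact h1.mul_left

/-- the Schwartz function `gf` -/
def GS (t : ℝ) {ψ : ℝ × ℝ → ℂ} (h : Test ψ) : 𝓢(E2, ℂ) :=
  (gf_supp t h).toSchwartzMap (gf_smooth t h)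

theorem GS_apply (t : ℝ) {ψ : ℝ × ℝ → ℂ} (h : Test ψ) (x : E2) : GS t h x = gf t ψ x := rfl

theorem inE_emb : MeasurableEmbedding inE :=
  (WithLp.prodContinuousLinearEquiv 2 ℝ ℝ ℝ).symm.toHomeomorph.measurableEmbedding

theorem fourier_GS (t : ℝ) {ψ : ℝ × ℝ → ℂ} (h : Test ψ) (k : ℝ × ℝ) :
    (𝓕 (GS t h) : 𝓢(E2, ℂ)) (inE k) =
      ∫ y : ℝ × ℝ, Complex.exp (((-2 * Real.pi * (y.1 * k.1 + y.2 * k.2) : ℝ) : ℂ) * Complex.I) *
        (Complex.exp (((y.1 * y.2 / (4 * t) : ℝ) : ℂ) * Complex.I) * ψ y) := by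
  rw [SchwartzMap.fourier_coe, Real.fourier_eq', ← inE_mp.integral_comp inE_emb]
  apply integral_congr_ae
  filter_upwards with y
  have e : inner ℝ (inE y) (inE k) = y.1 * k.1 + y.2 * k.2 := by
    rw [WithLp.prod_inner_apply]
    simp [inE, mul_comm]
  rw [e, GS_apply, smul_eq_mul]
  rfl

theorem KK_eq (t : ℝ) (ht : t ≠ 0) {ψ : ℝ × ℝ → ℂ} (h : Test ψ) (x : ℝ × ℝ) :
    KK t ψ x = (((8 * Real.pi * |t|)⁻¹ : ℝ) : ℂ) *
      (Complex.exp (((x.1 * x.2 / (4 * t) : ℝ) : ℂ) * Complex.I) *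
        (𝓕 (GS t h) : 𝓢(E2, ℂ)) (inE (((8 * Real.pi * t)⁻¹ • x).swap))) := by
  rw [fourier_GS, KK]
  congr 1
  rw [← integral_const_mul]
  apply integral_congr_ae
  filter_upwards with y
  rw [← mul_assoc, ← mul_assoc, ← Complex.exp_add, ← Complex.exp_add]
  congr 2
  rw [← add_mul, ← add_mul, ← Complex.ofReal_add, ← Complex.ofReal_add]
  congr 2
  have hpi : Real.pi ≠ 0 := Real.pi_ne_zero
  simp only [Prod.fst_swap, Prod.snd_swap, Prod.smul_fst, Prod.smul_snd, smul_eq_mul]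
  field_simp
  ring

theorem norm_exp_I (r : ℝ) : ‖Complex.exp ((r : ℂ) * Complex.I)‖ = 1 :=
  Complex.norm_exp_ofReal_mul_I r

theorem const_ineq (t : ℝ) (ht : t ≠ 0) :
    ENNReal.ofReal (8 * Real.pi * |t|)⁻¹ *
      (ENNReal.ofReal |(((8 * Real.pi * t)⁻¹) ^ 2)⁻¹|) ^ (1 / 4 : ℝ) ≤
        ENNReal.ofReal (|t| ^ (-(1 / 2) : ℝ)) := by
  have hpi := Real.pi_gt_three
  have htp : 0 < |t| := abs_pos.2 ht
  have hs : 0 < 8 * Real.pi * |t| := by positivity
  have e1 : |(((8 * Real.pi * t)⁻¹) ^ 2)⁻¹| = (8 * Real.pi * |t|) ^ 2 := by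
    rw [inv_pow, inv_inv, abs_pow, abs_mul, abs_mul, abs_of_pos Real.pi_pos,
      abs_of_pos (by norm_num : (0 : ℝ) < 8)]
  rw [e1, ENNReal.ofReal_rpow_of_nonneg (by positivity) (by norm_num),
    ← ENNReal.ofReal_mul (by positivity)]
  apply ENNReal.ofReal_le_ofReal
  set s := 8 * Real.pi * |t| with hsdef
  have e2 : (s ^ 2) ^ (1 / 4 : ℝ) = s ^ (1 / 2 : ℝ) := by
    rw [← Real.rpow_natCast, ← Real.rpow_mul hs.le]
    norm_num
  have e3 : s⁻¹ * s ^ (1 / 2 : ℝ) = s ^ (-(1 / 2) : ℝ) := by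
    rw [← Real.rpow_neg_one, ← Real.rpow_add hs]
    norm_num
  rw [e2, e3]
  apply Real.rpow_le_rpow_of_nonpos htp _ (by norm_num)
  rw [hsdef]
  nlinarith

theorem scale (F : ℝ × ℝ → ℂ) (hF : Continuous F) (c : ℝ) (hc : c ≠ 0) :
    eLpNorm (fun x : ℝ × ℝ => F (c • x)) 4 volume =
      (ENNReal.ofReal |(c ^ 2)⁻¹|) ^ (1 / 4 : ℝ) * eLpNorm F 4 volume := by
  have h1 : Measure.map (fun x : ℝ × ℝ => c • x) (volume : Measure (ℝ × ℝ)) =
      ENNReal.ofReal |(c ^ 2)⁻¹| • (volume : Measure (ℝ × ℝ)) := by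
    have := Measure.map_addHaar_smul (volume : Measure (ℝ × ℝ)) hc
    rw [Module.finrank_prod, Module.finrank_self] at this
    exact this
  have h2 := eLpNorm_map_measure (p := 4) (μ := (volume : Measure (ℝ × ℝ))) (g := F)
    (f := fun x : ℝ × ℝ => c • x) hF.aestronglyMeasurable
    (measurable_const_smul c).aemeasurable
  rw [h1, eLpNorm_smul_measure_of_ne_top (by norm_num)] at h2
  have h3 : (F ∘ fun x : ℝ × ℝ => c • x) = fun x : ℝ × ℝ => F (c • x) := rfl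
  rw [h3] at h2
  rw [← h2, smul_eq_mul]
  congr 2
  norm_num

end KDSM

open KDSM in
/-- **KDS** -/
theorem specKDS (hHYG : SpecHYG) : SpecKDS := by
  intro t ψ ht hψ
  set G := GS t hψ with hG
  have hc : (8 * Real.pi * t)⁻¹ ≠ 0 :=
    inv_ne_zero (mul_ne_zero (mul_ne_zero (by norm_num) Real.pi_ne_zero) ht)
  set F0 : ℝ × ℝ → ℂ := fun y => (𝓕 G : 𝓢(E2, ℂ)) (inE y.swap) with hF0
  have hinE : Continuous inE := (WithLp.prodContinuousLinearEquiv 2 ℝ ℝ ℝ).symm.continuous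
  have hF0c : Continuous F0 :=
    (𝓕 G : 𝓢(E2, ℂ)).continuous.comp (hinE.comp continuous_swap)
  have e1 : eLpNorm (KK t ψ) 4 volume = eLpNorm
      (fun x : ℝ × ℝ => ((8 * Real.pi * |t|)⁻¹ : ℝ) • F0 ((8 * Real.pi * t)⁻¹ • x)) 4 volume := by
    apply eLpNorm_congr_norm_ae
    filter_upwards with x
    rw [KK_eq t ht hψ x, norm_mul, norm_mul, norm_exp_I, one_mul, norm_smul, Complex.norm_real]
  have e2 : eLpNorm (fun x : ℝ × ℝ => ((8 * Real.pi * |t|)⁻¹ : ℝ) •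
      F0 ((8 * Real.pi * t)⁻¹ • x)) 4 volume =
      ENNReal.ofReal (8 * Real.pi * |t|)⁻¹ *
        eLpNorm (fun x : ℝ × ℝ => F0 ((8 * Real.pi * t)⁻¹ • x)) 4 volume := by
    have := eLpNorm_const_smul (p := 4) (μ := (volume : Measure (ℝ × ℝ)))
      ((8 * Real.pi * |t|)⁻¹ : ℝ) (fun x : ℝ × ℝ => F0 ((8 * Real.pi * t)⁻¹ • x))
    rw [Real.enorm_of_nonneg (by positivity)] at this
    exact this
  have e3 : eLpNorm F0 4 volume = eLpNorm (fun k => (𝓕 G : 𝓢(E2, ℂ)) k) 4 volume := by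
    have h1 := eLpNorm_comp_measurePreserving (p := 4)
      (g := fun k => (𝓕 G : 𝓢(E2, ℂ)) k) (𝓕 G : 𝓢(E2, ℂ)).continuous.aestronglyMeasurable
      (inE_mp.comp (Measure.measurePreserving_swap (μ := (volume : Measure ℝ))
        (ν := (volume : Measure ℝ))))
    exact h1
  have e4 : eLpNorm (fun x => G x) (4 / 3) volume = eLpNorm ψ (4 / 3) volume := by
    have h1 := eLpNorm_comp_measurePreserving (p := 4 / 3)
      (g := ψ) hψ.1.continuous.aestronglyMeasurable prE_mp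
    rw [← h1]
    apply eLpNorm_congr_norm_ae
    filter_upwards with x
    rw [hG, GS_apply, gf, norm_mul, norm_exp_I, one_mul]
    rfl
  rw [e1, e2, scale F0 hF0c _ hc, ← mul_assoc]
  calc _ ≤ ENNReal.ofReal (|t| ^ (-(1 / 2) : ℝ)) * eLpNorm F0 4 volume :=
        mul_le_mul_left (const_ineq t ht) _
    _ ≤ ENNReal.ofReal (|t| ^ (-(1 / 2) : ℝ)) * eLpNorm ψ (4 / 3) volume := by
        rw [e3, ← e4]
        exact mul_le_mul_right (hHYG G) _

end Pool.Agent.Lib.MP424d38.TY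
end
end

section
/-!
# Module N4F: facts on `n4 f = ‖f‖₄`
-/
set_option autoImplicit false

open MeasureTheory Filter Topology Set
open scoped ENNReal ContDiff ComplexConjugate

noncomputable section

namespace Pool.Agent.Lib.MP424d38.TY.N4FM

open Pool.Agent.Lib.MP424d38.TY

theorem n4_pow {f : L2} (hf : MemLp f 4 volume) : n4 f ^ 4 = ∫ x, ‖f x‖ ^ 4 := by
  have h1 := hf.eLpNorm_eq_integral_rpow_norm (by norm_num) (by norm_num)
  have h4 : ((4 : ℝ≥0∞)).toReal = (4 : ℝ) := by simp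
  have h0 : 0 ≤ ∫ x, ‖f x‖ ^ (4 : ℝ) := integral_nonneg fun x => by positivity
  unfold n4
  rw [h1, h4, ENNReal.toReal_ofReal (by positivity), ← Real.rpow_natCast, ← Real.rpow_mul h0]
  norm_num

theorem n4_nonneg (f : L2) : 0 ≤ n4 f := ENNReal.toReal_nonneg

theorem n4_tri {f g : L2} (hf : MemLp f 4 volume) (hg : MemLp g 4 volume)
    (hd : MemLp (f - g : L2) 4 volume) : |n4 f - n4 g| ≤ n4 (f - g) := by
  have e : (f - g : L2) =ᵐ[volume] (f : ℝ × ℝ → ℂ) - (g : ℝ × ℝ → ℂ) := Lp.coeFn_sub f g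
  have e1 : eLpNorm (f - g : L2) 4 volume = eLpNorm ((f : ℝ × ℝ → ℂ) - (g : ℝ × ℝ → ℂ)) 4 volume :=
    eLpNorm_congr_ae e
  have hd' : MemLp ((f : ℝ × ℝ → ℂ) - (g : ℝ × ℝ → ℂ)) 4 volume := hf.sub hg
  have h14 : (1 : ℝ≥0∞) ≤ 4 := by norm_num
  have t1 : n4 f ≤ n4 (f - g) + n4 g := by
    unfold n4
    rw [e1, ← ENNReal.toReal_add hd'.2.ne hg.2.ne]
    apply ENNReal.toReal_mono (by finiteness [hd'.2.ne, hg.2.ne])
    have h := eLpNorm_add_le (p := 4) (μ := volume) hd'.1 hg.1 h14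
    rwa [sub_add_cancel] at h
  have t2 : n4 g ≤ n4 (f - g) + n4 f := by
    unfold n4
    rw [e1, ← eLpNorm_neg (f := (f : ℝ × ℝ → ℂ) - (g : ℝ × ℝ → ℂ)), neg_sub]
    have hd'' : MemLp ((g : ℝ × ℝ → ℂ) - (f : ℝ × ℝ → ℂ)) 4 volume := hg.sub hf
    rw [← ENNReal.toReal_add hd''.2.ne hf.2.ne]
    apply ENNReal.toReal_mono (by finiteness [hd''.2.ne, hf.2.ne])
    have h := eLpNorm_add_le (p := 4) (μ := volume) hd''.1 hf.1 h14
    rwa [sub_add_cancel] at h
  rw [abs_le]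
  constructor <;> linarith

theorem h1_sub (hLIN : SpecLIN) {f F₁ F₂ g G₁ G₂ : L2} (hf : IsH1 f F₁ F₂) (hg : IsH1 g G₁ G₂) :
    IsH1 (f - g) (F₁ - G₁) (F₂ - G₂) := by
  have h1 := hLIN.2.1 (-1) g G₁ G₂ hg
  have h2 := hLIN.1 f F₁ F₂ _ _ _ hf h1
  simpa only [neg_smul, one_smul, ← sub_eq_add_neg] using h2

theorem n4_cont (hSOB : SpecSOB) (hLIN : SpecLIN) (T : ℝ) (v v₁ v₂ : ℝ → L2)
    (h1 : ∀ t ∈ Ico 0 T, IsH1 (v t) (v₁ t) (v₂ t)) (cv : ContinuousOn v (Ico 0 T))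
    (c1 : ContinuousOn v₁ (Ico 0 T)) (c2 : ContinuousOn v₂ (Ico 0 T)) :
    ContinuousOn (fun t => n4 (v t)) (Ico 0 T) := by
  intro t₀ ht₀
  have g0 : Tendsto (fun t => ‖v t - v t₀‖) (𝓝[Ico 0 T] t₀) (𝓝 0) :=
    tendsto_iff_norm_sub_tendsto_zero.1 (cv t₀ ht₀)
  have g1 : Tendsto (fun t => ‖v₁ t - v₁ t₀‖) (𝓝[Ico 0 T] t₀) (𝓝 0) :=
    tendsto_iff_norm_sub_tendsto_zero.1 (c1 t₀ ht₀)
  have g2 : Tendsto (fun t => ‖v₂ t - v₂ t₀‖) (𝓝[Ico 0 T] t₀) (𝓝 0) :=
    tendsto_iff_norm_sub_tendsto_zero.1 (c2 t₀ ht₀)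
  have g3 : Tendsto (fun t => (‖v t - v t₀‖ ^ 2 * ‖v₁ t - v₁ t₀‖ * ‖v₂ t - v₂ t₀‖) ^ (1 / 4 : ℝ))
      (𝓝[Ico 0 T] t₀) (𝓝 0) := by
    have h := (((g0.pow 2).mul g1).mul g2).rpow_const (p := (1 / 4 : ℝ)) (Or.inr (by norm_num))
    simpa using h
  refine tendsto_iff_norm_sub_tendsto_zero.2 ?_
  refine squeeze_zero' (Eventually.of_forall fun t => norm_nonneg _) ?_ g3
  filter_upwards [self_mem_nhdsWithin] with t ht
  have hd := h1_sub hLIN (h1 t ht) (h1 t₀ ht₀)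
  have s := hSOB _ _ _ hd
  have s4 : n4 (v t - v t₀) ^ 4 ≤ ‖v t - v t₀‖ ^ 2 * ‖v₁ t - v₁ t₀‖ * ‖v₂ t - v₂ t₀‖ := by
    rw [n4_pow s.1]
    exact s.2.2.2.2.2.2.1
  rw [Real.norm_eq_abs]
  refine (n4_tri (hSOB _ _ _ (h1 t ht)).1 (hSOB _ _ _ (h1 t₀ ht₀)).1 s.1).trans ?_
  have h5 : n4 (v t - v t₀) = (n4 (v t - v t₀) ^ 4) ^ (1 / 4 : ℝ) := by
    rw [← Real.rpow_natCast, ← Real.rpow_mul (n4_nonneg _)]
    norm_num
  rw [h5]
  exact Real.rpow_le_rpow (pow_nonneg (n4_nonneg _) 4) s4 (by norm_num)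

theorem trn_ae (h : ℝ) (f : L2) :
    (trn h f : ℝ × ℝ → ℂ) =ᵐ[volume] (f : ℝ × ℝ → ℂ) ∘ (fun x : ℝ × ℝ => x + ((0 : ℝ), h)) :=
  Lp.coeFn_compMeasurePreserving f _

theorem n4_trn (h : ℝ) (f : L2) : n4 (trn h f) = n4 f := by
  unfold n4
  rw [eLpNorm_congr_ae (trn_ae h f), eLpNorm_comp_measurePreserving (Lp.aestronglyMeasurable f)
    (measurePreserving_add_right volume ((0 : ℝ), h))]

theorem memLp_trn (h : ℝ) (f : L2) (hf : MemLp f 4 volume) : MemLp (trn h f) 4 volume :=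
  (memLp_congr_ae (trn_ae h f)).2
    (hf.comp_measurePreserving (measurePreserving_add_right volume ((0 : ℝ), h)))

end Pool.Agent.Lib.MP424d38.TY.N4FM

namespace Pool.Agent.Lib.MP424d38.TY

open Pool.Agent.Lib.MP424d38.TY.N4FM

theorem specN4F (hSOB : SpecSOB) (hLIN : SpecLIN) : SpecN4F := by
  refine ⟨?_, ?_, ?_, ?_⟩
  · intro f F₁ F₂ hf
    have h := hSOB f F₁ F₂ hf
    exact ⟨h.1, n4_pow h.1⟩
  · intro f F₁ F₂ hf
    have h := hSOB f F₁ F₂ hf
    rw [n4_pow h.1]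
    exact h.2.2.2.2.2.2.1
  · intro T v v₁ v₂ N hv
    exact n4_cont hSOB hLIN T v v₁ v₂ hv.h1 hv.cv hv.c1 hv.c2
  · intro h f
    exact ⟨n4_trn h f, memLp_trn h f⟩

end Pool.Agent.Lib.MP424d38.TY
end
end

section
set_option autoImplicit false

open MeasureTheory Filter Topology Set
open scoped ENNReal NNReal ContDiff ComplexConjugate FourierTransform

noncomputable section

namespace Pool.Agent.Lib.MP424d38.TY.NWBM

theorem ht1 : ENNReal.HolderTriple 2 4 (4 / 3) := ⟨by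
  refine (ENNReal.toReal_eq_toReal_iff' ?_ ?_).1 ?_
  · simp
  · simp
  · rw [ENNReal.toReal_add (by simp) (by simp)]
    simp only [ENNReal.toReal_inv, ENNReal.toReal_div]
    norm_num⟩

theorem ht2 : ENNReal.HolderTriple 4 (4 / 3) 1 := ⟨by
  refine (ENNReal.toReal_eq_toReal_iff' ?_ ?_).1 ?_
  · simp
  · simp
  · rw [ENNReal.toReal_add (by simp) (by simp)]
    simp only [ENNReal.toReal_inv, ENNReal.toReal_div]
    norm_num⟩

variable {α : Type*} [MeasurableSpace α] {μ : Measure α}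

theorem sq4 (f : α → ℂ) : eLpNorm (fun x => ‖f x‖ ^ 2) 2 μ = eLpNorm f 4 μ ^ 2 := by
  have h := eLpNorm_norm_rpow (p := 2) (μ := μ) f (q := 2) (by norm_num)
  have h4 : (2 : ℝ≥0∞) * ENNReal.ofReal 2 = 4 := by
    rw [show ENNReal.ofReal 2 = 2 by simp]; norm_num
  rw [h4] at h
  have e : (fun x => ‖f x‖ ^ (2 : ℝ)) = fun x => ‖f x‖ ^ 2 := by
    funext x
    exact Real.rpow_natCast _ 2
  rw [e] at h
  rw [h]
  exact ENNReal.rpow_natCast _ 2

theorem main1 (A B D E : α → ℂ) (hA : AEStronglyMeasurable A μ) (hB : AEStronglyMeasurable B μ)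
    (hD : AEStronglyMeasurable D μ)
    (h : ∀ᵐ x ∂μ, ‖E x‖ ≤ 3 / 2 * (‖A x‖ ^ 2 + ‖B x‖ ^ 2) * ‖D x‖)
    (hAB : eLpNorm A 4 μ = eLpNorm B 4 μ) :
    eLpNorm E (4 / 3) μ ≤ 3 * eLpNorm B 4 μ ^ 2 * eLpNorm D 4 μ := by
  have h1 : eLpNorm E (4 / 3) μ ≤
      eLpNorm (fun x => (3 / 2 * (‖A x‖ ^ 2 + ‖B x‖ ^ 2)) * ‖D x‖) (4 / 3) μ := by
    apply eLpNorm_mono_ae_real
    exact h
  have := ht1
  have h2 : eLpNorm (fun x => (3 / 2 * (‖A x‖ ^ 2 + ‖B x‖ ^ 2)) * ‖D x‖) (4 / 3) μ ≤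
      ((1 : ℝ≥0) : ℝ≥0∞) * eLpNorm (fun x => (3 / 2 * (‖A x‖ ^ 2 + ‖B x‖ ^ 2))) 2 μ * eLpNorm (fun x => ‖D x‖) 4 μ := by
    refine eLpNorm_le_eLpNorm_mul_eLpNorm'_of_norm (p := 2) (q := 4) (r := 4 / 3)
      (f := fun x => (3 / 2 * (‖A x‖ ^ 2 + ‖B x‖ ^ 2))) (g := fun x => ‖D x‖) ?_ ?_ (fun a b => a * b) 1 ?_
    · exact ((hA.norm.pow 2).add (hB.norm.pow 2)).const_mul _
    · exact hD.norm
    · refine Eventually.of_forall fun x => ?_
      rw [norm_mul]
      simp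
  have h3 : eLpNorm (fun x => (3 / 2 * (‖A x‖ ^ 2 + ‖B x‖ ^ 2))) 2 μ ≤ 3 * eLpNorm B 4 μ ^ 2 := by
    have e : (fun x => (3 / 2 * (‖A x‖ ^ 2 + ‖B x‖ ^ 2))) = (3 / 2 : ℝ) • ((fun x => ‖A x‖ ^ 2) + fun x => ‖B x‖ ^ 2) := by
      funext x
      simp
    rw [e, eLpNorm_const_smul]
    have h4 : eLpNorm ((fun x => ‖A x‖ ^ 2) + fun x => ‖B x‖ ^ 2) 2 μ ≤ 2 * eLpNorm B 4 μ ^ 2 := by
      refine (eLpNorm_add_le (hA.norm.pow 2) (hB.norm.pow 2) (by norm_num)).trans ?_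
      have q1 : eLpNorm ((fun x => ‖A x‖) ^ 2) 2 μ = eLpNorm A 4 μ ^ 2 := sq4 A
      have q2 : eLpNorm ((fun x => ‖B x‖) ^ 2) 2 μ = eLpNorm B 4 μ ^ 2 := sq4 B
      rw [q1, q2, hAB, two_mul]
    have e2 : ‖(3 / 2 : ℝ)‖ₑ = ENNReal.ofReal (3 / 2) := by
      rw [Real.enorm_eq_ofReal (by norm_num)]
    calc ‖(3 / 2 : ℝ)‖ₑ * eLpNorm ((fun x => ‖A x‖ ^ 2) + fun x => ‖B x‖ ^ 2) 2 μ
        ≤ ENNReal.ofReal (3 / 2) * (2 * eLpNorm B 4 μ ^ 2) := by
          rw [e2]
          gcongr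
      _ = 3 * eLpNorm B 4 μ ^ 2 := by
          rw [← mul_assoc]
          congr 1
          rw [show (2 : ℝ≥0∞) = ENNReal.ofReal 2 by simp, ← ENNReal.ofReal_mul (by norm_num)]
          norm_num
  calc eLpNorm E (4 / 3) μ ≤ _ := h1
    _ ≤ _ := h2
    _ = eLpNorm (fun x => (3 / 2 * (‖A x‖ ^ 2 + ‖B x‖ ^ 2))) 2 μ * eLpNorm D 4 μ := by
        rw [eLpNorm_norm]; simp
    _ ≤ 3 * eLpNorm B 4 μ ^ 2 * eLpNorm D 4 μ := by gcongr

theorem main2 (D E : α → ℂ) (hD : AEStronglyMeasurable D μ) (hE : AEStronglyMeasurable E μ) :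
    ENNReal.ofReal |∫ x, (conj (D x) * E x).im ∂μ| ≤ eLpNorm D 4 μ * eLpNorm E (4 / 3) μ := by
  have := ht2
  have h1 : eLpNorm (fun x => (conj (D x) * E x).im) 1 μ ≤
      ((1 : ℝ≥0) : ℝ≥0∞) * eLpNorm D 4 μ * eLpNorm E (4 / 3) μ := by
    refine eLpNorm_le_eLpNorm_mul_eLpNorm'_of_norm (p := 4) (q := 4 / 3) (r := 1)
      (f := D) (g := E) hD hE (fun a b => (conj a * b).im) 1 ?_
    refine Eventually.of_forall fun x => ?_
    rw [Real.norm_eq_abs]
    refine (Complex.abs_im_le_norm _).trans ?_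
    rw [norm_mul]
    simp
  rw [← Real.enorm_eq_ofReal_abs]
  refine (enorm_integral_le_lintegral_enorm _).trans ?_
  rw [← eLpNorm_one_eq_lintegral_enorm]
  simpa using h1

end Pool.Agent.Lib.MP424d38.TY.NWBM

namespace Pool.Agent.Lib.MP424d38.TY

open NWBM

theorem specNWB (hCUB : SpecCUB) (hTRN : SpecTRN) (hN4F : SpecN4F) : SpecNWB := by
  intro f F₁ F₂ N hf hN h
  obtain ⟨t1, t2, t3, t4, t5, t6, t7, t8⟩ := hTRN
  obtain ⟨n1, n2, n3, n4'⟩ := hN4F
  have m4 : MemLp f 4 volume := (n1 f F₁ F₂ hf).1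
  have m4t : MemLp (trn h f) 4 volume := (n4' h f).2 m4
  have e4 : n4 (trn h f) = n4 f := (n4' h f).1
  have e4' : eLpNorm (trn h f) 4 volume = eLpNorm f 4 volume := by
    have := e4
    unfold n4 at this
    exact (ENNReal.toReal_eq_toReal_iff' m4t.2.ne m4.2.ne).1 this
  -- pointwise
  have hdf : ∀ᵐ x : ℝ × ℝ, dq h f x = ((h⁻¹ : ℝ) : ℂ) * (trn h f x - f x) := by
    have a1 := Lp.coeFn_smul ((h⁻¹ : ℝ) : ℂ) (trn h f - f)
    have a2 := Lp.coeFn_sub (trn h f) f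
    filter_upwards [a1, a2] with x h1 h2
    unfold dq
    rw [h1, Pi.smul_apply, h2, Pi.sub_apply, smul_eq_mul]
  have hdN : ∀ᵐ x : ℝ × ℝ, dq h N x = ((h⁻¹ : ℝ) : ℂ) * (trn h N x - N x) := by
    have a1 := Lp.coeFn_smul ((h⁻¹ : ℝ) : ℂ) (trn h N - N)
    have a2 := Lp.coeFn_sub (trn h N) N
    filter_upwards [a1, a2] with x h1 h2
    unfold dq
    rw [h1, Pi.smul_apply, h2, Pi.sub_apply, smul_eq_mul]
  have hNt : ∀ᵐ x : ℝ × ℝ, trn h N x = ((‖trn h f x‖ ^ 2 : ℝ) : ℂ) * trn h f x := by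
    have mp := (measurePreserving_add_right (volume : Measure (ℝ × ℝ)) ((0 : ℝ), h))
    have a1 := mp.quasiMeasurePreserving.ae hN
    filter_upwards [a1, t8 h f, t8 h N] with x h1 h2 h3
    have e : x + ((0 : ℝ), h) = (x.1, x.2 + h) := by
      ext <;> simp
    rw [e] at h1
    rw [h3, h2]
    exact h1
  have key : ∀ᵐ x : ℝ × ℝ, ‖dq h N x‖ ≤ 3 / 2 * (‖trn h f x‖ ^ 2 + ‖f x‖ ^ 2) * ‖dq h f x‖ := by
    filter_upwards [hdf, hdN, hNt, hN] with x h1 h2 h3 h4
    rw [h1, h2, h3, h4, norm_mul, norm_mul]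
    have := hCUB.1 (trn h f x) (f x)
    have h0 : 0 ≤ ‖((h⁻¹ : ℝ) : ℂ)‖ := norm_nonneg _
    nlinarith [mul_le_mul_of_nonneg_left this h0]
  have b1 := main1 (μ := volume) (trn h f) f (dq h f) (dq h N) (Lp.aestronglyMeasurable _)
    (Lp.aestronglyMeasurable _) (Lp.aestronglyMeasurable _) key e4'
  have mdq : MemLp (dq h f) 4 volume := by
    have : MemLp (fun x => ((h⁻¹ : ℝ) : ℂ) * (trn h f x - f x)) 4 volume := (m4t.sub m4).const_mul _
    exact this.ae_eq (by filter_upwards [hdf] with x hx using hx.symm)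
  have e1 : (3 : ℝ≥0∞) * eLpNorm f 4 volume ^ 2 * eLpNorm (dq h f) 4 volume
      = ENNReal.ofReal (3 * n4 f ^ 2 * n4 (dq h f)) := by
    unfold n4
    rw [ENNReal.ofReal_mul (by positivity), ENNReal.ofReal_mul (by positivity),
      ENNReal.ofReal_pow (by positivity), ENNReal.ofReal_toReal m4.2.ne, ENNReal.ofReal_toReal mdq.2.ne]
    simp
  rw [e1] at b1
  refine ⟨b1, ?_⟩
  have b2 := main2 (μ := volume) (dq h f) (dq h N) (Lp.aestronglyMeasurable _) (Lp.aestronglyMeasurable _)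
  have n4nn : 0 ≤ n4 (dq h f) := ENNReal.toReal_nonneg
  have b3 : ENNReal.ofReal |∫ x, (conj (dq h f x) * dq h N x).im| ≤
      ENNReal.ofReal (3 * n4 f ^ 2 * n4 (dq h f) ^ 2) := by
    refine b2.trans ?_
    calc eLpNorm (dq h f) 4 volume * eLpNorm (dq h N) (4 / 3) volume
        ≤ ENNReal.ofReal (n4 (dq h f)) * ENNReal.ofReal (3 * n4 f ^ 2 * n4 (dq h f)) := by
          gcongr
          unfold n4
          rw [ENNReal.ofReal_toReal mdq.2.ne]
      _ = ENNReal.ofReal (3 * n4 f ^ 2 * n4 (dq h f) ^ 2) := by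
          rw [← ENNReal.ofReal_mul n4nn]
          congr 1
          ring
  exact (ENNReal.ofReal_le_ofReal_iff (by positivity)).1 b3

end Pool.Agent.Lib.MP424d38.TY
end
end

section
/-!
# MP_424d38_an: PAR (pairing through the dispersive estimate)
-/
set_option autoImplicit false

open MeasureTheory Filter Topology Set
open scoped ENNReal ContDiff ComplexConjugate

noncomputable section

namespace Pool.Agent.Lib.MP424d38.TY

namespace PARM

/-- A unitary group preserves the inner product. -/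
theorem inner_pres (U : ℝ → L2 →L[ℂ] L2) (hU : IsProp U) (a : ℝ) (f g : L2) :
    inner ℂ (U a f) (U a g) = inner ℂ f g := by
  have h := (LinearMap.norm_map_iff_inner_map_map (U a)).mp (fun x => hU.norm a x)
  exact h f g

/-- Hölder `4/3, 4` for the inner product. -/
theorem holder (f g : L2) : ENNReal.ofReal ‖inner ℂ f g‖ ≤
    eLpNorm f (4 / 3) volume * eLpNorm g 4 volume := by
  have h1 : ENNReal.ofReal ‖inner ℂ f g‖ ≤ ∫⁻ x, ‖f x‖ₑ * ‖g x‖ₑ := by
    rw [L2.inner_def, ofReal_norm]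
    refine le_trans (enorm_integral_le_lintegral_enorm _) ?_
    refine lintegral_mono fun x => ?_
    rw [← enorm_mul]
    change ‖g x * conj (f x)‖ₑ ≤ _
    rw [enorm_mul, enorm_mul, mul_comm]
    gcongr
    rw [← ofReal_norm, ← ofReal_norm, RCLike.norm_conj]
  refine le_trans h1 ?_
  have hpq : (4 / 3 : ℝ).HolderConjugate 4 := by
    rw [Real.holderConjugate_iff]
    norm_num
  have h2 := ENNReal.lintegral_mul_le_Lp_mul_Lq (volume : Measure (ℝ × ℝ)) hpq
    (f := fun x => ‖f x‖ₑ) (g := fun x => ‖g x‖ₑ)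
    (Lp.aestronglyMeasurable f).enorm (Lp.aestronglyMeasurable g).enorm
  have h3 : eLpNorm f (4 / 3) volume = (∫⁻ x, ‖f x‖ₑ ^ (4 / 3 : ℝ)) ^ (1 / (4 / 3) : ℝ) := by
    rw [eLpNorm_eq_lintegral_rpow_enorm_toReal (by norm_num) (by
      exact ENNReal.div_ne_top (by norm_num) (by norm_num))]
    have : ((4 / 3 : ℝ≥0∞)).toReal = 4 / 3 := by
      rw [ENNReal.toReal_div]; norm_num
    rw [this]
  have h4 : eLpNorm g 4 volume = (∫⁻ x, ‖g x‖ₑ ^ (4 : ℝ)) ^ (1 / 4 : ℝ) := by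
    rw [eLpNorm_eq_lintegral_rpow_enorm_toReal (by norm_num) (by norm_num)]
    have : ((4 : ℝ≥0∞)).toReal = 4 := by norm_num
    rw [this]
  rw [h3, h4]
  exact h2

end PARM

theorem specPAR : SpecPAR := by
  intro U hU t s f g hts
  have h1 : U (-s) g = U (-t) (U (t - s) g) := by
    rw [← hU.add]
    congr 2
    ring
  rw [h1, PARM.inner_pres U hU]
  refine le_trans (PARM.holder f (U (t - s) g)) ?_
  refine le_trans (mul_le_mul_right (hU.disp (t - s) g (sub_ne_zero.mpr hts)) _) ?_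
  apply le_of_eq
  ring

end Pool.Agent.Lib.MP424d38.TY
end
end

section
set_option autoImplicit false

open MeasureTheory Filter Topology Set
open scoped ENNReal ContDiff ComplexConjugate FourierTransform SchwartzMap

noncomputable section

namespace Pool.Agent.Lib.MP424d38.TY

theorem specPRP (hFUX : SpecFUX) (hFUG : SpecFUG) (hFUH : SpecFUH) (hFUE : SpecFUE)
    (hDSP : SpecDSP) : SpecPRP := by
  obtain ⟨U, hU⟩ := hFUX
  obtain ⟨a, b, c, d⟩ := hFUG U hU
  exact ⟨U, a, b, c, d, hFUH U hU, hFUE U hU, hDSP U hU⟩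

end Pool.Agent.Lib.MP424d38.TY
end
end

section
/-!
# YNG: trilinear Young inequality
-/
set_option autoImplicit false

open MeasureTheory Filter Topology Set
open scoped ENNReal ContDiff ComplexConjugate FourierTransform SchwartzMap

noncomputable section

namespace Pool.Agent.Lib.MP424d38.TY

namespace YNGM

/-- trilinear Young inequality on an abelian group. -/
theorem young3 {G : Type*} [MeasurableSpace G] [AddCommGroup G] [MeasurableAdd₂ G] [MeasurableNeg G]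
    (μ : Measure G) [SFinite μ] [μ.IsAddLeftInvariant] [μ.IsNegInvariant]
    (p q r : ℝ) (hp : 1 < p) (hq : 1 < q) (hr : 1 < r) (h : 1 / p + 1 / q + 1 / r = 2)
    (f k g : G → ℝ≥0∞) (hf : Measurable f) (hk : Measurable k) (hg : Measurable g) :
    ∫⁻ x, ∫⁻ y, f x * k (y - x) * g y ∂μ ∂μ
      ≤ (∫⁻ x, f x ^ p ∂μ) ^ (1 / p) * (∫⁻ x, k x ^ q ∂μ) ^ (1 / q) * (∫⁻ x, g x ^ r ∂μ) ^ (1 / r) := by
  have hp0 : 0 < p := by linarith
  have hq0 : 0 < q := by linarith
  have hr0 : 0 < r := by linarith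
  have ha : 0 < 1 - 1 / r := by
    have : 1 / r < 1 := by rw [div_lt_one hr0]; exact hr
    linarith
  have hb : 0 < 1 - 1 / p := by
    have : 1 / p < 1 := by rw [div_lt_one hp0]; exact hp
    linarith
  have hc : 0 < 1 - 1 / q := by
    have : 1 / q < 1 := by rw [div_lt_one hq0]; exact hq
    linarith
  set A := ∫⁻ x, f x ^ p ∂μ with hA
  set B := ∫⁻ x, k x ^ q ∂μ with hB
  set C := ∫⁻ x, g x ^ r ∂μ with hC
  have hms : Measurable fun z : G × G => z.2 - z.1 := measurable_snd.sub measurable_fst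
  have hkz : Measurable fun z : G × G => k (z.2 - z.1) := hk.comp hms
  have hfz : Measurable fun z : G × G => f z.1 := hf.comp measurable_fst
  have hgz : Measurable fun z : G × G => g z.2 := hg.comp measurable_snd
  -- the three functions
  let F : Fin 3 → G × G → ℝ≥0∞ := ![fun z => f z.1 ^ p * k (z.2 - z.1) ^ q,
    fun z => k (z.2 - z.1) ^ q * g z.2 ^ r, fun z => f z.1 ^ p * g z.2 ^ r]
  let e : Fin 3 → ℝ := ![1 - 1 / r, 1 - 1 / p, 1 - 1 / q]
  have hFm : ∀ i ∈ (Finset.univ : Finset (Fin 3)), AEMeasurable (F i) (μ.prod μ) := by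
    intro i _
    fin_cases i
    · exact ((hfz.pow_const p).mul (hkz.pow_const q)).aemeasurable
    · exact ((hkz.pow_const q).mul (hgz.pow_const r)).aemeasurable
    · exact ((hfz.pow_const p).mul (hgz.pow_const r)).aemeasurable
  have hes : ∑ i ∈ (Finset.univ : Finset (Fin 3)), e i = 1 := by
    simp only [e, Fin.sum_univ_three]
    simp
    have := h
    simp only [one_div] at this
    linarith
  have hen : ∀ i ∈ (Finset.univ : Finset (Fin 3)), 0 ≤ e i := by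
    intro i _
    fin_cases i
    · exact ha.le
    · exact hb.le
    · exact hc.le
  have key := ENNReal.lintegral_prod_norm_pow_le (μ := μ.prod μ) Finset.univ hFm hes hen
  -- the integrand
  have hint : ∀ z : G × G, ∏ i, F i z ^ e i = f z.1 * k (z.2 - z.1) * g z.2 := by
    intro z
    rw [Fin.prod_univ_three]
    simp only [F, e, Matrix.cons_val_zero, Matrix.cons_val_one, Matrix.cons_val_two,
      Matrix.head_cons, Matrix.tail_cons]
    rw [ENNReal.mul_rpow_of_nonneg _ _ ha.le, ENNReal.mul_rpow_of_nonneg _ _ hb.le,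
      ENNReal.mul_rpow_of_nonneg _ _ hc.le]
    have h1 : (f z.1 ^ p) ^ (1 - 1 / r) * (f z.1 ^ p) ^ (1 - 1 / q) = f z.1 := by
      rw [← ENNReal.rpow_add_of_nonneg _ _ ha.le hc.le]
      have : 1 - 1 / r + (1 - 1 / q) = 1 / p := by linarith
      rw [this, ← ENNReal.rpow_mul, mul_one_div_cancel hp0.ne', ENNReal.rpow_one]
    have h2 : (k (z.2 - z.1) ^ q) ^ (1 - 1 / r) * (k (z.2 - z.1) ^ q) ^ (1 - 1 / p) = k (z.2 - z.1) := by
      rw [← ENNReal.rpow_add_of_nonneg _ _ ha.le hb.le]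
      have : 1 - 1 / r + (1 - 1 / p) = 1 / q := by linarith
      rw [this, ← ENNReal.rpow_mul, mul_one_div_cancel hq0.ne', ENNReal.rpow_one]
    have h3 : (g z.2 ^ r) ^ (1 - 1 / p) * (g z.2 ^ r) ^ (1 - 1 / q) = g z.2 := by
      rw [← ENNReal.rpow_add_of_nonneg _ _ hb.le hc.le]
      have : 1 - 1 / p + (1 - 1 / q) = 1 / r := by linarith
      rw [this, ← ENNReal.rpow_mul, mul_one_div_cancel hr0.ne', ENNReal.rpow_one]
    calc _ = ((f z.1 ^ p) ^ (1 - 1 / r) * (f z.1 ^ p) ^ (1 - 1 / q)) *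
          ((k (z.2 - z.1) ^ q) ^ (1 - 1 / r) * (k (z.2 - z.1) ^ q) ^ (1 - 1 / p)) *
          ((g z.2 ^ r) ^ (1 - 1 / p) * (g z.2 ^ r) ^ (1 - 1 / q)) := by ring
      _ = _ := by rw [h1, h2, h3]
  have hlhs : ∫⁻ z, ∏ i, F i z ^ e i ∂(μ.prod μ) = ∫⁻ x, ∫⁻ y, f x * k (y - x) * g y ∂μ ∂μ := by
    rw [lintegral_congr hint]
    have hm : Measurable fun z : G × G => f z.1 * k (z.2 - z.1) * g z.2 := (hfz.mul hkz).mul hgz
    rw [lintegral_prod _ hm.aemeasurable]
  -- integrals of the three functions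
  have hI0 : ∫⁻ z, F 0 z ∂(μ.prod μ) = A * B := by
    show ∫⁻ z, f z.1 ^ p * k (z.2 - z.1) ^ q ∂(μ.prod μ) = A * B
    have hm : Measurable fun z : G × G => f z.1 ^ p * k (z.2 - z.1) ^ q :=
      (hfz.pow_const p).mul (hkz.pow_const q)
    rw [lintegral_prod _ hm.aemeasurable]
    have : ∀ x, ∫⁻ y, f x ^ p * k (y - x) ^ q ∂μ = f x ^ p * B := by
      intro x
      have hm2 : Measurable fun y => k (y - x) ^ q :=
        (hk.comp (measurable_id.sub_const x)).pow_const q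
      rw [lintegral_const_mul _ hm2]
      rw [lintegral_sub_right_eq_self (fun y => k y ^ q) x]
    rw [lintegral_congr this, lintegral_mul_const _ (hf.pow_const p)]
  have hI1 : ∫⁻ z, F 1 z ∂(μ.prod μ) = B * C := by
    show ∫⁻ z, k (z.2 - z.1) ^ q * g z.2 ^ r ∂(μ.prod μ) = B * C
    have hm : Measurable fun z : G × G => k (z.2 - z.1) ^ q * g z.2 ^ r :=
      (hkz.pow_const q).mul (hgz.pow_const r)
    rw [lintegral_prod_symm _ hm.aemeasurable]
    have : ∀ y, ∫⁻ x, k (y - x) ^ q * g y ^ r ∂μ = B * g y ^ r := by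
      intro y
      have hm2 : Measurable fun x => k (y - x) ^ q :=
        (hk.comp (measurable_id.const_sub y)).pow_const q
      rw [lintegral_mul_const _ hm2]
      rw [lintegral_sub_left_eq_self (fun y => k y ^ q) y]
    rw [lintegral_congr this, lintegral_const_mul _ (hg.pow_const r)]
  have hI2 : ∫⁻ z, F 2 z ∂(μ.prod μ) = A * C := by
    show ∫⁻ z, f z.1 ^ p * g z.2 ^ r ∂(μ.prod μ) = A * C
    have hm : Measurable fun z : G × G => f z.1 ^ p * g z.2 ^ r :=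
      (hfz.pow_const p).mul (hgz.pow_const r)
    rw [lintegral_prod _ hm.aemeasurable]
    have : ∀ x, ∫⁻ y, f x ^ p * g y ^ r ∂μ = f x ^ p * C := by
      intro x
      rw [lintegral_const_mul _ (hg.pow_const r)]
    rw [lintegral_congr this, lintegral_mul_const _ (hf.pow_const p)]
  rw [hlhs, Fin.prod_univ_three, hI0, hI1, hI2] at key
  refine key.trans (le_of_eq ?_)
  simp only [e, Matrix.cons_val_zero, Matrix.cons_val_one, Matrix.cons_val_two,
      Matrix.head_cons, Matrix.tail_cons]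
  rw [ENNReal.mul_rpow_of_nonneg _ _ ha.le, ENNReal.mul_rpow_of_nonneg _ _ hb.le,
      ENNReal.mul_rpow_of_nonneg _ _ hc.le]
  have h1 : A ^ (1 - 1 / r) * A ^ (1 - 1 / q) = A ^ (1 / p) := by
    rw [← ENNReal.rpow_add_of_nonneg _ _ ha.le hc.le]
    congr 1; linarith
  have h2 : B ^ (1 - 1 / r) * B ^ (1 - 1 / p) = B ^ (1 / q) := by
    rw [← ENNReal.rpow_add_of_nonneg _ _ ha.le hb.le]
    congr 1; linarith
  have h3 : C ^ (1 - 1 / p) * C ^ (1 - 1 / q) = C ^ (1 / r) := by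
    rw [← ENNReal.rpow_add_of_nonneg _ _ hb.le hc.le]
    congr 1; linarith
  calc _ = (A ^ (1 - 1 / r) * A ^ (1 - 1 / q)) * (B ^ (1 - 1 / r) * B ^ (1 - 1 / p)) *
        (C ^ (1 - 1 / p) * C ^ (1 - 1 / q)) := by ring
    _ = _ := by rw [h1, h2, h3]

end YNGM

theorem specYNG : SpecYNG := by
  intro p q r hp hq hr h
  refine ⟨fun f k g hf hk hg => YNGM.young3 volume p q r hp hq hr h f k g hf hk hg,
    fun f k g hf hk hg => YNGM.young3 volume p q r hp hq hr h f k g hf hk hg⟩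

end Pool.Agent.Lib.MP424d38.TY
end
end

section
/-!
# LOW: splitting in low and high frequencies
-/
set_option autoImplicit false

open MeasureTheory Filter Topology Set
open scoped ENNReal ContDiff ComplexConjugate FourierTransform SchwartzMap

noncomputable section

namespace Pool.Agent.Lib.MP424d38.ES

open Pool.Agent.Lib.MP424d38.TY

namespace LOWM

/-- the `L²` inverse Fourier transform of an `L¹ ∩ L²` function is the inverse Fourier integral -/
theorem inv_toLp_ae {f : E2 → ℂ} (h1 : Integrable f) (h2 : MemLp f 2) :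
    ((𝓕⁻ (h2.toLp f) : L2E) : E2 → ℂ) =ᵐ[volume] 𝓕⁻ f := by
  have hc : Continuous (𝓕⁻ f) := by
    have h : 𝓕⁻ f = fun x => 𝓕 f (-x) := by
      funext x
      exact Real.fourierInv_eq_fourier_neg f x
    rw [h]
    exact (VectorFourier.fourierIntegral_continuous Real.continuous_fourierChar
      (L := innerₗ E2) continuous_inner h1).comp continuous_neg
  apply ae_eq_of_integral_contDiff_smul_eq
  · exact (Lp.memLp _).locallyIntegrable one_le_two
  · exact hc.locallyIntegrable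
  · intro g g_smooth g_cpt
    have hg₁ : HasCompactSupport (Complex.ofRealCLM ∘ g) := g_cpt.comp_left rfl
    have hg₂ : ContDiff ℝ ∞ (Complex.ofRealCLM ∘ g) := by fun_prop
    set G : 𝓢(E2, ℂ) := hg₁.toSchwartzMap hg₂ with hG
    have hGx : ∀ x, G x = (g x : ℂ) := fun x => by simp [hG]
    have e1 : ∫ x, g x • ((𝓕⁻ (h2.toLp f) : L2E) : E2 → ℂ) x
        = Lp.toTemperedDistribution (𝓕⁻ (h2.toLp f) : L2E) G := by
      rw [Lp.toTemperedDistribution_apply]
      refine integral_congr_ae (Filter.Eventually.of_forall fun x => ?_)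
      simp only [hGx, Complex.real_smul, smul_eq_mul]
    have e2 : Lp.toTemperedDistribution (𝓕⁻ (h2.toLp f) : L2E) G
        = Lp.toTemperedDistribution (h2.toLp f) (𝓕⁻ G) := by
      have := DFunLike.congr_fun (Lp.fourierInv_toTemperedDistribution_eq (h2.toLp f)) G
      rw [← this]
      rfl
    have e3 : Lp.toTemperedDistribution (h2.toLp f) (𝓕⁻ G) = ∫ x, (𝓕⁻ G) x • f x := by
      rw [Lp.toTemperedDistribution_apply]
      refine integral_congr_ae ?_
      filter_upwards [h2.coeFn_toLp] with x hx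
      rw [hx]
    have e4 : ∫ x, (𝓕 (G : E2 → ℂ)) x • f (-x) = ∫ x, (G x) • (𝓕 (fun y => f (-y))) x := by
      simpa using! (VectorFourier.integral_fourierIntegral_smul_eq_flip (L := innerₗ E2)
        Real.continuous_fourierChar continuous_inner G.integrable h1.comp_neg)
    have e5 : ((𝓕⁻ G : 𝓢(E2, ℂ)) : E2 → ℂ) = 𝓕⁻ (G : E2 → ℂ) := SchwartzMap.fourierInv_coe G
    rw [e1, e2, e3, e5]
    have e6 : ∫ x, (𝓕⁻ (G : E2 → ℂ)) x • f x = ∫ x, (𝓕 (G : E2 → ℂ)) x • f (-x) := by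
      refine (integral_neg_eq_self (fun x => (𝓕⁻ (G : E2 → ℂ)) x • f x) volume).symm.trans ?_
      refine integral_congr_ae (Filter.Eventually.of_forall fun x => ?_)
      simp only [Real.fourierInv_eq_fourier_neg, neg_neg]
    rw [e6, e4]
    refine integral_congr_ae (Filter.Eventually.of_forall fun x => ?_)
    simp only [hGx, Complex.real_smul, smul_eq_mul]
    congr 1
    rw [Real.fourierInv_eq_fourier_comp_neg]

theorem norm_inv_le (f : E2 → ℂ) (x : E2) : ‖𝓕⁻ f x‖ ≤ ∫ y, ‖f y‖ := by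
  rw [Real.fourierInv_eq]
  refine (norm_integral_le_integral_norm _).trans (le_of_eq ?_)
  refine integral_congr_ae (Filter.Eventually.of_forall fun y => ?_)
  simp only [Circle.norm_smul]

/-- the one dimensional kernel -/
def q (a : ℝ) (x : ℝ) : ℝ := (Iic a).indicator (fun t : ℝ => t ^ (-(1 / 2) : ℝ)) |x|

theorem q_int (a : ℝ) (ha : 0 < a) : Integrable (q a) ∧ ∫ x, q a x = 4 * a ^ (1 / 2 : ℝ) := by
  set F : ℝ → ℝ := (Iic a).indicator (fun t : ℝ => t ^ (-(1 / 2) : ℝ)) with hF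
  have hI : IntervalIntegrable (fun t : ℝ => t ^ (-(1 / 2) : ℝ)) volume 0 a :=
    intervalIntegral.intervalIntegrable_rpow' (by norm_num)
  have hIo : IntegrableOn (fun t : ℝ => t ^ (-(1 / 2) : ℝ)) (Ioc 0 a) :=
    (intervalIntegrable_iff_integrableOn_Ioc_of_le ha.le).1 hI
  have hF0 : IntegrableOn F (Ioi 0) := by
    rw [hF, IntegrableOn, integrable_indicator_iff measurableSet_Iic, IntegrableOn,
      Measure.restrict_restrict measurableSet_Iic, Iic_inter_Ioi]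
    exact hIo
  have hval : ∫ x in Ioi (0 : ℝ), F x = 2 * a ^ (1 / 2 : ℝ) := by
    rw [hF, integral_indicator measurableSet_Iic, Measure.restrict_restrict measurableSet_Iic,
      Iic_inter_Ioi, ← intervalIntegral.integral_of_le ha.le, integral_rpow (Or.inl (by norm_num))]
    rw [Real.zero_rpow (by norm_num)]
    norm_num
    ring
  constructor
  · have h1 : IntegrableOn (q a) (Ioi 0) := by
      refine hF0.congr_fun (fun x hx => ?_) measurableSet_Ioi
      show F x = F |x|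
      rw [abs_of_pos hx]
    have h2 : IntegrableOn (fun x => q a (-x)) (Iio 0) :=
      IntegrableOn.comp_neg_Iio (by simpa using h1)
    have h3 : (fun x => q a (-x)) = q a := by
      funext x
      show F |-x| = F |x|
      rw [abs_neg]
    rw [h3] at h2
    have h4 : IntegrableOn (q a) (Iic 0) := by
      rw [integrableOn_Iic_iff_integrableOn_Iio]
      exact h2
    rw [← integrableOn_univ, ← Iic_union_Ioi (a := (0 : ℝ))]
    exact h4.union h1
  · have : ∫ x, q a x = ∫ x, F |x| := rfl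
    rw [this, integral_comp_abs, hval]
    ring

theorem q_nonneg (a x : ℝ) : 0 ≤ q a x := by
  unfold q
  by_cases h : |x| ∈ Iic a
  · rw [indicator_of_mem h]
    exact Real.rpow_nonneg (abs_nonneg x) _
  · rw [indicator_of_notMem h]

theorem q_eq {a x : ℝ} (h : |x| ≤ a) : q a x = (Real.sqrt |x|)⁻¹ := by
  unfold q
  rw [indicator_of_mem (show |x| ∈ Iic a from h), Real.rpow_neg (abs_nonneg x), Real.sqrt_eq_rpow]

/-- the weight -/
def wt (k : E2) : ℝ := |2 * Real.pi * (prE k).1| + |2 * Real.pi * (prE k).2|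

def hh (k : E2) : ℝ := max |2 * Real.pi * (prE k).1| |2 * Real.pi * (prE k).2|

theorem wt_meas : Measurable wt := by
  have h : Measurable prE := prE_mp.measurable
  unfold wt
  fun_prop

theorem hh_meas : Measurable hh := by
  have h : Measurable prE := prE_mp.measurable
  unfold hh
  fun_prop

theorem ae_ne0 : ∀ᵐ k : E2, (prE k).1 ≠ 0 ∧ (prE k).2 ≠ 0 := by
  have h0 : ∀ᵐ x : ℝ, x ≠ 0 := by
    rw [ae_iff]
    simp
  have h1 : ∀ᵐ x : ℝ × ℝ, x.1 ≠ 0 := Measure.quasiMeasurePreserving_fst.ae h0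
  have h2 : ∀ᵐ x : ℝ × ℝ, x.2 ≠ 0 := Measure.quasiMeasurePreserving_snd.ae h0
  have h3 : ∀ᵐ x : ℝ × ℝ, x.1 ≠ 0 ∧ x.2 ≠ 0 := h1.and h2
  exact prE_mp.quasiMeasurePreserving.ae h3

/-- `∫_{h ≤ lam} 1/w ≤ lam` -/
theorem winv_int (lam : ℝ) (hl : 0 < lam) :
    IntegrableOn (fun k => (wt k)⁻¹) {k | hh k ≤ lam} ∧ ∫ k in {k | hh k ≤ lam}, (wt k)⁻¹ ≤ lam := by
  set a : ℝ := lam / (2 * Real.pi) with ha
  have hpi := Real.pi_pos
  have ha0 : 0 < a := by positivity
  obtain ⟨q1, q2⟩ := q_int a ha0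
  have p1 : Integrable (fun x : ℝ × ℝ => q a x.1 * q a x.2) (volume.prod volume) := q1.mul_prod q1
  have p2 : ∫ x : ℝ × ℝ, q a x.1 * q a x.2 = 16 * a := by
    have := integral_prod_mul (μ := (volume : Measure ℝ)) (ν := (volume : Measure ℝ)) (q a) (q a)
    rw [show (volume : Measure (ℝ × ℝ)) = volume.prod volume from rfl, this, q2]
    have : a ^ (1 / 2 : ℝ) * a ^ (1 / 2 : ℝ) = a := by
      rw [← Real.rpow_add ha0]
      norm_num
    nlinarith
  set Q : E2 → ℝ := fun k => (4 * Real.pi)⁻¹ * (q a (prE k).1 * q a (prE k).2) with hQ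
  have Q1 : Integrable Q := (prE_mp.integrable_comp_of_integrable p1).const_mul _
  have Q2 : ∫ k, Q k = 4 * a / Real.pi := by
    rw [hQ, integral_const_mul]
    have : ∫ k : E2, q a (prE k).1 * q a (prE k).2 = ∫ x : ℝ × ℝ, q a x.1 * q a x.2 := by
      rw [← prE_mp.map_eq, integral_map prE_mp.measurable.aemeasurable]
      rw [prE_mp.map_eq]
      exact p1.aestronglyMeasurable
    rw [this, p2]
    field_simp
    ring
  have hS : MeasurableSet {k | hh k ≤ lam} := measurableSet_le hh_meas measurable_const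
  have hle : ∀ᵐ k : E2, k ∈ {k | hh k ≤ lam} → (wt k)⁻¹ ≤ Q k := by
    filter_upwards [ae_ne0] with k hne hk
    have hk : max |2 * Real.pi * (prE k).1| |2 * Real.pi * (prE k).2| ≤ lam := hk
    have e : ∀ z : ℝ, |2 * Real.pi * z| = 2 * Real.pi * |z| := fun z => by
      rw [abs_mul, abs_of_pos (by positivity : 0 < 2 * Real.pi)]
    have hx : |(prE k).1| ≤ a := by
      rw [ha, le_div_iff₀ (by positivity), mul_comm, ← e]
      exact (le_max_left _ _).trans hk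
    have hy : |(prE k).2| ≤ a := by
      rw [ha, le_div_iff₀ (by positivity), mul_comm, ← e]
      exact (le_max_right _ _).trans hk
    show (wt k)⁻¹ ≤ (4 * Real.pi)⁻¹ * (q a (prE k).1 * q a (prE k).2)
    rw [q_eq hx, q_eq hy]
    unfold wt
    rw [e, e]
    have sx : 0 < Real.sqrt |(prE k).1| := Real.sqrt_pos.2 (abs_pos.2 hne.1)
    have sy : 0 < Real.sqrt |(prE k).2| := Real.sqrt_pos.2 (abs_pos.2 hne.2)
    have qx : |(prE k).1| = Real.sqrt |(prE k).1| ^ 2 := (Real.sq_sqrt (abs_nonneg _)).symm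
    have qy : |(prE k).2| = Real.sqrt |(prE k).2| ^ 2 := (Real.sq_sqrt (abs_nonneg _)).symm
    generalize Real.sqrt |(prE k).1| = s at sx qx ⊢
    generalize Real.sqrt |(prE k).2| = t at sy qy ⊢
    rw [qx, qy, ← mul_inv, ← mul_inv]
    refine inv_anti₀ (by positivity) ?_
    nlinarith [mul_nonneg hpi.le (sq_nonneg (s - t))]
  have hQ0 : ∀ k, 0 ≤ Q k := fun k => mul_nonneg (by positivity) (mul_nonneg (q_nonneg _ _) (q_nonneg _ _))
  have hw0 : ∀ k, 0 ≤ (wt k)⁻¹ := fun k => by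
    unfold wt
    positivity
  have hi : IntegrableOn (fun k => (wt k)⁻¹) {k | hh k ≤ lam} := by
    refine Integrable.mono' Q1.integrableOn wt_meas.inv.aestronglyMeasurable ?_
    refine (ae_restrict_iff' hS).2 ?_
    filter_upwards [hle] with k h1 hk
    rw [Real.norm_eq_abs, abs_of_nonneg (hw0 k)]
    exact h1 hk
  refine ⟨hi, ?_⟩
  calc ∫ k in {k | hh k ≤ lam}, (wt k)⁻¹ ≤ ∫ k in {k | hh k ≤ lam}, Q k :=
        integral_mono_ae hi Q1.integrableOn ((ae_restrict_iff' hS).2 hle)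
    _ ≤ ∫ k, Q k := setIntegral_le_integral Q1 (Eventually.of_forall hQ0)
    _ = 4 * a / Real.pi := Q2
    _ ≤ lam := by
      rw [ha, div_le_iff₀ hpi]
      have h3 : (3 : ℝ) < Real.pi := Real.pi_gt_three
      have : 4 * (lam / (2 * Real.pi)) = 2 * lam / Real.pi := by
        field_simp
        ring
      rw [this, div_le_iff₀ hpi]
      have h9 : 2 ≤ Real.pi * Real.pi := by nlinarith
      have := mul_le_mul_of_nonneg_left h9 hl.le
      linarith

end LOWM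

open LOWM in
theorem specLOW : SpecLOW := by
  intro f hf lam hl
  set F : L2E := 𝓕 (toE f) with hF
  set S : Set E2 := {k | hh k ≤ lam} with hS
  have hSm : MeasurableSet S := measurableSet_le hh_meas measurable_const
  have hfw : Integrable (fun k : E2 => wt k * ‖F k‖ ^ 2) := hf
  obtain ⟨i1, i2⟩ := winv_int lam hl
  set H : ℝ := HH f with hH
  have hHH : ∫ k, wt k * ‖F k‖ ^ 2 = H := rfl
  have hw0 : ∀ k, 0 ≤ wt k := fun k => by
    unfold wt
    positivity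
  have hH0 : 0 ≤ H := by
    rw [← hHH]
    exact integral_nonneg fun k => mul_nonneg (hw0 k) (sq_nonneg _)
  -- the low part on the Fourier side
  set F1 : E2 → ℂ := S.indicator F with hF1
  have hF1m : MemLp F1 2 volume := (Lp.memLp F).indicator hSm
  have hwpos : ∀ᵐ k : E2, 0 < wt k := by
    filter_upwards [ae_ne0] with k hk
    have h1 : 0 < |2 * Real.pi * (prE k).1| := abs_pos.2 (mul_ne_zero (by positivity) hk.1)
    unfold wt
    positivity
  have hpt : ∀ s : ℝ, 0 < s → ∀ᵐ k : E2, k ∈ S →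
      ‖F k‖ ≤ (1 / 2) * (s * (wt k)⁻¹ + s⁻¹ * (wt k * ‖F k‖ ^ 2)) := by
    intro s hs
    filter_upwards [hwpos] with k hk _
    have e : (1 / 2) * (s * (wt k)⁻¹ + s⁻¹ * (wt k * ‖F k‖ ^ 2)) - ‖F k‖
        = (s - wt k * ‖F k‖) ^ 2 / (2 * s * wt k) := by
      field_simp
      ring
    have : 0 ≤ (s - wt k * ‖F k‖) ^ 2 / (2 * s * wt k) := by positivity
    linarith
  have hF1i : Integrable F1 := by
    rw [hF1, integrable_indicator_iff hSm]
    refine Integrable.mono' (((i1.const_mul 1).add ((hfw.const_mul 1⁻¹).integrableOn)).const_mul (1 / 2))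
      (Lp.aestronglyMeasurable F).restrict ?_
    exact (ae_restrict_iff' hSm).2 (hpt 1 one_pos)
  have hbd : ∀ s : ℝ, 0 < s → ∫ k, ‖F1 k‖ ≤ (1 / 2) * (s * lam + s⁻¹ * H) := by
    intro s hs
    have e1 : ∫ k, ‖F1 k‖ = ∫ k in S, ‖F k‖ := by
      rw [hF1, ← integral_indicator hSm]
      refine integral_congr_ae (Eventually.of_forall fun k => ?_)
      show ‖S.indicator F k‖ = S.indicator (fun k => ‖F k‖) k
      exact norm_indicator_eq_indicator_norm _ _
    rw [e1]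
    have j1 : IntegrableOn (fun k => s * (wt k)⁻¹) S := i1.const_mul s
    have j2 : Integrable (fun k => s⁻¹ * (wt k * ‖F k‖ ^ 2)) := hfw.const_mul _
    calc ∫ k in S, ‖F k‖ ≤ ∫ k in S, (1 / 2) * (s * (wt k)⁻¹ + s⁻¹ * (wt k * ‖F k‖ ^ 2)) := by
          refine integral_mono_ae ?_ ((j1.add j2.integrableOn).const_mul _) ?_
          · have h : IntegrableOn F S := (integrable_indicator_iff hSm).1 hF1i
            exact h.norm
          · exact (ae_restrict_iff' hSm).2 (hpt s hs)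
      _ = (1 / 2) * ((s * ∫ k in S, (wt k)⁻¹) + s⁻¹ * ∫ k in S, (wt k * ‖F k‖ ^ 2)) := by
          rw [integral_const_mul, integral_add j1 j2.integrableOn, integral_const_mul,
            integral_const_mul]
      _ ≤ (1 / 2) * (s * lam + s⁻¹ * H) := by
          have k1 : s * ∫ k in S, (wt k)⁻¹ ≤ s * lam := mul_le_mul_of_nonneg_left i2 hs.le
          have k2 : ∫ k in S, (wt k * ‖F k‖ ^ 2) ≤ H :=
            setIntegral_le_integral hfw (Eventually.of_forall fun k => mul_nonneg (hw0 k) (sq_nonneg _))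
          have k3 : s⁻¹ * ∫ k in S, (wt k * ‖F k‖ ^ 2) ≤ s⁻¹ * H :=
            mul_le_mul_of_nonneg_left k2 (by positivity)
          linarith
  have hL1 : (∫ k, ‖F1 k‖) ^ 2 ≤ lam * H := by
    have hI0 : 0 ≤ ∫ k, ‖F1 k‖ := integral_nonneg fun k => norm_nonneg _
    generalize (∫ k, ‖F1 k‖) = I at hI0 hbd ⊢
    rcases hI0.eq_or_lt with h | h
    · rw [← h]
      have := mul_nonneg hl.le hH0
      simpa using this
    · have h1 := hbd (I / lam) (by positivity)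
      have e : (1 / 2) * (I / lam * lam + (I / lam)⁻¹ * H) = (1 / 2) * (I + lam * H / I) := by
        field_simp
      rw [e] at h1
      have h2 : I ≤ lam * H / I := by linarith
      rw [le_div_iff₀ h] at h2
      nlinarith
  set g : L2E := 𝓕⁻ (hF1m.toLp F1) with hg
  have hgF : (𝓕 g : L2E) = hF1m.toLp F1 := by
    rw [hg]
    exact (Lp.fourierTransformₗᵢ E2 ℂ).apply_symm_apply _
  refine ⟨ofE g, f - ofE g, by abel, ?_, ?_⟩
  · have h1 : ∀ᵐ x : ℝ × ℝ, ofE g x = g (inE x) := Lp.coeFn_compMeasurePreserving g inE_mp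
    filter_upwards [h1, inE_mp.quasiMeasurePreserving.ae (inv_toLp_ae hF1i hF1m)] with x h2 h3
    rw [h2, h3]
    refine (pow_le_pow_left₀ (norm_nonneg _) (norm_inv_le F1 _) 2).trans hL1
  · have h1 : toE (f - ofE g) = toE f - g := by
      have := FUXM.toEL.map_sub f (ofE g)
      have e : FUXM.toEL (ofE g) = g := FUXM.toE_ofE g
      rw [e] at this
      exact this
    have h2 : (𝓕 (toE (f - ofE g)) : L2E) = F - hF1m.toLp F1 := by
      rw [h1]
      have := (Lp.fourierTransformₗᵢ E2 ℂ).map_sub (toE f) g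
      have e : (Lp.fourierTransformₗᵢ E2 ℂ) g = hF1m.toLp F1 := hgF
      rw [e] at this
      exact this
    have h3 : ‖f - ofE g‖ = ‖F - hF1m.toLp F1‖ := by
      rw [← h2, Lp.norm_fourier_eq]
      exact (FUXM.toEL.norm_map _).symm
    rw [h3, FUGM.norm_sq]
    have hc : {k : E2 | lam < max |2 * Real.pi * (prE k).1| |2 * Real.pi * (prE k).2|} = Sᶜ := by
      ext k
      show lam < hh k ↔ ¬ (hh k ≤ lam)
      exact not_le.symm
    rw [hc, ← integral_indicator hSm.compl]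
    refine integral_congr_ae ?_
    filter_upwards [Lp.coeFn_sub F (hF1m.toLp F1), hF1m.coeFn_toLp] with k h4 h5
    rw [h4, Pi.sub_apply, h5, hF1]
    by_cases hk : k ∈ S
    · rw [indicator_of_mem hk, indicator_of_notMem (by simpa using hk)]
      simp
    · rw [indicator_of_notMem hk, indicator_of_mem (by simpa using hk), sub_zero]

end Pool.Agent.Lib.MP424d38.ES
end
end
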