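import Pool.Agent.Lib.MP_424d38_an.ES.DefsK

/-!
# Block ES, part I: high frequency Morawetz inequality and the tail (sections 3, 4 of the paper)
-/

set_option autoImplicit false

open MeasureTheory Filter Topology Set
open scoped ENNReal ContDiff ComplexConjugate

noncomputable section

namespace Pool.Agent.Lib.MP424d38.ES

open Pool.Agent.Lib.MP424d38.TY

/-- PAS (time derivative of a double integral, laws with sources).  Hypotheses TY.SpecDDB.  As TY.SpecPAI (file PAI.lean), with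
the two source terms: `Φ(t) = DD κ (f t)(g t)`, `Φ(t+k) - Φ(t) = [∫β_{g(t+k)}(f(t+k) - f(t))] + [∫γ_{f(t)}(g(t+k) - g(t))]`,
`β_g(a) = ∫κ(a-a')g(a')da'`, `γ_f(a') = ∫κ(a-a')f(a)da`. -/
def SpecPAS : Prop := ∀ (T : ℝ) (f F s₁ g G s₂ : ℝ → L1), LawS T f F s₁ → LawS T g G s₂ → ∀ κ : ℝ → ℝ, Cb1 κ →
  ∀ s t : ℝ, 0 ≤ s → s ≤ t → t < T →
    DD κ (f t) (g t) - DD κ (f s) (g s)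
      = ∫ r in s..t, (DD (deriv κ) (F r) (g r) - DD (deriv κ) (f r) (G r)
          + DD κ (s₁ r) (g r) + DD κ (f r) (s₂ r))

/-- MOR (Morawetz inequality with sources).  Hypotheses PAS, TY.SpecKPF, TY.SpecGLM, TY.SpecDDB.  As TY.SpecUGB (file UGB.lean).
Proof.  `J_n(t) = DD (kap n)(p t)(ρ t)`, `n ≥ 1`; PAS: `J_n(t) - J_n(0) = 4∫_0^t(DD κ_n' e ρ - DD κ_n' p p) + ∫_0^t(DD κ_n s₁ ρ + DD κ_n p s₀)`,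
`|DD κ_n f g| ≤ ‖f‖‖g‖`; `n → ∞` with GLM (dominating function `4R∫e`, continuous on `[0,t]`). -/
def SpecMOR : Prop := ∀ (T : ℝ) (R : ℝ → ℝ) (ρ p e s₀ s₁ : ℝ → L1),
  LawS T ρ (fun t => (4 : ℝ) • p t) s₀ → LawS T p (fun t => (4 : ℝ) • e t) s₁ → ContinuousOn R (Ico 0 T) →
  (∀ t ∈ Ico 0 T, ∀ᵐ a : ℝ, 0 ≤ ρ t a ∧ 0 ≤ e t a ∧ (p t a) ^ 2 ≤ ρ t a * e t a ∧ ρ t a ≤ R t) →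
  ∀ t ∈ Ico 0 T, 0 ≤ gF ρ p e t ∧ IntegrableOn (gF ρ p e) (Icc 0 t) ∧
    8 * (∫ r in (0 : ℝ)..t, gF ρ p e r) ≤ ‖p t‖ * ‖ρ t‖ + ‖p 0‖ * ‖ρ 0‖
      + ∫ r in (0 : ℝ)..t, (‖s₁ r‖ * ‖ρ r‖ + ‖p r‖ * ‖s₀ r‖)

/-- HFD (the high frequency flow).  Hypotheses MTX, MLW, SKY, MDE, PSL, CHF, TY.SpecFLO, TY.SpecRHB.
Proof.  MTX + MLW for the bounded symbols `σ₀ = χ²` (`m = ρ₂`, `f = Mo(lχ²) = p₂`, `s₀ = src`; `Adm (2/n) σ₀` with `θ = 0`, so SKY gives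
`‖s₀‖ ≤ (4/π)(2/n)gD ≤ (4/n)gD`) and `σ₁ = l(1-χ²)` (`= 0` for `|l| ≥ 2n`; `σ₁ - l = -lχ²` is Lipschitz 5, `Adm 5 σ₁` with `θ = 1`):
with the flow `ρ, p, e` of TY.SpecFLO, `p - m₁ = Mo l - Mo(l(1-χ²)) = Mo(lχ²) = p₂` a.e., `e₂ := e - f₁ = Mo(l²χ²)` a.e. (MDE), and the
difference of the laws is `LawS T p₂ (4 e₂) (-c₁)`; `s₁ = -c₁`, `‖s₁‖ ≤ (4/π)5 gD ≤ 10 gD`.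
`p₂² ≤ ρ₂e₂`: Cauchy-Schwarz.  `ρ₂ ≤ ρ ≤ ‖v‖‖v₁‖`.  `‖ρ₂‖₁ = ∬χ²|Pv|² ≤ n⁻¹∬|l||Pv|²` (CHF), `‖p₂‖₁ ≤ ∬|l|χ²|Pv|²`. -/
def SpecHFD : Prop := ∀ P : L2 ≃ₗᵢ[ℂ] L2, IsPF P → ∀ (T : ℝ) (v v₁ v₂ N : ℝ → L2), Nls T v v₁ v₂ N →
  ∀ n : ℝ, 0 < n → ∃ ρ₂ p₂ e₂ s₀ s₁ : ℝ → L1, LawS T ρ₂ (fun t => (4 : ℝ) • p₂ t) s₀ ∧
  LawS T p₂ (fun t => (4 : ℝ) • e₂ t) s₁ ∧ ∀ t ∈ Ico 0 T,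
    (∀ᵐ a : ℝ, ρ₂ t a = Mo P (fun l => ch n l ^ 2) (v t) a ∧
      p₂ t a = Mo P (fun l => l * ch n l ^ 2) (v t) a ∧
      e₂ t a = Mo P (fun l => l ^ 2 * ch n l ^ 2) (v t) a ∧ 0 ≤ ρ₂ t a ∧ 0 ≤ e₂ t a ∧
      (p₂ t a) ^ 2 ≤ ρ₂ t a * e₂ t a ∧ ρ₂ t a ≤ ‖v t‖ * ‖v₁ t‖) ∧
    ‖ρ₂ t‖ ≤ XX P (v t) / n ∧ ‖p₂ t‖ ≤ XX P (v t) ∧
    ‖s₀ t‖ ≤ 4 / n * gD (v t) (v₂ t) ∧ ‖s₁ t‖ ≤ 10 * gD (v t) (v₂ t)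

/-- HFM (high frequency Morawetz inequality).  Hypotheses HFD, MOR, GGI, TY.SpecGLM.
Proof.  MOR for HFD, `R = ‖v‖‖v₁‖`; `gF ρ₂ p₂ e₂ t = ∫ g2 P n (v t)`.
`8∫ ≤ 2·3G·3G/n + ∫_0^s(10g·3G/n + 3G·(4/n)g) ≤ 60G²/n`. -/
def SpecHFM : Prop := ∀ P : L2 ≃ₗᵢ[ℂ] L2, IsPF P → ∀ (T : ℝ) (v v₁ v₂ N : ℝ → L2), Nls T v v₁ v₂ N →
  ∀ n : ℝ, 0 < n → ∀ s ∈ Ico 0 T, ∀ G : ℝ, (∀ t ∈ Icc 0 s, XX P (v t) ≤ 3 * G) →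
  1 + (∫ r in (0 : ℝ)..s, gD (v r) (v₂ r)) ≤ G →
  (∀ t ∈ Icc 0 s, Integrable (g2 P n (v t))) ∧
  IntegrableOn (fun t => ∫ a, g2 P n (v t) a) (Icc 0 s) ∧
  (∫ t in (0 : ℝ)..s, ∫ a, g2 P n (v t) a) ≤ 8 * G ^ 2 / n

/-- TAI (the tail).  Hypotheses SKS, HFM, TOT, MLW, MTX, GGI, MDE, TY.SpecFLO, TY.SpecGLM.
Proof.  `K = MG`, `n = K/√M`, `√M ≥ 32`.  SKS integrated over `a` and `[0,s]`: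
`∫∫|src| ≤ C(8G²/n + (1/√M)∫g) ≤ C(8G/√M + G/√M)` (HFM; `G²/n = G/√M`).
Second part: `σ_k(l) = min(max(|l|-K, 0), k)`, `k ∈ ℕ`: bounded, Lipschitz 1, `0` on `[-K,K]` (`AdmK K`, `θ = 0`); TOT:
`∬σ_k|Pv(s)|² ≤ ∬σ_k|Pv(0)|² + C G/√M`, `(|l|-K)₊ ≤ l²/(4K)`, `∬l²|Pv(0)|² = ‖v₂ 0‖²` (MDE); `k → ∞` (monotone convergence). -/
def SpecTAI : Prop := ∃ C : ℝ, 0 < C ∧ ∀ P : L2 ≃ₗᵢ[ℂ] L2, IsPF P →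
  ∀ (T : ℝ) (v v₁ v₂ N : ℝ → L2), Nls T v v₁ v₂ N → ∀ s ∈ Ico 0 T, ∀ G M : ℝ, 1024 ≤ M →
  (∀ t ∈ Icc 0 s, XX P (v t) ≤ 3 * G) → 1 + (∫ r in (0 : ℝ)..s, gD (v r) (v₂ r)) ≤ G →
  (∀ (σ : ℝ → ℝ) (S : L2 →L[ℂ] L2), AdmK (M * G) σ → IsMT P σ S →
    (∫ r in (0 : ℝ)..s, ∫ a, |src S (v r) (N r) a|) ≤ C / Real.sqrt M * G) ∧
  YY P (M * G) (v s) ≤ ‖v₂ 0‖ ^ 2 / (4 * (M * G)) + C / Real.sqrt M * G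

/-- KIN (the kinetic data of a solution).  Hypotheses TAI, MLW, MTX, MDE, PSL, XGR, GGI.
Proof.  `W_Λ(l) = max(-Λ, min(Λ, l))`, `S_Λ` from MTX; `w Λ, f Λ, c Λ` from MLW (for `Λ < 1` anything, e.g. zero).
`hX`: XGR with `4/π ≤ 2`.  `‖f Λ t‖ ≤ ∬|l||W_Λ||Pv|² ≤ Λ X`.
`tail`: for `t₁` near `T`: `X 0 ≤ Γ(s)` (so `X t ≤ X 0 + 2Γ(t) ≤ 3Γ(s)` for `t ≤ s`, `Γ` is nondecreasing) and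
`‖v₂ 0‖²/(4MΓ) ≤ Γ/√M`; TAI with `G = Γ(s)`: `AdmK Λ W_Λ` with `θ = 1`; `‖c Λ r‖ = ∫|src|`;
`‖p s - w Λ s‖ ≤ ∬|l - W_Λ(l)||Pv|² = YY P Λ (v s)`. -/
def SpecKIN : Prop := ∃ C₀ : ℝ, 0 < C₀ ∧ ∀ P : L2 ≃ₗᵢ[ℂ] L2, IsPF P →
  ∀ (T : ℝ) (v v₁ v₂ N : ℝ → L2), 0 < T → Nls T v v₁ v₂ N → ∀ ρ p e : ℝ → L1,
  (∀ t ∈ Ico 0 T, (∀ᵐ a : ℝ, ρ t a = rhoD (v t) a) ∧ (∀ᵐ a : ℝ, p t a = momD (v t) (v₂ t) a) ∧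
    gF ρ p e t = gD (v t) (v₂ t)) →
  ∃ w f c : ℝ → ℝ → L1, Kin T C₀ (fun t => XX P (v t)) ρ p e w f c

end Pool.Agent.Lib.MP424d38.ES
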