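import Pool.Agent.Lib.MP_424d38_an.ES.SpecI

/-!
# Block ES, part J: from the kinetic data to the core theorem, the escape theorem and the rate theorem
(sections 5-7 of MP_424d38_an_ESCAPE.md; purely one dimensional, no equation)

Conventions: `Γ = Ga ρ p e`, `ρ, p, e` a `Flow`, `w Λ, f Λ, c Λ` the kinetic data (`Kin`).  `X₀ = X 0`.
PAS is in SpecI.  Existing modules of block TY which may be used as proved theorems: HCF, KPF, PHF, DDB, PAI, GLM, FLB, UGB, CLL, PHI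
(`Pool/Agent/Lib/MP_424d38_an/All.lean` or the single files), and the proofs of LBD, ANN, UPB, GAS, which are the models.
-/

set_option autoImplicit false

open MeasureTheory Filter Topology Set
open scoped ENNReal ContDiff ComplexConjugate

noncomputable section

namespace Pool.Agent.Lib.MP424d38.ES

open Pool.Agent.Lib.MP424d38.TY

/-- GAB (basic facts on `Γ`).  Hypothesis UGB (block TY; first part: `gF ≥ 0` on `[0,T)`, integrable on `[0,t]`), FLB.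
`Γ(t) = 1 + ∫_0^t gF`.  `‖p t‖ ≤ X t`, so `0 ≤ X 0`; `X t ≤ X 0 + 2Γ(t) ≤ (X 0 + 2)Γ(t)` as `Γ ≥ 1`.
Last part: if `∫_t^{t'}Γ ≤ B` for all `t ≤ t' < T` (fixed `t`), then `Γ` is integrable on `[0,T)` (monotone convergence, for example
`MeasureTheory.integrableOn_Iio..`/`aecover`; `Γ` is continuous on `[0,t]`). -/
def SpecGAB : Prop := ∀ (T m : ℝ) (R : ℝ → ℝ) (ρ p e : ℝ → L1), 0 < T → Flow T m R ρ p e →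
  (∀ t ∈ Ico 0 T, 1 ≤ Ga ρ p e t) ∧ MonotoneOn (Ga ρ p e) (Ico 0 T) ∧ ContinuousOn (Ga ρ p e) (Ico 0 T) ∧
  (∀ (C₀ : ℝ) (X : ℝ → ℝ) (w f c : ℝ → ℝ → L1), Kin T C₀ X ρ p e w f c →
    0 ≤ X 0 ∧ ∀ t ∈ Ico 0 T, 0 ≤ X t ∧ X t ≤ (X 0 + 2) * Ga ρ p e t) ∧
  (∀ (B t : ℝ), t ∈ Ico 0 T → (∀ t' ∈ Ico t T, (∫ s in t..t', Ga ρ p e s) ≤ B) →
    IntegrableOn (Ga ρ p e) (Ico 0 T))

/-- LBG (lower bound for the increase of `D_L`, with an arbitrary bound `E` of the far part).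
Hypotheses KPF, PHF, PAI, GLM, UGB, FLB, DDB (block TY).
Proof.  Copy `LBD.lean`.  `φ_n = phin L n`, `a_n = φ_n'`, `1/n ≤ L`.  PAI (both densities `ρ`, flux `4p`; `a_n` odd):
`DD φ_n (ρ t')(ρ t') - DD φ_n (ρ t)(ρ t) = 8∫_t^{t'} DD a_n (p s)(ρ s) ds`.  Put `F_n = kap n - a_n`:
it is `Cb1`, `|F_n| ≤ 1 + C_PHF`, `|F_n'| ≤ C_PHF/L` (PHF), and `F_n(x) = 0` for `|x| ≤ L`: there
`a_n = (sabs_n · h(·/L))' = kap n` because `h(x/L) = 1` and `h'(x/L) = 0` for `|x| ≤ L` (HCF).  So `|DD F_n (p s)(ρ s)| ≤ E s`, and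
`DD (kap n)(p s)(ρ s) = DD (kap n)(p 0)(ρ 0) + 4∫_0^s (DD κ_n' e ρ - DD κ_n' p p) ≥ -m‖p 0‖ + 4∫_0^s(..)` (PAI).
Let `n → ∞`: `DD φ_n → DD φ_L` (`|φ_n - φ_L| ≤ 1/n`), and the double time integral converges to
`64∫_t^{t'}∫_0^s g` by dominated convergence (GLM), exactly as in LBD. -/
def SpecLBG : Prop := ∃ C : ℝ, 0 < C ∧
  ∀ (T m : ℝ) (R : ℝ → ℝ) (ρ p e : ℝ → L1), Flow T m R ρ p e →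
  ∀ (L : ℝ) (E : ℝ → ℝ) (t t' : ℝ), 0 < L → 0 ≤ t → t ≤ t' → t' < T → ContinuousOn E (Icc t t') →
    (∀ s ∈ Icc t t', ∀ F : ℝ → ℝ, Cb1 F → (∀ x, |F x| ≤ C) → (∀ x, |deriv F x| ≤ C / L) →
      (∀ x, |x| ≤ L → F x = 0) → |DD F (p s) (ρ s)| ≤ E s) →
    (∫ s in t..t', (64 * (∫ r in (0 : ℝ)..s, gF ρ p e r) - 8 * m * ‖p 0‖ - 8 * E s))
      ≤ DD (phi L) (ρ t') (ρ t') - DD (phi L) (ρ t) (ρ t)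

/-- FAR (the far part, one kernel, one cutoff `Λ`).  Hypotheses PAS, DDB, FLB.
Proof.  `DD F (p s)(ρ s) = DD F (p s - w Λ s)(ρ s) + DD F (w Λ s)(ρ s)`; PAS for `w Λ` (flux `4 f Λ`, source `c Λ`) and
`ρ` (flux `4p`, source `0`):
`DD F (w s)(ρ s) = DD F (w t0)(ρ t0) + ∫_{t0}^s (4 DD F' f ρ - 4 DD F' w p + DD F c ρ)`; DDB bounds, `‖ρ‖ = m`,
`‖w Λ t0‖ ≤ X t0`. -/
def SpecFAR : Prop := ∀ (T m C₀ : ℝ) (R X : ℝ → ℝ) (ρ p e : ℝ → L1) (w f c : ℝ → ℝ → L1),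
  Flow T m R ρ p e → Kin T C₀ X ρ p e w f c →
  ∀ (C L Λ : ℝ) (F : ℝ → ℝ), 0 < L → 1 ≤ Λ → 0 ≤ C → Cb1 F → (∀ x, |F x| ≤ C) →
    (∀ x, |deriv F x| ≤ C / L) → ∀ t0 s : ℝ, 0 ≤ t0 → t0 ≤ s → s < T →
    |DD F (p s) (ρ s)| ≤ C * m * ‖p s - w Λ s‖ + C * m * X t0
      + 4 * C / L * (∫ r in t0..s, (m * ‖f Λ r‖ + ‖w Λ r‖ * ‖p r‖)) + C * m * ∫ r in t0..s, ‖c Λ r‖

/-- FAG (the far part when `Γ → ∞`).  Hypotheses FAR, GAB, FLB.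
Proof.  `D = 4C(m M (X₀+2) + (X₀+2)²) + 1`.  FAR with `Λ = M Γ(s) ≥ 1`: `‖p s - w Λ s‖ ≤ (C₀/√M)Γ(s)` and
`∫_{t0}^s‖c Λ r‖ ≤ ∫_0^s‖c Λ r‖ ≤ (C₀/√M)Γ(s)` for `s` near `T` (`tail`); `X t0 ≤ (C₀/√M)Γ(s)` for `s` near `T` because
`Γ → ∞`; `m‖f Λ r‖ ≤ m M Γ(s) X r ≤ m M (X₀+2) Γ(s)Γ(r)`, `‖w Λ r‖‖p r‖ ≤ X(r)² ≤ (X₀+2)²Γ(r)Γ(s)`. -/
def SpecFAG : Prop := ∀ (C T m C₀ : ℝ) (R X : ℝ → ℝ) (ρ p e : ℝ → L1) (w f c : ℝ → ℝ → L1), 0 < C → 0 < T →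
  0 < C₀ → Flow T m R ρ p e → Kin T C₀ X ρ p e w f c → Tendsto (Ga ρ p e) (𝓝[<] T) atTop →
  ∀ M : ℝ, 1024 ≤ M → ∃ D : ℝ, 0 < D ∧ ∀ t0 ∈ Ico 0 T, ∃ t1 ∈ Ico t0 T, ∀ s ∈ Ico t1 T,
    ∀ (L : ℝ) (F : ℝ → ℝ), 0 < L → Cb1 F → (∀ x, |F x| ≤ C) → (∀ x, |deriv F x| ≤ C / L) →
      |DD F (p s) (ρ s)|
        ≤ (3 * C * m * C₀ / Real.sqrt M + D / L * ∫ r in t0..s, Ga ρ p e r) * Ga ρ p e s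

/-- CLG (pair mass at distance `≤ ℓ`).  Hypotheses HCF, PAI, FLB, DDB, GAB, CLL.
Proof.  First part: `CLL`.  Second part: as CLL, `|κ'| ≤ C/ℓ`, increment `≤ ∫_t^{t'}8(C/ℓ)‖p‖‖ρ‖` and
`‖p s‖ ≤ X s ≤ (X₀+2)Γ(s)`. -/
def SpecCLG : Prop := ∃ C : ℝ, 0 < C ∧ ∀ (T m C₀ : ℝ) (R X : ℝ → ℝ) (ρ p e : ℝ → L1) (w f c : ℝ → ℝ → L1),
  0 < T → Flow T m R ρ p e → Kin T C₀ X ρ p e w f c →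
  (∀ t ∈ Ico 0 T, ∀ ℓ ℓ' : ℝ, 0 < ℓ → ℓ ≤ ℓ' →
    0 ≤ DD (hl ℓ) (ρ t) (ρ t) ∧ DD (hl ℓ) (ρ t) (ρ t) ≤ DD (hl ℓ') (ρ t) (ρ t) ∧
      DD (hl ℓ') (ρ t) (ρ t) ≤ m ^ 2) ∧
  ∀ ℓ : ℝ, 0 < ℓ → ∀ t t' : ℝ, 0 ≤ t → t ≤ t' → t' < T →
    |DD (hl ℓ) (ρ t') (ρ t') - DD (hl ℓ) (ρ t) (ρ t)| ≤ C * m * (X 0 + 2) / ℓ * ∫ s in t..t', Ga ρ p e s

/-- ANG (the middle part of the upper bound).  Hypotheses HCF, PHF, PAI, FLB, DDB, GAB.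
Proof.  As `ANN.lean`: `k = phi L - phi ℓ`, `k'` odd, `|k'| ≤ C_PHF`, supported in `ℓ ≤ |s| ≤ 2L`, where
`1 ≤ χ(s) := hl(2L) - hl(ℓ/2)`, and `0 ≤ χ ≤ 1` everywhere.  PAI: the increment of `DD k ρ ρ` is `8∫_t^{t'}DD k' p ρ`.  At a time
`s ≥ t1` (`t1` from `tail` for `M`), with `Λ = MΓ(s)`: `|p s| ≤ |w Λ s| + |p s - w Λ s| ≤ Λρ + |p s - w Λ s|` a.e. (`hwρ`), so
`|DD k' p ρ| ≤ C∬χ(a-a')|p(a)|ρ(a') ≤ C(Λ DD χ ρ ρ + m‖p s - w Λ s‖) ≤ C(M η + m C₀/√M)Γ(s)`. -/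
def SpecANG : Prop := ∃ C : ℝ, 0 < C ∧ ∀ (T m C₀ : ℝ) (R X : ℝ → ℝ) (ρ p e : ℝ → L1) (w f c : ℝ → ℝ → L1),
  0 < T → Flow T m R ρ p e → Kin T C₀ X ρ p e w f c → Tendsto (Ga ρ p e) (𝓝[<] T) atTop →
  ∀ M : ℝ, 1024 ≤ M → ∃ t1 ∈ Ico 0 T, ∀ ℓ L : ℝ, 0 < ℓ → ℓ ≤ L → ∀ η t t' : ℝ, t1 ≤ t → t ≤ t' → t' < T →
    (∀ s ∈ Icc t t', DD (hl (2 * L)) (ρ s) (ρ s) - DD (hl (ℓ / 2)) (ρ s) (ρ s) ≤ η) →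
    (DD (phi L) (ρ t') (ρ t') - DD (phi ℓ) (ρ t') (ρ t'))
      - (DD (phi L) (ρ t) (ρ t) - DD (phi ℓ) (ρ t) (ρ t))
      ≤ C * (M * η + m * C₀ / Real.sqrt M) * ∫ s in t..t', Ga ρ p e s

/-- UPC (upper bound for the increase of `D_L` when `∫_0^T Γ < ∞`).  Hypotheses CLG, ANG, PHI, GAB, HCF, DDB, PHF.
Proof.  Copy `UPB.lean` with `Γ` for `A`.  `r(t) = ∫_t^TΓ → 0`.  `c_ℓ(t) = DD (hl ℓ)(ρ t)(ρ t)`; by CLG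
`|c_ℓ(t') - c_ℓ(t)| ≤ (K₁/ℓ) r(t)`, `K₁ = C m(X₀+2)`; so `c_ℓ(t) → c(ℓ)` as `t → T`, `c` nondecreasing, `0 ≤ c ≤ m²`,
`|c_ℓ(t) - c(ℓ)| ≤ (K₁/ℓ)r(t)` (*).  `c₀ = inf_{ℓ>0} c(ℓ)`.
Given `δ`: choose `M ≥ 1024` with `C_ANG m C₀/√M ≤ δ/4`; then `Rr ≥ 1` and then `L` such that
`C_ANG M (c(2L) - c₀ + 3K₁/Rr) ≤ δ/4`: first `Rr` large, then `L` small.  Then `ε ∈ (0,1]` with `Rr ε m² ≤ δ/6`, and for `t`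
near `T`, with `ℓ = Rr·r(t) ≤ L`: `2Rr(c(2Rr r(t)) - c₀) ≤ δ/6`.
Middle part (ANG with this `ℓ`, `η = c(2L) - c₀ + 3K₁/Rr`): `≤ (δ/2) r(t)`.
Near part (PHI at time `t'`): `DD (phi ℓ)(ρ t')(ρ t') ≤ εℓm² + 2ℓ(c_{2ℓ}(t') - c_{εℓ/2}(t'))
≤ εℓm² + 2ℓ(c(2ℓ) - c₀) + 2ℓ(K₁/(2ℓ) + 2K₁/(εℓ))r(t')`, and `r(t') → 0` as `t' → T` for fixed `t`. -/
def SpecUPC : Prop := ∀ (T m C₀ : ℝ) (R X : ℝ → ℝ) (ρ p e : ℝ → L1) (w f c : ℝ → ℝ → L1), 0 < T → 0 < C₀ →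
  Flow T m R ρ p e → Kin T C₀ X ρ p e w f c → Tendsto (Ga ρ p e) (𝓝[<] T) atTop →
  IntegrableOn (Ga ρ p e) (Ico 0 T) → ∀ δ : ℝ, 0 < δ → ∃ L : ℝ, 0 < L ∧ ∃ t0 ∈ Ico 0 T, ∀ t ∈ Ico t0 T,
    ∀ η : ℝ, 0 < η → ∀ᶠ t' in 𝓝[<] T,
      DD (phi L) (ρ t') (ρ t') - DD (phi L) (ρ t) (ρ t) ≤ δ * (∫ s in t..T, Ga ρ p e s) + η

/-- COR (core theorem).  Hypotheses LBG, FAG, UPC, GAB, FLB.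
Proof.  Suppose `Γ` is integrable on `[0,T)`, `r(t) = ∫_t^TΓ`.  Let `C` be the constant of LBG.  Choose `M ≥ 1024` with
`3CmC₀/√M ≤ 1/2`; `D` from FAG; `L, t0` from UPC with `δ = 8`; `t2 ∈ [0,T)` with `(D/L)r(t2) ≤ 1/2`; `t1` from FAG for `t2`.
So for `s ≥ t1` every kernel of LBG has `|DD F (p s)(ρ s)| ≤ Γ(s)`: LBG with `E = Γ` (continuous), for `t1 ≤ t ≤ t' < T`:
`D_L(t') - D_L(t) ≥ ∫_t^{t'}(64(Γ(s)-1) - 8m‖p 0‖ - 8Γ(s))ds ≥ 40∫_t^{t'}Γ` once `16Γ(t) ≥ 64 + 8m‖p 0‖`.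
Let `t' → T` in UPC: `40 r(t) ≤ 8 r(t) + η` for all `η > 0`, and `r(t) ≥ T - t > 0`: contradiction. -/
def SpecCOR : Prop := ∀ (T m C₀ : ℝ) (R X : ℝ → ℝ) (ρ p e : ℝ → L1) (w f c : ℝ → ℝ → L1), 0 < T → 0 < C₀ →
  Flow T m R ρ p e → Kin T C₀ X ρ p e w f c → Tendsto (Ga ρ p e) (𝓝[<] T) atTop →
  ¬ IntegrableOn (Ga ρ p e) (Ico 0 T)

/-- NEA (if the far part is small then `∫Γ < ∞`, so this never happens).  Hypotheses LBG, COR, GAB, DDB, HCF, FLB.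
Let `C` be the constant of LBG.  If for some `L > 0` and all `s` near `T` every kernel `F` with `|F| ≤ C`, `|F'| ≤ C/L`, `F = 0` on
`[-L,L]` satisfies `|DD F (p s)(ρ s)| ≤ Γ(s)`, then (LBG with `E = Γ`, as in COR) `40∫_t^{t'}Γ ≤ D_L(t') - D_L(t) ≤ 2Lm²`
(`0 ≤ phi L ≤ 2L`, `DD (phi L) ρ ρ ∈ [0, 2Lm²]`) for `t` near `T` and all `t' ∈ [t,T)`; by GAB `Γ` is integrable, against COR. -/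
def SpecNEA : Prop := ∃ C : ℝ, 0 < C ∧ ∀ (T m C₀ : ℝ) (R X : ℝ → ℝ) (ρ p e : ℝ → L1) (w f c : ℝ → ℝ → L1),
  0 < T → 0 < C₀ → Flow T m R ρ p e → Kin T C₀ X ρ p e w f c → Tendsto (Ga ρ p e) (𝓝[<] T) atTop →
  ∀ L : ℝ, 0 < L → ¬ ∀ᶠ s in 𝓝[<] T, ∀ F : ℝ → ℝ, Cb1 F → (∀ x, |F x| ≤ C) → (∀ x, |deriv F x| ≤ C / L) →
    (∀ x, |x| ≤ L → F x = 0) → |DD F (p s) (ρ s)| ≤ Ga ρ p e s

/-- ESC (escape).  Hypotheses NEA, DDB, HCF, FLB, GAB.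
Proof.  `C` from NEA; `M ≥ 1024` with `C m C₀/√M ≤ 1/2`; `ε = 1/(4CM)`.  Suppose `m² - DD (hl L)(ρ t)(ρ t) ≤ ε` for all `t` near
`T`.  Let `F` be a kernel of NEA for `2L` (zero on `[-2L,2L]`): `|F| ≤ C(1 - hl L)` (`hl L(x) = 0` for `|x| ≥ 2L`), so with
`Λ = MΓ(s)` and `|p s| ≤ Λρ + |p s - w Λ s|`:
`|DD F (p s)(ρ s)| ≤ C[Λ(m² - DD (hl L) ρ ρ) + m‖p s - w Λ s‖] ≤ C[Mε + mC₀/√M]Γ(s) ≤ Γ(s)` for `s` near `T`; against NEA. -/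
def SpecESC : Prop := ∀ m C₀ : ℝ, 0 < m → 0 < C₀ → ∃ ε : ℝ, 0 < ε ∧
  ∀ (T : ℝ) (R X : ℝ → ℝ) (ρ p e : ℝ → L1) (w f c : ℝ → ℝ → L1), 0 < T →
    Flow T m R ρ p e → Kin T C₀ X ρ p e w f c → Tendsto (Ga ρ p e) (𝓝[<] T) atTop →
    ∀ L : ℝ, 0 < L → ¬ ∀ᶠ t in 𝓝[<] T, m ^ 2 - DD (hl L) (ρ t) (ρ t) ≤ ε

/-- additional kinetic data: `‖M_{lW}(t)‖ ≤ B Γ(t)^{3/2} Γ(s)^{1/2}` for the clamp at `M Γ(s)`, `t ≤ s`, both near `T`. -/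
structure Kin2 (T C₀ : ℝ) (X : ℝ → ℝ) (ρ p e : ℝ → L1) (w f c : ℝ → ℝ → L1) : Prop
    extends Kin T C₀ X ρ p e w f c where
  hf2 : Tendsto (Ga ρ p e) (𝓝[<] T) atTop → ∀ M : ℝ, 1024 ≤ M → ∃ B : ℝ, 0 < B ∧ ∃ t₁ ∈ Ico 0 T,
    ∀ t s : ℝ, t₁ ≤ t → t ≤ s → s < T →
      ‖f (M * Ga ρ p e s) t‖ ≤ B * (Ga ρ p e t * Real.sqrt (Ga ρ p e t) * Real.sqrt (Ga ρ p e s))

/-- RAI (rate, integral form).  Hypotheses NEA, FAR, GAB, FLB.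
Proof.  `C` from NEA; `M ≥ 1024` with `3CmC₀/√M ≤ 1/2`; `B, t₁` from `hf2`.  For `t₁ ≤ t0 ≤ s`, `s` near `T`, FAR with `Λ = MΓ(s)`:
`m‖f Λ r‖ + ‖w Λ r‖‖p r‖ ≤ m B Γ(r)^{3/2}Γ(s)^{1/2} + (X₀+2)²Γ(r)² ≤ D Γ(r)^{3/2}Γ(s)^{1/2}`, `D = mB + (X₀+2)²`, so
`|DD F (p s)(ρ s)| ≤ (1/2)Γ(s) + (4CD/L)Γ(s)^{1/2}∫_{t0}^sΓ^{3/2} ≤ (1/2 + 4CDB'/L)Γ(s)` if
`∫_0^sΓ^{3/2} ≤ B'Γ(s)^{1/2}`.  Take `L = 8CDB' + 1`: against NEA. -/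
def SpecRAI : Prop := ∀ (T m C₀ : ℝ) (R X : ℝ → ℝ) (ρ p e : ℝ → L1) (w f c : ℝ → ℝ → L1), 0 < T → 0 < C₀ →
  Flow T m R ρ p e → Kin2 T C₀ X ρ p e w f c → Tendsto (Ga ρ p e) (𝓝[<] T) atTop →
  ∀ B : ℝ, ¬ ∀ s ∈ Ico 0 T,
    (∫ r in (0 : ℝ)..s, Ga ρ p e r * Real.sqrt (Ga ρ p e r)) ≤ B * Real.sqrt (Ga ρ p e s)

/-- RAT (rate): `limsup (T-t)Γ(t) = ∞`.  Hypotheses RAI, GAB.
Proof.  Suppose `Γ(t) ≤ C₁/(T-t)` on `[0,T)` (so `C₁ > 0`).  For `s ∈ [0,T)` and `a = C₁/Γ(s) ≥ T - s`: if `r ≤ T - a` then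
`Γ(r)^{3/2} ≤ C₁^{3/2}(T-r)^{-3/2}`, with integral over `r ≤ T-a` at most `2C₁^{3/2}a^{-1/2} = 2C₁Γ(s)^{1/2}`; if `r ∈ [T-a, s]` then
`Γ(r)^{3/2} ≤ Γ(s)^{3/2}` (monotone), with integral at most `aΓ(s)^{3/2} = C₁Γ(s)^{1/2}`.  So
`∫_0^sΓ^{3/2} ≤ 3C₁Γ(s)^{1/2}`, against RAI.  (Split the integral at `max 0 (T-a) ≤ s`; antiderivative of `(T-r)^{-3/2}` is
`2(T-r)^{-1/2}`.) -/
def SpecRAT : Prop := ∀ (T m C₀ : ℝ) (R X : ℝ → ℝ) (ρ p e : ℝ → L1) (w f c : ℝ → ℝ → L1), 0 < T → 0 < C₀ →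
  Flow T m R ρ p e → Kin2 T C₀ X ρ p e w f c → Tendsto (Ga ρ p e) (𝓝[<] T) atTop →
  ∀ C₁ : ℝ, ¬ ∀ t ∈ Ico 0 T, Ga ρ p e t ≤ C₁ / (T - t)

end Pool.Agent.Lib.MP424d38.ES
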