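import Pool.Agent.Lib.MP_424d38_an.UGB
import Pool.Agent.Lib.MP_424d38_an.ES.SpecJ
import Pool.Agent.Lib.MP_424d38_an.ES.SpecI

section
/-!
# MP_424d38_an, block D, module LBD (lower bound for the increase of `D_L`)
-/
set_option autoImplicit false

open MeasureTheory Filter Topology Set
open scoped ENNReal ContDiff ComplexConjugate

noncomputable section

namespace Pool.Agent.Lib.MP424d38.TY

namespace LBDM

open UGBM

variable {T m : ℝ} {R : ℝ → ℝ} {ρ p e : ℝ → L1}

/-- the kernel `phi L` is continuous and bounded -/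
lemma phi_cont (hHCF : SpecHCF) (L : ℝ) : Continuous (phi L) := by
  obtain ⟨hs, -⟩ := hHCF
  unfold phi
  exact continuous_abs.mul (hs.continuous.comp (continuous_id.div_const L))

lemma phi_bd (hHCF : SpecHCF) {L : ℝ} (hL : 0 < L) (s : ℝ) : |phi L s| ≤ 2 * L := by
  obtain ⟨hs, h01, h1, h2, -⟩ := hHCF
  unfold phi
  rw [abs_mul, abs_abs]
  rcases le_total (2 * L) |s| with h | h
  · rw [h2, abs_zero, mul_zero]
    · positivity
    · rw [abs_div, abs_of_pos hL, le_div_iff₀ hL]
      exact h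
  · calc |s| * |hc (s / L)| ≤ (2 * L) * 1 := by
          apply mul_le_mul h _ (abs_nonneg _) (by positivity)
          rw [abs_of_nonneg (h01 _).1]
          exact (h01 _).2
      _ = 2 * L := by ring

/-- odd kernels -/
lemma DD_odd (hDDB : SpecDDB) {κ : ℝ → ℝ} {C : ℝ} (hκ : Continuous κ) (hC : ∀ s, |κ s| ≤ C)
    (hodd : ∀ s, κ (-s) = - κ s) (f g : L1) : DD κ f g = - DD κ g f := by
  rw [hDDB.2.2.1 κ C hκ hC f g]
  have h1 : (fun s => κ (-s)) = fun s => -(κ s) := funext hodd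
  rw [h1]
  unfold DD
  rw [← integral_neg]
  apply integral_congr_ae
  apply Eventually.of_forall
  intro z
  show -(κ (z.1 - z.2)) * (g z.1 * f z.2) = -(κ (z.1 - z.2) * (g z.1 * f z.2))
  ring

/-- the increment formula, first order. -/
lemma incr1 (hDDB : SpecDDB) (hPAI : SpecPAI) (hF : Flow T m R ρ p e) {φ : ℝ → ℝ}
    (hφ : Cb1 φ) (hφ' : Cb1 (deriv φ)) (hodd : ∀ s, deriv φ (-s) = - deriv φ s) {t t' : ℝ}
    (ht : 0 ≤ t) (htt : t ≤ t') (ht' : t' < T) :
    DD φ (ρ t') (ρ t') - DD φ (ρ t) (ρ t) = ∫ s in t..t', 8 * DD (deriv φ) (p s) (ρ s) := by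
  obtain ⟨C, hC⟩ := cb1_bd hφ'
  have h5 := hDDB.2.2.2.2 (deriv φ) C 4 (cb1_cont hφ') hC
  rw [hPAI T ρ (fun t => (4:ℝ) • p t) ρ (fun t => (4:ℝ) • p t) hF.lawρ hF.lawρ φ hφ t t' ht htt
    ht']
  apply intervalIntegral.integral_congr
  intro r _
  show DD (deriv φ) ((4:ℝ) • p r) (ρ r) - DD (deriv φ) (ρ r) ((4:ℝ) • p r)
    = 8 * DD (deriv φ) (p r) (ρ r)
  rw [(h5 (p r) (ρ r) 0).2.2.1, (h5 (ρ r) (p r) 0).2.2.2,
    DD_odd hDDB (cb1_cont hφ') hC hodd (ρ r) (p r)]
  ring

/-- the increment formula, second order -/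
lemma incr2 (hDDB : SpecDDB) (hPAI : SpecPAI) (hF : Flow T m R ρ p e) {a : ℝ → ℝ}
    (ha : Cb1 a) {C : ℝ} (hc : Continuous (deriv a)) (hC : ∀ s, |deriv a s| ≤ C) {t t' : ℝ}
    (ht : 0 ≤ t) (htt : t ≤ t') (ht' : t' < T) :
    DD a (p t') (ρ t') - DD a (p t) (ρ t)
      = ∫ s in t..t', 4 * (DD (deriv a) (e s) (ρ s) - DD (deriv a) (p s) (p s)) := by
  have h5 := hDDB.2.2.2.2 (deriv a) C 4 hc hC
  rw [hPAI T p (fun t => (4:ℝ) • e t) ρ (fun t => (4:ℝ) • p t) hF.lawp hF.lawρ a ha t t' ht htt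
    ht']
  apply intervalIntegral.integral_congr
  intro r _
  show DD (deriv a) ((4:ℝ) • e r) (ρ r) - DD (deriv a) (p r) ((4:ℝ) • p r)
    = 4 * (DD (deriv a) (e r) (ρ r) - DD (deriv a) (p r) (p r))
  rw [(h5 (e r) (ρ r) 0).2.2.1, (h5 (p r) (p r) 0).2.2.2]
  ring

end LBDM

open LBDM UGBM

theorem specLBD (hHCF : SpecHCF) (hKPF : SpecKPF) (hPHF : SpecPHF) (hPAI : SpecPAI)
    (hGLM : SpecGLM) (hFLB : SpecFLB) (hDDB : SpecDDB) : SpecLBD := by
  obtain ⟨C, hCpos, -, hphin⟩ := hPHF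
  refine ⟨64 * C, by positivity, ?_⟩
  intro T m R ρ p e hF A hmono hA L hL t0 t t' h0 h1 h2 h3
  have hsubA : Icc t0 t' ⊆ Ico 0 T := Icc_sub h0 h3
  have ht0T : t0 ∈ Ico 0 T := ⟨h0, by linarith⟩
  have hm0 : 0 ≤ m := (p_bound hFLB hF hA ht0T).1
  -- integrability of `A²`
  have hA2 : ∀ s ∈ Icc t0 t', IntervalIntegrable (fun r => A r ^ 2) volume t0 s := by
    intro s hs
    apply MonotoneOn.intervalIntegrable
    rw [uIcc_of_le hs.1]
    intro x hx y hy hxy
    have hx' : x ∈ Ico 0 T := hsubA ⟨hx.1, hx.2.trans hs.2⟩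
    have hy' : y ∈ Ico 0 T := hsubA ⟨hy.1, hy.2.trans hs.2⟩
    exact pow_le_pow_left₀ (hA x hx').1 (hmono hx' hy' hxy) 2
  have hgI : ∀ s ∈ Icc t0 t', IntervalIntegrable (gF ρ p e) volume t0 s := by
    intro s hs
    rw [intervalIntegrable_iff_integrableOn_Icc_of_le hs.1]
    exact (G_tendsto hKPF hDDB hGLM hF h0 hs.1 (lt_of_le_of_lt hs.2 h3)).1
  -- the approximate statement
  have key : ∀ n : ℕ, 1 / ((n + 1 : ℕ) : ℝ) ≤ L →
      (∫ s in t..t', (32 * (∫ r in t0..s, G ρ p e (n + 1) r)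
        - 64 * C * m * Real.sqrt m * A t0 - 64 * C * m / L * ∫ r in t0..s, A r ^ 2))
      ≤ DD (phin L (n + 1)) (ρ t') (ρ t') - DD (phin L (n + 1)) (ρ t) (ρ t) := by
    intro n hn
    obtain ⟨b1, b2, b3, b4, b5, b6⟩ := hphin L (n + 1) hL (by omega) hn
    obtain ⟨Ca, hCa⟩ := cb1_bd b2
    obtain ⟨-, -, k2, -⟩ := hKPF (n + 1) (by omega)
    obtain ⟨Ck, hCk⟩ := cb1_bd k2
    have hca' : Continuous (deriv (deriv (phin L (n + 1)))) :=
      (b2.1.continuous_deriv le_rfl)
    obtain ⟨Ca', hCa'⟩ : ∃ C : ℝ, ∀ s, |deriv (deriv (phin L (n + 1))) s| ≤ C :=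
      ⟨b2.2.choose, fun s => (b2.2.choose_spec s).2⟩
    rw [incr1 hDDB hPAI hF b1 b2 b6 (h0.trans h1) h2 h3]
    have hKcont : ContinuousOn (fun s => DD (deriv (phin L (n + 1))) (p s) (ρ s)) (Ico 0 T) :=
      DD_contOn hDDB (cb1_cont b2) hCa (cp hF) (cρ hF)
    have hsub2 : Icc t t' ⊆ Icc t0 t' := Icc_subset_Icc_left h1
    apply intervalIntegral.integral_mono_on h2
    · -- integrability of the left side
      apply ContinuousOn.intervalIntegrable
      rw [uIcc_of_le h2]
      have c1 : ContinuousOn (fun s => ∫ r in t0..s, G ρ p e (n + 1) r) (Icc t0 t') := by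
        have := intervalIntegral.continuousOn_primitive_interval
          (f := G ρ p e (n + 1)) (a := t0) (b := t') (μ := volume) (by
            rw [uIcc_of_le (h1.trans h2)]
            exact ((G_cont hKPF hDDB hF (by omega)).mono hsubA).integrableOn_Icc)
        rwa [uIcc_of_le (h1.trans h2)] at this
      have c2 : ContinuousOn (fun s => ∫ r in t0..s, A r ^ 2) (Icc t0 t') := by
        have := intervalIntegral.continuousOn_primitive_interval
          (f := fun r => A r ^ 2) (a := t0) (b := t') (μ := volume) (by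
            rw [uIcc_of_le (h1.trans h2), ← intervalIntegrable_iff_integrableOn_Icc_of_le
              (h1.trans h2)]
            exact hA2 t' ⟨h1.trans h2, le_rfl⟩)
        rwa [uIcc_of_le (h1.trans h2)] at this
      exact (((continuousOn_const.mul c1).sub continuousOn_const).sub
        (continuousOn_const.mul c2)).mono hsub2
    · apply ContinuousOn.intervalIntegrable
      rw [uIcc_of_le h2]
      exact continuousOn_const.mul (hKcont.mono (hsub2.trans hsubA))
    · intro s hs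
      have hs0 : s ∈ Icc t0 t' := hsub2 hs
      have hsT : s < T := lt_of_le_of_lt hs.2 h3
      have hi := incr2 hDDB hPAI hF b2 hca' hCa' h0 hs0.1 hsT
      -- lower bound of the increment of `K`
      have hlow : ∫ r in t0..s, (4 * G ρ p e (n + 1) r - 8 * C * m / L * A r ^ 2)
          ≤ ∫ r in t0..s, 4 * (DD (deriv (deriv (phin L (n + 1)))) (e r) (ρ r)
            - DD (deriv (deriv (phin L (n + 1)))) (p r) (p r)) := by
        apply intervalIntegral.integral_mono_on hs0.1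
        · exact ((G_int hKPF hDDB hF (by omega) h0 hs0.1 hsT).const_mul 4).sub
            ((hA2 s hs0).const_mul _)
        · apply ContinuousOn.intervalIntegrable
          rw [uIcc_of_le hs0.1]
          exact (continuousOn_const.mul ((DD_contOn hDDB hca' hCa' (ce hF) (cρ hF)).sub
            (DD_contOn hDDB hca' hCa' (cp hF) (cp hF)))).mono (Icc_sub h0 hsT)
        · intro r hr
          have hrT : r ∈ Ico 0 T := Icc_sub h0 hsT hr
          obtain ⟨-, q1, q2, q3⟩ := p_bound hFLB hF hA hrT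
          have hAr := (hA r hrT).1
          -- comparison of kernels
          have hcmp : ∀ f g : L1, |DD (deriv (deriv (phin L (n + 1)))) f g
              - DD (deriv (kap (n + 1))) f g| ≤ C / L * ‖f‖ * ‖g‖ := by
            intro f g
            have hmax1 : ∀ s, |deriv (deriv (phin L (n + 1))) s| ≤ max Ca' Ck := fun s =>
              (hCa' s).trans (le_max_left _ _)
            have hmax2 : ∀ s, |deriv (kap (n + 1)) s| ≤ max Ca' Ck := fun s =>
              (hCk s).trans (le_max_right _ _)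
            rw [← (hDDB.2.2.2.1 _ _ _ hca' (cb1_cont k2) hmax1 hmax2 f g).2]
            exact (hDDB.1 _ (C / L) (hca'.sub (cb1_cont k2)) b5 f g).2
          have d1 := abs_le.1 (hcmp (e r) (ρ r))
          have d2 := abs_le.1 (hcmp (p r) (p r))
          have d3 : ‖p r‖ * ‖p r‖ ≤ m * A r ^ 2 := by
            calc ‖p r‖ * ‖p r‖ ≤ (Real.sqrt m * A r) * (Real.sqrt m * A r) :=
                  mul_le_mul q3 q3 (norm_nonneg _) (by positivity)
              _ = (Real.sqrt m * Real.sqrt m) * A r ^ 2 := by ring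
              _ = m * A r ^ 2 := by rw [Real.mul_self_sqrt hm0]
          have d4 : ‖e r‖ * ‖ρ r‖ ≤ m * A r ^ 2 := by
            rw [q1, mul_comm]
            exact mul_le_mul_of_nonneg_left q2 hm0
          have hCL : 0 ≤ C / L := by positivity
          have d5 : C / L * ‖e r‖ * ‖ρ r‖ ≤ C / L * (m * A r ^ 2) := by
            rw [mul_assoc]
            exact mul_le_mul_of_nonneg_left d4 hCL
          have d6 : C / L * ‖p r‖ * ‖p r‖ ≤ C / L * (m * A r ^ 2) := by
            rw [mul_assoc]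
            exact mul_le_mul_of_nonneg_left d3 hCL
          have d7 : 8 * C * m / L * A r ^ 2 = 8 * (C / L * (m * A r ^ 2)) := by ring
          rw [d7]
          unfold G
          linarith [d1.1, d2.2]
      rw [← hi] at hlow
      have hsplit : (∫ r in t0..s, (4 * G ρ p e (n + 1) r - 8 * C * m / L * A r ^ 2))
          = 4 * (∫ r in t0..s, G ρ p e (n + 1) r)
            - 8 * C * m / L * ∫ r in t0..s, A r ^ 2 := by
        rw [intervalIntegral.integral_sub
          ((G_int hKPF hDDB hF (by omega) h0 hs0.1 hsT).const_mul 4)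
          ((hA2 s hs0).const_mul _), intervalIntegral.integral_const_mul,
          intervalIntegral.integral_const_mul]
      rw [hsplit] at hlow
      obtain ⟨-, q1, -, q3⟩ := p_bound hFLB hF hA ht0T
      have hK0 : |DD (deriv (phin L (n + 1))) (p t0) (ρ t0)| ≤ C * (m * Real.sqrt m * A t0) := by
        calc _ ≤ C * ‖p t0‖ * ‖ρ t0‖ := (hDDB.1 _ C (cb1_cont b2) b4 _ _).2
          _ ≤ C * (Real.sqrt m * A t0) * m := by
              rw [q1]
              exact mul_le_mul_of_nonneg_right (mul_le_mul_of_nonneg_left q3 hCpos.le) hm0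
          _ = C * (m * Real.sqrt m * A t0) := by ring
      have hK1 := (abs_le.1 hK0).1
      have hK2 : 0 ≤ C * (m * Real.sqrt m * A t0) := (abs_nonneg _).trans hK0
      have e1 : 64 * C * m / L * (∫ r in t0..s, A r ^ 2)
          = 8 * (8 * C * m / L * ∫ r in t0..s, A r ^ 2) := by ring
      rw [e1]
      linarith
  -- the limit of the left side
  have hlimL : Tendsto (fun n : ℕ =>
      ∫ s in t..t', (32 * (∫ r in t0..s, G ρ p e (n + 1) r)
        - 64 * C * m * Real.sqrt m * A t0 - 64 * C * m / L * ∫ r in t0..s, A r ^ 2)) atTop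
      (𝓝 (∫ s in t..t', (64 * (∫ r in t0..s, gF ρ p e r)
        - 64 * C * m * Real.sqrt m * A t0 - 64 * C * m / L * ∫ r in t0..s, A r ^ 2))) := by
    have hsub2 : Icc t t' ⊆ Icc t0 t' := Icc_subset_Icc_left h1
    have c2 : ContinuousOn (fun s => ∫ r in t0..s, A r ^ 2) (Icc t0 t') := by
      have := intervalIntegral.continuousOn_primitive_interval
        (f := fun r => A r ^ 2) (a := t0) (b := t') (μ := volume) (by
          rw [uIcc_of_le (h1.trans h2), ← intervalIntegrable_iff_integrableOn_Icc_of_le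
            (h1.trans h2)]
          exact hA2 t' ⟨h1.trans h2, le_rfl⟩)
      rwa [uIcc_of_le (h1.trans h2)] at this
    have hdomI : IntegrableOn (fun t => 4 * R t * ∫ a, e t a) (Icc t0 t') :=
      ((dom_cont hF).mono hsubA).integrableOn_Icc
    have hglm := fun r (hr : r ∈ Ico 0 T) => hGLM (ρ r) (p r) (e r) (R r) (hF.pos r hr)
    have hbd : ∀ (n : ℕ), ∀ r ∈ Ico 0 T, ‖G ρ p e (n + 1) r‖ ≤ 4 * R r * ∫ a, e r a :=
      fun n r hr => (hglm r hr).2.2.2 (n + 1) (by omega)
    have hbd2 : ∀ (n : ℕ), ∀ s ∈ Icc t0 t', |∫ r in t0..s, G ρ p e (n + 1) r|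
        ≤ ∫ r in t0..t', 4 * R r * ∫ a, e r a := by
      intro n s hs
      have hdom0 : IntervalIntegrable (fun t => 4 * R t * ∫ a, e t a) volume t0 t' := by
        rw [intervalIntegrable_iff_integrableOn_Icc_of_le (h1.trans h2)]
        exact hdomI
      have e1 : |∫ r in t0..s, G ρ p e (n + 1) r| ≤ ∫ r in t0..s, 4 * R r * ∫ a, e r a := by
        rw [← Real.norm_eq_abs]
        apply intervalIntegral.norm_integral_le_of_norm_le hs.1
        · apply Eventually.of_forall
          intro r hr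
          exact hbd n r (hsubA ⟨hr.1.le, hr.2.trans hs.2⟩)
        · exact hdom0.mono_set (by
            rw [uIcc_of_le hs.1, uIcc_of_le (h1.trans h2)]
            exact Icc_subset_Icc_right hs.2)
      refine e1.trans ?_
      apply intervalIntegral.integral_mono_interval le_rfl hs.1 hs.2 _ hdom0
      rw [EventuallyLE, ae_restrict_iff' measurableSet_Ioc]
      apply Eventually.of_forall
      intro r hr
      exact (norm_nonneg _).trans (hbd 0 r (hsubA ⟨hr.1.le, hr.2⟩))
    set K : ℝ := ∫ r in t0..t', 4 * R r * ∫ a, e r a with hK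
    apply intervalIntegral.tendsto_integral_filter_of_dominated_convergence
      (fun s => 32 * K + |64 * C * m * Real.sqrt m * A t0|
        + |64 * C * m / L * ∫ r in t0..s, A r ^ 2|)
    · apply Eventually.of_forall
      intro n
      have c1 : ContinuousOn (fun s => ∫ r in t0..s, G ρ p e (n + 1) r) (Icc t0 t') := by
        have := intervalIntegral.continuousOn_primitive_interval
          (f := G ρ p e (n + 1)) (a := t0) (b := t') (μ := volume) (by
            rw [uIcc_of_le (h1.trans h2)]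
            exact ((G_cont hKPF hDDB hF (by omega)).mono hsubA).integrableOn_Icc)
        rwa [uIcc_of_le (h1.trans h2)] at this
      rw [uIoc_of_le h2]
      exact (((continuousOn_const.mul c1).sub continuousOn_const).sub
        (continuousOn_const.mul c2)).mono (Ioc_subset_Icc_self.trans hsub2)
        |>.aestronglyMeasurable measurableSet_Ioc
    · apply Eventually.of_forall
      intro n
      apply Eventually.of_forall
      intro s hs
      rw [uIoc_of_le h2] at hs
      have hs0 : s ∈ Icc t0 t' := hsub2 ⟨hs.1.le, hs.2⟩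
      rw [Real.norm_eq_abs]
      have e1 := abs_le.1 (hbd2 n s hs0)
      have e2 := neg_abs_le (64 * C * m * Real.sqrt m * A t0)
      have e2' := le_abs_self (64 * C * m * Real.sqrt m * A t0)
      have e3 := neg_abs_le (64 * C * m / L * ∫ r in t0..s, A r ^ 2)
      have e3' := le_abs_self (64 * C * m / L * ∫ r in t0..s, A r ^ 2)
      rw [abs_le]
      constructor <;> linarith
    · apply ContinuousOn.intervalIntegrable
      rw [uIcc_of_le h2]
      exact (((continuousOn_const (c := 32 * K + |64 * C * m * Real.sqrt m * A t0|)).add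
        (continuousOn_const.mul c2).abs)).mono hsub2
    · apply Eventually.of_forall
      intro s hs
      rw [uIoc_of_le h2] at hs
      have hs0 : s ∈ Icc t0 t' := hsub2 ⟨hs.1.le, hs.2⟩
      have hsT : s < T := lt_of_le_of_lt hs.2 h3
      have e1 := (G_tendsto hKPF hDDB hGLM hF h0 hs0.1 hsT).2
      have e2 := ((e1.const_mul 32).sub_const (64 * C * m * Real.sqrt m * A t0)).sub_const
        (64 * C * m / L * ∫ r in t0..s, A r ^ 2)
      have e3 : 32 * (2 * ∫ r in t0..s, gF ρ p e r) = 64 * ∫ r in t0..s, gF ρ p e r := by ring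
      rw [e3] at e2
      exact e2
  -- the limit of the right side
  have hlimR : ∀ r : ℝ, Tendsto (fun n : ℕ => DD (phin L (n + 1)) (ρ r) (ρ r)) atTop
      (𝓝 (DD (phi L) (ρ r) (ρ r))) := by
    intro r
    obtain ⟨n0, hn0⟩ := exists_nat_gt (1 / L)
    rw [tendsto_iff_norm_sub_tendsto_zero]
    have hev : ∀ᶠ n : ℕ in atTop, ‖DD (phin L (n + 1)) (ρ r) (ρ r) - DD (phi L) (ρ r) (ρ r)‖
        ≤ 1 / ((n : ℝ) + 1) * (‖ρ r‖ * ‖ρ r‖) := by
      filter_upwards [eventually_ge_atTop n0] with n hn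
      have hnL : 1 / ((n + 1 : ℕ) : ℝ) ≤ L := by
        have q1 : (n0 : ℝ) ≤ n := by exact_mod_cast hn
        have q2 : 1 / L < ((n + 1 : ℕ) : ℝ) := by
          push_cast
          linarith
        have q3 : (0:ℝ) < ((n + 1 : ℕ) : ℝ) := by positivity
        rw [div_le_iff₀ q3]
        rw [div_lt_iff₀ hL] at q2
        nlinarith
      obtain ⟨b1, b2, b3, -⟩ := hphin L (n + 1) hL (by omega) hnL
      obtain ⟨Cb, hCb⟩ := cb1_bd b1
      have hmax1 : ∀ s, |phin L (n + 1) s| ≤ max Cb (2 * L) := fun s =>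
        (hCb s).trans (le_max_left _ _)
      have hmax2 : ∀ s, |phi L s| ≤ max Cb (2 * L) := fun s =>
        (phi_bd hHCF hL s).trans (le_max_right _ _)
      rw [← (hDDB.2.2.2.1 _ _ _ (cb1_cont b1) (phi_cont hHCF L) hmax1 hmax2 _ _).2,
        Real.norm_eq_abs]
      have q4 := (hDDB.1 (fun s => phin L (n + 1) s - phi L s) (1 / ((n + 1 : ℕ) : ℝ))
        ((cb1_cont b1).sub (phi_cont hHCF L)) b3 (ρ r) (ρ r)).2
      calc _ ≤ 1 / ((n + 1 : ℕ) : ℝ) * ‖ρ r‖ * ‖ρ r‖ := q4
        _ = 1 / ((n : ℝ) + 1) * (‖ρ r‖ * ‖ρ r‖) := by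
            push_cast
            ring
    have hz : Tendsto (fun n : ℕ => 1 / ((n : ℝ) + 1) * (‖ρ r‖ * ‖ρ r‖)) atTop (𝓝 0) := by
      have := (tendsto_one_div_add_atTop_nhds_zero_nat (𝕜 := ℝ)).mul_const (‖ρ r‖ * ‖ρ r‖)
      rwa [zero_mul] at this
    exact squeeze_zero' (Eventually.of_forall fun n => norm_nonneg _) hev hz
  obtain ⟨n0, hn0⟩ := exists_nat_gt (1 / L)
  refine le_of_tendsto_of_tendsto hlimL ((hlimR t').sub (hlimR t)) ?_
  filter_upwards [eventually_ge_atTop n0] with n hn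
  apply key
  have q1 : (n0 : ℝ) ≤ n := by exact_mod_cast hn
  have q2 : 1 / L < ((n + 1 : ℕ) : ℝ) := by
    push_cast
    linarith
  have q3 : (0:ℝ) < ((n + 1 : ℕ) : ℝ) := by positivity
  rw [div_le_iff₀ q3]
  rw [div_lt_iff₀ hL] at q2
  nlinarith

end Pool.Agent.Lib.MP424d38.TY
end
end

section
/-!
# MP_424d38_an, block ES, module LBG (lower bound for the increase of `D_L`, arbitrary far part)
-/
set_option autoImplicit false

open MeasureTheory Filter Topology Set
open scoped ENNReal ContDiff ComplexConjugate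

noncomputable section

namespace Pool.Agent.Lib.MP424d38.ES

open Pool.Agent.Lib.MP424d38.TY

namespace LBGM

open UGBM LBDM

/-- the far kernel `F_n = kap n - (phin L n)'` vanishes on `[-L, L]`. -/
lemma far_zero (hHCF : SpecHCF) (hKPF : SpecKPF) {L : ℝ} (hL : 0 < L) {n : ℕ} (hn : 1 ≤ n) {x : ℝ}
    (hx : |x| ≤ L) : kap n x - deriv (phin L n) x = 0 := by
  obtain ⟨hs, h01, h1, h2, h3, h4, h5⟩ := hHCF
  have hkc : Continuous (kap n) := (hKPF n hn).1.continuous
  have hsab : HasDerivAt (sabs n) (kap n x) x := by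
    unfold sabs
    exact intervalIntegral.integral_hasDerivAt_right (hkc.intervalIntegrable _ _)
      (hkc.stronglyMeasurableAtFilter _ _) hkc.continuousAt
  have hx1 : |x / L| ≤ 1 := by
    rw [abs_div, abs_of_pos hL, div_le_one hL]
    exact hx
  have hc1 : hc (x / L) = 1 := h1 _ hx1
  have hmax : IsLocalMax hc (x / L) := by
    apply Eventually.of_forall
    intro y
    rw [hc1]
    exact (h01 y).2
  have hd0 : deriv hc (x / L) = 0 := hmax.deriv_eq_zero
  have hdiff : DifferentiableAt ℝ hc (x / L) := (hs.differentiable (by simp)) _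
  have hcd : HasDerivAt (fun s => hc (s / L)) 0 x := by
    have e1 : HasDerivAt (fun s : ℝ => s / L) (1 / L) x := (hasDerivAt_id x).div_const L
    have e2 : HasDerivAt hc 0 (x / L) := by
      rw [← hd0]
      exact hdiff.hasDerivAt
    have e3 := e2.comp x e1
    rw [zero_mul] at e3
    exact e3
  have hprod := hsab.mul hcd
  rw [hc1, mul_one, mul_zero, add_zero] at hprod
  have e4 : deriv (phin L n) x = kap n x := hprod.deriv
  rw [e4, sub_self]

end LBGM

open LBGM LBDM UGBM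

theorem specLBG (hHCF : SpecHCF) (hKPF : SpecKPF) (hPHF : SpecPHF) (hPAI : SpecPAI)
    (hGLM : SpecGLM) (hFLB : SpecFLB) (hDDB : SpecDDB) : SpecLBG := by
  obtain ⟨C, hCpos, -, hphin⟩ := hPHF
  refine ⟨1 + C, by positivity, ?_⟩
  intro T m R ρ p e hF L E t t' hL ht0 h2 h3 hEc hE
  have h1 : (0:ℝ) ≤ t := ht0
  have h0 : (0:ℝ) ≤ 0 := le_rfl
  have hsubA : Icc 0 t' ⊆ Ico 0 T := Icc_sub h0 h3
  have h0T : (0:ℝ) ∈ Ico 0 T := ⟨h0, by linarith⟩
  obtain ⟨hm0, hρ0, -⟩ := hFLB T m R ρ p e hF 0 h0T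
  have hgI : ∀ s ∈ Icc 0 t', IntervalIntegrable (gF ρ p e) volume 0 s := by
    intro s hs
    rw [intervalIntegrable_iff_integrableOn_Icc_of_le hs.1]
    exact (G_tendsto hKPF hDDB hGLM hF h0 hs.1 (lt_of_le_of_lt hs.2 h3)).1
  have hsub2 : Icc t t' ⊆ Icc 0 t' := Icc_subset_Icc_left h1
  -- the approximate statement
  have key : ∀ n : ℕ, 1 / ((n + 1 : ℕ) : ℝ) ≤ L →
      (∫ s in t..t', (32 * (∫ r in (0:ℝ)..s, G ρ p e (n + 1) r) - 8 * m * ‖p 0‖ - 8 * E s))
      ≤ DD (phin L (n + 1)) (ρ t') (ρ t') - DD (phin L (n + 1)) (ρ t) (ρ t) := by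
    intro n hn
    obtain ⟨b1, b2, b3, b4, b5, b6⟩ := hphin L (n + 1) hL (by omega) hn
    obtain ⟨Ca, hCa⟩ := cb1_bd b2
    obtain ⟨-, k1, k2, k3, -⟩ := hKPF (n + 1) (by omega)
    obtain ⟨Ck, hCk⟩ := cb1_bd k2
    rw [incr1 hDDB hPAI hF b1 b2 b6 ht0 h2 h3]
    have hKcont : ContinuousOn (fun s => DD (deriv (phin L (n + 1))) (p s) (ρ s)) (Ico 0 T) :=
      DD_contOn hDDB (cb1_cont b2) hCa (cp hF) (cρ hF)
    apply intervalIntegral.integral_mono_on h2
    · -- integrability of the left side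
      apply ContinuousOn.intervalIntegrable
      rw [uIcc_of_le h2]
      have c1 : ContinuousOn (fun s => ∫ r in (0:ℝ)..s, G ρ p e (n + 1) r) (Icc 0 t') := by
        have := intervalIntegral.continuousOn_primitive_interval
          (f := G ρ p e (n + 1)) (a := 0) (b := t') (μ := volume) (by
            rw [uIcc_of_le (h1.trans h2)]
            exact ((G_cont hKPF hDDB hF (by omega)).mono hsubA).integrableOn_Icc)
        rwa [uIcc_of_le (h1.trans h2)] at this
      exact ((continuousOn_const.mul (c1.mono hsub2)).sub continuousOn_const).sub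
        (continuousOn_const.mul hEc)
    · apply ContinuousOn.intervalIntegrable
      rw [uIcc_of_le h2]
      exact continuousOn_const.mul (hKcont.mono (hsub2.trans hsubA))
    · intro s hs
      have hs0 : s ∈ Icc 0 t' := hsub2 hs
      have hsT : s < T := lt_of_le_of_lt hs.2 h3
      have hi := incr2 hDDB hPAI hF k1 (cb1_cont k2) hCk h0 hs0.1 hsT
      have hi2 : (∫ r in (0:ℝ)..s, 4 * (DD (deriv (kap (n + 1))) (e r) (ρ r)
          - DD (deriv (kap (n + 1))) (p r) (p r))) = 4 * ∫ r in (0:ℝ)..s, G ρ p e (n + 1) r := by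
        rw [← intervalIntegral.integral_const_mul]
        rfl
      rw [hi2] at hi
      have hK0 : |DD (kap (n + 1)) (p 0) (ρ 0)| ≤ m * ‖p 0‖ := by
        have := (hDDB.1 _ 1 (cb1_cont k1) k3 (p 0) (ρ 0)).2
        rw [hρ0] at this
        linarith
      -- the far kernel
      have hfar := hE s hs (fun x => kap (n + 1) x - deriv (phin L (n + 1)) x) ?_ ?_ ?_ ?_
      · have hmax1 : ∀ x, |kap (n + 1) x| ≤ max 1 C := fun x => (k3 x).trans (le_max_left _ _)
        have hmax2 : ∀ x, |deriv (phin L (n + 1)) x| ≤ max 1 C := fun x =>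
          (b4 x).trans (le_max_right _ _)
        have hsp := (hDDB.2.2.2.1 _ _ _ (cb1_cont k1) (cb1_cont b2) hmax1 hmax2 (p s) (ρ s)).2
        rw [hsp] at hfar
        have q1 := (abs_le.1 hfar).2
        have q2 := (abs_le.1 hK0).1
        linarith
      · -- Cb1
        obtain ⟨ca, Cka, hcka⟩ := k1
        obtain ⟨cb, Ckb, hckb⟩ := b2
        have hda : Differentiable ℝ (kap (n + 1)) := ca.differentiable (by norm_num)
        have hdb : Differentiable ℝ (deriv (phin L (n + 1))) := cb.differentiable (by norm_num)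
        refine ⟨ca.sub cb, Cka + Ckb, fun x => ⟨?_, ?_⟩⟩
        · exact (abs_sub _ _).trans (add_le_add (hcka x).1 (hckb x).1)
        · have e1 : deriv (fun x => kap (n + 1) x - deriv (phin L (n + 1)) x) x
              = deriv (kap (n + 1)) x - deriv (deriv (phin L (n + 1))) x :=
            deriv_fun_sub (hda x) (hdb x)
          rw [e1]
          exact (abs_sub _ _).trans (add_le_add (hcka x).2 (hckb x).2)
      · intro x
        exact (abs_sub _ _).trans (add_le_add (k3 x) (b4 x))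
      · intro x
        have hda : Differentiable ℝ (kap (n + 1)) := k1.1.differentiable (by norm_num)
        have hdb : Differentiable ℝ (deriv (phin L (n + 1))) := b2.1.differentiable (by norm_num)
        have e1 : deriv (fun x => kap (n + 1) x - deriv (phin L (n + 1)) x) x
            = deriv (kap (n + 1)) x - deriv (deriv (phin L (n + 1))) x :=
          deriv_fun_sub (hda x) (hdb x)
        rw [e1, abs_sub_comm]
        refine (b5 x).trans ?_
        rw [div_le_div_iff_of_pos_right hL]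
        linarith
      · intro x hx
        exact far_zero hHCF hKPF hL (by omega) hx
  -- the limit of the left side
  have hlimL : Tendsto (fun n : ℕ =>
      ∫ s in t..t', (32 * (∫ r in (0:ℝ)..s, G ρ p e (n + 1) r) - 8 * m * ‖p 0‖ - 8 * E s)) atTop
      (𝓝 (∫ s in t..t', (64 * (∫ r in (0:ℝ)..s, gF ρ p e r) - 8 * m * ‖p 0‖ - 8 * E s))) := by
    have hdomI : IntegrableOn (fun t => 4 * R t * ∫ a, e t a) (Icc 0 t') :=
      ((dom_cont hF).mono hsubA).integrableOn_Icc
    have hglm := fun r (hr : r ∈ Ico 0 T) => hGLM (ρ r) (p r) (e r) (R r) (hF.pos r hr)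
    have hbd : ∀ (n : ℕ), ∀ r ∈ Ico 0 T, ‖G ρ p e (n + 1) r‖ ≤ 4 * R r * ∫ a, e r a :=
      fun n r hr => (hglm r hr).2.2.2 (n + 1) (by omega)
    have hbd2 : ∀ (n : ℕ), ∀ s ∈ Icc 0 t', |∫ r in (0:ℝ)..s, G ρ p e (n + 1) r|
        ≤ ∫ r in (0:ℝ)..t', 4 * R r * ∫ a, e r a := by
      intro n s hs
      have hdom0 : IntervalIntegrable (fun t => 4 * R t * ∫ a, e t a) volume 0 t' := by
        rw [intervalIntegrable_iff_integrableOn_Icc_of_le (h1.trans h2)]
        exact hdomI
      have e1 : |∫ r in (0:ℝ)..s, G ρ p e (n + 1) r| ≤ ∫ r in (0:ℝ)..s, 4 * R r * ∫ a, e r a := by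
        rw [← Real.norm_eq_abs]
        apply intervalIntegral.norm_integral_le_of_norm_le hs.1
        · apply Eventually.of_forall
          intro r hr
          exact hbd n r (hsubA ⟨hr.1.le, hr.2.trans hs.2⟩)
        · exact hdom0.mono_set (by
            rw [uIcc_of_le hs.1, uIcc_of_le (h1.trans h2)]
            exact Icc_subset_Icc_right hs.2)
      refine e1.trans ?_
      apply intervalIntegral.integral_mono_interval le_rfl hs.1 hs.2 _ hdom0
      rw [EventuallyLE, ae_restrict_iff' measurableSet_Ioc]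
      apply Eventually.of_forall
      intro r hr
      exact (norm_nonneg _).trans (hbd 0 r (hsubA ⟨hr.1.le, hr.2⟩))
    set K : ℝ := ∫ r in (0:ℝ)..t', 4 * R r * ∫ a, e r a with hK
    apply intervalIntegral.tendsto_integral_filter_of_dominated_convergence
      (fun s => 32 * K + |8 * m * ‖p 0‖| + |8 * E s|)
    · apply Eventually.of_forall
      intro n
      have c1 : ContinuousOn (fun s => ∫ r in (0:ℝ)..s, G ρ p e (n + 1) r) (Icc 0 t') := by
        have := intervalIntegral.continuousOn_primitive_interval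
          (f := G ρ p e (n + 1)) (a := 0) (b := t') (μ := volume) (by
            rw [uIcc_of_le (h1.trans h2)]
            exact ((G_cont hKPF hDDB hF (by omega)).mono hsubA).integrableOn_Icc)
        rwa [uIcc_of_le (h1.trans h2)] at this
      rw [uIoc_of_le h2]
      exact (((continuousOn_const.mul (c1.mono hsub2)).sub continuousOn_const).sub
        (continuousOn_const.mul hEc)).mono Ioc_subset_Icc_self
        |>.aestronglyMeasurable measurableSet_Ioc
    · apply Eventually.of_forall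
      intro n
      apply Eventually.of_forall
      intro s hs
      rw [uIoc_of_le h2] at hs
      have hs0 : s ∈ Icc 0 t' := hsub2 ⟨hs.1.le, hs.2⟩
      rw [Real.norm_eq_abs]
      have e1 := abs_le.1 (hbd2 n s hs0)
      have e2 := neg_abs_le (8 * m * ‖p 0‖)
      have e2' := le_abs_self (8 * m * ‖p 0‖)
      have e3 := neg_abs_le (8 * E s)
      have e3' := le_abs_self (8 * E s)
      rw [abs_le]
      constructor <;> linarith
    · apply ContinuousOn.intervalIntegrable
      rw [uIcc_of_le h2]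
      exact (continuousOn_const (c := 32 * K + |8 * m * ‖p 0‖|)).add
        (continuousOn_const.mul hEc).abs
    · apply Eventually.of_forall
      intro s hs
      rw [uIoc_of_le h2] at hs
      have hs0 : s ∈ Icc 0 t' := hsub2 ⟨hs.1.le, hs.2⟩
      have hsT : s < T := lt_of_le_of_lt hs.2 h3
      have e1 := (G_tendsto hKPF hDDB hGLM hF h0 hs0.1 hsT).2
      have e2 := ((e1.const_mul 32).sub_const (8 * m * ‖p 0‖)).sub_const (8 * E s)
      have e3 : 32 * (2 * ∫ r in (0:ℝ)..s, gF ρ p e r) = 64 * ∫ r in (0:ℝ)..s, gF ρ p e r := by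
        ring
      rw [e3] at e2
      exact e2
  -- the limit of the right side
  have hlimR : ∀ r : ℝ, Tendsto (fun n : ℕ => DD (phin L (n + 1)) (ρ r) (ρ r)) atTop
      (𝓝 (DD (phi L) (ρ r) (ρ r))) := by
    intro r
    obtain ⟨n0, hn0⟩ := exists_nat_gt (1 / L)
    rw [tendsto_iff_norm_sub_tendsto_zero]
    have hev : ∀ᶠ n : ℕ in atTop, ‖DD (phin L (n + 1)) (ρ r) (ρ r) - DD (phi L) (ρ r) (ρ r)‖
        ≤ 1 / ((n : ℝ) + 1) * (‖ρ r‖ * ‖ρ r‖) := by
      filter_upwards [eventually_ge_atTop n0] with n hn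
      have hnL : 1 / ((n + 1 : ℕ) : ℝ) ≤ L := by
        have q1 : (n0 : ℝ) ≤ n := by exact_mod_cast hn
        have q2 : 1 / L < ((n + 1 : ℕ) : ℝ) := by
          push_cast
          linarith
        have q3 : (0:ℝ) < ((n + 1 : ℕ) : ℝ) := by positivity
        rw [div_le_iff₀ q3]
        rw [div_lt_iff₀ hL] at q2
        nlinarith
      obtain ⟨b1, b2, b3, -⟩ := hphin L (n + 1) hL (by omega) hnL
      obtain ⟨Cb, hCb⟩ := cb1_bd b1
      have hmax1 : ∀ s, |phin L (n + 1) s| ≤ max Cb (2 * L) := fun s =>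
        (hCb s).trans (le_max_left _ _)
      have hmax2 : ∀ s, |phi L s| ≤ max Cb (2 * L) := fun s =>
        (phi_bd hHCF hL s).trans (le_max_right _ _)
      rw [← (hDDB.2.2.2.1 _ _ _ (cb1_cont b1) (phi_cont hHCF L) hmax1 hmax2 _ _).2,
        Real.norm_eq_abs]
      have q4 := (hDDB.1 (fun s => phin L (n + 1) s - phi L s) (1 / ((n + 1 : ℕ) : ℝ))
        ((cb1_cont b1).sub (phi_cont hHCF L)) b3 (ρ r) (ρ r)).2
      calc _ ≤ 1 / ((n + 1 : ℕ) : ℝ) * ‖ρ r‖ * ‖ρ r‖ := q4
        _ = 1 / ((n : ℝ) + 1) * (‖ρ r‖ * ‖ρ r‖) := by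
            push_cast
            ring
    have hz : Tendsto (fun n : ℕ => 1 / ((n : ℝ) + 1) * (‖ρ r‖ * ‖ρ r‖)) atTop (𝓝 0) := by
      have := (tendsto_one_div_add_atTop_nhds_zero_nat (𝕜 := ℝ)).mul_const (‖ρ r‖ * ‖ρ r‖)
      rwa [zero_mul] at this
    exact squeeze_zero' (Eventually.of_forall fun n => norm_nonneg _) hev hz
  obtain ⟨n0, hn0⟩ := exists_nat_gt (1 / L)
  refine le_of_tendsto_of_tendsto hlimL ((hlimR t').sub (hlimR t)) ?_
  filter_upwards [eventually_ge_atTop n0] with n hn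
  apply key
  have q1 : (n0 : ℝ) ≤ n := by exact_mod_cast hn
  have q2 : 1 / L < ((n + 1 : ℕ) : ℝ) := by
    push_cast
    linarith
  have q3 : (0:ℝ) < ((n + 1 : ℕ) : ℝ) := by positivity
  rw [div_le_iff₀ q3]
  rw [div_lt_iff₀ hL] at q2
  nlinarith

end Pool.Agent.Lib.MP424d38.ES
end
end

section
/-!
# MP_424d38_an, block ES, module MOR: Morawetz inequality with sources
-/
set_option autoImplicit false

open MeasureTheory Filter Topology Set
open scoped ENNReal ContDiff ComplexConjugate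

noncomputable section

namespace Pool.Agent.Lib.MP424d38.ES

open Pool.Agent.Lib.MP424d38.TY

namespace MORM

open UGBM

variable {T : ℝ} {R : ℝ → ℝ} {ρ p e : ℝ → L1}

lemma ce4 (h : ContinuousOn (fun t => (4 : ℝ) • e t) (Ico 0 T)) : ContinuousOn e (Ico 0 T) := by
  have h2 : ContinuousOn (fun t => (4⁻¹ : ℝ) • ((4 : ℝ) • e t)) (Ico 0 T) :=
    h.const_smul (4⁻¹ : ℝ)
  refine h2.congr fun t _ => ?_
  show e t = (4⁻¹ : ℝ) • ((4 : ℝ) • e t)
  rw [smul_smul, inv_mul_cancel₀ (by norm_num : (4:ℝ) ≠ 0), one_smul]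

lemma G_cont (hKPF : SpecKPF) (hDDB : SpecDDB) (cρ : ContinuousOn ρ (Ico 0 T))
    (cp : ContinuousOn p (Ico 0 T)) (ce : ContinuousOn e (Ico 0 T)) {n : ℕ} (hn : 1 ≤ n) :
    ContinuousOn (G ρ p e n) (Ico 0 T) := by
  obtain ⟨-, -, h2, -⟩ := hKPF n hn
  obtain ⟨C, hC⟩ := cb1_bd h2
  exact (DD_contOn hDDB (cb1_cont h2) hC ce cρ).sub (DD_contOn hDDB (cb1_cont h2) hC cp cp)

/-- convergence of the time integrals -/
lemma G_tendsto (hKPF : SpecKPF) (hDDB : SpecDDB) (hGLM : SpecGLM) (cρ : ContinuousOn ρ (Ico 0 T))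
    (cp : ContinuousOn p (Ico 0 T)) (ce : ContinuousOn e (Ico 0 T))
    (cR : ContinuousOn R (Ico 0 T))
    (hpos : ∀ t ∈ Ico 0 T, ∀ᵐ a : ℝ, 0 ≤ ρ t a ∧ 0 ≤ e t a ∧ (p t a) ^ 2 ≤ ρ t a * e t a ∧
      ρ t a ≤ R t)
    {s t : ℝ} (hs : 0 ≤ s) (hst : s ≤ t) (ht : t < T) :
    IntegrableOn (gF ρ p e) (Icc s t) ∧
    Tendsto (fun n : ℕ => ∫ r in s..t, G ρ p e (n + 1) r) atTop
      (𝓝 (2 * ∫ r in s..t, gF ρ p e r)) := by
  have hglm := fun r (hr : r ∈ Ico 0 T) => hGLM (ρ r) (p r) (e r) (R r) (hpos r hr)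
  have hsub : Ioc s t ⊆ Ico 0 T := fun x hx => Icc_sub hs ht ⟨hx.1.le, hx.2⟩
  have hlim : ∀ r ∈ Ico 0 T, Tendsto (fun n : ℕ => G ρ p e (n + 1) r) atTop
      (𝓝 (2 * gF ρ p e r)) := fun r hr =>
    (tendsto_add_atTop_iff_nat (f := fun n : ℕ => G ρ p e n r) 1).2 (hglm r hr).2.2.1
  have hbd : ∀ (n : ℕ), ∀ r ∈ Ico 0 T, ‖G ρ p e (n + 1) r‖ ≤ 4 * R r * ∫ a, e r a :=
    fun n r hr => (hglm r hr).2.2.2 (n + 1) (by omega)
  have hdc : ContinuousOn (fun t => 4 * R t * ∫ a, e t a) (Ico 0 T) :=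
    (continuousOn_const.mul cR).mul (continuous_integral.comp_continuousOn ce)
  have hdomI : IntegrableOn (fun t => 4 * R t * ∫ a, e t a) (Icc s t) :=
    (hdc.mono (Icc_sub hs ht)).integrableOn_Icc
  have hmeas : ∀ n : ℕ, AEStronglyMeasurable (G ρ p e (n + 1)) (volume.restrict (Icc s t)) :=
    fun n => ((G_cont hKPF hDDB cρ cp ce (by omega)).mono (Icc_sub hs ht)).aestronglyMeasurable
      measurableSet_Icc
  have hae : ∀ᵐ r ∂(volume.restrict (Icc s t)), r ∈ Icc s t := ae_restrict_mem measurableSet_Icc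
  have hint2 : IntegrableOn (fun r => 2 * gF ρ p e r) (Icc s t) := by
    refine Integrable.mono' hdomI (aestronglyMeasurable_of_tendsto_ae atTop hmeas ?_) ?_
    · filter_upwards [hae] with r hr
      exact hlim r (Icc_sub hs ht hr)
    · filter_upwards [hae] with r hr
      have hr' := Icc_sub hs ht hr
      exact le_of_tendsto (hlim r hr').norm (Eventually.of_forall fun n => hbd n r hr')
  have hint : IntegrableOn (gF ρ p e) (Icc s t) := by
    have h3 : IntegrableOn (fun r => 2⁻¹ * (2 * gF ρ p e r)) (Icc s t) := hint2.const_mul 2⁻¹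
    refine h3.congr_fun (fun r _ => ?_) measurableSet_Icc
    show 2⁻¹ * (2 * gF ρ p e r) = gF ρ p e r
    ring
  refine ⟨hint, ?_⟩
  rw [← intervalIntegral.integral_const_mul]
  apply intervalIntegral.tendsto_integral_filter_of_dominated_convergence
    (fun t => 4 * R t * ∫ a, e t a)
  · apply Eventually.of_forall
    intro n
    rw [uIoc_of_le hst]
    exact (hmeas n).mono_measure (Measure.restrict_mono Ioc_subset_Icc_self le_rfl)
  · apply Eventually.of_forall
    intro n
    apply Eventually.of_forall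
    intro r hr
    rw [uIoc_of_le hst] at hr
    exact hbd n r (hsub hr)
  · rw [intervalIntegrable_iff_integrableOn_Icc_of_le hst]
    exact hdomI
  · apply Eventually.of_forall
    intro r hr
    rw [uIoc_of_le hst] at hr
    exact hlim r (hsub hr)

end MORM

open UGBM in
theorem specMOR (hPAS : SpecPAS) (hKPF : TY.SpecKPF) (hGLM : TY.SpecGLM) (hDDB : TY.SpecDDB) :
    SpecMOR := by
  intro T R ρ p e s₀ s₁ hlρ hlp hR hpos t ht
  have cρ : ContinuousOn ρ (Ico 0 T) := hlρ.cf
  have cp : ContinuousOn p (Ico 0 T) := hlp.cf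
  have ce : ContinuousOn e (Ico 0 T) := MORM.ce4 hlp.cF
  obtain ⟨hint, hlim⟩ := MORM.G_tendsto hKPF hDDB hGLM cρ cp ce hR hpos le_rfl ht.1 ht.2
  refine ⟨(hGLM (ρ t) (p t) (e t) (R t) (hpos t ht)).2.1, hint, ?_⟩
  have hsubI : Icc 0 t ⊆ Ico 0 T := Icc_sub le_rfl ht.2
  -- the source term is bounded
  have hcB : ContinuousOn (fun r => ‖s₁ r‖ * ‖ρ r‖ + ‖p r‖ * ‖s₀ r‖) (Ico 0 T) :=
    (hlp.cs.norm.mul cρ.norm).add (cp.norm.mul hlρ.cs.norm)
  have hiB : IntervalIntegrable (fun r => ‖s₁ r‖ * ‖ρ r‖ + ‖p r‖ * ‖s₀ r‖) volume 0 t := by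
    apply ContinuousOn.intervalIntegrable
    rw [uIcc_of_le ht.1]
    exact hcB.mono hsubI
  have hJ : ∀ n : ℕ, 4 * ∫ r in (0:ℝ)..t, UGBM.G ρ p e (n + 1) r ≤
      ‖p t‖ * ‖ρ t‖ + ‖p 0‖ * ‖ρ 0‖ + ∫ r in (0 : ℝ)..t, (‖s₁ r‖ * ‖ρ r‖ + ‖p r‖ * ‖s₀ r‖) := by
    intro n
    obtain ⟨-, h1, h2, h3, -⟩ := hKPF (n + 1) (by omega)
    obtain ⟨C', hC'⟩ := cb1_bd h2
    have hpas := hPAS T p (fun t => (4:ℝ) • e t) s₁ ρ (fun t => (4:ℝ) • p t) s₀ hlp hlρ
      (kap (n + 1)) h1 0 t le_rfl ht.1 ht.2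
    have h5 := hDDB.2.2.2.2 (deriv (kap (n + 1))) C' 4 (cb1_cont h2) hC'
    have hG : IntervalIntegrable (fun r => 4 * G ρ p e (n + 1) r) volume 0 t := by
      apply ContinuousOn.intervalIntegrable
      rw [uIcc_of_le ht.1]
      exact (continuousOn_const.mul (MORM.G_cont hKPF hDDB cρ cp ce (by omega))).mono hsubI
    have hcS : ContinuousOn (fun r => DD (kap (n + 1)) (s₁ r) (ρ r)
        + DD (kap (n + 1)) (p r) (s₀ r)) (Ico 0 T) :=
      (DD_contOn hDDB (cb1_cont h1) h3 hlp.cs cρ).add (DD_contOn hDDB (cb1_cont h1) h3 cp hlρ.cs)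
    have hS : IntervalIntegrable (fun r => DD (kap (n + 1)) (s₁ r) (ρ r)
        + DD (kap (n + 1)) (p r) (s₀ r)) volume 0 t := by
      apply ContinuousOn.intervalIntegrable
      rw [uIcc_of_le ht.1]
      exact hcS.mono hsubI
    have e1 : (∫ r in (0:ℝ)..t, (DD (deriv (kap (n + 1))) ((4:ℝ) • e r) (ρ r)
        - DD (deriv (kap (n + 1))) (p r) ((4:ℝ) • p r)
        + DD (kap (n + 1)) (s₁ r) (ρ r) + DD (kap (n + 1)) (p r) (s₀ r)))
        = (4 * ∫ r in (0:ℝ)..t, G ρ p e (n + 1) r)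
          + ∫ r in (0:ℝ)..t, (DD (kap (n + 1)) (s₁ r) (ρ r) + DD (kap (n + 1)) (p r) (s₀ r)) := by
      rw [← intervalIntegral.integral_const_mul, ← intervalIntegral.integral_add hG hS]
      apply intervalIntegral.integral_congr
      intro r _
      show DD (deriv (kap (n + 1))) ((4:ℝ) • e r) (ρ r)
        - DD (deriv (kap (n + 1))) (p r) ((4:ℝ) • p r)
        + DD (kap (n + 1)) (s₁ r) (ρ r) + DD (kap (n + 1)) (p r) (s₀ r)
        = 4 * G ρ p e (n + 1) r
          + (DD (kap (n + 1)) (s₁ r) (ρ r) + DD (kap (n + 1)) (p r) (s₀ r))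
      rw [(h5 (e r) (ρ r) 0).2.2.1, (h5 (p r) (p r) 0).2.2.2]
      unfold G
      ring
    rw [e1] at hpas
    have hb : ∀ f g : L1, |DD (kap (n + 1)) f g| ≤ ‖f‖ * ‖g‖ := by
      intro f g
      have b4 := (hDDB.1 (kap (n + 1)) 1 (cb1_cont h1) h3 f g).2
      rwa [one_mul] at b4
    have c1 := abs_le.1 (hb (p t) (ρ t))
    have c2 := abs_le.1 (hb (p 0) (ρ 0))
    have c3 : |∫ r in (0:ℝ)..t, (DD (kap (n + 1)) (s₁ r) (ρ r) + DD (kap (n + 1)) (p r) (s₀ r))|
        ≤ ∫ r in (0 : ℝ)..t, (‖s₁ r‖ * ‖ρ r‖ + ‖p r‖ * ‖s₀ r‖) := by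
      rw [← Real.norm_eq_abs]
      refine intervalIntegral.norm_integral_le_of_norm_le ht.1 ?_ hiB
      refine ae_of_all _ fun r _ => ?_
      rw [Real.norm_eq_abs]
      exact (abs_add_le _ _).trans (add_le_add (hb _ _) (hb _ _))
    have c4 := abs_le.1 c3
    show 4 * ∫ r in (0:ℝ)..t, G ρ p e (n + 1) r ≤ _
    linarith
  have h6 : 4 * (2 * ∫ r in (0:ℝ)..t, gF ρ p e r) ≤ _ :=
    le_of_tendsto (hlim.const_mul 4) (Eventually.of_forall hJ)
  linarith

end Pool.Agent.Lib.MP424d38.ES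
end
end
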