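import Pool.Agent.Lib.MP_424d38_an.SpecD
import Pool.Agent.Lib.MP_424d38_an.ES.SpecJ
import Pool.Agent.Lib.MP_424d38_an.UGB

section
/-!
# MP_424d38_an, block D, module ANN: the far part
-/
set_option autoImplicit false

open MeasureTheory Filter Topology Set
open scoped ENNReal ContDiff ComplexConjugate

noncomputable section

namespace Pool.Agent.Lib.MP424d38.TY

namespace ANNM

lemma hl_cont (hHCF : SpecHCF) (ℓ : ℝ) : Continuous (hl ℓ) := by
  unfold hl
  exact hHCF.1.continuous.comp (continuous_id.div_const ℓ)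

lemma hl_bd (hHCF : SpecHCF) (ℓ s : ℝ) : |hl ℓ s| ≤ 1 := by
  unfold hl
  rw [abs_of_nonneg (hHCF.2.1 _).1]
  exact (hHCF.2.1 _).2

lemma phi_cont (hHCF : SpecHCF) (ℓ : ℝ) : Continuous (phi ℓ) := by
  unfold phi
  exact continuous_abs.mul (hHCF.1.continuous.comp (continuous_id.div_const ℓ))

lemma phi_bd (hHCF : SpecHCF) {ℓ : ℝ} (hℓ : 0 < ℓ) (s : ℝ) : |phi ℓ s| ≤ 2 * ℓ := by
  unfold phi
  rw [abs_mul, abs_abs, abs_of_nonneg (hHCF.2.1 _).1]
  by_cases h : 2 ≤ |s / ℓ|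
  · rw [hHCF.2.2.2.1 _ h, mul_zero]
    positivity
  · push Not at h
    rw [abs_div, abs_of_pos hℓ, div_lt_iff₀ hℓ] at h
    calc |s| * hc (s / ℓ) ≤ |s| * 1 := mul_le_mul_of_nonneg_left (hHCF.2.1 _).2 (abs_nonneg _)
      _ ≤ 2 * ℓ := by linarith

/-- the annulus weight -/
def chi (ℓ L s : ℝ) : ℝ := hl (2 * L) s - hl (ℓ / 2) s

lemma chi_one (hHCF : SpecHCF) {ℓ L s : ℝ} (hℓ : 0 < ℓ) (hL : ℓ ≤ L) (h1 : ℓ ≤ |s|)
    (h2 : |s| ≤ 2 * L) : chi ℓ L s = 1 := by
  have hL0 : 0 < L := hℓ.trans_le hL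
  unfold chi hl
  rw [hHCF.2.2.1, hHCF.2.2.2.1, sub_zero]
  · rw [abs_div, abs_of_pos (show 0 < ℓ / 2 by positivity), le_div_iff₀ (by positivity)]
    linarith
  · rw [abs_div, abs_of_pos (show 0 < 2 * L by positivity), div_le_one (by positivity)]
    exact h2

lemma chi_nonneg (hHCF : SpecHCF) {ℓ L : ℝ} (hℓ : 0 < ℓ) (hL : ℓ ≤ L) (s : ℝ) :
    0 ≤ chi ℓ L s := by
  have hL0 : 0 < L := hℓ.trans_le hL
  unfold chi hl
  rw [sub_nonneg]
  apply hHCF.2.2.2.2.2.1
  rw [abs_div, abs_div, abs_of_pos (show 0 < 2 * L by positivity),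
    abs_of_pos (show 0 < ℓ / 2 by positivity)]
  apply div_le_div_of_nonneg_left (abs_nonneg _) (by positivity)
  linarith

lemma chi_bd (hHCF : SpecHCF) {ℓ L : ℝ} (hℓ : 0 < ℓ) (hL : ℓ ≤ L) (s : ℝ) :
    |chi ℓ L s| ≤ 1 := by
  rw [abs_of_nonneg (chi_nonneg hHCF hℓ hL s)]
  unfold chi hl
  linarith [(hHCF.2.1 (s / (2 * L))).2, (hHCF.2.1 (s / (ℓ / 2))).1]

lemma chi_cont (hHCF : SpecHCF) (ℓ L : ℝ) : Continuous (chi ℓ L) :=
  (hl_cont hHCF _).sub (hl_cont hHCF _)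

/-- the elementary optimisation -/
lemma opt {x a b : ℝ} (ha : 0 ≤ a) (hb : 0 ≤ b)
    (h : ∀ l : ℝ, 0 < l → 2 * x ≤ l * a ^ 2 + b ^ 2 / l) : x ≤ a * b := by
  have key : ∀ ε : ℝ, 0 < ε → 2 * x ≤ 2 * (a * b) + ε * (a + b) := by
    intro ε hε
    have h1 := h ((b + ε) / (a + ε)) (by positivity)
    have e1 : (b + ε) / (a + ε) * a ^ 2 ≤ (b + ε) * a := by
      rw [div_mul_eq_mul_div, div_le_iff₀ (by positivity)]
      nlinarith [mul_nonneg (mul_nonneg (add_nonneg hb hε.le) ha) hε.le]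
    have e2 : b ^ 2 / ((b + ε) / (a + ε)) ≤ b * (a + ε) := by
      rw [div_div_eq_mul_div, div_le_iff₀ (by positivity)]
      nlinarith [mul_nonneg (mul_nonneg (add_nonneg ha hε.le) hb) hε.le]
    nlinarith
  by_contra hc
  push Not at hc
  have hd : 0 < x - a * b := by linarith
  have := key ((x - a * b) / (a + b + 1)) (by positivity)
  have h2 : (x - a * b) / (a + b + 1) * (a + b) ≤ x - a * b := by
    rw [div_mul_eq_mul_div, div_le_iff₀ (by positivity)]
    nlinarith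
  nlinarith

/-- the pointwise bound -/
lemma pt {K X C r e p r' l : ℝ} (hC : 0 ≤ C) (hl : 0 < l) (hK : |K| ≤ C * X) (hr : 0 ≤ r)
    (he : 0 ≤ e) (hp : p ^ 2 ≤ r * e) (hr' : 0 ≤ r') :
    |K * (p * r')| ≤ C / 2 * (l * (X * (r * r')) + 1 / l * (X * (e * r'))) := by
  have h0 : |p| ≤ (l * r + 1 / l * e) / 2 := by
    apply abs_le_of_sq_le_sq _ (by positivity)
    have : ((l * r + 1 / l * e) / 2) ^ 2 = ((l * r - 1 / l * e) / 2) ^ 2 + r * e := by
      field_simp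
      ring
    rw [this]
    nlinarith [sq_nonneg ((l * r - 1 / l * e) / 2)]
  have hX : 0 ≤ C * X := (abs_nonneg _).trans hK
  rw [abs_mul, abs_mul, abs_of_nonneg hr']
  calc |K| * (|p| * r') ≤ (C * X) * ((l * r + 1 / l * e) / 2 * r') := by gcongr
    _ = C / 2 * (l * (X * (r * r')) + 1 / l * (X * (e * r'))) := by ring

/-- the basic bound at a fixed time -/
lemma fixed (hDDB : SpecDDB) (κ χ : ℝ → ℝ) (C : ℝ) (hC : 0 ≤ C) (hκ : Continuous κ)
    (hχ : Continuous χ) (hκC : ∀ s, |κ s| ≤ C) (hχ1 : ∀ s, |χ s| ≤ 1) (hb : ∀ s, |κ s| ≤ C * χ s)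
    (ρ p e : L1) (hpos : ∀ᵐ a : ℝ, 0 ≤ ρ a ∧ 0 ≤ e a ∧ (p a) ^ 2 ≤ ρ a * e a) (l : ℝ) (hl : 0 < l) :
    |DD κ p ρ| ≤ C / 2 * (l * DD χ ρ ρ + 1 / l * DD χ e ρ) := by
  have i1 := (hDDB.1 χ 1 hχ hχ1 ρ ρ).1
  have i2 := (hDDB.1 χ 1 hχ hχ1 e ρ).1
  have hz1 : ∀ᵐ z : ℝ × ℝ, 0 ≤ ρ z.1 ∧ 0 ≤ e z.1 ∧ (p z.1) ^ 2 ≤ ρ z.1 * e z.1 :=
    Measure.quasiMeasurePreserving_fst.ae hpos
  have hz2 : ∀ᵐ z : ℝ × ℝ, 0 ≤ ρ z.2 ∧ 0 ≤ e z.2 ∧ (p z.2) ^ 2 ≤ ρ z.2 * e z.2 :=
    Measure.quasiMeasurePreserving_snd.ae hpos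
  have h1 : ‖∫ z : ℝ × ℝ, κ (z.1 - z.2) * (p z.1 * ρ z.2)‖ ≤
      ∫ z : ℝ × ℝ, C / 2 * (l * (χ (z.1 - z.2) * (ρ z.1 * ρ z.2)) +
        1 / l * (χ (z.1 - z.2) * (e z.1 * ρ z.2))) := by
    apply norm_integral_le_of_norm_le
    · exact ((i1.const_mul l).add (i2.const_mul (1 / l))).const_mul _
    · filter_upwards [hz1, hz2] with z h1 h2
      rw [Real.norm_eq_abs]
      exact pt hC hl (hb _) h1.1 h1.2.1 h1.2.2 h2.1
  rw [integral_const_mul, integral_add (i1.const_mul l) (i2.const_mul (1 / l)),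
    integral_const_mul, integral_const_mul] at h1
  exact h1

end ANNM

open ANNM in
theorem specANN (hHCF : SpecHCF) (hPHF : SpecPHF) (hPAI : SpecPAI) (hFLB : SpecFLB)
    (hDDB : SpecDDB) : SpecANN := by
  obtain ⟨C, hC, hP1, -⟩ := hPHF
  refine ⟨8 * C, by positivity, ?_⟩
  intro T m R ρ p e hF A hA hAe ℓ L hℓ hL η t t' ht htt' ht' hη hs
  have hL0 : 0 < L := hℓ.trans_le hL
  obtain ⟨hcb, hk1, hk2, hk3⟩ := hP1 ℓ L hℓ hL
  set k : ℝ → ℝ := fun s => phi L s - phi ℓ s with hk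
  have hkc : Continuous (deriv k) := hcb.1.continuous_deriv (by norm_num)
  -- the increments
  have hph : ∀ ℓ' : ℝ, 0 < ℓ' → ℓ' ≤ L → ∀ s, |phi ℓ' s| ≤ 2 * L := by
    intro ℓ' h1 h2 s
    exact (phi_bd hHCF h1 s).trans (by linarith)
  have hlin : ∀ f g : L1, DD k f g = DD (phi L) f g - DD (phi ℓ) f g := fun f g =>
    (hDDB.2.2.2.1 (phi L) (phi ℓ) (2 * L) (phi_cont hHCF L) (phi_cont hHCF ℓ)
      (hph L hL0 le_rfl) (hph ℓ hℓ hL) f g).2
  have hlin2 : ∀ f g : L1, DD (chi ℓ L) f g = DD (hl (2 * L)) f g - DD (hl (ℓ / 2)) f g :=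
    fun f g => (hDDB.2.2.2.1 (hl (2 * L)) (hl (ℓ / 2)) 1 (hl_cont hHCF _) (hl_cont hHCF _)
      (hl_bd hHCF _) (hl_bd hHCF _) f g).2
  rw [← hlin, ← hlin]
  have hP := hPAI T ρ (fun t => (4 : ℝ) • p t) ρ (fun t => (4 : ℝ) • p t) hF.lawρ hF.lawρ k hcb
    t t' ht htt' ht'
  rw [hP]
  have hint : ∀ r, DD (deriv k) ((4 : ℝ) • p r) (ρ r) - DD (deriv k) (ρ r) ((4 : ℝ) • p r)
      = 8 * DD (deriv k) (p r) (ρ r) := by
    intro r
    have e1 := (hDDB.2.2.2.2 (deriv k) C 4 hkc hk1 (p r) (ρ r) 0).2.2.1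
    have e2 := (hDDB.2.2.2.2 (deriv k) C 4 hkc hk1 (ρ r) (p r) 0).2.2.2
    have e3 := hDDB.2.2.1 (deriv k) C hkc hk1 (ρ r) (p r)
    have e4 : DD (fun s => deriv k (-s)) (p r) (ρ r) = - DD (deriv k) (p r) (ρ r) := by
      unfold DD
      rw [← integral_neg]
      refine integral_congr_ae (Filter.Eventually.of_forall fun z => ?_)
      simp only [hk3]
      ring
    rw [e1, e2, e3, e4]
    ring
  have hsub : uIcc t t' ⊆ Ico 0 T := by
    rw [uIcc_of_le htt']
    intro x hx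
    exact ⟨ht.trans hx.1, lt_of_le_of_lt hx.2 ht'⟩
  have hAint : IntervalIntegrable A volume t t' := (hA.mono hsub).intervalIntegrable
  have hbound : ∀ r ∈ Set.Ioc t t', ‖DD (deriv k) ((4 : ℝ) • p r) (ρ r)
        - DD (deriv k) (ρ r) ((4 : ℝ) • p r)‖ ≤ (8 * C * Real.sqrt m * η) * A r := by
    intro r hr
    have hrT : r ∈ Ico 0 T := ⟨ht.trans hr.1.le, lt_of_le_of_lt hr.2 ht'⟩
    obtain ⟨f1, f2, f3, f4, f5⟩ := hFLB T m R ρ p e hF r hrT
    obtain ⟨a1, a2⟩ := hAe r hrT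
    rw [hint r, Real.norm_eq_abs, abs_mul]
    have hb : ∀ s, |deriv k s| ≤ C * chi ℓ L s := by
      intro s
      by_cases h : |s| < ℓ ∨ 2 * L < |s|
      · rw [hk2 s h, abs_zero]
        exact mul_nonneg hC.le (chi_nonneg hHCF hℓ hL s)
      · push Not at h
        rw [chi_one hHCF hℓ hL h.1 h.2, mul_one]
        exact hk1 s
    have hpos : ∀ᵐ a : ℝ, 0 ≤ ρ r a ∧ 0 ≤ e r a ∧ (p r a) ^ 2 ≤ ρ r a * e r a := by
      filter_upwards [hF.pos r hrT] with a ha using ⟨ha.1, ha.2.1, ha.2.2.1⟩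
    have hD1 : DD (chi ℓ L) (ρ r) (ρ r) ≤ η ^ 2 := by
      rw [hlin2]
      exact hs r ⟨hr.1.le, hr.2⟩
    have hD2 : DD (chi ℓ L) (e r) (ρ r) ≤ (Real.sqrt m * A r) ^ 2 := by
      have h1 := (hDDB.1 (chi ℓ L) 1 (chi_cont hHCF ℓ L) (chi_bd hHCF hℓ hL) (e r) (ρ r)).2
      rw [f2, f3] at h1
      calc DD (chi ℓ L) (e r) (ρ r) ≤ |DD (chi ℓ L) (e r) (ρ r)| := le_abs_self _
        _ ≤ 1 * (∫ a, e r a) * m := h1
        _ ≤ 1 * (A r ^ 2) * m := by gcongr
        _ = (Real.sqrt m * A r) ^ 2 := by rw [mul_pow, Real.sq_sqrt f1]; ring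
    have hx : |DD (deriv k) (p r) (ρ r)| / C ≤ η * (Real.sqrt m * A r) := by
      apply opt hη (mul_nonneg (Real.sqrt_nonneg _) a1)
      intro l hl
      have h1 := fixed hDDB (deriv k) (chi ℓ L) C hC.le hkc (chi_cont hHCF ℓ L) hk1
        (chi_bd hHCF hℓ hL) hb (ρ r) (p r) (e r) hpos l hl
      have h2 : C / 2 * (l * DD (chi ℓ L) (ρ r) (ρ r) + 1 / l * DD (chi ℓ L) (e r) (ρ r)) ≤
          C / 2 * (l * η ^ 2 + 1 / l * (Real.sqrt m * A r) ^ 2) := by gcongr
      have h3 := h1.trans h2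
      rw [mul_div_assoc', div_le_iff₀ hC]
      calc 2 * |DD (deriv k) (p r) (ρ r)| ≤
          2 * (C / 2 * (l * η ^ 2 + 1 / l * (Real.sqrt m * A r) ^ 2)) := by linarith
        _ = (l * η ^ 2 + (Real.sqrt m * A r) ^ 2 / l) * C := by ring
    rw [div_le_iff₀ hC] at hx
    rw [abs_of_pos (by norm_num : (0 : ℝ) < 8)]
    calc 8 * |DD (deriv k) (p r) (ρ r)| ≤ 8 * (η * (Real.sqrt m * A r) * C) := by linarith
      _ = (8 * C * Real.sqrt m * η) * A r := by ring
  have h1 := intervalIntegral.norm_integral_le_of_norm_le htt'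
    (Filter.Eventually.of_forall hbound) (hAint.const_mul _)
  rw [intervalIntegral.integral_const_mul] at h1
  exact (le_abs_self _).trans h1

end Pool.Agent.Lib.MP424d38.TY
end
end

section
set_option autoImplicit false

open MeasureTheory Filter Topology Set
open scoped ENNReal ContDiff ComplexConjugate

noncomputable section

namespace Pool.Agent.Lib.MP424d38.TY

namespace CLLM

lemma hl_cd (hHCF : SpecHCF) (ℓ : ℝ) : ContDiff ℝ ∞ (hl ℓ) := by
  unfold hl
  exact hHCF.1.comp (contDiff_id.div_const ℓ)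

lemma hl_deriv (hHCF : SpecHCF) (ℓ s : ℝ) : deriv (hl ℓ) s = deriv hc (s / ℓ) / ℓ := by
  have h1 : HasDerivAt hc (deriv hc (s / ℓ)) (s / ℓ) :=
    (hHCF.1.differentiable (by simp)).differentiableAt.hasDerivAt
  have h2 : HasDerivAt (fun x : ℝ => x / ℓ) (1 / ℓ) s := (hasDerivAt_id s).div_const ℓ
  have h3 := h1.comp s h2
  have h4 : HasDerivAt (hl ℓ) (deriv hc (s / ℓ) * (1 / ℓ)) s := h3
  rw [h4.deriv]
  ring

lemma hl_bd (hHCF : SpecHCF) (ℓ s : ℝ) : |hl ℓ s| ≤ 1 := by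
  unfold hl
  rw [abs_of_nonneg (hHCF.2.1 _).1]
  exact (hHCF.2.1 _).2

end CLLM

open CLLM in
theorem specCLL (hHCF : SpecHCF) (hPAI : SpecPAI) (hFLB : SpecFLB) (hDDB : SpecDDB) : SpecCLL := by
  obtain ⟨C0, hC0⟩ := hHCF.2.2.2.2.2.2
  obtain ⟨hI, hmono, -, -, hlin⟩ := hDDB
  have hC0n : 0 ≤ C0 := le_trans (abs_nonneg _) (hC0 0).1
  refine ⟨8 * C0 + 1, by positivity, ?_⟩
  intro T m R ρ p e hF
  refine ⟨?_, ?_⟩
  · intro t ht ℓ ℓ' hℓ hℓℓ'
    have hℓ' : 0 < ℓ' := lt_of_lt_of_le hℓ hℓℓ'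
    have hpos : ∀ᵐ a : ℝ, 0 ≤ ρ t a := by
      filter_upwards [hF.pos t ht] with a ha using ha.1
    have hc1 := (hl_cd hHCF ℓ).continuous
    have hc2 := (hl_cd hHCF ℓ').continuous
    refine ⟨?_, ?_, ?_⟩
    · have hz : DD (fun _ => (0 : ℝ)) (ρ t) (ρ t) = 0 := by
        unfold DD
        simp
      rw [← hz]
      exact hmono (fun _ => 0) (hl ℓ) 1 continuous_const hc1 (by simp) (hl_bd hHCF ℓ) _ _ hpos hpos
        (fun s => (hHCF.2.1 _).1)
    · refine hmono (hl ℓ) (hl ℓ') 1 hc1 hc2 (hl_bd hHCF ℓ) (hl_bd hHCF ℓ') _ _ hpos hpos ?_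
      intro s
      unfold hl
      apply hHCF.2.2.2.2.2.1
      rw [abs_div, abs_div, abs_of_pos hℓ, abs_of_pos hℓ']
      exact div_le_div_of_nonneg_left (abs_nonneg _) hℓ hℓℓ'
    · have h1 := (hI (hl ℓ') 1 hc2 (hl_bd hHCF ℓ') (ρ t) (ρ t)).2
      have h2 := (hFLB T m R ρ p e hF t ht).2.1
      rw [h2] at h1
      calc DD (hl ℓ') (ρ t) (ρ t) ≤ |DD (hl ℓ') (ρ t) (ρ t)| := le_abs_self _
        _ ≤ 1 * m * m := h1
        _ = m ^ 2 := by ring
  · intro A hA hAe ℓ hℓ t t' ht htt' ht'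
    have hcb : Cb1 (hl ℓ) := by
      refine ⟨(hl_cd hHCF ℓ).of_le (by exact_mod_cast le_top), 1 + C0 / ℓ, ?_⟩
      intro a
      have hq : 0 ≤ C0 / ℓ := by positivity
      refine ⟨(hl_bd hHCF ℓ a).trans (by linarith), ?_⟩
      rw [hl_deriv hHCF, abs_div, abs_of_pos hℓ]
      have : |deriv hc (a / ℓ)| / ℓ ≤ C0 / ℓ := by
        gcongr
        exact (hC0 _).1
      linarith
    have hdc : Continuous (deriv (hl ℓ)) := (hl_cd hHCF ℓ).continuous_deriv (by simp)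
    have hdb : ∀ s, |deriv (hl ℓ) s| ≤ C0 / ℓ := by
      intro s
      rw [hl_deriv hHCF, abs_div, abs_of_pos hℓ]
      gcongr
      exact (hC0 _).1
    have hP := hPAI T ρ (fun t => (4 : ℝ) • p t) ρ (fun t => (4 : ℝ) • p t) hF.lawρ hF.lawρ (hl ℓ) hcb
      t t' ht htt' ht'
    rw [hP]
    have hm0 : 0 ≤ m := (hFLB T m R ρ p e hF t ⟨ht, lt_of_le_of_lt htt' ht'⟩).1
    have hsub : uIcc t t' ⊆ Ico 0 T := by
      rw [uIcc_of_le htt']
      intro x hx
      exact ⟨ht.trans hx.1, lt_of_le_of_lt hx.2 ht'⟩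
    have hAint : IntervalIntegrable A volume t t' := (hA.mono hsub).intervalIntegrable
    have hAn : 0 ≤ ∫ s in t..t', A s := by
      apply intervalIntegral.integral_nonneg htt'
      intro u hu
      exact (hAe u (hsub (by rw [uIcc_of_le htt']; exact hu))).1
    have hbound : ∀ r ∈ Set.Ioc t t', ‖DD (deriv (hl ℓ)) ((4 : ℝ) • p r) (ρ r)
        - DD (deriv (hl ℓ)) (ρ r) ((4 : ℝ) • p r)‖ ≤ (8 * C0 / ℓ * (m * Real.sqrt m)) * A r := by
      intro r hr
      have hrT : r ∈ Ico 0 T := ⟨ht.trans hr.1.le, lt_of_le_of_lt hr.2 ht'⟩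
      obtain ⟨-, f2, -, -, f5⟩ := hFLB T m R ρ p e hF r hrT
      obtain ⟨a1, a2⟩ := hAe r hrT
      have hsq : Real.sqrt (∫ a, e r a) ≤ A r := by
        calc Real.sqrt (∫ a, e r a) ≤ Real.sqrt (A r ^ 2) := Real.sqrt_le_sqrt a2
          _ = A r := Real.sqrt_sq a1
      have hp : ‖p r‖ ≤ Real.sqrt m * A r :=
        f5.trans (mul_le_mul_of_nonneg_left hsq (Real.sqrt_nonneg _))
      have hn4 : ‖(4 : ℝ) • p r‖ ≤ 4 * (Real.sqrt m * A r) := by
        rw [norm_smul]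
        simp only [Real.norm_ofNat]
        linarith
      have hq : 0 ≤ C0 / ℓ := by positivity
      have b1 : |DD (deriv (hl ℓ)) ((4 : ℝ) • p r) (ρ r)| ≤ 4 * (C0 / ℓ) * (m * Real.sqrt m) * A r := by
        have := (hI (deriv (hl ℓ)) (C0 / ℓ) hdc hdb ((4 : ℝ) • p r) (ρ r)).2
        rw [f2] at this
        calc |DD (deriv (hl ℓ)) ((4 : ℝ) • p r) (ρ r)| ≤ C0 / ℓ * ‖(4 : ℝ) • p r‖ * m := this
          _ ≤ C0 / ℓ * (4 * (Real.sqrt m * A r)) * m := by gcongr
          _ = 4 * (C0 / ℓ) * (m * Real.sqrt m) * A r := by ring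
      have b2 : |DD (deriv (hl ℓ)) (ρ r) ((4 : ℝ) • p r)| ≤ 4 * (C0 / ℓ) * (m * Real.sqrt m) * A r := by
        have := (hI (deriv (hl ℓ)) (C0 / ℓ) hdc hdb (ρ r) ((4 : ℝ) • p r)).2
        rw [f2] at this
        calc |DD (deriv (hl ℓ)) (ρ r) ((4 : ℝ) • p r)| ≤ C0 / ℓ * m * ‖(4 : ℝ) • p r‖ := this
          _ ≤ C0 / ℓ * m * (4 * (Real.sqrt m * A r)) := by gcongr
          _ = 4 * (C0 / ℓ) * (m * Real.sqrt m) * A r := by ring
      rw [Real.norm_eq_abs]
      calc _ ≤ |DD (deriv (hl ℓ)) ((4 : ℝ) • p r) (ρ r)| + |DD (deriv (hl ℓ)) (ρ r) ((4 : ℝ) • p r)| :=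
            abs_sub _ _
        _ ≤ 4 * (C0 / ℓ) * (m * Real.sqrt m) * A r + 4 * (C0 / ℓ) * (m * Real.sqrt m) * A r :=
            add_le_add b1 b2
        _ = (8 * C0 / ℓ * (m * Real.sqrt m)) * A r := by ring
    have h1 := intervalIntegral.norm_integral_le_of_norm_le htt'
      (Filter.Eventually.of_forall hbound) (hAint.const_mul _)
    rw [Real.norm_eq_abs] at h1
    refine h1.trans ?_
    rw [intervalIntegral.integral_const_mul]
    have hk : 0 ≤ m * Real.sqrt m := mul_nonneg hm0 (Real.sqrt_nonneg _)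
    have : 8 * C0 / ℓ ≤ (8 * C0 + 1) / ℓ := by gcongr; linarith
    gcongr

end Pool.Agent.Lib.MP424d38.TY
end
end

section
/-!
# MP_424d38_an, module DDB: the double integrals
-/
set_option autoImplicit false

open MeasureTheory Filter Topology Set
open scoped ENNReal ContDiff ComplexConjugate

noncomputable section

namespace Pool.Agent.Lib.MP424d38.TY

namespace DDBM

theorem int_fg (f g : L1) : Integrable (fun z : ℝ × ℝ => f z.1 * g z.2) :=
  (L1.integrable_coeFn f).mul_prod (L1.integrable_coeFn g)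

theorem int_k {κ : ℝ → ℝ} {C : ℝ} (hκ : Continuous κ) (hC : ∀ s, |κ s| ≤ C) (f g : L1) :
    Integrable (fun z : ℝ × ℝ => κ (z.1 - z.2) * (f z.1 * g z.2)) := by
  refine (int_fg f g).bdd_mul (c := C) ?_ ?_
  · exact (hκ.comp (continuous_fst.sub continuous_snd)).aestronglyMeasurable
  · exact ae_of_all _ fun z => hC _

theorem ae_fst {P : ℝ → Prop} (h : ∀ᵐ a : ℝ, P a) : ∀ᵐ z : ℝ × ℝ, P z.1 :=
  Measure.quasiMeasurePreserving_fst.ae h

theorem ae_snd {P : ℝ → Prop} (h : ∀ᵐ a : ℝ, P a) : ∀ᵐ z : ℝ × ℝ, P z.2 :=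
  Measure.quasiMeasurePreserving_snd.ae h

theorem bound {κ : ℝ → ℝ} {C : ℝ} (hC : ∀ s, |κ s| ≤ C) (f g : L1) :
    |DD κ f g| ≤ C * ‖f‖ * ‖g‖ := by
  have h1 : |DD κ f g| ≤ ∫ z : ℝ × ℝ, C * (‖f z.1‖ * ‖g z.2‖) := by
    unfold DD
    rw [← Real.norm_eq_abs]
    refine (norm_integral_le_integral_norm _).trans ?_
    refine integral_mono_of_nonneg (ae_of_all _ fun z => norm_nonneg _) ?_
      (ae_of_all _ fun z => ?_)
    · exact ((L1.integrable_coeFn f).norm.mul_prod (L1.integrable_coeFn g).norm).const_mul C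
    · simp only [norm_mul]
      exact mul_le_mul_of_nonneg_right (hC _) (by positivity)
  have h2 : ∫ z : ℝ × ℝ, C * (‖f z.1‖ * ‖g z.2‖) = C * ‖f‖ * ‖g‖ := by
    rw [integral_const_mul, L1.norm_eq_integral_norm, L1.norm_eq_integral_norm, mul_assoc]
    congr 1
    exact integral_prod_mul (fun a : ℝ => ‖f a‖) (fun a : ℝ => ‖g a‖)
  rw [h2] at h1
  exact h1

end DDBM

open DDBM in
theorem specDDB : SpecDDB := by
  refine ⟨fun κ C hκ hC f g => ⟨int_k hκ hC f g, bound hC f g⟩, ?_, ?_, ?_, ?_⟩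
  · intro κ κ' C hκ hκ' hC hC' f g hf hg hle
    unfold DD
    refine integral_mono_ae (int_k hκ hC f g) (int_k hκ' hC' f g) ?_
    filter_upwards [ae_fst hf, ae_snd hg] with z h1 h2
    exact mul_le_mul_of_nonneg_right (hle _) (mul_nonneg h1 h2)
  · intro κ C hκ hC f g
    unfold DD
    have h := integral_prod_swap (μ := (volume : Measure ℝ)) (ν := (volume : Measure ℝ))
      (fun z : ℝ × ℝ => κ (z.1 - z.2) * (f z.1 * g z.2))
    rw [Measure.volume_eq_prod, ← h]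
    refine integral_congr_ae (ae_of_all _ fun z => ?_)
    simp only [Prod.fst_swap, Prod.snd_swap]
    rw [show -(z.1 - z.2) = z.2 - z.1 by ring, mul_comm (f z.2) (g z.1)]
  · intro κ κ' C hκ hκ' hC hC' f g
    unfold DD
    rw [← integral_add (int_k hκ hC f g) (int_k hκ' hC' f g),
      ← integral_sub (int_k hκ hC f g) (int_k hκ' hC' f g)]
    constructor
    · exact integral_congr_ae (ae_of_all _ fun z => by simp only; ring)
    · exact integral_congr_ae (ae_of_all _ fun z => by simp only; ring)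
  · intro κ C c hκ hC f g h
    unfold DD
    refine ⟨?_, ?_, ?_, ?_⟩
    · rw [← integral_add (int_k hκ hC f g) (int_k hκ hC h g)]
      refine integral_congr_ae ?_
      filter_upwards [ae_fst (Lp.coeFn_add f h)] with z hz
      simp only [hz, Pi.add_apply]
      ring
    · rw [← integral_add (int_k hκ hC f g) (int_k hκ hC f h)]
      refine integral_congr_ae ?_
      filter_upwards [ae_snd (Lp.coeFn_add g h)] with z hz
      simp only [hz, Pi.add_apply]
      ring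
    · rw [← integral_const_mul]
      refine integral_congr_ae ?_
      filter_upwards [ae_fst (Lp.coeFn_smul c f)] with z hz
      simp only [hz, Pi.smul_apply, smul_eq_mul]
      ring
    · rw [← integral_const_mul]
      refine integral_congr_ae ?_
      filter_upwards [ae_snd (Lp.coeFn_smul c g)] with z hz
      simp only [hz, Pi.smul_apply, smul_eq_mul]
      ring

end Pool.Agent.Lib.MP424d38.TY
end
end

section
/-!
# MP_424d38_an, module FLB: basic bounds for a flow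
-/
set_option autoImplicit false

open MeasureTheory Filter Topology Set
open scoped ENNReal ContDiff ComplexConjugate

noncomputable section

namespace Pool.Agent.Lib.MP424d38.TY

namespace FLBM

theorem norm_of_nonneg (f : L1) (hf : ∀ᵐ a : ℝ, 0 ≤ f a) : ‖f‖ = ∫ a, f a := by
  rw [L1.norm_eq_integral_norm]
  refine integral_congr_ae ?_
  filter_upwards [hf] with a ha
  rw [Real.norm_eq_abs, abs_of_nonneg ha]

theorem pointwise {r p e l : ℝ} (hr : 0 ≤ r) (he : 0 ≤ e) (hp : p ^ 2 ≤ r * e) (hl : 0 ≤ l) :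
    2 * l * |p| ≤ l * l * r + e := by
  have h1 : 0 ≤ l * l * r + e := by positivity
  have h2 : (2 * l * |p|) ^ 2 ≤ (l * l * r + e) ^ 2 := by
    rw [mul_pow, sq_abs]
    nlinarith [mul_le_mul_of_nonneg_left hp (by positivity : 0 ≤ 4 * l ^ 2), sq_nonneg (l * l * r - e)]
  exact abs_le_of_sq_le_sq' h2 h1 |>.2

end FLBM

open FLBM in
theorem specFLB : SpecFLB := by
  intro T m R ρ p e hF t ht
  have hpos := hF.pos t ht
  have hρ : ∀ᵐ a : ℝ, 0 ≤ ρ t a := hpos.mono fun a h => h.1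
  have he : ∀ᵐ a : ℝ, 0 ≤ e t a := hpos.mono fun a h => h.2.1
  have hm : ‖ρ t‖ = m := by rw [norm_of_nonneg _ hρ, hF.mass t ht]
  have hE : ‖e t‖ = ∫ a, e t a := norm_of_nonneg _ he
  have hm0 : 0 ≤ m := hm ▸ norm_nonneg _
  have hE0 : 0 ≤ ∫ a, e t a := hE ▸ norm_nonneg _
  refine ⟨hm0, hm, hE, hE0, ?_⟩
  have key : ∀ l : ℝ, 0 ≤ m * (l * l) + (-2 * ‖p t‖) * l + ∫ a, e t a := by
    intro l
    rcases le_or_gt 0 l with hl | hl
    · have h1 : ∫ a, 2 * l * ‖p t a‖ ≤ ∫ a, (l * l * ρ t a + e t a) := by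
        refine integral_mono_ae ((L1.integrable_coeFn (p t)).norm.const_mul _)
          (((L1.integrable_coeFn (ρ t)).const_mul _).add (L1.integrable_coeFn (e t))) ?_
        filter_upwards [hpos] with a ha
        exact pointwise ha.1 ha.2.1 ha.2.2.1 hl
      rw [integral_const_mul, integral_add ((L1.integrable_coeFn (ρ t)).const_mul _)
        (L1.integrable_coeFn (e t)), integral_const_mul, hF.mass t ht,
        ← L1.norm_eq_integral_norm] at h1
      linarith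
    · have : 0 ≤ (-2 * ‖p t‖) * l := by
        have := norm_nonneg (p t)
        nlinarith
      have h3 : 0 ≤ m * (l * l) := mul_nonneg hm0 (mul_self_nonneg l)
      linarith
  have hd := discrim_le_zero key
  unfold discrim at hd
  have h4 : ‖p t‖ ^ 2 ≤ m * ∫ a, e t a := by nlinarith
  rw [← Real.sqrt_mul hm0]
  exact Real.le_sqrt_of_sq_le h4

end Pool.Agent.Lib.MP424d38.TY
end
end

section
/-!
# Module GAS: the gas theorem
-/
set_option autoImplicit false

open MeasureTheory Filter Topology Set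
open scoped ENNReal ContDiff ComplexConjugate

noncomputable section

namespace Pool.Agent.Lib.MP424d38.TY

namespace GASM

theorem ii_of {A : ℝ → ℝ} {T : ℝ} (hA : IntegrableOn A (Ico 0 T)) {a b : ℝ} (ha : 0 ≤ a)
    (hab : a ≤ b) (hb : b ≤ T) : IntervalIntegrable A volume a b := by
  rw [intervalIntegrable_iff_integrableOn_Ioo_of_le hab]
  exact hA.mono_set fun x hx => ⟨ha.trans hx.1.le, hx.2.trans_le hb⟩

theorem tail_tendsto {A : ℝ → ℝ} {T : ℝ} (hT : 0 < T) (hA : IntegrableOn A (Ico 0 T)) :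
    Tendsto (fun t => ∫ s in t..T, A s) (𝓝[<] T) (𝓝 0) := by
  have hI : IntegrableOn A (Icc 0 T) := (integrableOn_Icc_iff_integrableOn_Ico (by finiteness)).2 hA
  have hc : ContinuousOn (fun x => ∫ t in (0 : ℝ)..x, A t) (Icc 0 T) := by
    have h1 : IntegrableOn A (uIcc 0 T) := by rwa [uIcc_of_le hT.le]
    have h2 := intervalIntegral.continuousOn_primitive_interval h1
    rwa [uIcc_of_le hT.le] at h2
  have h3 : Tendsto (fun x => ∫ t in (0 : ℝ)..x, A t) (𝓝[<] T) (𝓝 (∫ t in (0 : ℝ)..T, A t)) := by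
    have h4 : ContinuousWithinAt (fun x => ∫ t in (0 : ℝ)..x, A t) (Icc 0 T) T :=
      hc T ⟨hT.le, le_rfl⟩
    have h5 : 𝓝[<] T ≤ 𝓝[Icc 0 T] T := by
      rw [← nhdsWithin_Ioo_eq_nhdsLT hT]
      exact nhdsWithin_mono _ Ioo_subset_Icc_self
    exact h4.tendsto.mono_left h5
  have h6 : Tendsto (fun t => (∫ s in (0 : ℝ)..T, A s) - ∫ s in (0 : ℝ)..t, A s) (𝓝[<] T)
      (𝓝 0) := by
    have := h3.const_sub (∫ s in (0 : ℝ)..T, A s)
    simpa using this
  refine h6.congr' ?_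
  have h7 : ∀ᶠ t in 𝓝[<] T, t ∈ Ioo 0 T := Ioo_mem_nhdsLT hT
  filter_upwards [h7] with t ht
  have h8 := intervalIntegral.integral_add_adjacent_intervals
    (ii_of hA le_rfl ht.1.le ht.2.le) (ii_of hA ht.1.le ht.2.le le_rfl)
  linarith

theorem sq_le {A : ℝ → ℝ} {T : ℝ} (hmono : MonotoneOn A (Ico 0 T)) (hpos : ∀ t ∈ Ico 0 T, 0 < A t)
    (hA : IntegrableOn A (Ico 0 T)) {a s : ℝ} (ha : 0 ≤ a) (has : a ≤ s) (hs : s < T) :
    IntervalIntegrable (fun r => A r ^ 2) volume a s ∧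
      ∫ r in a..s, A r ^ 2 ≤ A s * ∫ r in a..s, A r := by
  have hsub : Icc a s ⊆ Ico 0 T := fun x hx => ⟨ha.trans hx.1, hx.2.trans_lt hs⟩
  have h1 : MonotoneOn (fun r => A r ^ 2) (uIcc a s) := by
    rw [uIcc_of_le has]
    intro x hx y hy hxy
    exact pow_le_pow_left₀ (hpos x (hsub hx)).le (hmono (hsub hx) (hsub hy) hxy) 2
  have h2 : IntervalIntegrable (fun r => A r ^ 2) volume a s := h1.intervalIntegrable
  refine ⟨h2, ?_⟩
  rw [← intervalIntegral.integral_const_mul]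
  refine intervalIntegral.integral_mono_on has h2 ((ii_of hA ha has hs.le).const_mul _) ?_
  intro x hx
  have hx' := hsub hx
  have : A x ≤ A s := hmono hx' (hsub ⟨has, le_rfl⟩) hx.2
  nlinarith [hpos x hx']

theorem prim_ii {f : ℝ → ℝ} {a t t' : ℝ} (hat : a ≤ t) (htt : t ≤ t')
    (hf : IntegrableOn f (Icc a t')) :
    IntervalIntegrable (fun s => ∫ r in a..s, f r) volume t t' := by
  have h1 : IntegrableOn f (uIcc a t') := by rwa [uIcc_of_le (hat.trans htt)]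
  have h2 := intervalIntegral.continuousOn_primitive_interval h1
  rw [uIcc_of_le (hat.trans htt)] at h2
  refine ContinuousOn.intervalIntegrable ?_
  rw [uIcc_of_le htt]
  exact h2.mono (Icc_subset_Icc hat le_rfl)

end GASM

theorem specGAS (hLBD : SpecLBD) (hUPB : SpecUPB) (hUGB : SpecUGB) : SpecGAS := by
  intro T m R ρ p e hT hF A hmono hA hAi hAt c t₁ hc ht₁ hg
  obtain ⟨C, hC, hL⟩ := hLBD
  obtain ⟨L, hLp, t0, ht0, hU⟩ := hUPB T m R ρ p e hT hF A hmono hA hAi (8 * c) (by positivity)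
  have hgi := (hUGB T m R ρ p e hF).1
  have hpos : ∀ t ∈ Ico 0 T, 0 < A t := fun t ht => (hA t ht).1
  have hm : 0 ≤ m := by
    have h1 := hF.mass 0 ⟨le_rfl, hT⟩
    rw [← h1]
    refine integral_nonneg_of_ae ?_
    filter_upwards [hF.pos 0 ⟨le_rfl, hT⟩] with a ha
    exact ha.1
  -- choice of the starting time
  have hr := GASM.tail_tendsto hT hAi
  have h1 : ∀ᶠ t in 𝓝[<] T, (C * m / L) * (∫ s in t..T, A s) < 16 * c := by
    have h2 := hr.const_mul (C * m / L)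
    rw [mul_zero] at h2
    exact h2.eventually (gt_mem_nhds (by positivity))
  have h2 : ∀ᶠ t in 𝓝[<] T, t ∈ Ioo (max t0 t₁) T := Ioo_mem_nhdsLT (max_lt ht0.2 ht₁.2)
  obtain ⟨a, ha1, ha2⟩ := (h1.and h2).exists
  have hat0 : t0 ≤ a := (le_max_left _ _).trans ha2.1.le
  have hat1 : t₁ ≤ a := (le_max_right _ _).trans ha2.1.le
  have ha0 : 0 ≤ a := ht0.1.trans hat0
  have haT : a < T := ha2.2
  set K0 : ℝ := 64 * (∫ r in (0 : ℝ)..a, gF ρ p e r) + C * m * Real.sqrt m * A a with hK0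
  -- lower bound of the integrand
  have key : ∀ s ∈ Ico a T, 48 * c * A s - K0 ≤ 64 * (∫ r in a..s, gF ρ p e r)
      - C * m * Real.sqrt m * A a - C * m / L * ∫ r in a..s, A r ^ 2 := by
    intro s hs
    have hs0 : s ∈ Ico 0 T := ⟨ha0.trans hs.1, hs.2⟩
    have h3 := hg s ⟨hat1.trans hs.1, hs.2⟩
    have hgs := (hgi s hs0).2
    have e1 : IntervalIntegrable (gF ρ p e) volume 0 a := by
      rw [intervalIntegrable_iff_integrableOn_Icc_of_le ha0]
      exact hgs.mono_set (Icc_subset_Icc le_rfl hs.1)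
    have e2 : IntervalIntegrable (gF ρ p e) volume a s := by
      rw [intervalIntegrable_iff_integrableOn_Icc_of_le hs.1]
      exact hgs.mono_set (Icc_subset_Icc ha0 le_rfl)
    have h4 := intervalIntegral.integral_add_adjacent_intervals e1 e2
    obtain ⟨_, h5⟩ := GASM.sq_le hmono hpos hAi ha0 hs.1 hs.2
    have h6 : ∫ r in a..s, A r ≤ ∫ r in a..T, A r := by
      have h7 := intervalIntegral.integral_add_adjacent_intervals
        (GASM.ii_of hAi ha0 hs.1 hs.2.le) (GASM.ii_of hAi hs0.1 hs.2.le le_rfl)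
      have h8 : 0 ≤ ∫ r in s..T, A r := by
        refine intervalIntegral.integral_nonneg_of_ae_restrict hs.2.le ?_
        have h9 : ∀ᵐ x ∂(volume.restrict (Icc s T)), x ∈ Ico s T := by
          have h10 : (volume.restrict (Icc s T)) = volume.restrict (Ico s T) :=
            Measure.restrict_congr_set Ico_ae_eq_Icc.symm
          rw [h10]
          exact ae_restrict_mem measurableSet_Ico
        filter_upwards [h9] with x hx
        exact (hpos x ⟨hs0.1.trans hx.1, hx.2⟩).le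
      linarith
    have hAs := hpos s hs0
    have hCm : 0 ≤ C * m / L := by positivity
    have h7 : C * m / L * ∫ r in a..s, A r ^ 2 ≤ 16 * c * A s := by
      calc C * m / L * ∫ r in a..s, A r ^ 2 ≤ C * m / L * (A s * ∫ r in a..s, A r) :=
            mul_le_mul_of_nonneg_left h5 hCm
        _ ≤ C * m / L * (A s * ∫ r in a..T, A r) :=
            mul_le_mul_of_nonneg_left (mul_le_mul_of_nonneg_left h6 hAs.le) hCm
        _ = (C * m / L * ∫ r in a..T, A r) * A s := by ring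
        _ ≤ 16 * c * A s := mul_le_mul_of_nonneg_right ha1.le hAs.le
    rw [hK0]
    linarith
  -- for `s` near `T` the integrand is at least `16 c A`
  have h3 : ∀ᶠ s in 𝓝[<] T, K0 / (32 * c) ≤ A s := hAt.eventually_ge_atTop _
  have h4 : ∀ᶠ t in 𝓝[<] T, t ∈ Ioo a T := Ioo_mem_nhdsLT haT
  obtain ⟨t, ht1, ht2⟩ := (h3.and h4).exists
  have htT : t < T := ht2.2
  have hta : a ≤ t := ht2.1.le
  have ht0' : 0 ≤ t := ha0.trans hta
  have key2 : ∀ s ∈ Ico t T, 16 * c * A s ≤ 64 * (∫ r in a..s, gF ρ p e r)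
      - C * m * Real.sqrt m * A a - C * m / L * ∫ r in a..s, A r ^ 2 := by
    intro s hs
    have h5 := key s ⟨hta.trans hs.1, hs.2⟩
    have h6 : A t ≤ A s := hmono ⟨ht0', htT⟩ ⟨ht0'.trans hs.1, hs.2⟩ hs.1
    have h7 : K0 ≤ 32 * c * A s := by
      have h8 : K0 / (32 * c) ≤ A s := ht1.trans h6
      rw [div_le_iff₀ (by positivity)] at h8
      linarith
    linarith
  -- increase of `D`
  have key3 : ∀ t' ∈ Ico t T, 16 * c * (∫ s in t..t', A s)
      ≤ DD (phi L) (ρ t') (ρ t') - DD (phi L) (ρ t) (ρ t) := by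
    intro t' ht'
    refine le_trans ?_ (hL T m R ρ p e hF A hmono (fun t ht => ⟨(hA t ht).1.le, (hA t ht).2⟩) L hLp
      a t t' ha0 hta ht'.1 ht'.2)
    rw [← intervalIntegral.integral_const_mul]
    have ht'0 : t' ∈ Ico 0 T := ⟨ht0'.trans ht'.1, ht'.2⟩
    refine intervalIntegral.integral_mono_on ht'.1
      ((GASM.ii_of hAi ht0' ht'.1 ht'.2.le).const_mul _) ?_ ?_
    · have i1 : IntervalIntegrable (fun s => ∫ r in a..s, gF ρ p e r) volume t t' :=
        GASM.prim_ii hta ht'.1 ((hgi t' ht'0).2.mono_set (Icc_subset_Icc ha0 le_rfl))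
      have i2 : IntervalIntegrable (fun s => ∫ r in a..s, A r ^ 2) volume t t' := by
        refine GASM.prim_ii hta ht'.1 ?_
        have h5 := (GASM.sq_le hmono hpos hAi ha0 (hta.trans ht'.1) ht'.2).1
        rwa [intervalIntegrable_iff_integrableOn_Icc_of_le (hta.trans ht'.1)] at h5
      exact ((i1.const_mul 64).sub intervalIntegrable_const).sub (i2.const_mul _)
    · intro s hs
      exact key2 s ⟨hs.1, hs.2.trans_lt ht'.2⟩
  -- conclusion
  have h5 : Tendsto (fun t' => 16 * c * ∫ s in t..t', A s) (𝓝[<] T)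
      (𝓝 (16 * c * ∫ s in t..T, A s)) := by
    refine Tendsto.const_mul _ ?_
    have h6 : Tendsto (fun t' => (∫ s in t..T, A s) - ∫ s in t'..T, A s) (𝓝[<] T)
        (𝓝 (∫ s in t..T, A s)) := by
      have := hr.const_sub (∫ s in t..T, A s)
      simpa using this
    refine h6.congr' ?_
    filter_upwards [Ioo_mem_nhdsLT htT] with t' ht'
    have h7 := intervalIntegral.integral_add_adjacent_intervals
      (GASM.ii_of hAi ht0' ht'.1.le ht'.2.le) (GASM.ii_of hAi (ht0'.trans ht'.1.le) ht'.2.le le_rfl)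
    linarith
  have h6 : ∀ η : ℝ, 0 < η → 16 * c * (∫ s in t..T, A s) ≤ 8 * c * (∫ s in t..T, A s) + η := by
    intro η hη
    have h7 := hU t ⟨hat0.trans hta, htT⟩ η hη
    refine le_of_tendsto h5 ?_
    filter_upwards [h7, Ioo_mem_nhdsLT htT] with t' ht' ht''
    exact (key3 t' ⟨ht''.1.le, ht''.2⟩).trans ht'
  have h7 : 0 < ∫ s in t..T, A s := by
    refine intervalIntegral.intervalIntegral_pos_of_pos_on (GASM.ii_of hAi ht0' htT.le le_rfl) ?_ htT
    intro x hx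
    exact hpos x ⟨ht0'.trans hx.1.le, hx.2⟩
  have h8 := h6 (4 * c * ∫ s in t..T, A s) (by positivity)
  have h9 : 0 < c * ∫ s in t..T, A s := by positivity
  nlinarith

end Pool.Agent.Lib.MP424d38.TY
end
end

section
/-!
# GLM: the limit of the mollified interaction
-/
set_option autoImplicit false

open MeasureTheory Filter Topology Set
open scoped ENNReal ContDiff ComplexConjugate

noncomputable section

namespace Pool.Agent.Lib.MP424d38.TY

namespace GLMM

/-- translation of an `Lp` class on the line. -/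
def tr (q : ℝ≥0∞) (z : ℝ) (f : Lp ℝ q (volume : Measure ℝ)) : Lp ℝ q (volume : Measure ℝ) :=
  Lp.compMeasurePreserving (fun a : ℝ => a + z) (measurePreserving_add_right volume z) f

theorem tr_coe (q : ℝ≥0∞) (z : ℝ) (f : Lp ℝ q (volume : Measure ℝ)) :
    ∀ᵐ a : ℝ, tr q z f a = f (a + z) :=
  Lp.coeFn_compMeasurePreserving f (measurePreserving_add_right volume z)

theorem tr_zero (q : ℝ≥0∞) (f : Lp ℝ q (volume : Measure ℝ)) : tr q 0 f = f := by
  apply Lp.ext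
  filter_upwards [tr_coe q 0 f] with a ha
  rw [ha, add_zero]

theorem tr_cont (q : ℝ≥0∞) [Fact (1 ≤ q)] (hq : q ≠ ⊤) (f : Lp ℝ q (volume : Measure ℝ)) :
    Continuous fun z : ℝ => tr q z f := by
  let g : ℝ → C(ℝ, ℝ) := fun z => ⟨fun a => a + z, by fun_prop⟩
  have hg : Continuous g := by
    apply ContinuousMap.continuous_of_continuous_uncurry
    exact (continuous_snd.add continuous_fst)
  exact Continuous.compMeasurePreservingLp (f := fun _ : ℝ => f) (g := g) continuous_const hg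
    (fun z => measurePreserving_add_right volume z) hq

theorem tr_norm (q : ℝ≥0∞) [Fact (1 ≤ q)] (z : ℝ) (f : Lp ℝ q (volume : Measure ℝ)) :
    ‖tr q z f‖ = ‖f‖ := Lp.norm_compMeasurePreserving f _

/-- the shear formula. -/
theorem shear (κ : ℝ → ℝ) (C : ℝ) (hκ : Continuous κ) (hC : ∀ s, |κ s| ≤ C) (f g : L1) :
    DD κ f g = ∫ u, κ u * ∫ v, f (v + u) * g v ∧
    Integrable (fun u => κ u * ∫ v, f (v + u) * g v) := by
  have hf := L1.integrable_coeFn f
  have hg := L1.integrable_coeFn g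
  have h0 : Integrable (fun z : ℝ × ℝ => f z.1 * g z.2) (volume.prod volume) := hf.mul_prod hg
  have hadd : MeasurePreserving (fun z : ℝ × ℝ => (z.1 + z.2, z.2)) (volume.prod volume)
      (volume.prod volume) := measurePreserving_add_prod volume volume
  have hsub : MeasurePreserving (fun z : ℝ × ℝ => (z.1 - z.2, z.2)) (volume.prod volume)
      (volume.prod volume) := measurePreserving_sub_prod volume volume
  have h1 : Integrable (fun z : ℝ × ℝ => f (z.1 + z.2) * g z.2) (volume.prod volume) :=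
    hadd.integrable_comp_of_integrable h0
  have h2 : Integrable (fun z : ℝ × ℝ => κ z.1 * (f (z.1 + z.2) * g z.2)) (volume.prod volume) := by
    refine h1.bdd_mul (c := C) (hκ.comp continuous_fst).aestronglyMeasurable ?_
    exact Eventually.of_forall fun z => by simpa using hC z.1
  have h3 : DD κ f g = ∫ z : ℝ × ℝ, κ z.1 * (f (z.1 + z.2) * g z.2) ∂(volume.prod volume) := by
    have h4 : AEStronglyMeasurable (fun z : ℝ × ℝ => κ z.1 * (f (z.1 + z.2) * g z.2))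
        (Measure.map (fun z : ℝ × ℝ => (z.1 - z.2, z.2)) (volume.prod volume)) := by
      rw [hsub.map_eq]; exact h2.aestronglyMeasurable
    have h5 := integral_map hsub.measurable.aemeasurable h4
    rw [hsub.map_eq] at h5
    rw [h5]
    unfold DD
    apply integral_congr_ae
    exact Eventually.of_forall fun z => by simp
  have h6 : ∀ u : ℝ, (∫ v, κ u * (f (u + v) * g v)) = κ u * ∫ v, f (v + u) * g v := by
    intro u
    rw [integral_const_mul]
    congr 1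
    apply integral_congr_ae
    exact Eventually.of_forall fun v => by simp only [add_comm u v]
  constructor
  · rw [h3, integral_prod _ h2]
    exact integral_congr_ae (Eventually.of_forall fun u => h6 u)
  · have h7 := h2.integral_prod_left
    refine h7.congr (Eventually.of_forall fun u => ?_)
    exact h6 u

/-- approximate identity. -/
theorem approx (hKPF : SpecKPF) (Γ : ℝ → ℝ) (hΓ : Continuous Γ)
    (hi : ∀ n : ℕ, 1 ≤ n → Integrable (fun u => deriv (kap n) u * Γ u)) :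
    Tendsto (fun n : ℕ => ∫ u, deriv (kap n) u * Γ u) atTop (𝓝 (2 * Γ 0)) := by
  rw [Metric.tendsto_atTop]
  intro ε hε
  obtain ⟨δ, hδ, hδ2⟩ := Metric.continuousAt_iff.1 hΓ.continuousAt (ε / 4) (by positivity)
  obtain ⟨N, hN⟩ := exists_nat_gt (1 / δ)
  refine ⟨N + 1, fun n hn => ?_⟩
  have hn1 : 1 ≤ n := by omega
  have hn0 : (0 : ℝ) < n := by exact_mod_cast hn1
  have hnδ : 1 / (n : ℝ) < δ := by
    rw [div_lt_comm₀ hn0 hδ]
    refine hN.trans ?_
    have : (N : ℝ) + 1 ≤ n := by exact_mod_cast hn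
    linarith
  obtain ⟨-, -, -, -, hk0, hks, ⟨hki, hk2⟩, -, -⟩ := hKPF n hn1
  have h1 : (∫ u, deriv (kap n) u * Γ u) - 2 * Γ 0 = ∫ u, deriv (kap n) u * (Γ u - Γ 0) := by
    have h2 : (2 : ℝ) * Γ 0 = ∫ u, deriv (kap n) u * Γ 0 := by
      rw [integral_mul_const, hk2]
    rw [h2, ← integral_sub (hi n hn1) (hki.mul_const _)]
    apply integral_congr_ae
    exact Eventually.of_forall fun u => by simp only []; ring
  rw [Real.dist_eq, h1]
  have h3 : |∫ u, deriv (kap n) u * (Γ u - Γ 0)| ≤ ∫ u, deriv (kap n) u * (ε / 4) := by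
    rw [← Real.norm_eq_abs]
    apply norm_integral_le_of_norm_le (hki.mul_const _)
    refine Eventually.of_forall fun u => ?_
    by_cases hu : 1 / (n : ℝ) < |u|
    · rw [hks u hu]; simp
    · rw [not_lt] at hu
      have h4 : dist u 0 < δ := by
        rw [Real.dist_eq, sub_zero]; exact lt_of_le_of_lt hu hnδ
      have h5 := hδ2 h4
      rw [Real.dist_eq] at h5
      rw [norm_mul, Real.norm_eq_abs, Real.norm_eq_abs, abs_of_nonneg (hk0 u)]
      exact mul_le_mul_of_nonneg_left h5.le (hk0 u)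
  rw [integral_mul_const, hk2] at h3
  linarith

theorem bound (hKPF : SpecKPF) (Γ : ℝ → ℝ) (B : ℝ) (hB : ∀ u, |Γ u| ≤ B) (n : ℕ) (hn : 1 ≤ n) :
    |∫ u, deriv (kap n) u * Γ u| ≤ 2 * B := by
  obtain ⟨-, -, -, -, hk0, -, ⟨hki, hk2⟩, -, -⟩ := hKPF n hn
  have h3 : |∫ u, deriv (kap n) u * Γ u| ≤ ∫ u, deriv (kap n) u * B := by
    rw [← Real.norm_eq_abs]
    apply norm_integral_le_of_norm_le (hki.mul_const _)
    refine Eventually.of_forall fun u => ?_
    rw [norm_mul, Real.norm_eq_abs, Real.norm_eq_abs, abs_of_nonneg (hk0 u)]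
    exact mul_le_mul_of_nonneg_left (hB u) (hk0 u)
  rwa [integral_mul_const, hk2] at h3

end GLMM

open GLMM

theorem specGLM (hKPF : SpecKPF) : SpecGLM := by
  intro ρ p e R hpos
  have hρi := L1.integrable_coeFn ρ
  have hpi := L1.integrable_coeFn p
  have hei := L1.integrable_coeFn e
  have hρb : ∀ᵐ a : ℝ, ‖ρ a‖ ≤ R := by
    filter_upwards [hpos] with a ha
    rw [Real.norm_eq_abs, abs_of_nonneg ha.1]; exact ha.2.2.2
  have hρe : Integrable (fun a => ρ a * e a) := hei.bdd_mul (c := R) hρi.aestronglyMeasurable hρb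
  have hpp : Integrable (fun a => p a ^ 2) := by
    refine hρe.mono' (hpi.aestronglyMeasurable.pow 2) ?_
    filter_upwards [hpos] with a ha
    rw [Real.norm_eq_abs, abs_of_nonneg (sq_nonneg _)]
    exact ha.2.2.1
  have hppR : (∫ a, p a ^ 2) ≤ R * ∫ a, e a := by
    rw [← integral_const_mul]
    refine integral_mono_ae hpp (hei.const_mul R) ?_
    filter_upwards [hpos] with a ha
    exact ha.2.2.1.trans (mul_le_mul_of_nonneg_right ha.2.2.2 ha.2.1)
  -- the two correlation functions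
  set Γ₁ : ℝ → ℝ := fun u => ∫ v, e (v + u) * ρ v with hΓ₁
  set Γ₂ : ℝ → ℝ := fun u => ∫ v, p (v + u) * p v with hΓ₂
  have hG1c : Continuous Γ₁ := by
    have h1 : ∀ f : L1, Integrable (fun v => f v * ρ v) := fun f => by
      have := (L1.integrable_coeFn f).bdd_mul (c := R) hρi.aestronglyMeasurable hρb
      exact this.congr (Eventually.of_forall fun v => mul_comm _ _)
    have hR : 0 ≤ R := by
      by_contra hcon
      have : ∀ᵐ a : ℝ, False := by
        filter_upwards [hpos] with a ha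
        exact hcon (ha.1.trans ha.2.2.2)
      rw [eventually_false_iff_eq_bot, ae_eq_bot] at this
      exact (NeZero.ne (volume : Measure ℝ)) this
    have h2 : Continuous fun f : L1 => ∫ v, f v * ρ v := by
      have : LipschitzWith (Real.toNNReal R) fun f : L1 => ∫ v, f v * ρ v := by
        apply LipschitzWith.of_dist_le_mul
        intro f g
        rw [Real.dist_eq, ← integral_sub (h1 f) (h1 g), dist_eq_norm, L1.norm_eq_integral_norm,
          Real.coe_toNNReal R hR, ← integral_const_mul, ← Real.norm_eq_abs]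
        apply norm_integral_le_of_norm_le ((L1.integrable_coeFn (f - g)).norm.const_mul R)
        filter_upwards [hρb, Lp.coeFn_sub f g] with a ha hb
        rw [hb, Pi.sub_apply, ← sub_mul, norm_mul, mul_comm]
        exact mul_le_mul_of_nonneg_right ha (norm_nonneg _)
      exact this.continuous
    have h3 : Γ₁ = (fun f : L1 => ∫ v, f v * ρ v) ∘ fun z => tr 1 z e := by
      funext z
      simp only [hΓ₁, Function.comp]
      apply integral_congr_ae
      filter_upwards [tr_coe 1 z e] with a ha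
      rw [ha]
    rw [h3]
    exact h2.comp (tr_cont 1 ENNReal.one_ne_top e)
  have hG1b : ∀ u, |Γ₁ u| ≤ R * ∫ a, e a := by
    intro u
    have h1 : (∫ a, e a) = ∫ a, e (a + u) := (integral_add_right_eq_self (fun a => e a) u).symm
    rw [h1, ← integral_const_mul, ← Real.norm_eq_abs]
    apply norm_integral_le_of_norm_le ((hei.comp_add_right u).const_mul R)
    have h2 : ∀ᵐ a : ℝ, 0 ≤ e (a + u) := by
      have := (measurePreserving_add_right volume u).quasiMeasurePreserving.ae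
        (hpos.mono fun a ha => ha.2.1)
      exact this
    filter_upwards [hρb, h2] with a ha hb
    rw [norm_mul, Real.norm_eq_abs, abs_of_nonneg hb, mul_comm]
    exact mul_le_mul_of_nonneg_right ha hb
  have hpL : MemLp (fun a => p a) 2 volume := by
    rw [memLp_two_iff_integrable_sq hpi.aestronglyMeasurable]; exact hpp
  set P : Lp ℝ 2 (volume : Measure ℝ) := hpL.toLp _ with hP
  have hPc : ∀ᵐ a : ℝ, P a = p a := hpL.coeFn_toLp
  have hG2 : ∀ u, Γ₂ u = inner ℝ (tr 2 u P) P := by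
    intro u
    rw [L2.inner_def]
    apply integral_congr_ae
    have h2 : ∀ᵐ a : ℝ, P (a + u) = p (a + u) :=
      (measurePreserving_add_right volume u).quasiMeasurePreserving.ae hPc
    filter_upwards [tr_coe 2 u P, hPc, h2] with a ha hb hc
    rw [ha, hb, hc]
    simp [mul_comm]
  have hG2c : Continuous Γ₂ := by
    have : Γ₂ = fun u => inner ℝ (tr 2 u P) P := funext hG2
    rw [this]
    exact (tr_cont 2 ENNReal.ofNat_ne_top P).inner continuous_const
  have hG20 : Γ₂ 0 = ∫ a, p a ^ 2 := by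
    simp only [hΓ₂, add_zero]
    apply integral_congr_ae
    exact Eventually.of_forall fun a => by simp only [sq]
  have hG2b : ∀ u, |Γ₂ u| ≤ R * ∫ a, e a := by
    intro u
    have h1 : |Γ₂ u| ≤ ‖P‖ * ‖P‖ := by
      rw [hG2 u]
      have := abs_real_inner_le_norm (tr 2 u P) P
      rwa [tr_norm] at this
    have h2 : ‖P‖ * ‖P‖ = Γ₂ 0 := by
      rw [hG2 0, tr_zero, real_inner_self_eq_norm_mul_norm]
    rw [h2, hG20] at h1
    exact h1.trans hppR
  have hG10 : Γ₁ 0 = ∫ a, ρ a * e a := by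
    simp only [hΓ₁, add_zero]
    apply integral_congr_ae
    exact Eventually.of_forall fun a => by simp only [mul_comm]
  -- the double integrals
  have hsh : ∀ n : ℕ, 1 ≤ n →
      (DD (deriv (kap n)) e ρ = ∫ u, deriv (kap n) u * Γ₁ u ∧
        Integrable (fun u => deriv (kap n) u * Γ₁ u)) ∧
      (DD (deriv (kap n)) p p = ∫ u, deriv (kap n) u * Γ₂ u ∧
        Integrable (fun u => deriv (kap n) u * Γ₂ u)) := by
    intro n hn
    obtain ⟨-, -, ⟨hc, C, hC⟩, -, -, -, -, -, -⟩ := hKPF n hn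
    exact ⟨shear _ C hc.continuous (fun s => (hC s).1) e ρ,
      shear _ C hc.continuous (fun s => (hC s).1) p p⟩
  refine ⟨hρe.sub hpp, ?_, ?_, ?_⟩
  · apply integral_nonneg_of_ae
    filter_upwards [hpos] with a ha
    simp only [Pi.zero_apply]
    linarith [ha.2.2.1]
  · have h1 := approx hKPF Γ₁ hG1c (fun n hn => ((hsh n hn).1).2)
    have h2 := approx hKPF Γ₂ hG2c (fun n hn => ((hsh n hn).2).2)
    have h3 := h1.sub h2
    have h4 : 2 * Γ₁ 0 - 2 * Γ₂ 0 = 2 * ∫ a, (ρ a * e a - p a ^ 2) := by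
      rw [hG10, hG20, integral_sub hρe hpp]; ring
    rw [h4] at h3
    refine h3.congr' ?_
    filter_upwards [eventually_ge_atTop 1] with n hn
    rw [((hsh n hn).1).1, ((hsh n hn).2).1]
  · intro n hn
    rw [((hsh n hn).1).1, ((hsh n hn).2).1]
    have h1 := bound hKPF Γ₁ _ hG1b n hn
    have h2 := bound hKPF Γ₂ _ hG2b n hn
    have h3 := abs_sub (∫ u, deriv (kap n) u * Γ₁ u) (∫ u, deriv (kap n) u * Γ₂ u)
    linarith

end Pool.Agent.Lib.MP424d38.TY
end
end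

section
/-!
# MP_424d38_an, module HCF: facts on the cutoff `hc`
-/
set_option autoImplicit false

open MeasureTheory Filter Topology Set
open scoped ENNReal ContDiff ComplexConjugate

noncomputable section

namespace Pool.Agent.Lib.MP424d38.TY

namespace HCFM

theorem smooth : ContDiff ℝ ∞ hc :=
  (Real.smoothTransition.contDiff.comp (contDiff_const.sub contDiff_id)).mul
    (Real.smoothTransition.contDiff.comp (contDiff_const.add contDiff_id))

theorem even (s : ℝ) : hc (-s) = hc s := by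
  unfold hc
  rw [show 2 - -s = 2 + s by ring, show 2 + -s = 2 - s by ring, mul_comm]

theorem eq_abs (s : ℝ) : hc s = Real.smoothTransition (2 - |s|) := by
  rcases le_or_gt 0 s with h | h
  · rw [abs_of_nonneg h]
    unfold hc
    rw [Real.smoothTransition.one_of_one_le (x := 2 + s) (by linarith), mul_one]
  · rw [abs_of_neg h]
    unfold hc
    rw [Real.smoothTransition.one_of_one_le (x := 2 - s) (by linarith), one_mul,
      show 2 - -s = 2 + s by ring]

theorem zero (s : ℝ) (h : 2 ≤ |s|) : hc s = 0 := by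
  rw [eq_abs]
  exact Real.smoothTransition.zero_of_nonpos (by linarith)

theorem cpt : HasCompactSupport hc := by
  refine HasCompactSupport.of_support_subset_isCompact (isCompact_Icc (a := (-2 : ℝ)) (b := 2))
    fun s hs => ?_
  by_contra hcon
  refine hs (zero s ?_)
  by_contra h2
  push Not at h2
  exact hcon ⟨(abs_lt.1 h2).1.le, (abs_lt.1 h2).2.le⟩

/-- A smooth function with compactly supported derivative has bounded first and second derivatives. -/
theorem bounds {f : ℝ → ℝ} (hf : ContDiff ℝ ∞ f) (hc : HasCompactSupport (deriv f)) :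
    ∃ C : ℝ, ∀ s, |deriv f s| ≤ C ∧ |deriv (deriv f) s| ≤ C := by
  have h1 : ContDiff ℝ ∞ (deriv f) := (contDiff_infty_iff_deriv.1 hf).2
  have h2 : ContDiff ℝ ∞ (deriv (deriv f)) := (contDiff_infty_iff_deriv.1 h1).2
  obtain ⟨C1, hC1⟩ := hc.exists_bound_of_continuous h1.continuous
  obtain ⟨C2, hC2⟩ := hc.deriv.exists_bound_of_continuous h2.continuous
  exact ⟨max C1 C2, fun s => ⟨(hC1 s).trans (le_max_left _ _), (hC2 s).trans (le_max_right _ _)⟩⟩

end HCFM

open HCFM in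
theorem specHCF : SpecHCF := by
  refine ⟨smooth, fun s => ?_, fun s hs => ?_, zero, even, fun s t hst => ?_, ?_⟩
  · rw [eq_abs]
    exact ⟨Real.smoothTransition.nonneg _, Real.smoothTransition.le_one _⟩
  · rw [eq_abs]
    exact Real.smoothTransition.one_of_one_le (by linarith)
  · rw [eq_abs, eq_abs]
    exact Real.smoothTransition.monotone (by linarith)
  · exact bounds smooth cpt.deriv

end Pool.Agent.Lib.MP424d38.TY
end
end

section
/-!
# MP_424d38_an, module KPF: facts on the kernels `kap n`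
-/
set_option autoImplicit false

open MeasureTheory Filter Topology Set
open scoped ENNReal ContDiff ComplexConjugate

noncomputable section

namespace Pool.Agent.Lib.MP424d38.TY

namespace KPFM

theorem smooth (n : ℕ) : ContDiff ℝ ∞ (kap n) := by
  have h : ContDiff ℝ ∞ (fun s : ℝ => ((n : ℝ) * s + 1) / 2) :=
    ((contDiff_const.mul contDiff_id).add contDiff_const).div_const 2
  exact (contDiff_const.mul (Real.smoothTransition.contDiff.comp h)).sub contDiff_const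

theorem symm (x : ℝ) : Real.smoothTransition (1 - x) = 1 - Real.smoothTransition x := by
  have h := (Real.smoothTransition.pos_denom x).ne'
  unfold Real.smoothTransition
  rw [show 1 - (1 - x) = x by ring, add_comm (expNegInvGlue (1 - x)) (expNegInvGlue x)]
  field_simp
  ring

theorem odd (n : ℕ) (s : ℝ) : kap n (-s) = - kap n s := by
  unfold kap
  rw [show ((n : ℝ) * -s + 1) / 2 = 1 - ((n : ℝ) * s + 1) / 2 by ring, symm]
  ring

theorem one {n : ℕ} (hn : 1 ≤ n) {s : ℝ} (h : 1 / (n : ℝ) ≤ s) : kap n s = 1 := by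
  have hn' : (0 : ℝ) < n := by exact_mod_cast hn
  unfold kap
  rw [Real.smoothTransition.one_of_one_le]
  · norm_num
  · rw [div_le_iff₀ hn'] at h
    linarith

theorem neg_one {n : ℕ} (hn : 1 ≤ n) {s : ℝ} (h : s ≤ - (1 / (n : ℝ))) : kap n s = -1 := by
  have := odd n (-s)
  rw [neg_neg] at this
  rw [this, one hn (by linarith)]

theorem deriv_zero {n : ℕ} (hn : 1 ≤ n) {s : ℝ} (h : 1 / (n : ℝ) < |s|) : deriv (kap n) s = 0 := by
  rcases lt_abs.1 h with h1 | h1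
  · have : kap n =ᶠ[𝓝 s] fun _ => (1 : ℝ) := by
      filter_upwards [Ioi_mem_nhds h1] with t ht
      exact one hn (le_of_lt ht)
    rw [this.deriv_eq, deriv_const]
  · have : kap n =ᶠ[𝓝 s] fun _ => (-1 : ℝ) := by
      filter_upwards [Iio_mem_nhds (show s < - (1 / (n : ℝ)) by linarith)] with t ht
      exact neg_one hn (le_of_lt ht)
    rw [this.deriv_eq, deriv_const]

theorem cpt {n : ℕ} (hn : 1 ≤ n) : HasCompactSupport (deriv (kap n)) := by
  refine HasCompactSupport.of_support_subset_isCompact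
    (isCompact_Icc (a := - (1 / (n : ℝ))) (b := 1 / (n : ℝ))) fun s hs => ?_
  by_contra hcon
  refine hs (deriv_zero hn ?_)
  by_contra h2
  push Not at h2
  exact hcon ⟨(abs_le.1 h2).1, (abs_le.1 h2).2⟩

theorem abs_le_one (n : ℕ) (s : ℝ) : |kap n s| ≤ 1 := by
  unfold kap
  have h1 := Real.smoothTransition.nonneg (((n : ℝ) * s + 1) / 2)
  have h2 := Real.smoothTransition.le_one (((n : ℝ) * s + 1) / 2)
  rw [abs_le]
  constructor <;> linarith

theorem mono (n : ℕ) : Monotone (kap n) := by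
  intro s t hst
  unfold kap
  have h : ((n : ℝ) * s + 1) / 2 ≤ ((n : ℝ) * t + 1) / 2 := by
    have := mul_le_mul_of_nonneg_left hst (Nat.cast_nonneg n : (0 : ℝ) ≤ n)
    linarith
  have := Real.smoothTransition.monotone h
  linarith

end KPFM

open KPFM in
theorem specKPF : SpecKPF := by
  intro n hn
  have hs := smooth n
  have h1 : ContDiff ℝ ∞ (deriv (kap n)) := (contDiff_infty_iff_deriv.1 hs).2
  obtain ⟨C, hC⟩ := HCFM.bounds hs (cpt hn)
  have hint : Integrable (deriv (kap n)) :=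
    h1.continuous.integrable_of_hasCompactSupport (cpt hn)
  refine ⟨hs, ⟨hs.of_le (by exact_mod_cast le_top), max 1 C, fun a => ⟨?_, ?_⟩⟩,
    ⟨h1.of_le (by exact_mod_cast le_top), C, hC⟩, abs_le_one n, fun s => ?_,
    fun s hs' => deriv_zero hn hs', ⟨hint, ?_⟩, odd n, fun s hs' => one hn hs'⟩
  · exact (abs_le_one n a).trans (le_max_left _ _)
  · exact (hC a).1.trans (le_max_right _ _)
  · exact (mono n).deriv_nonneg
  · have htop : Tendsto (kap n) atTop (𝓝 1) := by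
      refine tendsto_const_nhds.congr' ?_
      filter_upwards [eventually_ge_atTop (1 / (n : ℝ))] with s hs'
      exact (one hn hs').symm
    have hbot : Tendsto (kap n) atBot (𝓝 (-1)) := by
      refine tendsto_const_nhds.congr' ?_
      filter_upwards [eventually_le_atBot (- (1 / (n : ℝ)))] with s hs'
      exact (neg_one hn hs').symm
    have := integral_of_hasDerivAt_of_tendsto (f := kap n) (f' := deriv (kap n))
      (fun x => (hs.differentiable (by simp) x).hasDerivAt) hint hbot htop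
    rw [this]
    norm_num

end Pool.Agent.Lib.MP424d38.TY
end
end

section
/-!
# MP_424d38_an, module PAI: time derivative of a double integral
-/
set_option autoImplicit false

open MeasureTheory Filter Topology Set
open scoped ENNReal ContDiff ComplexConjugate

noncomputable section

namespace Pool.Agent.Lib.MP424d38.TY

namespace PAIM

/-- `β(a) = ∫ κ(a-a') g(a') da'` -/
def bet (κ : ℝ → ℝ) (g : L1) (a : ℝ) : ℝ := ∫ b, κ (a - b) * g b

theorem int_g (g : L1) : Integrable (fun b => g b) := L1.integrable_coeFn g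

theorem int_bet {κ : ℝ → ℝ} {C : ℝ} (hκ : Continuous κ) (hC : ∀ s, |κ s| ≤ C) (g : L1) (a : ℝ) :
    Integrable (fun b => κ (a - b) * g b) := by
  refine (int_g g).bdd_mul (c := C) ?_ ?_
  · exact (hκ.comp (continuous_const.sub continuous_id)).aestronglyMeasurable
  · exact ae_of_all _ fun b => hC _

theorem bet_bdd {κ : ℝ → ℝ} {C : ℝ} (hC : ∀ s, |κ s| ≤ C) (g : L1) (a : ℝ) :
    |bet κ g a| ≤ C * ‖g‖ := by
  unfold bet
  have h1 : ‖g‖ = ∫ b, ‖g b‖ := L1.norm_eq_integral_norm g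
  rw [h1, ← integral_const_mul, ← Real.norm_eq_abs]
  refine norm_integral_le_of_norm_le ((int_g g).norm.const_mul C) (ae_of_all _ fun b => ?_)
  rw [norm_mul]
  exact mul_le_mul_of_nonneg_right (hC _) (norm_nonneg _)

theorem bet_cont {κ : ℝ → ℝ} {C : ℝ} (hκ : Continuous κ) (hC : ∀ s, |κ s| ≤ C) (g : L1) :
    Continuous (bet κ g) := by
  unfold bet
  refine continuous_of_dominated (bound := fun b => C * ‖g b‖) ?_ ?_ ?_ ?_
  · intro a
    exact (int_bet hκ hC g a).aestronglyMeasurable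
  · intro a
    refine ae_of_all _ fun b => ?_
    rw [norm_mul]
    exact mul_le_mul_of_nonneg_right (hC _) (norm_nonneg _)
  · exact (int_g g).norm.const_mul C
  · refine ae_of_all _ fun b => ?_
    exact (hκ.comp (continuous_id.sub continuous_const)).mul continuous_const

theorem bet_deriv {κ : ℝ → ℝ} {C : ℝ} (hκ : ContDiff ℝ 1 κ) (hC : ∀ s, |κ s| ≤ C)
    (hC' : ∀ s, |deriv κ s| ≤ C) (g : L1) (a : ℝ) :
    HasDerivAt (bet κ g) (bet (deriv κ) g a) a := by
  have hd : Differentiable ℝ κ := hκ.differentiable (by norm_num)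
  have hc' : Continuous (deriv κ) := hκ.continuous_deriv (by norm_num)
  have key := hasDerivAt_integral_of_dominated_loc_of_deriv_le (μ := (volume : Measure ℝ))
    (F := fun a b => κ (a - b) * g b) (F' := fun a b => deriv κ (a - b) * g b) (x₀ := a)
    (s := univ) (bound := fun b => C * ‖g b‖) (univ_mem)
    (Eventually.of_forall fun x => (int_bet hκ.continuous hC g x).aestronglyMeasurable)
    (int_bet hκ.continuous hC g a)
    (int_bet hc' hC' g a).aestronglyMeasurable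
    (ae_of_all _ fun b x _ => by
      rw [norm_mul]
      exact mul_le_mul_of_nonneg_right (hC' _) (norm_nonneg _))
    ((int_g g).norm.const_mul C)
    (ae_of_all _ fun b x _ => by
      have h1 : HasDerivAt (fun x => x - b) 1 x := (hasDerivAt_id x).sub_const b
      have h2 := ((hd (x - b)).hasDerivAt.comp x h1).mul_const (g b)
      rw [mul_one] at h2
      exact h2)
  exact key.2

theorem bet_Cb1 {κ : ℝ → ℝ} (hκ : Cb1 κ) (g : L1) :
    Cb1 (bet κ g) ∧ deriv (bet κ g) = bet (deriv κ) g := by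
  obtain ⟨h1, C, hC⟩ := hκ
  have hd : ∀ a, HasDerivAt (bet κ g) (bet (deriv κ) g a) a :=
    bet_deriv h1 (fun s => (hC s).1) (fun s => (hC s).2) g
  have he : deriv (bet κ g) = bet (deriv κ) g := funext fun a => (hd a).deriv
  have hc' : Continuous (deriv κ) := h1.continuous_deriv (by norm_num)
  refine ⟨⟨?_, C * ‖g‖, fun a => ⟨bet_bdd (fun s => (hC s).1) g a, ?_⟩⟩, he⟩
  · rw [contDiff_one_iff_deriv]
    refine ⟨fun a => (hd a).differentiableAt, ?_⟩
    rw [he]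
    exact bet_cont hc' (fun s => (hC s).2) g
  · rw [he]
    exact bet_bdd (fun s => (hC s).2) g a

theorem DD_eq (hDDB : SpecDDB) {κ : ℝ → ℝ} {C : ℝ} (hκ : Continuous κ) (hC : ∀ s, |κ s| ≤ C)
    (f g : L1) : DD κ f g = ∫ a, bet κ g a * f a := by
  unfold DD
  have h := (hDDB.1 κ C hκ hC f g).1
  rw [Measure.volume_eq_prod] at h ⊢
  rw [integral_prod _ h]
  refine integral_congr_ae (ae_of_all _ fun a => ?_)
  show ∫ b, κ (a - b) * (f a * g b) = bet κ g a * f a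
  unfold bet
  rw [← integral_mul_const]
  refine integral_congr_ae (ae_of_all _ fun b => ?_)
  show κ (a - b) * (f a * g b) = κ (a - b) * g b * f a
  ring

/-- the first variable -/
theorem var1 (hDDB : SpecDDB) {T : ℝ} {f F : ℝ → L1} (hf : Law T f F) {κ : ℝ → ℝ} (hκ : Cb1 κ)
    (g : L1) (s t : ℝ) (h0 : 0 ≤ s) (h1 : s ≤ t) (h2 : t < T) :
    DD κ (f t) g - DD κ (f s) g = ∫ r in s..t, DD (deriv κ) (F r) g := by
  obtain ⟨C, hC⟩ := hκ.2
  have hc' : Continuous (deriv κ) := hκ.1.continuous_deriv (by norm_num)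
  rw [DD_eq hDDB hκ.1.continuous (fun s => (hC s).1), DD_eq hDDB hκ.1.continuous
    (fun s => (hC s).1)]
  obtain ⟨h3, h4⟩ := bet_Cb1 hκ g
  rw [hf.law _ h3 s t h0 h1 h2, h4]
  refine intervalIntegral.integral_congr fun r _ => ?_
  show ∫ a, bet (deriv κ) g a * F r a = DD (deriv κ) (F r) g
  rw [DD_eq hDDB hc' (fun s => (hC s).2)]

/-- reflected kernel -/
theorem refl_Cb1 {κ : ℝ → ℝ} (hκ : Cb1 κ) : Cb1 (fun s => κ (-s)) ∧
    deriv (fun s => κ (-s)) = fun s => - deriv κ (-s) := by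
  have he : deriv (fun s => κ (-s)) = fun s => - deriv κ (-s) := by
    funext s
    rw [deriv_comp_neg]
  obtain ⟨h1, C, hC⟩ := hκ
  refine ⟨⟨h1.comp contDiff_neg, C, fun a => ⟨(hC _).1, ?_⟩⟩, he⟩
  rw [he]
  show |- deriv κ (-a)| ≤ C
  rw [abs_neg]
  exact (hC _).2

theorem var2 (hDDB : SpecDDB) {T : ℝ} {g G : ℝ → L1} (hg : Law T g G) {κ : ℝ → ℝ} (hκ : Cb1 κ)
    (f : L1) (s t : ℝ) (h0 : 0 ≤ s) (h1 : s ≤ t) (h2 : t < T) :
    DD κ f (g t) - DD κ f (g s) = ∫ r in s..t, - DD (deriv κ) f (G r) := by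
  obtain ⟨C, hC⟩ := hκ.2
  have hc' : Continuous (deriv κ) := hκ.1.continuous_deriv (by norm_num)
  rw [hDDB.2.2.1 κ C hκ.1.continuous (fun s => (hC s).1) f (g t),
    hDDB.2.2.1 κ C hκ.1.continuous (fun s => (hC s).1) f (g s)]
  obtain ⟨h3, h4⟩ := refl_Cb1 hκ
  rw [var1 hDDB hg h3 f s t h0 h1 h2, h4]
  refine intervalIntegral.integral_congr fun r _ => ?_
  show DD (fun s => - deriv κ (-s)) (G r) f = - DD (deriv κ) f (G r)
  rw [hDDB.2.2.1 (deriv κ) C hc' (fun s => (hC s).2) f (G r)]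
  unfold DD
  rw [← integral_neg]
  refine integral_congr_ae (ae_of_all _ fun z => ?_)
  show - deriv κ (-(z.1 - z.2)) * (G r z.1 * f z.2) = -(deriv κ (-(z.1 - z.2)) * (G r z.1 * f z.2))
  ring

/-- the double integral as a continuous bilinear form -/
def bil (hDDB : SpecDDB) (κ : ℝ → ℝ) (C : ℝ) (hκ : Continuous κ) (hC : ∀ s, |κ s| ≤ C) :
    L1 →L[ℝ] L1 →L[ℝ] ℝ :=
  LinearMap.mkContinuous₂ (LinearMap.mk₂ ℝ (fun f g => DD κ f g)
    (fun f f' g => (hDDB.2.2.2.2 κ C 0 hκ hC f g f').1)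
    (fun c f g => (hDDB.2.2.2.2 κ C c hκ hC f g f).2.2.1)
    (fun f g g' => (hDDB.2.2.2.2 κ C 0 hκ hC f g g').2.1)
    (fun c f g => (hDDB.2.2.2.2 κ C c hκ hC f g f).2.2.2)) C
    (fun f g => (hDDB.1 κ C hκ hC f g).2)

theorem bil_apply (hDDB : SpecDDB) (κ : ℝ → ℝ) (C : ℝ) (hκ : Continuous κ) (hC : ∀ s, |κ s| ≤ C)
    (f g : L1) : bil hDDB κ C hκ hC f g = DD κ f g := rfl

theorem DD_cont (hDDB : SpecDDB) {κ : ℝ → ℝ} {C : ℝ} (hκ : Continuous κ) (hC : ∀ s, |κ s| ≤ C)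
    {X : Type*} [TopologicalSpace X] {S : Set X} {f g : X → L1} (hf : ContinuousOn f S)
    (hg : ContinuousOn g S) : ContinuousOn (fun x => DD κ (f x) (g x)) S := by
  have h : (fun x => DD κ (f x) (g x)) = fun x => bil hDDB κ C hκ hC (f x) (g x) := rfl
  rw [h]
  exact ((bil hDDB κ C hκ hC).continuous.comp_continuousOn hf).clm_apply hg

/-- the diagonal of a function of two times -/
theorem fund {T : ℝ} {Ψ P Q : ℝ → ℝ → ℝ}
    (hΨ : ContinuousOn (fun x => Ψ x x) (Ico 0 T))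
    (hP : ContinuousOn (fun z : ℝ × ℝ => P z.1 z.2) (Ico 0 T ×ˢ Ico 0 T))
    (hQ : ContinuousOn (fun z : ℝ × ℝ => Q z.1 z.2) (Ico 0 T ×ˢ Ico 0 T))
    (h1 : ∀ s t u, 0 ≤ s → s ≤ t → t < T → u ∈ Ico 0 T → Ψ t u - Ψ s u = ∫ r in s..t, P r u)
    (h2 : ∀ s t u, 0 ≤ s → s ≤ t → t < T → u ∈ Ico 0 T → Ψ u t - Ψ u s = ∫ r in s..t, Q u r)
    (s t : ℝ) (h0 : 0 ≤ s) (hst : s ≤ t) (htT : t < T) :
    Ψ t t - Ψ s s = ∫ r in s..t, (P r r + Q r r) := by
  have hsub : Icc s t ⊆ Ico 0 T := fun x hx => ⟨h0.trans hx.1, hx.2.trans_lt htT⟩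
  have hdiag : ∀ {R : ℝ → ℝ → ℝ},
      ContinuousOn (fun z : ℝ × ℝ => R z.1 z.2) (Ico 0 T ×ˢ Ico 0 T) →
      ContinuousOn (fun r => R r r) (Icc s t) := by
    intro R hR
    exact hR.comp (f := fun r : ℝ => (r, r)) (by fun_prop) fun r hr => ⟨hsub hr, hsub hr⟩
  symm
  refine intervalIntegral.integral_eq_sub_of_hasDeriv_right (E := ℝ)
    (f := fun x => Ψ x x) (f' := fun r => P r r + Q r r) ?_ ?_ ?_
  · rw [uIcc_of_le hst]
    exact hΨ.mono hsub
  · intro x hx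
    rw [min_eq_left hst, max_eq_right hst] at hx
    have hxI : x ∈ Ico 0 T := ⟨h0.trans hx.1.le, hx.2.trans htT⟩
    rw [hasDerivWithinAt_iff_isLittleO, Asymptotics.isLittleO_iff]
    intro c hc
    obtain ⟨δ1, hδ1, hd1⟩ := Metric.continuousOn_iff.1 hP (x, x) ⟨hxI, hxI⟩ (c / 2) (by positivity)
    obtain ⟨δ2, hδ2, hd2⟩ := Metric.continuousOn_iff.1 hQ (x, x) ⟨hxI, hxI⟩ (c / 2) (by positivity)
    have hev : ∀ᶠ y in 𝓝[>] x, y ∈ Ioo x (min (min (x + δ1) (x + δ2)) t) :=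
      Ioo_mem_nhdsGT (lt_min (lt_min (by linarith) (by linarith)) hx.2)
    filter_upwards [hev] with y hy
    have hy1 : y < x + δ1 := hy.2.trans_le ((min_le_left _ _).trans (min_le_left _ _))
    have hy2 : y < x + δ2 := hy.2.trans_le ((min_le_left _ _).trans (min_le_right _ _))
    have hyt : y < t := hy.2.trans_le (min_le_right _ _)
    have hyI : y ∈ Ico 0 T := ⟨hxI.1.trans hy.1.le, hyt.trans htT⟩
    have hsub2 : Icc x y ⊆ Ico 0 T := fun z hz => ⟨hxI.1.trans hz.1, hz.2.trans_lt hyI.2⟩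
    have e1 : Ψ y y - Ψ x y = ∫ r in x..y, P r y := h1 x y y hxI.1 hy.1.le hyI.2 hyI
    have e2 : Ψ x y - Ψ x x = ∫ r in x..y, Q x r := h2 x y x hxI.1 hy.1.le hyI.2 hxI
    have i1 : IntervalIntegrable (fun r => P r y) volume x y := by
      apply ContinuousOn.intervalIntegrable
      rw [uIcc_of_le hy.1.le]
      exact hP.comp (f := fun r : ℝ => (r, y)) (by fun_prop) fun r hr => ⟨hsub2 hr, hyI⟩
    have i2 : IntervalIntegrable (fun r => Q x r) volume x y := by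
      apply ContinuousOn.intervalIntegrable
      rw [uIcc_of_le hy.1.le]
      exact hQ.comp (f := fun r : ℝ => (x, r)) (by fun_prop) fun r hr => ⟨hxI, hsub2 hr⟩
    have b1 : ‖(∫ r in x..y, P r y) - (y - x) * P x x‖ ≤ c / 2 * |y - x| := by
      have : (∫ r in x..y, P r y) - (y - x) * P x x = ∫ r in x..y, (P r y - P x x) := by
        rw [intervalIntegral.integral_sub i1 intervalIntegrable_const,
          intervalIntegral.integral_const, smul_eq_mul]
      rw [this]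
      refine intervalIntegral.norm_integral_le_of_norm_le_const fun r hr => ?_
      rw [uIoc_of_le hy.1.le] at hr
      have h := hd1 (r, y) ⟨hsub2 ⟨hr.1.le, hr.2⟩, hyI⟩ (by
        rw [Prod.dist_eq, max_lt_iff, Real.dist_eq, Real.dist_eq]
        constructor
        · show |r - x| < δ1
          rw [abs_of_pos (by linarith [hr.1])]
          linarith [hr.2]
        · show |y - x| < δ1
          rw [abs_of_pos (by linarith [hy.1])]
          linarith)
      rw [Real.dist_eq] at h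
      exact h.le
    have b2 : ‖(∫ r in x..y, Q x r) - (y - x) * Q x x‖ ≤ c / 2 * |y - x| := by
      have : (∫ r in x..y, Q x r) - (y - x) * Q x x = ∫ r in x..y, (Q x r - Q x x) := by
        rw [intervalIntegral.integral_sub i2 intervalIntegrable_const,
          intervalIntegral.integral_const, smul_eq_mul]
      rw [this]
      refine intervalIntegral.norm_integral_le_of_norm_le_const fun r hr => ?_
      rw [uIoc_of_le hy.1.le] at hr
      have h := hd2 (x, r) ⟨hxI, hsub2 ⟨hr.1.le, hr.2⟩⟩ (by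
        rw [Prod.dist_eq, max_lt_iff, Real.dist_eq, Real.dist_eq]
        constructor
        · show |x - x| < δ2
          rw [sub_self, abs_zero]
          exact hδ2
        · show |r - x| < δ2
          rw [abs_of_pos (by linarith [hr.1])]
          linarith [hr.2])
      rw [Real.dist_eq] at h
      exact h.le
    have e3 : Ψ y y - Ψ x x - (y - x) • (P x x + Q x x) =
        ((∫ r in x..y, P r y) - (y - x) * P x x) + ((∫ r in x..y, Q x r) - (y - x) * Q x x) := by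
      rw [← e1, ← e2, smul_eq_mul]
      ring
    show ‖Ψ y y - Ψ x x - (y - x) • (P x x + Q x x)‖ ≤ c * ‖y - x‖
    rw [e3]
    refine (norm_add_le _ _).trans ?_
    rw [Real.norm_eq_abs (y - x)]
    linarith
  · apply ContinuousOn.intervalIntegrable
    rw [uIcc_of_le hst]
    exact (hdiag hP).add (hdiag hQ)

end PAIM

open PAIM in
theorem specPAI (hDDB : SpecDDB) : SpecPAI := by
  intro T f F g G hf hg κ hκ s t h0 h1 h2
  obtain ⟨C, hC⟩ := hκ.2
  have hc : Continuous κ := hκ.1.continuous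
  have hc' : Continuous (deriv κ) := hκ.1.continuous_deriv (by norm_num)
  have hfst : ∀ {f : ℝ → L1}, ContinuousOn f (Ico 0 T) →
      ContinuousOn (fun z : ℝ × ℝ => f z.1) (Ico 0 T ×ˢ Ico 0 T) := fun hf =>
    hf.comp continuousOn_fst fun z hz => hz.1
  have hsnd : ∀ {f : ℝ → L1}, ContinuousOn f (Ico 0 T) →
      ContinuousOn (fun z : ℝ × ℝ => f z.2) (Ico 0 T ×ˢ Ico 0 T) := fun hf =>
    hf.comp continuousOn_snd fun z hz => hz.2
  have key := fund (T := T) (Ψ := fun x y => DD κ (f x) (g y))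
    (P := fun x y => DD (deriv κ) (F x) (g y)) (Q := fun x y => - DD (deriv κ) (f x) (G y))
    (DD_cont hDDB hc (fun s => (hC s).1) hf.cf hg.cf)
    (DD_cont hDDB hc' (fun s => (hC s).2) (hfst hf.cF) (hsnd hg.cf))
    (DD_cont hDDB hc' (fun s => (hC s).2) (hfst hf.cf) (hsnd hg.cF)).neg
    (fun s t u h0 h1 h2 _ => var1 hDDB hf hκ (g u) s t h0 h1 h2)
    (fun s t u h0 h1 h2 _ => var2 hDDB hg hκ (f u) s t h0 h1 h2) s t h0 h1 h2
  rw [key]
  refine intervalIntegral.integral_congr fun r _ => ?_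
  show DD (deriv κ) (F r) (g r) + - DD (deriv κ) (f r) (G r) = _
  ring

end Pool.Agent.Lib.MP424d38.TY
end
end

section
/-!
# MP_424d38_an, block D, module PHF (facts on `phi`, `phin`)
-/
set_option autoImplicit false

open MeasureTheory Filter Topology Set
open scoped ENNReal ContDiff ComplexConjugate

noncomputable section

namespace Pool.Agent.Lib.MP424d38.TY

namespace PHFM

lemma hasDerivAt_hc (hs : ContDiff ℝ ∞ hc) (L s : ℝ) :
    HasDerivAt (fun s => hc (s / L)) (deriv hc (s / L) * (1 / L)) s := by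
  have h1 : HasDerivAt hc (deriv hc (s / L)) (s / L) :=
    ((hs.differentiable (by simp)) _).hasDerivAt
  have h2 : HasDerivAt (fun s : ℝ => s / L) (1 / L) s := (hasDerivAt_id s).div_const L
  exact h1.comp s h2

lemma hasDerivAt_hc' (hs : ContDiff ℝ ∞ hc) (L s : ℝ) :
    HasDerivAt (fun s => deriv hc (s / L)) (deriv (deriv hc) (s / L) * (1 / L)) s := by
  have h0 : ContDiff ℝ ∞ (deriv hc) := (contDiff_infty_iff_deriv.1 hs).2
  have h1 : HasDerivAt (deriv hc) (deriv (deriv hc) (s / L)) (s / L) :=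
    ((h0.differentiable (by simp)) _).hasDerivAt
  have h2 : HasDerivAt (fun s : ℝ => s / L) (1 / L) s := (hasDerivAt_id s).div_const L
  exact h1.comp s h2

/-- `hc` vanishes near points with `|u| > 2`. -/
lemma hc_ev (h2 : ∀ s, 2 ≤ |s| → hc s = 0) {u : ℝ} (hu : 2 < |u|) :
    hc =ᶠ[𝓝 u] fun _ => 0 := by
  have h3 : ∀ᶠ x : ℝ in 𝓝 u, 2 < |x| := (isOpen_lt continuous_const continuous_abs).mem_nhds hu
  filter_upwards [h3] with x hx
  exact h2 x hx.le

lemma hc1_zero (h2 : ∀ s, 2 ≤ |s| → hc s = 0) {u : ℝ} (hu : 2 < |u|) : deriv hc u = 0 := by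
  rw [(hc_ev h2 hu).deriv_eq]
  exact deriv_const _ _

lemma hc2_zero (h2 : ∀ s, 2 ≤ |s| → hc s = 0) {u : ℝ} (hu : 2 < |u|) :
    deriv (deriv hc) u = 0 := by
  rw [(hc_ev h2 hu).deriv.deriv_eq]
  simp

lemma u_hc1 (h2 : ∀ s, 2 ≤ |s| → hc s = 0) {M : ℝ} (hM : ∀ s, |deriv hc s| ≤ M) (u : ℝ) :
    |u| * |deriv hc u| ≤ 2 * M := by
  have hM0 : 0 ≤ M := (abs_nonneg _).trans (hM 0)
  rcases lt_or_ge 2 |u| with hu | hu
  · rw [hc1_zero h2 hu, abs_zero, mul_zero]
    positivity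
  · exact mul_le_mul hu (hM u) (abs_nonneg _) (by norm_num)

lemma u_hc2 (h2 : ∀ s, 2 ≤ |s| → hc s = 0) {M : ℝ} (hM : ∀ s, |deriv (deriv hc) s| ≤ M) (u : ℝ) :
    |u| * |deriv (deriv hc) u| ≤ 2 * M := by
  have hM0 : 0 ≤ M := (abs_nonneg _).trans (hM 0)
  rcases lt_or_ge 2 |u| with hu | hu
  · rw [hc2_zero h2 hu, abs_zero, mul_zero]
    positivity
  · exact mul_le_mul hu (hM u) (abs_nonneg _) (by norm_num)

/-- odd derivative of an even function -/
lemma deriv_odd {f : ℝ → ℝ} (hf : ∀ s, f (-s) = f s) (s : ℝ) : deriv f (-s) = - deriv f s := by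
  have h1 : (fun x => f (-x)) = f := funext hf
  have h2 := deriv_comp_neg f s
  rw [h1] at h2
  linarith

/-- bounds from compact support -/
lemma bdd_of_cs {f : ℝ → ℝ} (hf : Continuous f) (hs : HasCompactSupport f) :
    ∃ C : ℝ, ∀ x, |f x| ≤ C := by
  obtain ⟨C, hC⟩ := hs.exists_bound_of_continuous hf
  exact ⟨C, fun x => by simpa [Real.norm_eq_abs] using hC x⟩

lemma cb1_of_cs {f : ℝ → ℝ} (hf : ContDiff ℝ ∞ f) (hs : HasCompactSupport f) : Cb1 f := by
  have h1 : ContDiff ℝ ∞ (deriv f) := (contDiff_infty_iff_deriv.1 hf).2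
  obtain ⟨C, hC⟩ := bdd_of_cs hf.continuous hs
  obtain ⟨C', hC'⟩ := bdd_of_cs h1.continuous hs.deriv
  exact ⟨hf.of_le (by exact_mod_cast le_top), max C C', fun a => ⟨(hC a).trans (le_max_left _ _),
    (hC' a).trans (le_max_right _ _)⟩⟩

/-! ### Part 1 -/

section one

variable {ℓ L : ℝ} (hℓ : 0 < ℓ) (hL : ℓ ≤ L)

include hℓ hL

lemma k_zero_small (h1 : ∀ s, |s| ≤ 1 → hc s = 1) {s : ℝ} (hs : |s| ≤ ℓ) :
    phi L s - phi ℓ s = 0 := by
  have hLpos : 0 < L := lt_of_lt_of_le hℓ hL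
  have e1 : hc (s / L) = 1 := h1 _ (by
    rw [abs_div, abs_of_pos hLpos, div_le_one hLpos]
    exact hs.trans hL)
  have e2 : hc (s / ℓ) = 1 := h1 _ (by
    rw [abs_div, abs_of_pos hℓ, div_le_one hℓ]
    exact hs)
  unfold phi
  rw [e1, e2, sub_self]

lemma k_zero_large (h2 : ∀ s, 2 ≤ |s| → hc s = 0) {s : ℝ} (hs : 2 * L ≤ |s|) :
    phi L s - phi ℓ s = 0 := by
  have hLpos : 0 < L := lt_of_lt_of_le hℓ hL
  have e1 : hc (s / L) = 0 := h2 _ (by
    rw [abs_div, abs_of_pos hLpos, le_div_iff₀ hLpos]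
    exact hs)
  have e2 : hc (s / ℓ) = 0 := h2 _ (by
    rw [abs_div, abs_of_pos hℓ, le_div_iff₀ hℓ]
    exact le_trans (by linarith) hs)
  unfold phi
  rw [e1, e2, sub_self]

lemma k_contDiff (hs : ContDiff ℝ ∞ hc) (h1 : ∀ s, |s| ≤ 1 → hc s = 1) :
    ContDiff ℝ ∞ (fun s => phi L s - phi ℓ s) := by
  rw [contDiff_iff_contDiffAt]
  intro s
  rcases eq_or_ne s 0 with h0 | h0
  · have hev : (fun s => phi L s - phi ℓ s) =ᶠ[𝓝 s] fun _ => 0 := by
      have h3 : ∀ᶠ x : ℝ in 𝓝 s, |x| < ℓ :=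
        (isOpen_lt continuous_abs continuous_const).mem_nhds (by
          rw [h0]
          show |(0:ℝ)| < ℓ
          rwa [abs_zero])
      filter_upwards [h3] with x hx
      exact k_zero_small hℓ hL h1 hx.le
    exact contDiffAt_const.congr_of_eventuallyEq hev
  · unfold phi
    have ha : ContDiffAt ℝ ∞ (fun x : ℝ => |x|) s := contDiffAt_abs h0
    have hb : ContDiffAt ℝ ∞ (fun x : ℝ => hc (x / L)) s :=
      (hs.comp (contDiff_id.div_const L)).contDiffAt
    have hb' : ContDiffAt ℝ ∞ (fun x : ℝ => hc (x / ℓ)) s :=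
      (hs.comp (contDiff_id.div_const ℓ)).contDiffAt
    exact (ha.mul hb).sub (ha.mul hb')

lemma k_cs (h2 : ∀ s, 2 ≤ |s| → hc s = 0) :
    HasCompactSupport (fun s => phi L s - phi ℓ s) := by
  apply HasCompactSupport.intro (isCompact_Icc (a := -(2 * L)) (b := 2 * L))
  intro x hx
  apply k_zero_large hℓ hL h2
  by_contra h
  push Not at h
  exact hx (abs_le.1 h.le)

lemma k_deriv_zero (h1 : ∀ s, |s| ≤ 1 → hc s = 1) (h2 : ∀ s, 2 ≤ |s| → hc s = 0)
    {s : ℝ} (hs : |s| < ℓ ∨ 2 * L < |s|) : deriv (fun s => phi L s - phi ℓ s) s = 0 := by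
  have hev : (fun s => phi L s - phi ℓ s) =ᶠ[𝓝 s] fun _ => 0 := by
    rcases hs with hs | hs
    · have h3 : ∀ᶠ x : ℝ in 𝓝 s, |x| < ℓ :=
        (isOpen_lt continuous_abs continuous_const).mem_nhds hs
      filter_upwards [h3] with x hx
      exact k_zero_small hℓ hL h1 hx.le
    · have h3 : ∀ᶠ x : ℝ in 𝓝 s, 2 * L < |x| :=
        (isOpen_lt continuous_const continuous_abs).mem_nhds hs
      filter_upwards [h3] with x hx
      exact k_zero_large hℓ hL h2 hx.le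
  rw [hev.deriv_eq]
  exact deriv_const _ _

omit hℓ hL in
lemma phi_even (he : ∀ s, hc (-s) = hc s) (s : ℝ) : phi ℓ (-s) = phi ℓ s := by
  unfold phi
  rw [abs_neg, neg_div, he]

end one

/-- the bound of the derivative of `phi L` off `0` -/
lemma phi_hasDeriv {L : ℝ} (hs : ContDiff ℝ ∞ hc) {s : ℝ} (h0 : s ≠ 0) :
    HasDerivAt (phi L) (SignType.sign s * hc (s / L) + |s| * (deriv hc (s / L) * (1 / L))) s := by
  have ha : HasDerivAt (fun x : ℝ => |x|) (SignType.sign s) s := hasDerivAt_abs h0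
  exact ha.mul (hasDerivAt_hc hs L s)

lemma sign_abs_le (s : ℝ) : |((SignType.sign s : SignType) : ℝ)| ≤ 1 := by
  rcases lt_trichotomy s 0 with h | h | h
  · rw [sign_neg h]; simp
  · rw [h, sign_zero]; simp
  · rw [sign_pos h]; simp

/-! ### Part 2 -/

section two

variable {n : ℕ} (hK1 : ContDiff ℝ ∞ (kap n)) (hK2 : ∀ s, |kap n s| ≤ 1)
  (hK3 : ∀ s, kap n (-s) = - kap n s)

lemma sabs_hasDeriv (hK1 : ContDiff ℝ ∞ (kap n)) (s : ℝ) :
    HasDerivAt (sabs n) (kap n s) s := by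
  unfold sabs
  exact intervalIntegral.integral_hasDerivAt_right (hK1.continuous.intervalIntegrable _ _)
    (hK1.continuous.stronglyMeasurableAtFilter _ _) hK1.continuous.continuousAt

lemma sabs_contDiff (hK1 : ContDiff ℝ ∞ (kap n)) : ContDiff ℝ ∞ (sabs n) := by
  rw [contDiff_infty_iff_deriv]
  refine ⟨fun s => (sabs_hasDeriv hK1 s).differentiableAt, ?_⟩
  have : deriv (sabs n) = kap n := funext fun s => (sabs_hasDeriv hK1 s).deriv
  rw [this]
  exact hK1

lemma sabs_even (hK3 : ∀ s, kap n (-s) = - kap n s) (s : ℝ) : sabs n (-s) = sabs n s := by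
  unfold sabs
  have h1 : (∫ x in (0:ℝ)..(-s), kap n x) = ∫ x in (0:ℝ)..(-s), -(kap n (-x)) := by
    apply intervalIntegral.integral_congr
    intro x _
    show kap n x = -(kap n (-x))
    rw [hK3, neg_neg]
  rw [h1, intervalIntegral.integral_neg, intervalIntegral.integral_comp_neg, neg_neg, neg_zero,
    intervalIntegral.integral_symm, neg_neg]

lemma sabs_bound (hK2 : ∀ s, |kap n s| ≤ 1) (s : ℝ) : |sabs n s| ≤ |s| := by
  unfold sabs
  have := intervalIntegral.norm_integral_le_of_norm_le_const (a := 0) (b := s) (C := 1)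
    (f := kap n) (fun x _ => by rw [Real.norm_eq_abs]; exact hK2 x)
  simpa [Real.norm_eq_abs] using this

/-- `0 ≤ s`: `0 ≤ s - sabs n s ≤ 1/n`. -/
lemma sabs_close_pos (hn : 1 ≤ n) (hK1 : ContDiff ℝ ∞ (kap n)) (hK2 : ∀ s, |kap n s| ≤ 1)
    (hK3 : ∀ s, kap n (-s) = - kap n s) (hK4 : ∀ s, 0 ≤ deriv (kap n) s)
    (hK5 : ∀ s, 1 / (n : ℝ) ≤ s → kap n s = 1) (s : ℝ) (hs : 0 ≤ s) :
    |sabs n s - s| ≤ 1 / n := by
  have hn0 : (0:ℝ) < n := by exact_mod_cast hn
  have hcont := hK1.continuous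
  have hmono : Monotone (kap n) := monotone_of_deriv_nonneg (hK1.differentiable (by simp)) hK4
  have hz : kap n 0 = 0 := by
    have := hK3 0
    rw [neg_zero] at this
    linarith
  have hpos : ∀ x, 0 ≤ x → 0 ≤ kap n x := fun x hx => by
    rw [← hz]
    exact hmono hx
  have e1 : sabs n s - s = ∫ x in (0:ℝ)..s, (kap n x - 1) := by
    unfold sabs
    rw [intervalIntegral.integral_sub (hcont.intervalIntegrable _ _)
      (continuous_const.intervalIntegrable _ _)]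
    simp
  rw [e1]
  -- case split on `s ≤ 1/n`
  rcases le_total s (1 / n) with hsn | hsn
  · have := intervalIntegral.norm_integral_le_of_norm_le_const (a := 0) (b := s) (C := 1)
      (f := fun x => kap n x - 1) (fun x hx => by
        rw [Set.uIoc_of_le hs] at hx
        rw [Real.norm_eq_abs, abs_le]
        have h1 := hpos x hx.1.le
        have h2 := (abs_le.1 (hK2 x)).2
        constructor <;> linarith)
    rw [Real.norm_eq_abs, sub_zero, one_mul, abs_of_nonneg hs] at this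
    exact this.trans hsn
  · have hsplit : (∫ x in (0:ℝ)..s, (kap n x - 1)) = (∫ x in (0:ℝ)..(1/n), (kap n x - 1))
        + ∫ x in (1/n : ℝ)..s, (kap n x - 1) :=
      (intervalIntegral.integral_add_adjacent_intervals
        ((hcont.sub continuous_const).intervalIntegrable _ _)
        ((hcont.sub continuous_const).intervalIntegrable _ _)).symm
    have hzero : (∫ x in (1/n : ℝ)..s, (kap n x - 1)) = 0 := by
      rw [intervalIntegral.integral_congr (g := fun _ => (0:ℝ))]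
      · simp
      · intro x hx
        rw [Set.uIcc_of_le hsn] at hx
        show kap n x - 1 = 0
        rw [hK5 x hx.1, sub_self]
    rw [hsplit, hzero, add_zero]
    have hn1 : (0:ℝ) ≤ 1 / n := by positivity
    have := intervalIntegral.norm_integral_le_of_norm_le_const (a := 0) (b := (1/n : ℝ)) (C := 1)
      (f := fun x => kap n x - 1) (fun x hx => by
        rw [Set.uIoc_of_le hn1] at hx
        rw [Real.norm_eq_abs, abs_le]
        have h1 := hpos x hx.1.le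
        have h2 := (abs_le.1 (hK2 x)).2
        constructor <;> linarith)
    rw [Real.norm_eq_abs, sub_zero, one_mul, abs_of_nonneg hn1] at this
    exact this

lemma sabs_close (hn : 1 ≤ n) (hK1 : ContDiff ℝ ∞ (kap n)) (hK2 : ∀ s, |kap n s| ≤ 1)
    (hK3 : ∀ s, kap n (-s) = - kap n s) (hK4 : ∀ s, 0 ≤ deriv (kap n) s)
    (hK5 : ∀ s, 1 / (n : ℝ) ≤ s → kap n s = 1) (s : ℝ) :
    |(sabs n s - |s|)| ≤ 1 / n := by
  rcases le_total 0 s with hs | hs
  · rw [abs_of_nonneg hs]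
    exact sabs_close_pos hn hK1 hK2 hK3 hK4 hK5 s hs
  · rw [abs_of_nonpos hs, ← sabs_even hK3 s]
    exact sabs_close_pos hn hK1 hK2 hK3 hK4 hK5 (-s) (by linarith)

end two

end PHFM

open PHFM

theorem specPHF (hHCF : SpecHCF) (hKPF : SpecKPF) : SpecPHF := by
  obtain ⟨hs, h01, h1, h2, he, -, M, hM⟩ := hHCF
  have hM1 : ∀ s, |deriv hc s| ≤ M := fun s => (hM s).1
  have hM2 : ∀ s, |deriv (deriv hc) s| ≤ M := fun s => (hM s).2
  have hM0 : 0 ≤ M := (abs_nonneg _).trans (hM1 0)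
  have habs : ∀ s, |hc s| ≤ 1 := fun s => by
    rw [abs_of_nonneg (h01 s).1]
    exact (h01 s).2
  refine ⟨2 + 4 * M, by linarith, ?_, ?_⟩
  · intro ℓ L hℓ hL
    have hLpos : 0 < L := lt_of_lt_of_le hℓ hL
    have hcd := k_contDiff hℓ hL hs h1
    refine ⟨cb1_of_cs hcd (k_cs hℓ hL h2), ?_, fun s hs' => k_deriv_zero hℓ hL h1 h2 hs', ?_⟩
    · intro s
      rcases eq_or_ne s 0 with h0 | h0
      · rw [k_deriv_zero hℓ hL h1 h2 (Or.inl (by rw [h0, abs_zero]; exact hℓ)), abs_zero]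
        linarith
      · have hd := ((phi_hasDeriv (L := L) hs h0).sub (phi_hasDeriv (L := ℓ) hs h0)).deriv
        have hd' : deriv (fun s => phi L s - phi ℓ s) s = _ := hd
        rw [hd']
        have e1 : ∀ l : ℝ, 0 < l → |(|s| * (deriv hc (s / l) * (1 / l)))| ≤ 2 * M := by
          intro l hl
          have h3 := u_hc1 h2 hM1 (s / l)
          rw [abs_div, abs_of_pos hl] at h3
          rw [abs_mul, abs_mul, abs_abs, abs_of_pos (by positivity : (0:ℝ) < 1 / l)]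
          calc |s| * (|deriv hc (s / l)| * (1 / l)) = |s| / l * |deriv hc (s / l)| := by ring
            _ ≤ 2 * M := h3
        have e2 := e1 L hLpos
        have e3 := e1 ℓ hℓ
        have e4 : |((SignType.sign s : SignType) : ℝ) * (hc (s / L) - hc (s / ℓ))| ≤ 1 := by
          rw [abs_mul]
          have h4 : |hc (s / L) - hc (s / ℓ)| ≤ 1 := by
            rw [abs_le]
            have a1 := h01 (s / L)
            have a2 := h01 (s / ℓ)
            constructor <;> linarith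
          calc _ ≤ 1 * 1 := mul_le_mul (sign_abs_le s) h4 (abs_nonneg _) (by norm_num)
            _ = 1 := by norm_num
        have e5 := abs_le.1 e2
        have e6 := abs_le.1 e3
        have e7 := abs_le.1 e4
        rw [abs_le]
        constructor
        · linarith
        · linarith
    · intro s
      apply deriv_odd
      intro x
      show phi L (-x) - phi ℓ (-x) = phi L x - phi ℓ x
      rw [phi_even he, phi_even he]
  · intro L n hL hn hnL
    obtain ⟨hK1, -, -, hK2, hK4, hK6, -, hK3, hK5⟩ := hKPF n hn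
    have hn0 : (0:ℝ) < n := by exact_mod_cast hn
    have hcdp : ContDiff ℝ ∞ (phin L n) := by
      unfold phin
      exact (sabs_contDiff hK1).mul (hs.comp (contDiff_id.div_const L))
    have hcsp : HasCompactSupport (phin L n) := by
      apply HasCompactSupport.intro (isCompact_Icc (a := -(2 * L)) (b := 2 * L))
      intro x hx
      unfold phin
      rw [h2, mul_zero]
      rw [abs_div, abs_of_pos hL, le_div_iff₀ hL]
      by_contra h
      push Not at h
      exact hx (abs_le.1 h.le)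
    have hcdp' : ContDiff ℝ ∞ (deriv (phin L n)) := (contDiff_infty_iff_deriv.1 hcdp).2
    have hd1 : deriv (phin L n)
        = fun s => kap n s * hc (s / L) + sabs n s * (deriv hc (s / L) * (1 / L)) := by
      funext s
      exact ((sabs_hasDeriv hK1 s).mul (hasDerivAt_hc hs L s)).deriv
    have hkd : ∀ s, HasDerivAt (kap n) (deriv (kap n) s) s := fun s =>
      ((hK1.differentiable (by simp)) s).hasDerivAt
    have hd2 : ∀ s, deriv (deriv (phin L n)) s
        = (deriv (kap n) s * hc (s / L) + kap n s * (deriv hc (s / L) * (1 / L)))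
          + (kap n s * (deriv hc (s / L) * (1 / L))
            + sabs n s * (deriv (deriv hc) (s / L) * (1 / L) * (1 / L))) := by
      intro s
      rw [hd1]
      exact (((hkd s).mul (hasDerivAt_hc hs L s)).add
        ((sabs_hasDeriv hK1 s).mul ((hasDerivAt_hc' hs L s).mul_const (1 / L)))).deriv
    refine ⟨cb1_of_cs hcdp hcsp, cb1_of_cs hcdp' hcsp.deriv, ?_, ?_, ?_, ?_⟩
    · intro s
      unfold phin phi
      rw [← sub_mul, abs_mul]
      calc |(sabs n s - |s|)| * |hc (s / L)| ≤ 1 / n * 1 :=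
            mul_le_mul (sabs_close hn hK1 hK2 hK3 hK4 hK5 s) (habs _) (abs_nonneg _)
              (by positivity)
        _ = 1 / n := by ring
    · intro s
      rw [hd1]
      have a1 : |kap n s * hc (s / L)| ≤ 1 := by
        rw [abs_mul]
        calc _ ≤ 1 * 1 := mul_le_mul (hK2 s) (habs _) (abs_nonneg _) (by norm_num)
          _ = 1 := by norm_num
      have a2 : |sabs n s * (deriv hc (s / L) * (1 / L))| ≤ 2 * M := by
        have h3 := u_hc1 h2 hM1 (s / L)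
        rw [abs_div, abs_of_pos hL] at h3
        rw [abs_mul, abs_mul, abs_of_pos (by positivity : (0:ℝ) < 1 / L)]
        calc |sabs n s| * (|deriv hc (s / L)| * (1 / L))
            ≤ |s| * (|deriv hc (s / L)| * (1 / L)) :=
              mul_le_mul_of_nonneg_right (sabs_bound hK2 s) (by positivity)
          _ = |s| / L * |deriv hc (s / L)| := by ring
          _ ≤ 2 * M := h3
      have a3 := abs_le.1 a1
      have a4 := abs_le.1 a2
      show |kap n s * hc (s / L) + sabs n s * (deriv hc (s / L) * (1 / L))| ≤ 2 + 4 * M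
      rw [abs_le]
      constructor <;> linarith
    · intro s
      rw [hd2]
      have a0 : deriv (kap n) s * hc (s / L) = deriv (kap n) s := by
        rcases lt_or_ge (1 / (n:ℝ)) |s| with h | h
        · rw [hK6 s h, zero_mul]
        · rw [h1, mul_one]
          rw [abs_div, abs_of_pos hL, div_le_one hL]
          exact h.trans hnL
      have a1 : |kap n s * (deriv hc (s / L) * (1 / L))| ≤ M / L := by
        rw [abs_mul, abs_mul, abs_of_pos (by positivity : (0:ℝ) < 1 / L)]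
        calc _ ≤ 1 * (M * (1 / L)) := mul_le_mul (hK2 s)
              (mul_le_mul_of_nonneg_right (hM1 _) (by positivity)) (by positivity) (by norm_num)
          _ = M / L := by ring
      have a2 : |sabs n s * (deriv (deriv hc) (s / L) * (1 / L) * (1 / L))| ≤ 2 * M / L := by
        have h3 := u_hc2 h2 hM2 (s / L)
        rw [abs_div, abs_of_pos hL] at h3
        rw [abs_mul, abs_mul, abs_mul, abs_of_pos (by positivity : (0:ℝ) < 1 / L)]
        calc |sabs n s| * (|deriv (deriv hc) (s / L)| * (1 / L) * (1 / L))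
            ≤ |s| * (|deriv (deriv hc) (s / L)| * (1 / L) * (1 / L)) :=
              mul_le_mul_of_nonneg_right (sabs_bound hK2 s) (by positivity)
          _ = (|s| / L * |deriv (deriv hc) (s / L)|) * (1 / L) := by ring
          _ ≤ (2 * M) * (1 / L) := mul_le_mul_of_nonneg_right h3 (by positivity)
          _ = 2 * M / L := by ring
      have a3 := abs_le.1 a1
      have a4 := abs_le.1 a2
      have a5 : (2 + 4 * M) / L = 2 / L + 2 * (M / L) + 2 * M / L := by ring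
      have a6 : 0 < 2 / L := by positivity
      rw [a0, a5, abs_le]
      constructor <;> linarith
    · intro s
      apply deriv_odd
      intro x
      unfold phin
      rw [sabs_even hK3, neg_div, he]

end Pool.Agent.Lib.MP424d38.TY
end
end

section
set_option autoImplicit false

open MeasureTheory Filter Topology Set
open scoped ENNReal ContDiff ComplexConjugate

noncomputable section

namespace Pool.Agent.Lib.MP424d38.TY

namespace PHIM

lemma phi_cont (hHCF : SpecHCF) (ℓ : ℝ) : Continuous (phi ℓ) := by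
  unfold phi
  exact continuous_abs.mul (hHCF.1.continuous.comp (continuous_id.div_const ℓ))

lemma hl_cont (hHCF : SpecHCF) (ℓ : ℝ) : Continuous (hl ℓ) := by
  unfold hl
  exact hHCF.1.continuous.comp (continuous_id.div_const ℓ)

lemma hl_bd (hHCF : SpecHCF) (ℓ s : ℝ) : |hl ℓ s| ≤ 1 := by
  unfold hl
  rw [abs_of_nonneg (hHCF.2.1 _).1]
  exact (hHCF.2.1 _).2

lemma phi_nonneg (hHCF : SpecHCF) (ℓ s : ℝ) : 0 ≤ phi ℓ s :=
  mul_nonneg (abs_nonneg _) (hHCF.2.1 _).1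

lemma phi_le (hHCF : SpecHCF) {ε ℓ : ℝ} (hε : 0 < ε) (hε1 : ε ≤ 1) (hℓ : 0 < ℓ) (s : ℝ) :
    phi ℓ s ≤ ε * ℓ + 2 * ℓ * (hl (2 * ℓ) s - hl (ε * ℓ / 2) s) := by
  obtain ⟨-, hb, h1, h2, -, hm, -⟩ := hHCF
  have hεℓ : 0 < ε * ℓ := mul_pos hε hℓ
  have hle : ε * ℓ ≤ ℓ := by nlinarith
  have hdiff : 0 ≤ hl (2 * ℓ) s - hl (ε * ℓ / 2) s := by
    have : hc (s / (ε * ℓ / 2)) ≤ hc (s / (2 * ℓ)) := by
      apply hm
      rw [abs_div, abs_div, abs_of_pos (by positivity : (0 : ℝ) < 2 * ℓ),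
        abs_of_pos (by positivity : (0 : ℝ) < ε * ℓ / 2)]
      apply div_le_div_of_nonneg_left (abs_nonneg _) (by positivity) (by linarith)
    unfold hl
    linarith
  unfold phi
  by_cases hs : |s| ≤ ε * ℓ
  · have : |s| * hc (s / ℓ) ≤ |s| * 1 :=
      mul_le_mul_of_nonneg_left (hb _).2 (abs_nonneg _)
    nlinarith [mul_nonneg (mul_nonneg (by norm_num : (0 : ℝ) ≤ 2) hℓ.le) hdiff]
  · push Not at hs
    by_cases hs2 : |s| ≤ 2 * ℓ
    · have e1 : hl (2 * ℓ) s = 1 := by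
        unfold hl
        apply h1
        rw [abs_div, abs_of_pos (by positivity : (0 : ℝ) < 2 * ℓ), div_le_one (by positivity)]
        exact hs2
      have e2 : hl (ε * ℓ / 2) s = 0 := by
        unfold hl
        apply h2
        rw [abs_div, abs_of_pos (by positivity : (0 : ℝ) < ε * ℓ / 2), le_div_iff₀ (by positivity)]
        linarith
      rw [e1, e2]
      have : |s| * hc (s / ℓ) ≤ |s| * 1 :=
        mul_le_mul_of_nonneg_left (hb _).2 (abs_nonneg _)
      linarith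
    · push Not at hs2
      have e1 : hc (s / ℓ) = 0 := by
        apply h2
        rw [abs_div, abs_of_pos hℓ, le_div_iff₀ hℓ]
        exact hs2.le
      rw [e1]
      nlinarith [mul_nonneg (mul_nonneg (by norm_num : (0 : ℝ) ≤ 2) hℓ.le) hdiff]

end PHIM

open PHIM in
theorem specPHI (hHCF : SpecHCF) (hDDB : SpecDDB) : SpecPHI := by
  intro ρ m ε ℓ hρ hm hε hε1 hℓ
  obtain ⟨hI, hmono, -, hadd, -⟩ := hDDB
  have hphib : ∀ s, |phi ℓ s| ≤ 2 * ℓ := by
    intro s
    rw [abs_of_nonneg (phi_nonneg hHCF ℓ s)]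
    unfold phi
    by_cases hs : |s| ≤ 2 * ℓ
    · have : |s| * hc (s / ℓ) ≤ |s| * 1 :=
        mul_le_mul_of_nonneg_left (hHCF.2.1 _).2 (abs_nonneg _)
      linarith
    · push Not at hs
      have e1 : hc (s / ℓ) = 0 := by
        apply hHCF.2.2.2.1
        rw [abs_div, abs_of_pos hℓ, le_div_iff₀ hℓ]
        exact hs.le
      rw [e1, mul_zero]
      positivity
  have hz : DD (fun _ => (0 : ℝ)) ρ ρ = 0 := by
    unfold DD
    simp
  have hεℓ : 0 < ε * ℓ := mul_pos hε hℓ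
  refine ⟨?_, ?_⟩
  · rw [← hz]
    exact hmono (fun _ => 0) (phi ℓ) (2 * ℓ) continuous_const (phi_cont hHCF ℓ)
      (fun s => by simpa using (by positivity : 0 ≤ 2 * ℓ)) hphib ρ ρ hρ hρ (phi_nonneg hHCF ℓ)
  · have hc1 := hl_cont hHCF (2 * ℓ)
    have hc2 := hl_cont hHCF (ε * ℓ / 2)
    have hb1 := hl_bd hHCF (2 * ℓ)
    have hb2 := hl_bd hHCF (ε * ℓ / 2)
    have key : DD (phi ℓ) ρ ρ ≤
        DD (fun s => ε * ℓ + 2 * ℓ * (hl (2 * ℓ) s - hl (ε * ℓ / 2) s)) ρ ρ := by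
      refine hmono (phi ℓ) (fun s => ε * ℓ + 2 * ℓ * (hl (2 * ℓ) s - hl (ε * ℓ / 2) s))
        (2 * ℓ + ε * ℓ + 2 * ℓ * 2) (phi_cont hHCF ℓ) (by fun_prop) ?_ ?_ ρ ρ hρ hρ
        (phi_le hHCF hε hε1 hℓ)
      · intro s
        have := hphib s
        nlinarith
      · intro s
        have h3 : |hl (2 * ℓ) s - hl (ε * ℓ / 2) s| ≤ 2 := by
          have := abs_sub (hl (2 * ℓ) s) (hl (ε * ℓ / 2) s)
          linarith [hb1 s, hb2 s]
        calc |ε * ℓ + 2 * ℓ * (hl (2 * ℓ) s - hl (ε * ℓ / 2) s)|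
            ≤ |ε * ℓ| + |2 * ℓ * (hl (2 * ℓ) s - hl (ε * ℓ / 2) s)| := abs_add_le _ _
          _ = ε * ℓ + 2 * ℓ * |hl (2 * ℓ) s - hl (ε * ℓ / 2) s| := by
              rw [abs_of_pos hεℓ, abs_mul, abs_of_pos (by positivity : (0 : ℝ) < 2 * ℓ)]
          _ ≤ 2 * ℓ + ε * ℓ + 2 * ℓ * 2 := by
              have := mul_le_mul_of_nonneg_left h3 (by positivity : (0 : ℝ) ≤ 2 * ℓ)
              linarith
    refine key.trans (le_of_eq ?_)
    -- compute
    have hi1 : Integrable (fun z : ℝ × ℝ => hl (2 * ℓ) (z.1 - z.2) * (ρ z.1 * ρ z.2)) :=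
      (hI _ 1 hc1 hb1 ρ ρ).1
    have hi2 : Integrable (fun z : ℝ × ℝ => hl (ε * ℓ / 2) (z.1 - z.2) * (ρ z.1 * ρ z.2)) :=
      (hI _ 1 hc2 hb2 ρ ρ).1
    have hi0 : Integrable (fun z : ℝ × ℝ => ρ z.1 * ρ z.2) := by
      have := (hI (fun _ => 1) 1 continuous_const (fun s => by simp) ρ ρ).1
      simpa using this
    have hprod : ∫ z : ℝ × ℝ, ρ z.1 * ρ z.2 = m ^ 2 := by
      have := integral_prod_mul (μ := (volume : Measure ℝ)) (ν := (volume : Measure ℝ))
        (fun a : ℝ => ρ a) (fun a : ℝ => ρ a)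
      rw [show (volume : Measure (ℝ × ℝ)) = (volume : Measure ℝ).prod volume from rfl, this, hm]
      ring
    unfold DD
    rw [← hprod, ← integral_const_mul]
    have e : ∀ z : ℝ × ℝ, (ε * ℓ + 2 * ℓ * (hl (2 * ℓ) (z.1 - z.2) - hl (ε * ℓ / 2) (z.1 - z.2)))
          * (ρ z.1 * ρ z.2)
        = ε * ℓ * (ρ z.1 * ρ z.2) + 2 * ℓ * (hl (2 * ℓ) (z.1 - z.2) * (ρ z.1 * ρ z.2)
          - hl (ε * ℓ / 2) (z.1 - z.2) * (ρ z.1 * ρ z.2)) := by
      intro z; ring
    simp only [e]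
    have hsub : Integrable (fun z : ℝ × ℝ => hl (2 * ℓ) (z.1 - z.2) * (ρ z.1 * ρ z.2)
        - hl (ε * ℓ / 2) (z.1 - z.2) * (ρ z.1 * ρ z.2)) := hi1.sub hi2
    rw [integral_add (hi0.const_mul _) (hsub.const_mul _), integral_const_mul,
      integral_const_mul, integral_sub hi1 hi2]

end Pool.Agent.Lib.MP424d38.TY
end
end

section
/-!
# MP_424d38_an, module UPB: upper bound for the increase of `D_L`
-/
set_option autoImplicit false

open MeasureTheory Filter Topology Set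
open scoped ENNReal ContDiff ComplexConjugate

noncomputable section

namespace Pool.Agent.Lib.MP424d38.TY

namespace UPBM

/-- A bounded function with increments bounded by `K (r t - r t')` has a limit. -/
theorem lim {T K : ℝ} {c r : ℝ → ℝ} (hT : 0 < T)
    (hc : ∀ t ∈ Ico 0 T, 0 ≤ c t) (hr : ∀ t ∈ Ico 0 T, 0 ≤ r t) (hK : 0 ≤ K)
    (h : ∀ t t', 0 ≤ t → t ≤ t' → t' < T → |c t' - c t| ≤ K * (r t - r t')) :
    ∃ c0 : ℝ, ∀ t ∈ Ico 0 T, |c t - c0| ≤ K * r t := by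
  set S : Set ℝ := (fun t => c t + K * r t) '' Ico 0 T with hS
  have hne : S.Nonempty := ⟨_, 0, ⟨le_rfl, hT⟩, rfl⟩
  have hbdd : BddBelow S := by
    refine ⟨0, ?_⟩
    rintro _ ⟨t, ht, rfl⟩
    exact add_nonneg (hc t ht) (mul_nonneg hK (hr t ht))
  refine ⟨sInf S, fun t ht => ?_⟩
  have h1 : sInf S ≤ c t + K * r t := csInf_le hbdd ⟨t, ht, rfl⟩
  have h2 : c t - K * r t ≤ sInf S := by
    refine le_csInf hne ?_
    rintro _ ⟨t', ht', rfl⟩
    rcases le_total t t' with h3 | h3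
    · have h4 := abs_le.1 (h t t' ht.1 h3 ht'.2)
      have h5 : 0 ≤ K * r t' := mul_nonneg hK (hr t' ht')
      have h6 := h4.1
      show c t - K * r t ≤ c t' + K * r t'
      nlinarith
    · have h4 := abs_le.1 (h t' t ht'.1 h3 ht.2)
      have h5 : 0 ≤ K * r t := mul_nonneg hK (hr t ht)
      have h6 := h4.2
      show c t - K * r t ≤ c t' + K * r t'
      nlinarith
  rw [abs_le]
  constructor <;> linarith

end UPBM

theorem specUPB (hCLL : SpecCLL) (hANN : SpecANN) (hPHI : SpecPHI) : SpecUPB := by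
  intro T m R ρ p e hT hF A hAm hA hAi δ hδ
  obtain ⟨C1, hC1, hCLL⟩ := hCLL
  obtain ⟨C2, hC2, hANN⟩ := hANN
  have hA' : ∀ t ∈ Ico 0 T, 0 ≤ A t ∧ (∫ a, e t a) ≤ A t ^ 2 :=
    fun t ht => ⟨(hA t ht).1.le, (hA t ht).2⟩
  obtain ⟨hmon, hinc⟩ := hCLL T m R ρ p e hF
  have hinc := hinc A hAm hA'
  have hANN := hANN T m R ρ p e hF A hAm hA'
  -- the remainder
  set r : ℝ → ℝ := fun t => ∫ s in t..T, A s with hr
  have hAi2 : IntegrableOn A (Icc 0 T) := integrableOn_Icc_iff_integrableOn_Ico' (by simp) |>.2 hAi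
  have hAii : ∀ a b, a ∈ Icc 0 T → b ∈ Icc 0 T → IntervalIntegrable A volume a b := by
    intro a b ha hb
    refine (intervalIntegrable_iff).2 (hAi2.mono_set ?_)
    intro x hx
    rw [uIoc, mem_Ioc] at hx
    exact ⟨(le_min ha.1 hb.1).trans hx.1.le, hx.2.trans (max_le ha.2 hb.2)⟩
  have hTT : T ∈ Icc 0 T := ⟨hT.le, le_rfl⟩
  have hsub : ∀ t t', 0 ≤ t → t ≤ t' → t' < T → ∫ s in t..t', A s = r t - r t' := by
    intro t t' h0 h1 h2
    have ht : t ∈ Icc 0 T := ⟨h0, h1.trans h2.le⟩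
    have ht' : t' ∈ Icc 0 T := ⟨h0.trans h1, h2.le⟩
    have := intervalIntegral.integral_add_adjacent_intervals (hAii t t' ht ht')
      (hAii t' T ht' hTT)
    simp only [hr]
    linarith
  have hr0 : ∀ t ∈ Ico 0 T, 0 < r t := by
    intro t ht
    simp only [hr]
    refine intervalIntegral.intervalIntegral_pos_of_pos_on (hAii t T ⟨ht.1, ht.2.le⟩ hTT) ?_ ht.2
    intro x hx
    exact (hA x ⟨ht.1.trans hx.1.le, hx.2⟩).1
  have hrlim : Tendsto r (𝓝[<] T) (𝓝 0) := by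
    have h1 : ContinuousOn r (uIcc 0 T) := by
      apply intervalIntegral.continuousOn_primitive_interval_left
      rw [uIcc_of_le hT.le]
      exact hAi2
    rw [uIcc_of_le hT.le] at h1
    have h2 := h1 T hTT
    have h3 : r T = 0 := by simp [hr]
    unfold ContinuousWithinAt at h2
    rw [h3] at h2
    refine h2.mono_left ?_
    have h4 : 𝓝[<] T = 𝓝[Ico 0 T] T := (nhdsWithin_Ico_eq_nhdsLT hT).symm
    rw [h4]
    exact nhdsWithin_mono _ Ico_subset_Icc_self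
  -- the limits of the pair masses
  set M : ℝ := m * √m with hM
  have hM0 : 0 ≤ M := by
    rcases le_or_gt 0 m with h | h
    · exact mul_nonneg h (Real.sqrt_nonneg _)
    · rw [hM, Real.sqrt_eq_zero_of_nonpos h.le, mul_zero]
  have hlim : ∀ ℓ : ℝ, ∃ c0 : ℝ, 0 < ℓ → ∀ t ∈ Ico 0 T,
      |DD (hl ℓ) (ρ t) (ρ t) - c0| ≤ C1 / ℓ * M * r t := by
    intro ℓ
    by_cases hℓ : 0 < ℓ
    · obtain ⟨c0, hc0⟩ := UPBM.lim (T := T) (K := C1 / ℓ * M)
        (c := fun t => DD (hl ℓ) (ρ t) (ρ t)) (r := r) hT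
        (fun t ht => (hmon t ht ℓ ℓ hℓ le_rfl).1) (fun t ht => (hr0 t ht).le)
        (mul_nonneg (div_nonneg hC1.le hℓ.le) hM0) (fun t t' h0 h1 h2 => by
          rw [← hsub t t' h0 h1 h2]
          exact hinc ℓ hℓ t t' h0 h1 h2)
      exact ⟨c0, fun _ => hc0⟩
    · exact ⟨0, fun h => absurd h hℓ⟩
  choose c hc using hlim
  -- evaluation near `T`
  have hev : ∀ᶠ t in 𝓝[<] T, t ∈ Ico 0 T := by
    rw [← nhdsWithin_Ico_eq_nhdsLT hT]
    exact self_mem_nhdsWithin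
  have hsmall : ∀ K x : ℝ, 0 < x → ∃ t ∈ Ico 0 T, K * r t ≤ x := by
    intro K x hx
    have h1 : Tendsto (fun t => K * r t) (𝓝[<] T) (𝓝 (K * 0)) := hrlim.const_mul K
    rw [mul_zero] at h1
    have hnb : (𝓝[<] T).NeBot := nhdsLT_neBot_of_exists_lt ⟨0, hT⟩
    obtain ⟨t, h2, h3⟩ := ((h1.eventually (gt_mem_nhds hx)).and hev).exists
    exact ⟨t, h3, le_of_lt h2⟩
  have hcmono : ∀ ℓ ℓ', 0 < ℓ → ℓ ≤ ℓ' → c ℓ ≤ c ℓ' := by
    intro ℓ ℓ' hℓ hℓ'
    have hℓ'0 : 0 < ℓ' := hℓ.trans_le hℓ'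
    refine le_of_forall_pos_le_add fun x hx => ?_
    obtain ⟨t, ht, hx2⟩ := hsmall (C1 / ℓ * M + C1 / ℓ' * M) x hx
    have h1 := (abs_le.1 (hc ℓ hℓ t ht)).1
    have h2 := (abs_le.1 (hc ℓ' hℓ'0 t ht)).2
    have h3 := (hmon t ht ℓ ℓ' hℓ hℓ').2.1
    nlinarith
  have hc0 : ∀ ℓ, 0 < ℓ → 0 ≤ c ℓ := by
    intro ℓ hℓ
    refine le_of_forall_pos_le_add fun x hx => ?_
    obtain ⟨t, ht, hx2⟩ := hsmall (C1 / ℓ * M) x hx
    have h1 := (abs_le.1 (hc ℓ hℓ t ht)).2
    have h3 := (hmon t ht ℓ ℓ hℓ le_rfl).1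
    linarith
  set c0 : ℝ := sInf (c '' Ioi 0) with hc0def
  have hcb : BddBelow (c '' Ioi 0) := by
    refine ⟨0, ?_⟩
    rintro _ ⟨ℓ, hℓ, rfl⟩
    exact hc0 ℓ hℓ
  have hc0le : ∀ ℓ, 0 < ℓ → c0 ≤ c ℓ := fun ℓ hℓ => csInf_le hcb ⟨ℓ, hℓ, rfl⟩
  have hcsmall : ∀ x, 0 < x → ∃ ℓ0, 0 < ℓ0 ∧ ∀ ℓ, 0 < ℓ → ℓ ≤ ℓ0 → c ℓ ≤ c0 + x := by
    intro x hx
    obtain ⟨_, ⟨ℓ0, hℓ0, rfl⟩, h⟩ := exists_lt_of_csInf_lt (s := c '' Ioi 0)
      ⟨_, 1, mem_Ioi.2 one_pos, rfl⟩ (show sInf (c '' Ioi 0) < c0 + x by linarith)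
    exact ⟨ℓ0, hℓ0, fun ℓ hℓ hle => (hcmono ℓ ℓ0 hℓ hle).trans h.le⟩
  -- constants
  set κ : ℝ := δ / (2 * (C2 * √m + 1)) with hκ
  have hsm : 0 ≤ √m := Real.sqrt_nonneg _
  have hκ0 : 0 < κ := by positivity
  have hκ1 : C2 * √m * κ ≤ δ / 2 := by
    rw [hκ, ← sub_nonneg]
    have h1 : δ / 2 - C2 * √m * (δ / (2 * (C2 * √m + 1))) = δ / (2 * (C2 * √m + 1)) := by
      have : C2 * √m + 1 ≠ 0 := by positivity
      field_simp
      ring
    rw [h1]
    positivity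
  set Q : ℝ := 1 + 6 * (C1 * M) / κ ^ 2 with hQ
  have hCM : 0 ≤ C1 * M := mul_nonneg hC1.le hM0
  have hQ1 : 1 ≤ Q := by
    rw [hQ]
    have : 0 ≤ 6 * (C1 * M) / κ ^ 2 := by positivity
    linarith
  have hQ0 : 0 < Q := one_pos.trans_le hQ1
  have hQ2 : 3 * (C1 * M) / Q ≤ κ ^ 2 / 2 := by
    rw [div_le_iff₀ hQ0, hQ]
    have h1 : κ ^ 2 / 2 * (1 + 6 * (C1 * M) / κ ^ 2) = κ ^ 2 / 2 + 3 * (C1 * M) := by
      field_simp
      ring
    rw [h1]
    nlinarith [sq_nonneg κ]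
  obtain ⟨L2, hL2, hL2c⟩ := hcsmall (κ ^ 2 / 2) (by positivity)
  set L : ℝ := L2 / 2 with hL
  have hL0 : 0 < L := by positivity
  have hcL : c (2 * L) ≤ c0 + κ ^ 2 / 2 := hL2c _ (by positivity) (by rw [hL]; linarith)
  set ε : ℝ := min 1 (δ / (6 * Q * (m ^ 2 + 1))) with hε
  have hε0 : 0 < ε := lt_min one_pos (by positivity)
  have hε1 : ε ≤ 1 := min_le_left _ _
  have hε2 : ε * Q * m ^ 2 ≤ δ / 6 := by
    have h1 : ε ≤ δ / (6 * Q * (m ^ 2 + 1)) := min_le_right _ _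
    have h2 : ε * (6 * Q * (m ^ 2 + 1)) ≤ δ := by
      rwa [le_div_iff₀ (by positivity)] at h1
    have h3 : 0 ≤ ε * Q := by positivity
    nlinarith
  obtain ⟨ℓ1, hℓ1, hℓ1c⟩ := hcsmall (δ / (12 * Q)) (by positivity)
  -- the starting time
  obtain ⟨t0, ht0, ht0r⟩ : ∃ t0 ∈ Ico 0 T, Q * r t0 ≤ min L (ℓ1 / 2) :=
    hsmall Q (min L (ℓ1 / 2)) (lt_min hL0 (by positivity))
  have hrmono : ∀ t t', 0 ≤ t → t ≤ t' → t' < T → r t' ≤ r t := by
    intro t t' h0 h1 h2
    have h3 := hsub t t' h0 h1 h2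
    have h4 : 0 ≤ ∫ s in t..t', A s := intervalIntegral.integral_nonneg h1 fun x hx =>
      (hA x ⟨h0.trans hx.1, hx.2.trans_lt h2⟩).1.le
    linarith
  refine ⟨L, hL0, t0, ht0, fun t ht η hη => ?_⟩
  have htI : t ∈ Ico 0 T := ⟨ht0.1.trans ht.1, ht.2⟩
  have hrt := hr0 t htI
  set ℓ : ℝ := Q * r t with hℓ
  have hℓ0 : 0 < ℓ := mul_pos hQ0 hrt
  have hℓle : ℓ ≤ min L (ℓ1 / 2) := by
    refine le_trans ?_ ht0r
    exact mul_le_mul_of_nonneg_left (hrmono t0 t ht0.1 ht.1 ht.2) hQ0.le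
  have hℓL : ℓ ≤ L := hℓle.trans (min_le_left _ _)
  have hℓ2 : 2 * ℓ ≤ ℓ1 := by
    have := hℓle.trans (min_le_right _ _)
    linarith
  set K : ℝ := C1 * M + 4 * (C1 * M) / ε with hK
  have hK0 : 0 ≤ K := by positivity
  have hKlim : Tendsto (fun t' => K * r t') (𝓝[<] T) (𝓝 0) := by
    have h1 := hrlim.const_mul K
    rwa [mul_zero] at h1
  have hgt : ∀ᶠ t' in 𝓝[<] T, t < t' := by
    filter_upwards [Ioo_mem_nhdsLT ht.2] with t' ht' using ht'.1
  filter_upwards [hKlim.eventually (gt_mem_nhds hη), hev, hgt] with t' h1 h2 h3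
  -- far part
  have hfar := hANN ℓ L hℓ0 hℓL κ t t' htI.1 h3.le h2.2 hκ0.le (by
    intro s hs
    have hsI : s ∈ Ico 0 T := ⟨htI.1.trans hs.1, hs.2.trans_lt h2.2⟩
    have e1 := (abs_le.1 (hc (2 * L) (by positivity) s hsI)).2
    have e2 := (abs_le.1 (hc (ℓ / 2) (by positivity) s hsI)).1
    have e3 := hc0le (ℓ / 2) (by positivity)
    have e4 : r s ≤ r t := hrmono t s htI.1 hs.1 hsI.2
    have e5 : C1 / (2 * L) * M ≤ C1 * M / ℓ := by
      rw [div_mul_eq_mul_div]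
      exact div_le_div_of_nonneg_left hCM hℓ0 (by linarith)
    have e6 : C1 / (ℓ / 2) * M = 2 * (C1 * M / ℓ) := by
      field_simp
    have e7 : C1 * M / ℓ * r t = C1 * M / Q := by
      rw [hℓ]
      field_simp
    have e8 : 0 ≤ C1 * M / ℓ := div_nonneg hCM hℓ0.le
    have e9 : 0 ≤ r s := (hr0 s hsI).le
    have e10 : C1 / (2 * L) * M * r s ≤ C1 * M / ℓ * r t :=
      mul_le_mul e5 e4 e9 e8
    have e11 : C1 / (ℓ / 2) * M * r s ≤ 2 * (C1 * M / ℓ * r t) := by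
      rw [e6]
      have := mul_le_mul_of_nonneg_left e4 e8
      linarith
    rw [e7] at e10 e11
    have e12 : 3 * (C1 * M) / Q = 3 * (C1 * M / Q) := by ring
    rw [e12] at hQ2
    linarith)
  -- near part
  have hpos := hF.pos
  have hPt := hPHI (ρ t) m ε ℓ ((hpos t htI).mono fun a h => h.1) (hF.mass t htI) hε0 hε1 hℓ0
  have hPt' := hPHI (ρ t') m ε ℓ ((hpos t' h2).mono fun a h => h.1) (hF.mass t' h2) hε0 hε1 hℓ0
  have f1 := (abs_le.1 (hc (2 * ℓ) (by positivity) t' h2)).2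
  have f2 := (abs_le.1 (hc (ε * ℓ / 2) (by positivity) t' h2)).1
  have f3 := hc0le (ε * ℓ / 2) (by positivity)
  have f4 := hℓ1c (2 * ℓ) (by positivity) hℓ2
  have f5 : 2 * ℓ * (DD (hl (2 * ℓ)) (ρ t') (ρ t') - DD (hl (ε * ℓ / 2)) (ρ t') (ρ t')) ≤
      2 * ℓ * (δ / (12 * Q) + (C1 / (2 * ℓ) * M + C1 / (ε * ℓ / 2) * M) * r t') := by
    refine mul_le_mul_of_nonneg_left ?_ (by positivity)
    linarith
  have f6 : 2 * ℓ * (δ / (12 * Q) + (C1 / (2 * ℓ) * M + C1 / (ε * ℓ / 2) * M) * r t') =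
      δ / 6 * r t + K * r t' := by
    have g1 : 2 * ℓ * (δ / (12 * Q)) = δ / 6 * r t := by
      rw [hℓ]
      field_simp
      ring
    have g2 : 2 * ℓ * ((C1 / (2 * ℓ) * M + C1 / (ε * ℓ / 2) * M) * r t') = K * r t' := by
      rw [hK]
      field_simp
      ring
    rw [mul_add, g1, g2]
  have f7 : ε * ℓ * m ^ 2 ≤ δ / 6 * r t := by
    have g1 : ε * ℓ * m ^ 2 = (ε * Q * m ^ 2) * r t := by
      rw [hℓ]
      ring
    rw [g1]
    exact mul_le_mul_of_nonneg_right hε2 hrt.le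
  have f8 : C2 * √m * κ * ∫ s in t..t', A s ≤ δ / 2 * r t := by
    have g1 : ∫ s in t..t', A s ≤ r t := by
      rw [hsub t t' htI.1 h3.le h2.2]
      have := (hr0 t' h2).le
      linarith
    have g2 : 0 ≤ C2 * √m * κ := by positivity
    calc C2 * √m * κ * ∫ s in t..t', A s ≤ C2 * √m * κ * r t := mul_le_mul_of_nonneg_left g1 g2
      _ ≤ δ / 2 * r t := mul_le_mul_of_nonneg_right hκ1 hrt.le
  have f9 := hPt.1
  have f10 := hPt'.2
  have f11 : K * r t' < η := h1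
  have f12 : 0 < δ * r t := mul_pos hδ hrt
  show _ ≤ δ * r t + η
  nlinarith

end Pool.Agent.Lib.MP424d38.TY
end
end

section
/-!
# ANG: the middle part of the upper bound
-/
set_option autoImplicit false

open MeasureTheory Filter Topology Set
open scoped ENNReal ContDiff ComplexConjugate

noncomputable section

namespace Pool.Agent.Lib.MP424d38.ES

open Pool.Agent.Lib.MP424d38.TY

namespace ANGM

open ANNM

/-- the basic bound at a fixed time, for a density `w` with `|w| ≤ Λ ρ` -/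
theorem fixed (hDDB : SpecDDB) (κ χ : ℝ → ℝ) (C Λ : ℝ) (hC : 0 ≤ C) (hκ : Continuous κ)
    (hχ : Continuous χ) (hκC : ∀ s, |κ s| ≤ C) (hχ1 : ∀ s, |χ s| ≤ 1) (hb : ∀ s, |κ s| ≤ C * χ s)
    (ρ w : L1) (hρ : ∀ᵐ a : ℝ, 0 ≤ ρ a) (hw : ∀ᵐ a : ℝ, |w a| ≤ Λ * ρ a) :
    |DD κ w ρ| ≤ C * (Λ * DD χ ρ ρ) := by
  have i1 := (hDDB.1 χ 1 hχ hχ1 ρ ρ).1
  have hz1 : ∀ᵐ z : ℝ × ℝ, |w z.1| ≤ Λ * ρ z.1 :=
    Measure.quasiMeasurePreserving_fst.ae hw
  have hz2 : ∀ᵐ z : ℝ × ℝ, 0 ≤ ρ z.2 :=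
    Measure.quasiMeasurePreserving_snd.ae hρ
  have h1 : ‖∫ z : ℝ × ℝ, κ (z.1 - z.2) * (w z.1 * ρ z.2)‖ ≤
      ∫ z : ℝ × ℝ, C * (Λ * (χ (z.1 - z.2) * (ρ z.1 * ρ z.2))) := by
    apply norm_integral_le_of_norm_le
    · exact (i1.const_mul Λ).const_mul C
    · filter_upwards [hz1, hz2] with z h1 h2
      rw [Real.norm_eq_abs, abs_mul, abs_mul, abs_of_nonneg h2]
      have h3 : 0 ≤ C * χ (z.1 - z.2) := (abs_nonneg _).trans (hb _)
      calc |κ (z.1 - z.2)| * (|w z.1| * ρ z.2)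
          ≤ (C * χ (z.1 - z.2)) * ((Λ * ρ z.1) * ρ z.2) := by
            gcongr
            exact hb _
        _ = C * (Λ * (χ (z.1 - z.2) * (ρ z.1 * ρ z.2))) := by ring
  rw [integral_const_mul, integral_const_mul] at h1
  exact h1

end ANGM

open ANNM ANGM in
theorem specANG (hHCF : SpecHCF) (hPHF : SpecPHF) (hPAI : SpecPAI) (hFLB : SpecFLB)
    (hDDB : SpecDDB) (hGAB : SpecGAB) : SpecANG := by
  obtain ⟨C, hC, hP1, -⟩ := hPHF
  refine ⟨8 * C, by positivity, ?_⟩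
  intro T m C₀ R X ρ p e w f c hT hF hK hlim M hM
  obtain ⟨g1, g2, g3, -, -⟩ := hGAB T m R ρ p e hT hF
  obtain ⟨t1, ht1, htail⟩ := hK.tail hlim M hM
  refine ⟨t1, ht1, ?_⟩
  intro ℓ L hℓ hL η t t' ht htt' ht' hs
  have ht0 : 0 ≤ t := ht1.1.trans ht
  have hL0 : 0 < L := hℓ.trans_le hL
  obtain ⟨hcb, hk1, hk2, hk3⟩ := hP1 ℓ L hℓ hL
  set k : ℝ → ℝ := fun s => phi L s - phi ℓ s with hk
  have hkc : Continuous (deriv k) := hcb.1.continuous_deriv (by norm_num)
  -- the increments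
  have hph : ∀ ℓ' : ℝ, 0 < ℓ' → ℓ' ≤ L → ∀ s, |phi ℓ' s| ≤ 2 * L := by
    intro ℓ' h1 h2 s
    exact (phi_bd hHCF h1 s).trans (by linarith)
  have hlin : ∀ f g : L1, DD k f g = DD (phi L) f g - DD (phi ℓ) f g := fun f g =>
    (hDDB.2.2.2.1 (phi L) (phi ℓ) (2 * L) (phi_cont hHCF L) (phi_cont hHCF ℓ)
      (hph L hL0 le_rfl) (hph ℓ hℓ hL) f g).2
  have hlin2 : ∀ f g : L1, DD (chi ℓ L) f g = DD (hl (2 * L)) f g - DD (hl (ℓ / 2)) f g :=
    fun f g => (hDDB.2.2.2.1 (hl (2 * L)) (hl (ℓ / 2)) 1 (hl_cont hHCF _) (hl_cont hHCF _)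
      (hl_bd hHCF _) (hl_bd hHCF _) f g).2
  rw [← hlin, ← hlin]
  have hP := hPAI T ρ (fun t => (4 : ℝ) • p t) ρ (fun t => (4 : ℝ) • p t) hF.lawρ hF.lawρ k hcb
    t t' ht0 htt' ht'
  rw [hP]
  have hint : ∀ r, DD (deriv k) ((4 : ℝ) • p r) (ρ r) - DD (deriv k) (ρ r) ((4 : ℝ) • p r)
      = 8 * DD (deriv k) (p r) (ρ r) := by
    intro r
    have e1 := (hDDB.2.2.2.2 (deriv k) C 4 hkc hk1 (p r) (ρ r) 0).2.2.1
    have e2 := (hDDB.2.2.2.2 (deriv k) C 4 hkc hk1 (ρ r) (p r) 0).2.2.2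
    have e3 := hDDB.2.2.1 (deriv k) C hkc hk1 (ρ r) (p r)
    have e4 : DD (fun s => deriv k (-s)) (p r) (ρ r) = - DD (deriv k) (p r) (ρ r) := by
      unfold DD
      rw [← integral_neg]
      refine integral_congr_ae (Filter.Eventually.of_forall fun z => ?_)
      simp only [hk3]
      ring
    rw [e1, e2, e3, e4]
    ring
  have hsub : uIcc t t' ⊆ Ico 0 T := by
    rw [uIcc_of_le htt']
    intro x hx
    exact ⟨ht0.trans hx.1, lt_of_le_of_lt hx.2 ht'⟩
  have hGint : IntervalIntegrable (Ga ρ p e) volume t t' := (g2.mono hsub).intervalIntegrable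
  have hbound : ∀ r ∈ Set.Ioc t t', ‖DD (deriv k) ((4 : ℝ) • p r) (ρ r)
        - DD (deriv k) (ρ r) ((4 : ℝ) • p r)‖ ≤
        (8 * C * (M * η + m * C₀ / Real.sqrt M)) * Ga ρ p e r := by
    intro r hr
    have hrT : r ∈ Ico 0 T := ⟨ht0.trans hr.1.le, lt_of_le_of_lt hr.2 ht'⟩
    obtain ⟨f1, f2, f3, f4, f5⟩ := hFLB T m R ρ p e hF r hrT
    have hG1 : 1 ≤ Ga ρ p e r := g1 r hrT
    have hM0 : 0 < M := by linarith
    have hΛ : 1 ≤ M * Ga ρ p e r := by nlinarith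
    set Λ := M * Ga ρ p e r with hΛd
    rw [hint r, Real.norm_eq_abs, abs_mul]
    have hb : ∀ s, |deriv k s| ≤ C * chi ℓ L s := by
      intro s
      by_cases h : |s| < ℓ ∨ 2 * L < |s|
      · rw [hk2 s h, abs_zero]
        exact mul_nonneg hC.le (chi_nonneg hHCF hℓ hL s)
      · push Not at h
        rw [chi_one hHCF hℓ hL h.1 h.2, mul_one]
        exact hk1 s
    have hρ0 : ∀ᵐ a : ℝ, 0 ≤ ρ r a := (hF.pos r hrT).mono fun a h => h.1
    have hD1 : DD (chi ℓ L) (ρ r) (ρ r) ≤ η := by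
      rw [hlin2]
      exact hs r ⟨hr.1.le, hr.2⟩
    have hw := fixed hDDB (deriv k) (chi ℓ L) C Λ hC.le hkc (chi_cont hHCF ℓ L) hk1
      (chi_bd hHCF hℓ hL) hb (ρ r) (w Λ r) hρ0 (hK.hwρ Λ hΛ r hrT)
    have hq := (hDDB.1 (deriv k) C hkc hk1 (p r - w Λ r) (ρ r)).2
    have ht := (htail r ⟨ht.trans hr.1.le, hrT.2⟩).1
    have hadd := (hDDB.2.2.2.2 (deriv k) C 0 hkc hk1 (w Λ r) (ρ r) (p r - w Λ r)).1
    rw [add_sub_cancel] at hadd
    rw [f2] at hq
    have h5 : |DD (deriv k) (p r) (ρ r)| ≤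
        C * (Λ * η) + C * (C₀ / Real.sqrt M * Ga ρ p e r) * m := by
      rw [hadd]
      refine (abs_add_le _ _).trans (add_le_add ?_ ?_)
      · refine hw.trans ?_
        gcongr
      · refine hq.trans ?_
        gcongr
    rw [abs_of_pos (by norm_num : (0 : ℝ) < 8)]
    calc 8 * |DD (deriv k) (p r) (ρ r)| ≤
        8 * (C * (Λ * η) + C * (C₀ / Real.sqrt M * Ga ρ p e r) * m) := by linarith
      _ = (8 * C * (M * η + m * C₀ / Real.sqrt M)) * Ga ρ p e r := by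
        rw [hΛd]
        ring
  have h1 := intervalIntegral.norm_integral_le_of_norm_le htt'
    (Filter.Eventually.of_forall hbound) (hGint.const_mul _)
  rw [intervalIntegral.integral_const_mul] at h1
  exact (le_abs_self _).trans h1

end Pool.Agent.Lib.MP424d38.ES
end
end

section
/-!
# Block ES, module CLG: the pair mass at distance at most `ℓ`
-/
set_option autoImplicit false

open MeasureTheory Filter Topology Set
open scoped ENNReal ContDiff ComplexConjugate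

noncomputable section

namespace Pool.Agent.Lib.MP424d38.ES

open Pool.Agent.Lib.MP424d38.TY

namespace CLGM

lemma hl_cd (hHCF : SpecHCF) (ℓ : ℝ) : ContDiff ℝ ∞ (hl ℓ) := by
  unfold hl
  exact hHCF.1.comp (contDiff_id.div_const ℓ)

lemma hl_deriv (hHCF : SpecHCF) (ℓ s : ℝ) : deriv (hl ℓ) s = deriv hc (s / ℓ) / ℓ := by
  have h1 : HasDerivAt hc (deriv hc (s / ℓ)) (s / ℓ) :=
    (hHCF.1.differentiable (by simp)).differentiableAt.hasDerivAt
  have h2 : HasDerivAt (fun x : ℝ => x / ℓ) (1 / ℓ) s := (hasDerivAt_id s).div_const ℓ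
  have h3 := h1.comp s h2
  have h4 : HasDerivAt (hl ℓ) (deriv hc (s / ℓ) * (1 / ℓ)) s := h3
  rw [h4.deriv]
  ring

lemma hl_bd (hHCF : SpecHCF) (ℓ s : ℝ) : |hl ℓ s| ≤ 1 := by
  unfold hl
  rw [abs_of_nonneg (hHCF.2.1 _).1]
  exact (hHCF.2.1 _).2

end CLGM

open CLGM in
theorem specCLG (hHCF : SpecHCF) (hPAI : SpecPAI) (hFLB : SpecFLB) (hDDB : SpecDDB) (hCLL : SpecCLL)
    (hGAB : SpecGAB) : SpecCLG := by
  obtain ⟨C0, hC0⟩ := hHCF.2.2.2.2.2.2
  obtain ⟨hI, hmono, -, -, hlin⟩ := hDDB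
  obtain ⟨_, -, hcll⟩ := hCLL
  have hC0n : 0 ≤ C0 := le_trans (abs_nonneg _) (hC0 0).1
  refine ⟨8 * C0 + 1, by positivity, ?_⟩
  intro T m C₀ R X ρ p e w f c hT hF hK
  refine ⟨(hcll T m R ρ p e hF).1, ?_⟩
  obtain ⟨g1, g2, g3, g4, -⟩ := hGAB T m R ρ p e hT hF
  obtain ⟨x0, x1⟩ := g4 C₀ X w f c hK
  intro ℓ hℓ t t' ht htt' ht'
  have hcb : Cb1 (hl ℓ) := by
    refine ⟨(hl_cd hHCF ℓ).of_le (by exact_mod_cast le_top), 1 + C0 / ℓ, ?_⟩
    intro a
    have hq : 0 ≤ C0 / ℓ := by positivity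
    refine ⟨(hl_bd hHCF ℓ a).trans (by linarith), ?_⟩
    rw [hl_deriv hHCF, abs_div, abs_of_pos hℓ]
    have : |deriv hc (a / ℓ)| / ℓ ≤ C0 / ℓ := by
      gcongr
      exact (hC0 _).1
    linarith
  have hdc : Continuous (deriv (hl ℓ)) := (hl_cd hHCF ℓ).continuous_deriv (by simp)
  have hdb : ∀ s, |deriv (hl ℓ) s| ≤ C0 / ℓ := by
    intro s
    rw [hl_deriv hHCF, abs_div, abs_of_pos hℓ]
    gcongr
    exact (hC0 _).1
  have hP := hPAI T ρ (fun t => (4 : ℝ) • p t) ρ (fun t => (4 : ℝ) • p t) hF.lawρ hF.lawρ (hl ℓ) hcb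
    t t' ht htt' ht'
  rw [hP]
  have hm0 : 0 ≤ m := (hFLB T m R ρ p e hF t ⟨ht, lt_of_le_of_lt htt' ht'⟩).1
  have hsub : uIcc t t' ⊆ Ico 0 T := by
    rw [uIcc_of_le htt']
    intro x hx
    exact ⟨ht.trans hx.1, lt_of_le_of_lt hx.2 ht'⟩
  have hAint : IntervalIntegrable (Ga ρ p e) volume t t' := (g2.mono hsub).intervalIntegrable
  have hAn : 0 ≤ ∫ s in t..t', Ga ρ p e s := by
    apply intervalIntegral.integral_nonneg htt'
    intro u hu
    exact zero_le_one.trans (g1 u (hsub (by rw [uIcc_of_le htt']; exact hu)))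
  have hX2 : 0 ≤ X 0 + 2 := by linarith
  have hbound : ∀ r ∈ Set.Ioc t t', ‖DD (deriv (hl ℓ)) ((4 : ℝ) • p r) (ρ r)
      - DD (deriv (hl ℓ)) (ρ r) ((4 : ℝ) • p r)‖ ≤ (8 * C0 / ℓ * (m * (X 0 + 2))) * Ga ρ p e r := by
    intro r hr
    have hrT : r ∈ Ico 0 T := ⟨ht.trans hr.1.le, lt_of_le_of_lt hr.2 ht'⟩
    obtain ⟨-, f2, -, -, -⟩ := hFLB T m R ρ p e hF r hrT
    have hp : ‖p r‖ ≤ (X 0 + 2) * Ga ρ p e r := (hK.hp r hrT).trans (x1 r hrT).2
    have hn4 : ‖(4 : ℝ) • p r‖ ≤ 4 * ((X 0 + 2) * Ga ρ p e r) := by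
      rw [norm_smul]
      simp only [Real.norm_ofNat]
      linarith
    have hq : 0 ≤ C0 / ℓ := by positivity
    have b1 : |DD (deriv (hl ℓ)) ((4 : ℝ) • p r) (ρ r)| ≤ 4 * (C0 / ℓ) * (m * (X 0 + 2)) * Ga ρ p e r := by
      have := (hI (deriv (hl ℓ)) (C0 / ℓ) hdc hdb ((4 : ℝ) • p r) (ρ r)).2
      rw [f2] at this
      calc |DD (deriv (hl ℓ)) ((4 : ℝ) • p r) (ρ r)| ≤ C0 / ℓ * ‖(4 : ℝ) • p r‖ * m := this
        _ ≤ C0 / ℓ * (4 * ((X 0 + 2) * Ga ρ p e r)) * m := by gcongr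
        _ = 4 * (C0 / ℓ) * (m * (X 0 + 2)) * Ga ρ p e r := by ring
    have b2 : |DD (deriv (hl ℓ)) (ρ r) ((4 : ℝ) • p r)| ≤ 4 * (C0 / ℓ) * (m * (X 0 + 2)) * Ga ρ p e r := by
      have := (hI (deriv (hl ℓ)) (C0 / ℓ) hdc hdb (ρ r) ((4 : ℝ) • p r)).2
      rw [f2] at this
      calc |DD (deriv (hl ℓ)) (ρ r) ((4 : ℝ) • p r)| ≤ C0 / ℓ * m * ‖(4 : ℝ) • p r‖ := this
        _ ≤ C0 / ℓ * m * (4 * ((X 0 + 2) * Ga ρ p e r)) := by gcongr
        _ = 4 * (C0 / ℓ) * (m * (X 0 + 2)) * Ga ρ p e r := by ring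
    rw [Real.norm_eq_abs]
    calc _ ≤ |DD (deriv (hl ℓ)) ((4 : ℝ) • p r) (ρ r)| + |DD (deriv (hl ℓ)) (ρ r) ((4 : ℝ) • p r)| :=
          abs_sub _ _
      _ ≤ 4 * (C0 / ℓ) * (m * (X 0 + 2)) * Ga ρ p e r + 4 * (C0 / ℓ) * (m * (X 0 + 2)) * Ga ρ p e r :=
          add_le_add b1 b2
      _ = (8 * C0 / ℓ * (m * (X 0 + 2))) * Ga ρ p e r := by ring
  have h1 := intervalIntegral.norm_integral_le_of_norm_le htt'
    (Filter.Eventually.of_forall hbound) (hAint.const_mul _)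
  rw [Real.norm_eq_abs] at h1
  refine h1.trans ?_
  rw [intervalIntegral.integral_const_mul]
  have hk : 0 ≤ m * (X 0 + 2) := mul_nonneg hm0 hX2
  have h2 : 8 * C0 / ℓ * (m * (X 0 + 2)) ≤ (8 * C0 + 1) * m * (X 0 + 2) / ℓ := by
    have h3 : (8 * C0 + 1) * m * (X 0 + 2) / ℓ = (8 * C0 + 1) / ℓ * (m * (X 0 + 2)) := by ring
    rw [h3]
    have : 8 * C0 / ℓ ≤ (8 * C0 + 1) / ℓ := by gcongr; linarith
    gcongr
  gcongr

end Pool.Agent.Lib.MP424d38.ES
end
end

section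
/-!
# Block ES, module COR: the core theorem
-/
set_option autoImplicit false

open MeasureTheory Filter Topology Set
open scoped ENNReal ContDiff ComplexConjugate

noncomputable section

namespace Pool.Agent.Lib.MP424d38.ES

open Pool.Agent.Lib.MP424d38.TY

namespace CORM

/-- The statement of LBG for one constant `C`. -/
def LB (C : ℝ) : Prop := ∀ (T m : ℝ) (R : ℝ → ℝ) (ρ p e : ℝ → L1), Flow T m R ρ p e →
  ∀ (L : ℝ) (E : ℝ → ℝ) (t t' : ℝ), 0 < L → 0 ≤ t → t ≤ t' → t' < T → ContinuousOn E (Icc t t') →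
    (∀ s ∈ Icc t t', ∀ F : ℝ → ℝ, Cb1 F → (∀ x, |F x| ≤ C) → (∀ x, |deriv F x| ≤ C / L) →
      (∀ x, |x| ≤ L → F x = 0) → |DD F (p s) (ρ s)| ≤ E s) →
    (∫ s in t..t', (64 * (∫ r in (0 : ℝ)..s, gF ρ p e r) - 8 * m * ‖p 0‖ - 8 * E s))
      ≤ DD (phi L) (ρ t') (ρ t') - DD (phi L) (ρ t) (ρ t)

/-- LBG with `E = Γ`, after `Γ` has become large. -/
theorem low {C : ℝ} (hC : LB C) (hGAB : SpecGAB) {T m : ℝ} {R : ℝ → ℝ} {ρ p e : ℝ → L1} (hT : 0 < T)
    (hF : Flow T m R ρ p e) {L t t' : ℝ} (hL : 0 < L) (ht : 0 ≤ t) (htt : t ≤ t') (ht' : t' < T)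
    (hk : ∀ s ∈ Icc t t', ∀ F : ℝ → ℝ, Cb1 F → (∀ x, |F x| ≤ C) → (∀ x, |deriv F x| ≤ C / L) →
      (∀ x, |x| ≤ L → F x = 0) → |DD F (p s) (ρ s)| ≤ Ga ρ p e s)
    (hbig : 64 + 8 * m * ‖p 0‖ ≤ 16 * Ga ρ p e t) :
    40 * (∫ s in t..t', Ga ρ p e s) ≤ DD (phi L) (ρ t') (ρ t') - DD (phi L) (ρ t) (ρ t) := by
  obtain ⟨_, hmono, hcont, _, _⟩ := hGAB T m R ρ p e hT hF
  have hsub : Icc t t' ⊆ Ico 0 T := fun r hr => ⟨ht.trans hr.1, lt_of_le_of_lt hr.2 ht'⟩
  have hc : ContinuousOn (Ga ρ p e) (Icc t t') := hcont.mono hsub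
  refine le_trans ?_ (hC T m R ρ p e hF L (Ga ρ p e) t t' hL ht htt ht' hc hk)
  rw [← intervalIntegral.integral_const_mul]
  have hg : ∀ s : ℝ, (∫ r in (0 : ℝ)..s, gF ρ p e r) = Ga ρ p e s - 1 := by
    intro s
    simp only [Ga]
    ring
  apply intervalIntegral.integral_mono_on htt
  · apply ContinuousOn.intervalIntegrable
    rw [uIcc_of_le htt]
    exact continuousOn_const.mul hc
  · apply ContinuousOn.intervalIntegrable
    rw [uIcc_of_le htt]
    have : ContinuousOn (fun s => 64 * (Ga ρ p e s - 1) - 8 * m * ‖p 0‖ - 8 * Ga ρ p e s) (Icc t t') :=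
      ((continuousOn_const.mul (hc.sub continuousOn_const)).sub continuousOn_const).sub
        (continuousOn_const.mul hc)
    refine this.congr fun s _ => ?_
    simp only [hg]
  · intro s hs
    have h1 : Ga ρ p e t ≤ Ga ρ p e s := hmono ⟨ht, lt_of_le_of_lt htt ht'⟩ (hsub hs) hs.1
    rw [hg]
    linarith

/-- a time after which `Γ` is large. -/
theorem big {T : ℝ} {G : ℝ → ℝ} (hG : Tendsto G (𝓝[<] T) atTop) (B : ℝ) :
    ∀ᶠ t in 𝓝[<] T, B ≤ 16 * G t := by
  filter_upwards [hG.eventually_ge_atTop (B / 16)] with t ht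
  linarith

theorem ev {T : ℝ} {P : ℝ → Prop} (hT : 0 < T) (h : ∀ᶠ t in 𝓝[<] T, P t) :
    ∃ t₀ ∈ Ico 0 T, ∀ t ∈ Ico t₀ T, P t := by
  obtain ⟨a, ha, h1⟩ := mem_nhdsLT_iff_exists_Ico_subset.1 h
  refine ⟨max a 0, ⟨le_max_right _ _, max_lt ha hT⟩, fun t ht => ?_⟩
  exact h1 ⟨(le_max_left _ _).trans ht.1, ht.2⟩

/-- continuity at `T` of the primitive. -/
theorem prim {T a : ℝ} {G : ℝ → ℝ} (haT : a < T) (ha : 0 ≤ a) (hi : IntegrableOn G (Ico 0 T)) :
    Tendsto (fun t => ∫ s in a..t, G s) (𝓝[<] T) (𝓝 (∫ s in a..T, G s)) := by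
  have h1 : IntegrableOn G (uIcc a T) := by
    rw [uIcc_of_le haT.le]
    have : IntegrableOn G (Icc 0 T) := (integrableOn_Icc_iff_integrableOn_Ico).2 hi
    exact this.mono_set (Icc_subset_Icc ha le_rfl)
  have h2 := intervalIntegral.continuousOn_primitive_interval h1
  rw [uIcc_of_le haT.le] at h2
  have h3 := h2 T ⟨haT.le, le_rfl⟩
  have h4 : 𝓝[<] T ≤ 𝓝[Icc a T] T := by
    rw [← nhdsWithin_Ico_eq_nhdsLT haT]
    exact nhdsWithin_mono _ Ico_subset_Icc_self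
  exact h3.mono_left h4

end CORM

open CORM in
theorem specCOR (hLBG : SpecLBG) (hFAG : SpecFAG) (hUPC : SpecUPC) (hGAB : SpecGAB) : SpecCOR := by
  intro T m C₀ R X ρ p e w f c hT hC₀ hF hK hΓ hi
  obtain ⟨C, hC, hLB⟩ := hLBG
  obtain ⟨h1, hmono, hcont, _, _⟩ := hGAB T m R ρ p e hT hF
  set G := Ga ρ p e with hGdef
  -- choice of `M`
  set M : ℝ := max 1024 ((6 * C * m * C₀) ^ 2) with hM
  have hM1 : 1024 ≤ M := le_max_left _ _
  have hMp : 0 < M := by linarith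
  have hsq : 6 * C * m * C₀ ≤ Real.sqrt M := by
    calc 6 * C * m * C₀ ≤ |6 * C * m * C₀| := le_abs_self _
      _ = Real.sqrt ((6 * C * m * C₀) ^ 2) := (Real.sqrt_sq_eq_abs _).symm
      _ ≤ Real.sqrt M := Real.sqrt_le_sqrt (le_max_right _ _)
  have hsp : 0 < Real.sqrt M := Real.sqrt_pos.2 hMp
  have hsm : 3 * C * m * C₀ / Real.sqrt M ≤ 1 / 2 := by
    rw [div_le_iff₀ hsp]
    linarith
  obtain ⟨D, hD, hfag⟩ := hFAG C T m C₀ R X ρ p e w f c hC hT hC₀ hF hK hΓ M hM1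
  obtain ⟨L, hL, t0, ht0, hup⟩ := hUPC T m C₀ R X ρ p e w f c hT hC₀ hF hK hΓ hi 8 (by norm_num)
  -- integrability facts
  have hii : ∀ a b : ℝ, 0 ≤ a → a ≤ b → b ≤ T → IntervalIntegrable G volume a b := by
    intro a b ha hab hb
    rw [intervalIntegrable_iff_integrableOn_Ico_of_le hab]
    exact hi.mono_set (Ico_subset_Ico ha hb)
  have hpos : ∀ a b : ℝ, 0 ≤ a → a ≤ b → b ≤ T → b - a ≤ ∫ s in a..b, G s := by
    intro a b ha hab hb
    have : (∫ _s in a..b, (1 : ℝ)) ≤ ∫ s in a..b, G s := by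
      apply intervalIntegral.integral_mono_ae_restrict hab (by simp) (hii a b ha hab hb)
      have h2 : ∀ᵐ s : ℝ ∂(volume.restrict (Icc a b)), s ≠ T := by
        apply ae_restrict_of_ae
        exact Measure.ae_ne volume T
      filter_upwards [h2, ae_restrict_mem measurableSet_Icc] with s hs1 hs2
      exact h1 s ⟨ha.trans hs2.1, lt_of_le_of_ne (hs2.2.trans hb) hs1⟩
    simpa using this
  -- choice of `t2`
  have ht2 : ∃ t2 ∈ Ico 0 T, D / L * (∫ s in t2..T, G s) ≤ 1 / 2 := by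
    have h2 : Tendsto (fun t => D / L * ((∫ s in (0 : ℝ)..T, G s) - ∫ s in (0 : ℝ)..t, G s)) (𝓝[<] T)
        (𝓝 (D / L * ((∫ s in (0 : ℝ)..T, G s) - ∫ s in (0 : ℝ)..T, G s))) :=
      ((prim hT le_rfl hi).const_sub _).const_mul _
    rw [sub_self, mul_zero] at h2
    have h3 := h2.eventually_le_const (show (0 : ℝ) < 1 / 2 by norm_num)
    obtain ⟨t2, ht2, h4⟩ := ev hT h3
    refine ⟨t2, ht2, ?_⟩
    have h5 := h4 t2 ⟨le_rfl, ht2.2⟩
    have h6 := intervalIntegral.integral_add_adjacent_intervals (hii 0 t2 le_rfl ht2.1 ht2.2.le)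
      (hii t2 T ht2.1 ht2.2.le le_rfl)
    have h7 : (∫ s in t2..T, G s) = (∫ s in (0 : ℝ)..T, G s) - ∫ s in (0 : ℝ)..t2, G s := by linarith
    rw [h7]
    exact h5
  obtain ⟨t2, ht2, hr2⟩ := ht2
  obtain ⟨t1, ht1, hker⟩ := hfag t2 ht2
  obtain ⟨t3, ht3, hbig⟩ := ev hT (big hΓ (64 + 8 * m * ‖p 0‖))
  -- the time `t`
  set t := max t0 (max t1 t3) with htdef
  have htT : t < T := max_lt ht0.2 (max_lt ht1.2 ht3.2)
  have ht0' : t0 ≤ t := le_max_left _ _
  have ht1' : t1 ≤ t := (le_max_left _ _).trans (le_max_right _ _)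
  have ht3' : t3 ≤ t := (le_max_right _ _).trans (le_max_right _ _)
  have ht : 0 ≤ t := ht0.1.trans ht0'
  have hmain : ∀ η : ℝ, 0 < η → 40 * (∫ s in t..T, G s) ≤ 8 * (∫ s in t..T, G s) + η := by
    intro η hη
    have hup' := hup t ⟨ht0', htT⟩ η hη
    refine le_of_tendsto ((prim htT ht hi).const_mul 40) ?_
    have hIco : Ico t T ∈ 𝓝[<] T := Ico_mem_nhdsLT htT
    filter_upwards [hup', hIco] with t' h2 h3
    refine le_trans (low hLB hGAB hT hF hL ht h3.1 h3.2 ?_ (hbig t ⟨ht3', htT⟩)) h2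
    intro s hs F hF1 hF2 hF3 _
    have hs1 : s ∈ Ico t1 T := ⟨ht1'.trans hs.1, lt_of_le_of_lt hs.2 h3.2⟩
    refine le_trans (hker s hs1 L F hL hF1 hF2 hF3) ?_
    have hs0 : 0 ≤ s := ht.trans hs.1
    have hGs : 1 ≤ G s := h1 s ⟨hs0, hs1.2⟩
    have ht2s : t2 ≤ s := ht1.1.trans hs1.1
    have h4 : (∫ r in t2..s, G r) ≤ ∫ r in t2..T, G r := by
      have h5 := intervalIntegral.integral_add_adjacent_intervals (hii t2 s ht2.1 ht2s hs1.2.le)
        (hii s T hs0 hs1.2.le le_rfl)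
      have h6 := hpos s T hs0 hs1.2.le le_rfl
      have h7 := hs1.2
      linarith
    have h5 : D / L * (∫ r in t2..s, G r) ≤ 1 / 2 :=
      le_trans (mul_le_mul_of_nonneg_left h4 (div_pos hD hL).le) hr2
    have h6 : 3 * C * m * C₀ / Real.sqrt M + D / L * (∫ r in t2..s, G r) ≤ 1 := by linarith
    calc (3 * C * m * C₀ / Real.sqrt M + D / L * ∫ r in t2..s, G r) * G s ≤ 1 * G s :=
          mul_le_mul_of_nonneg_right h6 (by linarith)
      _ = G s := one_mul _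
  have hr := hpos t T ht htT.le le_rfl
  have hfin := hmain (T - t) (by linarith)
  linarith

end Pool.Agent.Lib.MP424d38.ES
end
end

section
/-!
# Block ES, module ESC: escape of mass
-/
set_option autoImplicit false

open MeasureTheory Filter Topology Set
open scoped ENNReal ContDiff ComplexConjugate

noncomputable section

namespace Pool.Agent.Lib.MP424d38.ES

open Pool.Agent.Lib.MP424d38.TY

namespace ESCM

theorem fst_ae {P : ℝ → Prop} (h : ∀ᵐ a : ℝ, P a) : ∀ᵐ z : ℝ × ℝ, P z.1 :=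
  Measure.quasiMeasurePreserving_fst.ae h

theorem snd_ae {P : ℝ → Prop} (h : ∀ᵐ a : ℝ, P a) : ∀ᵐ z : ℝ × ℝ, P z.2 :=
  Measure.quasiMeasurePreserving_snd.ae h

/-- the part of `p` which is dominated by `ρ`. -/
theorem dom (hDDB : TY.SpecDDB) (hHCF : TY.SpecHCF) {L C Λ : ℝ} (hC : 0 ≤ C)
    {F : ℝ → ℝ} (hF : ∀ x, |F x| ≤ C * (1 - hl L x)) {w ρ : L1} (hρ : ∀ᵐ a : ℝ, 0 ≤ ρ a)
    (hw : ∀ᵐ a : ℝ, |w a| ≤ Λ * ρ a) :
    |DD F w ρ| ≤ C * Λ * ((∫ a, ρ a) ^ 2 - DD (hl L) ρ ρ) := by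
  obtain ⟨h1, h2, _, _, _, _, _⟩ := hHCF
  have hcl : Continuous (hl L) := h1.continuous.comp (continuous_id.div_const L)
  have hbl : ∀ s, |hl L s| ≤ 1 := fun s => by
    rw [abs_le]
    have := h2 (s / L)
    exact ⟨by unfold hl; linarith, this.2⟩
  have i1 := (hDDB.1 (fun _ => 1) 1 continuous_const (by simp) ρ ρ).1
  have i2 := (hDDB.1 (hl L) 1 hcl hbl ρ ρ).1
  have e1 : (∫ z : ℝ × ℝ, (fun _ : ℝ => (1 : ℝ)) (z.1 - z.2) * (ρ z.1 * ρ z.2)) = (∫ a, ρ a) ^ 2 := by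
    simp only [one_mul]
    rw [pow_two]
    exact integral_prod_mul (μ := (volume : Measure ℝ)) (ν := (volume : Measure ℝ)) (fun a => ρ a) (fun a => ρ a)
  have e2 : (∫ z : ℝ × ℝ, C * Λ * ((fun _ : ℝ => (1 : ℝ)) (z.1 - z.2) * (ρ z.1 * ρ z.2)
      - hl L (z.1 - z.2) * (ρ z.1 * ρ z.2))) = C * Λ * ((∫ a, ρ a) ^ 2 - DD (hl L) ρ ρ) := by
    rw [integral_const_mul, integral_sub i1 i2, e1]
    rfl
  rw [← e2, ← Real.norm_eq_abs]
  unfold DD
  apply norm_integral_le_of_norm_le ((i1.sub i2).const_mul (C * Λ))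
  filter_upwards [fst_ae hρ, snd_ae hρ, fst_ae hw] with z a1 a2 a3
  rw [Real.norm_eq_abs, abs_mul, abs_mul, abs_of_nonneg a2]
  have h3 := hF (z.1 - z.2)
  have h4 : 0 ≤ 1 - hl L (z.1 - z.2) := by
    have := (h2 ((z.1 - z.2) / L)).2
    unfold hl
    linarith
  calc |F (z.1 - z.2)| * (|w z.1| * ρ z.2)
      ≤ (C * (1 - hl L (z.1 - z.2))) * ((Λ * ρ z.1) * ρ z.2) := by
        apply mul_le_mul h3 (mul_le_mul_of_nonneg_right a3 a2) (mul_nonneg (abs_nonneg _) a2)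
          (mul_nonneg hC h4)
    _ = C * Λ * (1 * (ρ z.1 * ρ z.2) - hl L (z.1 - z.2) * (ρ z.1 * ρ z.2)) := by ring

end ESCM

open CORM ESCM in
theorem specESC (hNEA : SpecNEA) (hDDB : TY.SpecDDB) (hHCF : TY.SpecHCF) (hFLB : TY.SpecFLB)
    (hGAB : SpecGAB) : SpecESC := by
  intro m C₀ hm hC₀
  obtain ⟨C, hC, hNEA⟩ := hNEA
  set M : ℝ := max 1024 ((2 * C * m * C₀) ^ 2) with hM
  have hM1 : 1024 ≤ M := le_max_left _ _
  have hMp : 0 < M := by linarith
  have hsq : 2 * C * m * C₀ ≤ Real.sqrt M := by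
    calc 2 * C * m * C₀ ≤ |2 * C * m * C₀| := le_abs_self _
      _ = Real.sqrt ((2 * C * m * C₀) ^ 2) := (Real.sqrt_sq_eq_abs _).symm
      _ ≤ Real.sqrt M := Real.sqrt_le_sqrt (le_max_right _ _)
  have hsp : 0 < Real.sqrt M := Real.sqrt_pos.2 hMp
  have hsm : C * m * (C₀ / Real.sqrt M) ≤ 1 / 2 := by
    rw [← mul_div_assoc, div_le_iff₀ hsp]
    linarith
  have hε : 0 < 1 / (4 * C * M) := by positivity
  refine ⟨1 / (4 * C * M), hε, ?_⟩
  intro T R X ρ p e w f c hT hF hK hΓ L hL hev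
  apply hNEA T m C₀ R X ρ p e w f c hT hC₀ hF hK hΓ (2 * L) (by linarith)
  obtain ⟨h1, _, _, _, _⟩ := hGAB T m R ρ p e hT hF
  obtain ⟨t1, ht1, htail⟩ := hK.tail hΓ M hM1
  have hIco : Ico t1 T ∈ 𝓝[<] T := Ico_mem_nhdsLT ht1.2
  filter_upwards [hev, hIco] with s hs hs1
  intro F hF1 hF2 hF3 hF4
  have hs0 : s ∈ Ico 0 T := ⟨ht1.1.trans hs1.1, hs1.2⟩
  have hG : 1 ≤ Ga ρ p e s := h1 s hs0
  have hΛ : 1 ≤ M * Ga ρ p e s := by nlinarith
  obtain ⟨ht2, _⟩ := htail s hs1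
  obtain ⟨k1, k2, _, k4, _, _, _⟩ := id hHCF
  -- the kernel is dominated by `C (1 - hl L)`
  have hFd : ∀ x, |F x| ≤ C * (1 - hl L x) := by
    intro x
    by_cases hx : |x| ≤ 2 * L
    · rw [hF4 x hx, abs_zero]
      have := (k2 (x / L)).2
      unfold hl
      exact mul_nonneg hC.le (by linarith)
    · push Not at hx
      have : 2 ≤ |x / L| := by
        rw [abs_div, abs_of_pos hL, le_div_iff₀ hL]
        exact hx.le
      unfold hl
      rw [k4 _ this, sub_zero, mul_one]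
      exact hF2 x
  have hρ : ∀ᵐ a : ℝ, 0 ≤ ρ s a := (hF.pos s hs0).mono fun a ha => ha.1
  have hcF : Continuous F := hF1.1.continuous
  have d1 := dom hDDB hHCF hC.le hFd hρ (hK.hwρ _ hΛ s hs0)
  rw [hF.mass s hs0] at d1
  have d2 := (hDDB.1 F C hcF hF2 (p s - w (M * Ga ρ p e s) s) (ρ s)).2
  rw [(hFLB T m R ρ p e hF s hs0).2.1] at d2
  have hsplit : DD F (p s) (ρ s) = DD F (w (M * Ga ρ p e s) s) (ρ s)
      + DD F (p s - w (M * Ga ρ p e s) s) (ρ s) := by
    have := (hDDB.2.2.2.2 F C 0 hcF hF2 (w (M * Ga ρ p e s) s) (ρ s) (p s - w (M * Ga ρ p e s) s)).1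
    rw [← this, add_sub_cancel]
  rw [hsplit]
  have d3 : C * (M * Ga ρ p e s) * (m ^ 2 - DD (hl L) (ρ s) (ρ s)) ≤ 1 / 4 * Ga ρ p e s := by
    calc C * (M * Ga ρ p e s) * (m ^ 2 - DD (hl L) (ρ s) (ρ s))
        ≤ C * (M * Ga ρ p e s) * (1 / (4 * C * M)) :=
          mul_le_mul_of_nonneg_left hs (by positivity)
      _ = 1 / 4 * Ga ρ p e s := by field_simp
  have d4 : C * ‖p s - w (M * Ga ρ p e s) s‖ * m ≤ 1 / 2 * Ga ρ p e s := by
    calc C * ‖p s - w (M * Ga ρ p e s) s‖ * m ≤ C * (C₀ / Real.sqrt M * Ga ρ p e s) * m := by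
          apply mul_le_mul_of_nonneg_right (mul_le_mul_of_nonneg_left ht2 hC.le) hm.le
      _ = C * m * (C₀ / Real.sqrt M) * Ga ρ p e s := by ring
      _ ≤ 1 / 2 * Ga ρ p e s := mul_le_mul_of_nonneg_right hsm (by linarith)
  calc |DD F (w (M * Ga ρ p e s) s) (ρ s) + DD F (p s - w (M * Ga ρ p e s) s) (ρ s)|
      ≤ |DD F (w (M * Ga ρ p e s) s) (ρ s)| + |DD F (p s - w (M * Ga ρ p e s) s) (ρ s)| := abs_add_le _ _
    _ ≤ Ga ρ p e s := by linarith

end Pool.Agent.Lib.MP424d38.ES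
end
end

section
/-!
# FAG: the far part when `Γ → ∞`
-/
set_option autoImplicit false

open MeasureTheory Filter Topology Set
open scoped ENNReal ContDiff ComplexConjugate

noncomputable section

namespace Pool.Agent.Lib.MP424d38.ES

open Pool.Agent.Lib.MP424d38.TY

theorem specFAG (hFAR : SpecFAR) (hGAB : SpecGAB) : SpecFAG := by
  intro C T m C₀ R X ρ p e w f c hC hT hC₀ hF hK hlim M hM
  obtain ⟨g1, g2, g3, gX, -⟩ := hGAB T m R ρ p e hT hF
  obtain ⟨hX0, hX⟩ := gX C₀ X w f c hK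
  obtain ⟨t₁, ht₁, htail⟩ := hK.tail hlim M hM
  have hm0 : 0 ≤ m := by
    have h0 : (0 : ℝ) ∈ Ico 0 T := ⟨le_rfl, hT⟩
    rw [← hF.mass 0 h0]
    exact integral_nonneg_of_ae ((hF.pos 0 h0).mono fun a h => h.1)
  have hM0 : 0 < M := by linarith
  set Γ : ℝ → ℝ := Ga ρ p e with hΓ
  set E : ℝ := m * M * (X 0 + 2) + (X 0 + 2) ^ 2 with hE
  have hE0 : 0 ≤ E := by positivity
  refine ⟨4 * C * E + 1, by positivity, ?_⟩
  intro t0 ht0
  have hsM : 0 < Real.sqrt M := Real.sqrt_pos.2 hM0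
  -- the time after which `X t0` is small
  have hev1 : ∀ᶠ s in 𝓝[<] T, X t0 / (C₀ / Real.sqrt M) ≤ Γ s := hlim.eventually_ge_atTop _
  have hev2 : ∀ᶠ s in 𝓝[<] T, s ∈ Ico 0 T := by
    rw [← nhdsWithin_Ico_eq_nhdsLT hT]
    exact self_mem_nhdsWithin
  have hnb : (𝓝[<] T).NeBot := nhdsLT_neBot_of_exists_lt ⟨0, hT⟩
  obtain ⟨t2, h2a, h2b⟩ := (hev1.and hev2).exists
  refine ⟨max t0 (max t₁ t2), ⟨le_max_left _ _, max_lt ht0.2 (max_lt ht₁.2 h2b.2)⟩, ?_⟩
  intro s hs L F hL hF1 hFC hFL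
  have hst0 : t0 ≤ s := (le_max_left _ _).trans hs.1
  have hst1 : t₁ ≤ s := ((le_max_left _ _).trans (le_max_right _ _)).trans hs.1
  have hst2 : t2 ≤ s := ((le_max_right _ _).trans (le_max_right _ _)).trans hs.1
  have hsI : s ∈ Ico 0 T := ⟨ht0.1.trans hst0, hs.2⟩
  have hG1 : 1 ≤ Γ s := g1 s hsI
  have hΛ : 1 ≤ M * Γ s := by nlinarith
  set Λ : ℝ := M * Γ s with hΛd
  obtain ⟨ht1, ht2⟩ := htail s ⟨hst1, hs.2⟩
  have hfar := hFAR T m C₀ R X ρ p e w f c hF hK C L Λ F hL hΛ hC.le hF1 hFC hFL t0 s ht0.1 hst0 hs.2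
  have hlaw := hK.law Λ hΛ
  have hsubI : Icc t0 s ⊆ Ico 0 T := fun x hx => ⟨ht0.1.trans hx.1, lt_of_le_of_lt hx.2 hs.2⟩
  have hsub0 : Icc 0 s ⊆ Ico 0 T := fun x hx => ⟨hx.1, lt_of_le_of_lt hx.2 hs.2⟩
  -- the second term
  have hX2 : X t0 ≤ C₀ / Real.sqrt M * Γ s := by
    have h1 : X t0 / (C₀ / Real.sqrt M) ≤ Γ s := h2a.trans (g2 h2b hsI hst2)
    rw [div_le_iff₀ (by positivity)] at h1
    linarith
  -- the source
  have hcint : IntervalIntegrable (fun r => ‖c Λ r‖) volume 0 s := by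
    apply ContinuousOn.intervalIntegrable
    rw [uIcc_of_le hsI.1]
    exact (hlaw.cs.mono hsub0).norm
  have hc2 : (∫ r in t0..s, ‖c Λ r‖) ≤ C₀ / Real.sqrt M * Γ s := by
    refine le_trans ?_ ht2
    exact intervalIntegral.integral_mono_interval ht0.1 hst0 le_rfl
      (Eventually.of_forall fun r => norm_nonneg _) hcint
  -- the flux
  have hfcont : ContinuousOn (fun r => f Λ r) (Ico 0 T) := by
    have h1 := hlaw.cF.const_smul (4⁻¹ : ℝ)
    refine h1.congr fun r hr => ?_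
    simp [smul_smul]
  have hfl : (∫ r in t0..s, (m * ‖f Λ r‖ + ‖w Λ r‖ * ‖p r‖)) ≤ E * Γ s * ∫ r in t0..s, Γ r := by
    rw [← intervalIntegral.integral_const_mul]
    apply intervalIntegral.integral_mono_on hst0
    · apply ContinuousOn.intervalIntegrable
      rw [uIcc_of_le hst0]
      exact (continuousOn_const.mul (hfcont.mono hsubI).norm).add
        ((hlaw.cf.mono hsubI).norm.mul (hF.lawp.cf.mono hsubI).norm)
    · apply ContinuousOn.intervalIntegrable
      rw [uIcc_of_le hst0]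
      exact continuousOn_const.mul (g3.mono hsubI)
    · intro r hr
      have hrI := hsubI hr
      obtain ⟨hXr0, hXr⟩ := hX r hrI
      have hf1 := hK.hf Λ hΛ r hrI
      have hw1 := hK.hwX Λ hΛ r hrI
      have hp1 := hK.hp r hrI
      have hGr : 1 ≤ Γ r := g1 r hrI
      have hGrs : Γ r ≤ Γ s := g2 hrI hsI hr.2
      have k1 : m * ‖f Λ r‖ ≤ m * M * (X 0 + 2) * (Γ s * Γ r) := by
        calc m * ‖f Λ r‖ ≤ m * (Λ * ((X 0 + 2) * Γ r)) := by
              gcongr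
              exact hf1.trans (by gcongr)
          _ = m * M * (X 0 + 2) * (Γ s * Γ r) := by
              rw [hΛd]
              ring
      have k2 : ‖w Λ r‖ * ‖p r‖ ≤ (X 0 + 2) ^ 2 * (Γ s * Γ r) := by
        calc ‖w Λ r‖ * ‖p r‖ ≤ ((X 0 + 2) * Γ r) * ((X 0 + 2) * Γ r) := by
              gcongr
              · exact hw1.trans hXr
              · exact hp1.trans hXr
          _ = (X 0 + 2) ^ 2 * (Γ r * Γ r) := by ring
          _ ≤ (X 0 + 2) ^ 2 * (Γ s * Γ r) := by gcongr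
      calc m * ‖f Λ r‖ + ‖w Λ r‖ * ‖p r‖
          ≤ m * M * (X 0 + 2) * (Γ s * Γ r) + (X 0 + 2) ^ 2 * (Γ s * Γ r) := add_le_add k1 k2
        _ = E * Γ s * Γ r := by
          rw [hE]
          ring
  have hI0 : 0 ≤ ∫ r in t0..s, Γ r := intervalIntegral.integral_nonneg hst0 fun r hr =>
    zero_le_one.trans (g1 r (hsubI hr))
  have hG0 : 0 ≤ Γ s := zero_le_one.trans hG1
  have b1 : C * m * ‖p s - w Λ s‖ ≤ C * m * (C₀ / Real.sqrt M * Γ s) := by gcongr
  have b2 : C * m * X t0 ≤ C * m * (C₀ / Real.sqrt M * Γ s) := by gcongr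
  have b3 : C * m * (∫ r in t0..s, ‖c Λ r‖) ≤ C * m * (C₀ / Real.sqrt M * Γ s) := by gcongr
  have b4 : 4 * C / L * (∫ r in t0..s, (m * ‖f Λ r‖ + ‖w Λ r‖ * ‖p r‖)) ≤
      4 * C / L * (E * Γ s * ∫ r in t0..s, Γ r) := by gcongr
  have b5 : 0 ≤ 1 / L * (∫ r in t0..s, Γ r) * Γ s := by positivity
  calc |DD F (p s) (ρ s)| ≤ C * m * (C₀ / Real.sqrt M * Γ s) + C * m * (C₀ / Real.sqrt M * Γ s)
        + 4 * C / L * (E * Γ s * ∫ r in t0..s, Γ r) + C * m * (C₀ / Real.sqrt M * Γ s) := by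
        linarith
    _ ≤ C * m * (C₀ / Real.sqrt M * Γ s) + C * m * (C₀ / Real.sqrt M * Γ s)
        + 4 * C / L * (E * Γ s * ∫ r in t0..s, Γ r) + C * m * (C₀ / Real.sqrt M * Γ s)
        + 1 / L * (∫ r in t0..s, Γ r) * Γ s := by linarith
    _ = (3 * C * m * C₀ / Real.sqrt M + (4 * C * E + 1) / L * ∫ r in t0..s, Γ r) * Γ s := by ring

end Pool.Agent.Lib.MP424d38.ES
end
end

section
/-!
# MP_424d38_an, block ES, module FAR (the far part, one kernel, one cutoff)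
-/
set_option autoImplicit false

open MeasureTheory Filter Topology Set
open scoped ENNReal ContDiff ComplexConjugate

noncomputable section

namespace Pool.Agent.Lib.MP424d38.ES

open Pool.Agent.Lib.MP424d38.TY

namespace FARM

/-- a law without source -/
lemma toS {T : ℝ} {f F : ℝ → L1} (h : Law T f F) : LawS T f F (fun _ => 0) := by
  refine ⟨h.cf, h.cF, continuousOn_const, ?_⟩
  intro β hβ t t' h0 h1 h2
  rw [h.law β hβ t t' h0 h1 h2]
  apply intervalIntegral.integral_congr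
  intro r _
  show (∫ a, deriv β a * F r a) = (∫ a, deriv β a * F r a) + ∫ a, β a * (0 : L1) a
  have h3 : (∫ a, β a * (0 : L1) a) = 0 := by
    rw [integral_eq_zero_of_ae]
    filter_upwards [Lp.coeFn_zero (E := ℝ) (p := 1) (μ := (volume : Measure ℝ))] with a ha
    rw [ha]
    simp
  rw [h3, add_zero]

end FARM

open FARM UGBM

theorem specFAR (hPAS : SpecPAS) (hDDB : SpecDDB) (hFLB : SpecFLB) : SpecFAR := by
  intro T m C₀ R X ρ p e w f c hF hK C L Λ F hL hΛ hC hF1 hFb hFd t0 s h0 h1 h2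
  have hsI : s ∈ Ico 0 T := ⟨h0.trans h1, h2⟩
  have ht0I : t0 ∈ Ico 0 T := ⟨h0, h1.trans_lt h2⟩
  have hmρ : ∀ t ∈ Ico 0 T, ‖ρ t‖ = m := fun t ht => (hFLB T m R ρ p e hF t ht).2.1
  have hm : 0 ≤ m := (hFLB T m R ρ p e hF s hsI).1
  have hcF : Continuous F := cb1_cont hF1
  have hcF' : Continuous (deriv F) := hF1.1.continuous_deriv (by norm_num)
  have hCL : 0 ≤ C / L := by positivity
  have hlaw := hK.law Λ hΛ
  have hpas := hPAS T (w Λ) (fun t => (4:ℝ) • f Λ t) (c Λ) ρ (fun t => (4:ℝ) • p t) (fun _ => 0)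
    hlaw (toS hF.lawρ) F hF1 t0 s h0 h1 h2
  have h5 := hDDB.2.2.2.2 F C 0 hcF hFb
  have h5' := hDDB.2.2.2.2 (deriv F) (C / L) 4 hcF' hFd
  have hcf : ContinuousOn (f Λ) (Ico 0 T) := by
    have h := hlaw.cF.const_smul (1 / 4 : ℝ)
    refine h.congr fun t _ => ?_
    show f Λ t = (1 / 4 : ℝ) • (4:ℝ) • f Λ t
    rw [smul_smul]
    norm_num
  have hcw : ContinuousOn (w Λ) (Ico 0 T) := hlaw.cf
  have hcc : ContinuousOn (c Λ) (Ico 0 T) := hlaw.cs
  have hsub : Icc t0 s ⊆ Ico 0 T := Icc_sub h0 h2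
  -- split
  have e1 : DD F (p s) (ρ s) = DD F (p s - w Λ s) (ρ s) + DD F (w Λ s) (ρ s) := by
    rw [← (h5 (p s - w Λ s) (ρ s) (w Λ s)).1, sub_add_cancel]
  have b1 : |DD F (p s - w Λ s) (ρ s)| ≤ C * m * ‖p s - w Λ s‖ := by
    have h := (hDDB.1 F C hcF hFb (p s - w Λ s) (ρ s)).2
    rw [hmρ s hsI] at h
    linarith
  have b2 : |DD F (w Λ t0) (ρ t0)| ≤ C * m * X t0 := by
    have h := (hDDB.1 F C hcF hFb (w Λ t0) (ρ t0)).2
    rw [hmρ t0 ht0I] at h
    have h' := hK.hwX Λ hΛ t0 ht0I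
    calc _ ≤ C * ‖w Λ t0‖ * m := h
      _ = C * m * ‖w Λ t0‖ := by ring
      _ ≤ C * m * X t0 := mul_le_mul_of_nonneg_left h' (by positivity)
  have i1 : IntervalIntegrable (fun r => m * ‖f Λ r‖ + ‖w Λ r‖ * ‖p r‖) volume t0 s := by
    apply ContinuousOn.intervalIntegrable
    rw [uIcc_of_le h1]
    exact (((continuousOn_const.mul hcf.norm).add (hcw.norm.mul (cp hF).norm))).mono hsub
  have i2 : IntervalIntegrable (fun r => ‖c Λ r‖) volume t0 s := by
    apply ContinuousOn.intervalIntegrable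
    rw [uIcc_of_le h1]
    exact hcc.norm.mono hsub
  have b3 : |DD F (w Λ s) (ρ s) - DD F (w Λ t0) (ρ t0)|
      ≤ 4 * C / L * (∫ r in t0..s, (m * ‖f Λ r‖ + ‖w Λ r‖ * ‖p r‖))
        + C * m * ∫ r in t0..s, ‖c Λ r‖ := by
    rw [hpas, ← intervalIntegral.integral_const_mul, ← intervalIntegral.integral_const_mul,
      ← intervalIntegral.integral_add (i1.const_mul _) (i2.const_mul _), ← Real.norm_eq_abs]
    apply intervalIntegral.norm_integral_le_of_norm_le h1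
    · apply Eventually.of_forall
      intro r hr
      have hrI : r ∈ Ico 0 T := hsub ⟨hr.1.le, hr.2⟩
      have q1 := (hDDB.1 (deriv F) (C / L) hcF' hFd (f Λ r) (ρ r)).2
      have q2 := (hDDB.1 (deriv F) (C / L) hcF' hFd (w Λ r) (p r)).2
      have q3 := (hDDB.1 F C hcF hFb (c Λ r) (ρ r)).2
      have q4 : |DD F (w Λ r) 0| ≤ 0 := by
        have h := (hDDB.1 F C hcF hFb (w Λ r) 0).2
        rwa [norm_zero, mul_zero] at h
      rw [hmρ r hrI] at q1 q3
      have e2 : DD (deriv F) ((4:ℝ) • f Λ r) (ρ r) = 4 * DD (deriv F) (f Λ r) (ρ r) :=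
        (h5' (f Λ r) (ρ r) 0).2.2.1
      have e3 : DD (deriv F) (w Λ r) ((4:ℝ) • p r) = 4 * DD (deriv F) (w Λ r) (p r) :=
        (h5' (w Λ r) (p r) 0).2.2.2
      show ‖DD (deriv F) ((4:ℝ) • f Λ r) (ρ r) - DD (deriv F) (w Λ r) ((4:ℝ) • p r)
        + DD F (c Λ r) (ρ r) + DD F (w Λ r) 0‖ ≤ _
      rw [e2, e3, Real.norm_eq_abs, abs_le]
      have a1 := abs_le.1 q1
      have a2 := abs_le.1 q2
      have a3 := abs_le.1 q3
      have a4 := abs_le.1 q4
      have e4 : 4 * C / L * (m * ‖f Λ r‖ + ‖w Λ r‖ * ‖p r‖) + C * m * ‖c Λ r‖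
          = 4 * (C / L * ‖f Λ r‖ * m) + 4 * (C / L * ‖w Λ r‖ * ‖p r‖) + C * ‖c Λ r‖ * m := by
        ring
      rw [e4]
      constructor <;> linarith [a1.1, a1.2, a2.1, a2.2, a3.1, a3.2, a4.1, a4.2]
    · exact (i1.const_mul _).add (i2.const_mul _)
  rw [e1]
  have a1 := abs_le.1 b1
  have a2 := abs_le.1 b2
  have a3 := abs_le.1 b3
  rw [abs_le]
  constructor <;> linarith [a1.1, a1.2, a2.1, a2.2, a3.1, a3.2]

end Pool.Agent.Lib.MP424d38.ES
end
end

section
/-!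
# MP_424d38_an, block ES, module GAB (basic facts on `Γ`)
-/
set_option autoImplicit false

open MeasureTheory Filter Topology Set
open scoped ENNReal ContDiff ComplexConjugate

noncomputable section

namespace Pool.Agent.Lib.MP424d38.ES

open Pool.Agent.Lib.MP424d38.TY

theorem specGAB (hUGB : SpecUGB) : SpecGAB := by
  intro T m R ρ p e hT hF
  obtain ⟨hg, -⟩ := hUGB T m R ρ p e hF
  have h0T : (0:ℝ) ∈ Ico 0 T := ⟨le_rfl, hT⟩
  have hgI : ∀ t ∈ Ico 0 T, IntervalIntegrable (gF ρ p e) volume 0 t := by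
    intro t ht
    rw [intervalIntegrable_iff_integrableOn_Icc_of_le ht.1]
    exact (hg t ht).2
  have hone : ∀ t ∈ Ico 0 T, 1 ≤ Ga ρ p e t := by
    intro t ht
    have : 0 ≤ ∫ r in (0:ℝ)..t, gF ρ p e r := by
      apply intervalIntegral.integral_nonneg ht.1
      intro r hr
      exact (hg r ⟨hr.1, hr.2.trans_lt ht.2⟩).1
    unfold Ga
    linarith
  have hmono : MonotoneOn (Ga ρ p e) (Ico 0 T) := by
    intro s hs t ht hst
    have h1 : (∫ r in (0:ℝ)..s, gF ρ p e r) ≤ ∫ r in (0:ℝ)..t, gF ρ p e r := by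
      apply intervalIntegral.integral_mono_interval le_rfl hs.1 hst _ (hgI t ht)
      rw [EventuallyLE, ae_restrict_iff' measurableSet_Ioc]
      apply Eventually.of_forall
      intro r hr
      exact (hg r ⟨hr.1.le, hr.2.trans_lt ht.2⟩).1
    unfold Ga
    linarith
  have hcontI : ∀ t ∈ Ico 0 T, ContinuousOn (Ga ρ p e) (Icc 0 t) := by
    intro t ht
    have h1 := intervalIntegral.continuousOn_primitive_interval
      (f := gF ρ p e) (a := 0) (b := t) (μ := volume) (by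
        rw [uIcc_of_le ht.1]
        exact (hg t ht).2)
    rw [uIcc_of_le ht.1] at h1
    exact continuousOn_const.add h1
  have hcont : ContinuousOn (Ga ρ p e) (Ico 0 T) := by
    intro x hx
    have hy : (x + T) / 2 ∈ Ico 0 T := ⟨by linarith [hx.1, hx.2], by linarith [hx.2]⟩
    have hxy : x ∈ Icc 0 ((x + T) / 2) := ⟨hx.1, by linarith [hx.2]⟩
    have h1 := hcontI _ hy x hxy
    refine h1.mono_of_mem_nhdsWithin ?_
    rw [mem_nhdsWithin]
    refine ⟨Iio ((x + T) / 2), isOpen_Iio, by simp only [mem_Iio]; linarith [hx.2], ?_⟩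
    intro z hz
    exact ⟨hz.2.1, hz.1.le⟩
  refine ⟨hone, hmono, hcont, ?_, ?_⟩
  · intro C₀ X w f c hK
    have hX0 : ∀ t ∈ Ico 0 T, 0 ≤ X t := fun t ht => (norm_nonneg _).trans (hK.hp t ht)
    refine ⟨hX0 0 h0T, fun t ht => ⟨hX0 t ht, ?_⟩⟩
    have h1 := hK.hX t ht
    have h2 := hone t ht
    have h3 := hX0 0 h0T
    nlinarith
  · intro B t ht hB
    have hTt : 0 < T - t := by linarith [ht.2]
    have hbm : ∀ i : ℕ, t ≤ T - (T - t) / ((i : ℝ) + 1) ∧ T - (T - t) / ((i : ℝ) + 1) < T := by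
      intro i
      have hi : (0:ℝ) < (i : ℝ) + 1 := by positivity
      have h1 : (T - t) / ((i : ℝ) + 1) ≤ T - t := by
        rw [div_le_iff₀ hi]
        nlinarith [Nat.cast_nonneg (α := ℝ) i]
      have h2 : 0 < (T - t) / ((i : ℝ) + 1) := by positivity
      constructor <;> linarith
    have hint : ∀ t' ∈ Ico t T, IntegrableOn (Ga ρ p e) (Icc t t') := by
      intro t' ht'
      refine ContinuousOn.integrableOn_Icc (hcont.mono ?_)
      intro z hz
      exact ⟨ht.1.trans hz.1, hz.2.trans_lt ht'.2⟩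
    have h1 : IntegrableOn (Ga ρ p e) (Ioc t T) := by
      apply MeasureTheory.integrableOn_Ioc_of_intervalIntegral_norm_bounded (l := atTop)
        (a := fun _ : ℕ => t) (b := fun i : ℕ => T - (T - t) / ((i : ℝ) + 1)) (I := B)
      · intro i
        exact (hint _ ⟨(hbm i).1, (hbm i).2⟩).mono_set Ioc_subset_Icc_self
      · exact tendsto_const_nhds
      · have h2 : Tendsto (fun i : ℕ => T - (T - t) * (1 / ((i : ℝ) + 1))) atTop
            (𝓝 (T - (T - t) * 0)) :=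
          (tendsto_one_div_add_atTop_nhds_zero_nat.const_mul (T - t)).const_sub T
        rw [mul_zero, sub_zero] at h2
        refine h2.congr fun i => ?_
        ring
      · apply Eventually.of_forall
        intro i
        have h3 := hB _ ⟨(hbm i).1, (hbm i).2⟩
        rw [intervalIntegral.integral_of_le (hbm i).1] at h3
        refine le_trans (le_of_eq ?_) h3
        apply setIntegral_congr_fun measurableSet_Ioc
        intro z hz
        have h4 := hone z ⟨ht.1.trans hz.1.le, hz.2.trans_lt (hbm i).2⟩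
        show ‖Ga ρ p e z‖ = Ga ρ p e z
        rw [Real.norm_eq_abs, abs_of_nonneg (by linarith)]
    have h2 : IntegrableOn (Ga ρ p e) (Icc 0 t) := (hcontI t ht).integrableOn_Icc
    refine (h2.union h1).mono_set ?_
    intro z hz
    rcases le_or_gt z t with h | h
    · exact Or.inl ⟨hz.1, h⟩
    · exact Or.inr ⟨h, hz.2.le⟩

end Pool.Agent.Lib.MP424d38.ES
end
end

section
/-!
# Block ES, module NEA: the far part is not small
-/
set_option autoImplicit false

open MeasureTheory Filter Topology Set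
open scoped ENNReal ContDiff ComplexConjugate

noncomputable section

namespace Pool.Agent.Lib.MP424d38.ES

open Pool.Agent.Lib.MP424d38.TY

namespace NEAM

theorem phi_bd (hHCF : TY.SpecHCF) {L : ℝ} (hL : 0 < L) : Continuous (phi L) ∧ ∀ x, |phi L x| ≤ 2 * L := by
  obtain ⟨h1, h2, _, h4, _, _, _⟩ := hHCF
  refine ⟨?_, fun x => ?_⟩
  · exact continuous_abs.mul (h1.continuous.comp (continuous_id.div_const L))
  · unfold phi
    rw [abs_mul, abs_abs, abs_of_nonneg (h2 _).1]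
    by_cases hx : 2 * L ≤ |x|
    · have : 2 ≤ |x / L| := by
        rw [abs_div, abs_of_pos hL, le_div_iff₀ hL]
        exact hx
      rw [h4 _ this, mul_zero]
      linarith
    · push Not at hx
      calc |x| * hc (x / L) ≤ |x| * 1 := mul_le_mul_of_nonneg_left (h2 _).2 (abs_nonneg _)
        _ ≤ 2 * L := by linarith

end NEAM

open CORM NEAM in
theorem specNEA (hLBG : SpecLBG) (hCOR : SpecCOR) (hGAB : SpecGAB) (hDDB : TY.SpecDDB) (hHCF : TY.SpecHCF)
    (hFLB : TY.SpecFLB) : SpecNEA := by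
  obtain ⟨C, hC, hLB⟩ := hLBG
  refine ⟨C, hC, ?_⟩
  intro T m C₀ R X ρ p e w f c hT hC₀ hF hK hΓ L hL hev
  apply hCOR T m C₀ R X ρ p e w f c hT hC₀ hF hK hΓ
  obtain ⟨_, _, _, _, hint⟩ := hGAB T m R ρ p e hT hF
  obtain ⟨t1, ht1, hker⟩ := ev hT hev
  obtain ⟨t3, ht3, hbig⟩ := ev hT (big hΓ (64 + 8 * m * ‖p 0‖))
  have htT : max t1 t3 < T := max_lt ht1.2 ht3.2
  have ht : 0 ≤ max t1 t3 := ht1.1.trans (le_max_left _ _)
  have hD : ∀ s ∈ Ico 0 T, |DD (phi L) (ρ s) (ρ s)| ≤ 2 * L * m * m := by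
    intro s hs
    have h := (hDDB.1 (phi L) (2 * L) (phi_bd hHCF hL).1 (phi_bd hHCF hL).2 (ρ s) (ρ s)).2
    rw [(hFLB T m R ρ p e hF s hs).2.1] at h
    exact h
  refine hint (4 * L * m * m / 40) (max t1 t3) ⟨ht, htT⟩ fun t' ht' => ?_
  have h1 := low hLB hGAB hT hF hL ht ht'.1 ht'.2 (fun s hs => hker s
    ⟨(le_max_left _ _).trans hs.1, lt_of_le_of_lt hs.2 ht'.2⟩) (hbig _ ⟨le_max_right _ _, htT⟩)
  have h2 := abs_le.1 (hD t' ⟨ht.trans ht'.1, ht'.2⟩)
  have h3 := abs_le.1 (hD _ ⟨ht, htT⟩)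
  rw [le_div_iff₀ (by norm_num)]
  linarith [h2.2, h3.1]

end Pool.Agent.Lib.MP424d38.ES
end
end
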