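import Pool.Agent.Lib.MP_424d38_an.ES.SpecG
import Pool.Agent.Lib.MP_424d38_an.ZER

/-!
# Block ES, module DN1: approximation of `H¹(ℝ)` functions by test functions

Frequency side: `(1+ξ²)^{1/2} ĥ ∈ L²` is approximated by Schwartz functions; cut off; uniform convergence from GN1.
-/

set_option autoImplicit false

open MeasureTheory Filter Topology Set SchwartzMap
open scoped ENNReal ContDiff ComplexConjugate FourierTransform

noncomputable section

namespace Pool.Agent.Lib.MP424d38.ES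

open Pool.Agent.Lib.MP424d38.TY

namespace DN1M

/-- the weight `(1+ξ²)^{1/2}` -/
def w (ξ : ℝ) : ℝ := (1 + ‖ξ‖ ^ 2) ^ (1 / 2 : ℝ)

def wi (ξ : ℝ) : ℝ := (1 + ‖ξ‖ ^ 2) ^ (-(1 / 2) : ℝ)

lemma w_wi (ξ : ℝ) : wi ξ * w ξ = 1 := by
  have h : (0 : ℝ) < 1 + ‖ξ‖ ^ 2 := by positivity
  rw [wi, w, ← Real.rpow_add h]
  norm_num

lemma w_pos (ξ : ℝ) : 0 < w ξ := by
  unfold w
  positivity

lemma wi_pos (ξ : ℝ) : 0 < wi ξ := by
  unfold wi
  positivity

lemma w_sq (ξ : ℝ) : w ξ ^ 2 = 1 + ξ ^ 2 := by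
  have h : (0 : ℝ) ≤ 1 + ‖ξ‖ ^ 2 := by positivity
  rw [w, ← Real.rpow_natCast, ← Real.rpow_mul h]
  norm_num

lemma one_le_w (ξ : ℝ) : 1 ≤ w ξ := by
  have h := w_sq ξ
  have h1 := w_pos ξ
  nlinarith [sq_nonneg ξ]

lemma abs_le_w (ξ : ℝ) : |ξ| ≤ w ξ := by
  have h := w_sq ξ
  have h1 := w_pos ξ
  exact abs_le_of_sq_le_sq (by linarith) h1.le

lemma w_le (ξ : ℝ) : w ξ ≤ 1 + |ξ| := by
  have h := w_sq ξ
  have h1 := w_pos ξ
  have h2 : w ξ ^ 2 ≤ (1 + |ξ|) ^ 2 := by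
    rw [h]
    nlinarith [abs_nonneg ξ, sq_abs ξ]
  exact (sq_le_sq₀ h1.le (by positivity)).1 h2

lemma wi_tg : Function.HasTemperateGrowth wi :=
  Function.hasTemperateGrowth_one_add_norm_sq_rpow (H := ℝ) (-(1 / 2))

lemma w_tg : Function.HasTemperateGrowth w :=
  Function.hasTemperateGrowth_one_add_norm_sq_rpow (H := ℝ) (1 / 2)

lemma F_sub (a b : L2R) : 𝓕 (a - b) = 𝓕 a - 𝓕 b := (Lp.fourierTransformₗᵢ ℝ ℂ).map_sub a b

lemma F_smul (c : ℂ) (a : L2R) : 𝓕 (c • a) = c • 𝓕 a := (Lp.fourierTransformₗᵢ ℝ ℂ).map_smul c a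

/-- Schwartz approximation -/
lemma schw {h d : L2R} (hd : IsM (fun l => l) h d) {ε : ℝ} (hε : 0 < ε) :
    ∃ f : 𝓢(ℝ, ℂ), ‖f.toLp 2 volume - h‖ ≤ ε ∧
      ‖(SchwartzMap.derivCLM ℂ ℂ f).toLp 2 volume - Complex.I • d‖ ≤ ε := by
  set H : L2R := 𝓕 h with hH
  have hgm : MemLp (fun ξ => (w ξ : ℂ) * H ξ) 2 volume := by
    have h1 : MemLp (fun ξ => ‖H ξ‖ + ‖(𝓕 d : L2R) ξ‖) 2 volume :=
      (Lp.memLp H).norm.add (Lp.memLp (𝓕 d : L2R)).norm
    refine h1.mono ?_ ?_
    · have hwc : Continuous w := w_tg.1.continuous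
      exact (Complex.continuous_ofReal.comp hwc).aestronglyMeasurable.mul
        (Lp.aestronglyMeasurable H)
    · filter_upwards [hd] with ξ hξ
      rw [hξ, Real.norm_of_nonneg (by positivity)]
      rw [norm_mul, norm_mul, Complex.norm_real, Complex.norm_real,
        Real.norm_of_nonneg (w_pos ξ).le, Real.norm_eq_abs, abs_mul,
        abs_of_pos (by positivity : (0 : ℝ) < 2 * Real.pi)]
      have h2 := w_le ξ
      have h3 : |ξ| ≤ 2 * Real.pi * |ξ| := by
        have := Real.pi_gt_three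
        nlinarith [abs_nonneg ξ]
      nlinarith [norm_nonneg (H ξ)]
  set G : L2R := hgm.toLp with hG
  have hGae : ∀ᵐ ξ : ℝ, G ξ = (w ξ : ℂ) * H ξ := hgm.coeFn_toLp
  obtain ⟨κ, hκ⟩ : ∃ κ : 𝓢(ℝ, ℂ), ‖κ.toLp 2 volume - G‖ ≤ ε / (2 * Real.pi) := by
    have hdr := SchwartzMap.denseRange_toLpCLM (E := ℝ) (F := ℂ) (μ := volume) (p := 2)
      ENNReal.ofNat_ne_top
    have hpos : 0 < ε / (2 * Real.pi) := by positivity
    obtain ⟨κ, hκ⟩ := hdr.exists_dist_lt G hpos
    refine ⟨κ, ?_⟩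
    rw [← dist_eq_norm, dist_comm]
    exact hκ.le
  set H' : 𝓢(ℝ, ℂ) := SchwartzMap.smulLeftCLM ℂ wi κ with hH'
  set f : 𝓢(ℝ, ℂ) := 𝓕⁻ H' with hf
  have hFf : 𝓕 f = H' := by
    rw [hf]
    exact FourierTransform.fourier_fourierInv_eq H'
  have hH'a : ∀ ξ, H' ξ = (wi ξ : ℂ) * κ ξ := by
    intro ξ
    rw [hH', SchwartzMap.smulLeftCLM_apply_apply wi_tg]
    simp
  have hdiff : ∀ᵐ ξ : ℝ, H' ξ - H ξ = (wi ξ : ℂ) * ((κ.toLp 2 volume : L2R) - G : L2R) ξ := by
    filter_upwards [hGae, κ.coeFn_toLp 2 volume, Lp.coeFn_sub (κ.toLp 2 volume : L2R) G] with ξ h1 h2 h3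
    rw [h3, Pi.sub_apply, h1, h2, hH'a, mul_sub, ← mul_assoc, ← Complex.ofReal_mul, w_wi]
    simp
  have hpi := Real.pi_gt_three
  refine ⟨f, ?_, ?_⟩
  · have h1 : ‖f.toLp 2 volume - h‖ = ‖(H'.toLp 2 volume : L2R) - H‖ := by
      rw [← Lp.norm_fourier_eq (f.toLp 2 volume - h : L2R), F_sub, SchwartzMap.toLp_fourier_eq, hFf]
    rw [h1]
    refine le_trans (Lp.norm_le_norm_of_ae_le (g := ((κ.toLp 2 volume : L2R) - G : L2R)) ?_) ?_
    · filter_upwards [hdiff, H'.coeFn_toLp 2 volume, Lp.coeFn_sub (H'.toLp 2 volume : L2R) H]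
        with ξ h2 h3 h4
      rw [h4, Pi.sub_apply, h3, h2, norm_mul, Complex.norm_real,
        Real.norm_of_nonneg (wi_pos ξ).le]
      have h5 : wi ξ ≤ 1 := by
        have := w_wi ξ
        have := one_le_w ξ
        have := wi_pos ξ
        nlinarith
      exact mul_le_of_le_one_left (norm_nonneg _) h5
    · refine hκ.trans ?_
      rw [div_le_iff₀ (by positivity)]
      nlinarith
  · have h1 : ‖(SchwartzMap.derivCLM ℂ ℂ f).toLp 2 volume - Complex.I • d‖ =
        ‖((𝓕 (SchwartzMap.derivCLM ℂ ℂ f)).toLp 2 volume : L2R) - Complex.I • 𝓕 d‖ := by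
      rw [← Lp.norm_fourier_eq ((SchwartzMap.derivCLM ℂ ℂ f).toLp 2 volume - Complex.I • d : L2R),
        F_sub, SchwartzMap.toLp_fourier_eq, F_smul]
    have h2 : ∀ ξ : ℝ, 𝓕 (SchwartzMap.derivCLM ℂ ℂ f) ξ = (2 * Real.pi * Complex.I * ξ) * H' ξ := by
      intro ξ
      rw [← hFf, SchwartzMap.fourier_coe, SchwartzMap.fourier_coe]
      have h3 := Real.fourier_deriv (f := (f : ℝ → ℂ)) f.integrable
        (fun x => (f.hasDerivAt x).differentiableAt)
        (by
          have := (SchwartzMap.derivCLM ℂ ℂ f).integrable (μ := volume)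
          exact this)
      have h4 := congrFun h3 ξ
      rw [smul_eq_mul] at h4
      exact h4
    rw [h1]
    refine le_trans (Lp.norm_le_mul_norm_of_ae_le_mul (c := 2 * Real.pi)
      (g := ((κ.toLp 2 volume : L2R) - G : L2R)) ?_) ?_
    · filter_upwards [hdiff, (𝓕 (SchwartzMap.derivCLM ℂ ℂ f)).coeFn_toLp 2 volume,
        Lp.coeFn_sub ((𝓕 (SchwartzMap.derivCLM ℂ ℂ f)).toLp 2 volume : L2R) (Complex.I • 𝓕 d),
        Lp.coeFn_smul Complex.I (𝓕 d : L2R), hd] with ξ h3 h4 h5 h6 h7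
      rw [h5, Pi.sub_apply, h4, h2, h6, Pi.smul_apply, h7]
      have e : (2 * Real.pi * Complex.I * ξ) * H' ξ -
          Complex.I • (((2 * Real.pi * ξ : ℝ) : ℂ) * H ξ) =
          (2 * Real.pi * Complex.I * ξ) * (H' ξ - H ξ) := by
        rw [smul_eq_mul]
        push_cast
        ring
      rw [e, h3, norm_mul (2 * Real.pi * Complex.I * ξ : ℂ), norm_mul ((wi ξ : ℝ) : ℂ),
        Complex.norm_real, Real.norm_of_nonneg (wi_pos ξ).le]
      have e2 : ‖(2 * Real.pi * Complex.I * ξ : ℂ)‖ = 2 * Real.pi * |ξ| := by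
        simp [abs_of_pos Real.pi_pos]
      rw [e2]
      have h8 : |ξ| * wi ξ ≤ 1 := by
        have := w_wi ξ
        have := abs_le_w ξ
        have := wi_pos ξ
        nlinarith
      have h9 := norm_nonneg ((((κ.toLp 2 volume : L2R) - G : L2R) : ℝ → ℂ) ξ)
      calc 2 * Real.pi * |ξ| * (wi ξ * ‖(((κ.toLp 2 volume : L2R) - G : L2R) : ℝ → ℂ) ξ‖)
          = (|ξ| * wi ξ) * (2 * Real.pi * ‖(((κ.toLp 2 volume : L2R) - G : L2R) : ℝ → ℂ) ξ‖) := by ring
        _ ≤ 1 * (2 * Real.pi * ‖(((κ.toLp 2 volume : L2R) - G : L2R) : ℝ → ℂ) ξ‖) :=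
          mul_le_mul_of_nonneg_right h8 (by positivity)
        _ = _ := one_mul _
    · calc 2 * Real.pi * ‖(κ.toLp 2 volume : L2R) - G‖ ≤ 2 * Real.pi * (ε / (2 * Real.pi)) := by gcongr
        _ = ε := by field_simp

/-- dominated convergence for bounded multipliers -/
lemma dct {a : ℕ → ℝ → ℝ} {g : ℝ → ℂ} {K : ℝ} (ha : ∀ n, Continuous (a n))
    (hK : ∀ n b, |a n b| ≤ K) (hl : ∀ b, Tendsto (fun n => a n b) atTop (𝓝 0))
    (hg : MemLp g 2 volume) :
    Tendsto (fun n => eLpNorm (fun b => ((a n b : ℝ) : ℂ) * g b) 2 volume) atTop (𝓝 0) := by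
  have e : ∀ n, eLpNorm (fun b => ((a n b : ℝ) : ℂ) * g b) 2 volume =
      (∫⁻ b, ‖((a n b : ℝ) : ℂ) * g b‖ₑ ^ (2 : ℝ)) ^ (1 / (2 : ℝ)) := by
    intro n
    rw [eLpNorm_eq_lintegral_rpow_enorm_toReal (by norm_num) (by norm_num)]
    norm_num
  simp only [e]
  have hlin : Tendsto (fun n => ∫⁻ b, ‖((a n b : ℝ) : ℂ) * g b‖ₑ ^ (2 : ℝ)) atTop
      (𝓝 (∫⁻ _ : ℝ, 0)) := by
    refine tendsto_lintegral_of_dominated_convergence'
      (fun b => ENNReal.ofReal K ^ (2 : ℝ) * ‖g b‖ₑ ^ (2 : ℝ)) ?_ ?_ ?_ ?_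
    · intro n
      have h1 : AEStronglyMeasurable (fun b => ((a n b : ℝ) : ℂ) * g b) volume :=
        (Complex.continuous_ofReal.comp (ha n)).aestronglyMeasurable.mul hg.1
      exact h1.enorm.pow_const _
    · intro n
      refine Eventually.of_forall fun b => ?_
      show ‖((a n b : ℝ) : ℂ) * g b‖ₑ ^ (2 : ℝ) ≤ ENNReal.ofReal K ^ (2 : ℝ) * ‖g b‖ₑ ^ (2 : ℝ)
      rw [← ENNReal.mul_rpow_of_nonneg _ _ (by norm_num : (0 : ℝ) ≤ 2)]
      refine ENNReal.rpow_le_rpow ?_ (by norm_num)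
      rw [enorm_mul]
      refine mul_le_mul_left (?_ : ‖((a n b : ℝ) : ℂ)‖ₑ ≤ ENNReal.ofReal K) _
      rw [← ofReal_norm_eq_enorm, Complex.norm_real, Real.norm_eq_abs]
      exact ENNReal.ofReal_le_ofReal (hK n b)
    · rw [lintegral_const_mul' _ _ (by simp)]
      refine ENNReal.mul_ne_top (by simp) ?_
      have h2 := lintegral_rpow_enorm_lt_top_of_eLpNorm_lt_top (p := 2) (by norm_num) (by norm_num)
        hg.2
      norm_num at h2
      exact_mod_cast h2.ne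
    · refine Eventually.of_forall fun b => ?_
      have h1 : Tendsto (fun n => ((a n b : ℝ) : ℂ) * g b) atTop (𝓝 (((0 : ℝ) : ℂ) * g b)) :=
        ((Complex.continuous_ofReal.tendsto _).comp (hl b)).mul_const _
      rw [Complex.ofReal_zero, zero_mul] at h1
      have h2 := (continuous_enorm.tendsto (0 : ℂ)).comp h1
      rw [enorm_zero] at h2
      have h3 := (ENNReal.continuous_rpow_const (y := (2 : ℝ))).tendsto (0 : ℝ≥0∞) |>.comp h2
      rw [ENNReal.zero_rpow_of_pos (by norm_num)] at h3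
      exact h3
  rw [lintegral_zero] at hlin
  have h3 := (ENNReal.continuous_rpow_const (y := (1 / 2 : ℝ))).tendsto (0 : ℝ≥0∞) |>.comp hlin
  rw [ENNReal.zero_rpow_of_pos (by norm_num)] at h3
  exact h3

/-- cutting off a Schwartz function -/
lemma cut (f : 𝓢(ℝ, ℂ)) {ε : ℝ≥0∞} (hε : 0 < ε) : ∃ ψ : ℝ → ℂ, ContDiff ℝ ∞ ψ ∧
    HasCompactSupport ψ ∧ eLpNorm (fun b => ψ b - f b) 2 volume ≤ ε ∧
    eLpNorm (fun b => deriv ψ b - deriv f b) 2 volume ≤ ε := by
  let χ : ContDiffBump (0 : ℝ) := ⟨1, 2, one_pos, one_lt_two⟩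
  have hχs : ContDiff ℝ ∞ χ := χ.contDiff
  have hχc : HasCompactSupport χ := χ.hasCompactSupport
  have hχd : Continuous (deriv χ) := hχs.continuous_deriv (by simp)
  obtain ⟨C, hC⟩ := hχd.bounded_above_of_compact_support hχc.deriv
  have hC0 : 0 ≤ C := (norm_nonneg _).trans (hC 0)
  have hpos : ∀ n : ℕ, (0 : ℝ) < n + 1 := fun n => by positivity
  set a : ℕ → ℝ → ℝ := fun n b => χ (b / (n + 1)) - 1 with ha
  set c : ℕ → ℝ → ℝ := fun n b => deriv χ (b / (n + 1)) / (n + 1) with hc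
  have hdiv : ∀ b : ℝ, Tendsto (fun n : ℕ => b / ((n : ℝ) + 1)) atTop (𝓝 0) := by
    intro b
    have := (tendsto_one_div_add_atTop_nhds_zero_nat (𝕜 := ℝ)).const_mul b
    rw [mul_zero] at this
    refine this.congr fun n => ?_
    ring
  have hac : ∀ n, Continuous (a n) := fun n => by
    have := hχs.continuous
    simp only [ha]
    fun_prop
  have hcc : ∀ n, Continuous (c n) := fun n => by
    simp only [hc]
    exact (hχd.comp (by fun_prop)).div_const _
  have hχ0 : χ 0 = 1 := χ.one_of_mem_closedBall (by simp [χ])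
  have hat : ∀ b, Tendsto (fun n => a n b) atTop (𝓝 0) := by
    intro b
    have h1 := ((hχs.continuous.tendsto 0).comp (hdiv b)).sub_const 1
    rw [hχ0, sub_self] at h1
    exact h1
  have hct : ∀ b, Tendsto (fun n => c n b) atTop (𝓝 0) := by
    intro b
    have h1 := ((hχd.tendsto 0).comp (hdiv b)).mul (tendsto_one_div_add_atTop_nhds_zero_nat (𝕜 := ℝ))
    rw [mul_zero] at h1
    refine h1.congr fun n => ?_
    simp only [hc, Function.comp]
    ring
  have hab : ∀ n b, |a n b| ≤ 1 := by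
    intro n b
    have h1 := χ.nonneg (x := b / ((n : ℝ) + 1))
    have h2 := χ.le_one (x := b / ((n : ℝ) + 1))
    simp only [ha]
    rw [abs_le]
    constructor <;> linarith
  have hcb : ∀ n b, |c n b| ≤ C := by
    intro n b
    simp only [hc]
    rw [abs_div, abs_of_pos (hpos n), div_le_iff₀ (hpos n)]
    have h1 := hC (b / ((n : ℝ) + 1))
    rw [Real.norm_eq_abs] at h1
    have h2 : (0 : ℝ) ≤ n := Nat.cast_nonneg n
    nlinarith
  set ψ : ℕ → ℝ → ℂ := fun n b => ((χ (b / (n + 1)) : ℝ) : ℂ) * f b with hψ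
  have hψd : ∀ n b, deriv (ψ n) b - deriv f b =
      ((a n b : ℝ) : ℂ) * deriv f b + ((c n b : ℝ) : ℂ) * f b := by
    intro n b
    have h1 : HasDerivAt (fun b => χ (b / ((n : ℝ) + 1))) (deriv χ (b / (n + 1)) * (1 / (n + 1))) b :=
      ((hχs.differentiable (by simp)).differentiableAt.hasDerivAt).comp b
        ((hasDerivAt_id b).div_const _)
    have h2 : HasDerivAt (ψ n) (((deriv χ (b / (n + 1)) * (1 / (n + 1)) : ℝ) : ℂ) * f b +
        ((χ (b / (n + 1)) : ℝ) : ℂ) * deriv f b) b := h1.ofReal_comp.mul (f.hasDerivAt b)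
    rw [h2.deriv]
    simp only [ha, hc]
    push_cast
    ring
  have hf : MemLp (f : ℝ → ℂ) 2 volume := f.memLp 2 volume
  have hf' : MemLp (deriv f) 2 volume := (SchwartzMap.derivCLM ℂ ℂ f).memLp 2 volume
  have l1 := dct hac hab hat hf
  have l2 := dct hac hab hat hf'
  have l3 := dct hcc hcb hct hf
  have l4 := l2.add l3
  rw [add_zero] at l4
  obtain ⟨n, h1, h4⟩ := ((l1.eventually (ge_mem_nhds hε)).and
    (l4.eventually (ge_mem_nhds hε))).exists
  refine ⟨ψ n, ?_, ?_, ?_, ?_⟩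
  · have h5 : ContDiff ℝ ∞ fun b : ℝ => χ (b / ((n : ℝ) + 1)) :=
      hχs.comp (contDiff_id.div_const _)
    exact (Complex.ofRealCLM.contDiff.comp h5).mul f.smooth'
  · have h5 : HasCompactSupport fun b : ℝ => χ (b / ((n : ℝ) + 1)) := by
      have h6 := hχc.comp_homeomorph (Homeomorph.mulRight₀ (((n : ℝ) + 1)⁻¹)
        (inv_ne_zero (hpos n).ne'))
      exact h6
    refine h5.mono ?_
    intro x hx
    rw [Function.mem_support] at hx ⊢
    intro h0
    exact hx (by simp only [hψ, h0]; simp)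
  · refine le_trans (le_of_eq (eLpNorm_congr_ae (Eventually.of_forall fun b => ?_))) h1
    simp only [hψ, ha]
    push_cast
    ring
  · refine le_trans ?_ h4
    have h5 : (fun b => deriv (ψ n) b - deriv f b) =
        (fun b => ((a n b : ℝ) : ℂ) * deriv f b) + fun b => ((c n b : ℝ) : ℂ) * f b := by
      funext b
      exact hψd n b
    rw [h5]
    exact eLpNorm_add_le ((Complex.continuous_ofReal.comp (hac n)).aestronglyMeasurable.mul hf'.1)
      ((Complex.continuous_ofReal.comp (hcc n)).aestronglyMeasurable.mul hf.1) (by norm_num)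

/-- test functions close to `h` in `H¹` -/
lemma one {h d : L2R} (hd : IsM (fun l => l) h d) {ε : ℝ} (hε : 0 < ε) : ∃ ψ : ℝ → ℂ,
    ContDiff ℝ ∞ ψ ∧ HasCompactSupport ψ ∧
    eLpNorm (fun b => ψ b - h b) 2 volume ≤ ENNReal.ofReal ε ∧
    eLpNorm (fun b => deriv ψ b - Complex.I * d b) 2 volume ≤ ENNReal.ofReal ε := by
  obtain ⟨f, h1, h2⟩ := schw hd (half_pos hε)
  obtain ⟨ψ, hψ, hψc, h3, h4⟩ := cut f (ε := ENNReal.ofReal (ε / 2)) (by simp [hε])
  have hdc : Continuous (deriv ψ) := hψ.continuous_deriv (by simp)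
  have e : ENNReal.ofReal ε = ENNReal.ofReal (ε / 2) + ENNReal.ofReal (ε / 2) := by
    rw [← ENNReal.ofReal_add (by positivity) (by positivity)]
    congr 1
    ring
  have h5 : eLpNorm (fun b => f b - h b) 2 volume ≤ ENNReal.ofReal (ε / 2) := by
    rw [Lp.norm_def] at h1
    have h6 : eLpNorm (fun b => f b - h b) 2 volume =
        eLpNorm ((f.toLp 2 volume - h : L2R) : ℝ → ℂ) 2 volume := by
      refine eLpNorm_congr_ae ?_
      filter_upwards [f.coeFn_toLp 2 volume, Lp.coeFn_sub (f.toLp 2 volume : L2R) h] with b h7 h8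
      rw [h8, Pi.sub_apply, h7]
    rw [h6]
    exact (ENNReal.le_ofReal_iff_toReal_le (Lp.eLpNorm_ne_top _) (by positivity)).2 h1
  have h6 : eLpNorm (fun b => deriv f b - Complex.I * d b) 2 volume ≤ ENNReal.ofReal (ε / 2) := by
    rw [Lp.norm_def] at h2
    have h6 : eLpNorm (fun b => deriv f b - Complex.I * d b) 2 volume =
        eLpNorm (((SchwartzMap.derivCLM ℂ ℂ f).toLp 2 volume - Complex.I • d : L2R) : ℝ → ℂ) 2
          volume := by
      refine eLpNorm_congr_ae ?_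
      filter_upwards [(SchwartzMap.derivCLM ℂ ℂ f).coeFn_toLp 2 volume,
        Lp.coeFn_sub ((SchwartzMap.derivCLM ℂ ℂ f).toLp 2 volume : L2R) (Complex.I • d),
        Lp.coeFn_smul Complex.I d] with b h7 h8 h9
      rw [h8, Pi.sub_apply, h7, h9]
      rfl
    rw [h6]
    exact (ENNReal.le_ofReal_iff_toReal_le (Lp.eLpNorm_ne_top _) (by positivity)).2 h2
  refine ⟨ψ, hψ, hψc, ?_, ?_⟩
  · rw [e]
    have h7 : (fun b => ψ b - h b) = (fun b => ψ b - f b) + fun b => f b - h b := by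
      funext b
      simp
    rw [h7]
    refine (eLpNorm_add_le ?_ ?_ (by norm_num)).trans (add_le_add h3 h5)
    · exact (hψ.continuous.sub f.continuous).aestronglyMeasurable
    · exact f.continuous.aestronglyMeasurable.sub (Lp.aestronglyMeasurable h)
  · rw [e]
    have h7 : (fun b => deriv ψ b - Complex.I * d b) =
        (fun b => deriv ψ b - deriv f b) + fun b => deriv f b - Complex.I * d b := by
      funext b
      simp
    rw [h7]
    have hfd : Continuous (deriv f) := (SchwartzMap.derivCLM ℂ ℂ f).continuous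
    refine (eLpNorm_add_le ?_ ?_ (by norm_num)).trans (add_le_add h4 h6)
    · exact (hdc.sub hfd).aestronglyMeasurable
    · exact hfd.aestronglyMeasurable.sub ((Lp.aestronglyMeasurable d).const_mul _)

/-- `∫|k|² ≤ δ²` -/
lemma sq_int {k : ℝ → ℂ} {δ : ℝ} (hδ : 0 ≤ δ) (hk : MemLp k 2 volume)
    (h : eLpNorm k 2 volume ≤ ENNReal.ofReal δ) : (∫ s, ‖k s‖ ^ 2) ≤ δ ^ 2 := by
  rw [hk.eLpNorm_eq_integral_rpow_norm (by norm_num) (by norm_num)] at h
  rw [ENNReal.ofReal_le_ofReal_iff hδ] at h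
  norm_num at h
  have h0 : 0 ≤ ∫ s, ‖k s‖ ^ 2 := integral_nonneg fun s => by positivity
  have h1 := pow_le_pow_left₀ (Real.rpow_nonneg h0 _) h 2
  rw [← Real.rpow_natCast, ← Real.rpow_mul h0] at h1
  norm_num at h1
  exact h1

/-- the sup bound -/
lemma supb {k : ℝ → ℂ} (hk : ContDiff ℝ ∞ k) (hc : HasCompactSupport k) {δ : ℝ} (hδ : 0 ≤ δ)
    (h1 : eLpNorm k 2 volume ≤ ENNReal.ofReal δ)
    (h2 : eLpNorm (deriv k) 2 volume ≤ ENNReal.ofReal δ) (b : ℝ) : ‖k b‖ ≤ δ := by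
  have hdc : Continuous (deriv k) := hk.continuous_deriv (by simp)
  have m1 : MemLp k 2 volume := hk.continuous.memLp_of_hasCompactSupport hc
  have m2 : MemLp (deriv k) 2 volume := hdc.memLp_of_hasCompactSupport hc.deriv
  have h3 := sq_int hδ m1 h1
  have h4 := sq_int hδ m2 h2
  have h5 := specGN1 k hk hc b
  have h6 : ‖k b‖ ^ 4 ≤ δ ^ 2 * δ ^ 2 := by
    refine h5.trans ?_
    have h7 : (∫ s, ‖k s‖ ^ 2) * (∫ s, ‖deriv k s‖ ^ 2) ≤ δ ^ 2 * δ ^ 2 :=
      mul_le_mul h3 h4 (integral_nonneg fun s => by positivity) (by positivity)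
    nlinarith [sq_nonneg (∫ s, (conj (k s) * deriv k s).im)]
  have h8 : ‖k b‖ ^ 4 ≤ δ ^ 4 := by
    calc ‖k b‖ ^ 4 ≤ δ ^ 2 * δ ^ 2 := h6
      _ = δ ^ 4 := by ring
  exact (pow_le_pow_iff_left₀ (norm_nonneg _) hδ (by norm_num)).1 h8

end DN1M

open DN1M in
theorem specDN1 : SpecDN1 := by
  intro h d hd
  have hpos : ∀ n : ℕ, (0 : ℝ) < 1 / ((n : ℝ) + 1) := fun n => by positivity
  choose ψ hs hc h1 h2 using fun n : ℕ => one hd (hpos n)
  have hlim : Tendsto (fun n : ℕ => ENNReal.ofReal (1 / ((n : ℝ) + 1))) atTop (𝓝 0) := by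
    have h3 := (ENNReal.continuous_ofReal.tendsto (0 : ℝ)).comp
      (tendsto_one_div_add_atTop_nhds_zero_nat (𝕜 := ℝ))
    rw [ENNReal.ofReal_zero] at h3
    exact h3
  have l1 : Tendsto (fun n => eLpNorm (fun b => ψ n b - h b) 2 volume) atTop (𝓝 0) :=
    tendsto_of_tendsto_of_tendsto_of_le_of_le tendsto_const_nhds hlim (fun _ => zero_le) h1
  have l2 : Tendsto (fun n => eLpNorm (fun b => deriv (ψ n) b - Complex.I * d b) 2 volume) atTop
      (𝓝 0) :=
    tendsto_of_tendsto_of_tendsto_of_le_of_le tendsto_const_nhds hlim (fun _ => zero_le) h2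
  refine ⟨ψ, fun n => ⟨hs n, hc n⟩, l1, l2, ?_⟩
  have hsup : ∀ n m b, ‖ψ n b - ψ m b‖ ≤ 1 / ((n : ℝ) + 1) + 1 / ((m : ℝ) + 1) := by
    intro n m b
    have hdn : Continuous (deriv (ψ n)) := (hs n).continuous_deriv (by simp)
    have hdm : Continuous (deriv (ψ m)) := (hs m).continuous_deriv (by simp)
    have e : ENNReal.ofReal (1 / ((n : ℝ) + 1) + 1 / ((m : ℝ) + 1)) =
        ENNReal.ofReal (1 / ((n : ℝ) + 1)) + ENNReal.ofReal (1 / ((m : ℝ) + 1)) :=
      ENNReal.ofReal_add (hpos n).le (hpos m).le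
    refine supb (k := fun b => ψ n b - ψ m b) ((hs n).sub (hs m)) ((hc n).sub (hc m))
      (add_nonneg (hpos n).le (hpos m).le) ?_ ?_ b
    · have h7 : (fun b => ψ n b - ψ m b) = (fun b => ψ n b - h b) - fun b => ψ m b - h b := by
        funext b
        simp
      rw [h7, e]
      refine (eLpNorm_sub_le ?_ ?_ (by norm_num)).trans (add_le_add (h1 n) (h1 m))
      · exact (hs n).continuous.aestronglyMeasurable.sub (Lp.aestronglyMeasurable h)
      · exact (hs m).continuous.aestronglyMeasurable.sub (Lp.aestronglyMeasurable h)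
    · have h7 : deriv (fun b => ψ n b - ψ m b) = (fun b => deriv (ψ n) b - Complex.I * d b) -
          fun b => deriv (ψ m) b - Complex.I * d b := by
        funext b
        rw [deriv_fun_sub ((hs n).differentiable (by simp)).differentiableAt
          ((hs m).differentiable (by simp)).differentiableAt]
        simp
      rw [h7, e]
      refine (eLpNorm_sub_le ?_ ?_ (by norm_num)).trans (add_le_add (h2 n) (h2 m))
      · exact hdn.aestronglyMeasurable.sub ((Lp.aestronglyMeasurable d).const_mul _)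
      · exact hdm.aestronglyMeasurable.sub ((Lp.aestronglyMeasurable d).const_mul _)
  have hmeas : TendstoInMeasure volume (fun n => ψ n) atTop (h : ℝ → ℂ) :=
    tendstoInMeasure_of_tendsto_eLpNorm (by norm_num)
      (fun n => (hs n).continuous.aestronglyMeasurable) (Lp.aestronglyMeasurable h) l1
  obtain ⟨ns, hns, hae⟩ := hmeas.exists_seq_tendsto_ae
  have hfin : ∀ n, eLpNorm (fun b => ψ n b - h b) ⊤ volume ≤ ENNReal.ofReal (1 / ((n : ℝ) + 1)) := by
    intro n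
    rw [eLpNorm_exponent_top]
    refine eLpNormEssSup_le_of_ae_bound ?_
    filter_upwards [hae] with b hb
    have t1 : Tendsto (fun k => ‖ψ n b - ψ (ns k) b‖) atTop (𝓝 ‖ψ n b - h b‖) :=
      (tendsto_const_nhds.sub hb).norm
    have t2 : Tendsto (fun k : ℕ => 1 / ((n : ℝ) + 1) + 1 / ((ns k : ℝ) + 1)) atTop
        (𝓝 (1 / ((n : ℝ) + 1) + 0)) :=
      tendsto_const_nhds.add ((tendsto_one_div_add_atTop_nhds_zero_nat (𝕜 := ℝ)).comp
        hns.tendsto_atTop)
    rw [add_zero] at t2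
    exact le_of_tendsto_of_tendsto' t1 t2 fun k => hsup n (ns k) b
  exact tendsto_of_tendsto_of_tendsto_of_le_of_le tendsto_const_nhds hlim (fun _ => zero_le) hfin

end Pool.Agent.Lib.MP424d38.ES
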