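import Pool.Agent.Lib.MP_424d38_an.ES.SpecJ

/-!
# Block ES, part L: refined kinetic data (`Kin2` of SpecJ, for the rate theorem)
-/

set_option autoImplicit false

open MeasureTheory Filter Topology Set
open scoped ENNReal ContDiff ComplexConjugate

noncomputable section

namespace Pool.Agent.Lib.MP424d38.ES

open Pool.Agent.Lib.MP424d38.TY

/-- HF2 (refined bound for `∬|l|min(|l|,Λ)|Pv|²`).  Hypotheses TAI, MDE, XGR.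
Proof.  `∫_0^Λ(|l|-k)₊dk = |l|min(|l|,Λ) - ½min(|l|,Λ)² ≥ ½|l|min(|l|,Λ)`, so (Tonelli) the left side is at most `2∫_0^ΛYY_k(v t)dk`.
For `k ≤ 1024G`: `YY_k ≤ XX ≤ 3G`; for `k ≥ 1024G`: TAI (with `s = t`, `M = k/G`): `YY_k ≤ ‖v₂ 0‖²/(4k) + C G^{3/2}k^{-1/2}`.
Sum: `≤ 6144G² + ½‖v₂ 0‖²log(1+Λ) + 4C G^{3/2}Λ^{1/2}` and `log(1+Λ) ≤ 2Λ^{1/2}`.  (`G ≥ 1`.) -/
def SpecHF2 : Prop := ∃ C : ℝ, 0 < C ∧ ∀ P : L2 ≃ₗᵢ[ℂ] L2, IsPF P →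
  ∀ (T : ℝ) (v v₁ v₂ N : ℝ → L2), Nls T v v₁ v₂ N → ∀ t ∈ Ico 0 T, ∀ G : ℝ,
  (∀ r ∈ Icc 0 t, XX P (v r) ≤ 3 * G) → 1 + (∫ r in (0 : ℝ)..t, gD (v r) (v₂ r)) ≤ G → ∀ Λ : ℝ, G ≤ Λ →
  (∫ x : ℝ × ℝ, |2 * Real.pi * x.2| * min |2 * Real.pi * x.2| Λ * ‖P (v t) x‖ ^ 2)
    ≤ C * (G * Real.sqrt G + ‖v₂ 0‖ ^ 2) * Real.sqrt Λ + C * G ^ 2

/-- KI2 (refined kinetic data of a solution; as KIN).  Hypotheses TAI, HF2, MLW, MTX, MDE, PSL, XGR, GGI.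
Proof.  The same `w, f, c` as in KIN.  `hf2`: `‖f Λ t‖ ≤ ∬|l||W_Λ||Pv|²`, `|W_Λ(l)| = min(|l|,Λ)`, HF2 with `G = Γ(t)`, `Λ = MΓ(s)`,
`Γ(t)² ≤ Γ(t)^{3/2}Γ(s)^{1/2}`, `‖v₂ 0‖² ≤ ‖v₂ 0‖²Γ(t)^{3/2}`. -/
def SpecKI2 : Prop := ∃ C₀ : ℝ, 0 < C₀ ∧ ∀ P : L2 ≃ₗᵢ[ℂ] L2, IsPF P →
  ∀ (T : ℝ) (v v₁ v₂ N : ℝ → L2), 0 < T → Nls T v v₁ v₂ N → ∀ ρ p e : ℝ → L1,
  (∀ t ∈ Ico 0 T, (∀ᵐ a : ℝ, ρ t a = rhoD (v t) a) ∧ (∀ᵐ a : ℝ, p t a = momD (v t) (v₂ t) a) ∧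
    gF ρ p e t = gD (v t) (v₂ t)) →
  ∃ w f c : ℝ → ℝ → L1, Kin2 T C₀ (fun t => XX P (v t)) ρ p e w f c

end Pool.Agent.Lib.MP424d38.ES
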