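import Pool.Agent.Lib.MP_424d38_an.ES.SpecI
import Pool.Agent.Lib.MP_424d38_an.ES.SpecL

section
/-!
# Block ES: elementary facts on the moments `Mo` and on laws with sources
-/
set_option autoImplicit false

open MeasureTheory Filter Topology Set
open scoped ENNReal ContDiff ComplexConjugate

noncomputable section

namespace Pool.Agent.Lib.MP424d38.ES

open Pool.Agent.Lib.MP424d38.TY

namespace MoLem

theorem l1_norm (f : L1) : ‖f‖ = ∫ a, |f a| := by
  rw [L1.norm_eq_integral_norm]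
  rfl

theorem int_gen {α : Type*} [MeasurableSpace α] {μ : Measure α} {l : α → ℝ} (hl : Measurable l)
    {w : α → ℝ} (h : Integrable (fun x => (1 + l x ^ 2) * w x) μ) {φ : ℝ → ℝ} (hφ : Measurable φ)
    {c : ℝ} (hc : ∀ s, |φ s| ≤ c * (1 + s ^ 2)) : Integrable (fun x => φ (l x) * w x) μ := by
  have e : (fun x => φ (l x) * w x) =
      fun x => (φ (l x) / (1 + l x ^ 2)) * ((1 + l x ^ 2) * w x) := by
    funext x
    have : (1 + l x ^ 2) ≠ 0 := by positivity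
    field_simp
  rw [e]
  refine h.bdd_mul (c := c) ?_ ?_
  · have : Measurable fun x => φ (l x) / (1 + l x ^ 2) :=
      (hφ.comp hl).div (measurable_const.add (hl.pow_const 2))
    exact this.aestronglyMeasurable
  · refine Eventually.of_forall fun x => ?_
    have h1 : (0 : ℝ) < 1 + l x ^ 2 := by positivity
    rw [Real.norm_eq_abs, abs_div, abs_of_pos h1, div_le_iff₀ h1]
    exact hc _

/-- the weight of the frequency side -/
abbrev WI (P : L2 ≃ₗᵢ[ℂ] L2) (f : L2) : Prop :=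
  Integrable fun x : ℝ × ℝ => (1 + (2 * Real.pi * x.2) ^ 2) * ‖P f x‖ ^ 2

theorem meas_l2 : Measurable fun x : ℝ × ℝ => 2 * Real.pi * x.2 :=
  measurable_snd.const_mul _

theorem meas_l1 : Measurable fun ξ : ℝ => 2 * Real.pi * ξ := measurable_id.const_mul _

theorem int_prod {P : L2 ≃ₗᵢ[ℂ] L2} {f : L2} (h : WI P f) {φ : ℝ → ℝ} (hφ : Measurable φ)
    {c : ℝ} (hc : ∀ s, |φ s| ≤ c * (1 + s ^ 2)) :
    Integrable fun x : ℝ × ℝ => φ (2 * Real.pi * x.2) * ‖P f x‖ ^ 2 :=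
  int_gen meas_l2 h hφ hc

theorem int_slice {P : L2 ≃ₗᵢ[ℂ] L2} {f : L2} {a : ℝ}
    (h : Integrable fun ξ => (1 + (2 * Real.pi * ξ) ^ 2) * ‖P f (a, ξ)‖ ^ 2) {φ : ℝ → ℝ}
    (hφ : Measurable φ) {c : ℝ} (hc : ∀ s, |φ s| ≤ c * (1 + s ^ 2)) :
    Integrable fun ξ : ℝ => φ (2 * Real.pi * ξ) * ‖P f (a, ξ)‖ ^ 2 :=
  int_gen meas_l1 h hφ hc

/-- `Mo` is integrable and its `L¹` norm is bounded by the double integral -/
theorem norm_mo {P : L2 ≃ₗᵢ[ℂ] L2} {f : L2} (h : WI P f) {φ ψ : ℝ → ℝ} (hφ : Measurable φ)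
    (hψ : Measurable ψ) {c : ℝ} (hle : ∀ s, |φ s| ≤ ψ s) (hc : ∀ s, ψ s ≤ c * (1 + s ^ 2)) :
    Integrable (Mo P φ f) ∧
    (∫ a, |Mo P φ f a|) ≤ ∫ x : ℝ × ℝ, ψ (2 * Real.pi * x.2) * ‖P f x‖ ^ 2 := by
  have h1 : Integrable fun x : ℝ × ℝ => φ (2 * Real.pi * x.2) * ‖P f x‖ ^ 2 :=
    int_prod h hφ (fun s => (hle s).trans (hc s))
  have h2 : Integrable fun x : ℝ × ℝ => ψ (2 * Real.pi * x.2) * ‖P f x‖ ^ 2 :=
    int_prod h hψ (c := c) (fun s => by
      rw [abs_of_nonneg ((abs_nonneg _).trans (hle s))]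
      exact hc s)
  have h1' : Integrable (fun x : ℝ × ℝ => φ (2 * Real.pi * x.2) * ‖P f x‖ ^ 2)
    ((volume : Measure ℝ).prod volume) := h1
  have h3 : Integrable (Mo P φ f) := h1'.integral_prod_left
  refine ⟨h3, ?_⟩
  calc (∫ a, |Mo P φ f a|) ≤ ∫ a : ℝ, ∫ ξ : ℝ, ‖φ (2 * Real.pi * ξ) * ‖P f (a, ξ)‖ ^ 2‖ := by
        refine integral_mono h3.abs h1'.norm.integral_prod_left fun a => ?_
        show |Mo P φ f a| ≤ _
        rw [← Real.norm_eq_abs]
        exact norm_integral_le_integral_norm _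
    _ = ∫ x : ℝ × ℝ, ‖φ (2 * Real.pi * x.2) * ‖P f x‖ ^ 2‖ :=
        (integral_prod (fun x : ℝ × ℝ => ‖φ (2 * Real.pi * x.2) * ‖P f x‖ ^ 2‖) h1'.norm).symm
    _ ≤ ∫ x : ℝ × ℝ, ψ (2 * Real.pi * x.2) * ‖P f x‖ ^ 2 := by
        refine integral_mono h1.norm h2 fun x => ?_
        show ‖φ (2 * Real.pi * x.2) * ‖P f x‖ ^ 2‖ ≤ ψ (2 * Real.pi * x.2) * ‖P f x‖ ^ 2
        rw [norm_mul, Real.norm_eq_abs, Real.norm_eq_abs (‖P f x‖ ^ 2),
          abs_of_nonneg (sq_nonneg ‖P f x‖)]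
        exact mul_le_mul_of_nonneg_right (hle _) (sq_nonneg _)

/-- the functional `f ↦ ∫ β f` on `L¹` -/
theorem func_int {β : ℝ → ℝ} (hβ : Continuous β) {C : ℝ} (hC : ∀ a, |β a| ≤ C) (f : L1) :
    Integrable fun a => β a * f a :=
  (L1.integrable_coeFn f).bdd_mul hβ.aestronglyMeasurable (Eventually.of_forall hC)

theorem func_sub {β : ℝ → ℝ} (hβ : Continuous β) {C : ℝ} (hC : ∀ a, |β a| ≤ C) (f g : L1) :
    (∫ a, β a * (f - g : L1) a) = (∫ a, β a * f a) - ∫ a, β a * g a := by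
  rw [← integral_sub (func_int hβ hC f) (func_int hβ hC g)]
  apply integral_congr_ae
  filter_upwards [Lp.coeFn_sub f g] with a ha
  rw [ha, Pi.sub_apply, mul_sub]

theorem func_bd {β : ℝ → ℝ} (hβ : Continuous β) {C : ℝ} (hC : ∀ a, |β a| ≤ C) (f : L1) :
    |∫ a, β a * f a| ≤ C * ‖f‖ := by
  rw [l1_norm, ← integral_const_mul, ← Real.norm_eq_abs]
  refine (norm_integral_le_integral_norm _).trans ?_
  refine integral_mono (func_int hβ hC f).norm ((L1.integrable_coeFn f).abs.const_mul C)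
    fun a => ?_
  show ‖β a * f a‖ ≤ C * |f a|
  rw [norm_mul]
  exact mul_le_mul_of_nonneg_right (hC a) (norm_nonneg _)

theorem func_cont {β : ℝ → ℝ} (hβ : Continuous β) {C : ℝ} (hC : ∀ a, |β a| ≤ C) :
    Continuous fun f : L1 => ∫ a, β a * f a := by
  have hC0 : 0 ≤ C := (abs_nonneg _).trans (hC 0)
  have : LipschitzWith C.toNNReal fun f : L1 => ∫ a, β a * f a := by
    refine LipschitzWith.of_dist_le_mul fun f g => ?_
    rw [Real.dist_eq, ← func_sub hβ hC f g, dist_eq_norm, Real.coe_toNNReal C hC0]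
    exact func_bd hβ hC _
  exact this.continuous

theorem lawS_congr {T : ℝ} {f F s f' F' s' : ℝ → L1} (h : LawS T f F s)
    (hf : ∀ t ∈ Ico 0 T, f' t = f t) (hF : ∀ t ∈ Ico 0 T, F' t = F t)
    (hs : ∀ t ∈ Ico 0 T, s' t = s t) : LawS T f' F' s' where
  cf := h.cf.congr hf
  cF := h.cF.congr hF
  cs := h.cs.congr hs
  law := by
    intro β hβ t t' h0 htt' hT
    have h1 := h.law β hβ t t' h0 htt' hT
    rw [hf t ⟨h0, lt_of_le_of_lt htt' hT⟩, hf t' ⟨h0.trans htt', hT⟩, h1]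
    apply intervalIntegral.integral_congr
    intro r hr
    rw [uIcc_of_le htt'] at hr
    have hr' : r ∈ Ico 0 T := ⟨h0.trans hr.1, lt_of_le_of_lt hr.2 hT⟩
    show (∫ a, deriv β a * F r a) + (∫ a, β a * s r a)
      = (∫ a, deriv β a * F' r a) + ∫ a, β a * s' r a
    rw [hF r hr', hs r hr']

theorem cb1 {β : ℝ → ℝ} (h : Cb1 β) : Continuous β ∧ Continuous (deriv β) ∧
    ∃ C : ℝ, (∀ a, |β a| ≤ C) ∧ ∀ a, |deriv β a| ≤ C := by
  obtain ⟨h1, C, hC⟩ := h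
  exact ⟨h1.continuous, h1.continuous_deriv le_rfl, C, fun a => (hC a).1, fun a => (hC a).2⟩

theorem lawS_integrable {T : ℝ} {f F s : ℝ → L1} (h : LawS T f F s) {β : ℝ → ℝ} (hβ : Cb1 β)
    {t t' : ℝ} (h0 : 0 ≤ t) (htt' : t ≤ t') (hT : t' < T) :
    IntervalIntegrable (fun r => (∫ a, deriv β a * F r a) + ∫ a, β a * s r a) volume t t' := by
  obtain ⟨b1, b2, C, hC1, hC2⟩ := cb1 hβ
  apply ContinuousOn.intervalIntegrable
  rw [uIcc_of_le htt']
  have hsub : Icc t t' ⊆ Ico 0 T := fun r hr => ⟨h0.trans hr.1, lt_of_le_of_lt hr.2 hT⟩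
  exact ((func_cont b2 hC2).comp_continuousOn (h.cF.mono hsub)).add
    ((func_cont b1 hC1).comp_continuousOn (h.cs.mono hsub))

theorem lawS_sub {T : ℝ} {f F s f' F' s' : ℝ → L1} (h : LawS T f F s) (h' : LawS T f' F' s') :
    LawS T (fun t => f t - f' t) (fun t => F t - F' t) (fun t => s t - s' t) where
  cf := h.cf.sub h'.cf
  cF := h.cF.sub h'.cF
  cs := h.cs.sub h'.cs
  law := by
    intro β hβ t t' h0 htt' hT
    obtain ⟨b1, b2, C, hC1, hC2⟩ := cb1 hβ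
    have e1 := h.law β hβ t t' h0 htt' hT
    have e2 := h'.law β hβ t t' h0 htt' hT
    have e3 := intervalIntegral.integral_sub (lawS_integrable h hβ h0 htt' hT)
      (lawS_integrable h' hβ h0 htt' hT)
    rw [func_sub b1 hC1, func_sub b1 hC1]
    have e4 : (∫ r in t..t', ((∫ a, deriv β a * (F r - F' r : L1) a) +
        ∫ a, β a * (s r - s' r : L1) a)) = ∫ r in t..t',
        (((∫ a, deriv β a * F r a) + ∫ a, β a * s r a) -
          ((∫ a, deriv β a * F' r a) + ∫ a, β a * s' r a)) := by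
      apply intervalIntegral.integral_congr
      intro r _
      show (∫ a, deriv β a * (F r - F' r : L1) a) + (∫ a, β a * (s r - s' r : L1) a) = _
      rw [func_sub b2 hC2, func_sub b1 hC1]
      ring
    rw [e4, e3, ← e1, ← e2]
    ring

theorem law_lawS {T : ℝ} {f F : ℝ → L1} (h : Law T f F) : LawS T f F (fun _ => 0) where
  cf := h.cf
  cF := h.cF
  cs := continuousOn_const
  law := by
    intro β hβ t t' h0 htt' hT
    rw [h.law β hβ t t' h0 htt' hT]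
    apply intervalIntegral.integral_congr
    intro r _
    have : (∫ a, β a * (0 : L1) a) = 0 := by
      rw [← integral_zero ℝ ℝ]
      apply integral_congr_ae
      filter_upwards [Lp.coeFn_zero ℝ 1 (volume : Measure ℝ)] with a ha
      rw [ha]
      simp
    show (∫ a, deriv β a * F r a) = (∫ a, deriv β a * F r a) + ∫ a, β a * (0 : L1) a
    rw [this, add_zero]

end MoLem

end Pool.Agent.Lib.MP424d38.ES
end
end

section
/-!
# HFD: the high frequency flow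
-/
set_option autoImplicit false

open MeasureTheory Filter Topology Set
open scoped ENNReal ContDiff ComplexConjugate

noncomputable section

namespace Pool.Agent.Lib.MP424d38.ES

open Pool.Agent.Lib.MP424d38.TY

namespace HFDM

open MoLem

/-- Cauchy-Schwarz for the second moments -/
theorem cs {W : ℝ → ℝ} {l : ℝ → ℝ} (hW : ∀ ξ, 0 ≤ W ξ) (h0 : Integrable W)
    (h1 : Integrable fun ξ => l ξ * W ξ) (h2 : Integrable fun ξ => l ξ ^ 2 * W ξ) :
    (∫ ξ, l ξ * W ξ) ^ 2 ≤ (∫ ξ, W ξ) * ∫ ξ, l ξ ^ 2 * W ξ := by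
  have key : ∀ x : ℝ, 0 ≤ (∫ ξ, W ξ) * (x * x) + (-2 * ∫ ξ, l ξ * W ξ) * x +
      ∫ ξ, l ξ ^ 2 * W ξ := by
    intro x
    have e : (∫ ξ, (l ξ - x) ^ 2 * W ξ) = (∫ ξ, W ξ) * (x * x) + (-2 * ∫ ξ, l ξ * W ξ) * x +
        ∫ ξ, l ξ ^ 2 * W ξ := by
      have e1 : (fun ξ => (l ξ - x) ^ 2 * W ξ) =
          fun ξ => ((x * x) * W ξ + (-2 * x) * (l ξ * W ξ)) + l ξ ^ 2 * W ξ := by
        funext ξ
        ring
      have i0 : Integrable fun ξ => (x * x) * W ξ := h0.const_mul _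
      have i1 : Integrable fun ξ => (-2 * x) * (l ξ * W ξ) := h1.const_mul _
      have i2 : Integrable fun ξ => (x * x) * W ξ + (-2 * x) * (l ξ * W ξ) := i0.add i1
      rw [e1, integral_add i2 h2, integral_add i0 i1, integral_const_mul, integral_const_mul]
      ring
    rw [← e]
    exact integral_nonneg fun ξ => mul_nonneg (sq_nonneg _) (hW ξ)
  have := discrim_le_zero key
  unfold discrim at this
  nlinarith [this]

end HFDM

open MoLem HFDM in
theorem specHFD (hMTX : SpecMTX) (hMLW : SpecMLW) (hSKY : SpecSKY) (hMDE : SpecMDE)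
    (hCHF : SpecCHF) (hFLO : TY.SpecFLO) (hRHB : TY.SpecRHB) (hSOB : TY.SpecSOB) : SpecHFD := by
  intro P hP T v v₁ v₂ N hv n hn
  obtain ⟨c1, c2, c3, c4, -, -, c6, c7, c8⟩ := hCHF n hn
  -- the symbols
  have m0 : Measurable fun l => ch n l ^ 2 := (c4.pow 2).measurable
  have ml : Measurable fun l => l * ch n l ^ 2 := measurable_id.mul m0
  have mll : Measurable fun l => l ^ 2 * ch n l ^ 2 := (measurable_id.pow_const 2).mul m0
  have m1 : Measurable fun l => l * (1 - ch n l ^ 2) := measurable_id.mul (measurable_const.sub m0)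
  have q0 : ∀ l, 0 ≤ ch n l ^ 2 := fun l => sq_nonneg _
  have q1 : ∀ l, ch n l ^ 2 ≤ 1 := fun l => by
    have := c1 l
    nlinarith
  have b0 : ∀ l, |ch n l ^ 2| ≤ 1 := fun l => by
    rw [abs_of_nonneg (q0 l)]
    exact q1 l
  have b1 : ∀ l, |l * (1 - ch n l ^ 2)| ≤ 2 * n := by
    intro l
    rcases le_total (2 * n) |l| with h | h
    · rw [c3 l h]
      simp
      exact hn.le
    · rw [abs_mul]
      have h1 : |1 - ch n l ^ 2| ≤ 1 := by
        rw [abs_le]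
        constructor <;> linarith [q0 l, q1 l]
      calc |l| * |1 - ch n l ^ 2| ≤ |l| * 1 := mul_le_mul_of_nonneg_left h1 (abs_nonneg _)
        _ ≤ 2 * n := by rw [mul_one]; exact h
  obtain ⟨S₀, hS₀⟩ := (hMTX P hP _ 1 m0 b0).1
  obtain ⟨S₁, hS₁⟩ := (hMTX P hP _ (2 * n) m1 b1).1
  obtain ⟨m, f, c, hl, hmf⟩ := hMLW P hP T v v₁ v₂ N hv _ 1 S₀ m0 b0 hS₀
  obtain ⟨m', f', c', hl', hmf'⟩ := hMLW P hP T v v₁ v₂ N hv _ (2 * n) S₁ m1 b1 hS₁
  obtain ⟨ρ, p, e, hF, hFv⟩ := hFLO T v v₁ v₂ N hv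
  -- bounds of the symbols by `1 + l²`
  have g1 : ∀ l : ℝ, |l| ≤ 1 * (1 + l ^ 2) := fun l => by
    rcases abs_cases l with ⟨h, -⟩ | ⟨h, -⟩ <;> rw [h] <;> nlinarith [sq_nonneg (l - 1),
      sq_nonneg (l + 1)]
  have g2 : ∀ l : ℝ, |(l ^ 2 : ℝ)| ≤ 1 * (1 + l ^ 2) := fun l => by
    rw [abs_of_nonneg (sq_nonneg l)]
    linarith
  have g3 : ∀ l : ℝ, |ch n l ^ 2| ≤ 1 * (1 + l ^ 2) := fun l => (b0 l).trans (by nlinarith)
  have g4 : ∀ l : ℝ, |l * ch n l ^ 2| ≤ 1 * (1 + l ^ 2) := fun l => by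
    rw [abs_mul]
    calc |l| * |ch n l ^ 2| ≤ |l| * 1 := mul_le_mul_of_nonneg_left (b0 l) (abs_nonneg _)
      _ = |l| := mul_one _
      _ ≤ _ := g1 l
  have g5 : ∀ l : ℝ, |l ^ 2 * ch n l ^ 2| ≤ 1 * (1 + l ^ 2) := fun l => by
    rw [abs_mul]
    calc |(l ^ 2 : ℝ)| * |ch n l ^ 2| ≤ |(l ^ 2 : ℝ)| * 1 :=
        mul_le_mul_of_nonneg_left (b0 l) (abs_nonneg _)
      _ = |(l ^ 2 : ℝ)| := mul_one _
      _ ≤ _ := g2 l
  -- the pointwise identities
  have id1 : ∀ t ∈ Ico 0 T, ∀ᵐ a : ℝ, p t a - m' t a = Mo P (fun l => l * ch n l ^ 2) (v t) a ∧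
      e t a - f' t a = Mo P (fun l => l ^ 2 * ch n l ^ 2) (v t) a := by
    intro t ht
    obtain ⟨d1, d2, -⟩ := hMDE P hP (v t) (v₁ t) (v₂ t) (hv.h1 t ht)
    obtain ⟨-, k2, k3, -, -⟩ := hFv t ht
    obtain ⟨j1, j2, -⟩ := hmf' t ht
    filter_upwards [d1, k2, k3, j1, j2] with a ha k2 k3 j1 j2
    obtain ⟨i0, -, i2, i3⟩ := ha
    rw [k2, j1, k3, j2, i2, i3]
    have ma : ∀ (φ ψ χ : ℝ → ℝ), Measurable φ → Measurable ψ → (∀ l, χ l = φ l - ψ l) →
        (∀ l, |φ l| ≤ 1 * (1 + l ^ 2)) → (∀ l, |ψ l| ≤ 1 * (1 + l ^ 2)) →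
        Mo P φ (v t) a - Mo P ψ (v t) a = Mo P χ (v t) a := by
      intro φ ψ χ h1 h2 h3 h4 h5
      unfold Mo
      rw [← integral_sub (int_slice i0 h1 h4) (int_slice i0 h2 h5)]
      apply integral_congr_ae
      refine Eventually.of_forall fun ξ => ?_
      show φ (2 * Real.pi * ξ) * _ - ψ (2 * Real.pi * ξ) * _ = χ (2 * Real.pi * ξ) * _
      rw [h3]
      ring
    constructor
    · refine ma _ _ _ measurable_id m1 (fun l => ?_) g1 (fun l => ?_)
      · ring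
      · rw [abs_mul]
        have h1 : |1 - ch n l ^ 2| ≤ 1 := by
          rw [abs_le]
          constructor <;> linarith [q0 l, q1 l]
        calc |l| * |1 - ch n l ^ 2| ≤ |l| * 1 := mul_le_mul_of_nonneg_left h1 (abs_nonneg _)
          _ = |l| := mul_one _
          _ ≤ _ := g1 l
    · refine ma _ _ _ (measurable_id.pow_const 2) (measurable_id.mul m1) (fun l => ?_) g2
        (fun l => ?_)
      · ring
      · have e : l * (l * (1 - ch n l ^ 2)) = l ^ 2 * (1 - ch n l ^ 2) := by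
          ring
        show |l * (l * (1 - ch n l ^ 2))| ≤ _
        rw [e, abs_mul]
        have h1 : |1 - ch n l ^ 2| ≤ 1 := by
          rw [abs_le]
          constructor <;> linarith [q0 l, q1 l]
        calc |(l ^ 2 : ℝ)| * |1 - ch n l ^ 2| ≤ |(l ^ 2 : ℝ)| * 1 :=
            mul_le_mul_of_nonneg_left h1 (abs_nonneg _)
          _ = |(l ^ 2 : ℝ)| := mul_one _
          _ ≤ _ := g2 l
  have id2 : ∀ t ∈ Ico 0 T, p t - m' t = f t := by
    intro t ht
    apply Lp.ext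
    filter_upwards [id1 t ht, (hmf t ht).2.1, Lp.coeFn_sub (p t) (m' t)] with a h1 h2 h3
    rw [h3, Pi.sub_apply, h1.1, h2]
  -- the laws
  have law2 : LawS T (fun t => p t - m' t) (fun t => (4 : ℝ) • (e t - f' t)) (fun t => - c' t) := by
    refine lawS_congr (lawS_sub (law_lawS hF.lawp) hl') (fun t _ => rfl) (fun t _ => ?_)
      (fun t _ => ?_)
    · show (4 : ℝ) • (e t - f' t) = (4 : ℝ) • e t - (4 : ℝ) • f' t
      rw [smul_sub]
    · show - c' t = 0 - c' t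
      rw [zero_sub]
  have law1 : LawS T m (fun t => (4 : ℝ) • (p t - m' t)) c :=
    lawS_congr hl (fun t _ => rfl) (fun t ht => by
      show (4 : ℝ) • (p t - m' t) = (4 : ℝ) • f t
      rw [id2 t ht]) (fun t _ => rfl)
  refine ⟨m, fun t => p t - m' t, fun t => e t - f' t, c, fun t => - c' t, law1, law2, ?_⟩
  intro t ht
  obtain ⟨d1, d2, -⟩ := hMDE P hP (v t) (v₁ t) (v₂ t) (hv.h1 t ht)
  have hpi : (2 : ℝ) ≤ Real.pi := Real.two_le_pi
  have hpi0 : 0 < Real.pi := Real.pi_pos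
  obtain ⟨-, -, so1, so2, -⟩ := hSOB (v t) (v₁ t) (v₂ t) (hv.h1 t ht)
  -- the sources
  have src1 : ∀ (lam : ℝ) (σ : ℝ → ℝ) (S : L2 →L[ℂ] L2) (d : L1), 0 ≤ lam → Adm lam σ →
      IsMT P σ S → (∀ᵐ a : ℝ, d a = src S (v t) (N t) a) →
      ‖d‖ ≤ 2 * lam * gD (v t) (v₂ t) := by
    intro lam σ S d hlam hσ hS hd
    rw [l1_norm]
    calc (∫ a, |d a|) ≤ ∫ a, 4 / Real.pi * lam *
          (rhoD (v t) a * rhoD (v₂ t) a - momD (v t) (v₂ t) a ^ 2) := by
          refine integral_mono_ae (L1.integrable_coeFn d).abs (so1.const_mul _) ?_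
          filter_upwards [hd, hSKY P hP _ _ _ (hv.h1 t ht) (N t) (hv.nl t ht) lam σ S hlam hσ hS]
            with a h1 h2
          rw [h1]
          exact h2
      _ = 4 / Real.pi * lam * gD (v t) (v₂ t) := by
          rw [integral_const_mul]
          rfl
      _ ≤ 2 * lam * gD (v t) (v₂ t) := by
          refine mul_le_mul_of_nonneg_right (mul_le_mul_of_nonneg_right ?_ hlam) so2
          rw [div_le_iff₀ hpi0]
          linarith
  refine ⟨?_, ?_, ?_, ?_, ?_⟩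
  · filter_upwards [id1 t ht, (hmf t ht).1, d1, Lp.coeFn_sub (p t) (m' t),
      Lp.coeFn_sub (e t) (f' t), hRHB _ _ _ (hv.h1 t ht)] with a h1 h2 h3 h4 h5 h6
    obtain ⟨i0, i1, -, -⟩ := h3
    rw [h4, h5, Pi.sub_apply, Pi.sub_apply, h1.1, h1.2, h2]
    refine ⟨rfl, rfl, rfl, ?_, ?_, ?_, ?_⟩
    · exact integral_nonneg fun ξ => mul_nonneg (sq_nonneg _) (sq_nonneg _)
    · exact integral_nonneg fun ξ =>
        mul_nonneg (mul_nonneg (sq_nonneg _) (sq_nonneg _)) (sq_nonneg _)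
    · have h := cs (W := fun ξ => ch n (2 * Real.pi * ξ) ^ 2 * ‖P (v t) (a, ξ)‖ ^ 2)
        (l := fun ξ => 2 * Real.pi * ξ) (fun ξ => mul_nonneg (sq_nonneg _) (sq_nonneg _))
        (int_slice i0 m0 g3)
        ((int_slice i0 ml g4).congr (Eventually.of_forall fun ξ => by
          show (2 * Real.pi * ξ * ch n (2 * Real.pi * ξ) ^ 2) * ‖P (v t) (a, ξ)‖ ^ 2 =
            2 * Real.pi * ξ * (ch n (2 * Real.pi * ξ) ^ 2 * ‖P (v t) (a, ξ)‖ ^ 2)
          ring))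
        ((int_slice i0 mll g5).congr (Eventually.of_forall fun ξ => by
          show ((2 * Real.pi * ξ) ^ 2 * ch n (2 * Real.pi * ξ) ^ 2) * ‖P (v t) (a, ξ)‖ ^ 2 =
            (2 * Real.pi * ξ) ^ 2 * (ch n (2 * Real.pi * ξ) ^ 2 * ‖P (v t) (a, ξ)‖ ^ 2)
          ring))
      unfold Mo
      simp only [mul_assoc] at h ⊢
      exact h
    · calc Mo P (fun l => ch n l ^ 2) (v t) a ≤ Mo P (fun _ => 1) (v t) a := by
            refine integral_mono (int_slice i0 m0 g3)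
              (int_slice i0 (φ := fun _ => 1) (c := 1) measurable_const (fun s => by
                rw [abs_one]; nlinarith [sq_nonneg s])) fun ξ => ?_
            exact mul_le_mul_of_nonneg_right (q1 _) (sq_nonneg _)
        _ = rhoD (v t) a := i1.symm
        _ ≤ _ := h6
  · -- `‖ρ₂‖`
    have h1 := (norm_mo d2 (φ := fun l => ch n l ^ 2) (ψ := fun l => |l| / n) (c := 1 / n) m0
      ((continuous_abs.div_const n).measurable) (fun l => by
        rw [abs_of_nonneg (q0 l)]; exact c8 l) (fun l => by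
        have := g1 l
        rw [div_le_iff₀ hn]
        calc |l| ≤ 1 * (1 + l ^ 2) := this
          _ = 1 / n * (1 + l ^ 2) * n := by field_simp)).2
    have h2 : ‖m t‖ = ∫ a, |Mo P (fun l => ch n l ^ 2) (v t) a| := by
      rw [l1_norm]
      apply integral_congr_ae
      filter_upwards [(hmf t ht).1] with a ha
      rw [ha]
    rw [h2]
    refine h1.trans (le_of_eq ?_)
    unfold XX
    rw [← integral_div]
    apply integral_congr_ae
    refine Eventually.of_forall fun x => ?_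
    show |2 * Real.pi * x.2| / n * ‖P (v t) x‖ ^ 2 = |2 * Real.pi * x.2| * ‖P (v t) x‖ ^ 2 / n
    ring
  · -- `‖p₂‖`
    have h1 := (norm_mo d2 (φ := fun l => l * ch n l ^ 2) (ψ := fun l => |l|) (c := 1) ml
      continuous_abs.measurable (fun l => by
        rw [abs_mul]
        calc |l| * |ch n l ^ 2| ≤ |l| * 1 := mul_le_mul_of_nonneg_left (b0 l) (abs_nonneg _)
          _ = |l| := mul_one _) g1).2
    have h2 : ‖p t - m' t‖ = ∫ a, |Mo P (fun l => l * ch n l ^ 2) (v t) a| := by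
      rw [l1_norm]
      apply integral_congr_ae
      filter_upwards [id1 t ht, Lp.coeFn_sub (p t) (m' t)] with a ha hb
      rw [hb, Pi.sub_apply, ha.1]
    rw [h2]
    exact h1
  · have h := src1 (2 / n) (fun l => ch n l ^ 2) S₀ (c t) (by positivity)
      ⟨m0, ⟨1, b0⟩, 0, fun l l' => by simpa using c6 l l'⟩ hS₀ (hmf t ht).2.2
    refine h.trans (le_of_eq ?_)
    ring
  · have h := src1 5 (fun l => l * (1 - ch n l ^ 2)) S₁ (c' t) (by norm_num)
      ⟨m1, ⟨2 * n, b1⟩, 1, fun l l' => by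
        have e : l * (1 - ch n l ^ 2) - 1 * l - (l' * (1 - ch n l' ^ 2) - 1 * l') =
          -(l * ch n l ^ 2 - l' * ch n l' ^ 2) := by ring
        show |l * (1 - ch n l ^ 2) - 1 * l - (l' * (1 - ch n l' ^ 2) - 1 * l')| ≤ _
        rw [e, abs_neg]
        exact c7 l l'⟩ hS₁ (hmf' t ht).2.2
    show ‖- c' t‖ ≤ _
    rw [norm_neg]
    refine h.trans (le_of_eq ?_)
    ring

end Pool.Agent.Lib.MP424d38.ES
end
end

section
/-!
# HFM: high frequency Morawetz inequality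
-/
set_option autoImplicit false

open MeasureTheory Filter Topology Set
open scoped ENNReal ContDiff ComplexConjugate

noncomputable section

namespace Pool.Agent.Lib.MP424d38.ES

open Pool.Agent.Lib.MP424d38.TY

open MoLem in
theorem specHFM (hHFD : SpecHFD) (hMOR : SpecMOR) (hGGI : SpecGGI) (hGLM : TY.SpecGLM) :
    SpecHFM := by
  intro P hP T v v₁ v₂ N hv n hn s hs G hX hG
  obtain ⟨ρ₂, p₂, e₂, s₀, s₁, l1, l2, hdat⟩ := hHFD P hP T v v₁ v₂ N hv n hn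
  have hsub : Icc 0 s ⊆ Ico 0 T := fun r hr => ⟨hr.1, lt_of_le_of_lt hr.2 hs.2⟩
  have hpos : ∀ t ∈ Ico 0 T, ∀ᵐ a : ℝ, 0 ≤ ρ₂ t a ∧ 0 ≤ e₂ t a ∧
      (p₂ t a) ^ 2 ≤ ρ₂ t a * e₂ t a ∧ ρ₂ t a ≤ ‖v t‖ * ‖v₁ t‖ := by
    intro t ht
    filter_upwards [(hdat t ht).1] with a ha
    exact ⟨ha.2.2.2.1, ha.2.2.2.2.1, ha.2.2.2.2.2.1, ha.2.2.2.2.2.2⟩
  have hm := hMOR T (fun t => ‖v t‖ * ‖v₁ t‖) ρ₂ p₂ e₂ s₀ s₁ l1 l2
    (hv.cv.norm.mul hv.c1.norm) hpos s hs
  obtain ⟨-, hm2, hm3⟩ := hm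
  -- `gF` is the integral of `g2`
  have hae : ∀ t ∈ Ico 0 T, ∀ᵐ a : ℝ, ρ₂ t a * e₂ t a - p₂ t a ^ 2 = g2 P n (v t) a := by
    intro t ht
    filter_upwards [(hdat t ht).1] with a ha
    rw [ha.1, ha.2.1, ha.2.2.1]
    rfl
  have hgF : ∀ t ∈ Ico 0 T, gF ρ₂ p₂ e₂ t = ∫ a, g2 P n (v t) a := fun t ht =>
    integral_congr_ae (hae t ht)
  refine ⟨fun t ht => ?_, ?_, ?_⟩
  · exact (hGLM (ρ₂ t) (p₂ t) (e₂ t) _ (hpos t (hsub ht))).1.congr (hae t (hsub ht))
  · exact hm2.congr_fun (fun t ht => hgF t (hsub ht)) measurableSet_Icc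
  · have e1 : (∫ t in (0 : ℝ)..s, ∫ a, g2 P n (v t) a) = ∫ t in (0 : ℝ)..s, gF ρ₂ p₂ e₂ t := by
      apply intervalIntegral.integral_congr
      intro t ht
      rw [uIcc_of_le hs.1] at ht
      exact (hgF t (hsub ht)).symm
    rw [e1]
    -- bounds
    have hgi := (hGGI T v v₁ v₂ N hv s hs).2
    have hg0 : ∀ t ∈ Icc 0 s, 0 ≤ gD (v t) (v₂ t) := fun t ht => (hGGI T v v₁ v₂ N hv t (hsub ht)).1
    have hI0 : 0 ≤ ∫ r in (0 : ℝ)..s, gD (v r) (v₂ r) :=
      intervalIntegral.integral_nonneg hs.1 hg0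
    have hG1 : 1 ≤ G := by linarith
    have hb : ∀ t ∈ Icc 0 s, ‖ρ₂ t‖ ≤ 3 * G / n ∧ ‖p₂ t‖ ≤ 3 * G := by
      intro t ht
      obtain ⟨-, h1, h2, -, -⟩ := hdat t (hsub ht)
      exact ⟨h1.trans (div_le_div_of_nonneg_right (hX t ht) hn.le), h2.trans (hX t ht)⟩
    have h0m : (0 : ℝ) ∈ Icc 0 s := ⟨le_rfl, hs.1⟩
    have hsm : s ∈ Icc 0 s := ⟨hs.1, le_rfl⟩
    have hprod : ∀ t ∈ Icc 0 s, ‖p₂ t‖ * ‖ρ₂ t‖ ≤ 9 * G ^ 2 / n := by
      intro t ht
      obtain ⟨h1, h2⟩ := hb t ht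
      calc ‖p₂ t‖ * ‖ρ₂ t‖ ≤ (3 * G) * (3 * G / n) :=
            mul_le_mul h2 h1 (norm_nonneg _) (by positivity)
        _ = 9 * G ^ 2 / n := by ring
    have hcont : ContinuousOn (fun r => ‖s₁ r‖ * ‖ρ₂ r‖ + ‖p₂ r‖ * ‖s₀ r‖) (Icc 0 s) :=
      (((l2.cs.mono hsub).norm.mul (l1.cf.mono hsub).norm).add
        ((l2.cf.mono hsub).norm.mul (l1.cs.mono hsub).norm))
    have hint : (∫ r in (0 : ℝ)..s, (‖s₁ r‖ * ‖ρ₂ r‖ + ‖p₂ r‖ * ‖s₀ r‖)) ≤
        ∫ r in (0 : ℝ)..s, 42 * G / n * gD (v r) (v₂ r) := by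
      apply intervalIntegral.integral_mono_on hs.1
      · apply ContinuousOn.intervalIntegrable
        rw [uIcc_of_le hs.1]
        exact hcont
      · rw [intervalIntegrable_iff_integrableOn_Icc_of_le hs.1]
        exact hgi.const_mul _
      · intro r hr
        obtain ⟨-, -, -, h3, h4⟩ := hdat r (hsub hr)
        obtain ⟨h1, h2⟩ := hb r hr
        have hg := hg0 r hr
        have k1 : ‖s₁ r‖ * ‖ρ₂ r‖ ≤ (10 * gD (v r) (v₂ r)) * (3 * G / n) :=
          mul_le_mul h4 h1 (norm_nonneg _) (by positivity)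
        have k2 : ‖p₂ r‖ * ‖s₀ r‖ ≤ (3 * G) * (4 / n * gD (v r) (v₂ r)) :=
          mul_le_mul h2 h3 (norm_nonneg _) (by positivity)
        calc _ ≤ (10 * gD (v r) (v₂ r)) * (3 * G / n) + (3 * G) * (4 / n * gD (v r) (v₂ r)) :=
              add_le_add k1 k2
          _ = 42 * G / n * gD (v r) (v₂ r) := by ring
    rw [intervalIntegral.integral_const_mul] at hint
    have hI1 : (∫ r in (0 : ℝ)..s, gD (v r) (v₂ r)) ≤ G := by linarith
    have hint2 : 42 * G / n * (∫ r in (0 : ℝ)..s, gD (v r) (v₂ r)) ≤ 42 * G ^ 2 / n := by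
      calc _ ≤ 42 * G / n * G := mul_le_mul_of_nonneg_left hI1 (by positivity)
        _ = 42 * G ^ 2 / n := by ring
    have a1 := hprod s hsm
    have a2 := hprod 0 h0m
    have hfin : 8 * (∫ r in (0 : ℝ)..s, gF ρ₂ p₂ e₂ r) ≤ 60 * (G ^ 2 / n) := by
      calc _ ≤ 9 * G ^ 2 / n + 9 * G ^ 2 / n + 42 * G ^ 2 / n := by linarith
        _ = 60 * (G ^ 2 / n) := by ring
    have hq : 0 ≤ G ^ 2 / n := by positivity
    calc (∫ r in (0 : ℝ)..s, gF ρ₂ p₂ e₂ r) ≤ 8 * (G ^ 2 / n) := by linarith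
      _ = 8 * G ^ 2 / n := by ring

end Pool.Agent.Lib.MP424d38.ES
end
end

section
/-!
# KIN: the kinetic data of a solution
-/
set_option autoImplicit false

open MeasureTheory Filter Topology Set
open scoped ENNReal ContDiff ComplexConjugate

noncomputable section

namespace Pool.Agent.Lib.MP424d38.ES

open Pool.Agent.Lib.MP424d38.TY

namespace KINM

open MoLem

/-- the clamp of `l` to `[-Λ, Λ]` -/
def W (Λ l : ℝ) : ℝ := max (-Λ) (min Λ l)

theorem W_meas (Λ : ℝ) : Measurable (W Λ) := measurable_const.max (measurable_const.min measurable_id)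

theorem W_cases {Λ : ℝ} (hΛ : 0 ≤ Λ) (l : ℝ) :
    (|l| ≤ Λ ∧ W Λ l = l) ∨ (Λ < l ∧ W Λ l = Λ) ∨ (l < -Λ ∧ W Λ l = -Λ) := by
  unfold W
  rcases le_or_gt l Λ with h | h
  · rcases le_or_gt (-Λ) l with h' | h'
    · refine Or.inl ⟨abs_le.2 ⟨h', h⟩, ?_⟩
      rw [min_eq_right h, max_eq_right h']
    · refine Or.inr (Or.inr ⟨h', ?_⟩)
      rw [min_eq_right h, max_eq_left h'.le]
  · refine Or.inr (Or.inl ⟨h, ?_⟩)
    rw [min_eq_left h.le, max_eq_right (by linarith)]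

theorem W_bd {Λ : ℝ} (hΛ : 0 ≤ Λ) (l : ℝ) : |W Λ l| ≤ Λ := by
  rcases W_cases hΛ l with ⟨h, e⟩ | ⟨h, e⟩ | ⟨h, e⟩ <;> rw [e]
  · exact h
  · rw [abs_of_nonneg hΛ]
  · rw [abs_neg, abs_of_nonneg hΛ]

theorem W_le {Λ : ℝ} (hΛ : 0 ≤ Λ) (l : ℝ) : |W Λ l| ≤ |l| := by
  rcases W_cases hΛ l with ⟨h, e⟩ | ⟨h, e⟩ | ⟨h, e⟩ <;> rw [e]
  · rw [abs_of_nonneg hΛ, abs_of_nonneg (by linarith)]
    exact h.le
  · rw [abs_neg, abs_of_nonneg hΛ, abs_of_neg (by linarith)]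
    linarith

theorem W_sub {Λ : ℝ} (hΛ : 0 ≤ Λ) (l : ℝ) : |l - W Λ l| = max (|l| - Λ) 0 := by
  rcases W_cases hΛ l with ⟨h, e⟩ | ⟨h, e⟩ | ⟨h, e⟩ <;> rw [e]
  · rw [sub_self, abs_zero, max_eq_right (by linarith)]
  · rw [abs_of_nonneg (by linarith : 0 ≤ l - Λ), abs_of_nonneg (by linarith : 0 ≤ l),
      max_eq_left (by linarith)]
  · rw [abs_of_neg (by linarith : l - -Λ < 0), abs_of_neg (by linarith : l < 0),
      max_eq_left (by linarith)]
    ring

theorem W_lip {Λ : ℝ} (hΛ : 0 ≤ Λ) (l l' : ℝ) :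
    |(W Λ l - 1 * l) - (W Λ l' - 1 * l')| ≤ |l - l'| := by
  rcases W_cases hΛ l with ⟨h, e⟩ | ⟨h, e⟩ | ⟨h, e⟩ <;>
  rcases W_cases hΛ l' with ⟨h', e'⟩ | ⟨h', e'⟩ | ⟨h', e'⟩ <;> rw [e, e'] <;>
  rw [abs_le] <;> rcases abs_cases (l - l') with ⟨h1, h2⟩ | ⟨h1, h2⟩ <;> rw [h1] <;>
  (try rw [abs_le] at h) <;> (try rw [abs_le] at h') <;> constructor <;> linarith

theorem W_admK {Λ : ℝ} (hΛ : 0 ≤ Λ) : AdmK Λ (W Λ) := by
  refine ⟨W_meas Λ, ⟨Λ, W_bd hΛ⟩, 1, W_lip hΛ, fun l hl => ?_⟩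
  rcases W_cases hΛ l with ⟨h, e⟩ | ⟨h, e⟩ | ⟨h, e⟩ <;> rw [e]
  · ring
  · exact absurd hl (not_le.2 (lt_of_lt_of_le h (le_abs_self l)))
  · exact absurd hl (not_le.2 (lt_of_lt_of_le (by linarith) (neg_le_abs l)))

theorem g1 (l : ℝ) : |l| ≤ 1 * (1 + l ^ 2) := by
  rcases abs_cases l with ⟨h, -⟩ | ⟨h, -⟩ <;> rw [h] <;> nlinarith [sq_nonneg (l - 1),
      sq_nonneg (l + 1)]

end KINM

open MoLem KINM in
theorem specKIN (hTAI : SpecTAI) (hMLW : SpecMLW) (hMTX : SpecMTX) (hMDE : SpecMDE)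
    (hXGR : SpecXGR) (hGGI : SpecGGI) : SpecKIN := by
  classical
  obtain ⟨C, hC, hTAI⟩ := hTAI
  refine ⟨C + 1, by linarith, ?_⟩
  intro P hP T v v₁ v₂ N hT0 hv ρ p e hdat
  obtain ⟨hX1, hX2⟩ := hXGR P hP T v v₁ v₂ N hv
  have hS : ∀ Λ : ℝ, ∃ S : L2 →L[ℂ] L2, 1 ≤ Λ → IsMT P (W Λ) S := by
    intro Λ
    by_cases h : 1 ≤ Λ
    · obtain ⟨S, hS⟩ := (hMTX P hP (W Λ) Λ (W_meas Λ) (W_bd (by linarith))).1
      exact ⟨S, fun _ => hS⟩
    · exact ⟨0, fun h' => absurd h' h⟩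
  choose S hS using hS
  have hw : ∀ Λ : ℝ, ∃ m f c : ℝ → L1, 1 ≤ Λ → (LawS T m (fun t => (4 : ℝ) • f t) c ∧
      ∀ t ∈ Ico 0 T, (∀ᵐ a : ℝ, m t a = Mo P (W Λ) (v t) a) ∧
        (∀ᵐ a : ℝ, f t a = Mo P (fun l => l * W Λ l) (v t) a) ∧
        (∀ᵐ a : ℝ, c t a = src (S Λ) (v t) (N t) a)) := by
    intro Λ
    by_cases h : 1 ≤ Λ
    · obtain ⟨m, f, c, h1⟩ := hMLW P hP T v v₁ v₂ N hv (W Λ) Λ (S Λ) (W_meas Λ)
        (W_bd (by linarith)) (hS Λ h)
      exact ⟨m, f, c, fun _ => h1⟩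
    · exact ⟨0, 0, 0, fun h' => absurd h' h⟩
  choose w f c hw using hw
  have hpn : ∀ t ∈ Ico 0 T, ‖p t‖ = ∫ a, |momD (v t) (v₂ t) a| := by
    intro t ht
    rw [l1_norm]
    apply integral_congr_ae
    filter_upwards [(hdat t ht).2.1] with a ha
    rw [ha]
  have hgF : ∀ t ∈ Ico 0 T, gF ρ p e t = gD (v t) (v₂ t) := fun t ht => (hdat t ht).2.2
  have hIeq : ∀ t ∈ Ico 0 T, (∫ r in (0 : ℝ)..t, gF ρ p e r) =
      ∫ r in (0 : ℝ)..t, gD (v r) (v₂ r) := by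
    intro t ht
    apply intervalIntegral.integral_congr
    intro r hr
    rw [uIcc_of_le ht.1] at hr
    exact hgF r ⟨hr.1, lt_of_le_of_lt hr.2 ht.2⟩
  have hGa : ∀ t ∈ Ico 0 T, Ga ρ p e t = 1 + ∫ r in (0 : ℝ)..t, gD (v r) (v₂ r) := by
    intro t ht
    unfold Ga
    rw [hIeq t ht]
  have hI0 : ∀ t ∈ Ico 0 T, 0 ≤ ∫ r in (0 : ℝ)..t, gD (v r) (v₂ r) := fun t ht =>
    intervalIntegral.integral_nonneg ht.1 fun r hr =>
      (hGGI T v v₁ v₂ N hv r ⟨hr.1, lt_of_le_of_lt hr.2 ht.2⟩).1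
  have hGa1 : ∀ t ∈ Ico 0 T, 1 ≤ Ga ρ p e t := fun t ht => by
    rw [hGa t ht]
    linarith [hI0 t ht]
  have hpi : (2 : ℝ) ≤ Real.pi := Real.two_le_pi
  have hX : ∀ t ∈ Ico 0 T, XX P (v t) ≤ XX P (v 0) + 2 * Ga ρ p e t := by
    intro t ht
    have h1 := (hX1 0 t le_rfl ht.1 ht.2).2
    rw [hGa t ht]
    have h2 : 4 / Real.pi ≤ 2 := by
      rw [div_le_iff₀ Real.pi_pos]
      linarith
    have h3 := mul_le_mul_of_nonneg_right h2 (hI0 t ht)
    linarith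
  have h0T : (0 : ℝ) ∈ Ico 0 T := ⟨le_rfl, hT0⟩
  -- the norms of the moments
  have hmo : ∀ t ∈ Ico 0 T, ∀ φ ψ : ℝ → ℝ, Measurable φ → Measurable ψ → (∀ s, |φ s| ≤ ψ s) →
      ∀ c : ℝ, (∀ s, ψ s ≤ c * (1 + s ^ 2)) → ∀ g : L1, (∀ᵐ a : ℝ, g a = Mo P φ (v t) a) →
      ‖g‖ ≤ ∫ x : ℝ × ℝ, ψ (2 * Real.pi * x.2) * ‖P (v t) x‖ ^ 2 := by
    intro t ht φ ψ h1 h2 h3 c h4 g hg
    obtain ⟨-, d2, -⟩ := hMDE P hP (v t) (v₁ t) (v₂ t) (hv.h1 t ht)
    have h5 := (norm_mo d2 h1 h2 h3 h4).2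
    rw [l1_norm]
    refine le_trans (le_of_eq ?_) h5
    apply integral_congr_ae
    filter_upwards [hg] with a ha
    rw [ha]
  refine ⟨w, f, c, ?_, hX, fun Λ hΛ => (hw Λ hΛ).1, ?_, ?_, ?_, ?_⟩
  · intro t ht
    rw [hpn t ht]
    exact hX2 t ht
  · intro Λ hΛ t ht
    obtain ⟨d1, -, -⟩ := hMDE P hP (v t) (v₁ t) (v₂ t) (hv.h1 t ht)
    filter_upwards [d1, ((hw Λ hΛ).2 t ht).1, (hdat t ht).1] with a h1 h2 h3
    obtain ⟨i0, i1, -, -⟩ := h1
    rw [h2, h3, i1]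
    unfold Mo
    rw [← integral_const_mul, ← Real.norm_eq_abs]
    refine (norm_integral_le_integral_norm _).trans ?_
    have hΛ0 : (0 : ℝ) ≤ Λ := by linarith
    refine integral_mono (int_slice i0 (W_meas Λ) (c := Λ) fun s => ?_).norm
      ((int_slice i0 (φ := fun _ => 1) (c := 1) measurable_const fun s => ?_).const_mul Λ)
      fun ξ => ?_
    · refine (W_bd hΛ0 s).trans ?_
      nlinarith [mul_nonneg hΛ0 (sq_nonneg s)]
    · rw [abs_one]
      nlinarith [sq_nonneg s]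
    · show ‖W Λ (2 * Real.pi * ξ) * ‖P (v t) (a, ξ)‖ ^ 2‖ ≤ Λ * (1 * ‖P (v t) (a, ξ)‖ ^ 2)
      rw [norm_mul, Real.norm_eq_abs, Real.norm_eq_abs, abs_of_nonneg (sq_nonneg ‖P (v t) (a, ξ)‖),
        one_mul]
      exact mul_le_mul_of_nonneg_right (W_bd hΛ0 _) (sq_nonneg _)
  · intro Λ hΛ t ht
    exact hmo t ht _ (fun l => |l|) (W_meas Λ) continuous_abs.measurable (W_le (by linarith)) 1 g1 _
      ((hw Λ hΛ).2 t ht).1
  · intro Λ hΛ t ht
    have hΛ0 : (0 : ℝ) ≤ Λ := by linarith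
    have h1 := hmo t ht (fun l => l * W Λ l) (fun l => Λ * |l|) (measurable_id.mul (W_meas Λ))
      (continuous_abs.measurable.const_mul Λ) (fun s => by
        rw [abs_mul, mul_comm]
        exact mul_le_mul_of_nonneg_right (W_bd hΛ0 s) (abs_nonneg _)) Λ (fun s =>
        mul_le_mul_of_nonneg_left ((g1 s).trans (le_of_eq (one_mul _))) hΛ0) _
      ((hw Λ hΛ).2 t ht).2.1
    refine h1.trans (le_of_eq ?_)
    unfold XX
    rw [← integral_const_mul]
    apply integral_congr_ae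
    refine Eventually.of_forall fun x => ?_
    show Λ * |2 * Real.pi * x.2| * ‖P (v t) x‖ ^ 2 = Λ * (|2 * Real.pi * x.2| * ‖P (v t) x‖ ^ 2)
    ring
  · intro hlim M hM
    -- the time `t₁`
    have hev := hlim.eventually (eventually_ge_atTop (max (XX P (v 0)) ‖v₂ 0‖))
    obtain ⟨l, hl, hl'⟩ := (mem_nhdsLT_iff_exists_Ioo_subset).1 hev
    have hl : l < T := hl
    refine ⟨max 0 ((l + T) / 2), ⟨le_max_left _ _, max_lt hT0 (by linarith)⟩, ?_⟩
    intro s hs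
    have hs0 : s ∈ Ico 0 T := ⟨(le_max_left _ _).trans hs.1, hs.2⟩
    have hls : l < s := lt_of_lt_of_le (by
      have : (l + T) / 2 ≤ max 0 ((l + T) / 2) := le_max_right _ _
      linarith) hs.1
    have hbig : max (XX P (v 0)) ‖v₂ 0‖ ≤ Ga ρ p e s := hl' ⟨hls, hs.2⟩
    have hb1 := (le_max_left _ _).trans hbig
    have hb2 := (le_max_right _ _).trans hbig
    set G := Ga ρ p e s with hGdef
    have hG1 : 1 ≤ G := hGa1 s hs0
    have hM0 : (0 : ℝ) < M := by linarith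
    have hsq : 0 < Real.sqrt M := Real.sqrt_pos.2 hM0
    have hsq1 : 1 ≤ Real.sqrt M := Real.one_le_sqrt.2 (by linarith)
    have hMG : 1 ≤ M * G := by nlinarith
    have hsub : Icc 0 s ⊆ Ico 0 T := fun r hr => ⟨hr.1, lt_of_le_of_lt hr.2 hs0.2⟩
    have hmono : ∀ t ∈ Icc 0 s, Ga ρ p e t ≤ G := by
      intro t ht
      rw [hGdef, hGa t (hsub ht), hGa s hs0]
      have hi := (hGGI T v v₁ v₂ N hv s hs0).2
      have h1 : IntervalIntegrable (fun r => gD (v r) (v₂ r)) volume 0 s := by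
        rw [intervalIntegrable_iff_integrableOn_Icc_of_le hs0.1]
        exact hi
      have := intervalIntegral.integral_mono_interval le_rfl ht.1 ht.2
        ((ae_restrict_iff' measurableSet_Ioc).2 (Eventually.of_forall fun r hr =>
          (hGGI T v v₁ v₂ N hv r (hsub ⟨hr.1.le, hr.2⟩)).1)) h1
      linarith
    have hX3 : ∀ t ∈ Icc 0 s, XX P (v t) ≤ 3 * G := by
      intro t ht
      have h1 := hX t (hsub ht)
      have h2 := hmono t ht
      linarith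
    have hG2 : 1 + (∫ r in (0 : ℝ)..s, gD (v r) (v₂ r)) ≤ G := by
      rw [hGdef, hGa s hs0]
    obtain ⟨ht1, ht2⟩ := hTAI P hP T v v₁ v₂ N hv s hs0 G M hM hX3 hG2
    have hCs : C / Real.sqrt M * G ≤ (C + 1) / Real.sqrt M * G := by
      refine mul_le_mul_of_nonneg_right (div_le_div_of_nonneg_right (by linarith) hsq.le)
        (by linarith)
    constructor
    · -- `‖p - w‖`
      have h1 : ∀ᵐ a : ℝ, (p s - w (M * G) s : L1) a =
          Mo P (fun l => l - W (M * G) l) (v s) a := by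
        obtain ⟨d1, -, -⟩ := hMDE P hP (v s) (v₁ s) (v₂ s) (hv.h1 s hs0)
        filter_upwards [d1, ((hw (M * G) hMG).2 s hs0).1, (hdat s hs0).2.1,
          Lp.coeFn_sub (p s) (w (M * G) s)] with a h1 h2 h3 h4
        obtain ⟨i0, -, i2, -⟩ := h1
        rw [h4, Pi.sub_apply, h3, h2, i2]
        unfold Mo
        rw [← integral_sub (int_slice i0 (φ := fun l => l) measurable_id g1)
          (int_slice i0 (W_meas _) (c := 1) fun s => (W_le (by linarith) s).trans (g1 s))]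
        apply integral_congr_ae
        refine Eventually.of_forall fun ξ => ?_
        show 2 * Real.pi * ξ * _ - W (M * G) (2 * Real.pi * ξ) * _ =
          (2 * Real.pi * ξ - W (M * G) (2 * Real.pi * ξ)) * _
        ring
      have h2 := hmo s hs0 (fun l => l - W (M * G) l) (fun l => max (|l| - M * G) 0)
        (measurable_id.sub (W_meas _)) ((continuous_abs.sub continuous_const).max
          continuous_const).measurable (fun l => (W_sub (by linarith) l).le) 1 (fun l => by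
          refine max_le ?_ (by positivity)
          have := g1 l
          linarith) _ h1
      have h3 : ‖v₂ 0‖ ^ 2 / (4 * (M * G)) ≤ 1 / Real.sqrt M * G := by
        rw [div_le_iff₀ (by positivity)]
        have e1 : 1 / Real.sqrt M * G * (4 * (M * G)) = 4 * Real.sqrt M * G ^ 2 := by
          have : M = Real.sqrt M * Real.sqrt M := (Real.mul_self_sqrt hM0.le).symm
          nth_rewrite 2 [this]
          field_simp
        rw [e1]
        have h4 : ‖v₂ 0‖ ^ 2 ≤ G ^ 2 := pow_le_pow_left₀ (norm_nonneg _) hb2 2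
        nlinarith [sq_nonneg G]
      calc ‖p s - w (M * G) s‖ ≤ YY P (M * G) (v s) := h2
        _ ≤ ‖v₂ 0‖ ^ 2 / (4 * (M * G)) + C / Real.sqrt M * G := ht2
        _ ≤ 1 / Real.sqrt M * G + C / Real.sqrt M * G := by linarith
        _ = (C + 1) / Real.sqrt M * G := by ring
    · refine le_trans (le_of_eq ?_) ((ht1 (W (M * G)) (S (M * G)) (W_admK (by linarith))
        (hS _ hMG)).trans hCs)
      apply intervalIntegral.integral_congr
      intro r hr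
      rw [uIcc_of_le hs0.1] at hr
      show ‖c (M * G) r‖ = ∫ a, |src (S (M * G)) (v r) (N r) a|
      rw [l1_norm]
      apply integral_congr_ae
      filter_upwards [((hw (M * G) hMG).2 r (hsub hr)).2.2] with a ha
      rw [ha]

end Pool.Agent.Lib.MP424d38.ES
end
end

section
/-!
# KI2: the refined kinetic data of a solution (KIN with the field `hf2`)
-/
set_option autoImplicit false

open MeasureTheory Filter Topology Set
open scoped ENNReal ContDiff ComplexConjugate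

noncomputable section

namespace Pool.Agent.Lib.MP424d38.ES

open Pool.Agent.Lib.MP424d38.TY

namespace KI2M

open MoLem KINM

theorem W_min {Λ : ℝ} (hΛ : 0 ≤ Λ) (l : ℝ) : |W Λ l| = min |l| Λ := by
  rcases W_cases hΛ l with ⟨h, e⟩ | ⟨h, e⟩ | ⟨h, e⟩ <;> rw [e]
  · rw [min_eq_left h]
  · rw [abs_of_nonneg hΛ, abs_of_nonneg (by linarith), min_eq_right h.le]
  · rw [abs_neg, abs_of_nonneg hΛ, abs_of_neg (by linarith), min_eq_right (by linarith)]

end KI2M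

open MoLem KINM KI2M in
theorem specKI2 (hTAI : SpecTAI) (hHF2 : SpecHF2) (hMLW : SpecMLW) (hMTX : SpecMTX)
    (hMDE : SpecMDE) (hXGR : SpecXGR) (hGGI : SpecGGI) : SpecKI2 := by
  classical
  obtain ⟨C, hC, hTAI⟩ := hTAI
  obtain ⟨C', hC', hHF2⟩ := hHF2
  refine ⟨C + 1, by linarith, ?_⟩
  intro P hP T v v₁ v₂ N hT0 hv ρ p e hdat
  obtain ⟨hX1, hX2⟩ := hXGR P hP T v v₁ v₂ N hv
  have hS : ∀ Λ : ℝ, ∃ S : L2 →L[ℂ] L2, 1 ≤ Λ → IsMT P (W Λ) S := by
    intro Λ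
    by_cases h : 1 ≤ Λ
    · obtain ⟨S, hS⟩ := (hMTX P hP (W Λ) Λ (W_meas Λ) (W_bd (by linarith))).1
      exact ⟨S, fun _ => hS⟩
    · exact ⟨0, fun h' => absurd h' h⟩
  choose S hS using hS
  have hw : ∀ Λ : ℝ, ∃ m f c : ℝ → L1, 1 ≤ Λ → (LawS T m (fun t => (4 : ℝ) • f t) c ∧
      ∀ t ∈ Ico 0 T, (∀ᵐ a : ℝ, m t a = Mo P (W Λ) (v t) a) ∧
        (∀ᵐ a : ℝ, f t a = Mo P (fun l => l * W Λ l) (v t) a) ∧
        (∀ᵐ a : ℝ, c t a = src (S Λ) (v t) (N t) a)) := by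
    intro Λ
    by_cases h : 1 ≤ Λ
    · obtain ⟨m, f, c, h1⟩ := hMLW P hP T v v₁ v₂ N hv (W Λ) Λ (S Λ) (W_meas Λ)
        (W_bd (by linarith)) (hS Λ h)
      exact ⟨m, f, c, fun _ => h1⟩
    · exact ⟨0, 0, 0, fun h' => absurd h' h⟩
  choose w f c hw using hw
  have hpn : ∀ t ∈ Ico 0 T, ‖p t‖ = ∫ a, |momD (v t) (v₂ t) a| := by
    intro t ht
    rw [l1_norm]
    apply integral_congr_ae
    filter_upwards [(hdat t ht).2.1] with a ha
    rw [ha]
  have hgF : ∀ t ∈ Ico 0 T, gF ρ p e t = gD (v t) (v₂ t) := fun t ht => (hdat t ht).2.2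
  have hIeq : ∀ t ∈ Ico 0 T, (∫ r in (0 : ℝ)..t, gF ρ p e r) =
      ∫ r in (0 : ℝ)..t, gD (v r) (v₂ r) := by
    intro t ht
    apply intervalIntegral.integral_congr
    intro r hr
    rw [uIcc_of_le ht.1] at hr
    exact hgF r ⟨hr.1, lt_of_le_of_lt hr.2 ht.2⟩
  have hGa : ∀ t ∈ Ico 0 T, Ga ρ p e t = 1 + ∫ r in (0 : ℝ)..t, gD (v r) (v₂ r) := by
    intro t ht
    unfold Ga
    rw [hIeq t ht]
  have hI0 : ∀ t ∈ Ico 0 T, 0 ≤ ∫ r in (0 : ℝ)..t, gD (v r) (v₂ r) := fun t ht =>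
    intervalIntegral.integral_nonneg ht.1 fun r hr =>
      (hGGI T v v₁ v₂ N hv r ⟨hr.1, lt_of_le_of_lt hr.2 ht.2⟩).1
  have hGa1 : ∀ t ∈ Ico 0 T, 1 ≤ Ga ρ p e t := fun t ht => by
    rw [hGa t ht]
    linarith [hI0 t ht]
  have hpi : (2 : ℝ) ≤ Real.pi := Real.two_le_pi
  have hX : ∀ t ∈ Ico 0 T, XX P (v t) ≤ XX P (v 0) + 2 * Ga ρ p e t := by
    intro t ht
    have h1 := (hX1 0 t le_rfl ht.1 ht.2).2
    rw [hGa t ht]
    have h2 : 4 / Real.pi ≤ 2 := by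
      rw [div_le_iff₀ Real.pi_pos]
      linarith
    have h3 := mul_le_mul_of_nonneg_right h2 (hI0 t ht)
    linarith
  have h0T : (0 : ℝ) ∈ Ico 0 T := ⟨le_rfl, hT0⟩
  -- the norms of the moments
  have hmo : ∀ t ∈ Ico 0 T, ∀ φ ψ : ℝ → ℝ, Measurable φ → Measurable ψ → (∀ s, |φ s| ≤ ψ s) →
      ∀ c : ℝ, (∀ s, ψ s ≤ c * (1 + s ^ 2)) → ∀ g : L1, (∀ᵐ a : ℝ, g a = Mo P φ (v t) a) →
      ‖g‖ ≤ ∫ x : ℝ × ℝ, ψ (2 * Real.pi * x.2) * ‖P (v t) x‖ ^ 2 := by
    intro t ht φ ψ h1 h2 h3 c h4 g hg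
    obtain ⟨-, d2, -⟩ := hMDE P hP (v t) (v₁ t) (v₂ t) (hv.h1 t ht)
    have h5 := (norm_mo d2 h1 h2 h3 h4).2
    rw [l1_norm]
    refine le_trans (le_of_eq ?_) h5
    apply integral_congr_ae
    filter_upwards [hg] with a ha
    rw [ha]
  refine ⟨w, f, c, ⟨?_, hX, fun Λ hΛ => (hw Λ hΛ).1, ?_, ?_, ?_, ?_⟩, ?_⟩
  · intro t ht
    rw [hpn t ht]
    exact hX2 t ht
  · intro Λ hΛ t ht
    obtain ⟨d1, -, -⟩ := hMDE P hP (v t) (v₁ t) (v₂ t) (hv.h1 t ht)
    filter_upwards [d1, ((hw Λ hΛ).2 t ht).1, (hdat t ht).1] with a h1 h2 h3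
    obtain ⟨i0, i1, -, -⟩ := h1
    rw [h2, h3, i1]
    unfold Mo
    rw [← integral_const_mul, ← Real.norm_eq_abs]
    refine (norm_integral_le_integral_norm _).trans ?_
    have hΛ0 : (0 : ℝ) ≤ Λ := by linarith
    refine integral_mono (int_slice i0 (W_meas Λ) (c := Λ) fun s => ?_).norm
      ((int_slice i0 (φ := fun _ => 1) (c := 1) measurable_const fun s => ?_).const_mul Λ)
      fun ξ => ?_
    · refine (W_bd hΛ0 s).trans ?_
      nlinarith [mul_nonneg hΛ0 (sq_nonneg s)]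
    · rw [abs_one]
      nlinarith [sq_nonneg s]
    · show ‖W Λ (2 * Real.pi * ξ) * ‖P (v t) (a, ξ)‖ ^ 2‖ ≤ Λ * (1 * ‖P (v t) (a, ξ)‖ ^ 2)
      rw [norm_mul, Real.norm_eq_abs, Real.norm_eq_abs, abs_of_nonneg (sq_nonneg ‖P (v t) (a, ξ)‖),
        one_mul]
      exact mul_le_mul_of_nonneg_right (W_bd hΛ0 _) (sq_nonneg _)
  · intro Λ hΛ t ht
    exact hmo t ht _ (fun l => |l|) (W_meas Λ) continuous_abs.measurable (W_le (by linarith)) 1 g1 _
      ((hw Λ hΛ).2 t ht).1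
  · intro Λ hΛ t ht
    have hΛ0 : (0 : ℝ) ≤ Λ := by linarith
    have h1 := hmo t ht (fun l => l * W Λ l) (fun l => Λ * |l|) (measurable_id.mul (W_meas Λ))
      (continuous_abs.measurable.const_mul Λ) (fun s => by
        rw [abs_mul, mul_comm]
        exact mul_le_mul_of_nonneg_right (W_bd hΛ0 s) (abs_nonneg _)) Λ (fun s =>
        mul_le_mul_of_nonneg_left ((g1 s).trans (le_of_eq (one_mul _))) hΛ0) _
      ((hw Λ hΛ).2 t ht).2.1
    refine h1.trans (le_of_eq ?_)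
    unfold XX
    rw [← integral_const_mul]
    apply integral_congr_ae
    refine Eventually.of_forall fun x => ?_
    show Λ * |2 * Real.pi * x.2| * ‖P (v t) x‖ ^ 2 = Λ * (|2 * Real.pi * x.2| * ‖P (v t) x‖ ^ 2)
    ring
  · intro hlim M hM
    -- the time `t₁`
    have hev := hlim.eventually (eventually_ge_atTop (max (XX P (v 0)) ‖v₂ 0‖))
    obtain ⟨l, hl, hl'⟩ := (mem_nhdsLT_iff_exists_Ioo_subset).1 hev
    have hl : l < T := hl
    refine ⟨max 0 ((l + T) / 2), ⟨le_max_left _ _, max_lt hT0 (by linarith)⟩, ?_⟩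
    intro s hs
    have hs0 : s ∈ Ico 0 T := ⟨(le_max_left _ _).trans hs.1, hs.2⟩
    have hls : l < s := lt_of_lt_of_le (by
      have : (l + T) / 2 ≤ max 0 ((l + T) / 2) := le_max_right _ _
      linarith) hs.1
    have hbig : max (XX P (v 0)) ‖v₂ 0‖ ≤ Ga ρ p e s := hl' ⟨hls, hs.2⟩
    have hb1 := (le_max_left _ _).trans hbig
    have hb2 := (le_max_right _ _).trans hbig
    set G := Ga ρ p e s with hGdef
    have hG1 : 1 ≤ G := hGa1 s hs0
    have hM0 : (0 : ℝ) < M := by linarith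
    have hsq : 0 < Real.sqrt M := Real.sqrt_pos.2 hM0
    have hsq1 : 1 ≤ Real.sqrt M := Real.one_le_sqrt.2 (by linarith)
    have hMG : 1 ≤ M * G := by nlinarith
    have hsub : Icc 0 s ⊆ Ico 0 T := fun r hr => ⟨hr.1, lt_of_le_of_lt hr.2 hs0.2⟩
    have hmono : ∀ t ∈ Icc 0 s, Ga ρ p e t ≤ G := by
      intro t ht
      rw [hGdef, hGa t (hsub ht), hGa s hs0]
      have hi := (hGGI T v v₁ v₂ N hv s hs0).2
      have h1 : IntervalIntegrable (fun r => gD (v r) (v₂ r)) volume 0 s := by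
        rw [intervalIntegrable_iff_integrableOn_Icc_of_le hs0.1]
        exact hi
      have := intervalIntegral.integral_mono_interval le_rfl ht.1 ht.2
        ((ae_restrict_iff' measurableSet_Ioc).2 (Eventually.of_forall fun r hr =>
          (hGGI T v v₁ v₂ N hv r (hsub ⟨hr.1.le, hr.2⟩)).1)) h1
      linarith
    have hX3 : ∀ t ∈ Icc 0 s, XX P (v t) ≤ 3 * G := by
      intro t ht
      have h1 := hX t (hsub ht)
      have h2 := hmono t ht
      linarith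
    have hG2 : 1 + (∫ r in (0 : ℝ)..s, gD (v r) (v₂ r)) ≤ G := by
      rw [hGdef, hGa s hs0]
    obtain ⟨ht1, ht2⟩ := hTAI P hP T v v₁ v₂ N hv s hs0 G M hM hX3 hG2
    have hCs : C / Real.sqrt M * G ≤ (C + 1) / Real.sqrt M * G := by
      refine mul_le_mul_of_nonneg_right (div_le_div_of_nonneg_right (by linarith) hsq.le)
        (by linarith)
    constructor
    · -- `‖p - w‖`
      have h1 : ∀ᵐ a : ℝ, (p s - w (M * G) s : L1) a =
          Mo P (fun l => l - W (M * G) l) (v s) a := by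
        obtain ⟨d1, -, -⟩ := hMDE P hP (v s) (v₁ s) (v₂ s) (hv.h1 s hs0)
        filter_upwards [d1, ((hw (M * G) hMG).2 s hs0).1, (hdat s hs0).2.1,
          Lp.coeFn_sub (p s) (w (M * G) s)] with a h1 h2 h3 h4
        obtain ⟨i0, -, i2, -⟩ := h1
        rw [h4, Pi.sub_apply, h3, h2, i2]
        unfold Mo
        rw [← integral_sub (int_slice i0 (φ := fun l => l) measurable_id g1)
          (int_slice i0 (W_meas _) (c := 1) fun s => (W_le (by linarith) s).trans (g1 s))]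
        apply integral_congr_ae
        refine Eventually.of_forall fun ξ => ?_
        show 2 * Real.pi * ξ * _ - W (M * G) (2 * Real.pi * ξ) * _ =
          (2 * Real.pi * ξ - W (M * G) (2 * Real.pi * ξ)) * _
        ring
      have h2 := hmo s hs0 (fun l => l - W (M * G) l) (fun l => max (|l| - M * G) 0)
        (measurable_id.sub (W_meas _)) ((continuous_abs.sub continuous_const).max
          continuous_const).measurable (fun l => (W_sub (by linarith) l).le) 1 (fun l => by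
          refine max_le ?_ (by positivity)
          have := g1 l
          linarith) _ h1
      have h3 : ‖v₂ 0‖ ^ 2 / (4 * (M * G)) ≤ 1 / Real.sqrt M * G := by
        rw [div_le_iff₀ (by positivity)]
        have e1 : 1 / Real.sqrt M * G * (4 * (M * G)) = 4 * Real.sqrt M * G ^ 2 := by
          have : M = Real.sqrt M * Real.sqrt M := (Real.mul_self_sqrt hM0.le).symm
          nth_rewrite 2 [this]
          field_simp
        rw [e1]
        have h4 : ‖v₂ 0‖ ^ 2 ≤ G ^ 2 := pow_le_pow_left₀ (norm_nonneg _) hb2 2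
        nlinarith [sq_nonneg G]
      calc ‖p s - w (M * G) s‖ ≤ YY P (M * G) (v s) := h2
        _ ≤ ‖v₂ 0‖ ^ 2 / (4 * (M * G)) + C / Real.sqrt M * G := ht2
        _ ≤ 1 / Real.sqrt M * G + C / Real.sqrt M * G := by linarith
        _ = (C + 1) / Real.sqrt M * G := by ring
    · refine le_trans (le_of_eq ?_) ((ht1 (W (M * G)) (S (M * G)) (W_admK (by linarith))
        (hS _ hMG)).trans hCs)
      apply intervalIntegral.integral_congr
      intro r hr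
      rw [uIcc_of_le hs0.1] at hr
      show ‖c (M * G) r‖ = ∫ a, |src (S (M * G)) (v r) (N r) a|
      rw [l1_norm]
      apply integral_congr_ae
      filter_upwards [((hw (M * G) hMG).2 r (hsub hr)).2.2] with a ha
      rw [ha]
  · intro hlim M hM
    have hev := hlim.eventually (eventually_ge_atTop (XX P (v 0)))
    obtain ⟨l, hl, hl'⟩ := (mem_nhdsLT_iff_exists_Ioo_subset).1 hev
    have hl : l < T := hl
    have hM0 : (0 : ℝ) < M := by linarith
    refine ⟨C' * ((1 + ‖v₂ 0‖ ^ 2) * Real.sqrt M + 1), by positivity,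
      max 0 ((l + T) / 2), ⟨le_max_left _ _, max_lt hT0 (by linarith)⟩, ?_⟩
    intro t s ht1 hts hsT
    have ht0 : t ∈ Ico 0 T := ⟨(le_max_left _ _).trans ht1, lt_of_le_of_lt hts hsT⟩
    have hs0 : s ∈ Ico 0 T := ⟨ht0.1.trans hts, hsT⟩
    have hlt : l < t := lt_of_lt_of_le (by
      have : (l + T) / 2 ≤ max 0 ((l + T) / 2) := le_max_right _ _
      linarith) ht1
    have hbig : XX P (v 0) ≤ Ga ρ p e t := hl' ⟨hlt, ht0.2⟩
    have hmono : ∀ x y : ℝ, 0 ≤ x → x ≤ y → y < T → Ga ρ p e x ≤ Ga ρ p e y := by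
      intro x y hx hxy hy
      have hy0 : y ∈ Ico 0 T := ⟨hx.trans hxy, hy⟩
      have hx0 : x ∈ Ico 0 T := ⟨hx, lt_of_le_of_lt hxy hy⟩
      rw [hGa x hx0, hGa y hy0]
      have hi := (hGGI T v v₁ v₂ N hv y hy0).2
      have h1 : IntervalIntegrable (fun r => gD (v r) (v₂ r)) volume 0 y := by
        rw [intervalIntegrable_iff_integrableOn_Icc_of_le hy0.1]
        exact hi
      have := intervalIntegral.integral_mono_interval le_rfl hx hxy
        ((ae_restrict_iff' measurableSet_Ioc).2 (Eventually.of_forall fun r hr =>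
          (hGGI T v v₁ v₂ N hv r ⟨hr.1.le, lt_of_le_of_lt hr.2 hy⟩).1)) h1
      linarith
    have hGt1 : 1 ≤ Ga ρ p e t := hGa1 t ht0
    have hGs1 : 1 ≤ Ga ρ p e s := hGa1 s hs0
    have hts' : Ga ρ p e t ≤ Ga ρ p e s := hmono t s ht0.1 hts hsT
    have hX3 : ∀ r ∈ Icc 0 t, XX P (v r) ≤ 3 * Ga ρ p e t := by
      intro r hr
      have h1 := hX r ⟨hr.1, lt_of_le_of_lt hr.2 ht0.2⟩
      have h2 := hmono r t hr.1 hr.2 ht0.2
      linarith
    have hG2 : 1 + (∫ r in (0 : ℝ)..t, gD (v r) (v₂ r)) ≤ Ga ρ p e t := by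
      rw [hGa t ht0]
    generalize hGte : Ga ρ p e t = G at *
    generalize hGse : Ga ρ p e s = G' at *
    have hΛG : G ≤ M * G' := by nlinarith
    have hΛ1 : 1 ≤ M * G' := by nlinarith
    have h2 := hHF2 P hP T v v₁ v₂ N hv t ht0 G hX3 hG2 (M * G') hΛG
    have h1 := hmo t ht0 (fun l => l * W (M * G') l) (fun l => |l| * min |l| (M * G'))
      (measurable_id.mul (W_meas (M * G')))
      ((continuous_abs.mul (continuous_abs.min continuous_const)).measurable) (fun s => by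
        rw [abs_mul, W_min (by linarith)]) 1 (fun s => by
        have h3 : min |s| (M * G') ≤ |s| := min_le_left _ _
        have h4 := mul_le_mul_of_nonneg_left h3 (abs_nonneg s)
        have h5 : |s| * |s| = s ^ 2 := by rw [← sq, sq_abs]
        show |s| * min |s| (M * G') ≤ _
        rw [h5] at h4
        linarith) _
      ((hw (M * G') hΛ1).2 t ht0).2.1
    refine h1.trans (h2.trans ?_)
    have e1 : Real.sqrt (M * G') = Real.sqrt M * Real.sqrt G' := Real.sqrt_mul hM0.le _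
    rw [e1]
    have g1 : 1 ≤ Real.sqrt G := Real.one_le_sqrt.2 hGt1
    have g2 : Real.sqrt G ≤ Real.sqrt G' := Real.sqrt_le_sqrt hts'
    have g3 : 1 ≤ G * Real.sqrt G := by nlinarith
    have g4 : G ^ 2 = G * Real.sqrt G * Real.sqrt G := by
      rw [mul_assoc, Real.mul_self_sqrt (by linarith)]
      ring
    have g5 : G ^ 2 ≤ G * Real.sqrt G * Real.sqrt G' := by
      rw [g4]
      exact mul_le_mul_of_nonneg_left g2 (by linarith)
    have g6 : ‖v₂ 0‖ ^ 2 ≤ ‖v₂ 0‖ ^ 2 * (G * Real.sqrt G) :=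
      le_mul_of_one_le_right (sq_nonneg _) g3
    have g7 : C' * (G * Real.sqrt G + ‖v₂ 0‖ ^ 2) * (Real.sqrt M * Real.sqrt G') ≤
        C' * ((1 + ‖v₂ 0‖ ^ 2) * (G * Real.sqrt G)) * (Real.sqrt M * Real.sqrt G') := by
      refine mul_le_mul_of_nonneg_right (mul_le_mul_of_nonneg_left ?_ hC'.le) (by positivity)
      linarith
    have g8 : C' * G ^ 2 ≤ C' * (G * Real.sqrt G * Real.sqrt G') :=
      mul_le_mul_of_nonneg_left g5 hC'.le
    calc C' * (G * Real.sqrt G + ‖v₂ 0‖ ^ 2) * (Real.sqrt M * Real.sqrt G') + C' * G ^ 2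
        ≤ C' * ((1 + ‖v₂ 0‖ ^ 2) * (G * Real.sqrt G)) * (Real.sqrt M * Real.sqrt G')
          + C' * (G * Real.sqrt G * Real.sqrt G') := add_le_add g7 g8
      _ = C' * ((1 + ‖v₂ 0‖ ^ 2) * Real.sqrt M + 1) * (G * Real.sqrt G * Real.sqrt G') := by ring

end Pool.Agent.Lib.MP424d38.ES
end
end
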