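import Pool.Agent.Lib.MP_424d38_an.ES.SpecG

/-!
# PRS: pairs of frequencies
-/

set_option autoImplicit false

open MeasureTheory Filter Topology Set
open scoped ENNReal ContDiff ComplexConjugate FourierTransform

noncomputable section

namespace Pool.Agent.Lib.MP424d38.ES

namespace PRSM

/-- the weight `|ĥ|²`. -/
def w (h : L2R) (ξ : ℝ) : ℝ := ‖(𝓕 h : L2R) ξ‖ ^ 2

theorem w_nonneg (h : L2R) (ξ : ℝ) : 0 ≤ w h ξ := sq_nonneg _

theorem w_int (h : L2R) : Integrable (w h) :=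
  (memLp_two_iff_integrable_sq_norm (Lp.aestronglyMeasurable (𝓕 h : L2R))).1 (Lp.memLp _)

/-- Spectral integrals with symbols bounded by `a (1 + l²)` converge. -/
theorem int_of_bound {h : L2R} (hE : E1 h) {A : ℝ → ℝ} {a : ℝ} (hA : Measurable A)
    (hb : ∀ l, |A l| ≤ a * (1 + l ^ 2)) :
    Integrable fun ξ => A (2 * Real.pi * ξ) * w h ξ := by
  have h1 : Integrable fun ξ => a * (w h ξ + (2 * Real.pi * ξ) ^ 2 * w h ξ) :=
    ((w_int h).add hE).const_mul a
  refine h1.mono' ?_ (Eventually.of_forall fun ξ => ?_)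
  · exact ((hA.comp (measurable_const.mul measurable_id)).aestronglyMeasurable).mul
      (w_int h).aestronglyMeasurable
  · rw [norm_mul, Real.norm_eq_abs, Real.norm_eq_abs, abs_of_nonneg (w_nonneg h ξ)]
    calc |A (2 * Real.pi * ξ)| * w h ξ ≤ (a * (1 + (2 * Real.pi * ξ) ^ 2)) * w h ξ :=
          mul_le_mul_of_nonneg_right (hb _) (w_nonneg h ξ)
      _ = a * (w h ξ + (2 * Real.pi * ξ) ^ 2 * w h ξ) := by ring

end PRSM

open PRSM in
/-- **PRS.** -/
theorem specPRS : SpecPRS := by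
  intro A B c a h hAm hBm hc hA hB hAB hE
  have iw : Integrable (w h) := w_int h
  have i2 : Integrable fun ξ => (2 * Real.pi * ξ) ^ 2 * w h ξ := hE
  have i1 : Integrable fun ξ => (2 * Real.pi * ξ) * w h ξ := by
    refine int_of_bound (A := fun l => l) (a := 1) hE measurable_id (fun l => ?_)
    rw [abs_le]
    constructor <;> nlinarith [sq_nonneg (l - 1), sq_nonneg (l + 1), sq_nonneg l]
  have iA : Integrable fun ξ => A (2 * Real.pi * ξ) * w h ξ :=
    int_of_bound hE hAm (fun l => by rw [abs_of_nonneg (hA l).1]; exact (hA l).2)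
  have iB : Integrable fun ξ => B (2 * Real.pi * ξ) * w h ξ :=
    int_of_bound hE hBm (fun l => by rw [abs_of_nonneg (hB l).1]; exact (hB l).2)
  have e1 : sp A h * sp B h = ∫ z : ℝ × ℝ, (A (2 * Real.pi * z.1) * w h z.1) *
      (B (2 * Real.pi * z.2) * w h z.2) :=
    (integral_prod_mul (μ := volume) (ν := volume) (fun ξ => A (2 * Real.pi * ξ) * w h ξ)
      (fun ξ => B (2 * Real.pi * ξ) * w h ξ)).symm
  have p1 : (∫ z : ℝ × ℝ, ((2 * Real.pi * z.1) ^ 2 * w h z.1) * w h z.2)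
      = (∫ ξ, (2 * Real.pi * ξ) ^ 2 * w h ξ) * ∫ ξ, w h ξ :=
    integral_prod_mul (μ := volume) (ν := volume) (fun ξ => (2 * Real.pi * ξ) ^ 2 * w h ξ) (w h)
  have p2 : (∫ z : ℝ × ℝ, w h z.1 * ((2 * Real.pi * z.2) ^ 2 * w h z.2))
      = (∫ ξ, w h ξ) * ∫ ξ, (2 * Real.pi * ξ) ^ 2 * w h ξ :=
    integral_prod_mul (μ := volume) (ν := volume) (w h) (fun ξ => (2 * Real.pi * ξ) ^ 2 * w h ξ)
  have p3 : (∫ z : ℝ × ℝ, ((2 * Real.pi * z.1) * w h z.1) * ((2 * Real.pi * z.2) * w h z.2))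
      = (∫ ξ, (2 * Real.pi * ξ) * w h ξ) * ∫ ξ, (2 * Real.pi * ξ) * w h ξ :=
    integral_prod_mul (μ := volume) (ν := volume) (fun ξ => (2 * Real.pi * ξ) * w h ξ)
      (fun ξ => (2 * Real.pi * ξ) * w h ξ)
  have q1 : Integrable fun z : ℝ × ℝ => ((2 * Real.pi * z.1) ^ 2 * w h z.1) * w h z.2 :=
    Integrable.mul_prod i2 iw
  have q2 : Integrable fun z : ℝ × ℝ => w h z.1 * ((2 * Real.pi * z.2) ^ 2 * w h z.2) :=
    Integrable.mul_prod iw i2
  have q3 : Integrable fun z : ℝ × ℝ =>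
      ((2 * Real.pi * z.1) * w h z.1) * ((2 * Real.pi * z.2) * w h z.2) :=
    Integrable.mul_prod i1 i1
  have q12 : Integrable fun z : ℝ × ℝ => ((2 * Real.pi * z.1) ^ 2 * w h z.1) * w h z.2
      + w h z.1 * ((2 * Real.pi * z.2) ^ 2 * w h z.2) := q1.add q2
  have q123 : Integrable fun z : ℝ × ℝ => c * ((((2 * Real.pi * z.1) ^ 2 * w h z.1) * w h z.2
      + w h z.1 * ((2 * Real.pi * z.2) ^ 2 * w h z.2))
      - 2 * (((2 * Real.pi * z.1) * w h z.1) * ((2 * Real.pi * z.2) * w h z.2))) :=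
    (q12.sub (q3.const_mul 2)).const_mul c
  have qAB : Integrable fun z : ℝ × ℝ => (A (2 * Real.pi * z.1) * w h z.1) *
      (B (2 * Real.pi * z.2) * w h z.2) := Integrable.mul_prod iA iB
  have e2 : (∫ z : ℝ × ℝ, c * ((((2 * Real.pi * z.1) ^ 2 * w h z.1) * w h z.2
      + w h z.1 * ((2 * Real.pi * z.2) ^ 2 * w h z.2))
      - 2 * (((2 * Real.pi * z.1) * w h z.1) * ((2 * Real.pi * z.2) * w h z.2))))
      = 2 * c * gm h := by
    rw [integral_const_mul, integral_sub q12 (q3.const_mul 2), integral_add q1 q2,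
      integral_const_mul, p1, p2, p3]
    have g1 : gm h = (∫ ξ, w h ξ) * (∫ ξ, (2 * Real.pi * ξ) ^ 2 * w h ξ)
        - (∫ ξ, (2 * Real.pi * ξ) * w h ξ) ^ 2 := by
      unfold gm sp w
      simp only [one_mul]
    rw [g1]
    ring
  rw [e1, ← e2]
  refine integral_mono qAB q123 fun z => ?_
  have h1 := hAB (2 * Real.pi * z.1) (2 * Real.pi * z.2)
  have h2 : 0 ≤ w h z.1 * w h z.2 := mul_nonneg (w_nonneg h _) (w_nonneg h _)
  calc (A (2 * Real.pi * z.1) * w h z.1) * (B (2 * Real.pi * z.2) * w h z.2)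
      = (A (2 * Real.pi * z.1) * B (2 * Real.pi * z.2)) * (w h z.1 * w h z.2) := by ring
    _ ≤ (c * (2 * Real.pi * z.1 - 2 * Real.pi * z.2) ^ 2) * (w h z.1 * w h z.2) :=
        mul_le_mul_of_nonneg_right h1 h2
    _ = _ := by ring

end Pool.Agent.Lib.MP424d38.ES
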