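import Pool.Agent.Lib.MP_424d38_an.ES.SpecL
import Pool.Agent.Lib.MP_424d38_an.ES.SpecJ

section
/-!
# Block ES, module HF2: refined bound for `∬|l|min(|l|,Λ)|Pv|²`
-/
set_option autoImplicit false

open MeasureTheory Filter Topology Set
open scoped ENNReal ContDiff ComplexConjugate

noncomputable section

namespace Pool.Agent.Lib.MP424d38.ES

open Pool.Agent.Lib.MP424d38.TY

namespace HF2M

/-- `½ l min(l,Λ) ≤ ∫_0^Λ (l-k)₊ dk` -/
theorem half_le {l Λ : ℝ} (hl : 0 ≤ l) (hΛ : 0 ≤ Λ) :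
    l * min l Λ ≤ 2 * ∫ k in Ioc 0 Λ, max (l - k) 0 := by
  set m := min l Λ with hm
  have hm0 : 0 ≤ m := le_min hl hΛ
  have hml : m ≤ l := min_le_left _ _
  have hmΛ : m ≤ Λ := min_le_right _ _
  have hc : Continuous fun k : ℝ => max (l - k) 0 := by fun_prop
  have h1 : (∫ k in (0 : ℝ)..m, (l - k)) = l * m - m ^ 2 / 2 := by
    have e := intervalIntegral.integral_sub (f := fun _ : ℝ => l) (g := fun k : ℝ => k) (a := 0) (b := m)
      (μ := volume) intervalIntegrable_const (continuous_id.intervalIntegrable _ _)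
    rw [e, intervalIntegral.integral_const, integral_id]
    simp only [smul_eq_mul]; ring
  have h2 : (∫ k in (0 : ℝ)..m, (l - k)) ≤ ∫ k in (0 : ℝ)..m, max (l - k) 0 :=
    intervalIntegral.integral_mono_on hm0 (by apply Continuous.intervalIntegrable; fun_prop)
      (hc.intervalIntegrable _ _) fun k _ => le_max_left _ _
  have h3 : (∫ k in (0 : ℝ)..m, max (l - k) 0) ≤ ∫ k in (0 : ℝ)..Λ, max (l - k) 0 := by
    rw [← intervalIntegral.integral_add_adjacent_intervals (hc.intervalIntegrable 0 m) (hc.intervalIntegrable m Λ)]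
    have : 0 ≤ ∫ k in m..Λ, max (l - k) 0 := intervalIntegral.integral_nonneg hmΛ fun k _ => le_max_right _ _
    linarith
  rw [← intervalIntegral.integral_of_le hΛ]
  nlinarith

theorem integrable_sq {X : Type*} [MeasurableSpace X] {μ : Measure X} (f : Lp ℂ 2 μ) :
    Integrable (fun k => ‖f k‖ ^ 2) μ := (Lp.memLp f).integrable_norm_pow (by norm_num)

/-- `∬|l|min(|l|,Λ)|F|² ≤ 2∫_0^Λ Y_k dk`, and integrability of `Y_k` in `k`. -/
theorem layer (P : L2 ≃ₗᵢ[ℂ] L2) (f : L2) {Λ : ℝ} (hΛ : 0 ≤ Λ)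
    (hI : Integrable fun x : ℝ × ℝ => (1 + (2 * Real.pi * x.2) ^ 2) * ‖P f x‖ ^ 2) :
    (∫ x : ℝ × ℝ, |2 * Real.pi * x.2| * min |2 * Real.pi * x.2| Λ * ‖P f x‖ ^ 2)
      ≤ 2 * ∫ k in Ioc 0 Λ, YY P k f ∧ IntegrableOn (fun k => YY P k f) (Ioc 0 Λ) := by
  have hsq := integrable_sq (P f)
  have hmeas : AEStronglyMeasurable (fun x : ℝ × ℝ => ‖P f x‖ ^ 2) volume := hsq.1
  have hI1 : Integrable fun x : ℝ × ℝ => |2 * Real.pi * x.2| * ‖P f x‖ ^ 2 := by
    refine hI.mono' ((by fun_prop : Measurable fun x : ℝ × ℝ => |2 * Real.pi * x.2|).aestronglyMeasurable.mul hmeas)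
      (Eventually.of_forall fun x => ?_)
    rw [Real.norm_of_nonneg (by positivity)]
    refine mul_le_mul_of_nonneg_right ?_ (by positivity)
    nlinarith [sq_nonneg (|2 * Real.pi * x.2| - 1), sq_abs (2 * Real.pi * x.2)]
  have hI2 : Integrable fun x : ℝ × ℝ => |2 * Real.pi * x.2| * min |2 * Real.pi * x.2| Λ * ‖P f x‖ ^ 2 := by
    refine hI.mono' ((by fun_prop :
      Measurable fun x : ℝ × ℝ => |2 * Real.pi * x.2| * min |2 * Real.pi * x.2| Λ).aestronglyMeasurable.mul hmeas)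
      (Eventually.of_forall fun x => ?_)
    have h0 : 0 ≤ min |2 * Real.pi * x.2| Λ := le_min (abs_nonneg _) hΛ
    rw [Real.norm_of_nonneg (by positivity)]
    refine mul_le_mul_of_nonneg_right ?_ (by positivity)
    have h1 : min |2 * Real.pi * x.2| Λ ≤ |2 * Real.pi * x.2| := min_le_left _ _
    nlinarith [abs_nonneg (2 * Real.pi * x.2), sq_abs (2 * Real.pi * x.2)]
  set F : ℝ → ℝ × ℝ → ℝ := fun k x => max (|2 * Real.pi * x.2| - k) 0 * ‖P f x‖ ^ 2 with hF
  have hFint : Integrable (Function.uncurry F) ((volume.restrict (Ioc 0 Λ)).prod (volume : Measure (ℝ × ℝ))) := by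
    have a1 : Integrable (fun z : ℝ × (ℝ × ℝ) => (1 : ℝ) * (|2 * Real.pi * z.2.2| * ‖P f z.2‖ ^ 2))
        ((volume.restrict (Ioc 0 Λ)).prod (volume : Measure (ℝ × ℝ))) :=
      Integrable.mul_prod (f := fun _ : ℝ => (1 : ℝ)) (integrable_const (1 : ℝ)) hI1
    have a2 : Integrable (fun z : ℝ × (ℝ × ℝ) => |z.1| * (‖P f z.2‖ ^ 2))
        ((volume.restrict (Ioc 0 Λ)).prod (volume : Measure (ℝ × ℝ))) := by
      refine Integrable.mul_prod (f := fun k : ℝ => |k|) ?_ hsq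
      have : Continuous fun k : ℝ => |k| := by fun_prop
      exact (this.integrableOn_Icc).mono_set Ioc_subset_Icc_self
    refine (a1.add a2).mono' ?_ (Eventually.of_forall fun z => ?_)
    · have m1 : Measurable fun z : ℝ × (ℝ × ℝ) => max (|2 * Real.pi * z.2.2| - z.1) 0 := by fun_prop
      refine m1.aestronglyMeasurable.mul ?_
      exact hmeas.comp_snd
    · show ‖max (|2 * Real.pi * z.2.2| - z.1) 0 * ‖P f z.2‖ ^ 2‖
        ≤ (1 : ℝ) * (|2 * Real.pi * z.2.2| * ‖P f z.2‖ ^ 2) + |z.1| * (‖P f z.2‖ ^ 2)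
      rw [Real.norm_of_nonneg (mul_nonneg (le_max_right _ _) (by positivity))]
      have : max (|2 * Real.pi * z.2.2| - z.1) 0 ≤ |2 * Real.pi * z.2.2| + |z.1| :=
        max_le (by linarith [neg_abs_le z.1]) (by positivity)
      nlinarith [mul_le_mul_of_nonneg_right this (by positivity : 0 ≤ ‖P f z.2‖ ^ 2)]
  refine ⟨?_, hFint.integral_prod_left⟩
  have hswap : (∫ k in Ioc 0 Λ, YY P k f) = ∫ x : ℝ × ℝ, ∫ k in Ioc 0 Λ, F k x :=
    integral_integral_swap hFint
  rw [hswap, ← integral_const_mul]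
  refine integral_mono hI2 (hFint.integral_prod_right.const_mul 2) fun x => ?_
  show |2 * Real.pi * x.2| * min |2 * Real.pi * x.2| Λ * ‖P f x‖ ^ 2
    ≤ 2 * ∫ k in Ioc 0 Λ, max (|2 * Real.pi * x.2| - k) 0 * ‖P f x‖ ^ 2
  rw [integral_mul_const, ← mul_assoc]
  exact mul_le_mul_of_nonneg_right (half_le (abs_nonneg _) hΛ) (by positivity)

end HF2M

open HF2M in
theorem specHF2 (hTAI : SpecTAI) (hMDE : SpecMDE) (hGGI : SpecGGI) : SpecHF2 := by
  obtain ⟨C, hC, hT⟩ := hTAI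
  refine ⟨4 * (96 + C) + 1, by positivity, ?_⟩
  intro P hP T v v₁ v₂ N hN t ht G hX hG Λ hΛ
  have hg0 : 0 ≤ ∫ r in (0 : ℝ)..t, gD (v r) (v₂ r) :=
    intervalIntegral.integral_nonneg ht.1 fun r hr => (hGGI T v v₁ v₂ N hN r ⟨hr.1, lt_of_le_of_lt hr.2 ht.2⟩).1
  have hG1 : 1 ≤ G := by linarith
  have hG0 : 0 < G := by linarith
  have hΛ0 : 0 ≤ Λ := by linarith
  obtain ⟨-, hI, -⟩ := hMDE P hP (v t) (v₁ t) (v₂ t) (hN.h1 t ht)
  obtain ⟨hL, hYI⟩ := layer P (v t) hΛ0 hI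
  set B : ℝ := ‖v₂ 0‖ ^ 2 with hB
  have hB0 : 0 ≤ B := by positivity
  set D : ℝ := (96 + C) * (G * Real.sqrt G) + B / 4 with hD
  have hsG : 0 < Real.sqrt G := Real.sqrt_pos.2 hG0
  have hD0 : 0 ≤ D := by positivity
  -- `Y_k ≤ X` and the bound for every `k`
  have hmeas : AEStronglyMeasurable (fun x : ℝ × ℝ => ‖P (v t) x‖ ^ 2) volume := (integrable_sq (P (v t))).1
  have hYX : ∀ k : ℝ, 0 ≤ k → YY P k (v t) ≤ 3 * G := by
    intro k hk
    refine le_trans ?_ (hX t ⟨ht.1, le_rfl⟩)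
    have hI1 : Integrable fun x : ℝ × ℝ => |2 * Real.pi * x.2| * ‖P (v t) x‖ ^ 2 := by
      refine hI.mono' ((by fun_prop : Measurable fun x : ℝ × ℝ => |2 * Real.pi * x.2|).aestronglyMeasurable.mul hmeas)
        (Eventually.of_forall fun x => ?_)
      rw [Real.norm_of_nonneg (by positivity)]
      refine mul_le_mul_of_nonneg_right ?_ (by positivity)
      nlinarith [sq_nonneg (|2 * Real.pi * x.2| - 1), sq_abs (2 * Real.pi * x.2)]
    have hle : ∀ x : ℝ × ℝ, max (|2 * Real.pi * x.2| - k) 0 * ‖P (v t) x‖ ^ 2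
        ≤ |2 * Real.pi * x.2| * ‖P (v t) x‖ ^ 2 := by
      intro x
      refine mul_le_mul_of_nonneg_right ?_ (by positivity)
      exact max_le (by linarith) (abs_nonneg _)
    refine integral_mono (hI1.mono' ((by fun_prop :
      Measurable fun x : ℝ × ℝ => max (|2 * Real.pi * x.2| - k) 0).aestronglyMeasurable.mul hmeas)
      (Eventually.of_forall fun x => ?_)) hI1 hle
    rw [Real.norm_of_nonneg (mul_nonneg (le_max_right _ _) (by positivity))]
    exact hle x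
  have hbd : ∀ k ∈ Ioc 0 Λ, YY P k (v t) ≤ D * k ^ (-(1 / 2) : ℝ) := by
    intro k hk
    have hk0 : 0 < k := hk.1
    have hsk : 0 < Real.sqrt k := Real.sqrt_pos.2 hk0
    have hpow : k ^ (-(1 / 2) : ℝ) = 1 / Real.sqrt k := by
      rw [Real.rpow_neg hk0.le, ← Real.sqrt_eq_rpow, one_div]
    rw [hpow, mul_one_div, le_div_iff₀ hsk]
    rcases le_total k (1024 * G) with h | h
    · have h1 : Real.sqrt k ≤ 32 * Real.sqrt G := by
        rw [show (32 : ℝ) * Real.sqrt G = Real.sqrt (1024 * G) by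
          rw [Real.sqrt_mul (by norm_num), show (1024 : ℝ) = 32 ^ 2 by norm_num, Real.sqrt_sq (by norm_num)]]
        exact Real.sqrt_le_sqrt h
      calc YY P k (v t) * Real.sqrt k ≤ (3 * G) * (32 * Real.sqrt G) :=
            mul_le_mul (hYX k hk0.le) h1 hsk.le (by positivity)
        _ = 96 * (G * Real.sqrt G) := by ring
        _ ≤ D := by rw [hD]; nlinarith [mul_pos hC (mul_pos hG0 hsG)]
    · have hM : 1024 ≤ k / G := by rw [le_div_iff₀ hG0]; exact h
      obtain ⟨-, h1⟩ := hT P hP T v v₁ v₂ N hN t ht G (k / G) hM hX hG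
      rw [div_mul_cancel₀ k hG0.ne'] at h1
      have hk1 : 1 ≤ k := by nlinarith
      have hsk1 : 1 ≤ Real.sqrt k := by rw [Real.one_le_sqrt]; exact hk1
      have e1 : B / (4 * k) * Real.sqrt k ≤ B / 4 := by
        rw [div_mul_eq_mul_div, div_le_div_iff₀ (by positivity) (by norm_num)]
        have : Real.sqrt k ≤ k := by
          calc Real.sqrt k = Real.sqrt k * 1 := (mul_one _).symm
            _ ≤ Real.sqrt k * Real.sqrt k := by gcongr
            _ = k := Real.mul_self_sqrt hk0.le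
        nlinarith [mul_le_mul_of_nonneg_left this hB0]
      have e2 : C / Real.sqrt (k / G) * G * Real.sqrt k = C * (G * Real.sqrt G) := by
        rw [Real.sqrt_div' _ hG0.le]
        field_simp
      calc YY P k (v t) * Real.sqrt k ≤ (B / (4 * k) + C / Real.sqrt (k / G) * G) * Real.sqrt k := by
            gcongr
        _ = B / (4 * k) * Real.sqrt k + C / Real.sqrt (k / G) * G * Real.sqrt k := by ring
        _ ≤ B / 4 + C * (G * Real.sqrt G) := by rw [e2]; linarith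
        _ ≤ D := by rw [hD]; nlinarith [mul_pos hG0 hsG]
  have hri : IntervalIntegrable (fun k : ℝ => D * k ^ (-(1 / 2) : ℝ)) volume 0 Λ :=
    (intervalIntegral.intervalIntegrable_rpow' (by norm_num)).const_mul D
  have hint : (∫ k in Ioc 0 Λ, YY P k (v t)) ≤ 2 * D * Real.sqrt Λ := by
    calc (∫ k in Ioc 0 Λ, YY P k (v t)) ≤ ∫ k in Ioc 0 Λ, D * k ^ (-(1 / 2) : ℝ) :=
          setIntegral_mono_on hYI ((intervalIntegrable_iff_integrableOn_Ioc_of_le hΛ0).1 hri) measurableSet_Ioc hbd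
      _ = 2 * D * Real.sqrt Λ := by
          rw [← intervalIntegral.integral_of_le hΛ0, intervalIntegral.integral_const_mul,
            integral_rpow (Or.inl (by norm_num))]
          rw [show (-(1 / 2) + 1 : ℝ) = 1 / 2 by norm_num, Real.zero_rpow (by norm_num), ← Real.sqrt_eq_rpow]
          ring
  have hsΛ : 0 ≤ Real.sqrt Λ := Real.sqrt_nonneg _
  have hGG : 0 ≤ G * Real.sqrt G := by positivity
  calc _ ≤ 2 * ∫ k in Ioc 0 Λ, YY P k (v t) := hL
    _ ≤ 2 * (2 * D * Real.sqrt Λ) := by gcongr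
    _ = (4 * (96 + C) * (G * Real.sqrt G) + B) * Real.sqrt Λ := by rw [hD]; ring
    _ ≤ ((4 * (96 + C) + 1) * (G * Real.sqrt G + B)) * Real.sqrt Λ := by
        refine mul_le_mul_of_nonneg_right ?_ hsΛ
        nlinarith [mul_nonneg hC.le hB0]
    _ ≤ _ := by
        have : 0 ≤ (4 * (96 + C) + 1) * G ^ 2 := by positivity
        linarith

end Pool.Agent.Lib.MP424d38.ES
end
end

section
/-!
# Block ES, module RAI: the rate theorem, integral form
-/
set_option autoImplicit false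

open MeasureTheory Filter Topology Set
open scoped ENNReal ContDiff ComplexConjugate

noncomputable section

namespace Pool.Agent.Lib.MP424d38.ES

open Pool.Agent.Lib.MP424d38.TY

namespace RAIM

/-- a large `M` with `3 K / √M ≤ 1/2`. -/
lemma exM (K : ℝ) (hK : 0 ≤ K) : ∃ M : ℝ, 1024 ≤ M ∧ 3 * K / Real.sqrt M ≤ 1 / 2 := by
  refine ⟨(6 * K + 32) ^ 2, by nlinarith, ?_⟩
  rw [Real.sqrt_sq (by linarith)]
  rw [div_le_div_iff₀ (by linarith) (by norm_num)]
  linarith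

end RAIM

open RAIM in
theorem specRAI (hNEA : SpecNEA) (hFAR : SpecFAR) (hGAB : SpecGAB) (hFLB : SpecFLB) : SpecRAI := by
  intro T m C₀ R X ρ p e w f c hT hC₀ hF hK hG B hB
  obtain ⟨C, hC, hNEA⟩ := hNEA
  have h0T : (0 : ℝ) ∈ Ico 0 T := ⟨le_rfl, hT⟩
  have hm0 : 0 ≤ m := (hFLB T m R ρ p e hF 0 h0T).1
  obtain ⟨g1, g2, g3, g4, -⟩ := hGAB T m R ρ p e hT hF
  obtain ⟨x0, x1⟩ := g4 C₀ X w f c hK.toKin
  obtain ⟨M, hM, hM2⟩ := exM (C * m * C₀) (by positivity)
  obtain ⟨B1, hB1, t₁, ht₁, hf2⟩ := hK.hf2 hG M hM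
  obtain ⟨t₂, ht₂, htail⟩ := hK.tail hG M hM
  have hsM : 0 < Real.sqrt M := Real.sqrt_pos.2 (by linarith)
  have hX2 : 0 ≤ X 0 + 2 := by linarith
  set D : ℝ := m * B1 + (X 0 + 2) ^ 2 with hD
  have hD0 : 0 ≤ D := by positivity
  set B' : ℝ := max B 0 with hB'
  have hB'0 : 0 ≤ B' := le_max_right _ _
  set L : ℝ := 8 * C * D * B' + 1 with hL
  have hLp : 0 < L := by positivity
  refine hNEA T m C₀ R X ρ p e w f c hT hC₀ hF hK.toKin hG L hLp ?_
  have ev1 : ∀ᶠ s in 𝓝[<] T, X t₁ ≤ C₀ / Real.sqrt M * Ga ρ p e s := by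
    have hpos : 0 < C₀ / Real.sqrt M := div_pos hC₀ hsM
    have := hG.const_mul_atTop hpos
    exact this.eventually_ge_atTop (X t₁)
  have ev2 : ∀ᶠ s in 𝓝[<] T, s ∈ Ico (max t₁ t₂) T :=
    Ico_mem_nhdsLT (max_lt ht₁.2 ht₂.2)
  filter_upwards [ev1, ev2] with s hs1 hs2 F hF1 hF2 hF3 hF4
  have hs1' : t₁ ≤ s := (le_max_left _ _).trans hs2.1
  have hs2' : t₂ ≤ s := (le_max_right _ _).trans hs2.1
  have hsT : s ∈ Ico 0 T := ⟨ht₁.1.trans hs1', hs2.2⟩
  have hGs1 : 1 ≤ Ga ρ p e s := g1 s hsT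
  have hGs0 : 0 ≤ Ga ρ p e s := by linarith
  have hΛ : 1 ≤ M * Ga ρ p e s := by nlinarith
  have hfar := hFAR T m C₀ R X ρ p e w f c hF hK.toKin C L (M * Ga ρ p e s) F hLp hΛ hC.le hF1 hF2 hF3 t₁ s
    ht₁.1 hs1' hs2.2
  obtain ⟨ht3, ht4⟩ := htail s ⟨hs2', hs2.2⟩
  have hlaw := hK.law (M * Ga ρ p e s) hΛ
  have hsub : Icc 0 s ⊆ Ico 0 T := fun x hx => ⟨hx.1, lt_of_le_of_lt hx.2 hs2.2⟩
  -- the source term
  have hcint : ∫ r in t₁..s, ‖c (M * Ga ρ p e s) r‖ ≤ C₀ / Real.sqrt M * Ga ρ p e s := by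
    refine le_trans ?_ ht4
    have hcc : ContinuousOn (fun r => ‖c (M * Ga ρ p e s) r‖) (Icc 0 s) := (hlaw.cs.mono hsub).norm
    have hi : IntervalIntegrable (fun r => ‖c (M * Ga ρ p e s) r‖) volume 0 s := by
      apply ContinuousOn.intervalIntegrable
      rwa [uIcc_of_le hsT.1]
    exact intervalIntegral.integral_mono_interval ht₁.1 hs1' le_rfl
      (Filter.Eventually.of_forall fun r => norm_nonneg _) hi
  -- the flux term
  have hGc : ContinuousOn (Ga ρ p e) (Icc 0 s) := g3.mono hsub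
  have hG32 : ContinuousOn (fun r => Ga ρ p e r * Real.sqrt (Ga ρ p e r)) (Icc 0 s) :=
    hGc.mul hGc.sqrt
  have hG32i : IntervalIntegrable (fun r => Ga ρ p e r * Real.sqrt (Ga ρ p e r)) volume 0 s := by
    apply ContinuousOn.intervalIntegrable
    rwa [uIcc_of_le hsT.1]
  have hG32i' : IntervalIntegrable (fun r => Ga ρ p e r * Real.sqrt (Ga ρ p e r)) volume t₁ s := by
    apply ContinuousOn.intervalIntegrable
    rw [uIcc_of_le hs1']
    exact hG32.mono (Icc_subset_Icc_left ht₁.1)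
  have hflux : ∫ r in t₁..s, (m * ‖f (M * Ga ρ p e s) r‖ + ‖w (M * Ga ρ p e s) r‖ * ‖p r‖)
      ≤ D * B' * Ga ρ p e s := by
    have hb : ∀ r ∈ Set.Ioc t₁ s, ‖m * ‖f (M * Ga ρ p e s) r‖ + ‖w (M * Ga ρ p e s) r‖ * ‖p r‖‖
        ≤ D * Real.sqrt (Ga ρ p e s) * (Ga ρ p e r * Real.sqrt (Ga ρ p e r)) := by
      intro r hr
      have hrT : r ∈ Ico 0 T := ⟨ht₁.1.trans hr.1.le, lt_of_le_of_lt hr.2 hs2.2⟩
      have hGr1 : 1 ≤ Ga ρ p e r := g1 r hrT
      have hGr0 : 0 ≤ Ga ρ p e r := by linarith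
      have hmono : Ga ρ p e r ≤ Ga ρ p e s := g2 hrT hsT hr.2
      have hsq : Real.sqrt (Ga ρ p e r) ≤ Real.sqrt (Ga ρ p e s) := Real.sqrt_le_sqrt hmono
      have hself : Real.sqrt (Ga ρ p e r) * Real.sqrt (Ga ρ p e r) = Ga ρ p e r := Real.mul_self_sqrt hGr0
      have q1 := hf2 r s hr.1.le hr.2 hs2.2
      have q2 : ‖w (M * Ga ρ p e s) r‖ ≤ (X 0 + 2) * Ga ρ p e r :=
        (hK.hwX _ hΛ r hrT).trans (x1 r hrT).2
      have q3 : ‖p r‖ ≤ (X 0 + 2) * Ga ρ p e r := (hK.hp r hrT).trans (x1 r hrT).2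
      have hnn : 0 ≤ m * ‖f (M * Ga ρ p e s) r‖ + ‖w (M * Ga ρ p e s) r‖ * ‖p r‖ := by positivity
      rw [Real.norm_of_nonneg hnn]
      have q4 : ‖w (M * Ga ρ p e s) r‖ * ‖p r‖ ≤ (X 0 + 2) * Ga ρ p e r * ((X 0 + 2) * Ga ρ p e r) := by
        gcongr
      have q5 : (X 0 + 2) * Ga ρ p e r * ((X 0 + 2) * Ga ρ p e r)
          ≤ (X 0 + 2) ^ 2 * (Ga ρ p e r * Real.sqrt (Ga ρ p e r) * Real.sqrt (Ga ρ p e s)) := by
        have : (X 0 + 2) * Ga ρ p e r * ((X 0 + 2) * Ga ρ p e r)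
            = (X 0 + 2) ^ 2 * (Ga ρ p e r * Real.sqrt (Ga ρ p e r) * Real.sqrt (Ga ρ p e r)) := by
          rw [mul_assoc (Ga ρ p e r), hself]
          ring
        rw [this]
        gcongr
      have q6 : m * ‖f (M * Ga ρ p e s) r‖
          ≤ m * (B1 * (Ga ρ p e r * Real.sqrt (Ga ρ p e r) * Real.sqrt (Ga ρ p e s))) := by gcongr
      calc m * ‖f (M * Ga ρ p e s) r‖ + ‖w (M * Ga ρ p e s) r‖ * ‖p r‖
          ≤ m * (B1 * (Ga ρ p e r * Real.sqrt (Ga ρ p e r) * Real.sqrt (Ga ρ p e s)))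
            + (X 0 + 2) ^ 2 * (Ga ρ p e r * Real.sqrt (Ga ρ p e r) * Real.sqrt (Ga ρ p e s)) :=
            add_le_add q6 (q4.trans q5)
        _ = D * Real.sqrt (Ga ρ p e s) * (Ga ρ p e r * Real.sqrt (Ga ρ p e r)) := by
            rw [hD]; ring
    have h1 := intervalIntegral.norm_integral_le_of_norm_le hs1'
      (Filter.Eventually.of_forall hb) (hG32i'.const_mul _)
    have h2 : ∫ r in t₁..s, (Ga ρ p e r * Real.sqrt (Ga ρ p e r))
        ≤ ∫ r in (0 : ℝ)..s, (Ga ρ p e r * Real.sqrt (Ga ρ p e r)) := by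
      apply intervalIntegral.integral_mono_interval ht₁.1 hs1' le_rfl _ hG32i
      rw [Filter.EventuallyLE, ae_restrict_iff' measurableSet_Ioc]
      refine Filter.Eventually.of_forall fun r hr => ?_
      have hrT : r ∈ Ico 0 T := ⟨hr.1.le, lt_of_le_of_lt hr.2 hs2.2⟩
      exact mul_nonneg (zero_le_one.trans (g1 r hrT)) (Real.sqrt_nonneg _)
    have h3 := hB s hsT
    have h4 : B * Real.sqrt (Ga ρ p e s) ≤ B' * Real.sqrt (Ga ρ p e s) := by
      have : B ≤ B' := le_max_left _ _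
      gcongr
    have hself : Real.sqrt (Ga ρ p e s) * Real.sqrt (Ga ρ p e s) = Ga ρ p e s := Real.mul_self_sqrt hGs0
    calc ∫ r in t₁..s, (m * ‖f (M * Ga ρ p e s) r‖ + ‖w (M * Ga ρ p e s) r‖ * ‖p r‖)
        ≤ ‖∫ r in t₁..s, (m * ‖f (M * Ga ρ p e s) r‖ + ‖w (M * Ga ρ p e s) r‖ * ‖p r‖)‖ := Real.le_norm_self _
      _ ≤ ∫ r in t₁..s, D * Real.sqrt (Ga ρ p e s) * (Ga ρ p e r * Real.sqrt (Ga ρ p e r)) := h1
      _ = D * Real.sqrt (Ga ρ p e s) * ∫ r in t₁..s, (Ga ρ p e r * Real.sqrt (Ga ρ p e r)) :=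
          intervalIntegral.integral_const_mul _ _
      _ ≤ D * Real.sqrt (Ga ρ p e s) * (B' * Real.sqrt (Ga ρ p e s)) := by
          have := h2.trans (h3.trans h4)
          gcongr
      _ = D * B' * (Real.sqrt (Ga ρ p e s) * Real.sqrt (Ga ρ p e s)) := by ring
      _ = D * B' * Ga ρ p e s := by rw [hself]
  -- sum
  have hCm : 0 ≤ C * m := by positivity
  have e1 : C * m * ‖p s - w (M * Ga ρ p e s) s‖ ≤ C * m * (C₀ / Real.sqrt M * Ga ρ p e s) := by gcongr
  have e2 : C * m * X t₁ ≤ C * m * (C₀ / Real.sqrt M * Ga ρ p e s) := by gcongr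
  have e3 : 4 * C / L * (∫ r in t₁..s, (m * ‖f (M * Ga ρ p e s) r‖ + ‖w (M * Ga ρ p e s) r‖ * ‖p r‖))
      ≤ 4 * C / L * (D * B' * Ga ρ p e s) := by
    have : 0 ≤ 4 * C / L := by positivity
    gcongr
  have e4 : C * m * (∫ r in t₁..s, ‖c (M * Ga ρ p e s) r‖) ≤ C * m * (C₀ / Real.sqrt M * Ga ρ p e s) := by
    gcongr
  have e5 : 4 * C / L * (D * B' * Ga ρ p e s) ≤ 1 / 2 * Ga ρ p e s := by
    have : 4 * C / L * (D * B' * Ga ρ p e s) = (4 * C * D * B' / L) * Ga ρ p e s := by ring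
    rw [this]
    have h6 : 4 * C * D * B' / L ≤ 1 / 2 := by
      rw [div_le_div_iff₀ hLp (by norm_num), hL]
      nlinarith
    gcongr
  have e6 : 3 * (C * m * (C₀ / Real.sqrt M * Ga ρ p e s)) ≤ 1 / 2 * Ga ρ p e s := by
    have : 3 * (C * m * (C₀ / Real.sqrt M * Ga ρ p e s)) = (3 * (C * m * C₀) / Real.sqrt M) * Ga ρ p e s := by
      ring
    rw [this]
    gcongr
  linarith

end Pool.Agent.Lib.MP424d38.ES
end
end

section
/-!
# Block ES, module RAT: the rate theorem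
-/
set_option autoImplicit false

open MeasureTheory Filter Topology Set
open scoped ENNReal ContDiff ComplexConjugate

noncomputable section

namespace Pool.Agent.Lib.MP424d38.ES

open Pool.Agent.Lib.MP424d38.TY

namespace RATM

/-- the antiderivative of `(T-r)^{-3/2}`. -/
lemma hasDeriv (T r : ℝ) (h : r < T) :
    HasDerivAt (fun x : ℝ => 2 * (Real.sqrt (T - x))⁻¹) ((T - r) * Real.sqrt (T - r))⁻¹ r := by
  have hp : 0 < T - r := by linarith
  have hs : 0 < Real.sqrt (T - r) := Real.sqrt_pos.2 hp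
  have h1 : HasDerivAt (fun x : ℝ => T - x) (-1) r := by
    simpa using (hasDerivAt_id r).const_sub T
  have h2 := h1.sqrt hp.ne'
  have h3 := h2.inv hs.ne'
  have h4 := h3.const_mul 2
  refine h4.congr_deriv ?_
  rw [Real.sq_sqrt hp.le]
  field_simp

lemma int_le (T b : ℝ) (hb : 0 ≤ b) (hbT : b < T) :
    ContinuousOn (fun r : ℝ => ((T - r) * Real.sqrt (T - r))⁻¹) (Icc 0 b) ∧
    ∫ r in (0 : ℝ)..b, ((T - r) * Real.sqrt (T - r))⁻¹ ≤ 2 * (Real.sqrt (T - b))⁻¹ := by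
  have hc : ContinuousOn (fun r : ℝ => ((T - r) * Real.sqrt (T - r))⁻¹) (Icc 0 b) := by
    apply ContinuousOn.inv₀
    · fun_prop
    · intro r hr
      have hp : 0 < T - r := by linarith [hr.2]
      have hs : 0 < Real.sqrt (T - r) := Real.sqrt_pos.2 hp
      positivity
  refine ⟨hc, ?_⟩
  have h1 : ∀ r ∈ uIcc 0 b, HasDerivAt (fun x : ℝ => 2 * (Real.sqrt (T - x))⁻¹)
      ((T - r) * Real.sqrt (T - r))⁻¹ r := by
    intro r hr
    rw [uIcc_of_le hb] at hr
    exact hasDeriv T r (lt_of_le_of_lt hr.2 hbT)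
  have h2 : IntervalIntegrable (fun r : ℝ => ((T - r) * Real.sqrt (T - r))⁻¹) volume 0 b := by
    apply ContinuousOn.intervalIntegrable
    rwa [uIcc_of_le hb]
  rw [intervalIntegral.integral_eq_sub_of_hasDerivAt h1 h2]
  have h3 : 0 ≤ 2 * (Real.sqrt (T - 0))⁻¹ := by positivity
  linarith

end RATM

open RATM in
theorem specRAT (hRAI : SpecRAI) (hGAB : SpecGAB) : SpecRAT := by
  intro T m C₀ R X ρ p e w f c hT hC₀ hF hK hG C₁ hC
  obtain ⟨g1, g2, g3, -, -⟩ := hGAB T m R ρ p e hT hF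
  have h0T : (0 : ℝ) ∈ Ico 0 T := ⟨le_rfl, hT⟩
  have hC1 : 0 < C₁ := by
    have h1 := (g1 0 h0T).trans (hC 0 h0T)
    rw [sub_zero, le_div_iff₀ hT] at h1
    linarith
  refine hRAI T m C₀ R X ρ p e w f c hT hC₀ hF hK hG (3 * C₁) ?_
  intro s hs
  set G : ℝ → ℝ := Ga ρ p e with hGdef
  have hGs1 : 1 ≤ G s := g1 s hs
  have hGs0 : 0 < G s := by linarith
  have hsG : 0 < Real.sqrt (G s) := Real.sqrt_pos.2 hGs0
  set a : ℝ := C₁ / G s with ha
  have ha0 : 0 < a := div_pos hC1 hGs0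
  have haT : T - s ≤ a := by
    have h1 := hC s hs
    have h2 : 0 < T - s := by linarith [hs.2]
    rw [le_div_iff₀ h2] at h1
    rw [ha, le_div_iff₀ hGs0]
    linarith
  set b : ℝ := max 0 (T - a) with hb
  have hb0 : 0 ≤ b := le_max_left _ _
  have hbs : b ≤ s := max_le hs.1 (by linarith)
  have hbT : b < T := lt_of_le_of_lt hbs hs.2
  have hcont : ContinuousOn (fun r => G r * Real.sqrt (G r)) (Icc 0 s) := by
    have : ContinuousOn G (Icc 0 s) := g3.mono fun x hx => ⟨hx.1, lt_of_le_of_lt hx.2 hs.2⟩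
    exact this.mul this.sqrt
  have i1 : IntervalIntegrable (fun r => G r * Real.sqrt (G r)) volume 0 b := by
    apply ContinuousOn.intervalIntegrable
    rw [uIcc_of_le hb0]
    exact hcont.mono (Icc_subset_Icc_right hbs)
  have i2 : IntervalIntegrable (fun r => G r * Real.sqrt (G r)) volume b s := by
    apply ContinuousOn.intervalIntegrable
    rw [uIcc_of_le hbs]
    exact hcont.mono (Icc_subset_Icc_left hb0)
  -- the second part
  have p2 : ∫ r in b..s, G r * Real.sqrt (G r) ≤ C₁ * Real.sqrt (G s) := by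
    have hle : ∀ r ∈ Icc b s, G r * Real.sqrt (G r) ≤ G s * Real.sqrt (G s) := by
      intro r hr
      have hrT : r ∈ Ico 0 T := ⟨hb0.trans hr.1, lt_of_le_of_lt hr.2 hs.2⟩
      have hm : G r ≤ G s := g2 hrT hs hr.2
      have h0 : 0 ≤ G r := zero_le_one.trans (g1 r hrT)
      have : Real.sqrt (G r) ≤ Real.sqrt (G s) := Real.sqrt_le_sqrt hm
      gcongr
    have h1 := intervalIntegral.integral_mono_on hbs i2
      (intervalIntegrable_const (c := G s * Real.sqrt (G s))) hle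
    rw [intervalIntegral.integral_const, smul_eq_mul] at h1
    refine h1.trans ?_
    have h2 : s - b ≤ a := by
      have : T - a ≤ b := le_max_right _ _
      linarith [hs.2]
    calc (s - b) * (G s * Real.sqrt (G s)) ≤ a * (G s * Real.sqrt (G s)) := by gcongr
      _ = C₁ * Real.sqrt (G s) := by rw [ha]; field_simp
  -- the first part
  have p1 : ∫ r in (0 : ℝ)..b, G r * Real.sqrt (G r) ≤ 2 * C₁ * Real.sqrt (G s) := by
    rcases le_or_gt (T - a) 0 with h | h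
    · have hb' : b = 0 := max_eq_left h
      rw [hb', intervalIntegral.integral_same]
      positivity
    · have hb' : b = T - a := max_eq_right h.le
      obtain ⟨hc, hi⟩ := int_le T b hb0 hbT
      have hle : ∀ r ∈ Icc 0 b, G r * Real.sqrt (G r)
          ≤ C₁ * Real.sqrt C₁ * ((T - r) * Real.sqrt (T - r))⁻¹ := by
        intro r hr
        have hrT : r ∈ Ico 0 T := ⟨hr.1, lt_of_le_of_lt hr.2 hbT⟩
        have hp : 0 < T - r := by linarith [hrT.2]
        have h0 : 0 ≤ G r := zero_le_one.trans (g1 r hrT)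
        have h1 : G r ≤ C₁ / (T - r) := hC r hrT
        have h2 : Real.sqrt (G r) ≤ Real.sqrt C₁ / Real.sqrt (T - r) := by
          rw [← Real.sqrt_div hC1.le]
          exact Real.sqrt_le_sqrt h1
        calc G r * Real.sqrt (G r) ≤ C₁ / (T - r) * (Real.sqrt C₁ / Real.sqrt (T - r)) := by gcongr
          _ = C₁ * Real.sqrt C₁ * ((T - r) * Real.sqrt (T - r))⁻¹ := by
              rw [div_mul_div_comm, div_eq_mul_inv]
      have hint : IntervalIntegrable (fun r : ℝ => C₁ * Real.sqrt C₁ * ((T - r) * Real.sqrt (T - r))⁻¹)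
          volume 0 b := by
        apply ContinuousOn.intervalIntegrable
        rw [uIcc_of_le hb0]
        exact continuousOn_const.mul hc
      have h1 := intervalIntegral.integral_mono_on hb0 i1 hint hle
      rw [intervalIntegral.integral_const_mul] at h1
      refine h1.trans ?_
      have hTb : T - b = a := by rw [hb']; ring
      rw [hTb] at hi
      have hsC : 0 < Real.sqrt C₁ := Real.sqrt_pos.2 hC1
      have hsa : Real.sqrt a = Real.sqrt C₁ / Real.sqrt (G s) := by rw [ha, Real.sqrt_div hC1.le]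
      calc C₁ * Real.sqrt C₁ * ∫ r in (0 : ℝ)..b, ((T - r) * Real.sqrt (T - r))⁻¹
          ≤ C₁ * Real.sqrt C₁ * (2 * (Real.sqrt a)⁻¹) := by gcongr
        _ = 2 * C₁ * Real.sqrt (G s) := by
            rw [hsa]
            field_simp
  have := intervalIntegral.integral_add_adjacent_intervals i1 i2
  rw [← this]
  linarith

end Pool.Agent.Lib.MP424d38.ES
end
end
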