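import Pool.Agent.Lib.MP_424d38_an.ES.SpecG

section
/-!
# Auxiliary facts on spectral integrals and on `I4` (used by TU3, TW2, SLI)
-/
set_option autoImplicit false

open MeasureTheory Filter Topology Set
open scoped ENNReal ContDiff ComplexConjugate FourierTransform

noncomputable section

namespace Pool.Agent.Lib.MP424d38.ES.SPA

open Pool.Agent.Lib.MP424d38.TY Pool.Agent.Lib.MP424d38.ES

theorem ft_sm (h : L2R) : AEStronglyMeasurable (fun ξ : ℝ => (𝓕 h : L2R) ξ) volume :=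
  Lp.aestronglyMeasurable _

theorem ftsq_sm (h : L2R) : AEStronglyMeasurable (fun ξ : ℝ => ‖(𝓕 h : L2R) ξ‖ ^ 2) volume :=
  ((ft_sm h).norm.aemeasurable.pow_const 2).aestronglyMeasurable

theorem meas_comp {σ : ℝ → ℝ} (hσ : Measurable σ) :
    Measurable fun ξ : ℝ => σ (2 * Real.pi * ξ) :=
  hσ.comp (measurable_const.mul measurable_id)

/-- spectral integrals with weights `≤ a(1+l²)` converge. -/
theorem intg (hM : SpecMX1) {h : L2R} (hE : E1 h) {σ : ℝ → ℝ} (hσ : Measurable σ) {a : ℝ}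
    (hb : ∀ l, |σ l| ≤ a * (1 + l ^ 2)) :
    Integrable fun ξ : ℝ => σ (2 * Real.pi * ξ) * ‖(𝓕 h : L2R) ξ‖ ^ 2 := by
  have h0 : Integrable fun ξ : ℝ => ‖(𝓕 h : L2R) ξ‖ ^ 2 := (hM.2.2.1 h).2.2
  have h1 : Integrable fun ξ : ℝ => a * (‖(𝓕 h : L2R) ξ‖ ^ 2 +
      (2 * Real.pi * ξ) ^ 2 * ‖(𝓕 h : L2R) ξ‖ ^ 2) := (h0.add hE).const_mul a
  refine h1.mono' ((meas_comp hσ).aestronglyMeasurable.mul (ftsq_sm h)) ?_
  refine Eventually.of_forall fun ξ => ?_
  rw [Real.norm_eq_abs, abs_mul, abs_of_nonneg (sq_nonneg ‖(𝓕 h : L2R) ξ‖)]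
  calc |σ (2 * Real.pi * ξ)| * ‖(𝓕 h : L2R) ξ‖ ^ 2
      ≤ (a * (1 + (2 * Real.pi * ξ) ^ 2)) * ‖(𝓕 h : L2R) ξ‖ ^ 2 :=
        mul_le_mul_of_nonneg_right (hb _) (sq_nonneg _)
    _ = _ := by ring

/-- bounded weights. -/
theorem intg0 (hM : SpecMX1) (h : L2R) {σ : ℝ → ℝ} (hσ : Measurable σ) {a : ℝ}
    (hb : ∀ l, |σ l| ≤ a) :
    Integrable fun ξ : ℝ => σ (2 * Real.pi * ξ) * ‖(𝓕 h : L2R) ξ‖ ^ 2 := by
  have h0 : Integrable fun ξ : ℝ => ‖(𝓕 h : L2R) ξ‖ ^ 2 := (hM.2.2.1 h).2.2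
  refine (h0.const_mul a).mono' ((meas_comp hσ).aestronglyMeasurable.mul (ftsq_sm h)) ?_
  refine Eventually.of_forall fun ξ => ?_
  rw [Real.norm_eq_abs, abs_mul, abs_of_nonneg (sq_nonneg ‖(𝓕 h : L2R) ξ‖)]
  exact mul_le_mul_of_nonneg_right (hb _) (sq_nonneg _)

/-- monotonicity. -/
theorem sp_mono {h : L2R} {σ τ : ℝ → ℝ} (h0 : ∀ l, 0 ≤ σ l) (hl : ∀ l, σ l ≤ τ l)
    (hi : Integrable fun ξ : ℝ => τ (2 * Real.pi * ξ) * ‖(𝓕 h : L2R) ξ‖ ^ 2) :
    sp σ h ≤ sp τ h := by
  unfold sp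
  refine integral_mono_of_nonneg (Eventually.of_forall fun _ => ?_) hi
    (Eventually.of_forall fun _ => ?_)
  · exact mul_nonneg (h0 _) (sq_nonneg _)
  · exact mul_le_mul_of_nonneg_right (hl _) (sq_nonneg _)

theorem sp_nonneg {h : L2R} {σ : ℝ → ℝ} (h0 : ∀ l, 0 ≤ σ l) : 0 ≤ sp σ h :=
  integral_nonneg fun _ => mul_nonneg (h0 _) (sq_nonneg _)

theorem sp_cmul (c : ℝ) (σ : ℝ → ℝ) (h : L2R) : sp (fun l => c * σ l) h = c * sp σ h := by
  unfold sp
  rw [← integral_const_mul]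
  exact integral_congr_ae (Eventually.of_forall fun ξ => by simp only []; ring)

theorem sp_add {h : L2R} {σ τ : ℝ → ℝ}
    (h1 : Integrable fun ξ : ℝ => σ (2 * Real.pi * ξ) * ‖(𝓕 h : L2R) ξ‖ ^ 2)
    (h2 : Integrable fun ξ : ℝ => τ (2 * Real.pi * ξ) * ‖(𝓕 h : L2R) ξ‖ ^ 2) :
    sp (fun l => σ l + τ l) h = sp σ h + sp τ h := by
  unfold sp
  rw [← integral_add h1 h2]
  exact integral_congr_ae (Eventually.of_forall fun ξ => by simp only []; ring)

/-- spectral integrals of a multiplier image. -/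
theorem sp_of_isM {σ τ : ℝ → ℝ} {h g : L2R} (hg : IsM σ h g) :
    sp τ g = sp (fun l => τ l * σ l ^ 2) h := by
  unfold sp
  refine integral_congr_ae ?_
  filter_upwards [hg] with ξ hξ
  rw [hξ, norm_mul, Complex.norm_real, Real.norm_eq_abs, mul_pow, sq_abs]
  ring

theorem E1_of_isM {σ : ℝ → ℝ} {h g : L2R} (hE : E1 h) (hg : IsM σ h g)
    (hb : ∀ l, |σ l| ≤ 1) : E1 g := by
  unfold E1 at *
  refine hE.mono' (((measurable_const.mul measurable_id).pow_const 2).aestronglyMeasurable.mul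
    (ftsq_sm g)) ?_
  filter_upwards [hg] with ξ hξ
  have h1 : ‖(𝓕 g : L2R) ξ‖ ≤ ‖(𝓕 h : L2R) ξ‖ := by
    rw [hξ, norm_mul, Complex.norm_real, Real.norm_eq_abs]
    calc |σ (2 * Real.pi * ξ)| * ‖(𝓕 h : L2R) ξ‖ ≤ 1 * ‖(𝓕 h : L2R) ξ‖ := by
          gcongr
          exact hb _
      _ = _ := one_mul _
  rw [Real.norm_eq_abs, abs_of_nonneg (by positivity)]
  gcongr

/-- difference of multipliers. -/
theorem isM_sub {σ τ : ℝ → ℝ} {h g k : L2R} (hg : IsM σ h g) (hk : IsM τ h k) :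
    IsM (fun l => σ l - τ l) h (g - k) := by
  have e : (𝓕 (g - k) : L2R) = 𝓕 g - 𝓕 k := by
    rw [sub_eq_add_neg, FourierTransform.fourier_add, FourierTransform.fourier_neg, ← sub_eq_add_neg]
  unfold IsM at *
  rw [e]
  filter_upwards [hg, hk, Lp.coeFn_sub (𝓕 g : L2R) (𝓕 k)] with ξ h1 h2 h3
  rw [h3, Pi.sub_apply, h1, h2]
  push_cast
  ring

theorem isM_smul (c : ℝ) (h : L2R) : IsM (fun _ => c) h ((c : ℂ) • h) := by
  have e : (𝓕 ((c : ℂ) • h) : L2R) = (c : ℂ) • (𝓕 h : L2R) := by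
    rw [FourierTransform.fourier_smul]
  unfold IsM
  rw [e]
  filter_upwards [Lp.coeFn_smul (c : ℂ) (𝓕 h : L2R)] with ξ h1
  rw [h1, Pi.smul_apply, smul_eq_mul]

theorem isM_one (h : L2R) : IsM (fun _ => 1) h h := by
  unfold IsM
  filter_upwards with ξ
  simp

/-- band limited functions are bounded. -/
theorem sup_bd (hB : SpecBRN) {A : ℝ} {x : L2R} (hA : 0 ≤ A) (hx : Bd A x) :
    ∀ᵐ b : ℝ, ‖x b‖ ≤ Real.sqrt (A / Real.pi) * ‖x‖ := by
  filter_upwards [(hB A x hA hx).2] with b hb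
  have h1 : (Real.sqrt (A / Real.pi) * ‖x‖) ^ 2 = A / Real.pi * ‖x‖ ^ 2 := by
    rw [mul_pow, Real.sq_sqrt (by positivity)]
  rw [← h1] at hb
  exact (pow_le_pow_iff_left₀ (norm_nonneg _) (by positivity) two_ne_zero).1 hb

/-- `H¹` functions are bounded. -/
theorem sup_E1 (hS : SpecSB1) {u : L2R} (hu : E1 u) :
    ∀ᵐ b : ℝ, ‖u b‖ ≤ Real.sqrt (Real.sqrt (gm u)) := by
  obtain ⟨h0, h1, -⟩ := hS u hu
  filter_upwards [h1] with b hb
  refine Real.le_sqrt_of_sq_le ?_
  refine Real.le_sqrt_of_sq_le ?_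
  rw [← pow_mul]
  exact hb

/-- integrability of `conj g x conj y z` when all of `x y z` are bounded. -/
theorem int4 (hI : SpecIB4) {g x y z : L2R} {X Y : ℝ} (hX : 0 ≤ X) (hY : 0 ≤ Y)
    (hx : ∀ᵐ b : ℝ, ‖x b‖ ≤ X) (hy : ∀ᵐ b : ℝ, ‖y b‖ ≤ Y) :
    Integrable fun b => conj (g b) * (x b * conj (y b) * z b) :=
  (hI.1 g x y z X Y hX hY hx hy).2.2.2.1

/-- additivity in the first variable. -/
theorem I4_add1 {g g' x y z : L2R}
    (h1 : Integrable fun b => conj (g b) * (x b * conj (y b) * z b))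
    (h2 : Integrable fun b => conj (g' b) * (x b * conj (y b) * z b)) :
    I4 (g + g') x y z = I4 g x y z + I4 g' x y z := by
  unfold I4
  rw [← integral_add h1 h2]
  refine integral_congr_ae ?_
  filter_upwards [Lp.coeFn_add g g'] with b hb
  rw [hb, Pi.add_apply, map_add]
  ring

theorem I4_add2 {g x x' y z : L2R}
    (h1 : Integrable fun b => conj (g b) * (x b * conj (y b) * z b))
    (h2 : Integrable fun b => conj (g b) * (x' b * conj (y b) * z b)) :
    I4 g (x + x') y z = I4 g x y z + I4 g x' y z := by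
  unfold I4
  rw [← integral_add h1 h2]
  refine integral_congr_ae ?_
  filter_upwards [Lp.coeFn_add x x'] with b hb
  rw [hb, Pi.add_apply]
  ring

theorem I4_add3 {g x y y' z : L2R}
    (h1 : Integrable fun b => conj (g b) * (x b * conj (y b) * z b))
    (h2 : Integrable fun b => conj (g b) * (x b * conj (y' b) * z b)) :
    I4 g x (y + y') z = I4 g x y z + I4 g x y' z := by
  unfold I4
  rw [← integral_add h1 h2]
  refine integral_congr_ae ?_
  filter_upwards [Lp.coeFn_add y y'] with b hb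
  rw [hb, Pi.add_apply, map_add]
  ring

theorem I4_add4 {g x y z z' : L2R}
    (h1 : Integrable fun b => conj (g b) * (x b * conj (y b) * z b))
    (h2 : Integrable fun b => conj (g b) * (x b * conj (y b) * z' b)) :
    I4 g x y (z + z') = I4 g x y z + I4 g x y z' := by
  unfold I4
  rw [← integral_add h1 h2]
  refine integral_congr_ae ?_
  filter_upwards [Lp.coeFn_add z z'] with b hb
  rw [hb, Pi.add_apply]
  ring

theorem I4_smul1 (c : ℝ) (g x y z : L2R) :
    I4 ((c : ℂ) • g) x y z = (c : ℂ) * I4 g x y z := by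
  unfold I4
  rw [← integral_const_mul]
  refine integral_congr_ae ?_
  filter_upwards [Lp.coeFn_smul (c : ℂ) g] with b hb
  rw [hb, Pi.smul_apply, smul_eq_mul, map_mul, Complex.conj_ofReal]
  ring

theorem I4_swap (g x y z : L2R) : I4 g x y z = I4 g z y x := by
  unfold I4
  refine integral_congr_ae (Eventually.of_forall fun b => ?_)
  simp only []
  ring

/-- `∫ conj(u) u conj(x) u` is the conjugate of `∫ conj(u) x conj(u) u`. -/
theorem I4_conj (u x : L2R) : I4 u u x u = conj (I4 u x u u) := by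
  unfold I4
  rw [← integral_conj]
  refine integral_congr_ae (Eventually.of_forall fun b => ?_)
  simp only [map_mul, Complex.conj_conj]
  ring

/-- band of a multiplier image. -/
theorem bd_of_isM {σ : ℝ → ℝ} {h g : L2R} {A : ℝ} (hg : IsM σ h g)
    (h0 : ∀ l, A < |l| → σ l = 0) : Bd A g := by
  unfold Bd
  filter_upwards [hg] with ξ hξ hA
  rw [hξ, h0 _ hA]
  simp

theorem hi_of_isM {σ : ℝ → ℝ} {h g : L2R} {K : ℝ} (hg : IsM σ h g)
    (h0 : ∀ l, |l| < K → σ l = 0) : Hi K g := by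
  unfold Hi
  filter_upwards [hg] with ξ hξ hA
  rw [hξ, h0 _ hA]
  simp

theorem ch_meas (hC : SpecCHF) {N : ℝ} (hN : 0 < N) : Measurable (ch N) :=
  (hC N hN).2.2.2.1.measurable

/-- a symbol with a Lipschitz bound is continuous. -/
theorem cont_of_lip {σ : ℝ → ℝ} {c : ℝ} (hc : 0 ≤ c) (hσ : ∀ l l', |σ l - σ l'| ≤ c * |l - l'|) :
    Continuous σ := by
  have : LipschitzWith (Real.toNNReal c) σ := by
    refine LipschitzWith.of_dist_le_mul fun x y => ?_
    rw [Real.dist_eq, Real.dist_eq, Real.coe_toNNReal _ hc]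
    exact hσ x y
  exact this.continuous

end Pool.Agent.Lib.MP424d38.ES.SPA
end
end

section
/-!
# Module SLI of block ES: the slice inequality
-/
set_option autoImplicit false

open MeasureTheory Filter Topology Set
open scoped ENNReal ContDiff ComplexConjugate FourierTransform

noncomputable section

namespace Pool.Agent.Lib.MP424d38.ES

open Pool.Agent.Lib.MP424d38.TY

open SPA in
theorem specSLI (hTW : SpecTW2) (hTH : SpecTH3) (hKE : SpecKEY) (hM : SpecMX1)
    (hS : SpecSB1) (hO : SpecORT) (hI : SpecIB4) (hC : SpecCHF) : SpecSLI := by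
  obtain ⟨C1, hC1, H1⟩ := hTW
  obtain ⟨C2, hC2, H2⟩ := hTH
  refine ⟨3 * C1 + C2 + 1, by positivity, ?_⟩
  intro N K σ h g hN hNK hlip hvan hE hg
  have hπ := Real.pi_pos
  have hπ3 := Real.pi_gt_three
  have hK : 0 < K := by linarith
  obtain ⟨c01, clow, chigh, ccont, -, -, -, -, -⟩ := hC N hN
  -- the decomposition
  obtain ⟨y, hy⟩ := hM.1 (ch N) h ccont.measurable (by
    refine intg0 (σ := fun l => ch N l ^ 2) hM h (ccont.measurable.pow_const 2) (a := 1)
      (fun l => ?_)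
    rw [abs_of_nonneg (by positivity)]
    exact pow_le_one₀ (c01 l).1 (c01 l).2)
  set x : L2R := h - y with hxd
  have hx : IsM (fun l => 1 - ch N l) h x := isM_sub (isM_one h) hy
  have hhd : h = x + y := by rw [hxd]; abel
  have hEy : E1 y := E1_of_isM hE hy fun l => by
    rw [abs_of_nonneg (c01 l).1]
    exact (c01 l).2
  have hEx : E1 x := E1_of_isM hE hx fun l => by
    rw [abs_of_nonneg (by linarith [(c01 l).2])]
    linarith [(c01 l).1]
  have hgy : gm y = gw (ch N) h := by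
    unfold gm gw
    rw [sp_of_isM (τ := fun _ => 1) hy, sp_of_isM (τ := fun l => l ^ 2) hy,
      sp_of_isM (τ := fun l => l) hy]
    simp only [one_mul]
  have hgw0 : 0 ≤ gw (ch N) h := by
    rw [← hgy]
    exact (hS y hEy).1
  have hgm0 : 0 ≤ gm h := (hS h hE).1
  refine ⟨hgw0, ?_⟩
  -- bounds
  set X := Real.sqrt (Real.sqrt (gm x)) with hX
  have hX0 : 0 ≤ X := by positivity
  have hxs : ∀ᵐ b : ℝ, ‖x b‖ ≤ X := sup_E1 hS hEx
  set Y := Real.sqrt (Real.sqrt (gm y)) with hY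
  have hY0 : 0 ≤ Y := by positivity
  have hys : ∀ᵐ b : ℝ, ‖y b‖ ≤ Y := sup_E1 hS hEy
  -- integrability of the eight terms
  have i1 := int4 (g := g) (z := x) hI hX0 hX0 hxs hxs
  have i2 := int4 (g := g) (z := y) hI hX0 hX0 hxs hxs
  have i3 := int4 (g := g) (z := x) hI hX0 hY0 hxs hys
  have i4 := int4 (g := g) (z := y) hI hX0 hY0 hxs hys
  have i5 := int4 (g := g) (z := x) hI hY0 hX0 hys hxs
  have i6 := int4 (g := g) (z := y) hI hY0 hX0 hys hxs
  have i7 := int4 (g := g) (z := x) hI hY0 hY0 hys hys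
  have i8 := int4 (g := g) (z := y) hI hY0 hY0 hys hys
  have expand : (∫ b, conj (g b) * (((‖h b‖ ^ 2 : ℝ) : ℂ) * h b)) =
      ((I4 g x x x + I4 g x x y) + (I4 g x y x + I4 g x y y)) +
      ((I4 g y x x + I4 g y x y) + (I4 g y y x + I4 g y y y)) := by
    unfold I4
    have a1 := integral_add i1 i2
    have a2 := integral_add i3 i4
    have a3 := integral_add i5 i6
    have a4 := integral_add i7 i8
    have a5 := integral_add (i1.add i2) (i3.add i4)
    have a6 := integral_add (i5.add i6) (i7.add i8)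
    have a7 := integral_add ((i1.add i2).add (i3.add i4)) ((i5.add i6).add (i7.add i8))
    simp only [Pi.add_apply] at a1 a2 a3 a4 a5 a6 a7
    rw [← a1, ← a2, ← a3, ← a4, ← a5, ← a6, ← a7]
    refine integral_congr_ae ?_
    filter_upwards [Lp.coeFn_add x y] with b hb
    have hn : ((‖h b‖ ^ 2 : ℝ) : ℂ) = h b * conj (h b) := by
      rw [Complex.mul_conj, Complex.normSq_eq_norm_sq]
    rw [hn, hhd, hb, Pi.add_apply, map_add]
    ring
  have bx : Bd (2 * N) x := bd_of_isM hx fun l hl => by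
    rw [chigh l hl.le, sub_self]
  have hg' : Hi K g := hi_of_isM hg fun l hl => hvan l hl.le
  have z1 : I4 g x x x = 0 := hO (2 * N) (2 * N) (2 * N) K g x x x (by positivity) (by positivity)
    (by positivity) (by linarith) bx bx bx hg'
  obtain ⟨t1, t2⟩ := H1 N K σ h g x y hN hNK hlip hvan hE hg hx hy
  have t3 := H2 N K σ h g x y hN hNK hlip hvan hE hg hx hy
  have hgyM : IsM σ y g := by
    unfold IsM at *
    filter_upwards [hg, hy] with ξ h1 h2
    rw [h1, h2]
    by_cases hc : |2 * Real.pi * ξ| ≤ K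
    · rw [hvan _ hc]
      simp
    · push Not at hc
      rw [chigh _ (by linarith)]
      simp
  have t4 := hKE σ 1 y g zero_le_one (fun l l' => by rw [one_mul]; exact hlip l l') hEy hgyM
  have e4 : I4 g y y y = ∫ b, conj (g b) * (((‖y b‖ ^ 2 : ℝ) : ℂ) * y b) := by
    unfold I4
    refine integral_congr_ae (Eventually.of_forall fun b => ?_)
    simp only []
    have hn : ((‖y b‖ ^ 2 : ℝ) : ℂ) = y b * conj (y b) := by
      rw [Complex.mul_conj, Complex.normSq_eq_norm_sq]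
    rw [hn]
  rw [← e4, hgy] at t4
  have e5 : (∫ b, conj (g b) * (((‖h b‖ ^ 2 : ℝ) : ℂ) * h b)) =
      (2 * I4 g x x y + I4 g x y x) + (2 * I4 g x y y + I4 g y x y) + I4 g y y y := by
    rw [expand, z1, I4_swap g y x x, I4_swap g y y x]
    ring
  rw [e5, Complex.add_im, Complex.add_im]
  have u1 : |(2 * I4 g x x y + I4 g x y x).im| ≤ 3 * (C1 * (N / K) * gm h) := by
    refine (Complex.abs_im_le_norm _).trans ((norm_add_le _ _).trans ?_)
    rw [norm_mul, Complex.norm_ofNat]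
    linarith
  have u2 : C2 * Real.sqrt (N / K * gm h) * Real.sqrt (gw (ch N) h) ≤
      C2 * (N / K * gm h + gw (ch N) h) := by
    have p1 : 0 ≤ N / K * gm h := by positivity
    have q1 := Real.sq_sqrt p1
    have q2 := Real.sq_sqrt hgw0
    have q3 : Real.sqrt (N / K * gm h) * Real.sqrt (gw (ch N) h) ≤ N / K * gm h + gw (ch N) h := by
      nlinarith [sq_nonneg (Real.sqrt (N / K * gm h) - Real.sqrt (gw (ch N) h)),
        Real.sqrt_nonneg (N / K * gm h), Real.sqrt_nonneg (gw (ch N) h)]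
    calc C2 * Real.sqrt (N / K * gm h) * Real.sqrt (gw (ch N) h)
        = C2 * (Real.sqrt (N / K * gm h) * Real.sqrt (gw (ch N) h)) := by ring
      _ ≤ _ := by gcongr
  have u3 : 2 / Real.pi * 1 * gw (ch N) h ≤ gw (ch N) h := by
    have : 2 / Real.pi ≤ 1 := by rw [div_le_one hπ]; linarith
    nlinarith
  have p1 : 0 ≤ N / K * gm h := by positivity
  calc |(2 * I4 g x x y + I4 g x y x).im + (2 * I4 g x y y + I4 g y x y).im + (I4 g y y y).im|
      ≤ |(2 * I4 g x x y + I4 g x y x).im| + |(2 * I4 g x y y + I4 g y x y).im| +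
        |(I4 g y y y).im| := by
        refine (abs_add_le _ _).trans ?_
        gcongr
        exact abs_add_le _ _
    _ ≤ 3 * (C1 * (N / K) * gm h) + C2 * (N / K * gm h + gw (ch N) h) + gw (ch N) h := by
        linarith
    _ ≤ (3 * C1 + C2 + 1) * (gw (ch N) h + N / K * gm h) := by
        have p2 : 0 ≤ C1 * gw (ch N) h := by positivity
        nlinarith

end Pool.Agent.Lib.MP424d38.ES
end
end

section
/-!
# Block ES, module TH3 (one low factor)
-/
set_option autoImplicit false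

open MeasureTheory Filter Topology Set
open scoped ENNReal ContDiff ComplexConjugate FourierTransform

noncomputable section

namespace Pool.Agent.Lib.MP424d38.ES

open Pool.Agent.Lib.MP424d38.TY

namespace TH3M

theorem sp_of (τ σ : ℝ → ℝ) (h g : L2R) (hM : IsM σ h g) :
    sp τ g = sp (fun l => τ l * σ l ^ 2) h := by
  unfold sp
  refine integral_congr_ae ?_
  filter_upwards [hM] with ξ hξ
  rw [hξ, norm_mul, mul_pow, Complex.norm_real, Real.norm_eq_abs, sq_abs]
  ring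

theorem gm_of (σ : ℝ → ℝ) (h g : L2R) (hM : IsM σ h g) : gm g = gw σ h := by
  unfold gm gw
  rw [sp_of _ σ h g hM, sp_of _ σ h g hM, sp_of _ σ h g hM]
  simp only [one_mul]

theorem int_w (MX : SpecMX1) (h : L2R) (hE : E1 h) (A : ℝ → ℝ) (a : ℝ) (hA : Measurable A)
    (h1 : ∀ l, |A l| ≤ a * (1 + l ^ 2)) :
    Integrable fun ξ : ℝ => A (2 * Real.pi * ξ) * ‖(𝓕 h : L2R) ξ‖ ^ 2 := by
  have i0 : Integrable fun ξ : ℝ => ‖(𝓕 h : L2R) ξ‖ ^ 2 := (MX.2.2.1 h).2.2
  have i1 : Integrable fun ξ : ℝ => (2 * Real.pi * ξ) ^ 2 * ‖(𝓕 h : L2R) ξ‖ ^ 2 := hE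
  refine Integrable.mono' ((i0.add i1).const_mul a) ?_ ?_
  · refine AEStronglyMeasurable.mul ?_ ?_
    · exact (hA.comp (measurable_const.mul measurable_id)).aestronglyMeasurable
    · exact i0.aestronglyMeasurable
  · refine ae_of_all _ fun ξ => ?_
    rw [Real.norm_eq_abs, abs_mul, abs_of_nonneg (sq_nonneg ‖(𝓕 h : L2R) ξ‖)]
    have := mul_le_mul_of_nonneg_right (h1 (2 * Real.pi * ξ)) (sq_nonneg ‖(𝓕 h : L2R) ξ‖)
    simp only [Pi.add_apply]
    linarith

theorem sp_mono (h : L2R) (A B : ℝ → ℝ) (h0 : ∀ l, 0 ≤ A l) (hAB : ∀ l, A l ≤ B l)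
    (hB : Integrable fun ξ : ℝ => B (2 * Real.pi * ξ) * ‖(𝓕 h : L2R) ξ‖ ^ 2) :
    sp A h ≤ sp B h := by
  unfold sp
  refine integral_mono_of_nonneg ?_ hB ?_
  · exact ae_of_all _ fun ξ => mul_nonneg (h0 _) (sq_nonneg _)
  · exact ae_of_all _ fun ξ => mul_le_mul_of_nonneg_right (hAB _) (sq_nonneg _)

theorem sp_nonneg (h : L2R) (A : ℝ → ℝ) (h0 : ∀ l, 0 ≤ A l) : 0 ≤ sp A h :=
  integral_nonneg fun _ => mul_nonneg (h0 _) (sq_nonneg _)

theorem sp_const_mul (h : L2R) (c : ℝ) (A : ℝ → ℝ) : sp (fun l => c * A l) h = c * sp A h := by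
  unfold sp
  rw [← integral_const_mul]
  refine integral_congr_ae (ae_of_all _ fun ξ => ?_)
  simp only
  ring

/-- high part -/
def hiS (R l : ℝ) : ℝ := if R ≤ |l| then l ^ 2 else 0

/-- low part -/
def loS (r l : ℝ) : ℝ := if |l| ≤ r then 1 else 0

theorem hiS_meas (R : ℝ) : Measurable (hiS R) := by
  unfold hiS
  refine Measurable.ite (measurableSet_le measurable_const continuous_abs.measurable) ?_
    measurable_const
  exact measurable_id.pow_const 2

theorem loS_meas (r : ℝ) : Measurable (loS r) := by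
  unfold loS
  exact Measurable.ite (measurableSet_le continuous_abs.measurable measurable_const)
    measurable_const measurable_const

theorem hiS_bd (R l : ℝ) : 0 ≤ hiS R l ∧ hiS R l ≤ 1 * (1 + l ^ 2) := by
  unfold hiS
  split_ifs
  · exact ⟨sq_nonneg _, by nlinarith⟩
  · exact ⟨le_refl _, by nlinarith [sq_nonneg l]⟩

theorem loS_bd (r l : ℝ) : 0 ≤ loS r l ∧ loS r l ≤ 1 * (1 + l ^ 2) := by
  unfold loS
  split_ifs
  · exact ⟨by norm_num, by nlinarith [sq_nonneg l]⟩
  · exact ⟨le_refl _, by nlinarith [sq_nonneg l]⟩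

theorem prs (PR : SpecPRS) (h : L2R) (hE : E1 h) (R r : ℝ) (hr : 0 ≤ r) (hR : 2 * r ≤ R) :
    sp (hiS R) h * sp (loS r) h ≤ 8 * gm h := by
  have key := PR (hiS R) (loS r) 4 1 h (hiS_meas R) (loS_meas r) (by norm_num)
    (hiS_bd R) (loS_bd r) ?_ hE
  · linarith
  · intro l l'
    unfold hiS loS
    split_ifs with h1 h2
    · have e1 : |l| ≤ |l - l'| + |l'| := by
        have := abs_add_le (l - l') l'
        simpa using this
      have e2 : |l| ≤ 2 * |l - l'| := by linarith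
      have e3 : l ^ 2 = |l| ^ 2 := (sq_abs l).symm
      have e4 : (l - l') ^ 2 = |l - l'| ^ 2 := (sq_abs _).symm
      rw [e3, e4]
      have := abs_nonneg l
      nlinarith
    · nlinarith [sq_nonneg (l - l')]
    · nlinarith [sq_nonneg (l - l')]
    · nlinarith [sq_nonneg (l - l')]

/-- square expansion -/
theorem sp_shift (MX : SpecMX1) (h : L2R) (hE : E1 h) (c : ℝ) :
    sp (fun l => (l - c) ^ 2) h
      = sp (fun l => l ^ 2) h - 2 * c * sp (fun l => l) h + c ^ 2 * sp (fun _ => 1) h := by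
  have i0 := int_w MX h hE (fun _ => 1) 1 measurable_const
    (fun l => by rw [abs_one]; nlinarith [sq_nonneg l])
  have i1 := int_w MX h hE (fun l => l) 1 measurable_id
    (fun l => by
      rw [abs_le]
      constructor <;> nlinarith [sq_nonneg (l - 1), sq_nonneg (l + 1)])
  have i2 := int_w MX h hE (fun l => l ^ 2) 1 (measurable_id.pow_const 2)
    (fun l => by rw [abs_of_nonneg (sq_nonneg l)]; nlinarith)
  have j1 := i1.const_mul (2 * c)
  have j0 := i0.const_mul (c ^ 2)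
  have e1 := integral_sub i2 j1
  have e2 := integral_add (i2.sub j1) j0
  unfold sp
  rw [← integral_const_mul, ← integral_const_mul]
  simp only at e1 e2 ⊢
  rw [← e1]
  simp only [Pi.sub_apply] at e2
  rw [← e2]
  refine integral_congr_ae (ae_of_all _ fun ξ => ?_)
  simp only
  ring

theorem gm_le (MX : SpecMX1) (SB : SpecSB1) (y u : L2R) (τ : ℝ → ℝ) (hτ : ∀ l, |τ l| ≤ 1)
    (hy : E1 y) (hu : E1 u) (hM : IsM τ y u) : gm u ≤ gm y := by
  have hg := (SB y hy).1
  have t1 : ∀ l, τ l ^ 2 ≤ 1 := fun l => by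
    have := hτ l
    rw [← sq_abs]
    have h0 := abs_nonneg (τ l)
    nlinarith
  have i0 := int_w MX y hy (fun _ => 1) 1 measurable_const
    (fun l => by rw [abs_one]; nlinarith [sq_nonneg l])
  have r1 : sp (fun _ => 1) u ≤ sp (fun _ => 1) y := by
    rw [sp_of _ τ y u hM]
    refine sp_mono y _ _ (fun l => ?_) (fun l => ?_) i0
    · rw [one_mul]; exact sq_nonneg _
    · rw [one_mul]; exact t1 l
  have r0 : 0 ≤ sp (fun _ => 1) u := sp_nonneg u _ fun _ => by norm_num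
  have s0 : 0 ≤ sp (fun _ => 1) y := sp_nonneg y _ fun _ => by norm_num
  rcases eq_or_lt_of_le s0 with hz | hz
  · have : sp (fun _ => 1) u = 0 := le_antisymm (by rw [hz]; exact r1) r0
    have h2 : gm u = 0 - sp (fun l => l) u ^ 2 := by
      unfold gm
      rw [this, zero_mul]
    rw [h2]
    nlinarith [sq_nonneg (sp (fun l => l) u)]
  · set c : ℝ := sp (fun l => l) y / sp (fun _ => 1) y with hc
    have hcy : c * sp (fun _ => 1) y = sp (fun l => l) y := by
      rw [hc]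
      field_simp
    have i2 := int_w MX y hy (fun l => (l - c) ^ 2) (2 + 2 * c ^ 2)
      ((measurable_id.sub_const c).pow_const 2)
      (fun l => by
        rw [abs_of_nonneg (sq_nonneg _)]
        nlinarith [sq_nonneg (l + c), sq_nonneg (c * l), sq_nonneg c, sq_nonneg l])
    have r2 : sp (fun l => (l - c) ^ 2) u ≤ sp (fun l => (l - c) ^ 2) y := by
      rw [sp_of _ τ y u hM]
      refine sp_mono y _ _ (fun l => ?_) (fun l => ?_) i2
      · positivity
      · nlinarith [t1 l, sq_nonneg (l - c)]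
    have r3 : 0 ≤ sp (fun l => (l - c) ^ 2) u := sp_nonneg u _ fun _ => sq_nonneg _
    have r4 := mul_le_mul r1 r2 r3 s0
    have e1 := sp_shift MX u hu c
    have e2 := sp_shift MX y hy c
    have f1 : gm u = sp (fun _ => 1) u * sp (fun l => (l - c) ^ 2) u
        - (sp (fun l => l) u - c * sp (fun _ => 1) u) ^ 2 := by
      rw [e1]; unfold gm; ring
    have f2 : gm y = sp (fun _ => 1) y * sp (fun l => (l - c) ^ 2) y
        - (sp (fun l => l) y - c * sp (fun _ => 1) y) ^ 2 := by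
      rw [e2]; unfold gm; ring
    rw [hcy, sub_self] at f2
    nlinarith [sq_nonneg (sp (fun l => l) u - c * sp (fun _ => 1) u)]

/-- bounded functions -/
def Bdd (x : L2R) : Prop := ∃ X : ℝ, 0 ≤ X ∧ ∀ᵐ b : ℝ, ‖x b‖ ≤ X

theorem int4 (IB : SpecIB4) (g x y z : L2R) (hx : Bdd x) (hy : Bdd y) :
    Integrable (fun b => conj (g b) * (x b * conj (y b) * z b)) := by
  obtain ⟨X, hX, h1⟩ := hx
  obtain ⟨Y, hY, h2⟩ := hy
  exact (IB.1 g x y z X Y hX hY h1 h2).2.2.2.1

theorem add1 (IB : SpecIB4) (g x x' y z : L2R) (hx : Bdd x) (hx' : Bdd x') (hy : Bdd y) :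
    I4 g (x + x') y z = I4 g x y z + I4 g x' y z := by
  unfold I4
  rw [← integral_add (int4 IB g x y z hx hy) (int4 IB g x' y z hx' hy)]
  refine integral_congr_ae ?_
  filter_upwards [Lp.coeFn_add x x'] with b hb
  rw [hb, Pi.add_apply]
  ring

theorem add2 (IB : SpecIB4) (g x y y' z : L2R) (hx : Bdd x) (hy : Bdd y) (hy' : Bdd y') :
    I4 g x (y + y') z = I4 g x y z + I4 g x y' z := by
  unfold I4
  rw [← integral_add (int4 IB g x y z hx hy) (int4 IB g x y' z hx hy')]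
  refine integral_congr_ae ?_
  filter_upwards [Lp.coeFn_add y y'] with b hb
  rw [hb, Pi.add_apply, map_add]
  ring

theorem add3 (IB : SpecIB4) (g x y z z' : L2R) (hx : Bdd x) (hy : Bdd y) :
    I4 g x y (z + z') = I4 g x y z + I4 g x y z' := by
  unfold I4
  rw [← integral_add (int4 IB g x y z hx hy) (int4 IB g x y z' hx hy)]
  refine integral_congr_ae ?_
  filter_upwards [Lp.coeFn_add z z'] with b hb
  rw [hb, Pi.add_apply]
  ring

theorem E1_of (MX : SpecMX1) (h g : L2R) (σ : ℝ → ℝ) (hσ : Measurable σ) (h1 : ∀ l, |σ l| ≤ 1)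
    (hE : E1 h) (hM : IsM σ h g) : E1 g := by
  have i := int_w MX h hE (fun l => l ^ 2 * σ l ^ 2) 1
    ((measurable_id.pow_const 2).mul (hσ.pow_const 2))
    (fun l => by
      have t1 : σ l ^ 2 ≤ 1 := by
        rw [← sq_abs]
        have h0 := abs_nonneg (σ l)
        nlinarith [h1 l]
      rw [abs_of_nonneg (by positivity)]
      nlinarith [sq_nonneg l, sq_nonneg (σ l)])
  unfold E1
  refine i.congr ?_
  filter_upwards [hM] with ξ hξ
  rw [hξ, norm_mul, mul_pow ‖_‖ ‖_‖, Complex.norm_real, Real.norm_eq_abs, sq_abs]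
  ring

theorem ex_mul (MX : SpecMX1) (h : L2R) (σ : ℝ → ℝ) (hσ : Measurable σ) (h1 : ∀ l, |σ l| ≤ 1) :
    ∃ g : L2R, IsM σ h g := by
  refine MX.1 σ h hσ ?_
  have i0 : Integrable fun ξ : ℝ => ‖(𝓕 h : L2R) ξ‖ ^ 2 := (MX.2.2.1 h).2.2
  refine Integrable.mono' i0 ?_ ?_
  · refine AEStronglyMeasurable.mul ?_ ?_
    · exact ((hσ.comp (measurable_const.mul measurable_id)).pow_const 2).aestronglyMeasurable
    · exact i0.aestronglyMeasurable
  · refine ae_of_all _ fun ξ => ?_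
    have t1 : σ (2 * Real.pi * ξ) ^ 2 ≤ 1 := by
      rw [← sq_abs]
      have h0 := abs_nonneg (σ (2 * Real.pi * ξ))
      nlinarith [h1 (2 * Real.pi * ξ)]
    rw [Real.norm_eq_abs, abs_of_nonneg (by positivity)]
    nlinarith [sq_nonneg ‖(𝓕 h : L2R) ξ‖]

/-- splitting by the cutoff `χ_m` : `y = u + w`. -/
theorem split (MX : SpecMX1) (CH : SpecCHF) (m : ℝ) (hm : 0 < m) (y : L2R) :
    ∃ u w : L2R, IsM (ch m) y u ∧ IsM (fun l => 1 - ch m l) y w ∧ y = u + w := by
  obtain ⟨c1, -, -, c4, -⟩ := CH m hm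
  obtain ⟨u, hu⟩ := ex_mul MX y (ch m) c4.measurable
    (fun l => abs_le.mpr ⟨by linarith [(c1 l).1], (c1 l).2⟩)
  obtain ⟨w, hw⟩ := ex_mul MX y (fun l => 1 - ch m l) (measurable_const.sub c4.measurable)
    (fun l => abs_le.mpr ⟨by linarith [(c1 l).2], by linarith [(c1 l).1]⟩)
  refine ⟨u, w, hu, hw, ?_⟩
  have h1 := MX.2.2.2.2.2.1 _ _ _ _ _ hu hw
  have h2 : IsM (fun l => ch m l + (1 - ch m l)) y y := by
    refine ae_of_all _ fun ξ => ?_
    simp
  exact MX.2.2.2.2.2.2.1 _ _ _ _ h2 h1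

/-- restriction of the support -/
theorem isM_trans (σ τ : ℝ → ℝ) (h y g : L2R) (hy : IsM τ h y) (hg : IsM σ h g)
    (hστ : ∀ l, σ l * τ l = σ l) : IsM σ y g := by
  filter_upwards [hy, hg] with ξ h1 h2
  rw [h1, h2, ← mul_assoc, ← Complex.ofReal_mul, hστ]

theorem isM_comp (σ τ μ : ℝ → ℝ) (h y g : L2R) (hy : IsM τ h y) (hg : IsM σ y g)
    (hστ : ∀ l, σ l * τ l = μ l) : IsM μ h g := by
  filter_upwards [hy, hg] with ξ h1 h2
  rw [h2, h1, ← mul_assoc, ← Complex.ofReal_mul, hστ]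

theorem bd_of (A : ℝ) (σ : ℝ → ℝ) (h g : L2R) (hg : IsM σ h g) (hσ : ∀ l, A < |l| → σ l = 0) :
    Bd A g := by
  filter_upwards [hg] with ξ h1 h2
  rw [h1, hσ _ h2]
  simp

theorem hi_of (K : ℝ) (σ : ℝ → ℝ) (h g : L2R) (hg : IsM σ h g) (hσ : ∀ l, |l| < K → σ l = 0) :
    Hi K g := by
  filter_upwards [hg] with ξ h1 h2
  rw [h1, hσ _ h2]
  simp

theorem sup_of (BR : SpecBRN) (A : ℝ) (h : L2R) (hA : 0 ≤ A) (hb : Bd A h) :
    ∀ᵐ b : ℝ, ‖h b‖ ≤ Real.sqrt (A / Real.pi) * ‖h‖ := by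
  filter_upwards [(BR A h hA hb).2] with b h1
  have h2 : Real.sqrt (A / Real.pi) * ‖h‖ = Real.sqrt (A / Real.pi * ‖h‖ ^ 2) := by
    rw [Real.sqrt_mul (by positivity), Real.sqrt_sq (norm_nonneg _)]
  rw [h2]
  exact Real.le_sqrt_of_sq_le h1

theorem bdd_of_bd (BR : SpecBRN) (A : ℝ) (h : L2R) (hA : 0 ≤ A) (hb : Bd A h) : Bdd h :=
  ⟨_, by positivity, sup_of BR A h hA hb⟩

theorem bdd_of_E1 (SB : SpecSB1) (h : L2R) (hE : E1 h) : Bdd h := by
  refine ⟨1 + gm h, by linarith [(SB h hE).1], ?_⟩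
  filter_upwards [(SB h hE).2.1] with b hb
  have h0 := norm_nonneg (h b)
  have h3 := (SB h hE).1
  by_contra hcon
  push Not at hcon
  have h1 : 1 < ‖h b‖ := by linarith
  have h2 : ‖h b‖ ≤ ‖h b‖ ^ 4 := by
    calc ‖h b‖ = ‖h b‖ ^ 1 := (pow_one _).symm
      _ ≤ ‖h b‖ ^ 4 := pow_le_pow_right₀ h1.le (by norm_num)
  linarith

end TH3M

open TH3M in
theorem specTH3 (MX : SpecMX1) (BR : SpecBRN) (OR : SpecORT) (IB : SpecIB4) (PR : SpecPRS)
    (CH : SpecCHF) (SB : SpecSB1) (TU : SpecTU3) : SpecTH3 := by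
  refine ⟨111, by norm_num, ?_⟩
  intro N K σ h g x y hN hNK hσL hσ0 hE hg hx hy
  have hK : 0 < K := by linarith
  have hK8 : 0 < K / 8 := by positivity
  have hK4 : 0 < K / 4 := by positivity
  have hpi := Real.pi_gt_three
  obtain ⟨n1, n2, n3, n4, -⟩ := CH N hN
  obtain ⟨a1, a2, a3, a4, -⟩ := CH (K / 8) hK8
  obtain ⟨b1, b2, b3, b4, -⟩ := CH (K / 4) hK4
  have nA : ∀ l, |ch N l| ≤ 1 := fun l => abs_le.mpr ⟨by linarith [(n1 l).1], (n1 l).2⟩
  have aA : ∀ l, |ch (K / 8) l| ≤ 1 := fun l => abs_le.mpr ⟨by linarith [(a1 l).1], (a1 l).2⟩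
  have bA : ∀ l, |ch (K / 4) l| ≤ 1 := fun l => abs_le.mpr ⟨by linarith [(b1 l).1], (b1 l).2⟩
  have hEy : E1 y := E1_of MX h y (ch N) n4.measurable nA hE hy
  obtain ⟨u, w, hu, hw, hyuw⟩ := split MX CH (K / 8) hK8 y
  have hEu : E1 u := E1_of MX y u (ch (K / 8)) a4.measurable aA hEy hu
  obtain ⟨uv, uw, huv, huw, huvw⟩ := split MX CH (K / 4) hK4 u
  have hEuv : E1 uv := E1_of MX u uv (ch (K / 4)) b4.measurable bA hEu huv
  have Bx : Bd (2 * N) x := bd_of _ _ h x hx (fun l hl => by rw [n3 l hl.le]; ring)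
  have Bw : Bd (K / 4) w := bd_of _ _ y w hw (fun l hl => by rw [a3 l (by linarith)]; ring)
  have Buw : Bd (K / 2) uw := bd_of _ _ u uw huw (fun l hl => by rw [b3 l (by linarith)]; ring)
  have Hg : Hi K g := hi_of K σ h g hg (fun l hl => hσ0 l hl.le)
  have hgy : IsM σ y g := isM_trans σ (ch N) h y g hy hg (fun l => by
    by_cases hl : |l| ≤ K
    · rw [hσ0 l hl, zero_mul]
    · push Not at hl
      rw [n3 l (by linarith), mul_one])
  have hgu : IsM σ u g := isM_trans σ (ch (K / 8)) y u g hu hgy (fun l => by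
    by_cases hl : |l| ≤ K
    · rw [hσ0 l hl, zero_mul]
    · push Not at hl
      rw [a3 l (by linarith), mul_one])
  have hhu : IsM (ch (K / 8)) h u := isM_comp (ch (K / 8)) (ch N) (ch (K / 8)) h y u hy hu
    (fun l => by
      by_cases hl : |l| ≤ K / 8
      · rw [a2 l hl, zero_mul]
      · push Not at hl
        rw [n3 l (by linarith), mul_one])
  have hhuv : IsM (ch (K / 4)) h uv := isM_comp (ch (K / 4)) (ch (K / 8)) (ch (K / 4)) h u uv
    hhu huv (fun l => by
      by_cases hl : |l| ≤ K / 4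
      · rw [b2 l hl, zero_mul]
      · push Not at hl
        rw [a3 l (by linarith), mul_one])
  -- size of the symbol
  have hσl : ∀ l, |σ l| ≤ |l| := fun l => by
    have h1 := hσL l 0
    rw [hσ0 0 (by rw [abs_zero]; exact hK.le), sub_zero, sub_zero] at h1
    exact h1
  have hσm : Measurable σ := by
    refine Continuous.measurable ?_
    refine (LipschitzWith.of_dist_le_mul (K := 1) fun l l' => ?_).continuous
    rw [Real.dist_eq, Real.dist_eq]
    simpa using hσL l l'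
  have iH : ∀ (f : L2R), E1 f → ∀ R : ℝ,
      Integrable fun ξ : ℝ => hiS R (2 * Real.pi * ξ) * ‖(𝓕 f : L2R) ξ‖ ^ 2 := fun f hf R =>
    int_w MX f hf (hiS R) 1 (hiS_meas R) (fun l => by
      rw [abs_of_nonneg (hiS_bd R l).1]; exact (hiS_bd R l).2)
  have iL : ∀ (f : L2R), E1 f → ∀ R : ℝ,
      Integrable fun ξ : ℝ => loS R (2 * Real.pi * ξ) * ‖(𝓕 f : L2R) ξ‖ ^ 2 := fun f hf R =>
    int_w MX f hf (loS R) 1 (loS_meas R) (fun l => by
      rw [abs_of_nonneg (loS_bd R l).1]; exact (loS_bd R l).2)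
  have x2 : ‖x‖ ^ 2 ≤ sp (loS (2 * N)) h := by
    rw [(MX.2.1 (fun l => 1 - ch N l) h x (measurable_const.sub n4.measurable) hx).1]
    refine sp_mono h _ _ (fun l => sq_nonneg _) (fun l => ?_) (iL h hE _)
    unfold loS
    split_ifs with hl
    · nlinarith [(n1 l).1, (n1 l).2]
    · push Not at hl
      rw [n3 l hl.le]
      norm_num
  have g2 : ‖g‖ ^ 2 ≤ sp (hiS K) y := by
    rw [(MX.2.1 _ y g hσm hgy).1]
    refine sp_mono y _ _ (fun l => sq_nonneg _) (fun l => ?_) (iH y hEy _)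
    unfold hiS
    split_ifs with hl
    · exact sq_le_sq.mpr (hσl l)
    · push Not at hl
      rw [hσ0 l hl.le]
      norm_num
  have w2 : ‖w‖ ^ 2 ≤ sp (loS (K / 4)) y := by
    rw [(MX.2.1 (fun l => 1 - ch (K / 8) l) y w (measurable_const.sub a4.measurable) hw).1]
    refine sp_mono y _ _ (fun l => sq_nonneg _) (fun l => ?_) (iL y hEy _)
    unfold loS
    split_ifs with hl
    · nlinarith [(a1 l).1, (a1 l).2]
    · push Not at hl
      rw [a3 l (by linarith)]
      norm_num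
  have v2 : ‖uv‖ ^ 2 ≤ 16 / K ^ 2 * sp (hiS (K / 4)) h := by
    rw [(MX.2.1 _ h uv b4.measurable hhuv).1, ← sp_const_mul]
    refine sp_mono h _ _ (fun l => sq_nonneg _) (fun l => ?_) ?_
    · unfold hiS
      split_ifs with hl
      · have h1 : ch (K / 4) l ^ 2 ≤ 1 := by nlinarith [(b1 l).1, (b1 l).2]
        have h2 : 1 ≤ 16 / K ^ 2 * l ^ 2 := by
          rw [← sq_abs l, div_mul_eq_mul_div, le_div_iff₀ (by positivity)]
          nlinarith
        linarith
      · push Not at hl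
        rw [b2 l hl.le]
        norm_num
    · have := (iH h hE (K / 4)).const_mul (16 / K ^ 2)
      refine this.congr (ae_of_all _ fun ξ => ?_)
      simp only
      ring
  have eu : sp (fun l => l ^ 2) u ≤ sp (hiS (K / 8)) h := by
    rw [sp_of _ _ h u hhu]
    refine sp_mono h _ _ (fun l => by positivity) (fun l => ?_) (iH h hE _)
    unfold hiS
    split_ifs with hl
    · have h1 : ch (K / 8) l ^ 2 ≤ 1 := by nlinarith [(a1 l).1, (a1 l).2]
      nlinarith [sq_nonneg l]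
    · push Not at hl
      rw [a2 l hl.le]
      norm_num
  have ru : sp (fun _ => 1) u ≤ 64 / K ^ 2 * sp (fun l => l ^ 2) u := by
    rw [sp_of _ _ h u hhu, sp_of _ _ h u hhu, ← sp_const_mul]
    refine sp_mono h _ _ (fun l => by positivity) (fun l => ?_) ?_
    · by_cases hl : |l| ≤ K / 8
      · rw [a2 l hl]; norm_num
      · push Not at hl
        have h2 : 1 ≤ 64 / K ^ 2 * l ^ 2 := by
          rw [← sq_abs l, div_mul_eq_mul_div, le_div_iff₀ (by positivity)]
          nlinarith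
        nlinarith [sq_nonneg (ch (K / 8) l)]
    · have h3 : Integrable fun ξ : ℝ =>
          (fun l => l ^ 2 * ch (K / 8) l ^ 2) (2 * Real.pi * ξ) * ‖(𝓕 h : L2R) ξ‖ ^ 2 :=
        int_w MX h hE (fun l => l ^ 2 * ch (K / 8) l ^ 2) 1
          ((measurable_id.pow_const 2).mul (a4.measurable.pow_const 2)) (fun l => by
            have h1 : ch (K / 8) l ^ 2 ≤ 1 := by nlinarith [(a1 l).1, (a1 l).2]
            rw [abs_of_nonneg (by positivity)]
            nlinarith [sq_nonneg l, sq_nonneg (ch (K / 8) l)])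
      refine (h3.const_mul (64 / K ^ 2)).congr (ae_of_all _ fun ξ => ?_)
      simp only
      ring
  -- pairs
  have pD := prs PR h hE
  have pG := prs PR y hEy
  have hD0 : 0 ≤ gm h := (SB h hE).1
  have hG0 : 0 ≤ gm y := (SB y hEy).1
  have hu0 : 0 ≤ gm u := (SB u hEu).1
  have hGw : gm y = gw (ch N) h := gm_of _ h y hy
  have huy : gm u ≤ gm y := gm_le MX SB y u (ch (K / 8)) aA hEy hEu hu
  have hiN : ∀ (f : L2R) (R : ℝ), 0 ≤ sp (hiS R) f := fun f R =>
    sp_nonneg f _ fun l => (hiS_bd R l).1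
  have loN : ∀ (f : L2R) (R : ℝ), 0 ≤ sp (loS R) f := fun f R =>
    sp_nonneg f _ fun l => (loS_bd R l).1
  have P1 : ‖x‖ ^ 2 * ‖uv‖ ^ 2 ≤ 128 / K ^ 2 * gm h := by
    have h1 := mul_le_mul x2 v2 (sq_nonneg _) (loN h _)
    have h2 := pD (K / 4) (2 * N) (by positivity) (by linarith)
    have h3 : sp (loS (2 * N)) h * (16 / K ^ 2 * sp (hiS (K / 4)) h)
        = 16 / K ^ 2 * (sp (hiS (K / 4)) h * sp (loS (2 * N)) h) := by ring
    have h4 := mul_le_mul_of_nonneg_left h2 (show 0 ≤ 16 / K ^ 2 by positivity)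
    calc _ ≤ _ := h1
      _ = _ := h3
      _ ≤ _ := h4
      _ = _ := by ring
  have P2 : ‖w‖ ^ 2 * ‖g‖ ^ 2 ≤ 8 * gm y := by
    have h1 := mul_le_mul w2 g2 (sq_nonneg _) (loN y _)
    have h2 := pG K (K / 4) (by positivity) (by linarith)
    linarith
  have eu0 : 0 ≤ sp (fun l => l ^ 2) u := sp_nonneg u _ fun l => sq_nonneg _
  have P3 : ‖x‖ ^ 2 * sp (fun l => l ^ 2) u ≤ 8 * gm h := by
    have h1 := mul_le_mul x2 eu eu0 (loN h _)
    have h2 := pD (K / 8) (2 * N) (by positivity) (by linarith)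
    linarith
  -- the six mixed terms
  set S : ℝ := Real.sqrt (N / K * gm h) * Real.sqrt (gm y) with hS
  have hS0 : 0 ≤ S := by positivity
  have hS2 : S ^ 2 = N / K * gm h * gm y := by
    rw [hS, mul_pow, Real.sq_sqrt (by positivity), Real.sq_sqrt hG0]
  set X : ℝ := Real.sqrt (2 * N / Real.pi) * ‖x‖ with hX
  set W : ℝ := Real.sqrt (K / 4 / Real.pi) * ‖w‖ with hW
  have hX0 : 0 ≤ X := by positivity
  have hW0 : 0 ≤ W := by positivity
  have hX2 : X ^ 2 = 2 * N / Real.pi * ‖x‖ ^ 2 := by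
    rw [hX, mul_pow, Real.sq_sqrt (by positivity)]
  have hW2 : W ^ 2 = K / 4 / Real.pi * ‖w‖ ^ 2 := by
    rw [hW, mul_pow, Real.sq_sqrt (by positivity)]
  have supX : ∀ᵐ b : ℝ, ‖x b‖ ≤ X := sup_of BR (2 * N) x (by positivity) Bx
  have supW : ∀ᵐ b : ℝ, ‖w b‖ ≤ W := sup_of BR (K / 4) w (by positivity) Bw
  have Q1 : ‖g‖ * X * W * ‖uv‖ ≤ 8 * S := by
    refine (pow_le_pow_iff_left₀ (by positivity) (by positivity) two_ne_zero).mp ?_
    have h1 : (‖g‖ * X * W * ‖uv‖) ^ 2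
        = 2 * N / Real.pi * (K / 4 / Real.pi) * ((‖x‖ ^ 2 * ‖uv‖ ^ 2) * (‖w‖ ^ 2 * ‖g‖ ^ 2)) := by
      have : (‖g‖ * X * W * ‖uv‖) ^ 2 = ‖g‖ ^ 2 * X ^ 2 * W ^ 2 * ‖uv‖ ^ 2 := by ring
      rw [this, hX2, hW2]
      ring
    have h2 := mul_le_mul P1 P2 (by positivity) (by positivity)
    have h3 := mul_le_mul_of_nonneg_left h2
      (show 0 ≤ 2 * N / Real.pi * (K / 4 / Real.pi) by positivity)
    rw [h1, mul_pow, hS2]
    refine h3.trans ?_
    have h4 : 2 * N / Real.pi * (K / 4 / Real.pi) * (128 / K ^ 2 * gm h * (8 * gm y))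
        = 512 / Real.pi ^ 2 * (N / K * gm h * gm y) := by
      field_simp
      ring
    rw [h4]
    have h5 : 512 / Real.pi ^ 2 ≤ 64 := by
      rw [div_le_iff₀ (by positivity)]
      nlinarith
    have h6 : 0 ≤ N / K * gm h * gm y := by positivity
    nlinarith
  have Q2 : 9 * Real.sqrt (2 * N / Real.pi) * ‖x‖ * gm u ^ (3 / 4 : ℝ) ≤ 63 * S := by
    have h0 : 9 * Real.sqrt (2 * N / Real.pi) * ‖x‖ * gm u ^ (3 / 4 : ℝ)
        = 9 * (X * gm u ^ (3 / 4 : ℝ)) := by rw [hX]; ring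
    have h1 : X * gm u ^ (3 / 4 : ℝ) ≤ 7 * S := by
      refine (pow_le_pow_iff_left₀ (by positivity) (by positivity) two_ne_zero).mp ?_
      have h2 : (gm u ^ (3 / 4 : ℝ)) ^ 2 = gm u * Real.sqrt (gm u) := by
        rw [← Real.rpow_natCast, ← Real.rpow_mul hu0, Real.sqrt_eq_rpow]
        rcases eq_or_lt_of_le hu0 with hz | hz
        · rw [← hz, zero_mul]
          rw [Real.zero_rpow (by norm_num)]
        · nth_rewrite 2 [← Real.rpow_one (gm u)]
          rw [← Real.rpow_add hz]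
          norm_num
      have h3 : Real.sqrt (gm u) ≤ 8 / K * sp (fun l => l ^ 2) u := by
        refine Real.sqrt_le_iff.mpr ⟨by positivity, ?_⟩
        have h4 : gm u ≤ sp (fun _ => 1) u * sp (fun l => l ^ 2) u := by
          unfold gm
          nlinarith [sq_nonneg (sp (fun l => l) u)]
        have h5 := mul_le_mul_of_nonneg_right ru eu0
        calc gm u ≤ _ := h4
          _ ≤ _ := h5
          _ = _ := by ring
      rw [mul_pow, h2, hX2, mul_pow, hS2]
      have h4 : gm u * Real.sqrt (gm u) ≤ gm y * (8 / K * sp (fun l => l ^ 2) u) :=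
        mul_le_mul huy h3 (Real.sqrt_nonneg _) hG0
      have h5 : 2 * N / Real.pi * ‖x‖ ^ 2 * (gm u * Real.sqrt (gm u))
          ≤ 2 * N / Real.pi * ‖x‖ ^ 2 * (gm y * (8 / K * sp (fun l => l ^ 2) u)) :=
        mul_le_mul_of_nonneg_left h4 (by positivity)
      have h6 : 2 * N / Real.pi * ‖x‖ ^ 2 * (gm y * (8 / K * sp (fun l => l ^ 2) u))
          = 16 * N / (Real.pi * K) * gm y * (‖x‖ ^ 2 * sp (fun l => l ^ 2) u) := by
        field_simp
        ring
      have h7 : 16 * N / (Real.pi * K) * gm y * (‖x‖ ^ 2 * sp (fun l => l ^ 2) u)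
          ≤ 16 * N / (Real.pi * K) * gm y * (8 * gm h) :=
        mul_le_mul_of_nonneg_left P3 (by positivity)
      have h8 : 16 * N / (Real.pi * K) * gm y * (8 * gm h)
          = 128 / Real.pi * (N / K * gm h * gm y) := by
        field_simp
        ring
      have h9 : 128 / Real.pi ≤ 49 := by
        rw [div_le_iff₀ (by positivity)]
        nlinarith
      have h10 : 0 ≤ N / K * gm h * gm y := by positivity
      have h11 := mul_le_mul_of_nonneg_right h9 h10
      linarith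
    rw [h0]
    linarith
  -- orthogonality and decomposition
  have bx : Bdd x := ⟨X, hX0, supX⟩
  have bw : Bdd w := ⟨W, hW0, supW⟩
  have bu : Bdd u := bdd_of_E1 SB u hEu
  have buv : Bdd uv := bdd_of_E1 SB uv hEuv
  have buw : Bdd uw := bdd_of_bd BR (K / 2) uw (by positivity) Buw
  have z1 : I4 g x w w = 0 := OR (2 * N) (K / 4) (K / 4) K g x w w (by positivity)
    (by positivity) (by positivity) (by linarith) Bx Bw Bw Hg
  have z2 : I4 g w x w = 0 := OR (K / 4) (2 * N) (K / 4) K g w x w (by positivity)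
    (by positivity) (by positivity) (by linarith) Bw Bx Bw Hg
  have z3 : I4 g x uw w = 0 := OR (2 * N) (K / 2) (K / 4) K g x uw w (by positivity)
    (by positivity) (by positivity) (by linarith) Bx Buw Bw Hg
  have z4 : I4 g x w uw = 0 := OR (2 * N) (K / 4) (K / 2) K g x w uw (by positivity)
    (by positivity) (by positivity) (by linarith) Bx Bw Buw Hg
  have z5 : I4 g uw x w = 0 := OR (K / 2) (2 * N) (K / 4) K g uw x w (by positivity)
    (by positivity) (by positivity) (by linarith) Buw Bx Bw Hg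
  have z6 : I4 g w x uw = 0 := OR (K / 4) (2 * N) (K / 2) K g w x uw (by positivity)
    (by positivity) (by positivity) (by linarith) Bw Bx Buw Hg
  have c1 : I4 g x u w = I4 g x uv w := by
    nth_rewrite 1 [huvw]
    rw [add2 IB g x uv uw w bx buv buw, z3, add_zero]
  have c2 : I4 g x w u = I4 g x w uv := by
    nth_rewrite 1 [huvw]
    rw [add3 IB g x w uv uw bx bw, z4, add_zero]
  have c3 : I4 g u x w = I4 g uv x w := by
    nth_rewrite 1 [huvw]
    rw [add1 IB g uv uw x w buv buw bx, z5, add_zero]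
  have c4 : I4 g w x u = I4 g w x uv := by
    nth_rewrite 1 [huvw]
    rw [add3 IB g w x uv uw bw bx, z6, add_zero]
  have d1 : I4 g x y y = I4 g x u u + I4 g x uv w + I4 g x w uv := by
    have e1 : I4 g x y y = I4 g x u y + I4 g x w y := by
      nth_rewrite 1 [hyuw]
      exact add2 IB g x u w y bx bu bw
    have e2 : I4 g x u y = I4 g x u u + I4 g x u w := by
      nth_rewrite 1 [hyuw]
      exact add3 IB g x u u w bx bu
    have e3 : I4 g x w y = I4 g x w u + I4 g x w w := by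
      nth_rewrite 1 [hyuw]
      exact add3 IB g x w u w bx bw
    rw [e1, e2, e3, z1, c1, c2]
    ring
  have d2 : I4 g y x y = I4 g u x u + I4 g uv x w + I4 g w x uv := by
    have e1 : I4 g y x y = I4 g u x y + I4 g w x y := by
      nth_rewrite 1 [hyuw]
      exact add1 IB g u w x y bu bw bx
    have e2 : I4 g u x y = I4 g u x u + I4 g u x w := by
      nth_rewrite 1 [hyuw]
      exact add3 IB g u x u w bu bx
    have e3 : I4 g w x y = I4 g w x u + I4 g w x w := by
      nth_rewrite 1 [hyuw]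
      exact add3 IB g w x u w bw bx
    rw [e1, e2, e3, z2, c3, c4]
    ring
  have q := IB.1 g x w uv X W hX0 hW0 supX supW
  have q' := IB.1 g w x uv W X hW0 hX0 supW supX
  have n1' : ‖I4 g x w uv‖ ≤ 8 * S := q.1.trans Q1
  have n2' : ‖I4 g x uv w‖ ≤ 8 * S := q.2.1.trans Q1
  have n3' : ‖I4 g uv x w‖ ≤ 8 * S := q.2.2.1.trans Q1
  have n4' : ‖I4 g w x uv‖ ≤ 8 * S := q'.1.trans (le_of_eq_of_le (by ring) Q1)
  have tu := TU (2 * N) K σ x u g (by positivity) (by linarith) hK hσL hσ0 Bx hEu hgu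
  have tot : (2 * I4 g x y y + I4 g y x y).im
      = (2 * I4 g x u u + I4 g u x u).im
        + (2 * I4 g x uv w + 2 * I4 g x w uv + I4 g uv x w + I4 g w x uv).im := by
    rw [d1, d2, ← Complex.add_im]
    congr 1
    ring
  have r1 : ‖2 * I4 g x uv w + 2 * I4 g x w uv + I4 g uv x w + I4 g w x uv‖ ≤ 48 * S := by
    have t1 : ‖2 * I4 g x uv w‖ ≤ 16 * S := by
      rw [norm_mul, Complex.norm_ofNat]; linarith
    have t2 : ‖2 * I4 g x w uv‖ ≤ 16 * S := by
      rw [norm_mul, Complex.norm_ofNat]; linarith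
    calc _ ≤ ‖2 * I4 g x uv w + 2 * I4 g x w uv + I4 g uv x w‖ + ‖I4 g w x uv‖ := norm_add_le _ _
      _ ≤ ‖2 * I4 g x uv w + 2 * I4 g x w uv‖ + ‖I4 g uv x w‖ + ‖I4 g w x uv‖ := by
          gcongr; exact norm_add_le _ _
      _ ≤ ‖2 * I4 g x uv w‖ + ‖2 * I4 g x w uv‖ + ‖I4 g uv x w‖ + ‖I4 g w x uv‖ := by
          gcongr; exact norm_add_le _ _
      _ ≤ _ := by linarith
  have r2 := (Complex.abs_im_le_norm
    (2 * I4 g x uv w + 2 * I4 g x w uv + I4 g uv x w + I4 g w x uv)).trans r1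
  rw [tot, ← hGw]
  refine (abs_add_le _ _).trans ?_
  have r3 := tu.trans Q2
  have : (111 : ℝ) * Real.sqrt (N / K * gm h) * Real.sqrt (gm y) = 111 * S := by rw [hS]; ring
  rw [this]
  linarith

end Pool.Agent.Lib.MP424d38.ES
end
end

section
/-!
# Module TU3 of block ES: one low factor, three high factors
-/
set_option autoImplicit false

open MeasureTheory Filter Topology Set
open scoped ENNReal ContDiff ComplexConjugate FourierTransform

noncomputable section

namespace Pool.Agent.Lib.MP424d38.ES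

open Pool.Agent.Lib.MP424d38.TY

namespace TU3M

open SPA

/-- the variance: `∫(l-c)²|û|² = gm u / ρ` for `c = p/ρ`. -/
theorem var_eq (hM : SpecMX1) {u : L2R} (hE : E1 u) (hρ : sp (fun _ => 1) u ≠ 0) :
    sp (fun l => (l - sp (fun l => l) u / sp (fun _ => 1) u) ^ 2) u = gm u / sp (fun _ => 1) u := by
  have e0 : ∀ c : ℝ, sp (fun l => (l - c) ^ 2) u =
      sp (fun l => l ^ 2) u + ((-2 * c) * sp (fun l => l) u + c ^ 2 * sp (fun _ => 1) u) := by
    intro c
    have i2 : Integrable fun ξ : ℝ => (fun l : ℝ => l ^ 2) (2 * Real.pi * ξ) * ‖(𝓕 u : L2R) ξ‖ ^ 2 :=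
      intg (σ := fun l => l ^ 2) hM hE (measurable_id.pow_const 2) (a := 1) (fun l => by
        rw [abs_of_nonneg (by positivity)]; linarith)
    have i1 : Integrable fun ξ : ℝ => (fun l : ℝ => (-2 * c) * l) (2 * Real.pi * ξ) *
        ‖(𝓕 u : L2R) ξ‖ ^ 2 :=
      intg hM hE (measurable_const.mul measurable_id) (a := 2 * |c|) (fun l => by
        rw [abs_mul, abs_mul, abs_neg, abs_two]
        have h1 : |l| ≤ 1 + l ^ 2 := by
          rw [← sq_abs]
          nlinarith [abs_nonneg l, sq_nonneg (|l| - 1)]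
        gcongr)
    have i0 : Integrable fun ξ : ℝ => (fun _ : ℝ => c ^ 2 * 1) (2 * Real.pi * ξ) *
        ‖(𝓕 u : L2R) ξ‖ ^ 2 :=
      intg0 hM u measurable_const (a := c ^ 2) (fun l => by
        rw [abs_of_nonneg (by positivity)]; linarith)
    have i10 : Integrable fun ξ : ℝ => (fun l : ℝ => (-2 * c) * l + c ^ 2 * 1) (2 * Real.pi * ξ) *
        ‖(𝓕 u : L2R) ξ‖ ^ 2 := by
      refine (i1.add i0).congr (Eventually.of_forall fun ξ => ?_)
      simp only [Pi.add_apply]
      ring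
    rw [← sp_cmul, ← sp_cmul, ← sp_add i1 i0, ← sp_add i2 i10]
    congr 1
    funext l
    ring
  rw [e0]
  unfold gm
  field_simp
  ring

end TU3M

open SPA TU3M

theorem specTU3 (hZ : SpecZBD) (hS : SpecSB1) (hI : SpecIB4) (hB : SpecBRN) (hM : SpecMX1) :
    SpecTU3 := by
  intro A K σ x u g hA hAK hK hlip hvan hx hu hg
  obtain ⟨hgm, hsup, h6, -, h4i, h4, -⟩ := hS u hu
  have hπ := Real.pi_pos
  set ρ := sp (fun _ => 1) u with hρdef
  have hρ0 : 0 ≤ ρ := sp_nonneg fun _ => zero_le_one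
  have hnorm : ‖u‖ ^ 2 = ρ := (hM.2.2.1 u).1
  have hRHS : 0 ≤ 9 * Real.sqrt (A / Real.pi) * ‖x‖ * gm u ^ (3 / 4 : ℝ) := by positivity
  rcases hρ0.eq_or_lt with hz | hρ
  · have hu0 : u = 0 := by
      have : ‖u‖ ^ 2 = 0 := by rw [hnorm, ← hz]
      exact norm_eq_zero.1 (pow_eq_zero_iff two_ne_zero |>.1 this)
    have e1 : I4 g x u u = 0 := by
      unfold I4
      refine integral_eq_zero_of_ae ?_
      filter_upwards [Lp.coeFn_zero ℂ 2 (volume : Measure ℝ)] with b hb
      rw [hu0, hb]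
      simp
    have e2 : I4 g u x u = 0 := by
      unfold I4
      refine integral_eq_zero_of_ae ?_
      filter_upwards [Lp.coeFn_zero ℂ 2 (volume : Measure ℝ)] with b hb
      rw [hu0, hb]
      simp
    rw [e1, e2]
    simpa using hRHS
  · set c := sp (fun l => l) u / ρ with hc
    set G2 := sp (fun l => (l - c) ^ 2) u with hG2
    have hG2e : G2 = gm u / ρ := var_eq hM hu hρ.ne'
    set r : L2R := g - ((σ c : ℝ) : ℂ) • u with hr
    have hrM : IsM (fun l => σ l - σ c) u r := isM_sub hg (isM_smul (σ c) u)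
    have hσc : Continuous σ := cont_of_lip (c := 1) zero_le_one (fun l l' => by
      rw [one_mul]; exact hlip l l')
    have hrn : ‖r‖ ^ 2 ≤ G2 := by
      rw [(hM.2.1 _ u r (hσc.measurable.sub measurable_const) hrM).1, hG2]
      refine sp_mono (fun l => sq_nonneg _) (fun l => ?_) ?_
      · rw [← sq_abs, ← sq_abs (l - c)]
        exact pow_le_pow_left₀ (abs_nonneg _) (hlip l c) 2
      · exact intg (σ := fun l => (l - c) ^ 2) hM hu
          ((measurable_id.sub measurable_const).pow_const 2) (a := 2 * (1 + c ^ 2))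
          (fun l => by
            rw [abs_of_nonneg (by positivity)]
            nlinarith [sq_nonneg (l + c), sq_nonneg l, sq_nonneg c, sq_nonneg (l * c)])
    have hG20 : 0 ≤ G2 := sp_nonneg fun l => sq_nonneg _
    have hrs : ‖r‖ ≤ Real.sqrt G2 := Real.le_sqrt_of_sq_le hrn
    -- sup bounds
    set X := Real.sqrt (A / Real.pi) * ‖x‖ with hX
    have hX0 : 0 ≤ X := by positivity
    have hxs : ∀ᵐ b : ℝ, ‖x b‖ ≤ X := sup_bd hB hA hx
    set Y := Real.sqrt (Real.sqrt (gm u)) with hY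
    have hY0 : 0 ≤ Y := by positivity
    have hus : ∀ᵐ b : ℝ, ‖u b‖ ≤ Y := sup_E1 hS hu
    set F := Real.sqrt (∫ b, ‖u b‖ ^ 4) with hF
    have hF0 : 0 ≤ F := Real.sqrt_nonneg _
    -- decomposition
    have hgr : g = r + ((σ c : ℝ) : ℂ) • u := by rw [hr]; abel
    have d1 : I4 g x u u = I4 r x u u + ((σ c : ℝ) : ℂ) * I4 u x u u := by
      rw [← I4_smul1, hgr]
      exact I4_add1 (int4 hI hX0 hY0 hxs hus) (int4 hI hX0 hY0 hxs hus)
    have d2 : I4 g u x u = I4 r u x u + ((σ c : ℝ) : ℂ) * conj (I4 u x u u) := by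
      rw [← I4_conj, ← I4_smul1, hgr]
      exact I4_add1 (int4 hI hY0 hX0 hus hxs) (int4 hI hY0 hX0 hus hxs)
    set Z := I4 u x u u with hZd
    have b1 : ‖I4 r x u u‖ ≤ ‖r‖ * X * F := (hI.2 r x u X hX0 hxs h4i).1
    have b2 : ‖I4 r u x u‖ ≤ ‖r‖ * X * F := (hI.2 r x u X hX0 hxs h4i).2.1
    -- the resonant part
    have b3 : |σ c * Z.im| ≤ 6 * X * Real.sqrt G2 * F := by
      by_cases hcK : |c| ≤ K
      · rw [hvan c hcK, zero_mul, abs_zero]
        positivity
      · push Not at hcK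
        have hc0 : 0 < |c| := hK.trans hcK
        have hσ0 : σ 0 = 0 := hvan 0 (by rw [abs_zero]; exact hK.le)
        have hσle : |σ c| ≤ |c| := by
          have := hlip c 0
          rwa [hσ0, sub_zero, sub_zero] at this
        have hz := hZ A c x u hA (hAK.trans hcK.le) hc0 hx hu
        calc |σ c * Z.im| = |σ c| * |Z.im| := abs_mul _ _
          _ ≤ |c| * ‖Z‖ := by
              gcongr
              exact Complex.abs_im_le_norm Z
          _ ≤ _ := by
              refine hz.trans (le_of_eq ?_)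
              rw [hX]
              ring
    have key : |(2 * I4 g x u u + I4 g u x u).im| ≤ 9 * X * Real.sqrt G2 * F := by
      have e : (2 * I4 g x u u + I4 g u x u).im =
          (2 * I4 r x u u + I4 r u x u).im + σ c * Z.im := by
        rw [d1, d2]
        simp [Complex.add_im, Complex.mul_im, Complex.conj_im, Complex.conj_re]
        ring
      rw [e]
      have h1 : |(2 * I4 r x u u + I4 r u x u).im| ≤ 3 * (‖r‖ * X * F) := by
        refine (Complex.abs_im_le_norm _).trans ?_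
        refine (norm_add_le _ _).trans ?_
        rw [norm_mul, Complex.norm_ofNat]
        linarith
      have h2 : 3 * (‖r‖ * X * F) ≤ 3 * (Real.sqrt G2 * X * F) := by gcongr
      calc |(2 * I4 r x u u + I4 r u x u).im + σ c * Z.im|
          ≤ |(2 * I4 r x u u + I4 r u x u).im| + |σ c * Z.im| := abs_add_le _ _
        _ ≤ 3 * (Real.sqrt G2 * X * F) + 6 * X * Real.sqrt G2 * F := by linarith
        _ = _ := by ring
    refine key.trans ?_
    -- the numbers
    have hFle : F ≤ Real.sqrt (Real.sqrt (gm u) * ρ) := Real.sqrt_le_sqrt h4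
    have hprod : Real.sqrt G2 * F ≤ gm u ^ (3 / 4 : ℝ) := by
      calc Real.sqrt G2 * F ≤ Real.sqrt G2 * Real.sqrt (Real.sqrt (gm u) * ρ) := by gcongr
        _ = Real.sqrt (G2 * (Real.sqrt (gm u) * ρ)) := (Real.sqrt_mul hG20 _).symm
        _ = Real.sqrt (gm u * Real.sqrt (gm u)) := by
            congr 1
            rw [hG2e]
            field_simp
        _ = gm u ^ (3 / 4 : ℝ) := by
            rw [Real.sqrt_eq_rpow, Real.sqrt_eq_rpow]
            nth_rewrite 1 [← Real.rpow_one (gm u)]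
            rw [← Real.rpow_add_of_nonneg hgm (by norm_num) (by norm_num), ← Real.rpow_mul hgm]
            norm_num
    calc 9 * X * Real.sqrt G2 * F = 9 * X * (Real.sqrt G2 * F) := by ring
      _ ≤ 9 * X * gm u ^ (3 / 4 : ℝ) := by gcongr
      _ = _ := by rw [hX]; ring

end Pool.Agent.Lib.MP424d38.ES
end
end

section
/-!
# Module TW2 of block ES: two low factors
-/
set_option autoImplicit false

open MeasureTheory Filter Topology Set
open scoped ENNReal ContDiff ComplexConjugate FourierTransform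

noncomputable section

namespace Pool.Agent.Lib.MP424d38.ES

open Pool.Agent.Lib.MP424d38.TY

open SPA in
theorem specTW2 (hM : SpecMX1) (hB : SpecBRN) (hO : SpecORT) (hI : SpecIB4)
    (hP : SpecPRS) (hC : SpecCHF) : SpecTW2 := by
  refine ⟨32, by norm_num, ?_⟩
  intro N K σ h g x y hN hNK hlip hvan hE hg hx hy
  have hπ := Real.pi_pos
  have hπ3 := Real.pi_gt_three
  have hK : 0 < K := by linarith
  have hK4 : 0 < K / 4 := by linarith
  obtain ⟨c01, clow, chigh, ccont, -, -, -, -, -⟩ := hC N hN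
  obtain ⟨d01, dlow, dhigh, dcont, -, -, -, -, -⟩ := hC (K / 4) hK4
  have hσc : Continuous σ := cont_of_lip (c := 1) zero_le_one (fun l l' => by
    rw [one_mul]; exact hlip l l')
  have hσ0 : σ 0 = 0 := hvan 0 (by rw [abs_zero]; exact hK.le)
  have hσle : ∀ l, |σ l| ≤ |l| := fun l => by
    have := hlip l 0
    rwa [hσ0, sub_zero, sub_zero] at this
  -- the function y_v
  obtain ⟨yv, hyv⟩ := hM.1 (ch (K / 4)) y dcont.measurable (by
    refine intg0 (σ := fun l => ch (K / 4) l ^ 2) hM y (dcont.measurable.pow_const 2) (a := 1)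
      (fun l => ?_)
    rw [abs_of_nonneg (by positivity)]
    exact pow_le_one₀ (d01 l).1 (d01 l).2)
  have hyvM : IsM (fun l => ch (K / 4) l * ch N l) h yv := hM.2.2.2.2.1 _ _ h y yv hy hyv
  set yw : L2R := y - yv with hyw
  have hywM : IsM (fun l => ch N l - ch (K / 4) l * ch N l) h yw := isM_sub hy hyvM
  have hyd : y = yw + yv := by rw [hyw]; abel
  -- bands
  have bx : Bd (2 * N) x := bd_of_isM hx fun l hl => by
    rw [chigh l hl.le, sub_self]
  have byw : Bd (K / 2) yw := bd_of_isM hywM fun l hl => by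
    rw [dhigh l (by linarith), one_mul, sub_self]
  have hg' : Hi K g := hi_of_isM hg fun l hl => hvan l hl.le
  have hABC : 2 * N + 2 * N + K / 2 < K := by linarith
  have z1 : I4 g x x yw = 0 := hO (2 * N) (2 * N) (K / 2) K g x x yw (by positivity) (by positivity)
    (by positivity) hABC bx bx byw hg'
  have z2 : I4 g x yw x = 0 := hO (2 * N) (K / 2) (2 * N) K g x yw x (by positivity) (by positivity)
    (by positivity) (by linarith) bx byw bx hg'
  -- sup bounds
  set X := Real.sqrt (2 * N / Real.pi) * ‖x‖ with hX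
  have hX0 : 0 ≤ X := by positivity
  have hxs : ∀ᵐ b : ℝ, ‖x b‖ ≤ X := sup_bd hB (by positivity) bx
  have hEyv : E1 yv := E1_of_isM hE hyvM fun l => by
    rw [abs_mul, abs_of_nonneg (d01 l).1, abs_of_nonneg (c01 l).1]
    exact mul_le_one₀ (d01 l).2 (c01 l).1 (c01 l).2
  obtain ⟨⟨i1, i2, -, ii1, -, -⟩⟩ : _ ∧ True := ⟨hI.1 g x x yv X X hX0 hX0 hxs hxs, trivial⟩
  have s1 : I4 g x x y = I4 g x x yv := by
    have := I4_add4 (int4 (z := yw) hI hX0 hX0 hxs hxs (g := g)) (int4 (z := yv) hI hX0 hX0 hxs hxs)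
    rw [hyd, this, z1, zero_add]
  have s2 : I4 g x y x = I4 g x yv x := by
    have := I4_add3 (hI.1 g x x yw X X hX0 hX0 hxs hxs).2.2.2.2.1
      (hI.1 g x x yv X X hX0 hX0 hxs hxs).2.2.2.2.1
    rw [hyd, this, z2, zero_add]
  rw [s1, s2]
  -- norms
  set E := sp (fun l => l ^ 2 * (if K / 4 ≤ |l| then 1 else 0)) h with hEd
  set R := sp (fun l => if |l| ≤ 2 * N then 1 else 0) h with hRd
  have mA : Measurable fun l : ℝ => l ^ 2 * (if K / 4 ≤ |l| then (1 : ℝ) else 0) :=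
    (measurable_id.pow_const 2).mul (Measurable.ite (measurableSet_le measurable_const
      continuous_abs.measurable) measurable_const measurable_const)
  have mB : Measurable fun l : ℝ => if |l| ≤ 2 * N then (1 : ℝ) else 0 :=
    Measurable.ite (measurableSet_le continuous_abs.measurable measurable_const)
      measurable_const measurable_const
  have hA01 : ∀ l : ℝ, 0 ≤ l ^ 2 * (if K / 4 ≤ |l| then (1 : ℝ) else 0) ∧
      l ^ 2 * (if K / 4 ≤ |l| then (1 : ℝ) else 0) ≤ 1 * (1 + l ^ 2) := fun l => by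
    split_ifs <;> constructor <;> nlinarith [sq_nonneg l]
  have hB01 : ∀ l : ℝ, 0 ≤ (if |l| ≤ 2 * N then (1 : ℝ) else 0) ∧
      (if |l| ≤ 2 * N then (1 : ℝ) else 0) ≤ 1 * (1 + l ^ 2) := fun l => by
    split_ifs <;> constructor <;> nlinarith [sq_nonneg l]
  have iA := intg hM hE mA (a := 1) (fun l => by
    rw [abs_of_nonneg (hA01 l).1]; exact (hA01 l).2)
  have iB := intg hM hE mB (a := 1) (fun l => by
    rw [abs_of_nonneg (hB01 l).1]; exact (hB01 l).2)
  have hpr : E * R ≤ 2 * 2 * gm h := by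
    refine hP _ _ 2 1 h mA mB (by norm_num) hA01 hB01 ?_ hE
    intro l l'
    split_ifs with h1 h2
    · have h3 : |l| - |l'| ≤ |l - l'| := abs_sub_abs_le_abs_sub l l'
      have h4 : 3 / 4 * |l| ≤ |l - l'| := by linarith
      have h5 : (3 / 4 * |l|) ^ 2 ≤ |l - l'| ^ 2 := pow_le_pow_left₀ (by positivity) h4 2
      rw [sq_abs, mul_pow, sq_abs] at h5
      nlinarith [sq_nonneg l]
    · nlinarith [sq_nonneg (l - l')]
    · nlinarith [sq_nonneg (l - l')]
    · nlinarith [sq_nonneg (l - l')]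
  have n1 : ‖g‖ ^ 2 ≤ E := by
    rw [(hM.2.1 σ h g hσc.measurable hg).1]
    refine sp_mono (fun l => sq_nonneg _) (fun l => ?_) iA
    split_ifs with h1
    · rw [mul_one, ← sq_abs, ← sq_abs l]
      exact pow_le_pow_left₀ (abs_nonneg _) (hσle l) 2
    · push Not at h1
      rw [hvan l (by linarith)]
      simp
  have n2 : ‖yv‖ ^ 2 ≤ (4 / K) ^ 2 * E := by
    rw [(hM.2.1 (fun l => ch (K / 4) l * ch N l) h yv (dcont.measurable.mul ccont.measurable)
      hyvM).1, hEd, ← sp_cmul]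
    refine sp_mono (fun l => sq_nonneg _) (fun l => ?_) ?_
    · split_ifs with h1
      · have h2 : (ch (K / 4) l * ch N l) ^ 2 ≤ 1 := pow_le_one₀
          (mul_nonneg (d01 l).1 (c01 l).1) (mul_le_one₀ (d01 l).2 (c01 l).1 (c01 l).2)
        have h3 : 1 ≤ (4 / K) ^ 2 * l ^ 2 := by
          rw [← mul_pow, ← sq_abs, abs_mul, abs_of_pos (by positivity : 0 < 4 / K)]
          refine one_le_pow₀ ?_
          rw [div_mul_eq_mul_div, le_div_iff₀ hK]
          linarith
        simpa using h2.trans h3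
      · push Not at h1
        rw [dlow l h1.le]
        simp
    · refine (iA.const_mul ((4 / K) ^ 2)).congr (Eventually.of_forall fun ξ => ?_)
      simp only []
      ring
  have n3 : ‖x‖ ^ 2 ≤ R := by
    rw [(hM.2.1 (fun l => 1 - ch N l) h x (measurable_const.sub ccont.measurable) hx).1]
    refine sp_mono (fun l => sq_nonneg _) (fun l => ?_) iB
    split_ifs with h1
    · exact pow_le_one₀ (by linarith [(c01 l).2]) (by linarith [(c01 l).1])
    · push Not at h1
      rw [chigh l h1.le]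
      simp
  have hE0 : 0 ≤ E := sp_nonneg fun l => (hA01 l).1
  have hR0 : 0 ≤ R := sp_nonneg fun l => (hB01 l).1
  have m1 : ‖g‖ ≤ Real.sqrt E := Real.le_sqrt_of_sq_le n1
  have m2 : ‖yv‖ ≤ 4 / K * Real.sqrt E := by
    have : (4 / K * Real.sqrt E) ^ 2 = (4 / K) ^ 2 * E := by rw [mul_pow, Real.sq_sqrt hE0]
    rw [← this] at n2
    exact (pow_le_pow_iff_left₀ (norm_nonneg _) (by positivity) two_ne_zero).1 n2
  have m3 : X * X ≤ 2 * N / Real.pi * R := by
    have : X * X = 2 * N / Real.pi * ‖x‖ ^ 2 := by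
      rw [hX, ← sq, mul_pow, Real.sq_sqrt (by positivity)]
    rw [this]
    gcongr
  have total : ‖g‖ * X * X * ‖yv‖ ≤ 32 * (N / K) * gm h := by
    calc ‖g‖ * X * X * ‖yv‖ = (X * X) * (‖g‖ * ‖yv‖) := by ring
      _ ≤ (2 * N / Real.pi * R) * (Real.sqrt E * (4 / K * Real.sqrt E)) := by gcongr
      _ = (8 / Real.pi) * (N / K) * ((Real.sqrt E) ^ 2 * R) := by field_simp; ring
      _ = (8 / Real.pi) * (N / K) * (E * R) := by rw [Real.sq_sqrt hE0]
      _ ≤ (8 / Real.pi) * (N / K) * (2 * 2 * gm h) := by gcongr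
      _ = 32 * (N / K) * gm h * (1 / Real.pi) := by ring
      _ ≤ 32 * (N / K) * gm h * 1 := by
          have hgm : 0 ≤ gm h := by
            have := mul_nonneg hE0 hR0
            linarith
          gcongr
          rw [div_le_one hπ]
          linarith
      _ = _ := mul_one _
  exact ⟨i1.trans total, i2.trans total⟩

end Pool.Agent.Lib.MP424d38.ES
end
end

section
/-! ZBD: the resonant term. -/
set_option autoImplicit false

open MeasureTheory Filter Topology Set
open scoped ENNReal ContDiff ComplexConjugate FourierTransform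

noncomputable section

namespace Pool.Agent.Lib.MP424d38.ES

open Pool.Agent.Lib.MP424d38.TY

namespace ZBDM

/-- multiplication of an `L²` function by a bounded function. -/
lemma mulB (p : ℝ → ℂ) (C : ℝ) (hp : AEStronglyMeasurable p volume) (_hC : 0 ≤ C)
    (h : ∀ᵐ b : ℝ, ‖p b‖ ≤ C) (z : L2R) :
    ∃ w : L2R, (∀ᵐ b : ℝ, w b = p b * z b) ∧ ‖w‖ ≤ C * ‖z‖ := by
  have hz := Lp.memLp z
  have hm : MemLp (fun b => p b * z b) 2 volume := by
    refine MemLp.of_le_mul (c := C) hz (hp.mul hz.1) ?_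
    filter_upwards [h] with b hb
    rw [norm_mul]
    exact mul_le_mul_of_nonneg_right hb (norm_nonneg _)
  refine ⟨hm.toLp _, hm.coeFn_toLp, ?_⟩
  have h1 : ∀ᵐ b : ℝ, ‖(hm.toLp _ : L2R) b‖ ≤ C * ‖z b‖ := by
    filter_upwards [h, hm.coeFn_toLp] with b hb hb2
    rw [hb2, norm_mul]
    exact mul_le_mul_of_nonneg_right hb (norm_nonneg _)
  exact Lp.norm_le_mul_norm_of_ae_le_mul h1

lemma inner_eq (g w : L2R) : inner ℂ g w = ∫ b, conj (g b) * w b := by
  rw [L2.inner_def]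
  refine integral_congr_ae (Eventually.of_forall fun x => ?_)
  simp [mul_comm]

lemma I4_inner (g x y z w : L2R) (hw : ∀ᵐ b : ℝ, w b = (x b * conj (y b)) * z b) :
    I4 g x y z = inner ℂ g w := by
  rw [inner_eq, I4]
  refine integral_congr_ae ?_
  filter_upwards [hw] with b hb
  rw [hb]

/-- convergence of `I4`. -/
lemma conv (g x y z : L2R) (gn xn yn zn : ℕ → L2R) (X Y : ℝ) (ε δ : ℕ → ℝ)
    (hg : Tendsto gn atTop (𝓝 g)) (hz : Tendsto zn atTop (𝓝 z)) (hX0 : 0 ≤ X) (hY0 : 0 ≤ Y)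
    (hX : ∀ᵐ b : ℝ, ‖x b‖ ≤ X) (hY : ∀ᵐ b : ℝ, ‖y b‖ ≤ Y)
    (hε : Tendsto ε atTop (𝓝 0)) (hδ : Tendsto δ atTop (𝓝 0))
    (hε0 : ∀ n, 0 ≤ ε n) (hδ0 : ∀ n, 0 ≤ δ n)
    (hx : ∀ n, ∀ᵐ b : ℝ, ‖xn n b - x b‖ ≤ ε n) (hy : ∀ n, ∀ᵐ b : ℝ, ‖yn n b - y b‖ ≤ δ n) :
    Tendsto (fun n => I4 (gn n) (xn n) (yn n) (zn n)) atTop (𝓝 (I4 g x y z)) := by
  have mx := Lp.aestronglyMeasurable x
  have my := Lp.aestronglyMeasurable y
  have mxn := fun n => Lp.aestronglyMeasurable (xn n)
  have myn := fun n => Lp.aestronglyMeasurable (yn n)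
  have mc : ∀ f : ℝ → ℂ, AEStronglyMeasurable f volume →
      AEStronglyMeasurable (fun b => conj (f b)) volume := fun f hf =>
    Complex.continuous_conj.comp_aestronglyMeasurable hf
  obtain ⟨w, hw, -⟩ := mulB (fun b => x b * conj (y b)) (X * Y) (mx.mul (mc _ my)) (by positivity)
    (by
      filter_upwards [hX, hY] with b h1 h2
      rw [norm_mul, RCLike.norm_conj]
      exact mul_le_mul h1 h2 (norm_nonneg _) hX0) z
  have hr : ∀ n, ∃ r : L2R, (∀ᵐ b : ℝ, r b = (xn n b * conj (yn n b)) * (zn n - z) b) ∧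
      ‖r‖ ≤ ((X + ε n) * (Y + δ n)) * ‖zn n - z‖ := by
    intro n
    have hε0n := hε0 n
    have hδ0n := hδ0 n
    refine mulB (fun b => xn n b * conj (yn n b)) _ ((mxn n).mul (mc _ (myn n))) (by positivity) ?_ _
    filter_upwards [hX, hY, hx n, hy n] with b h1 h2 h3 h4
    rw [norm_mul, RCLike.norm_conj]
    have e1 : ‖xn n b‖ ≤ X + ε n := by
      calc ‖xn n b‖ = ‖x b + (xn n b - x b)‖ := by ring_nf
        _ ≤ ‖x b‖ + ‖xn n b - x b‖ := norm_add_le _ _
        _ ≤ X + ε n := add_le_add h1 h3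
    have e2 : ‖yn n b‖ ≤ Y + δ n := by
      calc ‖yn n b‖ = ‖y b + (yn n b - y b)‖ := by ring_nf
        _ ≤ ‖y b‖ + ‖yn n b - y b‖ := norm_add_le _ _
        _ ≤ Y + δ n := add_le_add h2 h4
    exact mul_le_mul e1 e2 (norm_nonneg _) (by positivity)
  have hs : ∀ n, ∃ s : L2R, (∀ᵐ b : ℝ, s b = (xn n b * conj (yn n b) - x b * conj (y b)) * z b) ∧
      ‖s‖ ≤ (ε n * (Y + δ n) + X * δ n) * ‖z‖ := by
    intro n
    have hε0n := hε0 n
    have hδ0n := hδ0 n
    refine mulB (fun b => xn n b * conj (yn n b) - x b * conj (y b)) _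
      (((mxn n).mul (mc _ (myn n))).sub (mx.mul (mc _ my))) (by positivity) ?_ _
    filter_upwards [hX, hY, hx n, hy n] with b h1 h2 h3 h4
    have e2 : ‖yn n b‖ ≤ Y + δ n := by
      calc ‖yn n b‖ = ‖y b + (yn n b - y b)‖ := by ring_nf
        _ ≤ ‖y b‖ + ‖yn n b - y b‖ := norm_add_le _ _
        _ ≤ Y + δ n := add_le_add h2 h4
    calc ‖xn n b * conj (yn n b) - x b * conj (y b)‖
        = ‖(xn n b - x b) * conj (yn n b) + x b * conj (yn n b - y b)‖ := by
          rw [map_sub]; ring_nf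
      _ ≤ ‖(xn n b - x b) * conj (yn n b)‖ + ‖x b * conj (yn n b - y b)‖ := norm_add_le _ _
      _ ≤ ε n * (Y + δ n) + X * δ n := by
          rw [norm_mul, norm_mul, RCLike.norm_conj, RCLike.norm_conj]
          exact add_le_add (mul_le_mul h3 e2 (norm_nonneg _) hε0n)
            (mul_le_mul h1 h4 (norm_nonneg _) hX0)
  choose r hr1 hr2 using hr
  choose s hs1 hs2 using hs
  have hI : ∀ n, I4 (gn n) (xn n) (yn n) (zn n) = inner ℂ (gn n) (w + r n + s n) := by
    intro n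
    apply I4_inner
    filter_upwards [hw, hr1 n, hs1 n, Lp.coeFn_add (w + r n) (s n), Lp.coeFn_add w (r n),
      Lp.coeFn_sub (zn n) z] with b h1 h2 h3 h4 h5 h6
    rw [h4, Pi.add_apply, h5, Pi.add_apply, h1, h2, h3, h6, Pi.sub_apply]
    ring
  simp_rw [hI]
  rw [I4_inner g x y z w hw]
  have hzn : Tendsto (fun n => ‖zn n - z‖) atTop (𝓝 0) := by
    rw [← tendsto_iff_norm_sub_tendsto_zero]; exact hz
  have tr : Tendsto r atTop (𝓝 0) := by
    rw [tendsto_zero_iff_norm_tendsto_zero]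
    refine squeeze_zero (fun n => norm_nonneg _) hr2 ?_
    have : Tendsto (fun n => ((X + ε n) * (Y + δ n)) * ‖zn n - z‖) atTop
        (𝓝 (((X + 0) * (Y + 0)) * 0)) :=
      ((tendsto_const_nhds.add hε).mul (tendsto_const_nhds.add hδ)).mul hzn
    simpa using this
  have ts : Tendsto s atTop (𝓝 0) := by
    rw [tendsto_zero_iff_norm_tendsto_zero]
    refine squeeze_zero (fun n => norm_nonneg _) hs2 ?_
    have : Tendsto (fun n => (ε n * (Y + δ n) + X * δ n) * ‖z‖) atTop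
        (𝓝 ((0 * (Y + 0) + X * 0) * ‖z‖)) :=
      ((hε.mul (tendsto_const_nhds.add hδ)).add (tendsto_const_nhds.mul hδ)).mul tendsto_const_nhds
    simpa using this
  have tw : Tendsto (fun n => w + r n + s n) atTop (𝓝 w) := by
    simpa using (tendsto_const_nhds.add tr).add ts
  exact hg.inner tw

/-- the identity for test functions. -/
lemma test_id (φ ψ : ℝ → ℂ) (hφ : ContDiff ℝ ∞ φ) (hψ : ContDiff ℝ ∞ ψ)
    (hφc : HasCompactSupport φ) (hψc : HasCompactSupport ψ) :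
    (∫ b, conj (ψ b) * (ψ b * conj (ψ b) * deriv φ b)) + 2 * (∫ b, conj (deriv ψ b) * (φ b * conj (ψ b) * ψ b))
      + (∫ b, conj (ψ b) * (φ b * conj (ψ b) * deriv ψ b)) = 0 := by
  have cφ := hφ.continuous
  have cψ := hψ.continuous
  have cdφ : Continuous (deriv φ) := hφ.continuous_deriv (by simp)
  have cdψ : Continuous (deriv ψ) := hψ.continuous_deriv (by simp)
  have cc := Complex.continuous_conj
  have i1 : Integrable (fun b => conj (ψ b) * (ψ b * conj (ψ b) * deriv φ b)) := by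
    refine Continuous.integrable_of_hasCompactSupport (by fun_prop) ?_
    have : HasCompactSupport (fun b => (ψ b * conj (ψ b)) * deriv φ b) :=
      hφc.deriv.mul_left
    exact this.mul_left
  have i2 : Integrable (fun b => conj (deriv ψ b) * (φ b * conj (ψ b) * ψ b)) := by
    refine Continuous.integrable_of_hasCompactSupport (by fun_prop) ?_
    have : HasCompactSupport (fun b => (φ b * conj (ψ b)) * ψ b) := hψc.mul_left
    exact this.mul_left
  have i3 : Integrable (fun b => conj (ψ b) * (φ b * conj (ψ b) * deriv ψ b)) := by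
    refine Continuous.integrable_of_hasCompactSupport (by fun_prop) ?_
    have : HasCompactSupport (fun b => (φ b * conj (ψ b)) * deriv ψ b) := hψc.deriv.mul_left
    exact this.mul_left
  have i0 : Integrable (fun b => φ b * conj (ψ b) * (conj (ψ b) * ψ b)) := by
    refine Continuous.integrable_of_hasCompactSupport (by fun_prop) ?_
    have : HasCompactSupport (fun b => conj (ψ b) * ψ b) := hψc.mul_left
    exact this.mul_left
  have hder : ∀ b, HasDerivAt (fun b => φ b * conj (ψ b) * (conj (ψ b) * ψ b))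
      (conj (ψ b) * (ψ b * conj (ψ b) * deriv φ b) + 2 * (conj (deriv ψ b) * (φ b * conj (ψ b) * ψ b))
        + conj (ψ b) * (φ b * conj (ψ b) * deriv ψ b)) b := by
    intro b
    have h1 : HasDerivAt φ (deriv φ b) b := (hφ.differentiable (by simp) b).hasDerivAt
    have h2 : HasDerivAt ψ (deriv ψ b) b := (hψ.differentiable (by simp) b).hasDerivAt
    have h3 : HasDerivAt (fun b => conj (ψ b)) (conj (deriv ψ b)) b := h2.star
    have h4 := (h1.mul h3).mul (h3.mul h2)
    refine h4.congr_deriv ?_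
    simp only [Pi.mul_apply]
    ring
  have h5 := integral_eq_zero_of_hasDerivAt_of_integrable hder ((i1.add (i2.const_mul 2)).add i3) i0
  have h6 : ∫ b, (conj (ψ b) * (ψ b * conj (ψ b) * deriv φ b)
      + 2 * (conj (deriv ψ b) * (φ b * conj (ψ b) * ψ b))
        + conj (ψ b) * (φ b * conj (ψ b) * deriv ψ b))
      = (∫ b, (conj (ψ b) * (ψ b * conj (ψ b) * deriv φ b)
      + 2 * (conj (deriv ψ b) * (φ b * conj (ψ b) * ψ b))))
        + ∫ b, conj (ψ b) * (φ b * conj (ψ b) * deriv ψ b) :=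
    integral_add (i1.add (i2.const_mul 2)) i3
  have h7 : ∫ b, (conj (ψ b) * (ψ b * conj (ψ b) * deriv φ b)
      + 2 * (conj (deriv ψ b) * (φ b * conj (ψ b) * ψ b)))
      = (∫ b, conj (ψ b) * (ψ b * conj (ψ b) * deriv φ b))
      + ∫ b, 2 * (conj (deriv ψ b) * (φ b * conj (ψ b) * ψ b)) :=
    integral_add i1 (i2.const_mul 2)
  rw [h6, h7, integral_const_mul] at h5
  exact h5

/-- `L²` classes of test functions and their approximation properties. -/
lemma approx (hDN1 : SpecDN1) (h d : L2R) (hd : IsM (fun l => l) h d) :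
    ∃ (ψ : ℕ → ℝ → ℂ) (p q : ℕ → L2R) (ε : ℕ → ℝ), (∀ n, ContDiff ℝ ∞ (ψ n) ∧ HasCompactSupport (ψ n)) ∧
      (∀ n, ∀ᵐ b : ℝ, p n b = ψ n b) ∧ (∀ n, ∀ᵐ b : ℝ, q n b = deriv (ψ n) b) ∧
      Tendsto p atTop (𝓝 h) ∧ Tendsto q atTop (𝓝 (Complex.I • d)) ∧ Tendsto ε atTop (𝓝 0) ∧
      (∀ n, 0 ≤ ε n) ∧ ∀ n, ∀ᵐ b : ℝ, ‖p n b - h b‖ ≤ ε n := by
  obtain ⟨ψ', h1', h2', h3', h4'⟩ := hDN1 h d hd
  -- pass to indices where the sup distance is finite
  have hfin : ∀ᶠ n in atTop, eLpNorm (fun b => ψ' n b - h b) ⊤ volume < 1 :=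
    h4'.eventually_lt_const (by simp)
  obtain ⟨N, hN⟩ := eventually_atTop.1 hfin
  have hsh : Tendsto (fun n : ℕ => n + N) atTop atTop := tendsto_add_atTop_nat N
  set ψ : ℕ → ℝ → ℂ := fun n => ψ' (n + N) with hψdef
  have h1 : ∀ n, ContDiff ℝ ∞ (ψ n) ∧ HasCompactSupport (ψ n) := fun n => h1' _
  have h2 : Tendsto (fun n => eLpNorm (fun b => ψ n b - h b) 2 volume) atTop (𝓝 0) := h2'.comp hsh
  have h3 : Tendsto (fun n => eLpNorm (fun b => deriv (ψ n) b - Complex.I * d b) 2 volume) atTop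
    (𝓝 0) := h3'.comp hsh
  have h4 : Tendsto (fun n => eLpNorm (fun b => ψ n b - h b) ⊤ volume) atTop (𝓝 0) := h4'.comp hsh
  have hf : ∀ n, eLpNorm (fun b => ψ n b - h b) ⊤ volume ≠ ⊤ := fun n =>
    ((hN (n + N) (by omega)).trans_le le_top).ne
  have m1 : ∀ n, MemLp (ψ n) 2 volume := fun n =>
    (h1 n).1.continuous.memLp_of_hasCompactSupport (h1 n).2
  have m2 : ∀ n, MemLp (deriv (ψ n)) 2 volume := fun n =>
    ((h1 n).1.continuous_deriv (by simp)).memLp_of_hasCompactSupport (h1 n).2.deriv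
  refine ⟨ψ, fun n => (m1 n).toLp _, fun n => (m2 n).toLp _,
    fun n => (eLpNorm (fun b => ψ n b - h b) ⊤ volume).toReal, h1, fun n => (m1 n).coeFn_toLp,
    fun n => (m2 n).coeFn_toLp, ?_, ?_, ?_, fun n => ENNReal.toReal_nonneg, ?_⟩
  · rw [Lp.tendsto_Lp_iff_tendsto_eLpNorm']
    refine h2.congr fun n => ?_
    refine eLpNorm_congr_ae ?_
    filter_upwards [(m1 n).coeFn_toLp] with x hx
    simp only [Pi.sub_apply, hx]
  · rw [Lp.tendsto_Lp_iff_tendsto_eLpNorm']
    refine h3.congr fun n => ?_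
    refine eLpNorm_congr_ae ?_
    filter_upwards [(m2 n).coeFn_toLp, Lp.coeFn_smul Complex.I d] with x hx hx2
    simp only [Pi.sub_apply, hx, hx2, Pi.smul_apply, smul_eq_mul]
  · have := (ENNReal.tendsto_toReal (by simp : (0 : ℝ≥0∞) ≠ ⊤)).comp h4
    simpa [Function.comp_def] using this
  · intro n
    have h5 : ∀ᵐ b : ℝ, ‖ψ n b - h b‖ₑ ≤ eLpNorm (fun b => ψ n b - h b) ⊤ volume := by
      rw [eLpNorm_exponent_top]
      exact ae_le_eLpNormEssSup
    filter_upwards [h5, (m1 n).coeFn_toLp] with b hb hb2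
    rw [hb2, ← toReal_enorm]
    exact ENNReal.toReal_mono (hf n) hb

/-- integration by parts in `H¹(ℝ)`. -/
lemma ibp (hDN1 : SpecDN1) (k kd u ud : L2R) (hk : IsM (fun l => l) k kd) (hu : IsM (fun l => l) u ud)
    (K U : ℝ) (hK0 : 0 ≤ K) (hU0 : 0 ≤ U) (hK : ∀ᵐ b : ℝ, ‖k b‖ ≤ K) (hU : ∀ᵐ b : ℝ, ‖u b‖ ≤ U) :
    I4 u u u kd - 2 * I4 ud k u u + I4 u k u ud = 0 := by
  obtain ⟨φ, p, p', ε, h1, h2, h3, h4, h5, h6, h7, h8⟩ := approx hDN1 k kd hk
  obtain ⟨ψ, q, q', δ, g1, g2, g3, g4, g5, g6, g7, g8⟩ := approx hDN1 u ud hu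
  have t1 := conv u u u (Complex.I • kd) q q q p' U U δ δ g4 h5 hU0 hU0 hU hU g6 g6 g7 g7 g8 g8
  have t2 := conv (Complex.I • ud) k u u q' p q q K U ε δ g5 g4 hK0 hU0 hK hU h6 g6 h7 g7 h8 g8
  have t3 := conv u k u (Complex.I • ud) q p q q' K U ε δ g4 g5 hK0 hU0 hK hU h6 g6 h7 g7 h8 g8
  have hz : ∀ n, I4 (q n) (q n) (q n) (p' n) + 2 * I4 (q' n) (p n) (q n) (q n)
      + I4 (q n) (p n) (q n) (q' n) = 0 := by
    intro n
    rw [← test_id (φ n) (ψ n) (h1 n).1 (g1 n).1 (h1 n).2 (g1 n).2]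
    have e1 : I4 (q n) (q n) (q n) (p' n)
        = ∫ b, conj (ψ n b) * (ψ n b * conj (ψ n b) * deriv (φ n) b) := by
      refine integral_congr_ae ?_
      filter_upwards [g2 n, h3 n] with b x1 x2
      rw [x1, x2]
    have e2 : I4 (q' n) (p n) (q n) (q n)
        = ∫ b, conj (deriv (ψ n) b) * (φ n b * conj (ψ n b) * ψ n b) := by
      refine integral_congr_ae ?_
      filter_upwards [g2 n, g3 n, h2 n] with b x1 x2 x3
      rw [x1, x2, x3]
    have e3 : I4 (q n) (p n) (q n) (q' n)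
        = ∫ b, conj (ψ n b) * (φ n b * conj (ψ n b) * deriv (ψ n) b) := by
      refine integral_congr_ae ?_
      filter_upwards [g2 n, g3 n, h2 n] with b x1 x2 x3
      rw [x1, x2, x3]
    rw [e1, e2, e3]
  have hl := (t1.add (t2.const_mul 2)).add t3
  have hl0 : Tendsto (fun n => I4 (q n) (q n) (q n) (p' n) + 2 * I4 (q' n) (p n) (q n) (q n)
      + I4 (q n) (p n) (q n) (q' n)) atTop (𝓝 0) := by
    simp_rw [hz]; exact tendsto_const_nhds
  have heq := tendsto_nhds_unique hl hl0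
  have s1 : I4 u u u (Complex.I • kd) = Complex.I * I4 u u u kd := by
    rw [I4, I4, ← integral_const_mul]
    refine integral_congr_ae ?_
    filter_upwards [Lp.coeFn_smul Complex.I kd] with b hb
    rw [hb, Pi.smul_apply, smul_eq_mul]; ring
  have s3 : I4 u k u (Complex.I • ud) = Complex.I * I4 u k u ud := by
    rw [I4, I4, ← integral_const_mul]
    refine integral_congr_ae ?_
    filter_upwards [Lp.coeFn_smul Complex.I ud] with b hb
    rw [hb, Pi.smul_apply, smul_eq_mul]; ring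
  have s2 : I4 (Complex.I • ud) k u u = -(Complex.I * I4 ud k u u) := by
    rw [I4, I4, ← integral_const_mul, ← integral_neg]
    refine integral_congr_ae ?_
    filter_upwards [Lp.coeFn_smul Complex.I ud] with b hb
    rw [hb, Pi.smul_apply, smul_eq_mul, map_mul, Complex.conj_I]; ring
  rw [s1, s2, s3] at heq
  have h9 : Complex.I * (I4 u u u kd - 2 * I4 ud k u u + I4 u k u ud) = 0 := by
    rw [← heq]; ring
  exact (mul_eq_zero.1 h9).resolve_left Complex.I_ne_zero

lemma int_congr_le {σ τ : ℝ → ℝ} (h : L2R) (C : ℝ)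
    (h1 : Integrable fun ξ => σ (2 * Real.pi * ξ) * ‖(𝓕 h : L2R) ξ‖ ^ 2)
    (h2 : Integrable fun ξ => τ (2 * Real.pi * ξ) * ‖(𝓕 h : L2R) ξ‖ ^ 2)
    (hle : ∀ l, σ l ≤ C * τ l) : sp σ h ≤ C * sp τ h := by
  rw [sp, sp, ← integral_const_mul]
  refine integral_mono h1 (h2.const_mul C) fun ξ => ?_
  show σ (2 * Real.pi * ξ) * ‖(𝓕 h : L2R) ξ‖ ^ 2 ≤ C * (τ (2 * Real.pi * ξ) * ‖(𝓕 h : L2R) ξ‖ ^ 2)
  rw [← mul_assoc]
  exact mul_le_mul_of_nonneg_right (hle _) (by positivity)

/-- the symbol `1/(c-l)` on `[-A,A]`. -/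
def tau (A c l : ℝ) : ℝ := if |l| ≤ A then (c - l)⁻¹ else 0

lemma tau_meas (A c : ℝ) : Measurable (tau A c) := by
  unfold tau
  refine Measurable.ite ?_ ?_ measurable_const
  · exact measurableSet_le (by fun_prop) measurable_const
  · exact (measurable_const.sub measurable_id).inv

lemma tau_bd (A c : ℝ) (_hA : 0 ≤ A) (h : 2 * A ≤ |c|) (hc : 0 < |c|) (l : ℝ) :
    tau A c l ^ 2 ≤ (2 / |c|) ^ 2 := by
  unfold tau
  split_ifs with hl
  · have h1 : |c| / 2 ≤ |c - l| := by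
      have := abs_sub_abs_le_abs_sub c l
      linarith
    rw [← sq_abs, abs_inv]
    refine pow_le_pow_left₀ (by positivity) ?_ 2
    rw [inv_le_comm₀ (by linarith) (by positivity), inv_div]
    exact h1
  · rw [zero_pow two_ne_zero]
    positivity

theorem main (hMX1 : SpecMX1) (hBRN : SpecBRN) (hDN1 : SpecDN1) (hSB1 : SpecSB1) (hIB4 : SpecIB4)
    (A c : ℝ) (x u : L2R) (hA : 0 ≤ A) (hAc : 2 * A ≤ |c|) (hc : 0 < |c|) (hx : Bd A x) (hu : E1 u) :
    |c| * ‖I4 u x u u‖ ≤ 6 * Real.sqrt (A / Real.pi) * ‖x‖ *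
    Real.sqrt (sp (fun l => (l - c) ^ 2) u) * Real.sqrt (∫ b, ‖u b‖ ^ 4) := by
  obtain ⟨m1, m2, m3, m4, m5, m6, m7, m8⟩ := hMX1
  -- the function `k`
  have hsq : Integrable fun ξ => ‖(𝓕 x : L2R) ξ‖ ^ 2 := (m3 x).2.2
  have hki : Integrable fun ξ => tau A c (2 * Real.pi * ξ) ^ 2 * ‖(𝓕 x : L2R) ξ‖ ^ 2 := by
    refine Integrable.bdd_mul (c := (2 / |c|) ^ 2) hsq ?_ ?_
    · exact (((tau_meas A c).comp (measurable_const.mul measurable_id)).pow_const 2).aestronglyMeasurable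
    · refine Eventually.of_forall fun ξ => ?_
      rw [Real.norm_eq_abs, abs_of_nonneg (by positivity)]
      exact tau_bd A c hA hAc hc _
  obtain ⟨k, hk⟩ := m1 (tau A c) x (tau_meas A c) hki
  have hkn : ‖k‖ ≤ 2 / |c| * ‖x‖ := by
    have h1 := (m2 (tau A c) x k (tau_meas A c) hk).1
    have h2 : sp (fun l => tau A c l ^ 2) x ≤ (2 / |c|) ^ 2 * sp (fun _ => 1) x :=
      int_congr_le x _ hki (by simpa using hsq) fun l => by
        simpa using tau_bd A c hA hAc hc l
    rw [← h1, ← (m3 x).1, ← mul_pow] at h2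
    exact le_of_sq_le_sq h2 (by positivity)
  have hkB : Bd A k := by
    unfold Bd at hx ⊢
    filter_upwards [hk, hx] with ξ h1 h2 h3
    rw [h1, h2 h3, mul_zero]
  obtain ⟨hkE, hkS⟩ := hBRN A k hA hkB
  set K : ℝ := Real.sqrt (A / Real.pi) * (2 / |c| * ‖x‖) with hKdef
  have hK0 : 0 ≤ K := by positivity
  have hK : ∀ᵐ b : ℝ, ‖k b‖ ≤ K := by
    filter_upwards [hkS] with b hb
    have h1 : ‖k b‖ ^ 2 ≤ K ^ 2 := by
      rw [hKdef, mul_pow, Real.sq_sqrt (by positivity)]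
      exact hb.trans (mul_le_mul_of_nonneg_left (pow_le_pow_left₀ (norm_nonneg _) hkn 2) (by positivity))
    exact le_of_sq_le_sq h1 hK0
  -- `u` is bounded
  obtain ⟨s1, s2, s3, s4, s5, s6, s7⟩ := hSB1 u hu
  set U : ℝ := gm u ^ (1 / 4 : ℝ) with hUdef
  have hU0 : 0 ≤ U := by positivity
  have hU : ∀ᵐ b : ℝ, ‖u b‖ ≤ U := by
    filter_upwards [s2] with b hb
    have h1 : ‖u b‖ = (‖u b‖ ^ 4) ^ (1 / 4 : ℝ) := by
      rw [← Real.rpow_natCast, ← Real.rpow_mul (norm_nonneg _)]; norm_num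
    rw [h1, hUdef]
    exact Real.rpow_le_rpow (by positivity) hb (by norm_num)
  -- derivatives
  obtain ⟨kd, hkd⟩ := m1 (fun l => l) k measurable_id hkE
  obtain ⟨ud, hud⟩ := m1 (fun l => l) u measurable_id hu
  have hibp := ibp hDN1 k kd u ud hkd hud K U hK0 hU0 hK hU
  -- `x = c k - D k`
  have hxk : ∀ᵐ b : ℝ, x b = (c : ℂ) * k b - kd b := by
    have h1 : IsM (fun l => c * 1 + (-1) * l) k ((c : ℂ) • k + (-1 : ℂ) • kd) := by
      have e1 : IsM (fun _ => c * 1) k ((c : ℂ) • k) := by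
        unfold IsM
        rw [FourierTransform.fourier_smul]
        filter_upwards [Lp.coeFn_smul (c : ℂ) (𝓕 k : L2R)] with ξ h
        rw [h, Pi.smul_apply, smul_eq_mul, mul_one]
      have e2 : IsM (fun l => (-1) * l) k ((-1 : ℂ) • kd) := by
        unfold IsM at hkd ⊢
        rw [FourierTransform.fourier_smul]
        filter_upwards [Lp.coeFn_smul (-1 : ℂ) (𝓕 kd : L2R), hkd] with ξ h h'
        rw [h, Pi.smul_apply, smul_eq_mul, h']
        push_cast
        ring
      exact m6 _ _ k _ _ e1 e2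
    have h2 := m5 _ _ x k _ hk h1
    have h3 : IsM (fun _ => 1) x x := by
      unfold IsM
      exact Eventually.of_forall fun ξ => by simp
    have h4 : x = (c : ℂ) • k + (-1 : ℂ) • kd := by
      refine m7 (fun _ => 1) x _ _ h3 ?_
      unfold IsM Bd at *
      filter_upwards [h2, hx] with ξ h5 h6
      rw [h5]
      by_cases hl : |2 * Real.pi * ξ| ≤ A
      · have h7 : c - 2 * Real.pi * ξ ≠ 0 := by
          intro h8
          have : |c| = |2 * Real.pi * ξ| := by rw [sub_eq_zero.1 h8]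
          rw [← this] at hl
          linarith
        have h9 : (c * 1 + (-1) * (2 * Real.pi * ξ)) * tau A c (2 * Real.pi * ξ) = 1 := by
          rw [tau, if_pos hl]
          have : c * 1 + (-1) * (2 * Real.pi * ξ) = c - 2 * Real.pi * ξ := by ring
          rw [this, mul_inv_cancel₀ h7]
        rw [h9]
      · rw [h6 (not_le.1 hl), mul_zero, mul_zero]
    have h5 : (x : ℝ → ℂ) =ᵐ[volume] ((c : ℂ) • k + (-1 : ℂ) • kd : L2R) := by rw [← h4]
    filter_upwards [h5, Lp.coeFn_add ((c : ℂ) • k) ((-1 : ℂ) • kd), Lp.coeFn_smul (c : ℂ) k,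
      Lp.coeFn_smul (-1 : ℂ) kd] with b h6 h7 h8 h9
    rw [h6, h7, Pi.add_apply, h8, h9, Pi.smul_apply, Pi.smul_apply, smul_eq_mul, smul_eq_mul]
    ring
  -- `g = D u - c u`
  set g : L2R := ud - (c : ℂ) • u with hgdef
  have hg : IsM (fun l => l - c) u g := by
    unfold IsM at hud ⊢
    have hF : (𝓕 (ud - (c : ℂ) • u) : L2R) = (𝓕 ud : L2R) - (c : ℂ) • (𝓕 u : L2R) := by
      rw [sub_eq_add_neg, FourierTransform.fourier_add, FourierTransform.fourier_neg,
        FourierTransform.fourier_smul, ← sub_eq_add_neg]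
    rw [hgdef, hF]
    filter_upwards [hud, Lp.coeFn_sub (𝓕 ud : L2R) ((c : ℂ) • (𝓕 u : L2R)),
      Lp.coeFn_smul (c : ℂ) (𝓕 u : L2R)] with ξ h1 h2 h3
    rw [h2, Pi.sub_apply, h3, Pi.smul_apply, h1, smul_eq_mul]
    push_cast
    ring
  have hgn : Real.sqrt (sp (fun l => (l - c) ^ 2) u) = ‖g‖ := by
    rw [← (m2 (fun l => l - c) u g (by fun_prop) hg).1, Real.sqrt_sq (norm_nonneg _)]
  have hudg : ∀ᵐ b : ℝ, ud b = (c : ℂ) * u b + g b := by
    filter_upwards [Lp.coeFn_sub ud ((c : ℂ) • u), Lp.coeFn_smul (c : ℂ) u] with b h1 h2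
    rw [hgdef, h1, Pi.sub_apply, h2, Pi.smul_apply, smul_eq_mul]
    ring
  -- integrability
  obtain ⟨b1, b2⟩ := hIB4
  have iA := (b1 u k u u K U hK0 hU0 hK hU)
  have iB := (b1 u u u kd U U hU0 hU0 hU hU)
  have iC := (b1 g k u u K U hK0 hU0 hK hU)
  have iD := (b1 u k u g K U hK0 hU0 hK hU)
  -- expansions
  have x1 : I4 u x u u = (c : ℂ) * I4 u k u u - I4 u u u kd := by
    rw [I4, I4, I4, ← integral_const_mul, ← integral_sub (iA.2.2.2.1.const_mul _) iB.2.2.2.1]
    refine integral_congr_ae ?_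
    filter_upwards [hxk] with b hb
    rw [hb]; ring
  have x2 : I4 ud k u u = (c : ℂ) * I4 u k u u + I4 g k u u := by
    rw [I4, I4, I4, ← integral_const_mul, ← integral_add (iA.2.2.2.1.const_mul _) iC.2.2.2.1]
    refine integral_congr_ae ?_
    filter_upwards [hudg] with b hb
    rw [hb, map_add, map_mul, Complex.conj_ofReal]; ring
  have x3 : I4 u k u ud = (c : ℂ) * I4 u k u u + I4 u k u g := by
    rw [I4, I4, I4, ← integral_const_mul, ← integral_add (iA.2.2.2.1.const_mul _) iD.2.2.2.1]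
    refine integral_congr_ae ?_
    filter_upwards [hudg] with b hb
    rw [hb]; ring
  have hZ : I4 u x u u = I4 u k u g - 2 * I4 g k u u := by
    rw [x1]
    rw [x2, x3] at hibp
    linear_combination (-1 : ℂ) * hibp
  -- bounds
  have hi4 : Integrable (fun b => ‖u b‖ ^ 4) := s5
  have c2 : ‖I4 g k u u‖ ≤ ‖g‖ * K * Real.sqrt (∫ b, ‖u b‖ ^ 4) := (b2 g k u K hK0 hK hi4).1
  have c3 : ‖I4 u k u g‖ ≤ ‖g‖ * K * Real.sqrt (∫ b, ‖u b‖ ^ 4) := by
    have h1 : I4 u k u g = conj (I4 g u k u) := by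
      rw [I4, I4, ← integral_conj]
      refine integral_congr_ae (Eventually.of_forall fun b => ?_)
      simp only [map_mul, Complex.conj_conj]
      ring
    rw [h1, RCLike.norm_conj]
    exact (b2 g k u K hK0 hK hi4).2.1
  have hfin : ‖I4 u x u u‖ ≤ 3 * (‖g‖ * K * Real.sqrt (∫ b, ‖u b‖ ^ 4)) := by
    rw [hZ]
    refine (norm_sub_le _ _).trans ?_
    rw [norm_mul, Complex.norm_ofNat]
    linarith
  rw [hgn]
  calc |c| * ‖I4 u x u u‖ ≤ |c| * (3 * (‖g‖ * K * Real.sqrt (∫ b, ‖u b‖ ^ 4))) :=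
        mul_le_mul_of_nonneg_left hfin hc.le
    _ = 6 * Real.sqrt (A / Real.pi) * ‖x‖ * ‖g‖ * Real.sqrt (∫ b, ‖u b‖ ^ 4) := by
        rw [hKdef]
        field_simp
        ring

end ZBDM

theorem specZBD (hMX1 : SpecMX1) (hBRN : SpecBRN) (hDN1 : SpecDN1) (hSB1 : SpecSB1)
    (hIB4 : SpecIB4) : SpecZBD := ZBDM.main hMX1 hBRN hDN1 hSB1 hIB4

end Pool.Agent.Lib.MP424d38.ES
end
end
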