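import Pool.Agent.Lib.MP_424d38_an.ES.SpecK

/-!
# Block ES, part M: final form of the theorem (the rate in integral form)

The rate clause `limsup_{t → T} ∫_t^{(t+T)/2} ‖w‖ = ∞` implies both `∫_0^T ‖w‖ = ∞` and `limsup (T-t)‖w(t)‖ = ∞`.
-/

set_option autoImplicit false

open MeasureTheory Filter Topology Set
open scoped ENNReal ContDiff ComplexConjugate

noncomputable section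

namespace Pool.Agent.Lib.MP424d38.ES

open Pool.Agent.Lib.MP424d38.TY

/-- the conclusion in one direction: `α` the coordinate (first or second), `w` the derivative in the other coordinate. -/
def Esc2 (T ε : ℝ) (α : ℝ × ℝ → ℝ) (v w : ℝ → L2) : Prop :=
  (∀ B : ℝ, ∃ t ∈ Ico 0 T, B < ∫ r in t..((t + T) / 2), ‖w r‖) ∧
  (∀ B : ℝ, ∀ᶠ t in 𝓝[<] T, ∀ y : ℝ,
    ENNReal.ofReal B < ∫⁻ x : ℝ × ℝ, ENNReal.ofReal (|α x - y| * ‖v t x‖ ^ 2)) ∧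
  (∀ (R : ℝ) (y : ℝ → ℝ), ∃ᶠ t in 𝓝[<] T, ε ≤ ∫ x in {x : ℝ × ℝ | R < |α x - y t|}, ‖v t x‖ ^ 2)

/-- ON2 (as ONE). -/
def SpecON2 : Prop := ∀ m : ℝ, 0 < m → ∃ ε : ℝ, 0 < ε ∧ ∀ P : L2 ≃ₗᵢ[ℂ] L2, IsPF P →
  ∀ (T : ℝ) (v v₁ v₂ N : ℝ → L2), 0 < T → Nls T v v₁ v₂ N → ‖v 0‖ ^ 2 = m →
  (¬ ∃ D : ℝ, ∀ t ∈ Ico 0 T, XX P (v t) ≤ D) →
  2 * Real.pi ≤ m ∧ Esc2 T ε (fun x => x.1) v v₂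

/-- NU2 (as NUE). -/
def SpecNU2 : Prop := ∀ m : ℝ, ∃ ε : ℝ, 0 < ε ∧
  ∀ (T : ℝ) (v v₁ v₂ N : ℝ → L2), 0 < T → Nls T v v₁ v₂ N → ‖v 0‖ ^ 2 = m →
  (¬ ∃ D : ℝ, ∀ t ∈ Ico 0 T, ‖v₁ t‖ ≤ D ∧ ‖v₂ t‖ ≤ D) →
  2 * Real.pi ≤ m ∧ (Esc2 T ε (fun x => x.1) v v₂ ∨ Esc2 T ε (fun x => x.2) v v₁)

/-- FI2 (as FIE). -/
def SpecFI2 : Prop := ∀ M : ℝ, ∃ ε : ℝ, 0 < ε ∧
  ∀ (T : ℝ) (u : ℝ → EE → ℂ) (G : ℝ → Fin 2 → EE → ℂ), 0 < T → H1Sol T u G → nrm (u 0) ^ 2 = M →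
  (¬ ∃ D : ℝ, ∀ t ∈ Ico 0 T, nrm (G t 0) ≤ D ∧ nrm (G t 1) ≤ D) →
  Real.pi ≤ M ∧ ∃ s : ℝ, (s = 1 ∨ s = -1) ∧
    (∀ B : ℝ, ∃ t ∈ Ico 0 T,
      B < ∫ r in t..((t + T) / 2), nrm (fun x => G r 0 x + (s : ℂ) * G r 1 x)) ∧
    (∀ B : ℝ, ∀ᶠ t in 𝓝[<] T, ∀ y : ℝ,
      ENNReal.ofReal B < ∫⁻ x : EE, ENNReal.ofReal (|x 0 - s * x 1 - y| * ‖u t x‖ ^ 2)) ∧
    (∀ (R : ℝ) (y : ℝ → ℝ), ∃ᶠ t in 𝓝[<] T,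
      ε ≤ ∫ x in {x : EE | R < |x 0 - s * x 1 - y t|}, ‖u t x‖ ^ 2)

end Pool.Agent.Lib.MP424d38.ES
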