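import Pool.Agent.Lib.MP_424d38_an.ES.SpecJ
import Pool.Agent.Lib.MP_424d38_an.ES.NEA
import Pool.Agent.Lib.MP_424d38_an.All
import Pool.Agent.Lib.MP_424d38_an.ES.SB1
import Pool.Agent.Lib.MP_424d38_an.ES.DN1
import Pool.Agent.Lib.MP_424d38_an.TH.REP
import Pool.Agent.Lib.MP_424d38_an.ES.PRS
import Pool.Agent.Lib.MP_424d38_an.ES.ZBD
import Pool.Agent.Lib.MP_424d38_an.TH.XLW
import Pool.Agent.Lib.MP_424d38_an.ES.MTC
import Pool.Agent.Lib.MP_424d38_an.ES.TAI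
import Pool.Agent.Lib.MP_424d38_an.ES.MOR
import Pool.Agent.Lib.MP_424d38_an.ES.KI2
import Pool.Agent.Lib.MP_424d38_an.ES.RAT
import Pool.Agent.Lib.MP_424d38_an.ES.LOW
import Pool.Agent.Lib.MP_424d38_an.TH.WDE

section
/-!
# UPC: upper bound for the increase of `D_L` when `∫Γ < ∞`
-/
set_option autoImplicit false

open MeasureTheory Filter Topology Set
open scoped ENNReal ContDiff ComplexConjugate

noncomputable section

namespace Pool.Agent.Lib.MP424d38.ES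

open Pool.Agent.Lib.MP424d38.TY

theorem specUPC (hCLG : SpecCLG) (hANG : SpecANG) (hPHI : SpecPHI) (hGAB : SpecGAB) : SpecUPC := by
  intro T m C₀ R X ρ p e w f cc hT hC₀ hF hK hGlim hAi δ hδ
  obtain ⟨C1, hC1, hCLG⟩ := hCLG
  obtain ⟨C2, hC2, hANG⟩ := hANG
  obtain ⟨hmon, hinc0⟩ := hCLG T m C₀ R X ρ p e w f cc hT hF hK
  obtain ⟨hG1, hGm, hGc, hGX, -⟩ := hGAB T m R ρ p e hT hF
  obtain ⟨hX0, -⟩ := hGX C₀ X w f cc hK
  set A : ℝ → ℝ := Ga ρ p e with hAdef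
  have hA : ∀ t ∈ Ico 0 T, 0 < A t := fun t ht => one_pos.trans_le (hG1 t ht)
  have hm0 : 0 ≤ m := by
    have h0 : (0 : ℝ) ∈ Ico 0 T := ⟨le_rfl, hT⟩
    rw [← hF.mass 0 h0]
    exact integral_nonneg_of_ae ((hF.pos 0 h0).mono fun a h => h.1)
  -- the constant of `ANG`
  obtain ⟨Mm, hMm, hMm2⟩ : ∃ Mm : ℝ, 1024 ≤ Mm ∧ C2 * (m * C₀ / √Mm) ≤ δ / 4 := by
    refine ⟨1024 + (4 * (C2 * (m * C₀)) / δ) ^ 2, by nlinarith [sq_nonneg (4 * (C2 * (m * C₀)) / δ)],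
      ?_⟩
    have h1 : 0 ≤ 4 * (C2 * (m * C₀)) / δ := by positivity
    have h2 : 4 * (C2 * (m * C₀)) / δ ≤ √(1024 + (4 * (C2 * (m * C₀)) / δ) ^ 2) := by
      apply Real.le_sqrt_of_sq_le
      linarith
    have h3 : 0 < √(1024 + (4 * (C2 * (m * C₀)) / δ) ^ 2) := by positivity
    rw [mul_div_assoc', div_le_iff₀ h3]
    rw [div_le_iff₀ hδ] at h2
    nlinarith
  have hMm0 : 0 < Mm := by linarith
  obtain ⟨t1, ht1, hANG⟩ := hANG T m C₀ R X ρ p e w f cc hT hF hK hGlim Mm hMm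
  -- the remainder
  set r : ℝ → ℝ := fun t => ∫ s in t..T, A s with hr
  have hAi2 : IntegrableOn A (Icc 0 T) := integrableOn_Icc_iff_integrableOn_Ico' (by simp) |>.2 hAi
  have hAii : ∀ a b, a ∈ Icc 0 T → b ∈ Icc 0 T → IntervalIntegrable A volume a b := by
    intro a b ha hb
    refine (intervalIntegrable_iff).2 (hAi2.mono_set ?_)
    intro x hx
    rw [uIoc, mem_Ioc] at hx
    exact ⟨(le_min ha.1 hb.1).trans hx.1.le, hx.2.trans (max_le ha.2 hb.2)⟩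
  have hTT : T ∈ Icc 0 T := ⟨hT.le, le_rfl⟩
  have hsub : ∀ t t', 0 ≤ t → t ≤ t' → t' < T → ∫ s in t..t', A s = r t - r t' := by
    intro t t' h0 h1 h2
    have ht : t ∈ Icc 0 T := ⟨h0, h1.trans h2.le⟩
    have ht' : t' ∈ Icc 0 T := ⟨h0.trans h1, h2.le⟩
    have := intervalIntegral.integral_add_adjacent_intervals (hAii t t' ht ht')
      (hAii t' T ht' hTT)
    simp only [hr]
    linarith
  have hr0 : ∀ t ∈ Ico 0 T, 0 < r t := by
    intro t ht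
    simp only [hr]
    refine intervalIntegral.intervalIntegral_pos_of_pos_on (hAii t T ⟨ht.1, ht.2.le⟩ hTT) ?_ ht.2
    intro x hx
    exact hA x ⟨ht.1.trans hx.1.le, hx.2⟩
  have hrlim : Tendsto r (𝓝[<] T) (𝓝 0) := by
    have h1 : ContinuousOn r (uIcc 0 T) := by
      apply intervalIntegral.continuousOn_primitive_interval_left
      rw [uIcc_of_le hT.le]
      exact hAi2
    rw [uIcc_of_le hT.le] at h1
    have h2 := h1 T hTT
    have h3 : r T = 0 := by simp [hr]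
    unfold ContinuousWithinAt at h2
    rw [h3] at h2
    refine h2.mono_left ?_
    have h4 : 𝓝[<] T = 𝓝[Ico 0 T] T := (nhdsWithin_Ico_eq_nhdsLT hT).symm
    rw [h4]
    exact nhdsWithin_mono _ Ico_subset_Icc_self
  -- the limits of the pair masses
  set M : ℝ := m * (X 0 + 2) with hM
  have hM0 : 0 ≤ M := by positivity
  have hinc : ∀ ℓ : ℝ, 0 < ℓ → ∀ t t' : ℝ, 0 ≤ t → t ≤ t' → t' < T →
      |DD (hl ℓ) (ρ t') (ρ t') - DD (hl ℓ) (ρ t) (ρ t)| ≤ C1 / ℓ * M * ∫ s in t..t', A s := by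
    intro ℓ hℓ t t' h1 h2 h3
    refine (hinc0 ℓ hℓ t t' h1 h2 h3).trans (le_of_eq ?_)
    rw [hM]
    ring
  have hlim : ∀ ℓ : ℝ, ∃ c0 : ℝ, 0 < ℓ → ∀ t ∈ Ico 0 T,
      |DD (hl ℓ) (ρ t) (ρ t) - c0| ≤ C1 / ℓ * M * r t := by
    intro ℓ
    by_cases hℓ : 0 < ℓ
    · obtain ⟨c0, hc0⟩ := UPBM.lim (T := T) (K := C1 / ℓ * M)
        (c := fun t => DD (hl ℓ) (ρ t) (ρ t)) (r := r) hT
        (fun t ht => (hmon t ht ℓ ℓ hℓ le_rfl).1) (fun t ht => (hr0 t ht).le)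
        (mul_nonneg (div_nonneg hC1.le hℓ.le) hM0) (fun t t' h0 h1 h2 => by
          rw [← hsub t t' h0 h1 h2]
          exact hinc ℓ hℓ t t' h0 h1 h2)
      exact ⟨c0, fun _ => hc0⟩
    · exact ⟨0, fun h => absurd h hℓ⟩
  choose c hc using hlim
  -- evaluation near `T`
  have hev : ∀ᶠ t in 𝓝[<] T, t ∈ Ico 0 T := by
    rw [← nhdsWithin_Ico_eq_nhdsLT hT]
    exact self_mem_nhdsWithin
  have hsmall : ∀ K x : ℝ, 0 < x → ∃ t ∈ Ico 0 T, K * r t ≤ x := by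
    intro K x hx
    have h1 : Tendsto (fun t => K * r t) (𝓝[<] T) (𝓝 (K * 0)) := hrlim.const_mul K
    rw [mul_zero] at h1
    have hnb : (𝓝[<] T).NeBot := nhdsLT_neBot_of_exists_lt ⟨0, hT⟩
    obtain ⟨t, h2, h3⟩ := ((h1.eventually (gt_mem_nhds hx)).and hev).exists
    exact ⟨t, h3, le_of_lt h2⟩
  have hcmono : ∀ ℓ ℓ', 0 < ℓ → ℓ ≤ ℓ' → c ℓ ≤ c ℓ' := by
    intro ℓ ℓ' hℓ hℓ'
    have hℓ'0 : 0 < ℓ' := hℓ.trans_le hℓ'
    refine le_of_forall_pos_le_add fun x hx => ?_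
    obtain ⟨t, ht, hx2⟩ := hsmall (C1 / ℓ * M + C1 / ℓ' * M) x hx
    have h1 := (abs_le.1 (hc ℓ hℓ t ht)).1
    have h2 := (abs_le.1 (hc ℓ' hℓ'0 t ht)).2
    have h3 := (hmon t ht ℓ ℓ' hℓ hℓ').2.1
    nlinarith
  have hc0 : ∀ ℓ, 0 < ℓ → 0 ≤ c ℓ := by
    intro ℓ hℓ
    refine le_of_forall_pos_le_add fun x hx => ?_
    obtain ⟨t, ht, hx2⟩ := hsmall (C1 / ℓ * M) x hx
    have h1 := (abs_le.1 (hc ℓ hℓ t ht)).2
    have h3 := (hmon t ht ℓ ℓ hℓ le_rfl).1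
    linarith
  set c0 : ℝ := sInf (c '' Ioi 0) with hc0def
  have hcb : BddBelow (c '' Ioi 0) := by
    refine ⟨0, ?_⟩
    rintro _ ⟨ℓ, hℓ, rfl⟩
    exact hc0 ℓ hℓ
  have hc0le : ∀ ℓ, 0 < ℓ → c0 ≤ c ℓ := fun ℓ hℓ => csInf_le hcb ⟨ℓ, hℓ, rfl⟩
  have hcsmall : ∀ x, 0 < x → ∃ ℓ0, 0 < ℓ0 ∧ ∀ ℓ, 0 < ℓ → ℓ ≤ ℓ0 → c ℓ ≤ c0 + x := by
    intro x hx
    obtain ⟨_, ⟨ℓ0, hℓ0, rfl⟩, h⟩ := exists_lt_of_csInf_lt (s := c '' Ioi 0)
      ⟨_, 1, mem_Ioi.2 one_pos, rfl⟩ (show sInf (c '' Ioi 0) < c0 + x by linarith)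
    exact ⟨ℓ0, hℓ0, fun ℓ hℓ hle => (hcmono ℓ ℓ0 hℓ hle).trans h.le⟩
  -- constants
  set κ : ℝ := δ / (4 * (C2 * Mm)) with hκ
  have hκ0 : 0 < κ := by positivity
  have hκ1 : C2 * (Mm * κ) = δ / 4 := by
    rw [hκ]
    field_simp
  set Q : ℝ := 1 + 6 * (C1 * M) / κ with hQ
  have hCM : 0 ≤ C1 * M := mul_nonneg hC1.le hM0
  have hQ1 : 1 ≤ Q := by
    rw [hQ]
    have : 0 ≤ 6 * (C1 * M) / κ := by positivity
    linarith
  have hQ0 : 0 < Q := one_pos.trans_le hQ1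
  have hQ2 : 3 * (C1 * M) / Q ≤ κ / 2 := by
    rw [div_le_iff₀ hQ0, hQ]
    have h1 : κ / 2 * (1 + 6 * (C1 * M) / κ) = κ / 2 + 3 * (C1 * M) := by
      field_simp
      ring
    rw [h1]
    linarith
  obtain ⟨L2, hL2, hL2c⟩ := hcsmall (κ / 2) (by positivity)
  set L : ℝ := L2 / 2 with hL
  have hL0 : 0 < L := by positivity
  have hcL : c (2 * L) ≤ c0 + κ / 2 := hL2c _ (by positivity) (by rw [hL]; linarith)
  set ε : ℝ := min 1 (δ / (6 * Q * (m ^ 2 + 1))) with hε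
  have hε0 : 0 < ε := lt_min one_pos (by positivity)
  have hε1 : ε ≤ 1 := min_le_left _ _
  have hε2 : ε * Q * m ^ 2 ≤ δ / 6 := by
    have h1 : ε ≤ δ / (6 * Q * (m ^ 2 + 1)) := min_le_right _ _
    have h2 : ε * (6 * Q * (m ^ 2 + 1)) ≤ δ := by
      rwa [le_div_iff₀ (by positivity)] at h1
    have h3 : 0 ≤ ε * Q := by positivity
    nlinarith
  obtain ⟨ℓ1, hℓ1, hℓ1c⟩ := hcsmall (δ / (12 * Q)) (by positivity)
  have hrmono : ∀ t t', 0 ≤ t → t ≤ t' → t' < T → r t' ≤ r t := by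
    intro t t' h0 h1 h2
    have h3 := hsub t t' h0 h1 h2
    have h4 : 0 ≤ ∫ s in t..t', A s := intervalIntegral.integral_nonneg h1 fun x hx =>
      (hA x ⟨h0.trans hx.1, hx.2.trans_lt h2⟩).le
    linarith
  -- the starting time
  obtain ⟨t0, ht0, ht0r, ht01⟩ : ∃ t0 ∈ Ico 0 T, Q * r t0 ≤ min L (ℓ1 / 2) ∧ t1 ≤ t0 := by
    obtain ⟨t2, ht2, h2⟩ := hsmall Q (min L (ℓ1 / 2)) (lt_min hL0 (by positivity))
    refine ⟨max t2 t1, ⟨ht2.1.trans (le_max_left _ _), max_lt ht2.2 ht1.2⟩, ?_, le_max_right _ _⟩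
    refine le_trans ?_ h2
    exact mul_le_mul_of_nonneg_left
      (hrmono t2 _ ht2.1 (le_max_left _ _) (max_lt ht2.2 ht1.2)) hQ0.le
  refine ⟨L, hL0, t0, ht0, fun t ht η hη => ?_⟩
  have htI : t ∈ Ico 0 T := ⟨ht0.1.trans ht.1, ht.2⟩
  have hrt := hr0 t htI
  set ℓ : ℝ := Q * r t with hℓ
  have hℓ0 : 0 < ℓ := mul_pos hQ0 hrt
  have hℓle : ℓ ≤ min L (ℓ1 / 2) := by
    refine le_trans ?_ ht0r
    exact mul_le_mul_of_nonneg_left (hrmono t0 t ht0.1 ht.1 ht.2) hQ0.le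
  have hℓL : ℓ ≤ L := hℓle.trans (min_le_left _ _)
  have hℓ2 : 2 * ℓ ≤ ℓ1 := by
    have := hℓle.trans (min_le_right _ _)
    linarith
  set K : ℝ := C1 * M + 4 * (C1 * M) / ε with hK
  have hK0 : 0 ≤ K := by positivity
  have hKlim : Tendsto (fun t' => K * r t') (𝓝[<] T) (𝓝 0) := by
    have h1 := hrlim.const_mul K
    rwa [mul_zero] at h1
  have hgt : ∀ᶠ t' in 𝓝[<] T, t < t' := by
    filter_upwards [Ioo_mem_nhdsLT ht.2] with t' ht' using ht'.1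
  filter_upwards [hKlim.eventually (gt_mem_nhds hη), hev, hgt] with t' h1 h2 h3
  -- far part
  have hfar := hANG ℓ L hℓ0 hℓL κ t t' (ht01.trans ht.1) h3.le h2.2 (by
    intro s hs
    have hsI : s ∈ Ico 0 T := ⟨htI.1.trans hs.1, hs.2.trans_lt h2.2⟩
    have e1 := (abs_le.1 (hc (2 * L) (by positivity) s hsI)).2
    have e2 := (abs_le.1 (hc (ℓ / 2) (by positivity) s hsI)).1
    have e3 := hc0le (ℓ / 2) (by positivity)
    have e4 : r s ≤ r t := hrmono t s htI.1 hs.1 hsI.2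
    have e5 : C1 / (2 * L) * M ≤ C1 * M / ℓ := by
      rw [div_mul_eq_mul_div]
      exact div_le_div_of_nonneg_left hCM hℓ0 (by linarith)
    have e6 : C1 / (ℓ / 2) * M = 2 * (C1 * M / ℓ) := by
      field_simp
    have e7 : C1 * M / ℓ * r t = C1 * M / Q := by
      rw [hℓ]
      field_simp
    have e8 : 0 ≤ C1 * M / ℓ := div_nonneg hCM hℓ0.le
    have e9 : 0 ≤ r s := (hr0 s hsI).le
    have e10 : C1 / (2 * L) * M * r s ≤ C1 * M / ℓ * r t :=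
      mul_le_mul e5 e4 e9 e8
    have e11 : C1 / (ℓ / 2) * M * r s ≤ 2 * (C1 * M / ℓ * r t) := by
      rw [e6]
      have := mul_le_mul_of_nonneg_left e4 e8
      linarith
    rw [e7] at e10 e11
    have e12 : 3 * (C1 * M) / Q = 3 * (C1 * M / Q) := by ring
    rw [e12] at hQ2
    linarith)
  -- near part
  have hpos := hF.pos
  have hPt := hPHI (ρ t) m ε ℓ ((hpos t htI).mono fun a h => h.1) (hF.mass t htI) hε0 hε1 hℓ0
  have hPt' := hPHI (ρ t') m ε ℓ ((hpos t' h2).mono fun a h => h.1) (hF.mass t' h2) hε0 hε1 hℓ0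
  have f1 := (abs_le.1 (hc (2 * ℓ) (by positivity) t' h2)).2
  have f2 := (abs_le.1 (hc (ε * ℓ / 2) (by positivity) t' h2)).1
  have f3 := hc0le (ε * ℓ / 2) (by positivity)
  have f4 := hℓ1c (2 * ℓ) (by positivity) hℓ2
  have f5 : 2 * ℓ * (DD (hl (2 * ℓ)) (ρ t') (ρ t') - DD (hl (ε * ℓ / 2)) (ρ t') (ρ t')) ≤
      2 * ℓ * (δ / (12 * Q) + (C1 / (2 * ℓ) * M + C1 / (ε * ℓ / 2) * M) * r t') := by
    refine mul_le_mul_of_nonneg_left ?_ (by positivity)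
    linarith
  have f6 : 2 * ℓ * (δ / (12 * Q) + (C1 / (2 * ℓ) * M + C1 / (ε * ℓ / 2) * M) * r t') =
      δ / 6 * r t + K * r t' := by
    have g1 : 2 * ℓ * (δ / (12 * Q)) = δ / 6 * r t := by
      rw [hℓ]
      field_simp
      ring
    have g2 : 2 * ℓ * ((C1 / (2 * ℓ) * M + C1 / (ε * ℓ / 2) * M) * r t') = K * r t' := by
      rw [hK]
      field_simp
      ring
    rw [mul_add, g1, g2]
  have f7 : ε * ℓ * m ^ 2 ≤ δ / 6 * r t := by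
    have g1 : ε * ℓ * m ^ 2 = (ε * Q * m ^ 2) * r t := by
      rw [hℓ]
      ring
    rw [g1]
    exact mul_le_mul_of_nonneg_right hε2 hrt.le
  have f8 : C2 * (Mm * κ + m * C₀ / √Mm) * ∫ s in t..t', A s ≤ δ / 2 * r t := by
    have g1 : ∫ s in t..t', A s ≤ r t := by
      rw [hsub t t' htI.1 h3.le h2.2]
      have := (hr0 t' h2).le
      linarith
    have g2 : 0 ≤ C2 * (Mm * κ + m * C₀ / √Mm) := by positivity
    have g3 : C2 * (Mm * κ + m * C₀ / √Mm) ≤ δ / 2 := by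
      rw [mul_add, hκ1]
      linarith
    calc C2 * (Mm * κ + m * C₀ / √Mm) * ∫ s in t..t', A s
        ≤ C2 * (Mm * κ + m * C₀ / √Mm) * r t := mul_le_mul_of_nonneg_left g1 g2
      _ ≤ δ / 2 * r t := mul_le_mul_of_nonneg_right g3 hrt.le
  have f9 := hPt.1
  have f10 := hPt'.2
  have f11 : K * r t' < η := h1
  have f12 : 0 < δ * r t := mul_pos hδ hrt
  show _ ≤ δ * r t + η
  nlinarith

end Pool.Agent.Lib.MP424d38.ES
end
end

section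
/-!
# MP_424d38_an, block ES: all modules together
-/
set_option autoImplicit false

namespace Pool.Agent.Lib.MP424d38.ES

theorem bCHF : SpecCHF := specCHF 
theorem bMX1 : SpecMX1 := specMX1 
theorem bDN1 : SpecDN1 := specDN1 
theorem bNGY : SpecNGY := specNGY 
theorem bSB1 : SpecSB1 := specSB1 bDN1 bNGY
theorem bBRN : SpecBRN := specBRN 
theorem bCJ1 : SpecCJ1 := specCJ1 
theorem bORT : SpecORT := specORT bCJ1
theorem bIB4 : SpecIB4 := specIB4 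
theorem bKEY : SpecKEY := specKEY bSB1 bMX1
theorem bPRS : SpecPRS := specPRS 
theorem bZBD : SpecZBD := specZBD bMX1 bBRN bDN1 bSB1 bIB4
theorem bTU3 : SpecTU3 := specTU3 bZBD bSB1 bIB4 bBRN bMX1
theorem bTW2 : SpecTW2 := specTW2 bMX1 bBRN bORT bIB4 bPRS bCHF
theorem bTH3 : SpecTH3 := specTH3 bMX1 bBRN bORT bIB4 bPRS bCHF bSB1 bTU3
theorem bSLI : SpecSLI := specSLI bTW2 bTH3 bKEY bMX1 bSB1 bORT bIB4 bCHF
theorem bPFX : SpecPFX := specPFX 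
theorem bPSL : SpecPSL := specPSL 
theorem bPD2 : SpecPD2 := specPD2 bPSL
theorem bMTX : SpecMTX := specMTX 
theorem bMTC : SpecMTC := specMTC TY.aTH1 TY.aLIN TY.aEXT bPSL bPD2
theorem bMDE : SpecMDE := specMDE bPSL bPD2
theorem bSLD : SpecSLD := specSLD bPSL bPD2 bMX1
theorem bSKY : SpecSKY := specSKY bSLD bKEY bSB1 bMX1 bMDE
theorem bSKS : SpecSKS := specSKS bSLD bSLI bSB1 bMX1 bMDE
theorem bMLW : SpecMLW := specMLW bPSL bMTC bPD2 TY.aBIL TY.aDNS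
theorem bTOT : SpecTOT := specTOT bMLW bPSL
theorem bGGI : SpecGGI := specGGI TY.aFLO TY.aUGB
theorem bXGR : SpecXGR := specXGR bTOT bSKY bMTX bMDE bGGI TY.aSOB
theorem bPAS : SpecPAS := specPAS TY.aDDB
theorem bMOR : SpecMOR := specMOR bPAS TY.aKPF TY.aGLM TY.aDDB
theorem bHFD : SpecHFD := specHFD bMTX bMLW bSKY bMDE bCHF TY.aFLO TY.aRHB TY.aSOB
theorem bHFM : SpecHFM := specHFM bHFD bMOR bGGI TY.aGLM
theorem bTAI : SpecTAI := specTAI bSKS bHFM bTOT bMTX bGGI bMDE TY.aFLO TY.aGLM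
theorem bKIN : SpecKIN := specKIN bTAI bMLW bMTX bMDE bXGR bGGI
theorem bGAB : SpecGAB := specGAB TY.aUGB
theorem bLBG : SpecLBG := specLBG TY.aHCF TY.aKPF TY.aPHF TY.aPAI TY.aGLM TY.aFLB TY.aDDB
theorem bFAR : SpecFAR := specFAR bPAS TY.aDDB TY.aFLB
theorem bFAG : SpecFAG := specFAG bFAR bGAB
theorem bCLG : SpecCLG := specCLG TY.aHCF TY.aPAI TY.aFLB TY.aDDB TY.aCLL bGAB
theorem bANG : SpecANG := specANG TY.aHCF TY.aPHF TY.aPAI TY.aFLB TY.aDDB bGAB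
theorem bUPC : SpecUPC := specUPC bCLG bANG TY.aPHI bGAB
theorem bCOR : SpecCOR := specCOR bLBG bFAG bUPC bGAB
theorem bNEA : SpecNEA := specNEA bLBG bCOR bGAB TY.aDDB TY.aHCF TY.aFLB
theorem bESC : SpecESC := specESC bNEA TY.aDDB TY.aHCF TY.aFLB bGAB
theorem bRAI : SpecRAI := specRAI bNEA bFAR bGAB TY.aFLB
theorem bRAT : SpecRAT := specRAT bRAI bGAB
theorem bHF2 : SpecHF2 := specHF2 bTAI bMDE bGGI
theorem bKI2 : SpecKI2 := specKI2 bTAI bHF2 bMLW bMTX bMDE bXGR bGGI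
theorem bLOW : SpecLOW := specLOW 
theorem bLCK : SpecLCK := specLCK 
theorem bEMB : SpecEMB := specEMB bLOW bLCK TY.aFWD TY.aN4F
theorem bTFE : SpecTFE := specTFE 
theorem bCHN : SpecCHN := specCHN bTFE bPD2 TY.aFWD
theorem bBDD : SpecBDD := specBDD bEMB bCHN TY.aGRC TY.aN4F
theorem bMOM : SpecMOM := specMOM TY.aLBD TY.aSUP TY.aPHI TY.aUGB TY.aFLB
theorem bGRB : SpecGRB := specGRB bMOR TY.aFLB
theorem bMTH : SpecMTH := specMTH bGRB bXGR TY.aFLO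
theorem bSPR : SpecSPR := specSPR TY.aHCF TY.aDDB
theorem bON2 : SpecON2 := specON2 bGAB bCOR bESC bRAT bKI2 bMOM bGRB bMTH bSPR TY.aFLO TY.aFLB
theorem bNU2 : SpecNU2 := specNU2 bPFX bON2 bMTH bBDD TY.aSWP
theorem bFI2 : SpecFI2 := specFI2 bNU2 TY.aTRF TY.aCHV
theorem bRTE : SpecRTE := specRTE bGAB bRAT bKI2 bGRB TY.aFLO TY.aFLB bMTH bBDD bPFX TY.aSWP TY.aTRF TY.aCHV

end Pool.Agent.Lib.MP424d38.ES
end
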