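import Pool.Agent.Lib.MP_424d38_an.ES.SpecH
import Pool.Agent.Lib.MP_424d38_an.SpecD

/-!
# Block ES: the kinetic data handed from sections 1-4 to sections 5-7
-/

set_option autoImplicit false

open MeasureTheory Filter Topology Set
open scoped ENNReal ContDiff ComplexConjugate

noncomputable section

namespace Pool.Agent.Lib.MP424d38.ES

open Pool.Agent.Lib.MP424d38.TY

/-- `Γ(t) = 1 + ∫_0^t g`. -/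
def Ga (ρ p e : ℝ → L1) (t : ℝ) : ℝ := 1 + ∫ r in (0 : ℝ)..t, gF ρ p e r

/-- Kinetic data of a flow.  `w Λ` is the moment `M_W` of the clamp `W` of `l` to `[-Λ,Λ]`, `f Λ = M_{lW}`, `c Λ` its source;
`X t ≥ ‖p t‖` is `∬|l||v̂|²`. -/
structure Kin (T C₀ : ℝ) (X : ℝ → ℝ) (ρ p e : ℝ → L1) (w f c : ℝ → ℝ → L1) : Prop where
  hp : ∀ t ∈ Ico 0 T, ‖p t‖ ≤ X t
  hX : ∀ t ∈ Ico 0 T, X t ≤ X 0 + 2 * Ga ρ p e t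
  law : ∀ Λ : ℝ, 1 ≤ Λ → LawS T (w Λ) (fun t => (4 : ℝ) • f Λ t) (c Λ)
  hwρ : ∀ Λ : ℝ, 1 ≤ Λ → ∀ t ∈ Ico 0 T, ∀ᵐ a : ℝ, |w Λ t a| ≤ Λ * ρ t a
  hwX : ∀ Λ : ℝ, 1 ≤ Λ → ∀ t ∈ Ico 0 T, ‖w Λ t‖ ≤ X t
  hf : ∀ Λ : ℝ, 1 ≤ Λ → ∀ t ∈ Ico 0 T, ‖f Λ t‖ ≤ Λ * X t
  tail : Tendsto (Ga ρ p e) (𝓝[<] T) atTop → ∀ M : ℝ, 1024 ≤ M → ∃ t₁ ∈ Ico 0 T, ∀ s ∈ Ico t₁ T,
    ‖p s - w (M * Ga ρ p e s) s‖ ≤ C₀ / Real.sqrt M * Ga ρ p e s ∧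
    (∫ r in (0 : ℝ)..s, ‖c (M * Ga ρ p e s) r‖) ≤ C₀ / Real.sqrt M * Ga ρ p e s

end Pool.Agent.Lib.MP424d38.ES
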