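import Pool.Agent.Lib.MP_424d38_an.DefsE

/-!
# MP_424d38_an, block ES (escape of mass), part G: one dimensional Fourier analysis

Paper: /team-store/MP_424d38_an_ESCAPE.md.  Module `XXX` = file `Pool/Agent/Lib/MP_424d38_an/ES/XXX.lean`, theorem
`specXXX (hYYY : SpecYYY) .. : SpecXXX` in namespace `Pool.Agent.Lib.MP424d38.ES` (own lemmas in `..ES.XXXM`).
Any other Spec may be taken as a hypothesis as long as no circle arises (the docstring names the intended ones).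

Normalisation: `𝓕` is Mathlib's Fourier transform on `L²(ℝ)`; the frequency is `l = 2πξ`.
-/

set_option autoImplicit false

open MeasureTheory Filter Topology Set
open scoped ENNReal ContDiff ComplexConjugate FourierTransform

noncomputable section

namespace Pool.Agent.Lib.MP424d38.ES

open Pool.Agent.Lib.MP424d38.TY

/-- `L²(ℝ; ℂ)` -/
abbrev L2R := Lp ℂ 2 (volume : Measure ℝ)

/-- spectral integral `∫ σ(l) |ĥ|² dξ`, `l = 2πξ`. -/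
def sp (σ : ℝ → ℝ) (h : L2R) : ℝ := ∫ ξ, σ (2 * Real.pi * ξ) * ‖(𝓕 h : L2R) ξ‖ ^ 2

/-- `h ∈ H¹(ℝ)`: `∫ l² |ĥ|² < ∞`. -/
def E1 (h : L2R) : Prop := Integrable fun ξ => (2 * Real.pi * ξ) ^ 2 * ‖(𝓕 h : L2R) ξ‖ ^ 2

/-- `g = σ(D) h` (the symbol `σ` is a function of `l = 2πξ`). -/
def IsM (σ : ℝ → ℝ) (h g : L2R) : Prop :=
  ∀ᵐ ξ : ℝ, (𝓕 g : L2R) ξ = ((σ (2 * Real.pi * ξ) : ℝ) : ℂ) * (𝓕 h : L2R) ξ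

/-- `γ_χ(h) = ρ e - p²` for `χ(D)h`: `ρ = ∫χ²|ĥ|²`, `e = ∫l²χ²|ĥ|²`, `p = ∫lχ²|ĥ|²`. -/
def gw (χ : ℝ → ℝ) (h : L2R) : ℝ :=
  sp (fun l => χ l ^ 2) h * sp (fun l => l ^ 2 * χ l ^ 2) h - sp (fun l => l * χ l ^ 2) h ^ 2

/-- `γ(h) = ρ e - p²`. -/
def gm (h : L2R) : ℝ := sp (fun _ => 1) h * sp (fun l => l ^ 2) h - sp (fun l => l) h ^ 2

/-- the cutoff `χ_N(l) = min(1, max(0, |l|/N - 1))`: `0` for `|l| ≤ N`, `1` for `|l| ≥ 2N`. -/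
def ch (N l : ℝ) : ℝ := min 1 (max 0 (|l| / N - 1))

/-- frequencies of `h` in `[-A, A]`. -/
def Bd (A : ℝ) (h : L2R) : Prop := ∀ᵐ ξ : ℝ, A < |2 * Real.pi * ξ| → (𝓕 h : L2R) ξ = 0

/-- frequencies of `h` outside `(-K, K)`. -/
def Hi (K : ℝ) (h : L2R) : Prop := ∀ᵐ ξ : ℝ, |2 * Real.pi * ξ| < K → (𝓕 h : L2R) ξ = 0

/-- `∫ conj g · x · conj y · z`. -/
def I4 (g x y z : L2R) : ℂ := ∫ b, conj (g b) * (x b * conj (y b) * z b)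

/-- CHF (facts on the cutoff). -/
def SpecCHF : Prop := ∀ N : ℝ, 0 < N → (∀ l, 0 ≤ ch N l ∧ ch N l ≤ 1) ∧ (∀ l, |l| ≤ N → ch N l = 0) ∧
  (∀ l, 2 * N ≤ |l| → ch N l = 1) ∧ Continuous (ch N) ∧ (∀ l, ch N (-l) = ch N l) ∧
  (∀ l l', |ch N l - ch N l'| ≤ |l - l'| / N) ∧ (∀ l l', |ch N l ^ 2 - ch N l' ^ 2| ≤ 2 / N * |l - l'|) ∧
  (∀ l l', |l * ch N l ^ 2 - l' * ch N l' ^ 2| ≤ 5 * |l - l'|) ∧ (∀ l, ch N l ^ 2 ≤ |l| / N)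

/-- MX1 (multipliers on `L²(ℝ)`).  `g = 𝓕⁻¹(σ(2πξ)𝓕h)`; `MemLp.toLp`, Plancherel `Lp.norm_fourier_eq`. -/
def SpecMX1 : Prop :=
  (∀ (σ : ℝ → ℝ) (h : L2R), Measurable σ →
    (Integrable fun ξ => σ (2 * Real.pi * ξ) ^ 2 * ‖(𝓕 h : L2R) ξ‖ ^ 2) → ∃ g : L2R, IsM σ h g) ∧
  (∀ (σ : ℝ → ℝ) (h g : L2R), Measurable σ → IsM σ h g → ‖g‖ ^ 2 = sp (fun l => σ l ^ 2) h ∧
    (Integrable fun ξ => σ (2 * Real.pi * ξ) ^ 2 * ‖(𝓕 h : L2R) ξ‖ ^ 2)) ∧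
  (∀ h : L2R, ‖h‖ ^ 2 = sp (fun _ => 1) h ∧ (∫ b, ‖h b‖ ^ 2) = ‖h‖ ^ 2 ∧
    Integrable fun ξ => ‖(𝓕 h : L2R) ξ‖ ^ 2) ∧
  (∀ h g : L2R, (∫ b, conj (h b) * g b) = ∫ ξ, conj ((𝓕 h : L2R) ξ) * (𝓕 g : L2R) ξ) ∧
  (∀ (σ τ : ℝ → ℝ) (h g k : L2R), IsM σ h g → IsM τ g k → IsM (fun l => τ l * σ l) h k) ∧
  (∀ (σ τ : ℝ → ℝ) (h g k : L2R), IsM σ h g → IsM τ h k → IsM (fun l => σ l + τ l) h (g + k)) ∧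
  (∀ (σ : ℝ → ℝ) (h g g' : L2R), IsM σ h g → IsM σ h g' → g = g') ∧
  (∀ h : L2R, E1 h → (Integrable fun ξ => |2 * Real.pi * ξ| * ‖(𝓕 h : L2R) ξ‖ ^ 2))

/-- DN1 (approximation of `H¹(ℝ)` functions by test functions, with the derivative).
`d` is `D h = -i h'` (symbol `l`), so the derivative of `h` is `i d`.
Proof.  Truncate in frequency and mollify, or: Schwartz functions are dense in the weighted space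
`{∫(1+l²)|ĥ|² < ∞}` (Fourier transforms of Schwartz functions are the Schwartz functions; multiply by `(1+l²)^{1/2}`:
`C_c^∞` is dense in `L²`), and then cut off: `θ(b/n)h → h` in `H¹` for Schwartz `h`.
Uniform convergence: `sup|k|² ≤ ‖k‖‖k'‖` for test functions `k`, applied to `ψ_n - ψ_m`; so `ψ_n` is Cauchy in `L^∞`, and the
limit is `h` a.e.  The `L²` convergences are stated with `eLpNorm`. -/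
def SpecDN1 : Prop := ∀ h d : L2R, IsM (fun l => l) h d → ∃ ψ : ℕ → ℝ → ℂ,
  (∀ n, ContDiff ℝ ∞ (ψ n) ∧ HasCompactSupport (ψ n)) ∧
  Tendsto (fun n => eLpNorm (fun b => ψ n b - h b) 2 volume) atTop (𝓝 0) ∧
  Tendsto (fun n => eLpNorm (fun b => deriv (ψ n) b - Complex.I * d b) 2 volume) atTop (𝓝 0) ∧
  Tendsto (fun n => eLpNorm (fun b => ψ n b - h b) ⊤ volume) atTop (𝓝 0)

/-- NGY (sharp one dimensional Gagliardo-Nirenberg-Nagy inequality, for test functions).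
Proof.  Let `M = ∫|h|²` and first `h` real, nonnegative?  No: argue with `u = |h|²`.  Assume `M > 0`, put
`s(x) = M⁻¹∫_{-∞}^x|h|²` and `φ = π cot(πs)` where `0 < s < 1`, an interval `(α, β)` (outside of `[α,β]` `h = 0`).  With
`R = Re(conj h h')` (`= |h||h|'`, `R² ≤ |h|²|h'|²`) and `u = |h|²`, `u' = 2R`:
`0 ≤ ∫ (2h' - (u/M)φ h)·conj(..)` on `(α,β)` `= 4∫|h'|² - (4/M)∫ uφR + M⁻²∫u³φ²`, and `4uR = 2uu' = (u²)'`, so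
`-(1/M)∫(u²)'φ = (1/M)∫u²φ' = -(π²/M²)∫u³/sin²(πs)` (`φ' = -π²u/(M sin²)`; boundary terms: `u(x)² ≤ 4(∫_{-∞}^xu)(∫_{-∞}^x|h'|²)`,
so `u²/s → 0` at `α`, the same at `β`).  Sum: `0 ≤ 4∫|h'|² + (π²/M²)∫u³(cot² - 1/sin²) = 4∫|h'|² - (π²/M²)∫u³`.
(Integrate over `[α+δ, β-δ]` first and let `δ → 0`.) -/
def SpecNGY : Prop := ∀ h : ℝ → ℂ, ContDiff ℝ ∞ h → HasCompactSupport h →
  Real.pi ^ 2 * (∫ s, ‖h s‖ ^ 6) ≤ 4 * (∫ s, ‖h s‖ ^ 2) ^ 2 * ∫ s, ‖deriv h s‖ ^ 2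

/-- SB1 (sup bound and `L⁴`, `L⁶` bounds in `H¹(ℝ)`, Galilean invariant).  Hypotheses DN1, MX1, NGY (and TY.SpecGN1).
Proof.  `GN1` (TY) for `ψ_n` of DN1: `‖ψ_n b‖⁴ ≤ ρ_ne_n - p_n²`, pass to the limit (`ρ_n → ρ = sp 1 h`,
`e_n → ‖d‖² = sp l² h`, `p_n = ∫Im(conj ψ_n ψ_n') → Re∫conj h d = sp l h`, Plancherel).  NGY for `exp(-icb)ψ_n`, `c = p_n/ρ_n`:
`π²∫|ψ_n|⁶ ≤ 4ρ_n²(e_n - p_n²/ρ_n) = 4ρ_n(ρ_ne_n - p_n²)` (trivial if `ρ_n = 0`).  `∫|h|⁴ ≤ sup|h|²∫|h|²`.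
The last item: `∫conj(h)·.. = 0` in the form `Im∫conj(d)|h|²h = Re∫conj(h')|h|²h·(..) = 0`: for test functions
`Re(conj(ψ')|ψ|²ψ) = (|ψ|⁴)'/4`, and `d = -iψ'`, so `conj(d) = i conj(ψ')`, `Im(i z) = Re z`. -/
def SpecSB1 : Prop := ∀ h : L2R, E1 h → 0 ≤ gm h ∧ (∀ᵐ b : ℝ, ‖h b‖ ^ 4 ≤ gm h) ∧
  (Integrable fun b => ‖h b‖ ^ 6) ∧ Real.pi ^ 2 * (∫ b, ‖h b‖ ^ 6) ≤ 4 * (sp (fun _ => 1) h * gm h) ∧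
  (Integrable fun b => ‖h b‖ ^ 4) ∧ (∫ b, ‖h b‖ ^ 4) ≤ Real.sqrt (gm h) * sp (fun _ => 1) h ∧
  (∀ d : L2R, IsM (fun l => l) h d → (∫ b, conj (d b) * (((‖h b‖ ^ 2 : ℝ) : ℂ) * h b)).im = 0)

/-- BRN (Bernstein).  `h = 𝓕⁻¹(𝓕h)`, `𝓕h ∈ L¹ ∩ L²` is supported in `|ξ| ≤ A/2π`, so `h(b) = ∫e^{2πiξb}ĥ(ξ)dξ` for a.e. `b` and
`|h(b)|² ≤ (2A/2π)∫|ĥ|²`.  (The `L²` inverse transform of an `L¹ ∩ L²` function is the integral: Pool/Agent/Lib/MP_424d38_an/LIN/PLA.lean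
has this for the transform.)  Also `E1 h`. -/
def SpecBRN : Prop := ∀ (A : ℝ) (h : L2R), 0 ≤ A → Bd A h →
  E1 h ∧ ∀ᵐ b : ℝ, ‖h b‖ ^ 2 ≤ A / Real.pi * ‖h‖ ^ 2

/-- CJ1 (conjugation).  `𝓕(conj h)(ξ) = conj(𝓕h(-ξ))`. -/
def SpecCJ1 : Prop := ∀ h : L2R, ∃ h' : L2R, (∀ᵐ b : ℝ, h' b = conj (h b)) ∧
  (∀ᵐ ξ : ℝ, (𝓕 h' : L2R) ξ = conj ((𝓕 h : L2R) (-ξ))) ∧ ∀ A : ℝ, Bd A h → Bd A h'

/-- ORT (products of band limited functions).  Hypotheses BRN, CJ1.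
Proof.  By CJ1 no conjugates on `x, y, z`.  `y(b) = ∫ŷ(η)e^{2πiηb}dη`, `z(b) = ∫ẑ(ζ)e^{2πiζb}dζ` with `ŷ, ẑ ∈ L¹`; Fubini
(`conj(g)x ∈ L¹`): `∫conj(g)xyz = ∬ŷ(η)ẑ(ζ)∫conj(g(b))x(b)e^{2πi(η+ζ)b}db`, and by Parseval the inner integral is
`∫conj(ĝ(ξ))x̂(ξ-η-ζ)dξ = 0`: if `|2πξ| < K` then `ĝ = 0`, otherwise `|2π(ξ-η-ζ)| ≥ K - B - C > A` on the supports of
`ŷ, ẑ`. -/
def SpecORT : Prop := ∀ (A B C K : ℝ) (g x y z : L2R), 0 ≤ A → 0 ≤ B → 0 ≤ C → A + B + C < K →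
  Bd A x → Bd B y → Bd C z → Hi K g → I4 g x y z = 0

/-- IB4 (basic bounds for `I4`).  Hölder: all of `x, y` bounded a.e. by `X`, `Y`.  (2) Cauchy-Schwarz
`‖g‖ ‖y‖_∞ (∫|x|⁴)^{1/4}(∫|z|⁴)^{1/4}`. (3) additivity in each variable when the other functions are bounded. -/
def SpecIB4 : Prop :=
  (∀ (g x y z : L2R) (X Y : ℝ), 0 ≤ X → 0 ≤ Y → (∀ᵐ b : ℝ, ‖x b‖ ≤ X) → (∀ᵐ b : ℝ, ‖y b‖ ≤ Y) →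
    ‖I4 g x y z‖ ≤ ‖g‖ * X * Y * ‖z‖ ∧ ‖I4 g x z y‖ ≤ ‖g‖ * X * Y * ‖z‖ ∧
    ‖I4 g z x y‖ ≤ ‖g‖ * X * Y * ‖z‖ ∧ Integrable (fun b => conj (g b) * (x b * conj (y b) * z b)) ∧
    Integrable (fun b => conj (g b) * (x b * conj (z b) * y b)) ∧
    Integrable (fun b => conj (g b) * (z b * conj (x b) * y b))) ∧
  (∀ (g x z : L2R) (X : ℝ), 0 ≤ X → (∀ᵐ b : ℝ, ‖x b‖ ≤ X) → (Integrable fun b => ‖z b‖ ^ 4) →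
    ‖I4 g x z z‖ ≤ ‖g‖ * X * Real.sqrt (∫ b, ‖z b‖ ^ 4) ∧
    ‖I4 g z x z‖ ≤ ‖g‖ * X * Real.sqrt (∫ b, ‖z b‖ ^ 4) ∧
    ‖I4 g z z x‖ ≤ ‖g‖ * X * Real.sqrt (∫ b, ‖z b‖ ^ 4))

/-- KEY (the key inequality, one dimensional form).  Hypotheses SB1, MX1.
Proof.  If `ρ = sp 1 h = 0` then `h = 0`.  Otherwise `c = p/ρ`, `g' = g - σ(c)h` (symbol `σ - σ(c)`),
`‖g'‖² = ∫(σ(l)-σ(c))²|ĥ|² ≤ lam²∫(l-c)²|ĥ|² = lam²(e - p²/ρ) = lam² gm h/ρ`; `Im∫conj(h)|h|²h = 0`;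
`|∫conj(g')|h|²h| ≤ ‖g'‖(∫|h|⁶)^{1/2} ≤ lam (gm/ρ)^{1/2}(2/π)(ρ gm)^{1/2}`. -/
def SpecKEY : Prop := ∀ (σ : ℝ → ℝ) (lam : ℝ) (h g : L2R), 0 ≤ lam →
  (∀ l l', |σ l - σ l'| ≤ lam * |l - l'|) → E1 h → IsM σ h g →
    |(∫ b, conj (g b) * (((‖h b‖ ^ 2 : ℝ) : ℂ) * h b)).im| ≤ 2 / Real.pi * lam * gm h

/-- PRS (pairs).  Proof.  With `f(l) = |ĥ|²`: `∬A(l)B(l')f(l)f(l') ≤ c∬(l-l')²f f' = 2c(ρe - p²)` (Fubini; all integrals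
converge by `E1`). -/
def SpecPRS : Prop := ∀ (A B : ℝ → ℝ) (c a : ℝ) (h : L2R), Measurable A → Measurable B → 0 ≤ c →
  (∀ l, 0 ≤ A l ∧ A l ≤ a * (1 + l ^ 2)) → (∀ l, 0 ≤ B l ∧ B l ≤ a * (1 + l ^ 2)) →
  (∀ l l', A l * B l' ≤ c * (l - l') ^ 2) → E1 h → sp A h * sp B h ≤ 2 * c * gm h

/-- ZBD (the resonant term).  Hypotheses MX1, BRN, DN1, SB1, IB4.
`Z = ∫ conj(u) x |u|²` (`= I4 u x u u`), `x` band limited, `c` far away, `G² = ∫(l-c)²|û|²`.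
Proof.  `k := (c-D)⁻¹x`, i.e. `IsM (1/(c-l) for |l| ≤ A, 0 otherwise) x k`; `Bd A k`, `‖k‖ ≤ 2‖x‖/|c|`, so by BRN
`sup|k| ≤ (A/π)^{1/2}·2‖x‖/|c|`; `x = ck - Dk = ck + ik'`.  `Du = cu + g`, `‖g‖ = G`, `u' = i(cu+g)`.
`Z = c∫k|u|²conj u + i∫k' conj(u)²u` and, integrating by parts (DN1: approximate `k`, `u` by test functions in `H¹` and
uniformly), `i∫k' conj(u)²u = -i∫k(2conj(u)conj(u)'u + conj(u)²u') = -c∫k|u|²conj u - 2∫k|u|²conj g + ∫k conj(u)²g`.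
So `Z = -2∫k|u|²conj(g) + ∫k conj(u)²g` and `|Z| ≤ 3 sup|k| G (∫|u|⁴)^{1/2}`. -/
def SpecZBD : Prop := ∀ (A c : ℝ) (x u : L2R), 0 ≤ A → 2 * A ≤ |c| → 0 < |c| → Bd A x → E1 u →
  |c| * ‖I4 u x u u‖ ≤ 6 * Real.sqrt (A / Real.pi) * ‖x‖ *
    Real.sqrt (sp (fun l => (l - c) ^ 2) u) * Real.sqrt (∫ b, ‖u b‖ ^ 4)

/-- TU3 (one low factor, three high factors).  Hypotheses ZBD, SB1, IB4, BRN, MX1.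
Proof.  `ρ = sp 1 u`; if `ρ = 0` everything is `0`.  `c = p/ρ`, `r = g - σ(c)u`, `‖r‖² ≤ gm u/ρ`, `∫|u|⁴ ≤ (gm u)^{1/2}ρ`,
`sup|x| ≤ (A/π)^{1/2}‖x‖`: the `r` part is `≤ 3(gm/ρ)^{1/2}(A/π)^{1/2}‖x‖(gm^{1/2}ρ)^{1/2}` (IB4 (2)).
The rest: `2 I4 u x u u + I4 u u x u = 2Z + conj Z`, imaginary part `Im Z`; if `|c| ≤ K` then `σ(c) = 0`; otherwise
`|σ(c)| ≤ |c|` and ZBD with `G² = gm u/ρ`. -/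
def SpecTU3 : Prop := ∀ (A K : ℝ) (σ : ℝ → ℝ) (x u g : L2R), 0 ≤ A → 2 * A ≤ K → 0 < K →
  (∀ l l', |σ l - σ l'| ≤ |l - l'|) → (∀ l, |l| ≤ K → σ l = 0) → Bd A x → E1 u → IsM σ u g →
    |(2 * I4 g x u u + I4 g u x u).im| ≤
      9 * Real.sqrt (A / Real.pi) * ‖x‖ * gm u ^ (3 / 4 : ℝ)

/-- TW2 (two low factors).  Hypotheses MX1, BRN, ORT, IB4, PRS, CHF.
Proof.  `x = h₁` (symbol `1 - χ_N`, `Bd 2N`), `y = h₂` (symbol `χ_N`), `y = y_w + y_v`, `y_v`: symbol `χ_N χ_{K/4}` (`Hi (K/4)`),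
`y_w`: symbol `χ_N(1-χ_{K/4})` (`Bd (K/2)`); `4N + K/2 < K`: ORT removes `y_w`.  `‖g‖² ≤ E_K := ∫_{|l|≥K}l²|ĥ|²`
(`|σ| ≤ |l|`, `σ = 0` on `[-K,K]`), `‖y_v‖² ≤ (4/K)²E_{K/4}`, `sup|x|² ≤ (2N/π)ρ₁`, `ρ₁ ≤ ∫_{|l|≤2N}|ĥ|²`: each of the three terms is
`≤ E_K^{1/2}(2N/π)ρ₁(4/K)E_{K/4}^{1/2} ≤ (8/π)(N/K)ρ₁E_{K/4}`, and PRS with `A = l²1_{|l|≥K/4}`, `B = 1_{|l|≤2N}`:
`|l-l'| ≥ (3/4)|l|` (`2N ≤ K/16`). -/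
def SpecTW2 : Prop := ∃ C : ℝ, 0 < C ∧ ∀ (N K : ℝ) (σ : ℝ → ℝ) (h g x y : L2R), 0 < N → 32 * N ≤ K →
  (∀ l l', |σ l - σ l'| ≤ |l - l'|) → (∀ l, |l| ≤ K → σ l = 0) → E1 h → IsM σ h g →
  IsM (fun l => 1 - ch N l) h x → IsM (ch N) h y →
    ‖I4 g x x y‖ ≤ C * (N / K) * gm h ∧ ‖I4 g x y x‖ ≤ C * (N / K) * gm h

/-- TH3 (one low factor).  Hypotheses MX1, BRN, ORT, IB4, PRS, CHF, SB1, TU3.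
Proof.  `x = h₁`, `y = h₂ = u + w`, `u`: symbol `χ_N χ_{K/8}` (`= χ_{K/8}` as `2N ≤ K/8`; `Hi (K/8)`), `w`: symbol
`χ_N(1-χ_{K/8})` (`Bd (K/4)`).  `g = σ(D)h = σ(D)u`, `Hi K g`.
Both `w`: `2N + K/2 < K`, ORT: zero.  One `w`, one `u`: write `u = u_w + u_v`, `u_v` symbol `χ_{K/8}χ_{K/4}` (`Hi (K/4)`), `u_w` symbol
`χ_{K/8}(1-χ_{K/4})` (`Bd (K/2)`); `2N + K/4 + K/2 < K`: ORT removes `u_w`; the six remaining terms are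
`≤ ‖g‖ sup|x| sup|w| ‖u_v‖ ≤ E_K^{1/2}(2Nρ₁/π)^{1/2}(Kρ_w/4π)^{1/2}(4/K)E_{K/4}^{1/2} ≤ C(N/K)^{1/2}(ρ₁E_{K/4})^{1/2}(ρ_wE_K)^{1/2}`,
`ρ₁E_{K/4} ≤ C gm h` (PRS), `ρ_wE_K ≤ C gw(χ_N) h` (PRS for `h₂`, `|l| ≤ K/4`, `|l'| ≥ K`).
Both `u`: TU3 (with `A = 2N`): `≤ 9(2N/π)^{1/2}ρ₁^{1/2}(gm u)^{3/4}`, `(gm u)^{1/4} ≤ (ρ_ue_u)^{1/4} ≤ (8/K)^{1/2}e_u^{1/2}`,
`ρ₁e_u ≤ C gm h` (PRS: `|l| ≤ 2N ≤ K/16`, `|l'| ≥ K/8`), `gm u ≤ gw(χ_N)h` (`gm u = ½∬(l-l')²f_uf_u'`, `f_u ≤ χ_N²f`). -/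
def SpecTH3 : Prop := ∃ C : ℝ, 0 < C ∧ ∀ (N K : ℝ) (σ : ℝ → ℝ) (h g x y : L2R), 0 < N → 32 * N ≤ K →
  (∀ l l', |σ l - σ l'| ≤ |l - l'|) → (∀ l, |l| ≤ K → σ l = 0) → E1 h → IsM σ h g →
  IsM (fun l => 1 - ch N l) h x → IsM (ch N) h y →
    |(2 * I4 g x y y + I4 g y x y).im| ≤ C * Real.sqrt (N / K * gm h) * Real.sqrt (gw (ch N) h)

/-- SLI (the slice inequality).  Hypotheses TW2, TH3, KEY, MX1, BRN, SB1, ORT, IB4, CHF.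
Proof.  `h = x + y`; `|h|²h = (x+y)conj(x+y)(x+y)`: `I4 g x x x = 0` (ORT, `6N < K`); two `x`: `2 I4 g x x y + I4 g x y x` (TW2);
one `x`: TH3; `I4 g y y y`: KEY for `y` (`IsM σ y g` because `χ_N = 1` where `σ ≠ 0`; `gm y = gw (ch N) h`), constant
`2/π ≤ 1`.  `(ab)^{1/2} ≤ (a+b)/2`. -/
def SpecSLI : Prop := ∃ C : ℝ, 0 < C ∧ ∀ (N K : ℝ) (σ : ℝ → ℝ) (h g : L2R), 0 < N → 32 * N ≤ K →
  (∀ l l', |σ l - σ l'| ≤ |l - l'|) → (∀ l, |l| ≤ K → σ l = 0) → E1 h → IsM σ h g →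
    0 ≤ gw (ch N) h ∧
    |(∫ b, conj (g b) * (((‖h b‖ ^ 2 : ℝ) : ℂ) * h b)).im| ≤ C * (gw (ch N) h + N / K * gm h)

end Pool.Agent.Lib.MP424d38.ES
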