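import Pool.Agent.Lib.MP_424d38_an.ES.SpecI
import Pool.Agent.Lib.MP_424d38_an.ES.NEA

section
/-!
# MP_424d38_an, block ES, module PAS: time derivative of a double integral, laws with sources
-/
set_option autoImplicit false

open MeasureTheory Filter Topology Set
open scoped ENNReal ContDiff ComplexConjugate

noncomputable section

namespace Pool.Agent.Lib.MP424d38.ES

open Pool.Agent.Lib.MP424d38.TY

namespace PASM

open PAIM

/-- the first variable -/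
theorem var1 (hDDB : SpecDDB) {T : ℝ} {f F s₁ : ℝ → L1} (hf : LawS T f F s₁) {κ : ℝ → ℝ}
    (hκ : Cb1 κ) (g : L1) (s t : ℝ) (h0 : 0 ≤ s) (h1 : s ≤ t) (h2 : t < T) :
    DD κ (f t) g - DD κ (f s) g = ∫ r in s..t, (DD (deriv κ) (F r) g + DD κ (s₁ r) g) := by
  obtain ⟨C, hC⟩ := hκ.2
  have hc' : Continuous (deriv κ) := hκ.1.continuous_deriv (by norm_num)
  rw [DD_eq hDDB hκ.1.continuous (fun s => (hC s).1), DD_eq hDDB hκ.1.continuous
    (fun s => (hC s).1)]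
  obtain ⟨h3, h4⟩ := bet_Cb1 hκ g
  rw [hf.law _ h3 s t h0 h1 h2, h4]
  refine intervalIntegral.integral_congr fun r _ => ?_
  show (∫ a, bet (deriv κ) g a * F r a) + (∫ a, bet κ g a * s₁ r a)
    = DD (deriv κ) (F r) g + DD κ (s₁ r) g
  rw [DD_eq hDDB hc' (fun s => (hC s).2), DD_eq hDDB hκ.1.continuous (fun s => (hC s).1)]

theorem var2 (hDDB : SpecDDB) {T : ℝ} {g G s₂ : ℝ → L1} (hg : LawS T g G s₂) {κ : ℝ → ℝ}
    (hκ : Cb1 κ) (f : L1) (s t : ℝ) (h0 : 0 ≤ s) (h1 : s ≤ t) (h2 : t < T) :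
    DD κ f (g t) - DD κ f (g s) = ∫ r in s..t, (- DD (deriv κ) f (G r) + DD κ f (s₂ r)) := by
  obtain ⟨C, hC⟩ := hκ.2
  have hc' : Continuous (deriv κ) := hκ.1.continuous_deriv (by norm_num)
  rw [hDDB.2.2.1 κ C hκ.1.continuous (fun s => (hC s).1) f (g t),
    hDDB.2.2.1 κ C hκ.1.continuous (fun s => (hC s).1) f (g s)]
  obtain ⟨h3, h4⟩ := refl_Cb1 hκ
  rw [var1 hDDB hg h3 f s t h0 h1 h2, h4]
  refine intervalIntegral.integral_congr fun r _ => ?_
  show DD (fun s => - deriv κ (-s)) (G r) f + DD (fun s => κ (-s)) (s₂ r) f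
    = - DD (deriv κ) f (G r) + DD κ f (s₂ r)
  rw [hDDB.2.2.1 κ C hκ.1.continuous (fun s => (hC s).1) f (s₂ r)]
  congr 1
  rw [hDDB.2.2.1 (deriv κ) C hc' (fun s => (hC s).2) f (G r)]
  unfold DD
  rw [← integral_neg]
  refine integral_congr_ae (ae_of_all _ fun z => ?_)
  show - deriv κ (-(z.1 - z.2)) * (G r z.1 * f z.2) = -(deriv κ (-(z.1 - z.2)) * (G r z.1 * f z.2))
  ring

end PASM

open PAIM in
theorem specPAS (hDDB : TY.SpecDDB) : SpecPAS := by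
  intro T f F s₁ g G s₂ hf hg κ hκ s t h0 h1 h2
  obtain ⟨C, hC⟩ := hκ.2
  have hc : Continuous κ := hκ.1.continuous
  have hc' : Continuous (deriv κ) := hκ.1.continuous_deriv (by norm_num)
  have hfst : ∀ {f : ℝ → L1}, ContinuousOn f (Ico 0 T) →
      ContinuousOn (fun z : ℝ × ℝ => f z.1) (Ico 0 T ×ˢ Ico 0 T) := fun hf =>
    hf.comp continuousOn_fst fun z hz => hz.1
  have hsnd : ∀ {f : ℝ → L1}, ContinuousOn f (Ico 0 T) →
      ContinuousOn (fun z : ℝ × ℝ => f z.2) (Ico 0 T ×ˢ Ico 0 T) := fun hf =>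
    hf.comp continuousOn_snd fun z hz => hz.2
  have key := fund (T := T) (Ψ := fun x y => DD κ (f x) (g y))
    (P := fun x y => DD (deriv κ) (F x) (g y) + DD κ (s₁ x) (g y))
    (Q := fun x y => - DD (deriv κ) (f x) (G y) + DD κ (f x) (s₂ y))
    (DD_cont hDDB hc (fun s => (hC s).1) hf.cf hg.cf)
    ((DD_cont hDDB hc' (fun s => (hC s).2) (hfst hf.cF) (hsnd hg.cf)).add
      (DD_cont hDDB hc (fun s => (hC s).1) (hfst hf.cs) (hsnd hg.cf)))
    ((DD_cont hDDB hc' (fun s => (hC s).2) (hfst hf.cf) (hsnd hg.cF)).neg.add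
      (DD_cont hDDB hc (fun s => (hC s).1) (hfst hf.cf) (hsnd hg.cs)))
    (fun s t u h0 h1 h2 _ => PASM.var1 hDDB hf hκ (g u) s t h0 h1 h2)
    (fun s t u h0 h1 h2 _ => PASM.var2 hDDB hg hκ (f u) s t h0 h1 h2) s t h0 h1 h2
  rw [key]
  refine intervalIntegral.integral_congr fun r _ => ?_
  show (DD (deriv κ) (F r) (g r) + DD κ (s₁ r) (g r))
    + (- DD (deriv κ) (f r) (G r) + DD κ (f r) (s₂ r)) = _
  ring

end Pool.Agent.Lib.MP424d38.ES
end
end

section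
/-!
# MP_424d38_an, block ES, module TAI: the tail
-/
set_option autoImplicit false

open MeasureTheory Filter Topology Set
open scoped ENNReal ContDiff ComplexConjugate

noncomputable section

namespace Pool.Agent.Lib.MP424d38.ES

open Pool.Agent.Lib.MP424d38.TY

namespace TAIM

/-- the truncated tail symbol -/
def sk (K k l : ℝ) : ℝ := min (max (|l| - K) 0) k

lemma sk_meas (K k : ℝ) : Measurable (sk K k) := by
  unfold sk
  fun_prop

lemma sk_nonneg {K k : ℝ} (hk : 0 ≤ k) (l : ℝ) : 0 ≤ sk K k l := le_min (le_max_right _ _) hk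

lemma sk_bdd {K k : ℝ} (hk : 0 ≤ k) (l : ℝ) : |sk K k l| ≤ k := by
  rw [abs_of_nonneg (sk_nonneg hk l)]
  exact min_le_right _ _

lemma sk_le (K k l : ℝ) : sk K k l ≤ max (|l| - K) 0 := min_le_left _ _

lemma sk_lip (K k l l' : ℝ) : |sk K k l - sk K k l'| ≤ |l - l'| := by
  unfold sk
  refine (abs_min_sub_min_le_max _ _ _ _).trans ?_
  rw [sub_self, abs_zero, max_le_iff]
  refine ⟨?_, abs_nonneg _⟩
  refine (abs_max_sub_max_le_max _ _ _ _).trans ?_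
  rw [sub_self, abs_zero, max_le_iff]
  refine ⟨?_, abs_nonneg _⟩
  have : |l| - K - (|l'| - K) = |l| - |l'| := by ring
  rw [this]
  exact abs_abs_sub_abs_le_abs_sub l l'

lemma sk_zero {K k l : ℝ} (hk : 0 ≤ k) (h : |l| ≤ K) : sk K k l = 0 := by
  unfold sk
  rw [max_eq_right (by linarith), min_eq_left hk]

lemma sk_adm {K k : ℝ} (hk : 0 ≤ k) : AdmK K (sk K k) := by
  refine ⟨sk_meas K k, ⟨k, sk_bdd hk⟩, 0, fun l l' => ?_, fun l hl => ?_⟩
  · rw [zero_mul, zero_mul, sub_zero, sub_zero]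
    exact sk_lip K k l l'
  · rw [zero_mul, sub_zero]
    exact sk_zero hk hl

lemma tail_le_sq {K : ℝ} (hK : 0 < K) (l : ℝ) : max (|l| - K) 0 ≤ l ^ 2 / (4 * K) := by
  rw [max_le_iff]
  refine ⟨?_, by positivity⟩
  rw [le_div_iff₀ (by positivity)]
  nlinarith [sq_nonneg (|l| - 2 * K), sq_abs l]

lemma tail_le_one {K : ℝ} (hK : 0 < K) (l : ℝ) : max (|l| - K) 0 ≤ 1 + l ^ 2 := by
  rw [max_le_iff]
  refine ⟨?_, by positivity⟩
  nlinarith [sq_nonneg (|l| - 1), sq_abs l, abs_nonneg l]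

lemma sk_tendsto (K l : ℝ) : Tendsto (fun k : ℕ => sk K k l) atTop (𝓝 (max (|l| - K) 0)) := by
  refine tendsto_const_nhds.congr' ?_
  obtain ⟨k0, hk0⟩ := exists_nat_ge (max (|l| - K) 0)
  filter_upwards [eventually_ge_atTop k0] with k hk
  unfold sk
  rw [min_eq_left]
  exact hk0.trans (by exact_mod_cast hk)

lemma meas_sq (P : L2 ≃ₗᵢ[ℂ] L2) (f : L2) {w : ℝ → ℝ} (hw : Measurable w) :
    AEStronglyMeasurable (fun x : ℝ × ℝ => w (2 * Real.pi * x.2) * ‖P f x‖ ^ 2) volume := by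
  refine AEStronglyMeasurable.mul ?_ ?_
  · exact (hw.comp (by fun_prop : Measurable fun x : ℝ × ℝ => 2 * Real.pi * x.2)).aestronglyMeasurable
  · exact ((Lp.aestronglyMeasurable (P f)).norm.pow 2)

/-- the integral with a symbol dominated by `1 + l²` -/
lemma int_sym {P : L2 ≃ₗᵢ[ℂ] L2} {f : L2}
    (hI : Integrable fun x : ℝ × ℝ => (1 + (2 * Real.pi * x.2) ^ 2) * ‖P f x‖ ^ 2)
    {w : ℝ → ℝ} (hw : Measurable w) (hb : ∀ l, |w l| ≤ 1 + l ^ 2) :
    Integrable fun x : ℝ × ℝ => w (2 * Real.pi * x.2) * ‖P f x‖ ^ 2 := by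
  refine hI.mono' (meas_sq P f hw) (ae_of_all _ fun x => ?_)
  rw [norm_mul, Real.norm_eq_abs, Real.norm_eq_abs, abs_of_nonneg (sq_nonneg ‖P f x‖)]
  exact mul_le_mul_of_nonneg_right (hb _) (sq_nonneg _)

/-- convergence of the truncated integrals -/
lemma YY_tendsto {P : L2 ≃ₗᵢ[ℂ] L2} {f : L2}
    (hI : Integrable fun x : ℝ × ℝ => (1 + (2 * Real.pi * x.2) ^ 2) * ‖P f x‖ ^ 2)
    {K : ℝ} (hK : 0 < K) :
    Tendsto (fun k : ℕ => ∫ x : ℝ × ℝ, sk K k (2 * Real.pi * x.2) * ‖P f x‖ ^ 2) atTop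
      (𝓝 (YY P K f)) := by
  unfold YY
  refine tendsto_integral_of_dominated_convergence
    (fun x : ℝ × ℝ => (1 + (2 * Real.pi * x.2) ^ 2) * ‖P f x‖ ^ 2)
    (fun k => meas_sq P f (sk_meas K k)) hI (fun k => ae_of_all _ fun x => ?_)
    (ae_of_all _ fun x => ?_)
  · rw [norm_mul, Real.norm_eq_abs, Real.norm_eq_abs, abs_of_nonneg (sq_nonneg ‖P f x‖),
      abs_of_nonneg (sk_nonneg (Nat.cast_nonneg k) _)]
    exact mul_le_mul_of_nonneg_right ((sk_le _ _ _).trans (tail_le_one hK _)) (sq_nonneg _)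
  · exact (sk_tendsto K _).mul_const _

/-- the initial value -/
lemma init_le {P : L2 ≃ₗᵢ[ℂ] L2} {f : L2} {A : ℝ}
    (hI : Integrable fun x : ℝ × ℝ => (1 + (2 * Real.pi * x.2) ^ 2) * ‖P f x‖ ^ 2)
    (hA : A = ∫ x : ℝ × ℝ, (2 * Real.pi * x.2) ^ 2 * ‖P f x‖ ^ 2)
    {K k : ℝ} (hK : 0 < K) (hk : 0 ≤ k) :
    (∫ x : ℝ × ℝ, sk K k (2 * Real.pi * x.2) * ‖P f x‖ ^ 2) ≤ A / (4 * K) := by
  have h1 : Integrable fun x : ℝ × ℝ => (2 * Real.pi * x.2) ^ 2 * ‖P f x‖ ^ 2 :=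
    int_sym (w := fun l => l ^ 2) hI (by fun_prop) (fun l => by
      rw [abs_of_nonneg (sq_nonneg l)]; linarith)
  have h2 : Integrable fun x : ℝ × ℝ => sk K k (2 * Real.pi * x.2) * ‖P f x‖ ^ 2 :=
    int_sym hI (sk_meas K k) (fun l => by
      rw [abs_of_nonneg (sk_nonneg hk l)]
      exact (sk_le _ _ _).trans (tail_le_one hK l))
  rw [hA, div_eq_mul_inv, mul_comm _ (4 * K)⁻¹, ← integral_const_mul]
  refine integral_mono h2 (h1.const_mul _) fun x => ?_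
  show sk K k (2 * Real.pi * x.2) * ‖P f x‖ ^ 2
    ≤ (4 * K)⁻¹ * ((2 * Real.pi * x.2) ^ 2 * ‖P f x‖ ^ 2)
  have := (sk_le K k (2 * Real.pi * x.2)).trans (tail_le_sq hK (2 * Real.pi * x.2))
  calc _ ≤ (2 * Real.pi * x.2) ^ 2 / (4 * K) * ‖P f x‖ ^ 2 :=
        mul_le_mul_of_nonneg_right this (sq_nonneg _)
    _ = _ := by ring

end TAIM

open TAIM in
theorem specTAI (hSKS : SpecSKS) (hHFM : SpecHFM) (hTOT : SpecTOT) (hMTX : SpecMTX)
    (hGGI : SpecGGI) (hMDE : SpecMDE) (hFLO : TY.SpecFLO) (hGLM : TY.SpecGLM) : SpecTAI := by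
  obtain ⟨C₁, hC₁, hsks⟩ := hSKS
  refine ⟨9 * C₁, by positivity, ?_⟩
  intro P hP T v v₁ v₂ N hN s hs G M hM hX hG
  have hT : 0 < T := lt_of_le_of_lt hs.1 hs.2
  obtain ⟨ρ, p, e, hF, hFe⟩ := hFLO T v v₁ v₂ N hN
  have hg0 : ∀ r ∈ Ico 0 T, 0 ≤ gD (v r) (v₂ r) := fun r hr => (hGGI T v v₁ v₂ N hN r hr).1
  have hgI : IntegrableOn (fun r => gD (v r) (v₂ r)) (Icc 0 s) := (hGGI T v v₁ v₂ N hN s hs).2
  have hsub : Icc 0 s ⊆ Ico 0 T := fun x hx => ⟨hx.1, hx.2.trans_lt hs.2⟩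
  have hgi0 : 0 ≤ ∫ r in (0 : ℝ)..s, gD (v r) (v₂ r) :=
    intervalIntegral.integral_nonneg hs.1 fun r hr => hg0 r (hsub hr)
  have hG1 : 1 ≤ G := by linarith
  have hM0 : 0 < M := by linarith
  have hsM : 32 ≤ Real.sqrt M := by
    rw [show (32 : ℝ) = Real.sqrt (32 ^ 2) by rw [Real.sqrt_sq (by norm_num)]]
    exact Real.sqrt_le_sqrt (by linarith)
  have hsM0 : 0 < Real.sqrt M := by linarith
  have hMM : Real.sqrt M * Real.sqrt M = M := Real.mul_self_sqrt hM0.le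
  set K : ℝ := M * G with hKd
  have hK : 0 < K := by positivity
  set n : ℝ := Real.sqrt M * G with hnd
  have hn : 0 < n := by positivity
  have hKn : K = Real.sqrt M * n := by rw [hKd, hnd, ← mul_assoc, hMM]
  have h32 : 32 * n ≤ K := by
    rw [hKn]
    exact mul_le_mul_of_nonneg_right hsM hn.le
  have hnK : n / K = 1 / Real.sqrt M := by
    rw [hKn]
    field_simp
  obtain ⟨hg2, hg2I, hg2b⟩ := hHFM P hP T v v₁ v₂ N hN n hn s hs G hX hG
  have hg2b' : (∫ t in (0 : ℝ)..s, ∫ a, g2 P n (v t) a) ≤ 8 * G / Real.sqrt M := by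
    refine hg2b.trans (le_of_eq ?_)
    rw [hnd]
    field_simp
  -- integrability of the density of `g`
  have hγI : ∀ r ∈ Ico 0 T, Integrable fun a =>
      rhoD (v r) a * rhoD (v₂ r) a - momD (v r) (v₂ r) a ^ 2 := by
    intro r hr
    have h1 := (hGLM (ρ r) (p r) (e r) _ (hF.pos r hr)).1
    obtain ⟨h2, h3, h4, -⟩ := hFe r hr
    refine h1.congr ?_
    filter_upwards [h2, h3, h4] with a ha hb hc
    rw [ha, hb, hc]
  -- first part
  have hA : ∀ (σ : ℝ → ℝ) (S : L2 →L[ℂ] L2), AdmK K σ → IsMT P σ S →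
      (∫ r in (0 : ℝ)..s, ∫ a, |src S (v r) (N r) a|) ≤ 9 * C₁ / Real.sqrt M * G := by
    intro σ S hσ hS
    obtain ⟨Cσ, hCσ⟩ := hσ.2.1
    have hcont := (hTOT P hP T v v₁ v₂ N hN σ Cσ S hσ.1 hCσ hS).1
    have hi1 : IntervalIntegrable (fun r => ∫ a, |src S (v r) (N r) a|) volume 0 s := by
      apply ContinuousOn.intervalIntegrable
      rw [uIcc_of_le hs.1]
      exact hcont.mono hsub
    have hi2 : IntervalIntegrable (fun r => ∫ a, g2 P n (v r) a) volume 0 s := by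
      rw [intervalIntegrable_iff_integrableOn_Icc_of_le hs.1]
      exact hg2I
    have hi3 : IntervalIntegrable (fun r => gD (v r) (v₂ r)) volume 0 s := by
      rw [intervalIntegrable_iff_integrableOn_Icc_of_le hs.1]
      exact hgI
    have hpt : ∀ r ∈ Icc 0 s, (∫ a, |src S (v r) (N r) a|)
        ≤ C₁ * ((∫ a, g2 P n (v r) a) + 1 / Real.sqrt M * gD (v r) (v₂ r)) := by
      intro r hr
      have hrT := hsub hr
      have h1 := (hsks P hP (v r) (v₁ r) (v₂ r) (hN.h1 r hrT) (N r) (hN.nl r hrT) n K σ S hn h32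
        hσ hS).1
      have hI : Integrable fun a => C₁ * (g2 P n (v r) a
          + n / K * (rhoD (v r) a * rhoD (v₂ r) a - momD (v r) (v₂ r) a ^ 2)) :=
        ((hg2 r hr).add ((hγI r hrT).const_mul (n / K))).const_mul C₁
      have h2 : (∫ a, |src S (v r) (N r) a|) ≤ ∫ a, C₁ * (g2 P n (v r) a
          + n / K * (rhoD (v r) a * rhoD (v₂ r) a - momD (v r) (v₂ r) a ^ 2)) :=
        integral_mono_of_nonneg (ae_of_all _ fun a => abs_nonneg _) hI h1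
      refine h2.trans (le_of_eq ?_)
      rw [integral_const_mul, integral_add (hg2 r hr) ((hγI r hrT).const_mul (n / K)),
        integral_const_mul, hnK]
      rfl
    have h3 : (∫ r in (0 : ℝ)..s, ∫ a, |src S (v r) (N r) a|) ≤
        ∫ r in (0 : ℝ)..s, C₁ * ((∫ a, g2 P n (v r) a) + 1 / Real.sqrt M * gD (v r) (v₂ r)) :=
      intervalIntegral.integral_mono_on hs.1 hi1 ((hi2.add (hi3.const_mul _)).const_mul _) hpt
    rw [intervalIntegral.integral_const_mul, intervalIntegral.integral_add hi2 (hi3.const_mul _),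
      intervalIntegral.integral_const_mul] at h3
    refine h3.trans ?_
    have h4 : (∫ r in (0 : ℝ)..s, gD (v r) (v₂ r)) ≤ G := by linarith
    have h5 : 1 / Real.sqrt M * (∫ r in (0 : ℝ)..s, gD (v r) (v₂ r)) ≤ 1 / Real.sqrt M * G :=
      mul_le_mul_of_nonneg_left h4 (by positivity)
    calc C₁ * ((∫ r in (0 : ℝ)..s, ∫ a, g2 P n (v r) a)
          + 1 / Real.sqrt M * ∫ r in (0 : ℝ)..s, gD (v r) (v₂ r))
        ≤ C₁ * (8 * G / Real.sqrt M + 1 / Real.sqrt M * G) :=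
          mul_le_mul_of_nonneg_left (add_le_add hg2b' h5) hC₁.le
      _ = 9 * C₁ / Real.sqrt M * G := by ring
  refine ⟨hA, ?_⟩
  -- second part
  have h0T : (0 : ℝ) ∈ Ico 0 T := ⟨le_rfl, hT⟩
  obtain ⟨-, hIs, -⟩ := hMDE P hP (v s) (v₁ s) (v₂ s) (hN.h1 s hs)
  obtain ⟨-, hI0, hA0⟩ := hMDE P hP (v 0) (v₁ 0) (v₂ 0) (hN.h1 0 h0T)
  refine le_of_tendsto (YY_tendsto hIs hK) (Eventually.of_forall fun k => ?_)
  have hk : (0 : ℝ) ≤ (k : ℝ) := Nat.cast_nonneg k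
  obtain ⟨S, hS⟩ := (hMTX P hP (sk K k) k (sk_meas K k) (sk_bdd hk)).1
  have h1 := (hTOT P hP T v v₁ v₂ N hN (sk K k) k S (sk_meas K k) (sk_bdd hk) hS).2 0 s le_rfl
    hs.1 hs.2
  have h2 := hA (sk K k) S (sk_adm hk) hS
  have h3 := init_le hI0 hA0 hK hk
  have h4 := (abs_le.1 h1).2
  linarith

end Pool.Agent.Lib.MP424d38.ES
end
end
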